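import Pool.Agent.MP_a43263_nt.RG.Surf

/-! PROJECT RANKG: the generic fibre and the hypotheses of the final theorem. -/

namespace Pool.Agent.MP_a43263_nt.RG.Surf

variable {n : ℕ} (F : Surf n)

/-- The generic point `(t : 1)` of the projective line. -/
noncomputable def gp : RatFunc ℚ × RatFunc ℚ := (RatFunc.X, 1)

/-- The generic fibre `y ^ 2 = x (x - D₁) (x - D₂)` over `ℚ(t)`. -/
noncomputable def gen : WeierstrassCurve (RatFunc ℚ) :=
  ⟨0, -(F.D 1 gp + F.D 2 gp), 0, F.D 1 gp * F.D 2 gp, 0⟩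

/-- The degree is even and positive, the forms are pairwise not proportional, `D₀ = D₁ - D₂`, and
every class that satisfies the residue conditions has a point over `ℚ(t)`. -/
structure CondD : Prop where
  ev : Even n
  pos : 0 < n
  c0 : ∀ i, F.c i ≠ 0
  ne : ∀ j k, j ≠ k → F.L j (F.root k) ≠ 0
  sum : ∀ v : ℚ × ℚ, F.D 0 v = F.D 1 v - F.D 2 v
  sol : ∀ u y, F.InS u y → Cover (F.D 1 gp) (F.D 2 gp) (F.del u y 2 gp) (F.del u y 1 gp)

end Pool.Agent.MP_a43263_nt.RG.Surf
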