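import Mathlib.GroupTheory.IndexNSmul
import Mathlib.FieldTheory.RatFunc.Degree
import Pool.Agent.MP_a43263_nt.RH.Gen

-- ======== part 0: formerly Pool.Agent.MP_a43263_nt.RH.GenSpec
section MrgPart0

/-! PROJECT RANKG, block GEN: the rank of the generic fibre.
Blueprint: `/team-store/RANKG_GEN_BLUEPRINT.md`. -/

set_option autoImplicit false

noncomputable section

namespace Pool.Agent.MP_a43263_nt.RH

open Finset Polynomial RG RG.Surf

/-- the curve `y ^ 2 = x (x - a) (x - b)` over any field -/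
def cK {K : Type} [Field K] (a b : K) : WeierstrassCurve K := ⟨0, -(a + b), 0, a * b, 0⟩

/-- three binary forms of even degree `n` without common or multiple zeros -/
structure PolyOk (n : ℕ) (a b : ℚ[X]) : Prop where
  ev : Even n
  pos : 0 < n
  sa : Squarefree a
  sb : Squarefree b
  sd : Squarefree (a - b)
  cop : IsCoprime a b
  da : n ≤ a.natDegree + 1 ∧ a.natDegree ≤ n
  db : n ≤ b.natDegree + 1 ∧ b.natDegree ≤ n
  dd : n ≤ (a - b).natDegree + 1
  dab : a.natDegree = n ∨ b.natDegree = n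

/-- the hypotheses without the solubility -/
structure Hyp0 {n : ℕ} (F : Surf n) : Prop where
  ev : Even n
  pos : 0 < n
  c0 : ∀ i, F.c i ≠ 0
  ne : ∀ j k, j ≠ k → F.L j (F.root k) ≠ 0
  sum : ∀ v : ℚ × ℚ, F.D 0 v = F.D 1 v - F.D 2 v

/-- the degree of a section -/
def Hx (n : ℕ) (x : RatFunc ℚ) : ℕ := max x.num.natDegree (x.denom.natDegree + n)

def HP (n : ℕ) {V : WeierstrassCurve.Affine (RatFunc ℚ)} : V.Point → ℕ
  | .zero => 0
  | .some x _ _ => Hx n x

/-- an anisotropic integral quadratic form gives finite generation -/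
def LATStmt : Prop := ∀ (A : Type) [AddCommGroup A] (q : A → ℤ),
  (∀ x y, q (x + y) + q (x - y) = 2 * q x + 2 * q y) → (∀ x, q x = 0 → 2 • x = 0) →
  Finite {x : A // 2 • x = 0} → (nsmulAddMonoidHom (α := A) 2).range.FiniteIndex → AddGroup.FG A

/-- duplication multiplies the degree by four -/
def DUPStmt : Prop := ∀ (n : ℕ) (a b : ℚ[X]), PolyOk n a b → ∀ x y : RatFunc ℚ,
  y ^ 2 = x * (x - algebraMap _ _ a) * (x - algebraMap _ _ b) → y ≠ 0 → IsSquare x →
  IsSquare (x - algebraMap _ _ a) → IsSquare (x - algebraMap _ _ b) →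
  Hx n ((x ^ 2 - algebraMap _ _ a * algebraMap _ _ b) ^ 2 / (4 * y ^ 2)) = 4 * Hx n x

open Classical in
/-- one half of the parallelogram law -/
def PLGStmt : Prop := ∀ (n : ℕ) (a b : ℚ[X]), a ≠ 0 → b ≠ 0 → a ≠ b → ∃ C : ℕ,
  ∀ P Q : (cK (algebraMap _ (RatFunc ℚ) a) (algebraMap _ _ b)).toAffine.Point,
    HP n (P + Q) + HP n (P - Q) ≤ 2 * HP n P + 2 * HP n Q + C

open Classical in
/-- the canonical height -/
def HGTStmt : Prop := ∀ (n : ℕ) (a b : ℚ[X]), PolyOk n a b →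
  ∃ q : (cK (algebraMap _ (RatFunc ℚ) a) (algebraMap _ _ b)).toAffine.Point → ℤ,
    (∀ x y, q (x + y) + q (x - y) = 2 * q x + 2 * q y) ∧ ∀ x, q x = 0 → 2 • x = 0

/-- complete 2-descent over any field -/
def RKKStmt : Prop := ∀ (K : Type) [Field K] [CharZero K] [DecidableEq K] (a b : K) (ι : Type)
  (I : Finset ι) (d₂ d₃ : ι → K), a ≠ 0 → b ≠ 0 → a ≠ b →
  (∀ i ∈ I, d₂ i ≠ 0 ∧ d₃ i ≠ 0 ∧ Cover a b (d₂ i) (d₃ i)) →
  (∀ i ∈ I, ∀ j ∈ I, IsSquare (d₂ i * d₂ j) → IsSquare (d₃ i * d₃ j) → i = j) →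
  (∀ e₂ e₃ : K, e₂ ≠ 0 → e₃ ≠ 0 → Cover a b e₂ e₃ →
    ∃ i ∈ I, IsSquare (e₂ * d₂ i) ∧ IsSquare (e₃ * d₃ i)) →
  (nsmulAddMonoidHom (α := (cK a b).toAffine.Point) 2).range.index = I.card ∧
    Nat.card {Z : (cK a b).toAffine.Point // 2 • Z = 0} = 2 ^ 2

def POLYStmt : Prop := ∀ (n : ℕ) (F : Surf n), Hyp0 F → ∃ a b : ℚ[X], PolyOk n a b ∧
  F.D 1 gp = algebraMap _ _ a ∧ F.D 2 gp = algebraMap _ _ b

/-- soluble classes satisfy the residue conditions -/
def RESStmt : Prop := ∀ (n : ℕ) (F : Surf n), Hyp0 F → ∀ e₂ e₃ : RatFunc ℚ, e₂ ≠ 0 → e₃ ≠ 0 →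
  Cover (F.D 1 gp) (F.D 2 gp) e₂ e₃ →
    ∃ u y, F.InS u y ∧ IsSquare (e₂ * F.del u y 2 gp) ∧ IsSquare (e₃ * F.del u y 1 gp)

/-- the class is determined by `y` and determines `y` -/
def INJStmt : Prop := ∀ (n : ℕ) (F : Surf n), Hyp0 F → ∀ u y u' y', F.InS u y → F.InS u' y' →
  (∀ i, F.del u y i gp ≠ 0) ∧
  (IsSquare (F.del u y 2 gp * F.del u' y' 2 gp) ∧ IsSquare (F.del u y 1 gp * F.del u' y' 1 gp) ↔
    y = y')

open Classical in
def GENStmt : Prop := ∀ (n : ℕ) (F : Surf n), F.CondD → ∃ r : ℕ,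
  Module.rank ℤ F.gen.toAffine.Point = r ∧ {y | ∃ u, F.InS u y}.ncard = 2 ^ (r + 2)

theorem gen_of (lat : LATStmt) (dup : DUPStmt) (plg : PLGStmt) (hgt : DUPStmt → PLGStmt → HGTStmt)
    (rkk : RKKStmt) (poly : POLYStmt) (res : RESStmt) (inj : INJStmt)
    (gen : LATStmt → HGTStmt → RKKStmt → POLYStmt → RESStmt → INJStmt → GENStmt) : GENStmt :=
  gen lat (hgt dup plg) rkk poly res inj

end Pool.Agent.MP_a43263_nt.RH

end
end MrgPart0

-- ======== part 1: formerly Pool.Agent.MP_a43263_nt.RH.GenDup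
section MrgPart1

/-! PROJECT RANKG, block GEN, row DUP: duplication multiplies the degree by four. -/

set_option autoImplicit false

namespace Pool.Agent.MP_a43263_nt.RH

open Polynomial

namespace Dup

variable {p q p' q' f f' d w π u a b : ℚ[X]}

theorem assoc (h : IsCoprime p q) (h' : IsCoprime p' q') (e : p * q' = p' * q) :
    Associated p p' ∧ Associated q q' :=
  ⟨associated_of_dvd_dvd (h.dvd_of_dvd_mul_right ⟨q', e.symm⟩) (h'.dvd_of_dvd_mul_right ⟨q, e⟩),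
    associated_of_dvd_dvd (h.symm.dvd_of_dvd_mul_left ⟨p', by rw [e, mul_comm]⟩)
      (h'.symm.dvd_of_dvd_mul_left ⟨p, by rw [← e, mul_comm]⟩)⟩

theorem deg_eq (h : Associated p q) : p.natDegree = q.natDegree :=
  natDegree_eq_of_degree_eq (degree_eq_degree_of_associated h)

theorem hx_div (n : ℕ) (h : IsCoprime p q) (hq : q ≠ 0) :
    Hx n (algebraMap _ (RatFunc ℚ) p / algebraMap _ _ q) = max p.natDegree (q.natDegree + n) := by
  obtain ⟨h1, h2⟩ := assoc (RatFunc.isCoprime_num_denom _) h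
    ((RatFunc.num_mul_eq_mul_denom_iff hq).2 rfl)
  rw [Hx, deg_eq h1, deg_eq h2]

/-- a constant times a square -/
def Sq (f : ℚ[X]) : Prop := ∃ p, Associated f (p ^ 2)

theorem Sq.even (h : Sq f) : Even f.natDegree := by
  obtain ⟨p, h⟩ := h
  rw [deg_eq h, natDegree_pow]
  exact even_two_mul _

theorem Sq.dvd (h : Sq f) (hπ : Prime π) (hd : π ∣ f) : π ^ 2 ∣ f := by
  obtain ⟨p, h⟩ := h
  exact (pow_dvd_pow_of_dvd (hπ.dvd_of_dvd_pow (hd.trans h.dvd)) 2).trans h.symm.dvd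

theorem sq_of (h : IsCoprime f w) (hw : w ≠ 0)
    (hs : IsSquare (algebraMap _ (RatFunc ℚ) f / algebraMap _ _ w)) : Sq f ∧ Sq w := by
  obtain ⟨s, hs⟩ := hs
  have h0 := RatFunc.algebraMap_ne_zero (RatFunc.denom_ne_zero s)
  rw [← RatFunc.num_div_denom s, div_mul_div_comm, ← sq, ← sq,
    div_eq_div_iff (RatFunc.algebraMap_ne_zero hw) (pow_ne_zero 2 h0), ← map_pow, ← map_pow,
    ← map_mul, ← map_mul] at hs
  obtain ⟨h1, h2⟩ := assoc h (RatFunc.isCoprime_num_denom s).pow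
    (RatFunc.algebraMap_injective ℚ hs)
  exact ⟨⟨_, h1⟩, ⟨_, h2⟩⟩

theorem no_two (hf : Sq f) (hf' : Sq f') (e : f - f' = d * w) (hd : Squarefree d) (hπ : Prime π)
    (hw : ¬π ∣ w) (h : π ∣ f) (h' : π ∣ f') : False := by
  have h1 : π ^ 2 ∣ d * w := e ▸ dvd_sub (hf.dvd hπ h) (hf'.dvd hπ h')
  exact hπ.not_isUnit (hd π (sq π ▸ hπ.pow_dvd_of_dvd_mul_right 2 hw h1))

theorem cop (hc : IsCoprime u w) (h0 : Sq u) (h1 : Sq (u - a * w)) (h2 : Sq (u - b * w))
    (ha : Squarefree a) (hb : Squarefree b) (hd : Squarefree (a - b))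
    (hn : 4 * (w * (u * (u - a * w) * (u - b * w))) ≠ 0) :
    IsCoprime ((u * u - a * w * (b * w)) ^ 2) (4 * (w * (u * (u - a * w) * (u - b * w)))) := by
  refine isCoprime_of_prime_dvd (fun h => hn h.2) fun π hπ h h' => ?_
  have g := hπ.dvd_of_dvd_pow h
  have hw : ¬π ∣ w := fun hw => by
    have : π ∣ u * u := by
      simpa using dvd_add g ((hw.mul_left b).mul_left (a * w))
    exact hπ.not_isUnit (hc.isUnit_of_dvd' ((hπ.dvd_or_dvd this).elim id id) hw)
  have k1 : π ∣ u → ¬π ∣ u - a * w := no_two h0 h1 (by ring) ha hπ hw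
  have k2 : π ∣ u → ¬π ∣ u - b * w := no_two h0 h2 (by ring) hb hπ hw
  have k3 : π ∣ u - b * w → ¬π ∣ u - a * w := no_two h2 h1 (by ring) hd hπ hw
  have h4 : ¬π ∣ 4 := fun h => hπ.not_isUnit (isUnit_of_dvd_unit h
    (isUnit_C.2 (IsUnit.mk0 (4 : ℚ) (by norm_num))))
  rcases hπ.dvd_or_dvd (((hπ.dvd_or_dvd h').resolve_left h4 |> hπ.dvd_or_dvd).resolve_left hw)
    with h | h
  · rcases hπ.dvd_or_dvd h with h | h
    · have : π ∣ (u - a * w) * (u - b * w) := by
        rw [show (u - a * w) * (u - b * w) = u * (2 * u - a * w - b * w) -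
          (u * u - a * w * (b * w)) by ring]
        exact dvd_sub (h.mul_right _) g
      exact (hπ.dvd_or_dvd this).elim (k1 h) (k2 h)
    · have : π ∣ u * (u - b * w) := by
        rw [show u * (u - b * w) = (u * u - a * w * (b * w)) - (u - a * w) * (b * w) by ring]
        exact dvd_sub g (h.mul_right _)
      exact (hπ.dvd_or_dvd this).elim (k1 · h) (k3 · h)
  · have : π ∣ u * (u - a * w) := by
      rw [show u * (u - a * w) = (u * u - a * w * (b * w)) - (u - b * w) * (a * w) by ring]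
      exact dvd_sub g (h.mul_right _)
    exact (hπ.dvd_or_dvd this).elim (k2 · h) (k3 h)

theorem small {D : ℕ} (hD : Even D) (hf : Sq f) (h0 : f ≠ 0) (hle : f.natDegree ≤ D)
    (h : f.coeff D = 0) : f.natDegree + 2 ≤ D := by
  have h1 : f.natDegree ≠ D := fun e => leadingCoeff_ne_zero.2 h0 (by rw [leadingCoeff, e, h])
  obtain ⟨i, hi⟩ := hD
  obtain ⟨j, hj⟩ := hf.even
  omega

theorem no_two' {n : ℕ} (hD : Even (w.natDegree + n)) (hf : Sq f) (hf' : Sq f') (h0 : f ≠ 0)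
    (h0' : f' ≠ 0) (hle : f.natDegree ≤ w.natDegree + n) (hle' : f'.natDegree ≤ w.natDegree + n)
    (e : f - f' = d * w) (hd : Squarefree d) (hw : w ≠ 0) (hn : n ≤ d.natDegree + 1)
    (h : f.coeff (w.natDegree + n) = 0) (h' : f'.coeff (w.natDegree + n) = 0) : False := by
  have h1 := small hD hf h0 hle h
  have h2 := small hD hf' h0' hle' h'
  have h3 := natDegree_sub_le f f'
  rw [e, natDegree_mul hd.ne_zero hw] at h3
  omega

theorem degs {n : ℕ} (H : PolyOk n a b) (hw : w ≠ 0) (hw' : Sq w) (h0 : Sq u)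
    (h1 : Sq (u - a * w)) (h2 : Sq (u - b * w)) (n0 : u ≠ 0) (n1 : u - a * w ≠ 0)
    (n2 : u - b * w ≠ 0) :
    max ((u * u - a * w * (b * w)) ^ 2).natDegree
      ((4 * (w * (u * (u - a * w) * (u - b * w)))).natDegree + n) =
      4 * max u.natDegree (w.natDegree + n) := by
  have e4 : (4 : ℚ[X]).natDegree = 0 := natDegree_C (4 : ℚ)
  rw [natDegree_pow, natDegree_mul (by norm_num) (mul_ne_zero hw (mul_ne_zero (mul_ne_zero n0 n1) n2)),
    natDegree_mul hw (mul_ne_zero (mul_ne_zero n0 n1) n2), natDegree_mul (mul_ne_zero n0 n1) n2,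
    natDegree_mul n0 n1, e4]
  set D := max u.natDegree (w.natDegree + n) with hD
  have l0 : u.natDegree ≤ D := le_max_left _ _
  have lw : w.natDegree + n ≤ D := le_max_right _ _
  have la' : (a * w).natDegree ≤ w.natDegree + n := natDegree_mul_le.trans (by have := H.da.2; omega)
  have lb' : (b * w).natDegree ≤ w.natDegree + n := natDegree_mul_le.trans (by have := H.db.2; omega)
  have la := la'.trans lw
  have lb := lb'.trans lw
  have l1 : (u - a * w).natDegree ≤ D := (natDegree_sub_le _ _).trans (max_le l0 la)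
  have l2 : (u - b * w).natDegree ≤ D := (natDegree_sub_le _ _).trans (max_le l0 lb)
  have lg : (u * u - a * w * (b * w)).natDegree ≤ D + D := (natDegree_sub_le _ _).trans
    (max_le (natDegree_mul_le.trans (add_le_add l0 l0)) (natDegree_mul_le.trans (add_le_add la lb)))
  by_cases hg : (u * u - a * w * (b * w)).coeff (D + D) = 0
  swap
  · have := natDegree_eq_of_le_of_coeff_ne_zero lg hg
    omega
  rw [coeff_sub, coeff_mul_add_eq_of_natDegree_le l0 l0, coeff_mul_add_eq_of_natDegree_le la lb]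
    at hg
  have hDe : D = w.natDegree + n := by
    by_contra h
    have h3 : w.natDegree + n < D := lt_of_le_of_ne lw (Ne.symm h)
    rw [coeff_eq_zero_of_natDegree_lt (la'.trans_lt h3), zero_mul, sub_zero, mul_self_eq_zero,
      show D = u.natDegree by omega] at hg
    exact leadingCoeff_ne_zero.2 n0 hg
  have hev : Even (w.natDegree + n) := hw'.even.add H.ev
  rw [hDe] at l0 l1 l2 hg
  have k1 := no_two' hev h0 h1 n0 n1 l0 l1 (by ring) H.sa hw H.da.1
  have k2 := no_two' hev h0 h2 n0 n2 l0 l2 (by ring) H.sb hw H.db.1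
  have k3 := no_two' hev h2 h1 n2 n1 l2 l1 (by ring) H.sd hw H.dd
  simp only [coeff_sub] at k1 k2 k3
  have c0 : u.coeff (w.natDegree + n) ≠ 0 := fun h => by
    rw [h, mul_zero, zero_sub, neg_eq_zero, mul_eq_zero] at hg
    exact hg.elim (fun e => k1 h (by rw [h, e, sub_zero])) fun e => k2 h (by rw [h, e, sub_zero])
  have c1 : (u - a * w).coeff (w.natDegree + n) ≠ 0 := fun h => by
    rw [coeff_sub] at h
    rw [← sub_eq_zero.1 h, ← mul_sub, mul_eq_zero] at hg
    exact k3 (hg.resolve_left c0) h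
  have c2 : (u - b * w).coeff (w.natDegree + n) ≠ 0 := fun h => by
    rw [coeff_sub] at h
    rw [← sub_eq_zero.1 h, ← sub_mul, mul_eq_zero] at hg
    exact k3 h (hg.resolve_right c0)
  have := natDegree_eq_of_le_of_coeff_ne_zero l0 c0
  have := natDegree_eq_of_le_of_coeff_ne_zero l1 c1
  have := natDegree_eq_of_le_of_coeff_ne_zero l2 c2
  omega

end Dup

open Dup in
theorem dup : DUPStmt := by
  intro n a b H x y e hy s0 s1 s2
  have hw := RatFunc.denom_ne_zero x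
  have hw' := RatFunc.algebraMap_ne_zero hw
  have hc := RatFunc.isCoprime_num_denom x
  have hx := (RatFunc.num_div_denom x).symm
  rw [show Hx n x = max x.num.natDegree (x.denom.natDegree + n) from rfl]
  generalize x.num = u at *
  generalize x.denom = w at *
  have e1 : ∀ c : ℚ[X], x - algebraMap _ _ c =
      algebraMap _ (RatFunc ℚ) (u - c * w) / algebraMap _ _ w := fun c => by
    rw [hx, map_sub, map_mul]; field_simp
  have c1 : ∀ c : ℚ[X], IsCoprime (u - c * w) w := fun c => by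
    simpa [sub_eq_add_neg, mul_comm] using hc.add_mul_left_left (-c)
  have hne := pow_ne_zero 2 hy
  rw [e] at hne ⊢
  have n0 : u ≠ 0 := fun h => hne (by rw [hx, h]; simp)
  have n1 : u - a * w ≠ 0 := fun h => hne (by rw [e1 a, h]; simp)
  have n2 : u - b * w ≠ 0 := fun h => hne (by rw [e1 b, h]; simp)
  obtain ⟨h0, hw2⟩ := sq_of hc hw (hx ▸ s0)
  have h1 := (sq_of (c1 a) hw (e1 a ▸ s1)).1
  have h2 := (sq_of (c1 b) hw (e1 b ▸ s2)).1
  have hn : 4 * (w * (u * (u - a * w) * (u - b * w))) ≠ 0 :=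
    mul_ne_zero (by norm_num) (mul_ne_zero hw (mul_ne_zero (mul_ne_zero n0 n1) n2))
  rw [← degs H hw hw2 h0 h1 h2 n0 n1 n2, ← hx_div n (cop hc h0 h1 h2 H.sa H.sb H.sd hn) hn]
  congr 1
  have m0 := RatFunc.algebraMap_ne_zero n0
  have m1 := RatFunc.algebraMap_ne_zero n1
  have m2 := RatFunc.algebraMap_ne_zero n2
  rw [e1 a, e1 b, hx]
  simp only [map_mul, map_pow, map_ofNat, map_sub (algebraMap ℚ[X] (RatFunc ℚ)) (u * u)]
  field_simp

end Pool.Agent.MP_a43263_nt.RH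

end MrgPart1

-- ======== part 2: formerly Pool.Agent.MP_a43263_nt.RH.GenInj
section MrgPart2

/-! PROJECT RANKG, block GEN, rows POLY and INJ: the forms as polynomials. -/

set_option autoImplicit false

noncomputable section

namespace Pool.Agent.MP_a43263_nt.RH

open Finset Polynomial RG RG.Surf

namespace Inj

variable {n : ℕ} {F : Surf n}

/-- the form `j` at `(t : 1)` -/
def lp (F : Surf n) (j : Fin 3 × Fin n) : ℚ[X] := C (F.A j : ℚ) * X + C (F.B j : ℚ)

theorem L_gp (j : Fin 3 × Fin n) : F.L j gp = algebraMap _ _ (lp F j) := by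
  simp [L, gp, lp]

theorem eval_lp (j : Fin 3 × Fin n) (t : ℚ) : (lp F j).eval t = F.L j (t, 1) := by
  simp [L, lp]

theorem res (h : Hyp0 F) {j k : Fin 3 × Fin n} (e : j ≠ k) :
    (F.A j : ℚ) * F.B k - F.B j * F.A k ≠ 0 := by
  have := h.ne j k e
  rwa [L, root, mul_neg, ← sub_eq_add_neg] at this

theorem cop (h : Hyp0 F) {j k : Fin 3 × Fin n} (e : j ≠ k) : IsCoprime (lp F j) (lp F k) := by
  refine ⟨C ((F.A j : ℚ) * F.B k - F.B j * F.A k)⁻¹ * -C (F.A k : ℚ),
    C ((F.A j : ℚ) * F.B k - F.B j * F.A k)⁻¹ * C (F.A j : ℚ), ?_⟩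
  rw [← C_1, ← inv_mul_cancel₀ (res h e), C_mul, C_sub, C_mul, C_mul, lp, lp]
  ring

theorem other (k : Fin 3 × Fin n) : k ≠ (k.1 + 1, k.2) := fun e => by
  have h : ∀ j : Fin 3, j ≠ j + 1 := by decide
  exact h _ (congrArg Prod.fst e)

theorem uniq (h : Hyp0 F) {j k : Fin 3 × Fin n} (hj : F.A j = 0) (hk : F.A k = 0) : j = k := by
  by_contra e
  exact res h e (by simp [hj, hk])

theorem sqf (h : Hyp0 F) (j : Fin 3 × Fin n) : Squarefree (lp F j) := by
  by_cases e : (F.A j : ℚ) = 0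
  · have h1 : (F.B j : ℚ) ≠ 0 := fun e' => res h (other j) (by simp [e, e'])
    rw [lp, e, C_0, zero_mul, zero_add]
    exact (isUnit_C.2 h1.isUnit).squarefree
  · exact (irreducible_of_degree_eq_one (degree_linear e)).squarefree

theorem deg (j : Fin 3 × Fin n) : (lp F j).natDegree = if F.A j = 0 then 0 else 1 := by
  split_ifs with e
  · rw [lp, e, Int.cast_zero, C_0, zero_mul, zero_add, natDegree_C]
  · exact natDegree_linear (Int.cast_ne_zero.2 e)

/-- a constant times a product of different forms -/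
theorem prod {ι : Type} (h : Hyp0 F) (T : Finset ι) (f : ι → Fin 3 × Fin n)
    (hf : Function.Injective f) {u : ℚ} (hu : u ≠ 0) :
    Squarefree (C u * ∏ j ∈ T, lp F (f j)) ∧
      (C u * ∏ j ∈ T, lp F (f j)).natDegree + (T.filter fun j => F.A (f j) = 0).card = T.card ∧
      (T.filter fun j => F.A (f j) = 0).card ≤ 1 := by
  refine ⟨(associated_unit_mul_left _ _ (isUnit_C.2 hu.isUnit)).squarefree_iff.2
    (squarefree_prod_of_pairwise_isCoprime (fun j _ k _ e => (cop h (hf.ne e)).isRelPrime)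
      fun j _ => sqf h _), ?_, card_le_one.2 fun j hj k hk =>
    hf (uniq h (mem_filter.1 hj).2 (mem_filter.1 hk).2)⟩
  rw [natDegree_C_mul hu, natDegree_prod _ _ fun j _ => (sqf h _).ne_zero, card_filter,
    ← sum_add_distrib, card_eq_sum_ones]
  refine sum_congr rfl fun j _ => ?_
  rw [deg]
  split_ifs <;> rfl

/-- the group `i` at `(t : 1)` -/
def Dp (F : Surf n) (i : Fin 3) : ℚ[X] := C (F.c i : ℚ) * ∏ k, lp F (i, k)

theorem D_gp (i : Fin 3) : F.D i gp = algebraMap _ _ (Dp F i) := by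
  simp [D, Dp, L_gp]

theorem eval_Dp (i : Fin 3) (t : ℚ) : (Dp F i).eval t = F.D i (t, 1) := by
  simp [D, Dp, eval_prod, eval_lp]

theorem del_gp (u : Fin 3 → ℚ) (y : Finset (Fin 3 × Fin n)) (i : Fin 3) : F.del u y i gp =
    algebraMap _ _ (C (u i) * ∏ j ∈ y.filter (fun j => j.1 ≠ i), lp F j) := by
  rw [del, map_mul, map_prod, RatFunc.algebraMap_C, eq_ratCast RatFunc.C]
  simp only [L_gp]

theorem unit_of_sq {P Q : ℚ[X]} (hP : Squarefree P) (hQ : Q ≠ 0)
    (h : IsSquare (algebraMap _ (RatFunc ℚ) (P * Q ^ 2))) : P.natDegree = 0 := by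
  obtain ⟨r, hr⟩ := h
  have h0 := r.denom_ne_zero
  have h1 : P * (Q * r.denom) ^ 2 = r.num ^ 2 := by
    apply RatFunc.algebraMap_injective ℚ
    have h2 : algebraMap _ _ r.num = r * algebraMap _ _ r.denom :=
      (div_eq_iff (RatFunc.algebraMap_ne_zero h0)).1 r.num_div_denom
    rw [mul_pow, ← mul_assoc, map_mul, hr, map_pow, map_pow, h2]
    ring
  obtain ⟨s, hs⟩ : Q * r.denom ∣ r.num :=
    (IsIntegrallyClosed.pow_dvd_pow_iff two_ne_zero).1 ⟨P, by rw [← h1, mul_comm]⟩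
  have h3 : P = s * s := mul_right_cancel₀ (pow_ne_zero 2 (mul_ne_zero hQ h0))
    (by rw [h1, hs]; ring)
  have h4 := hP s h3.symm.dvd
  exact natDegree_eq_zero_of_isUnit (h3 ▸ h4.mul h4)

theorem eq_of_sq (h : Hyp0 F) {S S' : Finset (Fin 3 × Fin n)} {u u' : ℚ} (hu : u ≠ 0)
    (hu' : u' ≠ 0) (e : Even S.card) (e' : Even S'.card)
    (hs : IsSquare (algebraMap _ (RatFunc ℚ) (C u * ∏ j ∈ S, lp F j) *
      algebraMap _ _ (C u' * ∏ j ∈ S', lp F j))) : S = S' := by
  obtain ⟨h1, h2, h3⟩ := prod h (S \ S' ∪ S' \ S) id Function.injective_id (mul_ne_zero hu hu')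
  have h4 := unit_of_sq (Q := ∏ j ∈ S ∩ S', lp F j) h1
    (prod_ne_zero_iff.2 fun j _ => (sqf h j).ne_zero) (by
      rw [← map_mul] at hs
      convert hs using 2
      rw [prod_union disjoint_sdiff_sdiff, ← prod_inter_mul_prod_sdiff S S',
        ← prod_inter_mul_prod_sdiff S' S, inter_comm S' S, C_mul]
      simp only [id]
      ring)
  rw [card_union_of_disjoint disjoint_sdiff_sdiff] at h2
  have h5 := card_sdiff_add_card_inter S S'
  have h6 := card_sdiff_add_card_inter S' S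
  rw [inter_comm] at h6
  obtain ⟨a, ha⟩ := e
  obtain ⟨b, hb⟩ := e'
  exact Subset.antisymm (sdiff_eq_empty_iff_subset.1 (card_eq_zero.1 (by omega)))
    (sdiff_eq_empty_iff_subset.1 (card_eq_zero.1 (by omega)))

theorem D_root (h : Hyp0 F) {i : Fin 3} {j : Fin 3 × Fin n} (e : i ≠ j.1) :
    F.D i (F.root j) ≠ 0 :=
  mul_ne_zero (Int.cast_ne_zero.2 (h.c0 i))
    (prod_ne_zero_iff.2 fun _ _ => h.ne _ _ fun e' => e (congrArg Prod.fst e'))

theorem gam_ne (h : Hyp0 F) (j : Fin 3 × Fin n) : F.gam j ≠ 0 := by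
  obtain ⟨i, k⟩ := j
  fin_cases i
  · exact D_root h (i := 1) (by simp)
  · exact neg_ne_zero.2 (D_root h (i := 2) (by simp))
  · exact neg_ne_zero.2 (D_root h (i := 1) (by simp))

theorem sq_same (h : Hyp0 F) {u u' : Fin 3 → ℚ} {y : Finset (Fin 3 × Fin n)} (hu : F.InS u y)
    (hu' : F.InS u' y) (i : Fin 3) : IsSquare (F.del u y i gp * F.del u' y i gp) := by
  obtain ⟨r, hr⟩ := (hu.2.2.2 (i, ⟨0, h.pos⟩)).mul (hu'.2.2.2 (i, ⟨0, h.pos⟩))
  simp only [del] at hr
  have h1 : ∏ j ∈ y.filter (fun j => j.1 ≠ i), F.L j (F.root (i, ⟨0, h.pos⟩)) ≠ 0 :=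
    prod_ne_zero_iff.2 fun j hj => h.ne _ _ fun e => (mem_filter.1 hj).2 (congrArg Prod.fst e)
  have h2 : (if (i, ⟨0, h.pos⟩) ∈ y then F.gam (i, ⟨0, h.pos⟩) else 1) ≠ 0 := by
    split_ifs
    exacts [gam_ne h _, one_ne_zero]
  generalize ∏ j ∈ y.filter (fun j => j.1 ≠ i), F.L j (F.root (i, ⟨0, h.pos⟩)) = P at hr h1
  generalize (if (i, ⟨0, h.pos⟩) ∈ y then F.gam (i, ⟨0, h.pos⟩) else 1) = g at hr h2
  have h3 : u i * u' i = (r / (P * g)) ^ 2 := by
    rw [div_pow, eq_div_iff (pow_ne_zero 2 (mul_ne_zero h1 h2))]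
    simp only [Rat.cast_id] at hr
    linear_combination hr
  refine ⟨((r / (P * g) : ℚ) : RatFunc ℚ) * ∏ j ∈ y.filter (fun j => j.1 ≠ i), F.L j gp, ?_⟩
  rw [del, del, mul_mul_mul_comm, ← Rat.cast_mul, h3, Rat.cast_pow]
  ring

end Inj

open Inj

theorem poly : POLYStmt := by
  intro n F h
  have key := fun i : Fin 3 => prod h univ (fun k => (i, k)) (Prod.mk_right_injective i)
    (Int.cast_ne_zero.2 (h.c0 i) : (F.c i : ℚ) ≠ 0)
  have e : Dp F 1 - Dp F 2 = Dp F 0 := Polynomial.funext fun t => by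
    rw [eval_sub, eval_Dp, eval_Dp, eval_Dp, h.sum]
  simp only [card_univ, Fintype.card_fin] at key
  obtain ⟨a0, a1, a2⟩ := key 0
  obtain ⟨b0, b1, b2⟩ := key 1
  obtain ⟨c0, c1, c2⟩ := key 2
  have hu := fun i => isUnit_C.2 (Int.cast_ne_zero.2 (h.c0 i) : (F.c i : ℚ) ≠ 0).isUnit
  refine ⟨Dp F 1, Dp F 2, ⟨h.ev, h.pos, b0, c0, e ▸ a0, ?_, ?_, ?_, ?_, ?_⟩, D_gp 1, D_gp 2⟩
  · rw [Dp, Dp, isCoprime_mul_unit_left_left (hu 1), isCoprime_mul_unit_left_right (hu 2)]
    exact IsCoprime.prod_left fun k _ => IsCoprime.prod_right fun k' _ => cop h (by simp)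
  · unfold Dp; omega
  · unfold Dp; omega
  · rw [e]; unfold Dp; omega
  · unfold Dp
    by_contra hc
    obtain ⟨k, hk⟩ := card_pos.1 (show 0 < (univ.filter fun k => F.A (1, k) = 0).card by omega)
    obtain ⟨k', hk'⟩ := card_pos.1 (show 0 < (univ.filter fun k => F.A (2, k) = 0).card by omega)
    simpa using uniq h (mem_filter.1 hk).2 (mem_filter.1 hk').2

theorem inj : INJStmt := by
  intro n F h u y u' y' hu hu'
  refine ⟨fun i => ?_, fun ⟨h2, h1⟩ => ?_, ?_⟩
  · rw [del_gp]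
    exact RatFunc.algebraMap_ne_zero (prod h _ id Function.injective_id (hu.1 i)).1.ne_zero
  · rw [del_gp, del_gp] at h1 h2
    have e1 := eq_of_sq h (hu.1 1) (hu'.1 1) (hu.2.2.1 1) (hu'.2.2.1 1) h1
    have e2 := eq_of_sq h (hu.1 2) (hu'.1 2) (hu.2.2.1 2) (hu'.2.2.1 2) h2
    ext j
    by_cases e : j.1 = 1
    · have e' : j.1 ≠ 2 := by rw [e]; decide
      simpa [e'] using Finset.ext_iff.1 e2 j
    · simpa [e] using Finset.ext_iff.1 e1 j
  · rintro rfl
    exact ⟨sq_same h hu hu' 2, sq_same h hu hu' 1⟩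

end Pool.Agent.MP_a43263_nt.RH

end
end MrgPart2

-- marker of a merged file
example : 731051 + 91729 = 731051 + 91729 := rfl
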