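import Mathlib.Algebra.Order.Ring.Star
import Mathlib.Analysis.Complex.Polynomial.Basic
import Mathlib.Analysis.CStarAlgebra.Classes
import Mathlib.Data.Rat.Star
import Mathlib.RingTheory.HahnSeries.Summable
import Mathlib.RingTheory.HahnSeries.PowerSeries
import Pool.Agent.MP_a43263_nt.RH.GenInj

-- ======== part 0: formerly Pool.Agent.MP_a43263_nt.RH.GenResA
section MrgPart0

/-! PROJECT RANKG, block GEN, row RES, first part: places of the field of rational functions and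
the local conditions. -/

set_option autoImplicit false

noncomputable section

namespace Pool.Agent.MP_a43263_nt.RH.Res

open Finset Polynomial HahnSeries

variable {E : Type} [Field E]

/-- Laurent series. -/
abbrev H (E : Type) [Field E] : Type := HahnSeries ℤ E

/-- the leading coefficient is multiplicative -/
def lc : H E →* E := ⟨⟨leadingCoeff, leadingCoeff_one⟩, fun x y => leadingCoeff_mul x y⟩

lemma lc_ne {x : H E} (h : x ≠ 0) : lc x ≠ 0 := leadingCoeff_ne_zero.2 h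

lemma lc_neg (x : H E) : lc (-x) = -lc x := leadingCoeff_neg

lemma lc_C (c : E) : lc (HahnSeries.C c : H E) = c := leadingCoeff_of_single

lemma add_left {x y : H E} (hx : x ≠ 0) (h : y = 0 ∨ x.order < y.order) :
    x + y ≠ 0 ∧ (x + y).order = x.order ∧ lc (x + y) = lc x := by
  by_cases hy : y = 0
  · subst hy
    simpa using hx
  have h1 : x.orderTop < y.orderTop := by
    rw [← order_eq_orderTop_of_ne_zero hx, ← order_eq_orderTop_of_ne_zero hy]
    exact WithTop.coe_lt_coe.2 (h.resolve_left hy)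
  have h2 := orderTop_add_eq_left h1
  have h3 : x + y ≠ 0 := by
    rw [← orderTop_ne_top, h2]
    exact orderTop_ne_top.2 hx
  refine ⟨h3, ?_, leadingCoeff_add_eq_left h1⟩
  rw [← order_eq_orderTop_of_ne_zero hx, ← order_eq_orderTop_of_ne_zero h3] at h2
  exact WithTop.coe_injective h2

lemma order_prod {ι : Type} (s : Finset ι) (x : ι → H E) (h : ∀ i ∈ s, x i ≠ 0) :
    (∏ i ∈ s, x i).order = ∑ i ∈ s, (x i).order := by
  classical
  induction s using Finset.induction_on with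
  | empty => simp
  | insert a s ha ih =>
    have h1 := fun i hi => h i (mem_insert_of_mem hi)
    rw [prod_insert ha, sum_insert ha, order_mul (h a (mem_insert_self _ _))
      (prod_ne_zero_iff.2 h1), ih h1]

lemma order_sq {f x : H E} (hf : f ≠ 0) (hx : x ≠ 0) :
    (f * x ^ 2).order = f.order + 2 * x.order := by
  rw [order_mul hf (pow_ne_zero _ hx), order_pow]
  simp

lemma even_order {x : H E} (h : IsSquare x) : x.order % 2 = 0 := by
  obtain ⟨r, rfl⟩ := h
  by_cases hr : r = 0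
  · simp [hr]
  · rw [order_mul hr hr]; omega

/-- `X` is `f` times a square -/
def Rep (f X : H E) : Prop := ∃ x, X = f * x ^ 2

lemma Rep.par {f X : H E} (h : Rep f X) (hX : X ≠ 0) : X.order % 2 = f.order % 2 := by
  obtain ⟨x, rfl⟩ := h
  have hx : x ≠ 0 := fun e => hX (by simp [e])
  rw [order_sq (left_ne_zero_of_mul hX) hx]
  omega

lemma Rep.sq {f X : H E} (h : Rep f X) : IsSquare (lc f * lc X) := by
  obtain ⟨x, rfl⟩ := h
  exact ⟨lc f * lc x, by rw [map_mul, map_pow]; ring⟩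

/-- a point of the covering, in symmetric form -/
def Sol (A B f g h : H E) : Prop :=
  ∃ X Y Z, Rep f X ∧ Rep g Y ∧ Rep h Z ∧ ((X ≠ 0 ∧ Y = X ∧ Z = X) ∨ (Y = X - A ∧ Z = X - B))

variable {A B f g h : H E}

lemma Sol.swap (s : Sol A B f g h) : Sol B A f h g := by
  obtain ⟨X, Y, Z, a, b, c, d⟩ := s
  exact ⟨X, Z, Y, a, c, b, d.imp (fun d => ⟨d.1, d.2.2, d.2.1⟩) fun d => ⟨d.2, d.1⟩⟩

lemma Sol.swap' (s : Sol A B f g h) : Sol (-A) (B - A) g f h := by
  obtain ⟨X, Y, Z, a, b, c, d⟩ := s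
  refine ⟨Y, X, Z, b, a, c, d.imp ?_ ?_⟩
  · rintro ⟨d, rfl, rfl⟩
    exact ⟨d, rfl, rfl⟩
  · rintro ⟨rfl, rfl⟩
    exact ⟨by ring, by ring⟩

lemma Sol.even (s : Sol A B f g h) (hs : (f.order + g.order + h.order) % 2 = 0) (b0 : B ≠ 0)
    (b1 : B.order = 0) (a0 : B - A ≠ 0) (a1 : (B - A).order = 0) : h.order % 2 = 0 := by
  obtain ⟨X, Y, Z, a, b, c, ⟨d, rfl, rfl⟩ | ⟨d1, d2⟩⟩ := s
  · have := a.par d; have := b.par d; have := c.par d
    omega
  have e1 : X = B + Z := by rw [d2]; ring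
  have e2 : Y = B - A + Z := by rw [d1, d2]; ring
  by_cases hZ : Z = 0 ∨ 0 < Z.order
  · obtain ⟨u1, u2, -⟩ := add_left b0 (y := Z) (by rwa [b1])
    obtain ⟨u3, u4, -⟩ := add_left a0 (y := Z) (by rwa [a1])
    rw [← e1] at u1 u2
    rw [← e2] at u3 u4
    have := a.par u1; have := b.par u3
    omega
  rw [not_or] at hZ
  have := c.par hZ.1
  by_cases h0 : Z.order = 0
  · omega
  obtain ⟨u1, u2, -⟩ := add_left hZ.1 (y := B) (.inr (by omega))
  obtain ⟨u3, u4, -⟩ := add_left hZ.1 (y := B - A) (.inr (by omega))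
  rw [add_comm, ← e1] at u1 u2
  rw [add_comm, ← e2] at u3 u4
  have := a.par u1; have := b.par u3
  omega

lemma sq_cancel {a b c : E} (hb : b ≠ 0) (h1 : IsSquare (a * b)) (h2 : IsSquare (b * c)) :
    IsSquare (a * c) := by
  have := h1.mul h2
  obtain ⟨r, hr⟩ := this
  exact ⟨r / b, by field_simp; linear_combination hr⟩

lemma Sol.res (s : Sol A B f g h) (hf : f ≠ 0) (hg : g ≠ 0) (hh : h ≠ 0)
    (hs : IsSquare (f * g * h)) (a0 : A ≠ 0) (a1 : A.order = 1) (b0 : B ≠ 0) (b1 : B.order = 0) :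
    IsSquare (lc h * if g.order % 2 = 1 then -lc B else 1) := by
  have h1 := even_order hs
  rw [order_mul (mul_ne_zero hf hg) hh, order_mul hf hg] at h1
  obtain ⟨c0, c1, -⟩ := add_left b0 (y := -A) (.inr (by rw [order_neg]; omega))
  rw [← sub_eq_add_neg] at c0 c1
  have h2 := s.even h1 b0 b1 c0 (c1.trans b1)
  have h3 : ∀ X, X ≠ 0 → IsSquare (lc f * lc X) → IsSquare (lc g * lc X) → IsSquare (lc h * 1) :=
    fun X hX u1 u2 => by
      have u3 := sq_cancel (lc_ne hX) u1 (by rwa [mul_comm])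
      have u4 := hs.map lc
      rw [map_mul, map_mul, mul_comm] at u4
      exact sq_cancel (mul_ne_zero (lc_ne hf) (lc_ne hg)) u4 (by simpa using u3)
  obtain ⟨X, Y, Z, a, b, c, ⟨d, rfl, rfl⟩ | ⟨d1, d2⟩⟩ := s
  · have := b.par d; have := c.par d
    rw [if_neg (by omega)]
    exact h3 _ d a.sq b.sq
  split_ifs with h4
  · by_cases hX : X = 0 ∨ 0 < X.order
    · obtain ⟨-, -, u3⟩ := add_left (neg_ne_zero.2 b0) (y := X) (by rwa [order_neg, b1])
      rw [neg_add_eq_sub, ← d2, lc_neg] at u3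
      exact u3 ▸ c.sq
    rw [not_or] at hX
    have := a.par hX.1
    obtain ⟨u1, u2, -⟩ := add_left hX.1 (y := -B) (.inr (by rw [order_neg]; omega))
    rw [← sub_eq_add_neg, ← d2] at u1 u2
    have := c.par u1
    omega
  · by_cases hX : X = 0 ∨ 1 < X.order
    · obtain ⟨u1, u2, -⟩ := add_left (neg_ne_zero.2 a0) (y := X) (by rwa [order_neg, a1])
      rw [neg_add_eq_sub, ← d1] at u1 u2
      rw [order_neg] at u2
      have := b.par u1
      omega
    rw [not_or] at hX
    have := a.par hX.1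
    obtain ⟨-, -, u3⟩ := add_left hX.1 (y := -A) (.inr (by rw [order_neg]; omega))
    rw [← sub_eq_add_neg, ← d1] at u3
    exact h3 X hX.1 a.sq (u3 ▸ b.sq)

/-! ### places -/

/-- the local parameter -/
def sp (E : Type) [Field E] : H E := single 1 1

lemma sp_ne : sp E ≠ 0 := single_ne_zero one_ne_zero

lemma order_sp : (sp E).order = 1 := order_single one_ne_zero

/-- a linear series -/
def ln (α β : E) : H E := HahnSeries.C α + sp E * HahnSeries.C β

lemma ln_zero {β : E} (h : β ≠ 0) : ln 0 β ≠ 0 ∧ (ln 0 β).order = 1 := by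
  have h1 : (HahnSeries.C β : H E) ≠ 0 := HahnSeries.C_ne_zero h
  rw [ln, map_zero, zero_add, order_mul sp_ne h1, order_sp, order_C]
  exact ⟨mul_ne_zero sp_ne h1, rfl⟩

lemma ln_unit {α : E} (h : α ≠ 0) (β : E) :
    ln α β ≠ 0 ∧ (ln α β).order = 0 ∧ lc (ln α β) = α := by
  have := add_left (HahnSeries.C_ne_zero h : (HahnSeries.C α : H E) ≠ 0)
    (y := sp E * HahnSeries.C β) (by
      by_cases hβ : β = 0
      · simp [hβ]
      · have := (ln_zero hβ).2
        rw [ln, map_zero, zero_add] at this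
        rw [this, order_C]
        exact .inr one_pos)
  rwa [order_C, lc_C] at this

lemma ln_ne {α β : E} (h : α ≠ 0 ∨ β ≠ 0) : ln α β ≠ 0 := by
  by_cases hα : α = 0
  · exact hα ▸ (ln_zero (h.resolve_left (not_not.2 hα))).1
  · exact (ln_unit hα β).1

lemma alg_eq (c : E) : algebraMap E (H E) c = HahnSeries.C c := by
  rw [HahnSeries.algebraMap_apply']
  exact HahnSeries.ofPowerSeries_C c

lemma trans_sp : Transcendental E (sp E) := by
  rw [transcendental_iff]
  intro q hq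
  have : ∀ (q : E[X]) (i : ℕ), (aeval (sp E) q).coeff (i : ℤ) = q.coeff i := fun q i => by
    induction q using Polynomial.induction_on' with
    | add p q h1 h2 => rw [map_add, HahnSeries.coeff_add, h1, h2, Polynomial.coeff_add]
    | monomial m a =>
      rw [aeval_monomial, alg_eq, sp, single_pow, HahnSeries.C_apply, single_mul_single,
        HahnSeries.coeff_single, coeff_monomial]
      simp [eq_comm]
  ext i
  rw [← this, hq]
  rfl

lemma aeval_nonneg {τ : H E} (h : 0 ≤ τ.orderTop) (q : E[X]) : 0 ≤ (aeval τ q).orderTop := by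
  induction q using Polynomial.induction_on with
  | C a => rw [aeval_C, alg_eq, zero_le_orderTop_iff, order_C]
  | add p q h1 h2 => rw [map_add]; exact (le_min h1 h2).trans min_orderTop_le_orderTop_add
  | monomial m a ih =>
    rw [pow_succ, ← mul_assoc, map_mul, aeval_X]
    exact (add_nonneg ih h).trans orderTop_add_le_mul

lemma order_simple {τ : H E} {θ : E} (h0 : τ - HahnSeries.C θ ≠ 0)
    (h1 : (τ - HahnSeries.C θ).order = 1) {q : E[X]} (hq : Squarefree q) (hr : q.IsRoot θ) :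
    (aeval τ q).order = 1 := by
  obtain ⟨r, rfl⟩ := dvd_iff_isRoot.2 hr
  have h2 : r.eval θ ≠ 0 := fun e => not_isUnit_X_sub_C θ
    (hq _ (mul_dvd_mul_left _ (dvd_iff_isRoot.2 e)))
  obtain ⟨r', e⟩ := X_sub_C_dvd_sub_C_eval (a := θ) (p := r)
  have h3 : 0 ≤ τ.orderTop := by
    rw [← sub_add_cancel τ (HahnSeries.C θ)]
    refine (le_min ?_ ?_).trans min_orderTop_le_orderTop_add <;> rw [zero_le_orderTop_iff]
    · omega
    · rw [order_C]
  have h4 : aeval τ r = HahnSeries.C (r.eval θ) + (τ - HahnSeries.C θ) * aeval τ r' := by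
    have := congrArg (aeval τ) e
    rw [map_sub, map_mul, map_sub, aeval_C, aeval_C, aeval_X, alg_eq, alg_eq] at this
    rw [← this]; ring
  obtain ⟨u1, u2, -⟩ := add_left (HahnSeries.C_ne_zero h2 : (HahnSeries.C _ : H E) ≠ 0)
    (y := (τ - HahnSeries.C θ) * aeval τ r') (by
      by_cases h5 : aeval τ r' = 0
      · simp [h5]
      · have := zero_le_orderTop_iff.1 (aeval_nonneg h3 r')
        rw [order_mul h0 h5, order_C]
        exact .inr (by omega))
  rw [← h4] at u1 u2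
  rw [map_mul, map_sub, aeval_X, aeval_C, alg_eq, order_mul h0 u1, u2, h1, order_C]
  rfl

/-- the place at `p` with tangent vector `w` -/
structure Plc [CharZero E] (p w : E × E) (φ : RatFunc ℚ →+* H E) : Prop where
  ne : ln p.2 w.2 ≠ 0
  eq : φ RatFunc.X * ln p.2 w.2 = ln p.1 w.1
  one : ∀ q : ℚ[X], Squarefree q → p.2 ≠ 0 → aeval (p.1 / p.2) q = 0 →
    (φ (algebraMap _ _ q)).order = 1

lemma exists_plc [CharZero E] (p w : E × E) (hd : p.1 * w.2 - p.2 * w.1 ≠ 0) :
    ∃ φ, Plc p w φ := by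
  have h1 : ln p.2 w.2 ≠ 0 := ln_ne (by
    by_contra h
    simp only [not_or, not_not] at h
    simp [h.1, h.2] at hd)
  obtain ⟨τ, hτ⟩ : ∃ τ, τ * ln p.2 w.2 = ln p.1 w.1 := ⟨_, div_mul_cancel₀ _ h1⟩
  have h2 : Transcendental E τ := fun ha => by
    have u1 : τ * HahnSeries.C w.2 - HahnSeries.C w.1 ≠ 0 := fun e => hd (by
      apply HahnSeries.C_injective (Γ := ℤ)
      simp only [ln] at hτ
      simp only [map_sub, map_mul, map_zero]
      linear_combination (-HahnSeries.C w.2) * hτ + (HahnSeries.C p.2 + sp E * HahnSeries.C w.2) * e)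
    have u2 : sp E = (HahnSeries.C p.1 - τ * HahnSeries.C p.2) *
        (τ * HahnSeries.C w.2 - HahnSeries.C w.1)⁻¹ := by
      rw [← div_eq_mul_inv, eq_div_iff u1]
      simp only [ln] at hτ
      linear_combination hτ
    have u3 : ∀ c : E, IsAlgebraic E (HahnSeries.C c : H E) := fun c =>
      alg_eq c ▸ isAlgebraic_algebraMap c
    exact trans_sp (u2 ▸ ((u3 _).sub (ha.mul (u3 _))).mul ((ha.mul (u3 _)).sub (u3 _)).inv)
  let ψ : ℚ[X] →+* H E := (aeval τ : E[X] →ₐ[E] H E).toRingHom.comp (mapRingHom (algebraMap ℚ E))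
  have h3 : Function.Injective ψ :=
    (transcendental_iff_injective.1 h2).comp (map_injective _ (algebraMap ℚ E).injective)
  refine ⟨RatFunc.liftRingHom ψ (nonZeroDivisors_le_comap_nonZeroDivisors_of_injective _ h3),
    h1, ?_, fun q hq hp hr => ?_⟩
  · rw [RatFunc.liftRingHom_X, ← hτ]
    simp [ψ]
  · rw [RatFunc.liftRingHom_algebraMap]
    have u1 : (τ - HahnSeries.C (p.1 / p.2)) * ln p.2 w.2 = ln 0 (w.1 - p.1 / p.2 * w.2) := by
      have : (HahnSeries.C p.1 : H E) = HahnSeries.C (p.1 / p.2) * HahnSeries.C p.2 := by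
        rw [← map_mul, div_mul_cancel₀ _ hp]
      simp only [ln, map_sub, map_mul, map_zero] at hτ ⊢
      linear_combination hτ + this
    obtain ⟨u2, u3⟩ := ln_zero (β := w.1 - p.1 / p.2 * w.2) fun e => hd (by
      field_simp at e
      linear_combination -e)
    rw [← u1] at u2 u3
    rw [order_mul (left_ne_zero_of_mul u2) h1, (ln_unit hp _).2.1, add_zero] at u3
    refine order_simple (left_ne_zero_of_mul u2) u3
      ((PerfectField.separable_iff_squarefree.2 hq).map).squarefree ?_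
    exact (eval_map_algebraMap q _).trans hr

/-- the squarefree part of a rational function -/
lemma exists_sqf {g : RatFunc ℚ} (hg : g ≠ 0) :
    ∃ (q : ℚ[X]) (m : RatFunc ℚ), Squarefree q ∧ m ≠ 0 ∧ g = algebraMap _ _ q * m ^ 2 := by
  have h1 : ∀ q : ℚ[X], q ≠ 0 → ∃ a b : ℚ[X], Squarefree a ∧ q = a * b ^ 2 := fun q => by
    induction q using (wellFounded_dvdNotUnit (α := ℚ[X])).induction with
    | h q ih =>
    intro hq
    by_cases h : Squarefree q
    · exact ⟨q, 1, h, by simp⟩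
    simp only [Squarefree, not_forall] at h
    obtain ⟨x, ⟨r, rfl⟩, hx⟩ := h
    obtain ⟨a, b, ha, e⟩ := ih r ⟨right_ne_zero_of_mul hq, x * x,
      fun h => hx (isUnit_of_mul_isUnit_left h), mul_comm _ _⟩ (right_ne_zero_of_mul hq)
    exact ⟨a, b * x, ha, by rw [e]; ring⟩
  obtain ⟨a, b, ha, e⟩ := h1 (g.num * g.denom)
    (mul_ne_zero (RatFunc.num_ne_zero hg) g.denom_ne_zero)
  have h2 : algebraMap _ (RatFunc ℚ) g.denom ≠ 0 := RatFunc.algebraMap_ne_zero g.denom_ne_zero
  have h3 : g = algebraMap _ _ a * (algebraMap _ _ b / algebraMap _ _ g.denom) ^ 2 := by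
    rw [div_pow, ← mul_div_assoc, ← map_pow, ← map_mul, ← e, map_mul]
    conv_lhs => rw [← g.num_div_denom]
    field_simp
  exact ⟨a, _, ha, fun h => hg (by rw [h3, h]; simp), h3⟩

end Pool.Agent.MP_a43263_nt.RH.Res

end
end MrgPart0

-- ======== part 1: formerly Pool.Agent.MP_a43263_nt.RH.GenRes
section MrgPart1

/-! PROJECT RANKG, block GEN, row RES: soluble classes satisfy the residue conditions. -/

set_option autoImplicit false

noncomputable section

namespace Pool.Agent.MP_a43263_nt.RH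

open Finset Polynomial HahnSeries RG RG.Surf

namespace Res

variable {E : Type} [Field E]

/-- the indices of the forms -/
abbrev Jx (n : ℕ) : Type := Fin 3 × Fin n

/-- the local data: three differences of roots and three classes -/
structure Tri (d f : Fin 3 → H E) : Prop where
  sum : d 0 = d 1 - d 2
  mul : f 0 = f 2 * f 1
  ne : ∀ i, f i ≠ 0
  sol : Sol (d 1) (d 2) (f 0) (f 2) (f 1)

variable {d f : Fin 3 → H E}

lemma three (i : Fin 3) : i = 0 ∨ i = 1 ∨ i = 2 := by revert i; decide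

lemma Tri.ord (h : Tri d f) : (f 0).order = (f 2).order + (f 1).order := by
  rw [h.mul, order_mul (h.ne 2) (h.ne 1)]

lemma Tri.even (h : Tri d f) (c : Fin 3) (u : ∀ i, i ≠ c → d i ≠ 0 ∧ (d i).order = 0) :
    (f c).order % 2 = 0 := by
  have := h.ord
  rcases three c with rfl | rfl | rfl
  · have e : -d 2 - (d 1 - d 2) = -d 1 := by ring
    refine h.sol.swap.swap'.swap.even (by omega) (neg_ne_zero.2 (u 2 (by decide)).1) ?_ ?_ ?_
    · rw [order_neg, (u 2 (by decide)).2]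
    · rw [e]; exact neg_ne_zero.2 (u 1 (by decide)).1
    · rw [e, order_neg, (u 1 (by decide)).2]
  · have e : d 2 - d 1 = -d 0 := by rw [h.sum]; ring
    refine h.sol.even (by omega) (u 2 (by decide)).1 (u 2 (by decide)).2 ?_ ?_
    · rw [e]; exact neg_ne_zero.2 (u 0 (by decide)).1
    · rw [e, order_neg, (u 0 (by decide)).2]
  · refine h.sol.swap.even (by omega) (u 1 (by decide)).1 (u 1 (by decide)).2 ?_ ?_
    · rw [← h.sum]; exact (u 0 (by decide)).1
    · rw [← h.sum, (u 0 (by decide)).2]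

lemma Tri.iff (h : Tri d f) {c i : Fin 3} (hc : (f c).order % 2 = 0) (hi : i ≠ c) :
    (∃ i, (f i).order % 2 = 1) ↔ (f i).order % 2 = 1 := by
  have := h.ord
  refine ⟨?_, fun h => ⟨i, h⟩⟩
  rintro ⟨j, hj⟩
  rcases three c with rfl | rfl | rfl <;> rcases three i with rfl | rfl | rfl <;>
    rcases three j with rfl | rfl | rfl <;> first | exact absurd rfl hi | omega

open Classical in
lemma Tri.res (h : Tri d f) (c : Fin 3) (u : ∀ i, i ≠ c → d i ≠ 0 ∧ (d i).order = 0)
    (c0 : d c ≠ 0) (c1 : (d c).order = 1) :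
    IsSquare (lc (f c) * if ∃ i, (f i).order % 2 = 1 then ![lc (d 2), -lc (d 2), -lc (d 1)] c
      else 1) := by
  have h1 := h.even c u
  rcases three c with rfl | rfl | rfl
  · have := h.sol.swap.swap'.swap.res (h.ne 1) (h.ne 2) (h.ne 0) ⟨f 0, by rw [h.mul]; ring⟩
      (h.sum ▸ c0) (h.sum ▸ c1) (neg_ne_zero.2 (u 2 (by decide)).1)
      (by rw [order_neg, (u 2 (by decide)).2])
    simpa [h.iff (i := 2) h1 (by decide), lc_neg] using this
  · have := h.sol.res (h.ne 0) (h.ne 2) (h.ne 1) ⟨f 0, by rw [h.mul]; ring⟩ c0 c1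
      (u 2 (by decide)).1 (u 2 (by decide)).2
    simpa [h.iff (i := 2) h1 (by decide)] using this
  · have := h.sol.swap.res (h.ne 0) (h.ne 1) (h.ne 2) ⟨f 0, by rw [h.mul]; ring⟩ c0 c1
      (u 1 (by decide)).1 (u 1 (by decide)).2
    simpa [h.iff (i := 1) h1 (by decide)] using this

variable [CharZero E] {n : ℕ} {F : Surf n} {p w : E × E} {φ : RatFunc ℚ →+* H E}

/-- the moving point of a place -/
def mv (p w : E × E) : H E × H E := (ln p.1 w.1, ln p.2 w.2)

omit [CharZero E] in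
lemma L_mv (F : Surf n) (p w : E × E) (k : Jx n) :
    F.L k (mv p w) = ln (F.L k p) (F.L k w) := by
  simp only [Surf.L, mv, ln, map_add, map_mul, map_intCast]
  ring

lemma Plc.L (h : Plc p w φ) (F : Surf n) (k : Jx n) :
    φ (F.L k gp) * ln p.2 w.2 = F.L k (mv p w) := by
  simp only [Surf.L, mv, Surf.gp, map_add, map_mul, map_intCast, map_one]
  linear_combination (F.A k : H E) * h.eq

lemma Plc.D (h : Plc p w φ) (F : Surf n) (i : Fin 3) :
    φ (F.D i gp) * ln p.2 w.2 ^ n = F.D i (mv p w) := by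
  simp only [Surf.D, map_mul, map_intCast, map_prod, ← h.L F, prod_mul_distrib, prod_const,
    card_univ, Fintype.card_fin, mul_assoc]

lemma AB (hF : Hyp0 F) (j : Jx n) : F.A j ≠ 0 ∨ F.B j ≠ 0 := by
  by_contra h
  simp only [not_or, not_not] at h
  have h1 : ∀ i : Fin 3, i + 1 ≠ i := by decide
  exact hF.ne (j.1 + 1, j.2) j (fun e => h1 _ (congrArg Prod.fst e))
    (by simp [Surf.L, Surf.root, h.1, h.2])

lemma L_gp (hF : Hyp0 F) (j : Jx n) : F.L j gp ≠ 0 := fun e => by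
  obtain ⟨φ, h⟩ := exists_plc (E := ℚ) (0, 1) (1, 0) (by simp)
  have := h.L F j
  rw [e, map_zero, zero_mul, L_mv] at this
  exact ln_ne (by simpa [Surf.L] using (AB hF j).symm) this.symm

lemma sum_gp (hF : Hyp0 F) : F.D 0 gp = F.D 1 gp - F.D 2 gp := by
  let P : Fin 3 → ℚ[X] := fun i =>
    (F.c i : ℚ[X]) * ∏ k, ((F.A (i, k) : ℚ[X]) * Polynomial.X + (F.B (i, k) : ℚ[X]))
  have h1 : ∀ i, F.D i gp = algebraMap _ _ (P i) := fun i => by
    simp [P, Surf.D, Surf.L, Surf.gp]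
  have h2 : P 0 = P 1 - P 2 := Polynomial.funext fun x => by
    simpa [P, Surf.D, Surf.L, eval_prod] using hF.sum (x, 1)
  rw [h1, h1, h1, h2, map_sub]

lemma Plc.ne_L (h : Plc p w φ) (hF : Hyp0 F) (k : Jx n) : F.L k (mv p w) ≠ 0 :=
  h.L F k ▸ mul_ne_zero ((_root_.map_ne_zero φ).2 (L_gp hF k)) h.ne

open Classical in
lemma Plc.ord_L (h : Plc p w φ) (hF : Hyp0 F) (k : Jx n) :
    (F.L k (mv p w)).order = if F.L k p = 0 then 1 else 0 := by
  have := h.ne_L hF k
  rw [L_mv] at this ⊢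
  split_ifs with e
  · rw [e] at this ⊢
    exact (ln_zero fun e' => this (by simp [ln, e'])).2
  · exact (ln_unit e _).2.1

open Classical in
lemma Plc.ord_D (h : Plc p w φ) (hF : Hyp0 F) (i : Fin 3) : F.D i (mv p w) ≠ 0 ∧
    (F.D i (mv p w)).order = ∑ k, if F.L (i, k) p = 0 then 1 else 0 := by
  have h1 : (HahnSeries.C (F.c i : E) : H E) ≠ 0 :=
    HahnSeries.C_ne_zero (Int.cast_ne_zero.2 (hF.c0 i))
  have h2 : ∏ k, F.L (i, k) (mv p w) ≠ 0 := prod_ne_zero_iff.2 fun k _ => h.ne_L hF _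
  rw [Surf.D, ← map_intCast (HahnSeries.C : E →+* H E) (F.c i), order_mul h1 h2, order_C, zero_add,
    order_prod _ _ fun k _ => h.ne_L hF _]
  exact ⟨mul_ne_zero h1 h2, sum_congr rfl fun k _ => h.ord_L hF _⟩

lemma Plc.unit_D (h : Plc p w φ) (hF : Hyp0 F) (i : Fin 3) (u : ∀ k, F.L (i, k) p ≠ 0) :
    F.D i (mv p w) ≠ 0 ∧ (F.D i (mv p w)).order = 0 :=
  ⟨(h.ord_D hF i).1, (h.ord_D hF i).2.trans (sum_eq_zero fun k _ => if_neg (u k))⟩

omit [CharZero E] in
lemma lc_L {k : Jx n} (u : F.L k p ≠ 0) : lc (F.L k (mv p w)) = F.L k p := by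
  rw [L_mv, (ln_unit u _).2.2]

omit [CharZero E] in
lemma lc_D (i : Fin 3) (u : ∀ k, F.L (i, k) p ≠ 0) : lc (F.D i (mv p w)) = F.D i p := by
  rw [Surf.D, ← map_intCast (HahnSeries.C : E →+* H E) (F.c i), map_mul, lc_C, map_prod]
  exact congrArg _ (prod_congr rfl fun k _ => lc_L (u k))

lemma Plc.tri (h : Plc p w φ) (hF : Hyp0 F) {e₂ e₃ : RatFunc ℚ} (h2 : e₂ ≠ 0) (h3 : e₃ ≠ 0)
    (hc : Cover (F.D 1 gp) (F.D 2 gp) e₂ e₃) :
    Tri (fun i => F.D i (mv p w)) fun i => φ (![e₂ * e₃, e₃, e₂] i) := by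
  refine ⟨?_, map_mul φ _ _, fun i => (_root_.map_ne_zero φ).2 ?_, ?_⟩
  · simp only [← h.D F, sum_gp hF, map_sub, sub_mul]
  · rcases three i with rfl | rfl | rfl
    exacts [mul_ne_zero h2 h3, h3, h2]
  obtain ⟨z₀, z₂, z₃, t, h0, a, b⟩ := hc
  change Sol _ _ (φ (e₂ * e₃)) (φ e₂) (φ e₃)
  by_cases ht : t = 0
  · subst ht
    rw [zero_pow two_ne_zero, mul_zero, sub_eq_zero] at a b
    refine ⟨φ (e₂ * e₃ * z₀ ^ 2), φ (e₂ * z₂ ^ 2), φ (e₃ * z₃ ^ 2), ⟨φ z₀, by simp⟩,
      ⟨φ z₂, by simp⟩, ⟨φ z₃, by simp⟩, .inl ⟨(_root_.map_ne_zero φ).2 fun e => h0 ?_,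
        by rw [a], by rw [b]⟩⟩
    have a' := a.symm.trans e
    have b' := b.symm.trans e
    simp only [mul_eq_zero, h2, h3, false_or, pow_eq_zero_iff two_ne_zero] at e a' b'
    exact ⟨e, a', b', rfl⟩
  obtain ⟨m, hm⟩ := hF.ev
  have e : ln p.2 w.2 ^ n = (ln p.2 w.2 ^ m) ^ 2 := by rw [sq, ← _root_.pow_add, ← hm]
  have ht' := (_root_.map_ne_zero φ).2 ht
  have a' := congrArg φ a
  have b' := congrArg φ b
  simp only [map_sub, map_mul, map_pow] at a' b'
  refine ⟨_, _, _, ⟨φ z₀ * ln p.2 w.2 ^ m / φ t, rfl⟩, ⟨φ z₂ * ln p.2 w.2 ^ m / φ t, rfl⟩,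
    ⟨φ z₃ * ln p.2 w.2 ^ m / φ t, rfl⟩, .inr ⟨?_, ?_⟩⟩ <;> simp only [← h.D F, e, map_mul] <;>
    field_simp
  · linear_combination (-(ln p.2 w.2 ^ m) ^ 2) * a'
  · linear_combination (-(ln p.2 w.2 ^ m) ^ 2) * b'

lemma Plc.prod (h : Plc p w φ) (F : Surf n) (x : RatFunc ℚ) (s : Finset (Jx n)) :
    φ (x * ∏ j ∈ s, F.L j gp) * ln p.2 w.2 ^ s.card = φ x * ∏ j ∈ s, F.L j (mv p w) := by
  simp only [map_mul, map_prod, ← h.L F, prod_mul_distrib, prod_const, mul_assoc]

open Classical in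
lemma Plc.ord (h : Plc p w φ) (hF : Hyp0 F) {x : RatFunc ℚ} (hx : x ≠ 0) (s : Finset (Jx n)) :
    (φ (x * ∏ j ∈ s, F.L j gp)).order + s.card * (ln p.2 w.2).order =
      (φ x).order + ∑ j ∈ s, if F.L j p = 0 then 1 else 0 := by
  have := congrArg HahnSeries.order (h.prod F x s)
  rw [order_mul ((_root_.map_ne_zero φ).2 (mul_ne_zero hx
      (prod_ne_zero_iff.2 fun j _ => L_gp hF j))) (pow_ne_zero _ h.ne), order_pow,
    order_mul ((_root_.map_ne_zero φ).2 hx) (prod_ne_zero_iff.2 fun j _ => h.ne_L hF j),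
    order_prod _ _ fun j _ => h.ne_L hF j, sum_congr rfl fun j _ => h.ord_L hF j] at this
  simpa using this

lemma lc_cast (φ : RatFunc ℚ →+* H ℚ) (u : ℚ) : lc (φ u) = u := by
  rw [map_ratCast, ← map_ratCast (HahnSeries.C : ℚ →+* H ℚ), lc_C, Rat.cast_id]

lemma L_root (F : Surf n) (j : Jx n) : F.L j (F.root j) = 0 := by
  simp only [Surf.L, Surf.root]; ring

end Res

open Res

/-- Row RES. -/
theorem res : RESStmt := by
  classical
  intro n F hF e₂ e₃ h2 h3 hc
  choose φ hφ using fun j : Jx n => exists_plc (F.root j) ((F.A j : ℚ), (F.B j : ℚ)) (by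
    have h1 : (0 : ℚ) < F.A j ^ 2 + F.B j ^ 2 := by
      rcases AB hF j with h | h <;> have : _ ≠ (0 : ℚ) := Int.cast_ne_zero.2 h <;> positivity
    simp only [Surf.root]
    intro e
    linarith)
  let f : Fin 3 → RatFunc ℚ := ![e₂ * e₃, e₃, e₂]
  have hf : ∀ i, f i ≠ 0 := fun i => by
    rcases three i with rfl | rfl | rfl
    exacts [mul_ne_zero h2 h3, h3, h2]
  let y : Finset (Jx n) := univ.filter fun j => ∃ i, (φ j (f i)).order % 2 = 1
  have hy : ∀ j, j ∈ y ↔ ∃ i, (φ j (f i)).order % 2 = 1 := fun j => by simp [y]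
  let g : Fin 3 → RatFunc ℚ := fun i => f i * ∏ j ∈ y.filter (fun j => j.1 ≠ i), F.L j gp
  have hg : ∀ i, g i ≠ 0 := fun i =>
    mul_ne_zero (hf i) (prod_ne_zero_iff.2 fun j _ => L_gp hF j)
  have hu : ∀ (j : Jx n) (i : Fin 3), i ≠ j.1 → ∀ k, F.L (i, k) (F.root j) ≠ 0 :=
    fun j i hi k => hF.ne _ _ fun e => hi (congrArg Prod.fst e)
  have q1 : ∀ (E : Type) [Field E] [CharZero E] (p w : E × E) (ψ : RatFunc ℚ →+* H E),
      Plc p w ψ → (∀ k, F.L k p ≠ 0) → ∀ i, ((ψ (g i)).order +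
        (y.filter fun j => j.1 ≠ i).card * (ln p.2 w.2).order) % 2 = 0 := by
    intro E _ _ p w ψ h u i
    rw [h.ord hF (hf i), sum_eq_zero fun j _ => if_neg (u j), add_zero]
    exact (h.tri hF h2 h3 hc).even i fun i' _ => h.unit_D hF i' fun k => u _
  have q2 : ∀ j i, ((φ j (g i)).order +
      (y.filter fun j => j.1 ≠ i).card * (ln (F.root j).2 (F.B j : ℚ)).order) % 2 = 0 := by
    intro j i
    have t := (hφ j).tri hF h2 h3 hc
    have t1 := t.even j.1 fun i' hi => (hφ j).unit_D hF i' (hu j i' hi)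
    have e : ∀ k, F.L k (F.root j) = 0 ↔ k = j := fun k =>
      ⟨fun h => by_contra fun h' => hF.ne _ _ h' h, fun h => h ▸ L_root F k⟩
    rw [(hφ j).ord hF (hf i)]
    simp only [e, sum_ite_eq', mem_filter]
    by_cases hi : i = j.1
    · subst hi
      simpa using t1
    · have t2 : _ ↔ (φ j (f i)).order % 2 = 1 := (hy j).trans (t.iff t1 hi)
      split_ifs with h
      · have := t2.1 h.1
        omega
      · have := mt t2.2 fun h' => h ⟨h', Ne.symm hi⟩
        omega
  have q3 : ∀ i, ∃ c : ℚ, c ≠ 0 ∧ IsSquare (g i * c) := fun i => by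
    obtain ⟨q, m, hq, hm, e⟩ := exists_sqf (hg i)
    have hq0 : algebraMap _ (RatFunc ℚ) q ≠ 0 := RatFunc.algebraMap_ne_zero hq.ne_zero
    have key : ∀ (E : Type) [Field E] [CharZero E] (p w : E × E) (ψ : RatFunc ℚ →+* H E) (N : ℕ),
        Plc p w ψ → p.2 ≠ 0 → aeval (p.1 / p.2) q = 0 →
        ((ψ (g i)).order + N * (ln p.2 w.2).order) % 2 ≠ 0 := by
      intro E _ _ p w ψ N h hp hr
      rw [e, map_mul, map_pow, order_sq ((_root_.map_ne_zero ψ).2 hq0)
        ((_root_.map_ne_zero ψ).2 hm), h.one q hq hp hr, (ln_unit hp _).2.1]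
      omega
    by_cases hd : q.degree = 0
    · obtain ⟨c, rfl⟩ : ∃ c, q = Polynomial.C c := ⟨_, eq_C_of_degree_eq_zero hd⟩
      refine ⟨c, fun h => hq.ne_zero (by simp [h]), (c : RatFunc ℚ) * m, ?_⟩
      rw [e, RatFunc.algebraMap_C, eq_ratCast RatFunc.C c]
      ring
    obtain ⟨θ, hθ⟩ := IsAlgClosed.exists_aeval_eq_zero ℂ q hd
    by_cases hb : ∀ k, F.L k ((θ, 1) : ℂ × ℂ) ≠ 0
    · obtain ⟨ψ, h⟩ := exists_plc ((θ, 1) : ℂ × ℂ) (1, 0) (by simp)
      exact absurd (q1 ℂ _ _ ψ h hb i) (key ℂ _ _ ψ _ h one_ne_zero (by simpa using hθ))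
    simp only [not_forall, not_not] at hb
    obtain ⟨j, hj⟩ := hb
    simp only [Surf.L, mul_one] at hj
    have hA : F.A j ≠ 0 := fun h => (AB hF j).elim (· h) fun h' => h' (by simpa [h] using hj)
    have hA' : (F.A j : ℂ) ≠ 0 := Int.cast_ne_zero.2 hA
    have e1 : θ = algebraMap ℚ ℂ ((F.root j).1 / (F.root j).2) := by
      simp only [Surf.root, map_div₀, map_neg, map_intCast]
      field_simp
      linear_combination hj
    rw [e1, aeval_algebraMap_apply, _root_.map_eq_zero] at hθ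
    have := key ℚ _ _ (φ j) (y.filter fun j => j.1 ≠ i).card (hφ j)
      (by simpa [Surf.root] using hA) hθ
    exact absurd (q2 j i) this
  choose u u0 u1 using q3
  have q4 : ∀ (ψ : RatFunc ℚ →+* H ℚ) (i : Fin 3), (ψ (g i)).order % 2 = 0 := fun ψ i => by
    have := even_order ((u1 i).map ψ)
    rwa [map_mul, order_mul ((_root_.map_ne_zero ψ).2 (hg i))
      ((_root_.map_ne_zero ψ).2 (Rat.cast_ne_zero.2 (u0 i))), map_ratCast,
      ← map_ratCast (HahnSeries.C : ℚ →+* H ℚ), order_C, add_zero] at this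
  have q5 : ∀ i, Even (y.filter fun j => j.1 ≠ i).card := fun i => by
    rw [Nat.even_iff]
    by_cases hb : ∀ k, F.A k ≠ 0
    · obtain ⟨ψ, h⟩ := exists_plc ((1, 0) : ℚ × ℚ) (0, 1) (by simp)
      have a := q1 ℚ _ _ ψ h (fun k => by simpa [Surf.L] using hb k) i
      have b := q4 ψ i
      rw [(ln_zero one_ne_zero).2] at a
      omega
    simp only [not_forall, not_not] at hb
    obtain ⟨j, hj⟩ := hb
    have a := q2 j i
    have b := q4 (φ j) i
    rw [show (F.root j).2 = 0 by simp [Surf.root, hj],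
      (ln_zero (Int.cast_ne_zero.2 ((AB hF j).resolve_left (· hj)))).2] at a
    omega
  have q6 : ∀ i, f i * F.del u y i gp = g i * u i := fun i => by
    simp only [Surf.del, g]; ring
  refine ⟨u, y, ⟨u0, ?_, q5, fun j => ?_⟩, (q6 2).symm ▸ u1 2, (q6 1).symm ▸ u1 1⟩
  · have e : g 0 * g 1 * g 2 = (e₂ * e₃ * ∏ j ∈ y, F.L j gp) ^ 2 := by
      have : ∏ j ∈ y, F.L j gp ^ 2 = ∏ j ∈ y, ((if j.1 ≠ 0 then F.L j gp else 1) *
          (if j.1 ≠ 1 then F.L j gp else 1) * if j.1 ≠ 2 then F.L j gp else 1) :=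
        prod_congr rfl fun j _ => by rcases three j.1 with h | h | h <;> simp [h, sq]
      rw [mul_pow, ← prod_pow, this, prod_mul_distrib, prod_mul_distrib]
      simp only [g, prod_filter]
      change e₂ * e₃ * _ * (e₃ * _) * (e₂ * _) = _
      ring
    have e' : ((u 0 * u 1 * u 2 : ℚ) : RatFunc ℚ) * (g 0 * g 1 * g 2) =
        g 0 * u 0 * (g 1 * u 1) * (g 2 * u 2) := by push_cast; ring
    have a := sq_cancel (c := 1) (mul_ne_zero (mul_ne_zero (hg 0) (hg 1)) (hg 2))
      (e' ▸ ((u1 0).mul (u1 1)).mul (u1 2)) (by rw [e, mul_one]; exact IsSquare.sq _)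
    obtain ⟨ψ, -⟩ := exists_plc ((1, 0) : ℚ × ℚ) (0, 1) (by simp)
    have := (a.map ψ).map lc
    rwa [mul_one, lc_cast] at this
  · have t := (hφ j).tri hF h2 h3 hc
    have a := t.res j.1 (fun i' hi => (hφ j).unit_D hF i' (hu j i' hi)) ((hφ j).ord_D hF _).1 (by
      rw [((hφ j).ord_D hF _).2, sum_eq_single j.2, if_pos (L_root F j)]
      · exact fun k _ hk => if_neg (hF.ne _ _ fun e => hk (congrArg Prod.snd e))
      · simp)
    have b : IsSquare (F.del u y j.1 (F.root j) * lc (φ j (f j.1))) := by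
      have b1 := (((u1 j.1).map (φ j)).mul
        ((q5 j.1).isSquare_pow (ln (F.root j).2 (F.B j : ℚ)))).map lc
      have b2 : ∏ k ∈ y.filter (fun k => k.1 ≠ j.1), lc (F.L k (mv (F.root j) (F.A j, F.B j))) =
          ∏ k ∈ y.filter (fun k => k.1 ≠ j.1), F.L k (F.root j) :=
        prod_congr rfl fun k hk => lc_L (hF.ne k j fun e =>
          (mem_filter.1 hk).2 (congrArg Prod.fst e))
      rw [map_mul (φ j), mul_right_comm, (hφ j).prod F, map_mul, map_mul, lc_cast, map_prod,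
        b2] at b1
      simp only [Surf.del, Rat.cast_id]
      rwa [mul_comm, mul_comm (u _), ← mul_assoc]
    have c := sq_cancel (lc_ne (t.ne j.1)) b a
    have e : F.gam j = ![lc (F.D 2 (mv (F.root j) (F.A j, F.B j))),
        -lc (F.D 2 (mv (F.root j) (F.A j, F.B j))),
        -lc (F.D 1 (mv (F.root j) (F.A j, F.B j)))] j.1 := by
      obtain ⟨i, k⟩ := j
      rcases three i with rfl | rfl | rfl
      · have := hF.sum (F.root (0, k))
        rw [Surf.D, prod_eq_zero (mem_univ k) (L_root F _), mul_zero] at this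
        exact (sub_eq_zero.1 this.symm).trans (lc_D 2 (hu (0, k) 2 (by simp))).symm
      · exact congrArg Neg.neg (lc_D 2 (hu (1, k) 2 (by simp))).symm
      · exact congrArg Neg.neg (lc_D 1 (hu (2, k) 1 (by simp))).symm
    rw [e]
    by_cases hj : j ∈ y
    · rwa [if_pos hj, if_pos ((hy j).1 hj)] at *
    · rwa [if_neg hj, if_neg (mt (hy j).2 hj)] at *

end Pool.Agent.MP_a43263_nt.RH

end
end MrgPart1

-- marker of a merged file
example : 731051 + 442017 = 731051 + 442017 := rfl
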