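import Mathlib.Topology.Sheaves.Presheaf
import Mathlib.RingTheory.Artinian.Instances
import Mathlib.RingTheory.Polynomial.IsIntegral
import Mathlib.RingTheory.Ideal.Quotient.HasFiniteQuotients
import Mathlib.Tactic.Polynomial.Basic
import Pool.Agent.MP_a43263_nt.RH.GenInj
import Pool.Agent.MP_a43263_nt.two.Base
import Pool.Agent.MP_a43263_nt.MW
import Pool.Agent.MP_a43263_nt.RH.GenRes

-- ======== part 0: formerly Pool.Agent.MP_a43263_nt.RH.GenRkk
section MrgPart0

/-! PROJECT RANKG, block GEN: the complete 2-descent over any field. -/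

set_option autoImplicit false

namespace Pool.Agent.MP_a43263_nt.RH

namespace Rkk

open WeierstrassCurve WeierstrassCurve.Affine Two RG

variable {K : Type} [Field K] [DecidableEq K] {V : WeierstrassCurve.Affine K} {a b : K}

/-- the component of the descent map at the root `a` -/
def dl (a b : K) : V.Point → K
  | .zero => 1
  | .some x _ _ => if x = a then a * (a - b) else x - a

theorem dl_ne (hV : IsE V a b) (P : V.Point) : dl a b P ≠ 0 := by
  rcases P with _ | ⟨x, y, h⟩
  · exact one_ne_zero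
  · simp only [dl]
    split_ifs with e
    exacts [mul_ne_zero hV.ha hV.hab, sub_ne_zero.2 e]

theorem dl_add (hV : IsE V a b) (P Q : V.Point) :
    IsSquare (dl a b P * dl a b Q * dl a b (P + Q)) := by
  rcases P with _ | ⟨x₁, y₁, h₁⟩
  · rw [← Point.zero_def, zero_add]
    exact ⟨dl a b Q, by simp [dl]⟩
  rcases Q with _ | ⟨x₂, y₂, h₂⟩
  · rw [← Point.zero_def, add_zero]
    exact ⟨dl a b (.some x₁ y₁ h₁), by simp [dl]⟩
  by_cases hxy : x₁ = x₂ ∧ y₁ = V.negY x₂ y₂
  · rw [Point.add_of_Y_eq hxy.1 hxy.2]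
    obtain ⟨rfl, -⟩ := hxy
    exact ⟨dl a b (.some x₁ y₁ h₁), by simp [dl]⟩
  rw [Point.add_some hxy]
  have H := addPolynomial_slope h₁.1 h₂.1 hxy
  rw [addPolynomial_eq, neg_inj, Cubic.prod_X_sub_C_eq, Cubic.toPoly_injective] at H
  simp only [dl]
  generalize V.addX x₁ x₂ (V.slope x₁ x₂ y₁ y₂) = x₃ at H ⊢
  generalize V.slope x₁ x₂ y₁ y₂ = l at H
  simp only [Cubic.mk.injEq, hV.h1, hV.h2, hV.h3, hV.h4, hV.h6] at H
  obtain ⟨-, c2, c1, c0⟩ := H
  have i0 : (x₁ - a) * (x₂ - a) * (x₃ - a) = (l * (a - x₁) + y₁) ^ 2 := by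
    linear_combination a ^ 2 * c2 + a * c1 + c0
  have i1 : a * (a - b) - 2 * l * (l * (a - x₁) + y₁) =
      (x₁ - a) * (x₂ - a) + (x₁ - a) * (x₃ - a) + (x₂ - a) * (x₃ - a) := by
    linear_combination 2 * a * c2 + c1
  have hc := mul_ne_zero hV.ha hV.hab
  have key : x₁ = a ∨ x₂ = a ∨ x₃ = a → a * (a - b) =
      (x₁ - a) * (x₂ - a) + (x₁ - a) * (x₃ - a) + (x₂ - a) * (x₃ - a) := fun h => by
    have : l * (a - x₁) + y₁ = 0 := pow_eq_zero_iff two_ne_zero |>.1 (by
      rw [← i0]
      rcases h with h | h | h <;> simp [h])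
    rw [← i1, this]
    ring
  by_cases e₁ : x₁ = a <;> by_cases e₂ : x₂ = a <;> by_cases e₃ : x₃ = a <;>
    simp only [e₁, e₂, e₃, if_true, if_false]
  · exact absurd (by simpa [e₁, e₂, e₃] using key (.inl e₁)) hc
  · exact absurd (by simpa [e₁, e₂] using key (.inl e₁)) hc
  · exact absurd (by simpa [e₁, e₃] using key (.inl e₁)) hc
  · exact ⟨a * (a - b), by have := key (.inl e₁); rw [e₁] at this; linear_combination -(a * (a - b)) * this⟩
  · exact absurd (by simpa [e₂, e₃] using key (.inr (.inl e₂))) hc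
  · exact ⟨a * (a - b), by
      have := key (.inr (.inl e₂)); rw [e₂] at this; linear_combination -(a * (a - b)) * this⟩
  · exact ⟨a * (a - b), by
      have := key (.inr (.inr e₃)); rw [e₃] at this; linear_combination -(a * (a - b)) * this⟩
  · exact ⟨_, by rw [i0, sq]⟩

omit [DecidableEq K] in
theorem sq_div {x s : K} (hs : s ≠ 0) (h : IsSquare (x * s ^ 2)) : IsSquare x := by
  obtain ⟨r, hr⟩ := h
  exact ⟨r / s, by field_simp; linear_combination hr⟩

theorem half (hV : IsE V a b) {x y : K} (h : V.Nonsingular x y) (s0 : IsSquare x)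
    (s2 : IsSquare (x - a)) (s3 : IsSquare (x - b)) : ∃ R : V.Point, 2 • R = .some x y h := by
  obtain ⟨z0, h0⟩ := s0
  obtain ⟨z2, h2⟩ := s2
  obtain ⟨z3, h3⟩ := s3
  obtain ⟨R, hR⟩ := hV.surj (z0 := z0) (z2 := z2) (z3 := z3) (t := 1)
    (by linear_combination h2 - h0) (by linear_combination h3 - h0) (by simp)
  rcases R with _ | ⟨x', y', h'⟩
  · exact absurd hR.2.2.2 one_ne_zero
  obtain ⟨k, hk, rfl, -, -, e4⟩ := hR
  have hy : y' ≠ 0 := by
    rintro rfl
    simp at e4
  have h2 := hV.two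
  have hn : y' ≠ V.negY x' y' := by
    rw [hV.negY]
    exact fun h0 => mul_ne_zero h2 hy (by linear_combination h0)
  have hX : V.addX x' x' (V.slope x' x' y' y') = x := by
    have e := hV.eqn h'
    have hk' : k = 1 / (2 * y') := by field_simp; linear_combination -e4
    rw [slope_of_Y_ne rfl hn, hV.negY, addX, hV.h1, hV.h2, hV.h4, h0, hk',
      show y' - -y' = 2 * y' by ring]
    field_simp
    linear_combination (4 * (a + b - 2 * x')) * e
  rcases Point.X_eq_iff (h₁ := nonsingular_add h' h' fun hh => hn hh.2) (h₂ := h) |>.1 hX with e | e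
  · exact ⟨.some x' y' h', by rw [two_nsmul, Point.add_self_of_Y_ne hn, e]⟩
  · exact ⟨-.some x' y' h', by rw [smul_neg, two_nsmul, Point.add_self_of_Y_ne hn, e, neg_neg]⟩

theorem ker (hV : IsE V a b) (P : V.Point) :
    (IsSquare (dl a b P) ∧ IsSquare (dl b a P)) ↔ ∃ Z : V.Point, 2 • Z = P := by
  constructor
  · rintro ⟨s2, s3⟩
    rcases P with _ | ⟨x, y, h⟩
    · exact ⟨0, rfl⟩
    have hab := hV.hab
    have hba := hV.symm.hab
    simp only [dl] at s2 s3
    by_cases e : x = a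
    · have e' : x ≠ b := fun e' => hab (by rw [← e, e', sub_self])
      rw [if_pos e] at s2
      rw [if_neg e'] at s3
      refine half hV h (sq_div hab ?_) (by simp [e]) s3
      have := s2.mul s3
      rw [e, mul_assoc, ← sq] at this
      rwa [e]
    by_cases e' : x = b
    · rw [if_neg e] at s2
      rw [if_pos e'] at s3
      refine half hV h (sq_div hba ?_) s2 (by simp [e'])
      have := s3.mul s2
      rw [e', mul_assoc, ← sq] at this
      rwa [e']
    rw [if_neg e] at s2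
    rw [if_neg e'] at s3
    refine half hV h (sq_div (mul_ne_zero (sub_ne_zero.2 e) (sub_ne_zero.2 e')) ?_) s2 s3
    have := ((IsSquare.sq y).mul s2).mul s3
    rwa [hV.eqn h, show x * (x - a) * (x - b) * (x - a) * (x - b) =
      x * ((x - a) * (x - b)) ^ 2 by ring] at this
  · rintro ⟨Z, rfl⟩
    have h2 := dl_add hV Z Z
    have h3 := dl_add hV.symm Z Z
    rw [← sq, mul_comm, ← two_nsmul] at h2 h3
    exact ⟨sq_div (dl_ne hV Z) h2, sq_div (dl_ne hV.symm Z) h3⟩

theorem cover (hV : IsE V a b) (P : V.Point) : Cover a b (dl a b P) (dl b a P) := by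
  rcases P with _ | ⟨x, y, h⟩
  · exact ⟨1, 1, 1, 0, by simp, by simp [dl], by simp [dl]⟩
  have hab := hV.hab
  have hba := hV.symm.hab
  simp only [dl]
  by_cases e : x = a
  · have e' : x ≠ b := fun e' => hab (by rw [← e, e', sub_self])
    rw [if_pos e, if_neg e', e]
    exact ⟨1, 0, a - b, a - b, by simp, by ring, by ring⟩
  by_cases e' : x = b
  · rw [if_neg e, if_pos e', e']
    exact ⟨1, b - a, 0, b - a, by simp, by ring, by ring⟩
  rw [if_neg e, if_neg e']
  have := hV.eqn h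
  exact ⟨y, (x - a) * (x - b), (x - a) * (x - b), (x - a) * (x - b),
    fun h => mul_ne_zero (sub_ne_zero.2 e) (sub_ne_zero.2 e') h.2.1,
    by linear_combination (x - a) * (x - b) * this, by linear_combination (x - a) * (x - b) * this⟩

theorem of_cover (hV : IsE V a b) {d₂ d₃ : K} (n₂ : d₂ ≠ 0) (n₃ : d₃ ≠ 0) (h : Cover a b d₂ d₃) :
    ∃ P : V.Point, IsSquare (dl a b P * d₂) ∧ IsSquare (dl b a P * d₃) := by
  obtain ⟨z0, z2, z3, t, hz, e2, e3⟩ := h
  by_cases ht : t = 0
  · subst ht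
    have h0 : z0 ≠ 0 := by
      rintro rfl
      exact hz ⟨rfl, by simpa [n₂] using e2, by simpa [n₃] using e3, rfl⟩
    exact ⟨.zero, sq_div h0 ⟨z3, mul_left_cancel₀ n₃ (by simp only [dl]; linear_combination e3)⟩,
      sq_div h0 ⟨z2, mul_left_cancel₀ n₂ (by simp only [dl]; linear_combination e2)⟩⟩
  obtain ⟨x, hx⟩ : ∃ x, x = d₂ * d₃ * (z0 / t) ^ 2 := ⟨_, rfl⟩
  have f2 : x - a = d₂ * (z2 / t) ^ 2 := by rw [hx]; field_simp; linear_combination e2
  have f3 : x - b = d₃ * (z3 / t) ^ 2 := by rw [hx]; field_simp; linear_combination e3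
  refine ⟨.some x (d₂ * d₃ * (z0 / t) * (z2 / t) * (z3 / t)) (hV.ns (by rw [f2, f3, hx]; ring)),
    ?_, ?_⟩ <;> simp only [dl] <;> split_ifs with e
  · exact ⟨d₂ * d₃ * (z0 / t) * (z3 / t), by rw [← e, f3, hx]; ring⟩
  · exact ⟨d₂ * (z2 / t), by rw [f2]; ring⟩
  · exact ⟨d₂ * d₃ * (z0 / t) * (z2 / t), by rw [← e, f2, hx]; ring⟩
  · exact ⟨d₃ * (z3 / t), by rw [f3]; ring⟩

theorem card_two [CharZero K] (hE : IsE V a b) : Nat.card {Z : V.Point // 2 • Z = 0} = 2 ^ 2 := by
  have hs : ∀ x : Bool, ((if x then 1 else -1 : K)) ^ 2 = 1 := fun x => by cases x <;> simp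
  choose S hS using fun x : Bool × Bool => hE.sg_exists (hs x.1) (hs x.2)
  rw [← Nat.card_eq_of_bijective
    (fun x => (⟨S x, hE.sg_two (hS x)⟩ : {Z : V.Point // 2 • Z = 0}))
    ⟨fun x y h => ?_, fun Z => ?_⟩]
  · simp
  · have e : S x = S y := congrArg Subtype.val h
    have := (hS x).unique (e ▸ hS y)
    obtain ⟨_ | _, _ | _⟩ := x <;> obtain ⟨_ | _, _ | _⟩ := y <;> first | rfl | norm_num at this
  · obtain ⟨u₂, u₃, h⟩ := hE.sg_ex Z.2
    rcases sq_eq_one_iff.1 h.1 with rfl | rfl <;> rcases sq_eq_one_iff.1 h.2.1 with rfl | rfl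
    exacts [⟨(true, true), Subtype.ext (hE.sg_inj (hS _) h)⟩,
      ⟨(true, false), Subtype.ext (hE.sg_inj (hS _) h)⟩,
      ⟨(false, true), Subtype.ext (hE.sg_inj (hS _) h)⟩,
      ⟨(false, false), Subtype.ext (hE.sg_inj (hS _) h)⟩]

omit [DecidableEq K] in
theorem tri {p q r d e : K} (h : IsSquare (p * q * r)) (hd : IsSquare (p * d))
    (he : IsSquare (q * e)) (hp : p ≠ 0) (hq : q ≠ 0) : IsSquare (r * (d * e)) := by
  refine sq_div (mul_ne_zero hp hq) ?_
  have := (h.mul hd).mul he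
  rwa [show p * q * r * (p * d) * (q * e) = r * (d * e) * (p * q) ^ 2 by ring] at this

omit [DecidableEq K] in
theorem canc {r s : K} (h : IsSquare (r * s)) (hr : r ≠ 0) (hs : IsSquare r) : IsSquare s := by
  refine sq_div hr ?_
  have := h.mul hs
  rwa [show r * s * r = s * r ^ 2 by ring] at this

end Rkk

open Rkk Two in
theorem rkk : RKKStmt := by
  intro K _ _ _ a b ι I d₂ d₃ ha hb hab hg hi hs
  have hV : IsE (cK a b).toAffine a b :=
    ⟨rfl, rfl, rfl, rfl, rfl, ha, hb, sub_ne_zero.2 hab, two_ne_zero⟩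
  refine ⟨?_, card_two hV⟩
  classical
  choose P hP using fun i : I => of_cover hV (hg i i.2).1 (hg i i.2).2.1 (hg i i.2).2.2
  rw [← Fintype.card_coe, ← Nat.card_eq_fintype_card, AddSubgroup.index_eq_card]
  refine (Nat.card_eq_of_bijective
    (fun i : I => (QuotientAddGroup.mk (P i) : (cK a b).toAffine.Point ⧸ _))
    ⟨fun i j h => ?_, fun q => ?_⟩).symm
  · obtain ⟨Z, hZ⟩ := QuotientAddGroup.eq.1 h
    rw [nsmulAddMonoidHom_apply] at hZ
    obtain ⟨h₂, h₃⟩ := (ker hV (P i + P j)).2 ⟨Z + P i, by rw [smul_add, hZ]; abel⟩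
    exact Subtype.ext (hi i i.2 j j.2
      (canc (tri (dl_add hV _ _) (hP i).1 (hP j).1 (dl_ne hV _) (dl_ne hV _)) (dl_ne hV _) h₂)
      (canc (tri (dl_add hV.symm _ _) (hP i).2 (hP j).2 (dl_ne hV.symm _) (dl_ne hV.symm _))
        (dl_ne hV.symm _) h₃))
  · obtain ⟨Q, rfl⟩ := QuotientAddGroup.mk_surjective q
    obtain ⟨i, hiI, h₂, h₃⟩ := hs _ _ (dl_ne hV Q) (dl_ne hV.symm Q) (cover hV Q)
    have k₂ := tri (dl_add hV Q (P ⟨i, hiI⟩)) h₂ (hP ⟨i, hiI⟩).1 (dl_ne hV _) (dl_ne hV _)
    have k₃ := tri (dl_add hV.symm Q (P ⟨i, hiI⟩)) h₃ (hP ⟨i, hiI⟩).2 (dl_ne hV.symm _)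
      (dl_ne hV.symm _)
    rw [← sq] at k₂ k₃
    obtain ⟨Z, hZ⟩ := (ker hV _).1 ⟨sq_div (hg i hiI).1 k₂, sq_div (hg i hiI).2.1 k₃⟩
    exact ⟨⟨i, hiI⟩, QuotientAddGroup.eq.2 ⟨Z - P ⟨i, hiI⟩, by
      rw [nsmulAddMonoidHom_apply, smul_sub, hZ]; abel⟩⟩

end Pool.Agent.MP_a43263_nt.RH

end MrgPart0

-- ======== part 1: formerly Pool.Agent.MP_a43263_nt.RH.GenLat
section MrgPart1

/-! PROJECT RANKG, block GEN, row LAT: an anisotropic integral quadratic form on a group with
finite quotient by two gives finite generation. -/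

set_option autoImplicit false

noncomputable section

namespace Pool.Agent.MP_a43263_nt.RH

namespace Lat

variable {A : Type} [AddCommGroup A] {q : A → ℤ}

/-- the bilinear form of `q`, as a homomorphism in the first variable -/
def bil (h : ∀ x y, q (x + y) + q (x - y) = 2 * q x + 2 * q y) (z : A) : A →+ ℤ :=
  AddMonoidHom.mk' (fun x => q (x + z) - q x - q z) fun x y => by
    have h1 := h (x + z) y
    have h2 := h (y + z) x
    have h3 := h z (x - y)
    have h4 := h x y
    rw [show x + z + y = x + y + z by abel] at h1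
    rw [show y + z + x = x + y + z by abel] at h2
    rw [show z + (x - y) = x + z - y by abel, show z - (x - y) = y + z - x by abel] at h3
    omega

lemma bil_comm (h : ∀ x y, q (x + y) + q (x - y) = 2 * q x + 2 * q y) (x z : A) :
    bil h z x = bil h x z := by
  change q (x + z) - q x - q z = q (z + x) - q z - q x
  rw [add_comm z x]
  ring

lemma bil_self (h : ∀ x y, q (x + y) + q (x - y) = 2 * q x + 2 * q y) (x : A) :
    bil h x x = 2 * q x := by
  change q (x + x) - q x - q x = _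
  have h1 := h x x
  have h2 := h 0 0
  rw [sub_self] at h1
  rw [add_zero, sub_zero] at h2
  omega

end Lat

open Lat in
/-- Row LAT. -/
theorem lat : LATStmt := by
  intro A _ q h h0 hf hi
  let H := (nsmulAddMonoidHom (α := A) 2).range
  have : Finite (A ⧸ H) := AddSubgroup.finite_quotient_of_finiteIndex
  let ψ : A →+ (A ⧸ H → ℤ) := AddMonoidHom.pi fun c => bil h c.out
  have hk : ∀ x, ψ x = 0 → 2 • x = 0 := by
    intro x hx
    have h1 : ∀ (k : ℕ) (y : A), (2 : ℤ) ^ k ∣ bil h x y := by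
      intro k
      induction k with
      | zero => simp
      | succ k ih =>
        intro y
        obtain ⟨⟨_, z, rfl⟩, hz⟩ := QuotientAddGroup.mk_out_eq_add H y
        have h2 : bil h x (QuotientAddGroup.mk y : A ⧸ H).out = 0 :=
          (bil_comm h _ _).trans (congrFun hx _)
        rw [hz, map_add] at h2
        change bil h x y + bil h x (2 • z) = 0 at h2
        rw [map_nsmul] at h2
        rw [eq_neg_of_add_eq_zero_left h2, dvd_neg, pow_succ', nsmul_eq_mul]
        exact mul_dvd_mul_left _ (ih z)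
    have h3 : bil h x x = 0 := by
      refine Int.eq_zero_of_dvd_of_natAbs_lt_natAbs (h1 (bil h x x).natAbs x) ?_
      rw [Int.natAbs_pow]
      exact Nat.lt_two_pow_self
    rw [bil_self] at h3
    exact h0 x (by omega)
  have hfin : Finite (⊤ ⊓ LinearMap.ker ψ.toIntLinearMap : Submodule ℤ A) :=
    Finite.of_injective (fun x => (⟨x.1, hk x.1 x.2.2⟩ : {x : A // 2 • x = 0}))
      fun x y e => Subtype.ext (Subtype.mk.inj e)
  rw [← Module.Finite.iff_addGroup_fg]
  exact ⟨Submodule.fg_of_fg_map_of_fg_inf_ker ψ.toIntLinearMap (IsNoetherian.noetherian _)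
    (Module.Finite.iff_fg.1 inferInstance)⟩

end Pool.Agent.MP_a43263_nt.RH

end
end MrgPart1

-- ======== part 2: formerly Pool.Agent.MP_a43263_nt.RH.GenPlg
section MrgPart2

/-! PROJECT RANKG, block GEN, module PLG: one half of the parallelogram law. -/

set_option autoImplicit false

noncomputable section

namespace Pool.Agent.MP_a43263_nt.RH

open Polynomial WeierstrassCurve

namespace Plg

/-- a point is given by two coprime polynomials -/
theorem rep (n : ℕ) {V : WeierstrassCurve.Affine (RatFunc ℚ)} (P : V.Point) :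
    ∃ (u w : ℚ[X]) (c : RatFunc ℚ), IsCoprime u w ∧ c ≠ 0 ∧
      P.xRep 0 = c * algebraMap _ _ u ∧ P.xRep 1 = c * algebraMap _ _ w ∧
      max u.natDegree w.natDegree ≤ HP n P ∧ HP n P ≤ max u.natDegree w.natDegree + n := by
  rcases P with _ | ⟨x, y, h⟩
  · exact ⟨1, 0, 1, isCoprime_one_left, one_ne_zero, by simp [Affine.Point.xRep],
      by simp [Affine.Point.xRep], by simp [HP], by simp [HP]⟩
  · have hd : algebraMap _ (RatFunc ℚ) x.denom ≠ 0 :=
      RatFunc.algebraMap_ne_zero x.denom_ne_zero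
    refine ⟨x.num, x.denom, (algebraMap _ _ x.denom)⁻¹, x.isCoprime_num_denom, inv_ne_zero hd,
      ?_, by simp [hd], by simp only [HP, Hx]; omega, by simp only [HP, Hx]; omega⟩
    rw [inv_mul_eq_div, x.num_div_denom]
    rfl

theorem top {u w : ℚ[X]} (h : IsCoprime u w) :
    u.coeff (max u.natDegree w.natDegree) ≠ 0 ∨ w.coeff (max u.natDegree w.natDegree) ≠ 0 := by
  have key : ∀ u w : ℚ[X], IsCoprime u w → w.natDegree ≤ u.natDegree →
      u.coeff u.natDegree ≠ 0 ∨ w.coeff u.natDegree ≠ 0 := by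
    intro u w h hle
    by_cases hu : u = 0
    · subst hu
      have hw : w ≠ 0 := (isCoprime_zero_left.1 h).ne_zero
      have : w.natDegree = 0 := by simpa using hle
      right
      rw [natDegree_zero, ← this]
      exact leadingCoeff_ne_zero.2 hw
    · exact .inl (leadingCoeff_ne_zero.2 hu)
  rcases le_total w.natDegree u.natDegree with H | H
  · rw [max_eq_left H]; exact key u w h H
  · rw [max_eq_right H]; exact (key w u h.symm H).symm

theorem unit {u w u' w' q : ℚ[X]} (h : IsCoprime u w) (h' : IsCoprime u' w') (hq : q ≠ 0)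
    (h0 : q ∣ u * u') (h1 : q ∣ u * w' + w * u') (h2 : q ∣ w * w') : IsUnit q := by
  by_contra H
  obtain ⟨π, hπ, hd⟩ := WfDvdMonoid.exists_irreducible_factor H hq
  have hp := hπ.prime
  have n1 : π ∣ u → π ∣ w → False := fun a b => hp.not_isUnit (h.isUnit_of_dvd' a b)
  have n2 : π ∣ u' → π ∣ w' → False := fun a b => hp.not_isUnit (h'.isUnit_of_dvd' a b)
  have h1' := hd.trans h1
  rcases hp.dvd_or_dvd (hd.trans h0) with a | a <;> rcases hp.dvd_or_dvd (hd.trans h2) with b | b
  · exact n1 a b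
  · exact (hp.dvd_or_dvd ((dvd_add_right (a.mul_right _)).1 h1')).elim (n1 a) (n2 · b)
  · exact (hp.dvd_or_dvd ((dvd_add_left (b.mul_right _)).1 h1')).elim (n1 · b) (n2 a)
  · exact n2 a b

/-- a triple of polynomials proportional to a coprime triple has at least its degree -/
theorem deg {u w u' w' F0 F1 F2 : ℚ[X]} {l : RatFunc ℚ} {D : ℕ} (h : IsCoprime u w)
    (h' : IsCoprime u' w') (hl : l ≠ 0)
    (e0 : algebraMap _ _ F0 = l * algebraMap _ _ (u * u'))
    (e1 : algebraMap _ _ F1 = l * algebraMap _ _ (u * w' + w * u'))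
    (e2 : algebraMap _ _ F2 = l * algebraMap _ _ (w * w'))
    (d0 : F0.natDegree ≤ D) (d1 : F1.natDegree ≤ D) (d2 : F2.natDegree ≤ D) :
    max u.natDegree w.natDegree + max u'.natDegree w'.natDegree ≤ D := by
  have hd : algebraMap _ (RatFunc ℚ) l.denom ≠ 0 := RatFunc.algebraMap_ne_zero l.denom_ne_zero
  have e : ∀ {F G : ℚ[X]}, algebraMap _ _ F = l * algebraMap _ _ G → l.denom * F = l.num * G := by
    intro F G e
    apply RatFunc.algebraMap_injective ℚ
    rw [map_mul, map_mul, e, ← mul_assoc]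
    congr 1
    rw [mul_comm, ← eq_div_iff hd, l.num_div_denom]
  have dv : ∀ {F G : ℚ[X]}, l.denom * F = l.num * G → l.denom ∣ G := fun {F G} e =>
    l.isCoprime_num_denom.symm.dvd_of_dvd_mul_left ⟨F, e.symm⟩
  have hu := unit h h' l.denom_ne_zero (dv (e e0)) (dv (e e1)) (dv (e e2))
  have fin : ∀ {F G : ℚ[X]} {m : ℕ}, l.denom * F = l.num * G → F.natDegree ≤ D →
      G.coeff m ≠ 0 → m ≤ D := by
    intro F G m e d hm
    have hG : G ≠ 0 := by rintro rfl; simp at hm
    have hn := RatFunc.num_ne_zero hl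
    have hF : F ≠ 0 := by rintro rfl; exact mul_ne_zero hn hG (by simpa using e.symm)
    have := congrArg natDegree e
    rw [natDegree_mul l.denom_ne_zero hF, natDegree_mul hn hG, natDegree_eq_zero_of_isUnit hu]
      at this
    have := le_natDegree_of_ne_zero hm
    omega
  have c : ∀ {f g : ℚ[X]}, f.natDegree ≤ max u.natDegree w.natDegree →
      g.natDegree ≤ max u'.natDegree w'.natDegree →
      (f * g).coeff (max u.natDegree w.natDegree + max u'.natDegree w'.natDegree) =
        f.coeff (max u.natDegree w.natDegree) * g.coeff (max u'.natDegree w'.natDegree) :=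
    fun a b => coeff_mul_add_eq_of_natDegree_le a b
  by_contra H
  have a0 := mt (fin (e e0) d0) H
  have a1 := mt (fin (e e1) d1) H
  have a2 := mt (fin (e e2) d2) H
  rw [not_ne_iff] at a0 a1 a2
  rw [c (le_max_left _ _) (le_max_left _ _)] at a0
  rw [coeff_add, c (le_max_left _ _) (le_max_right _ _),
    c (le_max_right _ _) (le_max_left _ _)] at a1
  rw [c (le_max_right _ _) (le_max_right _ _)] at a2
  have t1 := top h
  have t2 := top h'
  grind

end Plg

open Plg Classical in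
theorem plg : PLGStmt := by
  intro n a b ha hb hab
  refine ⟨2 * (a.natDegree + b.natDegree) + 2 * n, fun P Q => ?_⟩
  have ha' : algebraMap _ (RatFunc ℚ) a ≠ 0 := RatFunc.algebraMap_ne_zero ha
  have hb' : algebraMap _ (RatFunc ℚ) b ≠ 0 := RatFunc.algebraMap_ne_zero hb
  have hd' : algebraMap _ (RatFunc ℚ) a - algebraMap _ _ b ≠ 0 := by
    rw [← map_sub]; exact RatFunc.algebraMap_ne_zero (sub_ne_zero.2 hab)
  have : (cK (algebraMap _ (RatFunc ℚ) a) (algebraMap _ _ b)).toAffine.IsElliptic := by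
    refine ⟨isUnit_iff_ne_zero.2 ?_⟩
    have e : (cK (algebraMap _ (RatFunc ℚ) a) (algebraMap _ _ b)).Δ = 16 *
        (algebraMap _ (RatFunc ℚ) a * algebraMap _ _ b *
          (algebraMap _ (RatFunc ℚ) a - algebraMap _ _ b)) ^ 2 := by
      simp only [cK, Δ, b₂, b₄, b₆, b₈]; ring
    exact e ▸ mul_ne_zero (by norm_num) (pow_ne_zero _ (mul_ne_zero (mul_ne_zero ha' hb') hd'))
  obtain ⟨k, hk, e⟩ := addSub P Q
  obtain ⟨u1, w1, c1, -, hc1, x1, y1, l1, -⟩ := rep n P
  obtain ⟨u2, w2, c2, -, hc2, x2, y2, l2, -⟩ := rep n Q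
  obtain ⟨u3, w3, c3, h3, hc3, x3, y3, -, l3⟩ := rep n (P + Q)
  obtain ⟨u4, w4, c4, h4, hc4, x4, y4, -, l4⟩ := rep n (P - Q)
  simp only [Affine.Point.sym2x, x1, x2, x3, x4, y1, y2, y3, y4] at e
  have e0 := congrFun e 0
  have e1 := congrFun e 1
  have e2 := congrFun e 2
  simp [addSubMap, cK, b₂, b₄, b₆, b₈] at e0 e1 e2
  obtain ⟨s, hs⟩ : ∃ s, s = u1 * u2 := ⟨_, rfl⟩
  obtain ⟨t, ht⟩ : ∃ t, t = u1 * w2 + w1 * u2 := ⟨_, rfl⟩
  obtain ⟨v, hv⟩ : ∃ v, v = w1 * w2 := ⟨_, rfl⟩
  obtain ⟨D, hD⟩ : ∃ D, D = HP n P + HP n Q := ⟨_, rfl⟩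
  have m : ∀ f g : ℚ[X], f.natDegree ≤ HP n P → g.natDegree ≤ HP n Q → (f * g).natDegree ≤ D :=
    fun f g hf hg => natDegree_mul_le.trans (by omega)
  have ds : s.natDegree ≤ D := hs ▸ m _ _ (by omega) (by omega)
  have dt : t.natDegree ≤ D := ht ▸ (natDegree_add_le _ _).trans
    (max_le (m _ _ (by omega) (by omega)) (m _ _ (by omega) (by omega)))
  have dv : v.natDegree ≤ D := hv ▸ m _ _ (by omega) (by omega)
  have key := deg (F0 := (s - a * b * v) ^ 2)
    (F1 := 2 * t * s - 4 * (a + b) * s * v + 2 * (a * b) * t * v)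
    (F2 := t ^ 2 - 4 * s * v) (l := k * c3 * c4 / (c1 * c2) ^ 2)
    (D := 2 * D + 2 * (a.natDegree + b.natDegree)) h3 h4
    (div_ne_zero (mul_ne_zero (mul_ne_zero hk hc3) hc4) (pow_ne_zero _ (mul_ne_zero hc1 hc2)))
    (by
      rw [div_mul_eq_mul_div, eq_div_iff (pow_ne_zero _ (mul_ne_zero hc1 hc2))]
      simp only [hs, hv, map_pow, map_sub, map_mul]
      linear_combination e0)
    (by
      rw [div_mul_eq_mul_div, eq_div_iff (pow_ne_zero _ (mul_ne_zero hc1 hc2))]
      simp only [hs, ht, hv, map_sub, map_mul, map_add, map_ofNat]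
      linear_combination e1)
    (by
      rw [div_mul_eq_mul_div, eq_div_iff (pow_ne_zero _ (mul_ne_zero hc1 hc2))]
      simp only [hs, ht, hv, map_pow, map_sub, map_mul, map_add, map_ofNat]
      linear_combination e2)
    (by compute_degree; omega) (by compute_degree; omega) (by compute_degree; omega)
  omega

end Pool.Agent.MP_a43263_nt.RH

end
end MrgPart2

-- ======== part 3: formerly Pool.Agent.MP_a43263_nt.RH.GenHgt
section MrgPart3

/-! PROJECT RANKG, block GEN: the canonical height. -/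

set_option autoImplicit false

noncomputable section

namespace Pool.Agent.MP_a43263_nt.RH

open Polynomial WeierstrassCurve.Affine

namespace Hgt

/-- an approximate inequality and exact duplication give the parallelogram law -/
theorem exact {G : Type} [AddCommGroup G] (h : G → ℕ) (C : ℕ) (h2 : ∀ x, h (x + x) = 4 * h x)
    (hC : ∀ x y, h (x + y) + h (x - y) ≤ 2 * h x + 2 * h y + C) (x y : G) :
    h (x + y) + h (x - y) = 2 * h x + 2 * h y := by
  have h1 : ∀ k : ℕ, ∀ x y, 4 ^ k * (h (x + y) + h (x - y)) ≤ 4 ^ k * (2 * h x + 2 * h y) + C := by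
    intro k
    induction k with
    | zero => simpa using hC
    | succ k ih =>
      intro x y
      have := ih (x + x) (y + y)
      rw [show x + x + (y + y) = x + y + (x + y) by abel,
        show x + x - (y + y) = x - y + (x - y) by abel, h2, h2, h2, h2] at this
      calc _ = 4 ^ k * (4 * h (x + y) + 4 * h (x - y)) := by ring
        _ ≤ _ := this
        _ = _ := by ring
  have h3 : ∀ x y, h (x + y) + h (x - y) ≤ 2 * h x + 2 * h y := fun x y => by
    by_contra hlt
    have h4 := Nat.mul_le_mul_left (4 ^ C) (Nat.succ_le_of_lt (not_le.1 hlt))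
    have h5 := h1 C x y
    have h6 : C < 4 ^ C := Nat.lt_pow_self (by norm_num)
    rw [Nat.mul_succ] at h4
    omega
  have h4 := h3 (x + y) (x - y)
  rw [show x + y + (x - y) = x + x by abel, show x + y - (x - y) = y + y by abel, h2, h2] at h4
  have := h3 x y
  omega

section
variable {K : Type} [Field K] [CharZero K] [DecidableEq K] {a b x y : K}

omit [CharZero K] [DecidableEq K] in
theorem eqn (h : (cK a b).toAffine.Nonsingular x y) : y ^ 2 = x * (x - a) * (x - b) := by
  have := (equation_iff _ _).1 h.1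
  simp only [cK] at this
  linear_combination this

omit [CharZero K] [DecidableEq K] in
theorem negY_eq (x y : K) : (cK a b).toAffine.negY x y = -y := by simp [cK, negY]

theorem dbl (h : (cK a b).toAffine.Nonsingular x y) (hy : y ≠ 0) :
    ∃ y' h', Point.some x y h + Point.some x y h =
      Point.some ((x ^ 2 - a * b) ^ 2 / (4 * y ^ 2)) y' h' := by
  have h1 : y ≠ (cK a b).toAffine.negY x y := by
    rw [negY_eq]
    exact fun e => hy (by linear_combination e / 2)
  have e : (cK a b).toAffine.addX x x ((cK a b).toAffine.slope x x y y) =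
      (x ^ 2 - a * b) ^ 2 / (4 * y ^ 2) := by
    rw [slope_of_Y_ne rfl h1, negY_eq]
    simp only [addX, cK]
    have h2 : y - -y = 2 * y := by ring
    rw [h2]
    field_simp
    linear_combination 16 * (a + b - 2 * x) * eqn h
  rw [← e]
  exact ⟨_, _, Point.add_self_of_Y_ne h1⟩

theorem two_sq (R : (cK a b).toAffine.Point) : R + R = 0 ∨ ∃ x y h, R + R = Point.some x y h ∧
    IsSquare x ∧ IsSquare (x - a) ∧ IsSquare (x - b) := by
  rcases R with _ | ⟨x, y, h⟩
  · exact .inl (add_zero _)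
  · by_cases hy : y = 0
    · exact .inl (Point.add_self_of_Y_eq (by rw [negY_eq, hy, neg_zero]))
    · obtain ⟨y', h', e⟩ := dbl h hy
      refine .inr ⟨_, y', h', e, ⟨(x ^ 2 - a * b) / (2 * y), ?_⟩,
        ⟨(x ^ 2 - 2 * a * x + a * b) / (2 * y), ?_⟩, ⟨(x ^ 2 - 2 * b * x + a * b) / (2 * y), ?_⟩⟩
      · field_simp
        ring
      · field_simp
        linear_combination (-16 * a) * eqn h
      · field_simp
        linear_combination (-16 * b) * eqn h

end

theorem not_sq {c : ℚ[X]} (hc : Squarefree c) (hd : 1 ≤ c.natDegree) :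
    ¬IsSquare (algebraMap ℚ[X] (RatFunc ℚ) c) := by
  rintro ⟨z, hz⟩
  obtain ⟨w, rfl⟩ := IsIntegrallyClosed.exists_algebraMap_eq_of_isIntegral_pow (R := ℚ[X])
    (x := z) two_pos (by rw [sq, ← hz]; exact isIntegral_algebraMap)
  rw [← map_mul] at hz
  obtain rfl := IsFractionRing.injective ℚ[X] (RatFunc ℚ) hz
  have hw := hc w dvd_rfl
  have := natDegree_eq_zero_of_isUnit (hw.mul hw)
  omega

end Hgt

open Hgt

open Classical in
theorem hgt (dup : DUPStmt) (plg : PLGStmt) : HGTStmt := by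
  intro n a b hP
  have hn : 2 ≤ n := by
    obtain ⟨m, hm⟩ := hP.ev
    have := hP.pos
    omega
  have ha : 1 ≤ a.natDegree := by have := hP.da.1; omega
  have hb : 1 ≤ b.natDegree := by have := hP.db.1; omega
  obtain ⟨C, hC⟩ := plg n a b hP.sa.ne_zero hP.sb.ne_zero (sub_ne_zero.1 hP.sd.ne_zero)
  refine ⟨fun P => HP n (P + P), fun P Q => ?_, fun P h0 => ?_⟩
  · beta_reduce
    refine Int.natCast_inj.2 (Hgt.exact (fun P => HP n (P + P)) C (fun R => ?_) (fun R S => ?_) P Q)
    · rcases two_sq R with e | ⟨x, y, h, e, s0, s1, s2⟩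
      · simp only [e, add_zero]
        rfl
      · have hy : y ≠ 0 := by
          rintro rfl
          have h1 := eqn h
          rw [zero_pow two_ne_zero] at h1
          rcases mul_eq_zero.1 h1.symm with h1 | h1
          · rcases mul_eq_zero.1 h1 with rfl | h1
            · rw [zero_sub, ← map_neg] at s1
              exact not_sq (hP.sa.squarefree_of_dvd (neg_dvd.2 dvd_rfl)) (by simpa using ha) s1
            · exact not_sq hP.sa ha (sub_eq_zero.1 h1 ▸ s0)
          · exact not_sq hP.sb hb (sub_eq_zero.1 h1 ▸ s0)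
        obtain ⟨y', h', e'⟩ := dbl h hy
        simp only [e, e']
        exact dup n a b hP x y (eqn h) hy s0 s1 s2
    · have := hC (R + R) (S + S)
      rwa [show R + R + (S + S) = R + S + (R + S) by abel,
        show R + R - (S + S) = R - S + (R - S) by abel] at this
  · rw [two_nsmul]
    have h1 : HP n (P + P) = 0 := Int.natCast_eq_zero.1 h0
    generalize P + P = R at h1
    rcases R with _ | ⟨x, y, h⟩
    · rfl
    · have : n ≤ Hx n x := (Nat.le_add_left _ _).trans (le_max_right _ _)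
      change Hx n x = 0 at h1
      omega

end Pool.Agent.MP_a43263_nt.RH

end
end MrgPart3

-- ======== part 4: formerly Pool.Agent.MP_a43263_nt.RH.GenTop
section MrgPart4

/-! PROJECT RANKG, block GEN: the rank of the generic fibre from the number of classes. -/

set_option autoImplicit false

noncomputable section

namespace Pool.Agent.MP_a43263_nt.RH

open Finset Polynomial RG RG.Surf

theorem GenTop.sq_trans {K : Type} [Field K] {e d d' : K} (hd : d ≠ 0) (h : IsSquare (e * d))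
    (h' : IsSquare (d * d')) : IsSquare (e * d') := by
  have := (h.mul h').div (IsSquare.mul_self d)
  rwa [show e * d * (d * d') / (d * d) = e * d' by field_simp] at this

theorem gen : LATStmt → HGTStmt → RKKStmt → POLYStmt → RESStmt → INJStmt → GENStmt := by
  classical
  intro lat hgt rkk poly res inj n F hF
  have h0 : Hyp0 F := ⟨hF.ev, hF.pos, hF.c0, hF.ne, hF.sum⟩
  obtain ⟨a, b, hab, ea, eb⟩ := poly n F h0
  have hq := hgt n a b hab
  rw [← ea, ← eb] at hq
  obtain ⟨q, q1, q2⟩ := hq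
  have hi : Function.Injective (algebraMap ℚ[X] (RatFunc ℚ)) := RatFunc.algebraMap_injective ℚ
  have ha : F.D 1 gp ≠ 0 := ea ▸ (map_ne_zero_iff _ hi).2 hab.sa.ne_zero
  have hb : F.D 2 gp ≠ 0 := eb ▸ (map_ne_zero_iff _ hi).2 hab.sb.ne_zero
  have hd : F.D 1 gp ≠ F.D 2 gp := by
    rw [ea, eb]
    exact hi.ne (sub_ne_zero.1 hab.sd.ne_zero)
  choose! U hU using fun (y : Finset (Fin 3 × Fin n)) (h : ∃ u, F.InS u y) => h
  set I : Finset (Finset (Fin 3 × Fin n)) := univ.filter fun y => ∃ u, F.InS u y with hI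
  have hm : ∀ y ∈ I, F.InS (U y) y := fun y hy => hU y (mem_filter.1 hy).2
  have h1 : ∀ e₂ e₃ : RatFunc ℚ, e₂ ≠ 0 → e₃ ≠ 0 → Cover (F.D 1 gp) (F.D 2 gp) e₂ e₃ →
      ∃ y ∈ I, IsSquare (e₂ * F.del (U y) y 2 gp) ∧ IsSquare (e₃ * F.del (U y) y 1 gp) := by
    intro e₂ e₃ h₂ h₃ h
    obtain ⟨u, y, hy, s₂, s₃⟩ := res n F h0 e₂ e₃ h₂ h₃ h
    obtain ⟨k1, k2⟩ := inj n F h0 u y _ y hy (hU y ⟨u, hy⟩)
    exact ⟨y, mem_filter.2 ⟨mem_univ _, u, hy⟩, GenTop.sq_trans (k1 2) s₂ (k2.2 rfl).1,
      GenTop.sq_trans (k1 1) s₃ (k2.2 rfl).2⟩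
  obtain ⟨r1, r2⟩ := rkk (RatFunc ℚ) _ _ _ I (fun y => F.del (U y) y 2 gp)
    (fun y => F.del (U y) y 1 gp) ha hb hd
    (fun y hy => ⟨(inj n F h0 _ y _ y (hm y hy) (hm y hy)).1 2,
      (inj n F h0 _ y _ y (hm y hy) (hm y hy)).1 1, hF.sol _ y (hm y hy)⟩)
    (fun y hy y' hy' s₂ s₃ => (inj n F h0 _ y _ y' (hm y hy) (hm y' hy')).2.1 ⟨s₂, s₃⟩) h1
  obtain ⟨y₀, hy₀, -⟩ := h1 1 1 one_ne_zero one_ne_zero ⟨1, 1, 1, 0, by simp, by simp, by simp⟩
  obtain ⟨r, h2, h3⟩ := Two.index_two (lat _ q q1 q2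
    (Nat.finite_of_card_ne_zero (by rw [r2]; norm_num))
    ⟨by rw [r1]; exact card_ne_zero_of_mem hy₀⟩)
  refine ⟨r, h2, ?_⟩
  rw [pow_add, ← r2, ← h3, r1, ← Set.ncard_coe_finset, hI, coe_filter]
  simp

end Pool.Agent.MP_a43263_nt.RH

end
end MrgPart4

-- ======== part 5: formerly Pool.Agent.MP_a43263_nt.RH.GenAll
section MrgPart5

/-! PROJECT RANKG, block GEN: assembly. -/

namespace Pool.Agent.MP_a43263_nt.RH

theorem genAll : GENStmt := gen_of lat dup plg hgt rkk poly res inj gen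

end Pool.Agent.MP_a43263_nt.RH

end MrgPart5

-- marker of a merged file
example : 731051 + 582963 = 731051 + 582963 := rfl
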