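import Pool.Agent.MP_a43263_nt.RH.Spec
import Pool.Agent.MP_a43263_nt.RG.Base

/-! PROJECT RANKG, THEOREM G, row BASE2: base points of both parities near a fixed fibre. -/

set_option autoImplicit false

namespace Pool.Agent.MP_a43263_nt.RH

open Finset RG RG.Bas

namespace Bas2

theorem pos {n r : ℕ} {F : Surf n} (h : Hyp2 F r) : 0 < n := by
  rcases n with _ | n
  · have k := Set.ncard_le_card {y | ∃ u, F.InS u y}
    rw [h.card, Nat.card_unique] at k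
    have := Nat.one_lt_two_pow (n := r + 2) (by omega)
    omega
  · omega

theorem cop {N : ℕ} {y z : ℤ} (h : Gd N z) (hy : (N : ℤ) ∣ y - 1) : IsCoprime y z := by
  rw [Int.isCoprime_iff_gcd_eq_one, Int.gcd]
  refine Nat.coprime_of_dvd fun p hp a b => hp.ne_one (Nat.dvd_one.1 (Int.natCast_dvd_natCast.1 ?_))
  exact (dvd_sub_right (Int.natCast_dvd.2 a)).1
    ((Int.natCast_dvd_natCast.2 (h.2 p hp (Int.natCast_dvd.2 b))).trans hy)

end Bas2

theorem base (pty : PTY2Stmt) : BASE2Stmt := by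
  classical
  intro n r F hF
  have n0 := Bas2.pos hF
  have res : ∀ j k, j ≠ k → F.LZ j (F.rootZ k) ≠ 0 := fun j k h => by
    have := hF.ne j k h
    rw [Surf.L_root] at this
    exact_mod_cast this
  obtain ⟨x, hx⟩ := Infinite.exists_notMem_finset (univ.image fun j => -F.B j / F.A j)
  obtain ⟨μ, hμ⟩ : ∃ μ : Ix n → ℤ, ∀ j, μ j = F.A j * x + F.B j := ⟨_, fun _ => rfl⟩
  have μ0 : ∀ j, μ j ≠ 0 := fun j e => by
    rw [hμ] at e
    by_cases h : F.A j = 0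
    · refine res (j.1 + 1, j.2) j (fun t => ?_) ?_
      · simpa using congrArg Prod.fst t
      · rw [h, zero_mul, zero_add] at e
        simp [Surf.LZ, Surf.rootZ, h, e]
    · exact hx (mem_image.2 ⟨j, mem_univ _, Int.ediv_eq_of_eq_mul_right h (by linarith)⟩)
  have hb : ∀ i, (bv F μ i : ℚ) = F.D i ((x : ℚ), ((1 : ℤ) : ℚ)) := fun i => by
    rw [F.D_cast i (x, 1)]
    simp only [bv, Surf.DZ, Surf.LZ, hμ, mul_one]
  obtain ⟨c, hc⟩ : ∃ c : Ix n → ℤ, ∀ j, c j = F.A j * μ j * (∏ k ∈ univ.erase j, μ k) ^ 2 :=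
    ⟨_, fun _ => rfl⟩
  obtain ⟨P, hP⟩ : ∃ P : ℤ, P = ∏ k, μ k := ⟨_, rfl⟩
  have cP : ∀ j, μ j * c j = F.A j * P ^ 2 := fun j => by
    rw [hc, hP, ← mul_prod_erase univ μ (mem_univ j)]; ring
  obtain ⟨j0, -, hj⟩ := exists_min_image univ c ⟨(0, ⟨0, n0⟩), mem_univ _⟩
  obtain ⟨P₁, hp⟩ := pty {j // j ≠ j0}
  obtain ⟨Z, hZ⟩ : ∃ Z : ℤ, Z = 2 * P₁.factorial * (∏ i, F.c i) *
    (∏ j, ∏ k ∈ univ.erase j, F.LZ j (F.rootZ k)) * P * bv F μ 0 ^ 2 := ⟨_, rfl⟩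
  have N0 : 0 < Z.natAbs := by
    rw [Int.natAbs_pos, hZ, hP]
    refine mul_ne_zero (mul_ne_zero (mul_ne_zero (mul_ne_zero (by positivity) ?_) ?_) ?_)
      (pow_ne_zero 2 (mul_ne_zero (hF.c0 0) ?_)) <;> refine prod_ne_zero_iff.2 fun j _ => ?_
    exacts [hF.c0 j, prod_ne_zero_iff.2 fun k h => res _ _ (ne_of_mem_erase h).symm, μ0 _, μ0 _]
  have gd : ∀ z, z ∣ Z → Gd Z.natAbs z := fun z h => gd_of_dvd N0 (Int.natAbs_dvd_natAbs.2 h)
  have N2 : 2 ∣ Z.natAbs := Int.natCast_dvd.1 (hZ ▸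
    ((((dvd_mul_right _ _).mul_right _).mul_right _).mul_right _).mul_right _)
  have NP : ∀ p : ℕ, p.Prime → p ≤ P₁ → p ∣ Z.natAbs := fun p hp h => Int.natCast_dvd.1 (hZ ▸
    (((((Int.natCast_dvd_natCast.2 (Nat.dvd_factorial hp.pos h)).mul_left 2).mul_right
      _).mul_right _).mul_right _).mul_right _)
  have gc : ∀ i, Gd Z.natAbs (F.c i) := fun i => gd _ (hZ ▸
    ((((dvd_prod_of_mem F.c (mem_univ i)).mul_left _).mul_right _).mul_right _).mul_right _)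
  have gr : ∀ j k, j ≠ k → Gd Z.natAbs (F.LZ j (F.rootZ k)) := fun j k h => gd _ (hZ ▸
    ((((dvd_prod_of_mem (fun k => F.LZ j (F.rootZ k)) (mem_erase.2 ⟨h.symm, mem_univ k⟩)).trans
      (dvd_prod_of_mem (fun j => ∏ k ∈ univ.erase j, F.LZ j (F.rootZ k))
        (mem_univ j))).mul_left _).mul_right _).mul_right _)
  have gP : Gd Z.natAbs P := gd _ (hZ ▸ (dvd_mul_left _ _).mul_right _)
  have sq : bv F μ 0 ^ 2 ∣ Z.natAbs := Int.dvd_natAbs.2 (hZ ▸ dvd_mul_left _ _)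
  generalize Z.natAbs = N at N0 N2 NP gc gr gP sq
  have pre : Pre F N μ := ⟨N0, N2, gc, gr,
    fun j => gP.of_dvd (hP ▸ dvd_prod_of_mem μ (mem_univ j)), by
      have := hF.sum ((x : ℚ), ((1 : ℤ) : ℚ))
      rw [← hb, ← hb, ← hb] at this
      exact_mod_cast this, sq⟩
  have gQ := gd_Q N0 N2
  set Q : ℕ := 128 * N with hQ
  have NQ : (N : ℤ) ∣ Q := Int.natCast_dvd_natCast.2 (dvd_mul_left _ _)
  obtain ⟨κ, hκ⟩ : ∃ κ : Ix n → ℕ, ∀ j, (κ j : ℤ) = Q * (c j - c j0) :=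
    ⟨fun j => Q * (c j - c j0).toNat, fun j => by
      rw [Nat.cast_mul, Int.toNat_of_nonneg (sub_nonneg.2 (hj j (mem_univ j)))]⟩
  have κ0 : κ j0 = 0 := by simpa using hκ j0
  have Qκ : ∀ j, (Q : ℤ) ∣ κ j := fun j => hκ j ▸ dvd_mul_right _ _
  have gκ : ∀ i j, i ≠ j → Gd N ((κ i : ℤ) - κ j) := fun i j h => by
    have e : μ i * μ j * (c i - c j) = P * P * F.LZ i (F.rootZ j) := by
      have a := hμ i
      have b := hμ j
      simp only [Surf.LZ, Surf.rootZ]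
      linear_combination μ j * cP i - μ i * cP j + P ^ 2 * F.A i * b - P ^ 2 * F.A j * a
    rw [hκ, hκ, ← mul_sub, sub_sub_sub_cancel_right]
    exact gQ.mul (((gP.mul gP).mul (gr i j h)).of_dvd (e ▸ dvd_mul_left _ _))
  refine ⟨N, μ, pre, fun ε => ?_⟩
  obtain ⟨s, t, ht, st, sqt, sqa, par⟩ := hp (fun j => κ j.1) Q ε (by positivity)
    (fun p hp h => (NP p hp h).mul_left 128)
    (fun j => by
      have := gκ j.1 j0 j.2
      rw [κ0, Nat.cast_zero, sub_zero] at this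
      exact ⟨Nat.pos_of_ne_zero (Nat.cast_ne_zero.1 this.1), Int.natCast_dvd_natCast.1 (Qκ _),
        fun p hp d => (this.2 p hp (Int.natCast_dvd_natCast.2 d)).mul_left _⟩)
    fun i j h => by
      have := gκ i.1 j.1 fun e => h (Subtype.ext e)
      exact ⟨fun e => this.1 (by rw [e, sub_self]), fun p hp d => (this.2 p hp d).mul_left _⟩
  have t1 : (Q : ℤ) ∣ t - 1 := ht.symm.dvd
  have cs : IsCoprime (s : ℤ) t := Nat.isCoprime_iff_coprime.2 st
  have sA : ∀ j, Squarefree (t + κ j * s) := fun j => by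
    by_cases h : j = j0
    · rwa [h, κ0, zero_mul, add_zero]
    · exact sqa ⟨j, h⟩
  have a1 : ∀ j, (Q : ℤ) ∣ (t + κ j * s : ℕ) - 1 := fun j => by
    rw [Nat.cast_add, Nat.cast_mul (κ j), add_sub_right_comm]
    exact dvd_add t1 ((Qκ j).mul_right _)
  have ea : ∀ j, ((t + κ j * s : ℕ) : ℤ) * ∏ k ∈ univ.erase j, ((t + κ k * s : ℕ) : ℤ) =
      ∏ k, ((t + κ k * s : ℕ) : ℤ) := fun j =>
    mul_prod_erase univ (fun k => ((t + κ k * s : ℕ) : ℤ)) (mem_univ j)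
  have Λ0 : ∏ k, ((t + κ k * s : ℕ) : ℤ) ≠ 0 :=
    prod_ne_zero_iff.2 fun k _ => Nat.cast_ne_zero.2 (sA k).ne_zero
  generalize hΛ : ∏ k, ((t + κ k * s : ℕ) : ℤ) = Λ at ea Λ0
  refine ⟨⟨N, 0, 0, (s * (Q * P ^ 2) + (t - s * (Q * c j0)) * x, t - s * (Q * c j0)),
    (Λ * (Q * P ^ 2 - Q * c j0 * x), -(Λ * (Q * c j0))), μ,
    fun j => κ j * ∏ k ∈ univ.erase j, ((t + κ k * s : ℕ) : ℤ), fun j => t + κ j * s⟩, rfl, rfl,
    ⟨pre, fun j => ?_, fun j => ?_, ?_, fun j k h e => ?_, sA, fun j k h => ?_, fun j => ?_⟩, ?_⟩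
  · have a := hμ j
    simp only [Surf.LZ, Nat.cast_add, Nat.cast_mul, hκ]
    linear_combination (s * Q * c j0 - t : ℤ) * a - (s * Q : ℤ) * cP j
  · have a := hμ j
    simp only [Surf.LZ]
    rw [mul_assoc (μ j), mul_left_comm _ (κ j : ℤ), ea, hκ]
    linear_combination (Λ * Q * c j0 : ℤ) * a - (Λ * Q : ℤ) * cP j
  · refine IsCoprime.add_mul_left_left (IsCoprime.mul_left ?_ (Bas2.cop (N := N) ?_ ?_).symm) _
    · rw [sub_eq_add_neg, ← mul_neg]
      exact cs.add_mul_left_right _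
    · rw [pow_two]
      exact gQ.mul (gP.mul gP)
    · rw [sub_right_comm]
      exact NQ.trans (dvd_sub t1 ((dvd_mul_right _ _).mul_left _))
  · have a := ea j
    have b := ea k
    simp only at e
    have t0 : (t : ℤ) ≠ 0 := Nat.cast_ne_zero.2 sqt.ne_zero
    refine mul_ne_zero (mul_ne_zero Λ0 t0) (gκ j k h).1 ?_
    generalize ∏ k ∈ univ.erase j, ((t + κ k * s : ℕ) : ℤ) = u at a e
    generalize ∏ k ∈ univ.erase k, ((t + κ k * s : ℕ) : ℤ) = w at b e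
    push_cast at a b
    linear_combination ((t + κ j * s) * (t + κ k * s) : ℤ) * e - (κ j * (t + κ k * s) : ℤ) * a +
      (κ k * (t + κ j * s) : ℤ) * b
  · have a := (Bas2.cop (gκ k j h.symm) (NQ.trans (a1 j))).mul_right
      (show IsCoprime ((t + κ j * s : ℕ) : ℤ) s by
        push_cast
        exact cs.symm.add_mul_right_left _)
    refine Nat.isCoprime_iff_coprime.1 ?_
    have b := a.add_mul_left_right 1
    rwa [show ((κ k : ℤ) - κ j) * s + (t + κ j * s : ℕ) * 1 = (t + κ k * s : ℕ) by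
      push_cast; ring] at b
  · exact ((Nat.modEq_iff_dvd).2 (a1 j)).symm
  · rw [← par, Fintype.sum_eq_add_sum_subtype_ne _ j0]
    simp only [κ0, zero_mul, add_zero]

end Pool.Agent.MP_a43263_nt.RH
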