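import Pool.Agent.MP_a43263_nt.RH.Spec
import Pool.Agent.MP_a43263_nt.RG.Br

/-! PROJECT RANKG, THEOREM G: the point of an admissible tuple, and the hypotheses of the
descent. -/

set_option autoImplicit false

noncomputable section

namespace Pool.Agent.MP_a43263_nt.RH

open Finset
open R2 (Sgn chi Ker sg)
open RG RG.Br

namespace Br2

variable {n : ℕ} {F : Surf n} {B : Base n} {Fr : Frame} {M : ℕ}

theorem two {r : ℕ} (h : Hyp2 F r) : 2 ≤ n := by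
  obtain ⟨m, hm⟩ := h.ev
  rcases Nat.eq_zero_or_pos n with rfl | hn
  · have h1 := Set.ncard_le_ncard (Set.subset_univ {y | ∃ u, F.InS u y})
    rw [h.card, Set.ncard_univ, Nat.card_eq_fintype_card, Fintype.card_finset, card_Ix] at h1
    have h2 : 1 < 2 ^ (r + 2) := Nat.one_lt_two_pow (by omega)
    omega
  · omega

theorem sumZ {r : ℕ} (h : Hyp2 F r) (v : ℤ × ℤ) : F.DZ 0 v = F.DZ 1 v - F.DZ 2 v := by
  have := h.sum (v.1, v.2)
  rw [Surf.D_cast, Surf.D_cast, Surf.D_cast] at this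
  exact_mod_cast this

theorem adm {l : Ix n → ℕ} (hl : Adm (dat2 F B Fr M).D l) : Adm (B.dat F M) l :=
  ⟨hl.lin, hl.one, hl.cop, hl.sqf⟩

/-! ### smooth numbers -/

theorem sm_mul {N : ℕ} {x y : ℤ} (hx : Smooth N x) (hy : Smooth N y) : Smooth N (x * y) :=
  ⟨mul_ne_zero hx.1 hy.1, fun p hp hd =>
    ((Nat.prime_iff_prime_int.1 hp).dvd_or_dvd hd).elim (hx.2 p hp) (hy.2 p hp)⟩

theorem sm_one {N : ℕ} : Smooth N 1 :=
  ⟨one_ne_zero, fun _ hp hd => absurd (isUnit_of_dvd_one hd)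
    (Nat.prime_iff_prime_int.1 hp).not_isUnit⟩

theorem sm_neg {N : ℕ} {x : ℤ} (hx : Smooth N x) : Smooth N (-x) :=
  ⟨neg_ne_zero.2 hx.1, fun p hp hd => hx.2 p hp (dvd_neg.1 hd)⟩

theorem sm_prod {N : ℕ} {ι : Type} (s : Finset ι) {f : ι → ℤ} (h : ∀ i ∈ s, Smooth N (f i)) :
    Smooth N (∏ i ∈ s, f i) :=
  prod_induction _ (Smooth N) (fun _ _ => sm_mul) sm_one h

theorem sm_mono {N M : ℕ} {x : ℤ} (hx : Smooth N x) (h : N ∣ M) : Smooth M x :=
  ⟨hx.1, fun p hp hd => (hx.2 p hp hd).trans h⟩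

theorem sm_prime {p : ℕ} (hp : p.Prime) : Smooth p p :=
  ⟨by exact_mod_cast hp.ne_zero, fun _ _ hd => Int.natCast_dvd_natCast.1 hd⟩

theorem sm_Gp (gp : GPStmt) (c j : Fin 3) {p : ℕ} (hp : p.Prime) : Smooth p (Gp c p j) := by
  obtain ⟨h1, h2⟩ := gp.1 c j p
  by_cases h : j = c
  · subst h
    rcases h2 with e | e <;> rw [e]
    · exact sm_one
    · exact sm_neg sm_one
  · rcases h1 h with e | e <;> rw [e]
    · exact sm_prime hp
    · exact sm_neg (sm_prime hp)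

theorem sm_bv (hB : Ok2 F B) (i : Fin 3) : Smooth B.N (bv F B.μ i) :=
  sm_mul (hB.pre.sc i) (sm_prod _ fun k _ => hB.pre.sm (i, k))

theorem sq_cancel {x y : ℤ} (h0 : x ≠ 0) (hx : IsSquare x) (h : IsSquare (x * y)) :
    IsSquare y := by
  obtain ⟨s, rfl⟩ := hx
  obtain ⟨t, ht⟩ := h
  have hs : s ≠ 0 := left_ne_zero_of_mul h0
  obtain ⟨u, rfl⟩ : s ∣ t := (Int.pow_dvd_pow_iff two_ne_zero).1 ⟨y, by linear_combination -ht⟩
  exact ⟨u, mul_left_cancel₀ h0 (by linear_combination ht)⟩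

/-! ### the values of the forms -/

theorem cop_al (hB : Ok2 F B) (hM : B.Fits M) {l : Ix n → ℕ} (hl : Adm (B.dat F M) l)
    {j k : Ix n} (hjk : j ≠ k) : (B.a j * l j).Coprime (B.a k * l k) := by
  have h1 : ∀ j k, (B.a j).Coprime (l k) := fun j k =>
    ((hl.coprime_M k).coprime_dvd_right (hM.aM j)).symm
  exact Nat.Coprime.mul_left ((hB.cop j k hjk).mul_right (h1 j k))
    ((h1 k j).symm.mul_right (hl.cop j k hjk))

theorem al_one (h : 2 ≤ n) (hB : Ok2 F B) (hM : B.Fits M) {l : Ix n → ℕ}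
    (hl : Adm (B.dat F M) l) (j : Ix n) : B.a j * l j ≡ 1 [MOD 128 * B.N] := by
  simpa using (hB.one j).mul (l_one h hM hl j)

/-! ### the fixed generators -/

theorem mem_V1 {x : Gen n} :
    x ∈ V1 B ↔ ∃ j : Ix n, ∃ p ∈ (B.a j).primeFactors, x = ((j.1, none), p) := by
  simp only [V1, mem_image, mem_biUnion, mem_univ, true_and, eq_comm]

theorem mem_V0 {x : Gen n} : x ∈ Fr.V0 n ↔ ∃ i < Fr.k, x = ((0, none), 2 * i) := by
  simp only [Frame.V0, mem_image, mem_range, eq_comm]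

theorem G_even (j : Fin 3) (t : Tag n) (i : ℕ) :
    Fr.G j (t, 2 * i) = ![Fr.G2 i * Fr.G1 i, Fr.G1 i, Fr.G2 i] j := by
  simp [Frame.G]

theorem G_odd (j : Fin 3) {a : Gen n} (h : ¬2 ∣ a.2) : Fr.G j a = Gp a.1.1 a.2 j :=
  if_neg fun e => h (Nat.dvd_of_mod_eq_zero e)

theorem a_notN (hB : Ok2 F B) {j : Ix n} {p : ℕ} (hp : p ∈ (B.a j).primeFactors) : ¬p ∣ B.N :=
  not_dvd_of_cop (Nat.prime_of_mem_primeFactors hp) (cop_of_one (hB.one j))
    (Nat.dvd_of_mem_primeFactors hp)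

theorem odd_of {N p : ℕ} (hp : p.Prime) (h2 : 2 ∣ N) (h : ¬p ∣ N) : ¬2 ∣ p := fun e =>
  h ((Nat.prime_dvd_prime_iff_eq Nat.prime_two hp).1 e ▸ h2)

theorem dist_V1 (hB : Ok2 F B) : RG.Dist (V1 B) := by
  intro a ha b hb e
  obtain ⟨j, p, hp, rfl⟩ := mem_V1.1 ha
  obtain ⟨k, q, hq, rfl⟩ := mem_V1.1 hb
  obtain rfl : p = q := e
  by_cases hjk : j = k
  · rw [hjk]
  · exact absurd (Nat.dvd_of_mem_primeFactors hq) (not_dvd_of_cop
      (Nat.prime_of_mem_primeFactors hp) (hB.cop j k hjk) (Nat.dvd_of_mem_primeFactors hp))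

theorem prod_V1 (hB : Ok2 F B) {R : Type} [CommMonoid R] (φ : Gen n → R) :
    ∏ x ∈ V1 B, φ x = ∏ j : Ix n, ∏ p ∈ (B.a j).primeFactors, φ ((j.1, none), p) := by
  rw [V1, prod_biUnion]
  · exact prod_congr rfl fun j _ => prod_image fun _ _ _ _ e => (Prod.mk.inj e).2
  · intro j _ k _ hjk
    simp only [Function.onFun, disjoint_left, mem_image]
    rintro _ ⟨p, hp, rfl⟩ ⟨q, hq, e⟩
    obtain rfl : q = p := (Prod.mk.inj e).2
    exact not_dvd_of_cop (Nat.prime_of_mem_primeFactors hp) (hB.cop j k hjk)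
      (Nat.dvd_of_mem_primeFactors hp) (Nat.dvd_of_mem_primeFactors hq)

theorem disj (l : Ix n → ℕ) : Disjoint (V1 B) (gens l) := by
  rw [disjoint_left]
  intro a ha hb
  obtain ⟨j, p, -, rfl⟩ := mem_V1.1 ha
  obtain ⟨k, e, -⟩ := mem_gens.1 hb
  exact tg_ne_none k (congrArg Prod.snd e).symm

theorem prod_VV (hB : Ok2 F B) (l : Ix n → ℕ) {R : Type} [CommMonoid R] (φ : Gen n → R) :
    ∏ x ∈ V1 B ∪ gens l, φ x =
      (∏ j : Ix n, ∏ p ∈ (B.a j).primeFactors, φ ((j.1, none), p)) *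
        ∏ j : Ix n, ∏ p ∈ (l j).primeFactors, φ (tg j, p) := by
  rw [prod_union (disj l), prod_V1 hB, prod_gens]

/-- products over the generators of one class -/
theorem prod_cls (hB : Ok2 F B) (l : Ix n → ℕ) (i : Fin 3) {R : Type} [CommMonoid R]
    (φ : Gen n → R) : ∏ x ∈ (V1 B ∪ gens l).filter (fun x => x.1.1 = i), φ x =
      ∏ k, (∏ p ∈ (B.a (i, k)).primeFactors, φ ((i, none), p)) *
        ∏ p ∈ (l (i, k)).primeFactors, φ (tg (i, k), p) := by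
  have h1 : ∀ (c : Ix n → ℕ) (t : Ix n → Tag n), (∀ j, (t j).1 = j.1) →
      ∏ j : Ix n, ∏ p ∈ (c j).primeFactors, (if (t j, p).1.1 = i then φ (t j, p) else 1) =
      ∏ k, ∏ p ∈ (c (i, k)).primeFactors, φ (t (i, k), p) := by
    intro c t ht
    rw [Fintype.prod_prod_type, prod_eq_single i]
    · exact prod_congr rfl fun k _ => prod_congr rfl fun p _ => if_pos (ht _)
    · intro i' _ hi
      exact prod_eq_one fun k _ => prod_eq_one fun p _ => if_neg fun h => hi ((ht _).symm.trans h)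
    · exact fun h => absurd (mem_univ i) h
  rw [prod_filter, prod_VV hB, h1 B.a (fun j => (j.1, none)) fun _ => rfl,
    h1 l tg fun _ => rfl, prod_mul_distrib]

/-! ### the diagonal -/

/-- the class whose value gives the diagonal -/
def oc (c : Fin 3) : Fin 3 := ![1, 2, 1] c

theorem oc_ne (c : Fin 3) : oc c ≠ c := by revert c; decide

theorem cZ_eq (j : Ix n) : cZ2 F j = -F.DZ (oc j.1) (F.rootZ j) := by
  obtain ⟨i, k⟩ := j
  fin_cases i <;> rfl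

theorem sm_cZ (hB : Ok2 F B) (j : Ix n) : Smooth B.N (cZ2 F j) := by
  rw [cZ_eq]
  exact sm_neg (sm_mul (hB.pre.sc _) (sm_prod _ fun k _ =>
    hB.pre.sr _ _ fun e => oc_ne j.1 (congrArg Prod.fst e)))

theorem dg_a (hB : Ok2 F B) {j : Ix n} {p : ℕ} (hp : p ∈ (B.a j).primeFactors) (i : Fin 3) :
    dg2 F B ((i, none), p) = jacobiSym (cZ2 F j) p := by
  have e : univ.filter (fun k => p ∣ B.a k) = {j} := by
    ext k
    simp only [mem_filter, mem_univ, true_and, mem_singleton]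
    refine ⟨fun h => ?_, fun h => h ▸ Nat.dvd_of_mem_primeFactors hp⟩
    by_contra hk
    exact not_dvd_of_cop (Nat.prime_of_mem_primeFactors hp) (hB.cop k j hk) h
      (Nat.dvd_of_mem_primeFactors hp)
  change ∏ k ∈ univ.filter (fun k => p ∣ B.a k), jacobiSym (cZ2 F k) p = _
  rw [e, prod_singleton]

/-- the diagonal symbol at a prime of `a j * l j` -/
theorem diag {r : ℕ} (hF : Hyp2 F r) (hB : Ok2 F B) (hM : B.Fits M) {l : Ix n → ℕ}
    (hl : Adm (B.dat F M) l) {v : ℤ × ℤ} (hv : ∀ j, F.LZ j v = B.μ j * B.a j * l j) (j : Ix n)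
    {p : ℕ} (hp : p.Prime) (hd : p ∣ B.a j * l j) :
    jacobiSym (cZ2 F j) p = jacobiSym (![-(bv F B.μ 1 * B.pr l 1), -(bv F B.μ 2 * B.pr l 2),
      -(bv F B.μ 1 * B.pr l 1)] j.1) p := by
  have hp' : Prime (p : ℤ) := Nat.prime_iff_prime_int.1 hp
  have hN : ¬p ∣ B.N := not_dvd_of_cop hp (cop_of_one (al_one (two hF) hB hM hl j)) hd
  have := nontriv (two hF)
  obtain ⟨k0, hk0⟩ := exists_ne j
  obtain ⟨m, hm⟩ := hF.ev
  have e2 : ![-(bv F B.μ 1 * B.pr l 1), -(bv F B.μ 2 * B.pr l 2), -(bv F B.μ 1 * B.pr l 1)] j.1 =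
      -F.DZ (oc j.1) v := by
    rw [DZ_eq hv]
    obtain ⟨i, k⟩ := j
    fin_cases i <;> rfl
  have hr : ¬(p : ℤ) ∣ F.LZ k0 (F.rootZ j) := fun h => hN ((hB.pre.sr _ _ hk0).2 p hp h)
  have ht : ¬(p : ℤ) ∣ F.LZ k0 v := fun h => by
    rw [hv, mul_assoc] at h
    rcases hp'.dvd_or_dvd h with h | h
    · exact hN ((hB.pre.sm _).2 p hp h)
    · exact not_dvd_of_cop hp (cop_al hB hM hl hk0.symm) hd (by exact_mod_cast h)
  have hj : (p : ℤ) ∣ F.LZ j v := by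
    rw [hv, mul_assoc]
    exact Dvd.dvd.mul_left (by exact_mod_cast hd) _
  have hk : ∀ k : Ix n, F.LZ k0 v * F.LZ k (F.rootZ j) ≡ F.LZ k v * F.LZ k0 (F.rootZ j) [ZMOD p] :=
    fun k => (Int.modEq_iff_dvd.2 (by rw [F.cramer]; exact hj.mul_right _))
  have hP : ∏ k, F.LZ k0 v * F.LZ (oc j.1, k) (F.rootZ j) ≡
      ∏ k, F.LZ (oc j.1, k) v * F.LZ k0 (F.rootZ j) [ZMOD p] :=
    prod_modEq _ fun k _ => hk (oc j.1, k)
  rw [prod_mul_distrib, prod_mul_distrib, prod_const, prod_const, card_univ, Fintype.card_fin]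
    at hP
  rw [cZ_eq, e2]
  refine jac_congr hp (s := F.LZ k0 v ^ m) (t := F.LZ k0 (F.rootZ j) ^ m)
    (fun h => ht (hp'.dvd_of_dvd_pow h)) (fun h => hr (hp'.dvd_of_dvd_pow h)) ?_
  have h6 := hP.mul_left (-F.c (oc j.1))
  have h7 : ∀ x : ℤ, x ^ n = (x ^ m) ^ 2 := fun x => by rw [sq, ← pow_add, ← hm]
  rw [h7, h7] at h6
  convert h6 using 1
  · rw [Surf.DZ]; ring
  · rw [Surf.DZ]; ring

/-! ### the data of the analytic part -/

theorem sm_V0 {N : ℕ} {a b : ℤ} (hFr : Fr.Ok N a b) {x : Gen n} (hx : x ∈ Fr.V0 n) (j : Fin 3) :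
    Smooth N (Fr.G j x) := by
  obtain ⟨i, -, rfl⟩ := mem_V0.1 hx
  rw [G_even]
  fin_cases j
  · exact sm_mul (hFr.sm i).1 (hFr.sm i).2
  · exact (hFr.sm i).2
  · exact (hFr.sm i).1

theorem G_V1 (hB : Ok2 F B) {x : Gen n} (hx : x ∈ V1 B) (j : Fin 3) :
    x.2.Prime ∧ ¬x.2 ∣ B.N ∧ Fr.G j x = Gp x.1.1 x.2 j := by
  obtain ⟨k, p, hp, rfl⟩ := mem_V1.1 hx
  exact ⟨Nat.prime_of_mem_primeFactors hp, a_notN hB hp,
    G_odd j (odd_of (Nat.prime_of_mem_primeFactors hp) hB.pre.two (a_notN hB hp))⟩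

theorem not_sq (gp : GPStmt) (hB : Ok2 F B) {a b : ℤ} (hFr : Fr.Ok B.N a b)
    {U : Finset (Gen n)} (hU : U ⊆ Fr.V0 n ∪ V1 B) {x : Gen n} (hxU : x ∈ U) (hx : x ∈ V1 B)
    {j : Fin 3} (hj : j ≠ x.1.1) : ¬IsSquare (Gv Fr.G j U) := by
  obtain ⟨hp, hN, e⟩ := G_V1 (Fr := Fr) hB hx j
  have hp' : Prime (x.2 : ℤ) := Nat.prime_iff_prime_int.1 hp
  have h1 : ¬(x.2 : ℤ) ∣ ∏ y ∈ U.erase x, Fr.G j y := fun h => by
    obtain ⟨y, hy, hd⟩ := (hp'.dvd_finsetProd_iff _).1 h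
    rcases mem_union.1 (hU (mem_of_mem_erase hy)) with h0 | h0
    · exact hN ((sm_V0 hFr h0 j).2 _ hp hd)
    · obtain ⟨hq, -, e'⟩ := G_V1 (Fr := Fr) hB h0 j
      rw [e'] at hd
      exact ne_of_mem_erase hy (dist_V1 hB y h0 x hx
        ((Nat.prime_dvd_prime_iff_eq hp hq).1 ((sm_Gp gp _ _ hq).2 _ hp hd)).symm)
  rintro ⟨t, ht⟩
  rw [Gv, ← mul_prod_erase U _ hxU, e] at ht
  have h2 : ∃ s : ℤ, s * s = 1 ∧ Gp x.1.1 x.2 j = s * x.2 := by
    rcases (gp.1 x.1.1 j x.2).1 hj with e' | e'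
    · exact ⟨1, by norm_num, by rw [e', one_mul]⟩
    · exact ⟨-1, by norm_num, by rw [e', neg_one_mul]⟩
  obtain ⟨s, hs, e'⟩ := h2
  rw [e'] at ht
  have h3 : (x.2 : ℤ) ∣ t * t := ⟨s * ∏ y ∈ U.erase x, Fr.G j y, by linear_combination -ht⟩
  obtain ⟨u, rfl⟩ : (x.2 : ℤ) ∣ t := (hp'.dvd_or_dvd h3).elim id id
  refine h1 ⟨s * (u * u), mul_left_cancel₀ hp'.ne_zero ?_⟩
  linear_combination s * ht - (x.2 * ∏ y ∈ U.erase x, Fr.G j y) * hs

theorem ind (gp : GPStmt) (hB : Ok2 F B) {a b : ℤ} (hFr : Fr.Ok B.N a b)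
    {U : Finset (Gen n)} (hU : U ⊆ Fr.V0 n ∪ V1 B) {i j : Fin 3} (hij : i ≠ j)
    (hi : IsSquare (Gv Fr.G i U)) (hj : IsSquare (Gv Fr.G j U)) : U = ∅ := by
  have h0 : U ⊆ Fr.V0 n := fun x hx => (mem_union.1 (hU hx)).elim id fun h1 => by
    by_cases e : i = x.1.1
    · exact absurd hj (not_sq gp hB hFr hU hx h1 fun e' => hij (e.trans e'.symm))
    · exact absurd hi (not_sq gp hB hFr hU hx h1 e)
  obtain ⟨x, hx, rfl⟩ := subset_image_iff.1 h0
  have hG : ∀ c : Fin 3, Gv Fr.G c (x.image fun i => (((0, none), 2 * i) : Gen n)) =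
      ![(∏ t ∈ x, Fr.G2 t) * ∏ t ∈ x, Fr.G1 t, ∏ t ∈ x, Fr.G1 t, ∏ t ∈ x, Fr.G2 t] c := by
    intro c
    rw [Gv, prod_image fun s _ t _ e => by have := (Prod.mk.inj e).2; omega]
    simp only [G_even]
    fin_cases c
    · exact prod_mul_distrib
    · rfl
    · rfl
  have n2 : ∏ t ∈ x, Fr.G2 t ≠ 0 := prod_ne_zero_iff.2 fun t _ => (hFr.sm t).1.1
  have n1 : ∏ t ∈ x, Fr.G1 t ≠ 0 := prod_ne_zero_iff.2 fun t _ => (hFr.sm t).2.1
  rw [hG] at hi hj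
  have key : IsSquare (∏ t ∈ x, Fr.G2 t) ∧ IsSquare (∏ t ∈ x, Fr.G1 t) := by
    fin_cases i <;> fin_cases j
    · exact absurd rfl hij
    · exact ⟨sq_cancel n1 hj (mul_comm (∏ t ∈ x, Fr.G2 t) _ ▸ hi), hj⟩
    · exact ⟨hj, sq_cancel n2 hj hi⟩
    · exact ⟨sq_cancel n1 hi (mul_comm (∏ t ∈ x, Fr.G2 t) _ ▸ hj), hi⟩
    · exact absurd rfl hij
    · exact ⟨hj, hi⟩
    · exact ⟨hi, sq_cancel n2 hi hj⟩
    · exact ⟨hi, hj⟩
    · exact absurd rfl hij
  rw [hFr.ind x hx key.1 key.2, image_empty]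

theorem ok (gp : GPStmt) (mat : MATStmt) {r : ℕ} (hF : Hyp2 F r) (hB : Ok2 F B) (hM : B.Fits M)
    {a b : ℤ} (hFr : Fr.Ok B.N a b) (hk : 2 * Fr.k ≤ M) : (dat2 F B Fr M).Ok := by
  have hNM : B.N ∣ M := NM (two hF) hM
  have h2M : 2 ∣ M := hB.pre.two.trans hNM
  have fix : ∀ x ∈ Fr.V0 n ∪ V1 B, x.1.2 = none ∧ x.2 ≤ M ∧ ∀ j, Smooth M (Fr.G j x) := by
    intro x hx
    rcases mem_union.1 hx with h | h
    · refine ⟨?_, ?_, fun j => sm_mono (sm_V0 hFr h j) hNM⟩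
      · obtain ⟨i, -, rfl⟩ := mem_V0.1 h
        rfl
      · obtain ⟨i, hi, rfl⟩ := mem_V0.1 h
        change 2 * i ≤ M
        omega
    · have h1 : x.2 ∣ M := by
        obtain ⟨j, p, hp, rfl⟩ := mem_V1.1 h
        exact (Nat.dvd_of_mem_primeFactors hp).trans (hM.aM j)
      refine ⟨?_, Nat.le_of_dvd hM.pos h1, fun j => ?_⟩
      · obtain ⟨j, p, -, rfl⟩ := mem_V1.1 h
        rfl
      · obtain ⟨hp, -, e⟩ := G_V1 (Fr := Fr) hB h j
        rw [e]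
        exact sm_mono (sm_Gp gp _ _ hp) h1
  have ord : ∀ j (x : Gen n), Ord M x → Fr.G j x = Gp x.1.1 x.2 j := fun j x hx =>
    G_odd j (odd_of hx.2.1 h2M hx.2.2)
  refine ⟨⟨two hF, hM.pos, hM.sm, hB.ne, fun h k hk => (dvd_mul_left _ _).trans (hM.dv h k hk),
    fun h => (sm_cZ hB h).1, fun h => (sm_mono (sm_cZ hB h) hNM).2, ?_, fun x hx => ?_,
    fun _ _ => rfl⟩, (mat n Fr _).1 hFr.sgn, fix, ord, fun x y hy hx => ?_, fun h p hp hd => ?_,
    fun U hU i j hij => ind gp hB hFr hU hij⟩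
  · refine ⟨mem_singleton_self _, fun x hx => .inl (mem_singleton.1 hx), fun x hx y hy _ => ?_,
      fun x hx h0 => ?_⟩
    · rw [mem_singleton.1 hx, mem_singleton.1 hy]
    · rw [mem_singleton.1 hx] at h0
      exact absurd rfl h0
  · rw [mem_singleton.1 hx]
    exact ⟨rfl, one_dvd _⟩
  · refine (mat n Fr _).2.1 x y ?_ hy.2.1 (fun e => hy.2.2 (e ▸ h2M)) fun hd => ?_
    · rintro rfl
      rcases hx with hx | hx
      · exact hy.1 (fix x hx).1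
      · exact hx.2 rfl
    · rcases hx with hx | hx
      · exact hy.2.2 (((fix x hx).2.2 _).2 _ hy.2.1 hd)
      · rw [ord _ x hx.1] at hd
        exact hx.2 ((Nat.prime_dvd_prime_iff_eq hy.2.1 hx.1.2.1).1
          ((sm_Gp gp _ _ hx.1.2.1).2 _ hy.2.1 hd)).symm
  · have h1 : ¬2 ∣ p := odd_of hp h2M hd
    have h3 : ¬(p : ℤ) ∣ cZ2 F h := fun e => hd ((sm_mono (sm_cZ hB h) hNM).2 p hp e)
    have h4 := jacobiSym.eq_one_or_neg_one (a := cZ2 F h) (b := p)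
      (Int.isCoprime_iff_gcd_eq_one.1
        (((Nat.prime_iff_prime_int.1 hp).irreducible.coprime_iff_not_dvd).2 h3).symm)
    change Fr.g (dg2 F B) (tg h, p) (tg h, p) = jacobiSym (cZ2 F h) p
    rw [Frame.g, if_neg fun e => h1 (Nat.dvd_of_mod_eq_zero e.1), if_pos rfl]
    change sg (jacobiSym (cZ2 F h) p) = _
    rcases h4 with e | e <;> rw [e] <;> rfl

end Br2

open Br2

theorem pt : PT2Stmt := by
  intro n F B Fr M h2 hB hM l hl
  replace hl := adm hl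
  have := nontriv h2
  obtain ⟨f, g, hfg⟩ := exists_pair_ne (Ix n)
  have h1 : 128 * B.N * (B.e g - B.e f) ∣ (l g : ℤ) - l f := by
    refine (hM.dv g f hfg.symm).trans (Dvd.dvd.trans ?_ ((hl.one f).trans (hl.one g).symm).dvd)
    change (M : ℤ) ∣ ((8 * M : ℕ) : ℤ)
    push_cast
    exact dvd_mul_left _ _
  obtain ⟨d, hd⟩ := h1
  have hlin : ∀ j, (l j : ℤ) = l f + (B.e j - B.e f) * (128 * B.N * d) := fun j => by
    refine mul_left_cancel₀ (sub_ne_zero.2 (hB.ne g f hfg.symm)) ?_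
    have h3 : (B.e g - B.e f) * l j = (B.e g - B.e j) * l f + (B.e j - B.e f) * l g :=
      hl.lin f g j
    linear_combination h3 + (B.e j - B.e f) * hd
  obtain ⟨D, hD⟩ : ∃ D : ℤ, D = 128 * B.N * d := ⟨_, rfl⟩
  obtain ⟨X, hX⟩ : ∃ X : ℤ, X = l f - B.e f * D := ⟨_, rfl⟩
  have hv : ∀ j, F.LZ j (X * B.v0.1 + D * B.v1.1, X * B.v0.2 + D * B.v1.2) =
      B.μ j * B.a j * l j := fun j => by
    have h3 := hB.l0 j
    have h4 := hB.l1 j
    simp only [Surf.LZ] at h3 h4 ⊢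
    rw [hlin j, ← hD]
    linear_combination X * h3 + D * h4 + B.μ j * B.a j * hX
  refine ⟨_, ?_, hv⟩
  refine Int.isCoprime_iff_gcd_eq_one.2 (Nat.coprime_of_dvd fun p hp d1 d2 => ?_)
  have hp' : Prime (p : ℤ) := Nat.prime_iff_prime_int.1 hp
  replace d1 : (p : ℤ) ∣ X * B.v0.1 + D * B.v1.1 := Int.natCast_dvd.2 d1
  replace d2 : (p : ℤ) ∣ X * B.v0.2 + D * B.v1.2 := Int.natCast_dvd.2 d2
  by_cases hN : p ∣ B.N
  · have hpD : (p : ℤ) ∣ D := by
      rw [hD]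
      exact ((Int.natCast_dvd_natCast.2 hN).mul_left _).mul_right _
    have hpX : ¬(p : ℤ) ∣ X := fun h => by
      have h3 : (p : ℤ) ∣ l f := by
        have : (l f : ℤ) = X + B.e f * D := by rw [hX]; ring
        rw [this]
        exact dvd_add h (hpD.mul_left _)
      exact not_dvd_of_cop hp (cop_of_one (l_one h2 hM hl f)) (Int.natCast_dvd_natCast.1 h3) hN
    have e1 := (hp'.dvd_or_dvd ((dvd_add_left (hpD.mul_right _)).1 d1)).resolve_left hpX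
    have e2 := (hp'.dvd_or_dvd ((dvd_add_left (hpD.mul_right _)).1 d2)).resolve_left hpX
    exact hp'.not_isUnit (hB.prim.isUnit_of_dvd' e1 e2)
  · have h3 : ∀ j, p ∣ B.a j * l j := fun j => by
      have h4 : (p : ℤ) ∣ B.μ j * (B.a j * l j) := by
        rw [← mul_assoc, ← hv j]
        exact dvd_add (d1.mul_left _) (d2.mul_left _)
      have := (hp'.dvd_or_dvd h4).resolve_left fun h => hN ((hB.pre.sm j).2 p hp h)
      exact_mod_cast this
    exact not_dvd_of_cop hp (Br2.cop_al hB hM hl hfg) (h3 f) (h3 g)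

theorem br (gp : GPStmt) (mat : MATStmt) (pt : PT2Stmt) : BR2Stmt := by
  intro n r F B Fr M hF hB hM hFr hk
  refine ⟨Br2.ok gp mat hF hB hM hFr hk, fun l hl => ?_⟩
  obtain ⟨v, -, hv⟩ := pt n F B Fr M (two hF) hB hM l hl
  replace hl := adm hl
  have hN : ∀ j, (l j).Coprime B.N := fun j => cop_of_one (l_one (two hF) hM hl j)
  have hal : ∀ x ∈ V1 B, ∀ y ∈ gens l, x.2 ≠ y.2 := by
    intro x hx y hy e
    obtain ⟨j, p, hp, rfl⟩ := mem_V1.1 hx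
    obtain ⟨k, -, hq⟩ := mem_gens.1 hy
    rw [← e] at hq
    exact not_dvd_of_cop (Nat.prime_of_mem_primeFactors hp) (hl.coprime_M k)
      (Nat.dvd_of_mem_primeFactors hq) ((Nat.dvd_of_mem_primeFactors hp).trans (hM.aM j))
  refine ⟨⟨hB.pre.pos, hB.pre.two, sm_bv hB 1, sm_bv hB 2, hB.pre.sum ▸ sm_bv hB 0,
    hB.pre.sum ▸ hB.pre.sq, fun x hx => ?_, fun x hx y hy e => ?_, fun i => ?_, fun i => ?_, ?_,
    fun x hx => ?_⟩, ?_, ?_⟩
  · rcases mem_union.1 hx with hx | hx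
    · exact ⟨(G_V1 (Fr := Fr) hB hx 0).1, (G_V1 (Fr := Fr) hB hx 0).2.1⟩
    · obtain ⟨j, -, hp⟩ := mem_gens.1 hx
      exact ⟨Nat.prime_of_mem_primeFactors hp, not_dvd_of_cop (Nat.prime_of_mem_primeFactors hp)
        (hN j) (Nat.dvd_of_mem_primeFactors hp)⟩
  · rcases mem_union.1 hx with hx | hx <;> rcases mem_union.1 hy with hy | hy
    · exact dist_V1 hB x hx y hy e
    · exact absurd e (hal x hx y hy)
    · exact absurd e.symm (hal y hy x hx)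
    · exact dist_gens hl.cop x hx y hy e
  · rw [Br2.prod_cls hB l i fun x => x.2]
    exact prod_congr rfl fun k _ => by
      rw [Nat.prod_primeFactors_of_squarefree (hB.sqf _),
        Nat.prod_primeFactors_of_squarefree (hl.sqf _)]
  · exact prod_induction _ (· ≡ 1 [MOD 128 * B.N]) (fun _ _ h h' => by simpa using h.mul h') rfl
      fun k _ => Br2.al_one (two hF) hB hM hl (i, k)
  · have h1 := sumZ hF v
    rw [DZ_eq hv, DZ_eq hv, DZ_eq hv] at h1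
    rw [← hB.pre.sum]
    exact h1.symm
  · rcases mem_union.1 hx with hx | hx
    · obtain ⟨j, p, hp, rfl⟩ := mem_V1.1 hx
      rw [Br2.dg_a hB hp]
      exact Br2.diag hF hB hM hl hv j (Nat.prime_of_mem_primeFactors hp)
        ((Nat.dvd_of_mem_primeFactors hp).mul_right _)
    · obtain ⟨t, p⟩ := x
      obtain ⟨j, rfl, hp⟩ := mem_gens.1 hx
      exact Br2.diag hF hB hM hl hv j (Nat.prime_of_mem_primeFactors hp)
        ((Nat.dvd_of_mem_primeFactors hp).mul_left _)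
  · rw [Br2.prod_cls hB]
    refine prod_eq_one fun k _ => ?_
    rw [prod_congr rfl fun p hp => Br2.dg_a hB hp 0, jac_sqf _ (hB.sqf _)]
    change _ * ∏ p ∈ (l (0, k)).primeFactors, jacobiSym (cZ2 F (0, k)) p = 1
    rw [jac_sqf _ (hl.sqf _), jac_one (hB.one _) (sm_cZ hB _).1 (sm_cZ hB _).2,
      jac_one (l_one (two hF) hM hl _) (sm_cZ hB _).1 (sm_cZ hB _).2, one_mul]
  · have := Br2.prod_VV hB l fun _ => Multiplicative.ofAdd (1 : ℕ)
    simpa using congrArg Multiplicative.toAdd this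

end Pool.Agent.MP_a43263_nt.RH
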