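import Pool.Agent.MP_a43263_nt.RH.Defs

/-! PROJECT RANKG, THEOREM G (no split fibre): the statements of the modules.
Blueprint: `/team-store/RANKG_G_BLUEPRINT.md`. -/

set_option autoImplicit false

noncomputable section

namespace Pool.Agent.MP_a43263_nt.RH

open Finset Filter
open R2 (Sgn chi Ker sg pri PP chs Sc Shape ELS SHAStmt MERStmt)
open RG

/-! ### A. the bad places -/

/-- the Hilbert symbol of a conic with a point, odd primes -/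
def HSOStmt : Prop := ∀ (p : ℕ) [Fact p.Prime] (x y : ℤ), p ≠ 2 → x ≠ 0 → y ≠ 0 →
  Conic (x : ℚ_[p]) y → hs p x y = 1

/-- the Hilbert symbol of a conic with a point, the prime two -/
def HS2Stmt : Prop := ∀ x y : ℤ, x ≠ 0 → y ≠ 0 → Conic (x : ℚ_[2]) y → hs 2 x y = 1

/-- the product formula -/
def PFStmt : Prop := ∀ (N m : ℕ) (u u' m' : ℤ), 0 < N → 2 ∣ N → Smooth N u → Smooth N u' →
  m.Coprime N → m' % 4 = 1 → m'.natAbs.Coprime N →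
  (if u < 0 ∧ u' * m' < 0 then -1 else 1) * ∏ p ∈ N.primeFactors, hs p (u * m) (u' * m') =
    jacobiSym u m'.natAbs * jacobiSym u' m

/-- reciprocity for a conic with points at the bad places -/
def RECStmt : Prop := ∀ (N m : ℕ) (u u' m' : ℤ), 0 < N → 2 ∣ N → Smooth N u → Smooth N u' →
  m.Coprime N → m' % 4 = 1 → m'.natAbs.Coprime N → Conic ((u * m : ℤ) : ℝ) (u' * m' : ℤ) →
  (∀ (p : ℕ) [Fact p.Prime], p ∣ N → Conic ((u * m : ℤ) : ℚ_[p]) (u' * m' : ℤ)) →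
  jacobiSym u m'.natAbs * jacobiSym u' m = 1

/-- soluble coverings form a group -/
def GRPStmt : Prop := ∀ (K : Type) [Field K] [CharZero K] (a b d₂ d₃ e₂ e₃ : K), a ≠ 0 → b ≠ 0 →
  a ≠ b → d₂ ≠ 0 → d₃ ≠ 0 → e₂ ≠ 0 → e₃ ≠ 0 → Cover a b d₂ d₃ → Cover a b e₂ e₃ →
  Cover a b (d₂ * e₂) (d₃ * e₃)

def FRAMEStmt : Prop := ∀ (N : ℕ) (a b : ℤ), 0 < N → 2 ∣ N → a ≠ 0 → b ≠ 0 → Smooth N (a - b) →
  ∃ Fr : Frame, Fr.Ok N a b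

/-- the local conditions at the bad places are locally constant -/
def CONSTStmt : Prop := ∀ (N : ℕ) (a b d₂ d₃ : ℤ) (A : Fin 3 → ℕ), 0 < N → a ≠ 0 → b ≠ 0 →
  a ≠ b → (a - b) ^ 2 ∣ N → (∀ i, A i ≡ 1 [MOD 128 * N]) → a * A 1 - b * A 2 = (a - b) * A 0 →
  d₂ ≠ 0 → d₃ ≠ 0 → SolS N (a * A 1) (b * A 2) d₂ d₃ → SolS N a b d₂ d₃

/-! ### B. descent -/

/-- the values of primes -/
def GPStmt : Prop :=
  (∀ (c j : Fin 3) (p : ℕ), (j ≠ c → Gp c p j = p ∨ Gp c p j = -p) ∧ (Gp c p c = 1 ∨ Gp c p c = -1)) ∧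
  (∀ (c j : Fin 3) (l : ℕ), Squarefree l → l % 4 = 1 →
    ∏ p ∈ l.primeFactors, Gp c p j = if j = c then 1 else (l : ℤ)) ∧
  (∀ (c c' : Fin 3) (p q : ℕ), p % 2 = 1 → q % 2 = 1 →
    jacobiSym (Gp c p c') q = jacobiSym (Gp c' q c) p) ∧
  (∀ (c : Fin 3) (p : ℕ), Gp c p 0 * Gp c p 1 * Gp c p 2 = (p : ℤ) ^ 2) ∧
  ∀ (c : Fin 3) (p : ℕ), p % 2 = 1 → jacobiSym (Gp c p c) p = if c = 0 then jacobiSym (-1) p else 1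

/-- the entries of the descent matrix -/
def MATStmt : Prop := ∀ (n : ℕ) (Fr : Frame) (dg : Gen n → ℤ),
  (Sgn Fr.τ → Sgn (Fr.g dg)) ∧
  (∀ a b : Gen n, a ≠ b → b.2.Prime → b.2 ≠ 2 → ¬(b.2 : ℤ) ∣ Fr.G b.1.1 a →
    Fr.g dg a b = jacobiSym (Fr.G b.1.1 a) b.2) ∧
  ∀ x : Finset (Gen n), IsSquare (Gv Fr.G 0 x * Gv Fr.G 1 x * Gv Fr.G 2 x)

/-- the local conditions -/
def LOC2Stmt : Prop := ∀ (n N : ℕ) (a b : ℤ) (Fr : Frame) (V : Finset (Gen n)) (dg : Gen n → ℤ)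
  (A : Fin 3 → ℕ), Fr.Ok N a b → Loc2 N a b V dg A → ∀ d₂ d₃ : ℚ, d₂ ≠ 0 → d₃ ≠ 0 →
    ELS ((a * A 1 : ℤ) : ℚ) (b * A 2 : ℤ) d₂ d₃ → ∃ y ∈ Ker (Fr.g dg) (Fr.V0 n ∪ V),
      IsSquare (d₂ * (Gv Fr.G 2 y : ℚ)) ∧ IsSquare (d₃ * (Gv Fr.G 1 y : ℚ)) ∧
        Gv Fr.G 2 y ≠ 0 ∧ Gv Fr.G 1 y ≠ 0

/-- the parity of the corank of a symmetric matrix with a characteristic vector -/
def BOR5Stmt : Prop := ∀ (ι : Type) [DecidableEq ι] (g : ι → ι → ℤ), Sgn g → ∀ V w : Finset ι,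
  w ⊆ V → (∀ a ∈ V, g a a = ∏ t ∈ w, g t a) →
  ∃ κ : ℕ, (Ker g V).card = 2 ^ κ ∧ κ % 2 = (V.card + if chi g w w = 1 then 0 else 1) % 2

def PAR2Stmt : Prop := ∀ (n N : ℕ) (a b : ℤ) (Fr : Frame) (V : Finset (Gen n)) (dg : Gen n → ℤ)
  (A : Fin 3 → ℕ), Fr.Ok N a b → Loc2 N a b V dg A →
  ∏ x ∈ V.filter (fun x => x.1.1 = 0), dg x = 1 →
    ∃ κ : ℕ, (Ker (Fr.g dg) (Fr.V0 n ∪ V)).card = 2 ^ κ ∧ κ % 2 = (Fr.par + V.card) % 2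

def ALG2Stmt : Prop := ∀ (a b : ℚ) (r : ℕ) (ι ι' : Type) (I : Finset ι) (d₂ d₃ : ι → ℚ)
  (K : Finset ι') (φ₂ φ₃ : ι' → ℚ), a ≠ 0 → b ≠ 0 → a ≠ b → I.card = 2 ^ (r + 2) →
  (∀ i ∈ I, d₂ i ≠ 0 ∧ d₃ i ≠ 0 ∧ Cover a b (d₂ i) (d₃ i)) →
  (∀ i ∈ I, ∀ j ∈ I, IsSquare (d₂ i * d₂ j) → IsSquare (d₃ i * d₃ j) → i = j) →
  K.card ≤ 2 ^ (r + 2) → (∀ e₂ e₃ : ℚ, e₂ ≠ 0 → e₃ ≠ 0 → ELS a b e₂ e₃ →
    ∃ y ∈ K, IsSquare (e₂ * φ₂ y) ∧ IsSquare (e₃ * φ₃ y) ∧ φ₂ y ≠ 0 ∧ φ₃ y ≠ 0) →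
  Good r (curve a b)

/-! ### C. the analytic part -/

/-- rows as Jacobi symbols -/
def KC2Stmt : Prop := ∀ (n : ℕ) (E : Dat2 n), E.Ok →
  (∀ (x : Finset (Gen n)) (b : Gen n), Ord E.D.M b →
    (∀ a ∈ x, a ∈ E.W0 ∨ (Ord E.D.M a ∧ a.2 ≠ b.2)) →
    ∏ a ∈ x, E.g a b = jacobiSym (Gv E.G b.1.1 x) b.2) ∧
  (∀ (x : Finset (Gen n)) (j : Fin 3), (∀ a ∈ x, a ∈ E.W0 ∨ Ord E.D.M a) → Gv E.G j x ≠ 0 ∧
    ∀ p : ℕ, p.Prime → (p : ℤ) ∣ Gv E.G j x → p ∣ E.D.M ∨ ∃ a ∈ x, Ord E.D.M a ∧ a.2 = p) ∧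
  (∀ W x : Finset (Gen n), (∀ a ∈ W, Ord E.D.M a) → RG.Dist W → x ⊆ E.W0 ∪ W →
    (∀ a ∈ x, a ∉ E.W0 → ∀ j, j ≠ a.1.1 → ∀ C : ℤ, Smooth E.D.M C → ¬IsSquare (Gv E.G j x * C)) ∧
    ∀ i j, i ≠ j → IsSquare (Gv E.G i x) → IsSquare (Gv E.G j x) → x = ∅) ∧
  (∀ (W : Finset (Gen n)) (j : Fin 3), (∀ a ∈ W, Ord E.D.M a) → ∃ σ : ℤ, (σ = 1 ∨ σ = -1) ∧
    Gv E.G j W = σ * ∏ b ∈ W.filter (fun b => b.1.1 ≠ j), (b.2 : ℤ)) ∧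
  (∀ (x x' : Finset (Gen n)) (j : Fin 3),
    Gv E.G j x * Gv E.G j x' = Gv E.G j (symmDiff x x') * Gv E.G j (x ∩ x') ^ 2) ∧
  ∀ m : ℤ, m ≠ 0 → ¬IsSquare m → ∃ G s : ℤ, m = G * s ^ 2 ∧ Squarefree G.natAbs ∧ G ≠ 1

/-- symbols that involve a whole form -/
def SYM2Stmt : Prop := ∀ (n : ℕ) (E : Dat2 n), E.Ok →
  (∀ (y y' : Finset (Ix n)) (f g : Ix n), f ≠ g → ∃ (σ : ℤ) (e : ℕ), (σ = 1 ∨ σ = -1) ∧
    ∀ l, Adm E.D l → chi E.g (ones (E.VV l) y) (ones (E.VV l) y') =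
      σ * jacobiSym (l g) (l f) ^ e) ∧
  (∀ y : Finset (Ix n), ∀ b ∈ E.W0, ∀ l, Adm E.D l → ∏ a ∈ ones (E.VV l) y, E.g a b = 1) ∧
  (∀ (y : Finset (Ix n)) (k k' : Ix n), k ≠ k' → ∃ C : ℤ, ∀ l, Adm E.D l → ∀ p : ℕ, p.Prime →
    p ∣ l k → ∏ a ∈ ones (E.VV l) y, E.g a (tg k, p) =
      jacobiSym C p * jacobiSym (l k') p ^ Yne k.1 y) ∧
  (∀ y ∈ Yc n, ∀ (k : Ix n) (l : Ix n → ℕ), Adm E.D l → ∀ p : ℕ, p.Prime → p ∣ l k →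
    ∏ a ∈ ones (E.VV l) y, E.g a (tg k, p) = jacobiSym (Cy2 E.D y k) p)

open Classical in
/-- one new prime contracts the kernel on average -/
def STEP2Stmt : Prop := ∀ (n : ℕ) (E : Dat2 n) (W : Finset (Gen n)) (P : Finset ℕ) (w : ℕ → ℝ),
  E.Ok → (∀ a ∈ W, Ord E.D.M a) → RG.Dist W →
  (∀ p ∈ P, p.Prime ∧ ¬p ∣ E.D.M ∧ 0 ≤ w p ∧ ∀ a ∈ W, a.2 ≠ p) →
  10000 ≤ (Ker E.g (E.W0 ∪ W)).card →
  (∀ x ⊆ E.W0 ∪ W, ∀ j, ¬IsSquare (Gv E.G j x) →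
    |∑ p ∈ P, w p * jacobiSym (Gv E.G j x) p| ≤ (∑ p ∈ P, w p) / 100) →
  ∑ b ∈ TT n P, w b.2 * √((Ker E.g (insert b (E.W0 ∪ W))).card) ≤
    0.96 * (3 * n * ∑ p ∈ P, w p) * √((Ker E.g (E.W0 ∪ W)).card)

open Classical in
/-- the kernel on the small primes is tight -/
def LYA2Stmt : Prop := ∀ (n : ℕ) (E : Dat2 n), E.Ok → ∃ C : ℝ, ∀ y : ℕ,
  ∑ W ∈ (TT n (PP E.D.M 0 y)).powerset.filter RG.Dist, Wt W * √((Ker E.g (E.W0 ∪ W)).card) ≤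
    C * Mass n (PP E.D.M 0 y)

open Classical in
/-- classes that are not geometric are killed by the medium primes -/
def KIL2Stmt : Prop := ∀ (n : ℕ) (E : Dat2 n) (T J : ℕ), E.Ok →
  Ev n E.D.M J fun S =>
    ∑ W ∈ (TT n (PP E.D.M 0 S.Y0)).powerset.filter RG.Dist,
      ∑ W' ∈ (TT n (PP E.D.M S.Y S.Y')).powerset,
      Wt W * Wt W' * (if (Ker E.g (E.W0 ∪ W)).card ≤ T ∧ Bad2 E W W' then 1 else 0) ≤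
      3 * 8 ^ n * T / 2 ^ J * (Mass n (PP E.D.M 0 S.Y0) * Mass n (PP E.D.M S.Y S.Y'))

/-- the sum with frozen data -/
def KEY2Stmt : Prop := ∀ (n : ℕ) (E : Dat2 n) (J : ℕ), E.Ok →
  Ev n E.D.M J fun S => ∀ (y y' : Finset (Ix n)) (f g : TL n) (ok : Finset (TL n) → Prop)
    (O O₁ O₂ : Finset (Gen n)) (i : ℕ), f.1 ≠ g.1 → Odd (expo y y' f g) →
    |keySum2 S E y y' f g ok O O₁ O₂ i| ≤
      (S.Z : ℝ) ^ 2 / ((S.Y0 : ℝ) ^ (30 * n) * ∏ b ∈ O.filter (fun b => S.Y < b.2), (b.2 : ℝ))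

open Classical in
def OSC2Stmt : Prop := ∀ (n : ℕ) (E : Dat2 n) (J : ℕ) (ε : ℝ), E.Ok → 0 < ε →
  Ev n E.D.M J fun S => ∀ pr : Finset (Gen n) → Prop,
    |∑ l ∈ (AA S E.D).filter (fun l => pr (le S.Y (E.VV l))), osc E.g S.Y S.Y' (E.VV l)| ≤
      ε * (S.Z : ℝ) ^ 2

open Classical in
/-- a positive proportion of the tuples has a kernel of the least size -/
def MKV2Stmt : Prop := ∀ (n : ℕ) (E : Dat2 n) (r : ℕ) (δ : ℝ), E.Ok →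
  (geoSet2 E).card ≤ 2 ^ (r + 2) →
  (∀ l, Adm E.D l → Even (∑ h, (l h).primeFactors.card) →
    ∃ κ : ℕ, (Ker E.g (E.VV l)).card = 2 ^ κ ∧ κ % 2 = r % 2) → Even n → 0 < δ →
  ∃ J₀ : ℕ, ∀ J : ℕ, J₀ ≤ J → Ev n E.D.M J fun S => δ * (S.Z : ℝ) ^ 2 ≤ (AA S E.D).card →
    δ / 32 * (S.Z : ℝ) ^ 2 ≤
      (((AA S E.D).filter fun l => (Ker E.g (E.VV l)).card ≤ 2 ^ (r + 2)).card : ℝ)

/-! ### D. surfaces -/

/-- both parities occur at squarefree values of a product of linear forms -/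
def PTY2Stmt : Prop := ∀ (I : Type) [Fintype I], ∃ P₁ : ℕ, ∀ (κ : I → ℕ) (Q ε : ℕ),
  0 < Q → (∀ p : ℕ, p.Prime → p ≤ P₁ → p ∣ Q) →
  (∀ i, 0 < κ i ∧ Q ∣ κ i ∧ ∀ p : ℕ, p.Prime → p ∣ κ i → p ∣ Q) →
  (∀ i j, i ≠ j → κ i ≠ κ j ∧ ∀ p : ℕ, p.Prime → (p : ℤ) ∣ (κ i : ℤ) - κ j → p ∣ Q) →
  ∃ s t : ℕ, t ≡ 1 [MOD Q] ∧ s.Coprime t ∧ Squarefree t ∧ (∀ i, Squarefree (t + κ i * s)) ∧
    (t.primeFactors.card + ∑ i, (t + κ i * s).primeFactors.card) % 2 = ε % 2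

/-- base points of both parities near a fixed fibre -/
def BASE2Stmt : Prop := ∀ (n r : ℕ) (F : Surf n), Hyp2 F r → ∃ (N : ℕ) (μ : Ix n → ℤ), Pre F N μ ∧
  ∀ ε : ℕ, ∃ B : Base n, B.N = N ∧ B.μ = μ ∧ Ok2 F B ∧
    (∑ j, (B.a j).primeFactors.card) % 2 = ε % 2

/-- the point that belongs to an admissible tuple -/
def PT2Stmt : Prop := ∀ (n : ℕ) (F : Surf n) (B : Base n) (Fr : Frame) (M : ℕ), 2 ≤ n → Ok2 F B →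
  B.Fits M → ∀ l, Adm (dat2 F B Fr M).D l →
    ∃ v : ℤ × ℤ, IsCoprime v.1 v.2 ∧ ∀ j, F.LZ j v = B.μ j * B.a j * l j

/-- the descent applies to admissible tuples -/
def BR2Stmt : Prop := ∀ (n r : ℕ) (F : Surf n) (B : Base n) (Fr : Frame) (M : ℕ), Hyp2 F r →
  Ok2 F B → B.Fits M → Fr.Ok B.N (bv F B.μ 1) (bv F B.μ 2) → 2 * Fr.k ≤ M →
  (dat2 F B Fr M).Ok ∧ ∀ l, Adm (dat2 F B Fr M).D l →
    Loc2 B.N (bv F B.μ 1) (bv F B.μ 2) (V1 B ∪ gens l) (dg2 F B) (B.pr l) ∧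
    ∏ x ∈ (V1 B ∪ gens l).filter (fun x => x.1.1 = 0), dg2 F B x = 1 ∧
    (V1 B ∪ gens l).card = ∑ j, (B.a j).primeFactors.card + ∑ j, (l j).primeFactors.card

/-- geometric classes satisfy the residue conditions -/
def GEO2Stmt : Prop := ∀ (n r : ℕ) (F : Surf n) (B : Base n) (Fr : Frame) (M : ℕ), Hyp2 F r →
  Ok2 F B → (dat2 F B Fr M).Ok → (geoSet2 (dat2 F B Fr M)).card ≤ 2 ^ (r + 2)

/-- a small kernel gives a good fibre -/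
def GOOD2Stmt : Prop := ∀ (n r : ℕ) (F : Surf n) (B : Base n) (Fr : Frame) (M : ℕ), Hyp2 F r →
  Ok2 F B → B.Fits M → Fr.Ok B.N (bv F B.μ 1) (bv F B.μ 2) → 2 * Fr.k ≤ M →
  ∀ l, Adm (dat2 F B Fr M).D l → (∀ j, 1 < l j) →
    (Ker (dat2 F B Fr M).g ((dat2 F B Fr M).VV l)).card ≤ 2 ^ (r + 2) →
    ∀ v : ℤ × ℤ, (∀ j, F.LZ j v = B.μ j * B.a j * l j) → v.2 ≠ 0 → Good r (F.fibre v)

open Classical in
def Main0Stmt : Prop := ∀ (n r : ℕ) (F : Surf n), Hyp2 F r → ∃ c : ℝ, 0 < c ∧ ∀ᶠ H : ℕ in atTop,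
  c * (H : ℝ) ^ 2 ≤ (((Icc (-H : ℤ) H ×ˢ Icc (-H : ℤ) H).filter fun v : ℤ × ℤ =>
    IsCoprime v.1 v.2 ∧ Good r (F.fibre v)).card : ℝ)

def MainStmt : Prop := ∀ (n r : ℕ) (F : Surf n), Hyp2 F r → ∃ c : ℝ, 0 < c ∧ ∀ᶠ H : ℕ in atTop,
  ∃ T ⊆ Icc (-H : ℤ) H ×ˢ Icc (-H : ℤ) H, c * (H : ℝ) ^ 2 ≤ T.card ∧
    (∀ v ∈ T, IsCoprime v.1 v.2 ∧ Good r (F.fibre v)) ∧
    ∀ v ∈ T, ∀ w ∈ T, ∀ [(F.fibre v).IsElliptic] [(F.fibre w).IsElliptic],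
      (F.fibre v).j = (F.fibre w).j → v = w

theorem main_of (sha : SHAStmt) (rank : RANKStmt) (mer : MERStmt) (mes : MESStmt) (exp : EXPStmt)
    (pos : POSStmt) (dom : DOMStmt) (cnt : CNTStmt) (bor : BORStmt) (gg : GStmt) (spe : SPEStmt)
    (hso : HSOStmt) (hs2 : HS2Stmt) (pf : PFStmt) (rec : HSOStmt → HS2Stmt → PFStmt → RECStmt)
    (grp : GRPStmt) (frame : RECStmt → GRPStmt → FRAMEStmt) (const : CONSTStmt) (gp : GPStmt)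
    (mat : GPStmt → MATStmt) (loc : GPStmt → MATStmt → CONSTStmt → LOC2Stmt)
    (bor5 : BORStmt → BOR5Stmt) (par : GPStmt → MATStmt → BOR5Stmt → PAR2Stmt)
    (alg : SHAStmt → RANKStmt → ALG2Stmt) (kc : GPStmt → KC2Stmt)
    (sym : GPStmt → KC2Stmt → SYM2Stmt) (step : BORStmt → KC2Stmt → STEP2Stmt)
    (lya : BORStmt → KC2Stmt → MERStmt → EXPStmt → STEP2Stmt → LYA2Stmt)
    (kil : KC2Stmt → MERStmt → EXPStmt → KIL2Stmt) (key : KC2Stmt → SYM2Stmt → GStmt → KEY2Stmt)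
    (os : KEY2Stmt → OSC2Stmt)
    (mkv : KC2Stmt → SYM2Stmt → CNTStmt → MESStmt → DOMStmt → LYA2Stmt → KIL2Stmt → OSC2Stmt →
      MKV2Stmt)
    (pty : PTY2Stmt) (base : PTY2Stmt → BASE2Stmt) (pt : PT2Stmt)
    (br : GPStmt → MATStmt → PT2Stmt → BR2Stmt) (geo : MATStmt → KC2Stmt → GEO2Stmt)
    (good : ALG2Stmt → LOC2Stmt → BR2Stmt → SPEStmt → GOOD2Stmt)
    (fin : FRAMEStmt → PAR2Stmt → POSStmt → MKV2Stmt → BASE2Stmt → PT2Stmt → BR2Stmt → GEO2Stmt →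
      GOOD2Stmt → Main0Stmt)
    (jin : Main0Stmt → MainStmt) : MainStmt :=
  have hk := kc gp
  have hm := mat gp
  have hs := sym gp hk
  have hb := br gp hm pt
  jin (fin (frame (rec hso hs2 pf) grp) (par gp hm (bor5 bor)) pos
    (mkv hk hs cnt mes dom (lya bor hk mer exp (step bor hk)) (kil hk mer exp) (os (key hk hs gg)))
    (base pty) pt hb (geo hm hk) (good (alg sha rank) (loc gp hm const) hb spe))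

end Pool.Agent.MP_a43263_nt.RH
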