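import Mathlib.NumberTheory.Padics.Hensel
import Mathlib.Analysis.Normed.Group.Ultra
import Pool.Agent.MP_a43263_nt.RH.Spec

/-! PROJECT RANKG, THEOREM G, row CONST: the local conditions are locally constant. -/

set_option autoImplicit false

namespace Pool.Agent.MP_a43263_nt.RH

open RG Polynomial

namespace Cst

theorem swap {K : Type} [Field K] {a b d₂ d₃ : K} (h : Cover a b d₂ d₃) : Cover b a d₃ d₂ := by
  obtain ⟨z₀, z₂, z₃, t, hne, e2, e3⟩ := h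
  exact ⟨z₀, z₃, z₂, t, fun h => hne ⟨h.1, h.2.2.1, h.2.1, h.2.2.2⟩, by linear_combination e3,
    by linear_combination e2⟩

section padic

variable {p : ℕ} [hp : Fact p.Prime]

theorem sq_one {x : ℚ_[p]} (h : ‖x - 1‖ < ‖(4 : ℚ_[p])‖) : ∃ s : ℚ_[p], x = s ^ 2 := by
  have h4 : ‖(4 : ℚ_[p])‖ ≤ 1 := by exact_mod_cast Padic.norm_int_le_one (p := p) 4
  have hx : ‖x‖ ≤ 1 := by
    have := IsUltrametricDist.norm_add_le_max (x - 1) 1
    rw [sub_add_cancel, norm_one] at this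
    exact this.trans (max_le (h.le.trans h4) le_rfl)
  obtain ⟨y, rfl⟩ : ∃ y : ℤ_[p], (y : ℚ_[p]) = x := ⟨⟨x, hx⟩, rfl⟩
  obtain ⟨z, hz, -⟩ := hensels_lemma (p := p) (F := (X ^ 2 - C y : ℤ_[p][X])) (a := 1) (by
    have e : (4 : ℚ_[p]) = (((2 : ℤ_[p]) ^ 2 : ℤ_[p]) : ℚ_[p]) := by
      rw [PadicInt.coe_pow, show ((2 : ℤ_[p]) : ℚ_[p]) = 2 from rfl]; norm_num
    rw [e, norm_sub_rev, ← PadicInt.coe_one, ← PadicInt.coe_sub, ← PadicInt.norm_def,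
      ← PadicInt.norm_def, norm_pow] at h
    have e1 : aeval (1 : ℤ_[p]) (X ^ 2 - C y : ℤ_[p][X]) = 1 - y := by simp
    have e2 : aeval (1 : ℤ_[p]) (derivative (X ^ 2 - C y : ℤ_[p][X])) = 2 := by
      simp [one_add_one_eq_two]
    rwa [e1, e2])
  have e1 : aeval z (X ^ 2 - C y : ℤ_[p][X]) = z ^ 2 - y := by simp
  rw [e1, sub_eq_zero] at hz
  exact ⟨z, by rw [← hz, PadicInt.coe_pow]⟩

theorem close {x y : ℚ_[p]} (h : ‖x - y‖ < ‖(4 : ℚ_[p])‖ * ‖y‖) : ∃ s : ℚ_[p], x = y * s ^ 2 := by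
  have hy : y ≠ 0 := by
    rintro rfl
    simp only [norm_zero, mul_zero] at h
    exact (norm_nonneg _).not_gt h
  obtain ⟨s, hs⟩ := sq_one (x := x / y) (by
    rwa [div_sub_one hy, norm_div, div_lt_iff₀ (norm_pos_iff.2 hy)])
  exact ⟨s, by rw [← hs, mul_div_cancel₀ _ hy]⟩

theorem close' {x y : ℚ_[p]} (h : ‖x - y‖ < ‖(4 : ℚ_[p])‖ * ‖y‖) : ∃ s : ℚ_[p], y = x * s ^ 2 := by
  have h4 : ‖(4 : ℚ_[p])‖ ≤ 1 := by exact_mod_cast Padic.norm_int_le_one (p := p) 4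
  obtain ⟨s, hs⟩ := close h
  have h0 : s ≠ 0 := by
    rintro rfl
    rw [hs] at h
    simp only [ne_eq, OfNat.ofNat_ne_zero, not_false_eq_true, zero_pow, mul_zero, zero_sub,
      norm_neg] at h
    exact h.not_ge (mul_le_of_le_one_left (norm_nonneg _) h4)
  exact ⟨s⁻¹, by rw [hs]; field_simp⟩

theorem near {a b a' b' d₂ d₃ x z₀ z₃ : ℚ_[p]} {ε : ℝ} (ha0 : a ≠ 0) (ha : ‖a‖ ≤ 1) (hb : ‖b‖ ≤ 1)
    (h1 : ‖a' - a‖ ≤ ε * ‖a‖) (h2 : ‖b' - b‖ ≤ ε * ‖b‖) (h0 : 0 ≤ ε)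
    (hε : ε < ‖(4 : ℚ_[p])‖ ^ 2 * ‖a - b‖) (e0 : x = d₂ * d₃ * z₀ ^ 2) (e3 : x - b' = d₃ * z₃ ^ 2)
    (h : ‖(4 : ℚ_[p])‖ * ‖x - a'‖ ≤ ‖a' - a‖) : Cover a b d₂ d₃ := by
  have h4 : ‖(4 : ℚ_[p])‖ ≤ 1 := by exact_mod_cast Padic.norm_int_le_one (p := p) 4
  have hc : 0 < ‖(4 : ℚ_[p])‖ := norm_pos_iff.2 (by norm_num)
  set c := ‖(4 : ℚ_[p])‖
  have hab : ‖a - b‖ ≤ 1 := by
    have := IsUltrametricDist.norm_add_le_max a (-b)
    rw [norm_neg, ← sub_eq_add_neg] at this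
    exact this.trans (max_le ha hb)
  have h5 : c * ‖x - a‖ ≤ ε * ‖a‖ := by
    have := IsUltrametricDist.norm_add_le_max (x - a') (a' - a)
    rw [sub_add_sub_cancel] at this
    refine (mul_le_mul_of_nonneg_left this hc.le).trans ?_
    rw [mul_max_of_nonneg _ _ hc.le]
    exact max_le (h.trans h1) ((mul_le_of_le_one_left (norm_nonneg _) h4).trans h1)
  have h6 : c * ‖x - b' - (a - b)‖ ≤ ε := by
    have := IsUltrametricDist.norm_add_le_max (x - a) (-(b' - b))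
    rw [norm_neg, show x - a + -(b' - b) = x - b' - (a - b) by ring] at this
    refine (mul_le_mul_of_nonneg_left this hc.le).trans ?_
    rw [mul_max_of_nonneg _ _ hc.le]
    exact max_le (h5.trans (mul_le_of_le_one_right h0 ha))
      ((mul_le_of_le_one_left (norm_nonneg _) h4).trans (h2.trans (mul_le_of_le_one_right h0 hb)))
  obtain ⟨s, hs⟩ := close' (x := x) (y := a) (lt_of_mul_lt_mul_left (h5.trans_lt (by
    rw [← mul_assoc, ← sq]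
    exact mul_lt_mul_of_pos_right (hε.trans_le (mul_le_of_le_one_right (sq_nonneg _) hab))
      (norm_pos_iff.2 ha0))) hc.le)
  obtain ⟨r, hr⟩ := close' (x := x - b') (y := a - b) (lt_of_mul_lt_mul_left (h6.trans_lt (by
    rwa [← mul_assoc, ← sq])) hc.le)
  exact ⟨z₀ * s, 0, z₃ * r, 1, fun h => one_ne_zero h.2.2.2, by
    linear_combination -hs - s ^ 2 * e0, by linear_combination -hs - s ^ 2 * e0 + hr + r ^ 2 * e3⟩

theorem padic {a b a' b' d₂ d₃ : ℚ_[p]} {ε : ℝ} (ha0 : a ≠ 0) (hb0 : b ≠ 0) (ha : ‖a‖ ≤ 1)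
    (hb : ‖b‖ ≤ 1) (h1 : ‖a' - a‖ ≤ ε * ‖a‖) (h2 : ‖b' - b‖ ≤ ε * ‖b‖) (h0 : 0 ≤ ε)
    (hε : ε < ‖(4 : ℚ_[p])‖ ^ 2 * ‖a - b‖) (h : Cover a' b' d₂ d₃) : Cover a b d₂ d₃ := by
  obtain ⟨z₀, z₂, z₃, t, hne, e2, e3⟩ := h
  by_cases ht : t = 0
  · exact ⟨z₀, z₂, z₃, t, hne, by rw [e2, ht]; simp, by rw [e3, ht]; simp⟩
  have f2 : d₂ * d₃ * (z₀ / t) ^ 2 - a' = d₂ * (z₂ / t) ^ 2 := by
    field_simp; linear_combination e2
  have f3 : d₂ * d₃ * (z₀ / t) ^ 2 - b' = d₃ * (z₃ / t) ^ 2 := by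
    field_simp; linear_combination e3
  set x := d₂ * d₃ * (z₀ / t) ^ 2 with hx
  rcases le_or_gt (‖(4 : ℚ_[p])‖ * ‖x - a'‖) ‖a' - a‖ with h3 | h3
  · exact near ha0 ha hb h1 h2 h0 hε hx f3 h3
  rcases le_or_gt (‖(4 : ℚ_[p])‖ * ‖x - b'‖) ‖b' - b‖ with h4 | h4
  · exact swap (near hb0 hb ha h2 h1 h0 (by rwa [norm_sub_rev]) (by rw [hx, mul_comm d₂]) f2 h4)
  obtain ⟨s, hs⟩ := close (x := x - a) (y := x - a') (by rwa [sub_sub_sub_cancel_left])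
  obtain ⟨r, hr⟩ := close (x := x - b) (y := x - b') (by rwa [sub_sub_sub_cancel_left])
  exact ⟨z₀ / t, z₂ / t * s, z₃ / t * r, 1, fun h => one_ne_zero h.2.2.2, by
    linear_combination hs + s ^ 2 * f2 - hx, by linear_combination hr + r ^ 2 * f3 - hx⟩

end padic

theorem rsq {x d : ℝ} (h : 0 < x * d) : ∃ s, d * s ^ 2 = x := by
  have hd : d ≠ 0 := by rintro rfl; simp at h
  refine ⟨√(x * d) / d, ?_⟩
  rw [div_pow, Real.sq_sqrt h.le]; field_simp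

theorem real1 {a b d₂ d₃ A₀ A₁ A₂ : ℝ} (ha : a ≠ 0) (hab : a ≠ b) (h0 : 0 < A₀) (h1 : 0 < A₁)
    (e : a * A₁ - b * A₂ = (a - b) * A₀) (h2 : 0 < d₂) (h3 : d₃ < 0)
    (h : Cover (a * A₁) (b * A₂) d₂ d₃) : Cover a b d₂ d₃ := by
  obtain ⟨z₀, z₂, z₃, t, hne, e2, e3⟩ := h
  have p0 : 0 ≤ d₂ * -d₃ * z₀ ^ 2 := by have := neg_pos.2 h3; positivity
  have p2 : 0 ≤ d₂ * z₂ ^ 2 := by positivity
  have p3 : 0 ≤ -d₃ * z₃ ^ 2 := by have := neg_pos.2 h3; positivity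
  have ht : t ≠ 0 := by
    rintro rfl
    have q0 : d₂ * d₃ * z₀ ^ 2 = 0 := by linarith
    have q2 : d₂ * z₂ ^ 2 = 0 := by linarith
    have q3 : d₃ * z₃ ^ 2 = 0 := by linarith
    exact hne ⟨by simpa [h2.ne', h3.ne] using q0, by simpa [h2.ne'] using q2,
      by simpa [h3.ne] using q3, rfl⟩
  have h4 : a < 0 := lt_of_le_of_ne (le_of_not_gt fun h => by
    have : 0 < a * A₁ * t ^ 2 := by positivity
    linarith) ha
  have h5 : a - b < 0 := lt_of_le_of_ne (le_of_not_gt fun h => by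
    have : 0 < (a - b) * A₀ * t ^ 2 := by positivity
    rw [← e] at this
    linarith) (sub_ne_zero.2 hab)
  obtain ⟨s, hs⟩ := rsq (mul_pos_of_neg_of_neg h4 (mul_neg_of_pos_of_neg h2 h3))
  obtain ⟨r, hr⟩ := rsq (mul_pos_of_neg_of_neg h5 h3)
  exact ⟨s, 0, r, 1, fun h => one_ne_zero h.2.2.2, by linear_combination hs,
    by linear_combination hs - hr⟩

theorem real {a b d₂ d₃ A₀ A₁ A₂ : ℝ} (ha : a ≠ 0) (hb : b ≠ 0) (hab : a ≠ b) (h0 : 0 < A₀)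
    (h1 : 0 < A₁) (h1' : 0 < A₂) (e : a * A₁ - b * A₂ = (a - b) * A₀) (h2 : d₂ ≠ 0) (h3 : d₃ ≠ 0)
    (h : Cover (a * A₁) (b * A₂) d₂ d₃) : Cover a b d₂ d₃ := by
  rcases h2.lt_or_gt with h2 | h2 <;> rcases h3.lt_or_gt with h3 | h3
  · obtain ⟨z₀, z₂, z₃, t, hne, e2, e3⟩ := h
    have p0 : 0 ≤ -d₂ * -d₃ * z₀ ^ 2 := by
      have := neg_pos.2 h3; have := neg_pos.2 h2; positivity
    have p2 : 0 ≤ -d₂ * z₂ ^ 2 := by have := neg_pos.2 h2; positivity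
    have p3 : 0 ≤ -d₃ * z₃ ^ 2 := by have := neg_pos.2 h3; positivity
    have ht : t ≠ 0 := by
      rintro rfl
      have q0 : d₂ * d₃ * z₀ ^ 2 = 0 := by linarith
      have q2 : d₂ * z₂ ^ 2 = 0 := by linarith
      have q3 : d₃ * z₃ ^ 2 = 0 := by linarith
      exact hne ⟨by simpa [h2.ne, h3.ne] using q0, by simpa [h2.ne] using q2,
        by simpa [h3.ne] using q3, rfl⟩
    have h4 : -a < 0 := lt_of_le_of_ne (le_of_not_gt fun h => by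
      have : 0 < -a * A₁ * t ^ 2 := by positivity
      linarith) (neg_ne_zero.2 ha)
    have h5 : -b < 0 := lt_of_le_of_ne (le_of_not_gt fun h => by
      have : 0 < -b * A₂ * t ^ 2 := by positivity
      linarith) (neg_ne_zero.2 hb)
    obtain ⟨s, hs⟩ := rsq (mul_pos_of_neg_of_neg h4 h2)
    obtain ⟨r, hr⟩ := rsq (mul_pos_of_neg_of_neg h5 h3)
    exact ⟨0, s, r, 1, fun h => one_ne_zero h.2.2.2, by linear_combination -hs,
      by linear_combination -hr⟩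
  · exact swap (real1 hb hab.symm h0 h1' (by linear_combination -e) h3 h2 (swap h))
  · exact real1 ha hab h0 h1 e h2 h3 h
  · exact ⟨1, √d₃, √d₂, 0, fun h => one_ne_zero h.1, by rw [Real.sq_sqrt h3.le]; ring,
      by rw [Real.sq_sqrt h2.le]; ring⟩

end Cst

theorem const : CONSTStmt := by
  intro N a b d₂ d₃ A hN ha hb hab hsq hA e h2 h3 h
  have hpos : ∀ i, (0 : ℝ) < A i := fun i => by
    refine Nat.cast_pos.2 (Nat.pos_of_ne_zero fun h0 => ?_)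
    have := (hA i).symm
    rw [h0, Nat.modEq_zero_iff_dvd] at this
    have := Nat.le_of_dvd one_pos this
    omega
  refine ⟨Cst.real (by exact_mod_cast ha) (by exact_mod_cast hb) (by exact_mod_cast hab) (hpos 0)
    (hpos 1) (hpos 2) (by exact_mod_cast e) (by exact_mod_cast h2) (by exact_mod_cast h3)
    (by exact_mod_cast h.1), fun p hp hpN => ?_⟩
  have key : ∀ (x : ℤ) (i : Fin 3), ‖((x * A i : ℤ) : ℚ_[p]) - x‖ ≤
      ‖((128 * N : ℤ) : ℚ_[p])‖ * ‖(x : ℚ_[p])‖ := fun x i => by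
    obtain ⟨c, hc⟩ := (hA i).symm.dvd
    have : ((x * A i : ℤ) : ℚ_[p]) - x = (c : ℤ) * (((128 * N : ℤ) : ℚ_[p]) * x) := by
      have : x * A i - x = c * (128 * N * x) := by push_cast at hc; linear_combination x * hc
      exact_mod_cast this
    rw [this, norm_mul, norm_mul]
    exact mul_le_of_le_one_left (by positivity) (Padic.norm_int_le_one c)
  refine Cst.padic (by exact_mod_cast ha) (by exact_mod_cast hb) (Padic.norm_int_le_one a)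
    (Padic.norm_int_le_one b) (key a 1) (key b 2) (norm_nonneg _) ?_ (h.2 p hpN)
  have h4 : ‖((N : ℤ) : ℚ_[p])‖ < ‖((a - b : ℤ) : ℚ_[p])‖ := by
    rcases (Padic.norm_int_le_one (p := p) (a - b)).eq_or_lt with h | h
    · rw [h]; exact Padic.norm_intCast_lt_one_iff.2 (Int.natCast_dvd_natCast.2 hpN)
    · obtain ⟨c, hc⟩ := hsq
      have h0 : 0 < ‖((a - b : ℤ) : ℚ_[p])‖ :=
        norm_pos_iff.2 (Int.cast_ne_zero.2 (sub_ne_zero.2 hab))
      rw [hc, Int.cast_mul, Int.cast_pow, norm_mul, norm_pow]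
      exact (mul_le_of_le_one_right (sq_nonneg _) (Padic.norm_int_le_one c)).trans_lt
        (by rw [sq]; exact mul_lt_of_lt_one_left h0 h)
  have h5 : ((128 * N : ℤ) : ℚ_[p]) = (8 : ℤ) * (4 ^ 2 * ((N : ℤ) : ℚ_[p])) := by push_cast; ring
  rw [h5, norm_mul, norm_mul, norm_pow, ← Int.cast_sub]
  exact (mul_le_of_le_one_left (by positivity) (Padic.norm_int_le_one 8)).trans_lt
    (mul_lt_mul_of_pos_left h4 (pow_pos (norm_pos_iff.2 (by norm_num)) 2))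

end Pool.Agent.MP_a43263_nt.RH
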