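import Pool.Agent.MP_a43263_nt.RH.Spec

/-! PROJECT RANKG, THEOREM G: the frame at the bad places. -/

set_option autoImplicit false

namespace Pool.Agent.MP_a43263_nt.RH

namespace Frm

open Finset RG

abbrev T : Type := (ℤ × ℤ) × ℤ × ℕ

def Sm2 (N : ℕ) (u : ℤ × ℤ) : Prop := Smooth N u.1 ∧ Smooth N u.2

def Cp (N : ℕ) (m : ℤ × ℕ) : Prop := m.2.Coprime N ∧ m.1 % 4 = 1 ∧ m.1.natAbs.Coprime N

def W (N : ℕ) (a b : ℤ) (w : T) : Prop :=
  Sm2 N w.1 ∧ Cp N w.2 ∧ SolS N a b (w.1.1 * w.2.2) (w.1.2 * w.2.1)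

def P (u : ℤ × ℤ) (m : ℤ × ℕ) : ℤ := jacobiSym u.1 m.1.natAbs * jacobiSym u.2 m.2

def Sq (u : ℤ × ℤ) : Prop := IsSquare u.1 ∧ IsSquare u.2

variable {N : ℕ} {a b : ℤ}

theorem sm_one : Smooth N 1 := ⟨one_ne_zero, fun _ hp h =>
  absurd (Int.natCast_dvd_natCast.1 h) hp.not_dvd_one⟩

theorem sm_mul {x y : ℤ} (h : Smooth N x) (k : Smooth N y) : Smooth N (x * y) :=
  ⟨mul_ne_zero h.1 k.1, fun p hp e =>
    ((Nat.prime_iff_prime_int.1 hp).dvd_or_dvd e).elim (h.2 p hp) (k.2 p hp)⟩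

theorem Sm2.mul {x y : ℤ × ℤ} (h : Sm2 N x) (k : Sm2 N y) : Sm2 N (x * y) :=
  ⟨sm_mul h.1 k.1, sm_mul h.2 k.2⟩

theorem Cp.mul {x y : ℤ × ℕ} (h : Cp N x) (k : Cp N y) : Cp N (x * y) :=
  ⟨Nat.Coprime.mul_left h.1 k.1, by rw [Prod.fst_mul, Int.mul_emod, h.2.1, k.2.1]; rfl,
    by rw [Prod.fst_mul, Int.natAbs_mul]; exact Nat.Coprime.mul_left h.2.2 k.2.2⟩

theorem Cp.ne (h2 : 2 ∣ N) {x : ℤ × ℕ} (h : Cp N x) : x.1 ≠ 0 ∧ x.2 ≠ 0 := by
  refine ⟨fun e => ?_, fun e => ?_⟩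
  · have := h.2.1
    omega
  · have := h.1
    rw [e, Nat.coprime_zero_left] at this
    omega

theorem jac_pm {u : ℤ} {m : ℕ} (h : Smooth N u) (k : m.Coprime N) :
    jacobiSym u m = 1 ∨ jacobiSym u m = -1 := by
  apply jacobiSym.eq_one_or_neg_one
  rw [Int.gcd_eq_natAbs, Int.natAbs_natCast]
  refine Nat.eq_one_iff_not_exists_prime_dvd.2 fun p hp e => ?_
  have a1 := h.2 p hp (Int.natCast_dvd.2 (e.trans (Nat.gcd_dvd_left _ _)))
  have a2 := e.trans (Nat.gcd_dvd_right _ _)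
  exact hp.not_dvd_one (k ▸ Nat.dvd_gcd a2 a1)

theorem P_pm {u : ℤ × ℤ} {m : ℤ × ℕ} (h : Sm2 N u) (k : Cp N m) : P u m = 1 ∨ P u m = -1 := by
  unfold P
  rcases jac_pm h.1 k.2.2 with e | e <;> rcases jac_pm h.2 k.1 with f | f <;> simp [e, f]

theorem P_left (u v : ℤ × ℤ) (m : ℤ × ℕ) : P (u * v) m = P u m * P v m := by
  simp only [P, Prod.fst_mul, Prod.snd_mul, jacobiSym.mul_left]
  ring

theorem P_right (h2 : 2 ∣ N) (u : ℤ × ℤ) {m m' : ℤ × ℕ} (h : Cp N m) (k : Cp N m') :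
    P u (m * m') = P u m * P u m' := by
  simp only [P, Prod.fst_mul, Prod.snd_mul, Int.natAbs_mul]
  rw [jacobiSym.mul_right' _ (Int.natAbs_ne_zero.2 (h.ne h2).1) (Int.natAbs_ne_zero.2 (k.ne h2).1),
    jacobiSym.mul_right' _ (h.ne h2).2 (k.ne h2).2]
  ring

theorem jac_sq {u : ℤ} {m : ℕ} (h : Smooth N u) (k : m.Coprime N) (s : IsSquare u) :
    jacobiSym u m = 1 := by
  obtain ⟨r, rfl⟩ := s
  have := jac_pm h k
  rw [jacobiSym.mul_left] at this ⊢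
  exact this.resolve_right fun e => by nlinarith [mul_self_nonneg (jacobiSym r m)]

theorem P_sq {u : ℤ × ℤ} {m : ℤ × ℕ} (h : Sm2 N u) (k : Cp N m) (s : Sq u) : P u m = 1 := by
  rw [P, jac_sq h.1 k.2.2 s.1, jac_sq h.2 k.1 s.2, one_mul]

theorem eq_of {x y : ℤ} (hx : x = 1 ∨ x = -1) (h : x * y = 1) : x = y := by
  rcases hx with rfl | rfl <;> omega

theorem cp_one : Cp N 1 := ⟨by simp, rfl, by simp⟩

theorem cp_prod {ι : Type} (x : Finset ι) {m : ι → ℤ × ℕ} (h : ∀ i, Cp N (m i)) :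
    Cp N (∏ i ∈ x, m i) :=
  prod_induction _ _ (fun _ _ => Cp.mul) cp_one fun i _ => h i

theorem sm_prod {ι : Type} (x : Finset ι) {m : ι → ℤ × ℤ} (h : ∀ i, Sm2 N (m i)) :
    Sm2 N (∏ i ∈ x, m i) :=
  prod_induction _ _ (fun _ _ => Sm2.mul) ⟨sm_one, sm_one⟩ fun i _ => h i

theorem P_prod_left {ι : Type} (x : Finset ι) (u : ι → ℤ × ℤ) (m : ℤ × ℕ) :
    P (∏ i ∈ x, u i) m = ∏ i ∈ x, P (u i) m := by
  classical
  induction x using Finset.induction_on with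
  | empty => simp [P]
  | insert i x hi ih => rw [prod_insert hi, prod_insert hi, P_left, ih]

theorem P_prod_right (h2 : 2 ∣ N) {ι : Type} (x : Finset ι) (u : ℤ × ℤ) {m : ι → ℤ × ℕ}
    (h : ∀ i, Cp N (m i)) : P u (∏ i ∈ x, m i) = ∏ i ∈ x, P u (m i) := by
  classical
  induction x using Finset.induction_on with
  | empty => simp [P]
  | insert i x hi ih => rw [prod_insert hi, prod_insert hi, P_right h2 _ (h i) (cp_prod x h), ih]

theorem W_one : W N a b 1 := by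
  refine ⟨⟨sm_one, sm_one⟩, cp_one, ⟨1, 1, 1, 0, by simp, by simp, by simp⟩, fun p _ _ =>
    ⟨1, 1, 1, 0, by simp, by simp, by simp⟩⟩

theorem W.mul (grp : GRPStmt) (h2 : 2 ∣ N) (ha : a ≠ 0) (hb : b ≠ 0) (hd : Smooth N (a - b))
    {w w' : T} (h : W N a b w) (k : W N a b w') : W N a b (w * w') := by
  have key : ∀ (K : Type) [Field K] [CharZero K],
      Cover (a : K) b (w.1.1 * w.2.2 : ℤ) (w.1.2 * w.2.1 : ℤ) →
      Cover (a : K) b (w'.1.1 * w'.2.2 : ℤ) (w'.1.2 * w'.2.1 : ℤ) →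
      Cover (a : K) b ((w * w').1.1 * (w * w').2.2 : ℤ) ((w * w').1.2 * (w * w').2.1 : ℤ) := by
    intro K _ _ p q
    have := grp K _ _ _ _ _ _ (Int.cast_ne_zero.2 ha) (Int.cast_ne_zero.2 hb)
      (fun e => hd.1 (sub_eq_zero.2 (Int.cast_injective e)))
      (Int.cast_ne_zero.2 (mul_ne_zero h.1.1.1 (Int.natCast_ne_zero.2 (h.2.1.ne h2).2)))
      (Int.cast_ne_zero.2 (mul_ne_zero h.1.2.1 (h.2.1.ne h2).1))
      (Int.cast_ne_zero.2 (mul_ne_zero k.1.1.1 (Int.natCast_ne_zero.2 (k.2.1.ne h2).2)))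
      (Int.cast_ne_zero.2 (mul_ne_zero k.1.2.1 (k.2.1.ne h2).1)) p q
    rw [← Int.cast_mul, ← Int.cast_mul, mul_mul_mul_comm, mul_mul_mul_comm w.1.2,
      ← Nat.cast_mul] at this
    exact this
  exact ⟨h.1.mul k.1, h.2.1.mul k.2.1, key ℝ h.2.2.1 k.2.2.1, fun p _ hp =>
    key _ (h.2.2.2 p hp) (k.2.2.2 p hp)⟩

theorem sm_kap (hd : Smooth N (a - b)) : Sm2 N (b - a, a - b) :=
  ⟨⟨fun e => hd.1 (by linarith), fun p hp e => hd.2 p hp (dvd_sub_comm.1 e)⟩, hd⟩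

theorem qs (rec : RECStmt) (hN : 0 < N) (h2 : 2 ∣ N) (hd : Smooth N (a - b)) {w : T}
    (h : W N a b w) : P w.1 w.2 = P (b - a, a - b) w.2 := by
  have key : ∀ (K : Type) [Field K] [CharZero K],
      Cover (a : K) b (w.1.1 * w.2.2 : ℤ) (w.1.2 * w.2.1 : ℤ) →
      Conic (((b - a) * w.1.1 * w.2.2 : ℤ) : K) ((a - b) * w.1.2 * w.2.1 : ℤ) := by
    rintro K _ _ ⟨z0, z2, z3, t, hz, e1, e2⟩
    have n2 : ((w.1.1 * w.2.2 : ℤ) : K) ≠ 0 :=
      Int.cast_ne_zero.2 (mul_ne_zero h.1.1.1 (Int.natCast_ne_zero.2 (h.2.1.ne h2).2))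
    have n3 : ((w.1.2 * w.2.1 : ℤ) : K) ≠ 0 :=
      Int.cast_ne_zero.2 (mul_ne_zero h.1.2.1 (h.2.1.ne h2).1)
    have nd : ((a - b : ℤ) : K) ≠ 0 := Int.cast_ne_zero.2 hd.1
    refine ⟨z2, z3, ((a - b : ℤ) : K) * t, ?_, ?_⟩
    · rintro ⟨rfl, rfl, e⟩
      obtain rfl : t = 0 := (mul_eq_zero.1 e).resolve_left nd
      refine hz ⟨?_, rfl, rfl, rfl⟩
      have : ((w.1.1 * w.2.2 : ℤ) : K) * (w.1.2 * w.2.1 : ℤ) * z0 ^ 2 = 0 := by
        linear_combination e1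
      exact pow_eq_zero_iff two_ne_zero |>.1 ((mul_eq_zero.1 this).resolve_left (mul_ne_zero n2 n3))
    · push_cast at e1 e2 ⊢
      linear_combination ((a : K) - b) * (e1 - e2)
  have := rec N w.2.2 _ _ w.2.1 hN h2 (sm_mul (sm_kap hd).1 h.1.1) (sm_mul hd h.1.2) h.2.1.1
    h.2.1.2.1 h.2.1.2.2 (key ℝ h.2.2.1) fun p _ hp => key _ (h.2.2.2 p hp)
  refine eq_of (P_pm h.1 h.2.1) ?_
  rw [← P_left, mul_comm]
  exact this

theorem pol (rec : RECStmt) (grp : GRPStmt) (hN : 0 < N) (h2 : 2 ∣ N) (ha : a ≠ 0) (hb : b ≠ 0)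
    (hd : Smooth N (a - b)) {w w' : T} (h : W N a b w) (k : W N a b w') :
    P w.1 w'.2 = P w'.1 w.2 := by
  have e := qs rec hN h2 hd (h.mul grp h2 ha hb hd k)
  rw [Prod.fst_mul, Prod.snd_mul, P_left, P_right h2 _ h.2.1 k.2.1, P_right h2 _ h.2.1 k.2.1,
    P_right h2 _ h.2.1 k.2.1, ← qs rec hN h2 hd h, ← qs rec hN h2 hd k] at e
  refine eq_of (P_pm h.1 k.2.1) ?_
  rcases P_pm h.1 h.2.1 with p | p <;> rcases P_pm k.1 k.2.1 with q | q <;> rw [p, q] at e <;>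
    linarith

def Ind (j : ℕ) (G : ℕ → ℤ × ℤ) : Prop := ∀ x ⊆ range j, Sq (∏ i ∈ x, G i) → x = ∅

theorem Ind.congr {j : ℕ} {G G' : ℕ → ℤ × ℤ} (h : Ind j G) (e : ∀ i < j, G' i = G i) : Ind j G' :=
  fun x hx s => h x hx (by rwa [← prod_congr rfl fun i hi => e i (mem_range.1 (hx hi))])

theorem Ind.succ {j : ℕ} {G : ℕ → ℤ × ℤ} (h : Ind j G)
    (hn : ¬∃ x ⊆ range j, Sq (G j * ∏ i ∈ x, G i)) : Ind (j + 1) G := by
  intro x hx s
  have hs : x.erase j ⊆ range j := fun i hi => by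
    have := mem_range.1 (hx (mem_of_mem_erase hi))
    have := ne_of_mem_erase hi
    exact mem_range.2 (by omega)
  by_cases hj : j ∈ x
  · exact absurd ⟨_, hs, by rwa [mul_prod_erase _ _ hj]⟩ hn
  · exact h x (by rwa [erase_eq_of_notMem hj] at hs) s

theorem core (hN : 0 < N) {z : ℤ} (h : Smooth N z) :
    ∃ g ∈ Icc (-N : ℤ) N, ∃ s : ℤ, z = g * s ^ 2 := by
  obtain ⟨g, s, e, hg⟩ := Nat.sq_mul_squarefree z.natAbs
  have hd : g ∣ N := by
    rw [← Nat.prod_primeFactors_of_squarefree hg]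
    refine (prod_dvd_prod_of_subset _ _ _ fun p hp => ?_).trans (Nat.prod_primeFactors_dvd N)
    have hp' := Nat.prime_of_mem_primeFactors hp
    exact Nat.mem_primeFactors.2 ⟨hp', h.2 p hp' (Int.natCast_dvd.2
      (e ▸ (Nat.dvd_of_mem_primeFactors hp).mul_left _)), hN.ne'⟩
  have hl := Nat.le_of_dvd hN hd
  have e' : ((s : ℤ) ^ 2 * g) = |z| := by rw [← Int.natCast_natAbs, ← e]; push_cast; ring
  rcases abs_cases z with c | c
  · exact ⟨g, mem_Icc.2 ⟨by omega, by omega⟩, s, by linarith [c.1]⟩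
  · exact ⟨-g, mem_Icc.2 ⟨by omega, by omega⟩, s, by linarith [c.1]⟩

theorem sq_cancel {x s : ℤ} (hs : s ≠ 0) (h : IsSquare (x * s ^ 2)) : IsSquare x := by
  rw [← Rat.isSquare_intCast_iff] at h ⊢
  obtain ⟨r, hr⟩ := h
  have : (s : ℚ) ≠ 0 := Int.cast_ne_zero.2 hs
  exact ⟨r / s, by push_cast at hr; field_simp; linear_combination hr⟩

theorem Ind.bound (hN : 0 < N) {j : ℕ} {G : ℕ → ℤ × ℤ} (h : Ind j G) (hs : ∀ i, Sm2 N (G i)) :
    j ≤ (Icc (-N : ℤ) N ×ˢ Icc (-N : ℤ) N).card := by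
  choose g1 a1 s1 e1 using fun x : Finset ℕ => core hN (sm_prod x hs).1
  choose g2 a2 s2 e2 using fun x : Finset ℕ => core hN (sm_prod x hs).2
  refine (Nat.lt_two_pow_self (n := j)).le.trans ?_
  rw [← card_range j, ← card_powerset]
  refine card_le_card_of_injOn (fun x => (g1 x, g2 x)) 
    (fun x _ => mem_coe.2 (mem_product.2 ⟨a1 x, a2 x⟩)) fun x hx y hy e => ?_
  have hx' := mem_powerset.1 (mem_coe.1 hx)
  have hy' := mem_powerset.1 (mem_coe.1 hy)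
  have pr : (∏ i ∈ x, G i) * ∏ i ∈ y, G i =
      (∏ i ∈ symmDiff x y, G i) * (∏ i ∈ x ∩ y, G i) ^ 2 := by
    rw [symmDiff_def, sup_eq_union, prod_union disjoint_sdiff_sdiff,
      ← prod_inter_mul_prod_sdiff x y, ← prod_inter_mul_prod_sdiff y x, inter_comm y x, sq]
    ac_rfl
  obtain ⟨f1, f2⟩ := Prod.mk.inj e
  refine symmDiff_eq_bot.1 (h _ (symmDiff_le_sup.trans (sup_le hx' hy'))
    ⟨sq_cancel (sm_prod (x ∩ y) hs).1.1 ?_, sq_cancel (sm_prod (x ∩ y) hs).2.1 ?_⟩)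
  · have := congrArg Prod.fst pr
    rw [Prod.fst_mul, Prod.fst_mul, Prod.pow_fst] at this
    rw [← this, e1 x, e1 y, f1]
    exact ⟨g1 y * s1 x * s1 y, by ring⟩
  · have := congrArg Prod.snd pr
    rw [Prod.snd_mul, Prod.snd_mul, Prod.pow_snd] at this
    rw [← this, e2 x, e2 y, f2]
    exact ⟨g2 y * s2 x * s2 y, by ring⟩

theorem basis (hN : 0 < N) : ∃ (j : ℕ) (t : ℕ → T), (∀ i, W N a b (t i)) ∧
    Ind j (fun i => (t i).1) ∧
    ∀ w, W N a b w → ∃ x ⊆ range j, Sq (w.1 * ∏ i ∈ x, (t i).1) := by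
  by_contra hn
  have key : ∀ j, ∃ t : ℕ → T, (∀ i, W N a b (t i)) ∧ Ind j fun i => (t i).1 := by
    intro j
    induction j with
    | zero => exact ⟨fun _ => 1, fun _ => W_one, fun x hx _ => by simpa using hx⟩
    | succ j ih =>
      obtain ⟨t, h1, h2⟩ := ih
      by_contra hc
      refine hn ⟨j, t, h1, h2, fun w hw => ?_⟩
      by_contra hx
      have e : ∀ i < j, (Function.update t j w i).1 = (t i).1 := fun i hi => by
        rw [Function.update_of_ne hi.ne]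
      refine hc ⟨Function.update t j w, fun i => ?_, (h2.congr e).succ ?_⟩
      · by_cases c : i = j
        · rwa [c, Function.update_self]
        · rw [Function.update_of_ne c]
          exact h1 i
      · rintro ⟨x, p, q⟩
        refine hx ⟨x, p, ?_⟩
        rwa [Function.update_self, prod_congr rfl fun i hi => e i (mem_range.1 (p hi))] at q
  obtain ⟨t, h1, h2⟩ := key ((Icc (-N : ℤ) N ×ˢ Icc (-N : ℤ) N).card + 1)
  have := h2.bound hN fun i => (h1 i).1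
  omega

end Frm

open Finset Frm in
theorem frame : RECStmt → GRPStmt → FRAMEStmt := by
  intro rec grp N a b hN h2 ha hb hd
  obtain ⟨j, t, ht, hi, hm⟩ := basis (a := a) (b := b) hN
  let κ : ℤ × ℤ := (b - a, a - b)
  have hκ : Sm2 N κ := sm_kap hd
  let G : ℕ → ℤ × ℤ := fun i => if i < j then (t i).1 else κ
  let τ : ℕ → ℕ → ℤ := fun i i' =>
    if i < j then P (G i') (t i).2 else if i' < j then P κ (t i').2 else 1
  have hG : ∀ i, Sm2 N (G i) := fun i => by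
    simp only [G]
    split_ifs
    exacts [(ht i).1, hκ]
  have eG : ∀ i < j, G i = (t i).1 := fun i hi => if_pos hi
  have pG : ∀ x ⊆ range j, ∏ i ∈ x, G i = ∏ i ∈ x, (t i).1 := fun x hx =>
    prod_congr rfl fun i hi => eG i (mem_range.1 (hx hi))
  have sg : R2.Sgn τ := by
    refine ⟨fun i i' => ?_, fun i i' => ?_⟩
    · by_cases p : i < j <;> by_cases q : i' < j <;> simp only [τ, G, p, q, if_true, if_false]
      exact pol rec grp hN h2 ha hb hd (ht i') (ht i)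
    · simp only [τ]
      split_ifs
      exacts [P_pm (hG _) (ht _).2.1, P_pm hκ (ht _).2.1, .inl rfl]
  have dia : ∀ i < j, τ i i = P κ (t i).2 := fun i hi => by
    simp only [τ, G, hi, if_true]
    exact qs rec hN h2 hd (ht i)
  have loc : ∀ k, j ≤ k → ∀ (u₂ u₃ m₃ : ℤ) (m₂ : ℕ), Smooth N u₂ → Smooth N u₃ → m₂.Coprime N →
      m₃ % 4 = 1 → m₃.natAbs.Coprime N → SolS N a b (u₂ * m₂) (u₃ * m₃) →
      ∃ x ⊆ range k, IsSquare (u₂ * ∏ i ∈ x, (G i).1) ∧ IsSquare (u₃ * ∏ i ∈ x, (G i).2) ∧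
        ∀ i < k, ∏ s ∈ x, τ s i = jacobiSym (G i).1 m₃.natAbs * jacobiSym (G i).2 m₂ := by
    intro k hk u₂ u₃ m₃ m₂ c1 c2 c3 c4 c5 c6
    have hw : W N a b ((u₂, u₃), m₃, m₂) := ⟨⟨c1, c2⟩, ⟨c3, c4, c5⟩, c6⟩
    obtain ⟨x, hx, s⟩ := hm _ hw
    have hp : W N a b (∏ i ∈ x, t i) :=
      prod_induction _ _ (fun _ _ => W.mul grp h2 ha hb hd) W_one fun i _ => ht i
    have hw' := hw.mul grp h2 ha hb hd hp
    have s' : Sq ((((u₂, u₃), m₃, m₂) : T) * ∏ i ∈ x, t i).1 := by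
      rwa [Prod.fst_mul, Prod.fst_prod]
    rw [← pG x hx] at s
    refine ⟨x, hx.trans (range_mono hk), by simpa [Prod.fst_prod] using s.1,
      by simpa [Prod.snd_prod] using s.2, fun i _ => ?_⟩
    have e1 : ∏ s ∈ x, τ s i = P (G i) (∏ s ∈ x, t s).2 := by
      rw [Prod.snd_prod, P_prod_right h2 x _ fun s => (ht s).2.1]
      exact prod_congr rfl fun s hs => if_pos (mem_range.1 (hx hs))
    have e2 : P (G i) ((((u₂, u₃), m₃, m₂) : T) * ∏ i ∈ x, t i).2 = 1 := by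
      by_cases c : i < j
      · rw [eG i c, pol rec grp hN h2 ha hb hd (ht i) hw']
        exact P_sq hw'.1 (ht i).2.1 s'
      · rw [show G i = κ from if_neg c, ← qs rec hN h2 hd hw']
        exact P_sq hw'.1 hw'.2.1 s'
    rw [Prod.snd_mul, P_right h2 _ hw.2.1 hp.2.1] at e2
    rw [e1]
    exact (eq_of (P_pm (hG i) hw.2.1) e2).symm
  have ind : ∀ k, Ind k G → ∀ x ⊆ range k, IsSquare (∏ i ∈ x, (G i).1) →
      IsSquare (∏ i ∈ x, (G i).2) → x = ∅ := fun k h x hx p q =>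
    h x hx ⟨by rwa [Prod.fst_prod], by rwa [Prod.snd_prod]⟩
  have eκ : G j = κ := if_neg (lt_irrefl j)
  by_cases hc : ∃ x ⊆ range j, Sq (G j * ∏ i ∈ x, G i)
  · obtain ⟨x, hx, s⟩ := hc
    rw [eκ] at s
    refine ⟨⟨j, fun i => (G i).1, fun i => (G i).2, τ, x⟩, sg, hG, ind j (hi.congr eG), hx,
      by simpa [Prod.fst_prod] using s.1, by simpa [Prod.snd_prod] using s.2, fun i hi => ?_,
      loc j le_rfl⟩
    have e1 : ∏ s ∈ x, τ s i = P (∏ s ∈ x, G s) (t i).2 := by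
      rw [P_prod_left]
      exact prod_congr rfl fun s _ => (sg.1 s i).trans (if_pos hi)
    have e2 := P_sq (hκ.mul (sm_prod x hG)) (ht i).2.1 s
    rw [P_left] at e2
    exact ((dia i hi).trans (eq_of (P_pm hκ (ht i).2.1) e2)).trans e1.symm
  · refine ⟨⟨j + 1, fun i => (G i).1, fun i => (G i).2, τ, {j}⟩, sg, hG,
      ind _ ((hi.congr eG).succ hc), by simp, ?_, ?_, fun i hi => ?_, loc _ (Nat.le_succ j)⟩
    · simp only [prod_singleton, eκ]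
      exact ⟨_, rfl⟩
    · simp only [prod_singleton, eκ]
      exact ⟨_, rfl⟩
    · simp only [prod_singleton]
      rcases Nat.lt_succ_iff_lt_or_eq.1 hi with c | rfl
      · rw [dia i c]
        simp only [τ, lt_irrefl, c, if_true, if_false]
      · rfl

end Pool.Agent.MP_a43263_nt.RH
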