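import Pool.Agent.MP_a43263_nt.RH.Spec

/-! The product formula for the Hilbert symbols at the bad places. -/

set_option autoImplicit false

noncomputable section

namespace Pool.Agent.MP_a43263_nt.RH

open Finset

namespace PfAux

theorem up_spec (p : ℕ) [Fact p.Prime] (x : ℤ) : x = (p : ℤ) ^ padicValInt p x * up p x :=
  (Int.mul_ediv_cancel' (padicValInt_dvd x)).symm

theorem up_mul (p : ℕ) [hp : Fact p.Prime] {x y : ℤ} (hx : x ≠ 0) (hy : y ≠ 0) :
    up p (x * y) = up p x * up p y := by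
  have h0 : (p : ℤ) ^ padicValInt p (x * y) ≠ 0 := pow_ne_zero _ (by exact_mod_cast hp.out.ne_zero)
  refine mul_left_cancel₀ h0 ?_
  rw [← up_spec, padicValInt.mul hx hy, pow_add]
  calc x * y = ((p : ℤ) ^ padicValInt p x * up p x) * ((p : ℤ) ^ padicValInt p y * up p y) := by
        rw [← up_spec, ← up_spec]
    _ = _ := by ring

theorem up_ndvd (p : ℕ) [hp : Fact p.Prime] {x : ℤ} (hx : x ≠ 0) : ¬(p : ℤ) ∣ up p x := by
  intro h
  have h1 : (p : ℤ) ^ (padicValInt p x + 1) ∣ x := by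
    rw [pow_succ]
    conv_rhs => rw [up_spec p x]
    exact mul_dvd_mul_left _ h
  have := (padicValInt_dvd_iff _ x).1 h1
  omega

theorem val0 {p : ℕ} {x : ℤ} (h : ¬(p : ℤ) ∣ x) : padicValInt p x = 0 :=
  padicValInt.eq_zero_of_not_dvd h

theorem up0 {p : ℕ} {x : ℤ} (h : ¬(p : ℤ) ∣ x) : up p x = x := by
  simp [up, val0 h]

theorem val1 {p : ℕ} (hp : p.Prime) : padicValInt p p = 1 := padicValInt.self hp.one_lt

theorem up1 {p : ℕ} (hp : p.Prime) : up p p = 1 := by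
  rw [up, val1 hp, pow_one]
  exact Int.ediv_self (by exact_mod_cast hp.ne_zero)

theorem hs_comm (p : ℕ) (x y : ℤ) : hs p x y = hs p y x := by
  unfold hs
  split_ifs with h h1 h2 h2
  · ring
  · exact absurd h1.symm h2
  · exact absurd h2.symm h1
  · ring
  · rw [mul_comm (padicValInt p x)]; ring

theorem hs_mul {p : ℕ} (hp : p.Prime) (x : ℤ) {y z : ℤ} (hy : y ≠ 0) (hz : z ≠ 0) :
    hs p x (y * z) = hs p x y * hs p x z := by
  have := Fact.mk hp
  unfold hs
  by_cases h : p = 2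
  · subst h
    have a1 : up 2 y % 2 = 1 := by have := up_ndvd 2 hy; push_cast at this; omega
    have a2 : up 2 z % 2 = 1 := by have := up_ndvd 2 hz; push_cast at this; omega
    have b1 : (up 2 y).natAbs ≠ 0 := by omega
    have b2 : (up 2 z).natAbs ≠ 0 := by omega
    have s : (if up 2 x % 4 = 3 ∧ up 2 y * up 2 z % 4 = 3 then (-1 : ℤ) else 1) =
        (if up 2 x % 4 = 3 ∧ up 2 y % 4 = 3 then -1 else 1) *
          (if up 2 x % 4 = 3 ∧ up 2 z % 4 = 3 then -1 else 1) := by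
      rw [Int.mul_emod]
      have c1 : up 2 y % 4 = 1 ∨ up 2 y % 4 = 3 := by omega
      have c2 : up 2 z % 4 = 1 ∨ up 2 z % 4 = 3 := by omega
      by_cases c : up 2 x % 4 = 3 <;> rcases c1 with c1 | c1 <;> rcases c2 with c2 | c2 <;>
        simp [c, c1, c2]
    simp only [if_true]
    rw [up_mul 2 hy hz, padicValInt.mul hy hz, s, Int.natAbs_mul, jacobiSym.mul_right' _ b1 b2,
      pow_add, mul_pow]
    ring
  · simp only [h, if_false]
    rw [up_mul p hy hz, padicValInt.mul hy hz, jacobiSym.mul_left, mul_add, pow_add, pow_add,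
      mul_pow]
    ring

theorem hs_unit {p : ℕ} (h : p ≠ 2) {x y : ℤ} (hx : ¬(p : ℤ) ∣ x) (hy : ¬(p : ℤ) ∣ y) :
    hs p x y = 1 := by
  simp [hs, h, val0 hx, val0 hy]

theorem hs2_odd {x y : ℤ} (hx : x % 2 = 1) (hy : y % 2 = 1) :
    hs 2 x y = if x % 4 = 3 ∧ y % 4 = 3 then -1 else 1 := by
  have a : ¬((2 : ℕ) : ℤ) ∣ x := by push_cast; omega
  have b : ¬((2 : ℕ) : ℤ) ∣ y := by push_cast; omega
  simp [hs, val0 a, val0 b, up0 a, up0 b]

theorem hs2_two {y : ℤ} (hy : y % 2 = 1) : hs 2 ((2 : ℕ) : ℤ) y = jacobiSym 2 y.natAbs := by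
  have b : ¬((2 : ℕ) : ℤ) ∣ y := by push_cast; omega
  unfold hs
  rw [val1 Nat.prime_two, up1 Nat.prime_two, val0 b, up0 b]
  simp

theorem hs2_22 : hs 2 ((2 : ℕ) : ℤ) ((2 : ℕ) : ℤ) = 1 := by
  unfold hs
  rw [val1 Nat.prime_two, up1 Nat.prime_two]
  simp

theorem hsq {q : ℕ} (hq : q.Prime) (h : q ≠ 2) {y : ℤ} (hy : ¬(q : ℤ) ∣ y) :
    hs q q y = jacobiSym y q := by
  simp [hs, h, val1 hq, up1 hq, val0 hy, up0 hy]

theorem hsqq {q : ℕ} (hq : q.Prime) (h : q ≠ 2) : hs q q q = jacobiSym (-1) q := by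
  simp [hs, h, val1 hq, up1 hq]

/-- the product of the symbols at the real place and at the primes of `N` -/
def Phi (N : ℕ) (x y : ℤ) : ℤ :=
  (if x < 0 ∧ y < 0 then -1 else 1) * ∏ p ∈ N.primeFactors, hs p x y

theorem Phi_comm (N : ℕ) (x y : ℤ) : Phi N x y = Phi N y x := by
  simp only [Phi, hs_comm _ x y, and_comm]

theorem Phi_mul (N : ℕ) {x y z : ℤ} (_hx : x ≠ 0) (hy : y ≠ 0) (hz : z ≠ 0) :
    Phi N x (y * z) = Phi N x y * Phi N x z := by
  unfold Phi
  rw [prod_congr rfl (fun p hp => hs_mul (Nat.prime_of_mem_primeFactors hp) x hy hz),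
    prod_mul_distrib]
  have s : (if x < 0 ∧ y * z < 0 then (-1 : ℤ) else 1) =
      (if x < 0 ∧ y < 0 then -1 else 1) * (if x < 0 ∧ z < 0 then -1 else 1) := by
    by_cases c : x < 0
    · rcases lt_or_gt_of_ne hy with c1 | c1 <;> rcases lt_or_gt_of_ne hz with c2 | c2
      · simp [c, c1, c2, (mul_pos_of_neg_of_neg c1 c2).not_gt]
      · simp [c, c1, c2.not_gt, mul_neg_of_neg_of_pos c1 c2]
      · simp [c, c1.not_gt, c2, mul_neg_of_pos_of_neg c1 c2]
      · simp [c, c1.not_gt, c2.not_gt, (mul_pos c1 c2).not_gt]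
    · simp [c]
  rw [s]; ring

theorem Phi_mul' (N : ℕ) {x y z : ℤ} (hx : x ≠ 0) (hy : y ≠ 0) (hz : z ≠ 0) :
    Phi N (x * y) z = Phi N x z * Phi N y z := by
  rw [Phi_comm, Phi_mul N hz hx hy, Phi_comm N z, Phi_comm N z]

theorem Phi_eq {N : ℕ} (hN : 0 < N) {x y : ℤ} (S : Finset ℕ) (h2 : 2 ∈ S)
    (hS : ∀ p ∈ S, p.Prime ∧ p ∣ N)
    (h : ∀ p : ℕ, p.Prime → p ∣ N → p ∉ S → ¬(p : ℤ) ∣ x ∧ ¬(p : ℤ) ∣ y) :
    Phi N x y = (if x < 0 ∧ y < 0 then -1 else 1) * ∏ p ∈ S, hs p x y := by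
  unfold Phi
  congr 1
  refine (prod_subset (fun p hp => Nat.mem_primeFactors.2 ⟨(hS p hp).1, (hS p hp).2, hN.ne'⟩)
    (fun p hp hn => ?_)).symm
  have := h p (Nat.prime_of_mem_primeFactors hp) (Nat.dvd_of_mem_primeFactors hp) hn
  exact hs_unit (fun e : p = 2 => hn (by rw [e]; exact h2)) this.1 this.2

theorem smooth_ind (N : ℕ) (P : ℤ → Prop) (h1 : P 1) (hm : P (-1))
    (hp : ∀ q : ℕ, q.Prime → q ∣ N → P q)
    (hmul : ∀ a b, a ≠ 0 → b ≠ 0 → P a → P b → P (a * b)) : ∀ u, Smooth N u → P u := by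
  have key : ∀ k : ℕ, Smooth N k → P k := by
    intro k
    induction k using induction_on_primes with
    | zero => intro h; exact absurd rfl h.1
    | one => intro _; exact h1
    | prime_mul q a hq ih =>
      intro h
      have ha : (a : ℤ) ≠ 0 := fun e => h.1 (by push_cast; rw [e, mul_zero])
      push_cast
      refine hmul _ _ (by exact_mod_cast hq.ne_zero) ha (hp q hq (h.2 q hq (by push_cast; simp)))
        (ih ⟨ha, fun r hr hd => h.2 r hr (by push_cast; exact hd.mul_left _)⟩)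
  intro u hu
  have hk := key u.natAbs ⟨by simpa using hu.1, fun r hr hd => hu.2 r hr (Int.dvd_natAbs.1 hd)⟩
  rcases Int.natAbs_eq u with e | e
  · rwa [e]
  · rw [e, neg_eq_neg_one_mul]
    exact hmul _ _ (by decide) (by simpa using hu.1) hm hk

theorem ndvd_neg_one {p : ℕ} (hp : p.Prime) : ¬(p : ℤ) ∣ -1 := by
  rw [dvd_neg]; exact_mod_cast hp.not_dvd_one

theorem ndvd_prime {p q : ℕ} (hp : p.Prime) (hq : q.Prime) (h : p ≠ q) : ¬(p : ℤ) ∣ q := by
  rw [Int.natCast_dvd_natCast]; exact fun e => h ((Nat.prime_dvd_prime_iff_eq hp hq).1 e)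

theorem Phi_one (N : ℕ) (y : ℤ) : Phi N 1 y = 1 := by
  unfold Phi
  rw [if_neg (by omega), one_mul]
  refine prod_eq_one (fun p hp => ?_)
  have h := Nat.prime_of_mem_primeFactors hp
  have a : ¬(p : ℤ) ∣ 1 := by exact_mod_cast h.not_dvd_one
  unfold hs
  split_ifs with h2 h3
  · subst h2; rw [up0 a] at h3; omega
  · subst h2; rw [up0 a, val0 a]; simp
  · rw [up0 a, val0 a]; simp

theorem jm1 {k : ℕ} (hk : k % 2 = 1) : jacobiSym (-1) k = if k % 4 = 3 then -1 else 1 := by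
  rw [jacobiSym.at_neg_one (Nat.odd_iff.2 hk)]
  split_ifs with h
  · exact ZMod.χ₄_nat_three_mod_four h
  · exact ZMod.χ₄_nat_one_mod_four (by omega)

theorem qr {a b : ℕ} (ha : a % 2 = 1) (hb : b % 2 = 1) :
    jacobiSym a b = (if a % 4 = 3 ∧ b % 4 = 3 then -1 else 1) * jacobiSym b a := by
  split_ifs with h
  · rw [jacobiSym.quadratic_reciprocity_three_mod_four h.1 h.2]; ring
  · rw [one_mul]
    by_cases h1 : a % 4 = 1
    · exact jacobiSym.quadratic_reciprocity_one_mod_four h1 (Nat.odd_iff.2 hb)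
    · exact jacobiSym.quadratic_reciprocity_one_mod_four' (Nat.odd_iff.2 ha) (by omega)

theorem Phi_m1 {N : ℕ} (hN : 0 < N) (h2 : 2 ∣ N) {y : ℤ}
    (hy : ∀ p : ℕ, p.Prime → p ∣ N → ¬(p : ℤ) ∣ y) : Phi N (-1) y = jacobiSym (-1) y.natAbs := by
  have o : y % 2 = 1 := by have := hy 2 Nat.prime_two h2; push_cast at this; omega
  rw [Phi_eq hN {2} (by simp) (by simp [Nat.prime_two, h2])
    (fun p hp hd _ => ⟨ndvd_neg_one hp, hy p hp hd⟩), prod_singleton, hs2_odd (by decide) o,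
    jm1 (by omega)]
  split_ifs <;> omega

theorem Phi_m1q {N : ℕ} (hN : 0 < N) (h2 : 2 ∣ N) {q : ℕ} (hq : q.Prime) (hd : q ∣ N) :
    Phi N q (-1) = 1 := by
  by_cases h : q = 2
  · subst h
    rw [Phi_eq hN {2} (by simp) (by simp [Nat.prime_two, h2]) (fun p hp _ hn =>
      ⟨ndvd_prime hp hq (by simpa using hn), ndvd_neg_one hp⟩), prod_singleton, hs2_two (by decide)]
    simp
  · have o : q % 2 = 1 := hq.eq_two_or_odd.resolve_left h
    rw [Phi_eq hN {2, q} (by simp) (by simp [Nat.prime_two, h2, hq, hd]) (fun p hp _ hn =>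
      ⟨ndvd_prime hp hq (fun e => hn (by simp [e])), ndvd_neg_one hp⟩), prod_pair (Ne.symm h),
      hs2_odd (by omega) (by decide), hsq hq h (ndvd_neg_one hq), jm1 o]
    split_ifs <;> omega

theorem Phi_qk {N : ℕ} (hN : 0 < N) (h2 : 2 ∣ N) {q k : ℕ} (hq : q.Prime) (hd : q ∣ N)
    (hy : ∀ p : ℕ, p.Prime → p ∣ N → ¬(p : ℤ) ∣ k) : Phi N q k = jacobiSym q k := by
  have o : (k : ℤ) % 2 = 1 := by have := hy 2 Nat.prime_two h2; push_cast at this; omega
  by_cases h : q = 2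
  · subst h
    rw [Phi_eq hN {2} (by simp) (by simp [Nat.prime_two, h2]) (fun p hp hd hn =>
      ⟨ndvd_prime hp hq (by simpa using hn), hy p hp hd⟩), prod_singleton, hs2_two o]
    simp
  · have o' : q % 2 = 1 := hq.eq_two_or_odd.resolve_left h
    rw [Phi_eq hN {2, q} (by simp) (by simp [Nat.prime_two, h2, hq, hd]) (fun p hp hd hn =>
      ⟨ndvd_prime hp hq (fun e => hn (by simp [e])), hy p hp hd⟩), prod_pair (Ne.symm h),
      hs2_odd (by omega) o, hsq hq h (hy q hq hd), qr o' (by omega : k % 2 = 1),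
      if_neg (by omega), one_mul]
    congr 1
    split_ifs <;> omega

theorem Phi_unit {N : ℕ} (hN : 0 < N) (h2 : 2 ∣ N) {y : ℤ}
    (hy : ∀ p : ℕ, p.Prime → p ∣ N → ¬(p : ℤ) ∣ y) :
    ∀ u, Smooth N u → Phi N u y = jacobiSym u y.natAbs := by
  have y0 : y ≠ 0 := fun e => hy 2 Nat.prime_two h2 (by simp [e])
  refine smooth_ind N _ (by simp [Phi_one]) (Phi_m1 hN h2 hy) (fun q hq hd => ?_)
    (fun a b ha hb h1 h3 => by rw [Phi_mul' N ha hb y0, h1, h3, jacobiSym.mul_left])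
  have := Phi_qk hN h2 (k := y.natAbs) hq hd (fun p hp hd e => hy p hp hd (Int.dvd_natAbs.1 e))
  rcases Int.natAbs_eq y with e | e
  · rw [← this, ← e]
  · rw [← this]
    conv_lhs => rw [e, neg_eq_neg_one_mul]
    rw [Phi_mul N (by exact_mod_cast hq.ne_zero) (by decide) (by simpa using y0),
      Phi_m1q hN h2 hq hd, one_mul]

theorem jsq {a : ℤ} {q : ℕ} (hq : q.Prime) (h : ¬(q : ℤ) ∣ a) : jacobiSym a q * jacobiSym a q = 1 := by
  rw [← sq]
  refine jacobiSym.sq_one ?_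
  rw [Int.gcd_comm, Int.gcd_eq_natAbs, Int.natAbs_natCast]
  exact (Nat.Prime.coprime_iff_not_dvd hq).2 (fun e => h (Int.natCast_dvd.2 e))

theorem Phi_2q {N : ℕ} (hN : 0 < N) (h2 : 2 ∣ N) {q : ℕ} (hq : q.Prime) (hd : q ∣ N) :
    Phi N ((2 : ℕ) : ℤ) q = 1 := by
  by_cases h : q = 2
  · subst h
    rw [Phi_eq hN {2} (by simp) (by simp [Nat.prime_two, h2]) (fun p hp _ hn =>
      ⟨ndvd_prime hp hq (by simpa using hn), ndvd_prime hp hq (by simpa using hn)⟩),
      prod_singleton, hs2_22]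
    simp
  · have o : q % 2 = 1 := hq.eq_two_or_odd.resolve_left h
    have a := ndvd_prime hq Nat.prime_two h
    rw [Phi_eq hN {2, q} (by simp) (by simp [Nat.prime_two, h2, hq, hd]) (fun p hp _ hn =>
      ⟨ndvd_prime hp Nat.prime_two (fun e => hn (by simp [e])),
        ndvd_prime hp hq (fun e => hn (by simp [e]))⟩), prod_pair (Ne.symm h),
      hs2_two (by omega), hs_comm q, hsq hq h a, if_neg (by omega), one_mul, Int.natAbs_natCast]
    exact jsq hq a

theorem Phi_qq {N : ℕ} (hN : 0 < N) (h2 : 2 ∣ N) {q r : ℕ} (hq : q.Prime) (hd : q ∣ N)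
    (hr : r.Prime) (he : r ∣ N) : Phi N q r = 1 := by
  by_cases h : q = 2
  · subst h; exact Phi_2q hN h2 hr he
  by_cases h' : r = 2
  · subst h'; rw [Phi_comm]; exact Phi_2q hN h2 hq hd
  have o : q % 2 = 1 := hq.eq_two_or_odd.resolve_left h
  have o' : r % 2 = 1 := hr.eq_two_or_odd.resolve_left h'
  by_cases e : q = r
  · subst e
    rw [Phi_eq hN {2, q} (by simp) (by simp [Nat.prime_two, h2, hq, hd]) (fun p hp _ hn =>
      ⟨ndvd_prime hp hq (fun e => hn (by simp [e])), ndvd_prime hp hq (fun e => hn (by simp [e]))⟩),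
      prod_pair (Ne.symm h), hs2_odd (by omega) (by omega), hsqq hq h, jm1 o]
    split_ifs <;> omega
  · have a := ndvd_prime hq hr e
    have b := ndvd_prime hr hq (Ne.symm e)
    rw [Phi_eq hN {2, q, r} (by simp) (by simp [Nat.prime_two, h2, hq, hd, hr, he])
      (fun p hp _ hn => ⟨ndvd_prime hp hq (fun e => hn (by simp [e])),
        ndvd_prime hp hr (fun e => hn (by simp [e]))⟩),
      prod_insert (by simp [Ne.symm h, Ne.symm h']), prod_pair e, hs2_odd (by omega) (by omega),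
      hsq hq h a, hs_comm r, hsq hr h' b, if_neg (by omega), one_mul, qr o o']
    have := jsq hq a
    split_ifs
    · linear_combination this
    · omega
    · omega
    · linear_combination this

theorem Phi_smooth {N : ℕ} (hN : 0 < N) (h2 : 2 ∣ N) {u u' : ℤ} (hu : Smooth N u)
    (hu' : Smooth N u') : Phi N u u' = 1 := by
  refine smooth_ind N (fun u => Phi N u u' = 1) (Phi_one N u') ?_ (fun q hq hd => ?_)
    (fun a b ha hb h1 h3 => by rw [Phi_mul' N ha hb hu'.1, h1, h3, mul_one]) u hu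
  · refine smooth_ind N (fun v => Phi N (-1) v = 1) (by rw [Phi_comm, Phi_one]) ?_
      (fun q hq hd => by rw [Phi_comm, Phi_m1q hN h2 hq hd])
      (fun a b ha hb h1 h3 => by rw [Phi_mul N (by decide) ha hb, h1, h3, mul_one]) u' hu'
    rw [Phi_m1 hN h2 (fun p hp _ => ndvd_neg_one hp)]
    simp
  · exact smooth_ind N (fun v => Phi N q v = 1) (by rw [Phi_comm, Phi_one]) (Phi_m1q hN h2 hq hd)
      (fun r hr he => Phi_qq hN h2 hq hd hr he)
      (fun a b ha hb h1 h3 => by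
        rw [Phi_mul N (by exact_mod_cast hq.ne_zero) ha hb, h1, h3, mul_one]) u' hu'

theorem ndvd_cop {N k : ℕ} (h : k.Coprime N) (p : ℕ) (hp : p.Prime) (hd : p ∣ N) : ¬p ∣ k :=
  fun e => hp.one_lt.ne' (Nat.eq_one_of_dvd_coprimes h e hd)

end PfAux

open PfAux

theorem pf : PFStmt := by
  intro N m u u' m' hN h2 hu hu' hm h4 hm'
  have a : ∀ p : ℕ, p.Prime → p ∣ N → ¬(p : ℤ) ∣ m := fun p hp hd e =>
    ndvd_cop hm p hp hd (Int.natCast_dvd_natCast.1 e)
  have b : ∀ p : ℕ, p.Prime → p ∣ N → ¬(p : ℤ) ∣ m' := fun p hp hd e =>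
    ndvd_cop hm' p hp hd (Int.natCast_dvd.1 e)
  have o : (m : ℤ) % 2 = 1 := by have := a 2 Nat.prime_two h2; push_cast at this; omega
  have m0 : (0 : ℤ) < m := by omega
  have m1 : m' ≠ 0 := by omega
  have e1 : (if u < 0 ∧ u' * m' < 0 then (-1 : ℤ) else 1) =
      if u * m < 0 ∧ u' * m' < 0 then -1 else 1 := by
    have : u * m < 0 ↔ u < 0 := by
      constructor
      · intro h; by_contra hh; nlinarith
      · intro h; exact mul_neg_of_neg_of_pos h m0
    simp only [this]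
  have e2 : Phi N m m' = 1 := by
    rw [Phi_eq hN {2} (by simp) (by simp [Nat.prime_two, h2])
      (fun p hp hd _ => ⟨a p hp hd, b p hp hd⟩), prod_singleton, hs2_odd o (by omega)]
    split_ifs <;> omega
  rw [e1]
  change Phi N (u * m) (u' * m') = _
  rw [Phi_mul' N hu.1 m0.ne' (mul_ne_zero hu'.1 m1), Phi_mul N hu.1 hu'.1 m1,
    Phi_mul N m0.ne' hu'.1 m1, Phi_smooth hN h2 hu hu', e2, Phi_unit hN h2 b u hu,
    Phi_comm N m u', Phi_unit hN h2 a u' hu', Int.natAbs_natCast]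
  ring

theorem recip (hso : HSOStmt) (hs2 : HS2Stmt) (pf : PFStmt) : RECStmt := by
  intro N m u u' m' hN h2 hu hu' hm h4 hm' hR hp
  have o : ¬2 ∣ m := ndvd_cop hm 2 Nat.prime_two h2
  have m0 : (0 : ℤ) < m := by omega
  have x0 : u * m ≠ 0 := mul_ne_zero hu.1 m0.ne'
  have y0 : u' * m' ≠ 0 := mul_ne_zero hu'.1 (by omega)
  rw [← pf N m u u' m' hN h2 hu hu' hm h4 hm', if_neg, one_mul]
  · refine prod_eq_one (fun p hm => ?_)
    have := Fact.mk (Nat.prime_of_mem_primeFactors hm)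
    have := hp p (Nat.dvd_of_mem_primeFactors hm)
    by_cases h : p = 2
    · subst h; exact hs2 _ _ x0 y0 this
    · exact hso p _ _ h x0 y0 this
  · rintro ⟨h1, h3⟩
    obtain ⟨X, Y, Z, hn, he⟩ := hR
    have a : ((u * m : ℤ) : ℝ) < 0 := by exact_mod_cast mul_neg_of_neg_of_pos h1 m0
    have b : ((u' * m' : ℤ) : ℝ) < 0 := by exact_mod_cast h3
    have c1 := mul_nonpos_of_nonpos_of_nonneg a.le (sq_nonneg X)
    have c2 := mul_nonpos_of_nonpos_of_nonneg b.le (sq_nonneg Y)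
    have c3 := sq_nonneg Z
    refine hn ⟨?_, ?_, ?_⟩
    · have : ((u * m : ℤ) : ℝ) * X ^ 2 = 0 := by linarith
      exact pow_eq_zero_iff two_ne_zero |>.1 ((mul_eq_zero.1 this).resolve_left a.ne)
    · have : ((u' * m' : ℤ) : ℝ) * Y ^ 2 = 0 := by linarith
      exact pow_eq_zero_iff two_ne_zero |>.1 ((mul_eq_zero.1 this).resolve_left b.ne)
    · exact pow_eq_zero_iff two_ne_zero |>.1 (by linarith)

end Pool.Agent.MP_a43263_nt.RH
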