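import Mathlib.NumberTheory.Padics.RingHoms
import Pool.Agent.MP_a43263_nt.RH.Spec

/-! PROJECT RANKG, THEOREM G, row HS2: the Hilbert symbol at two of a conic with a point. -/

set_option autoImplicit false

noncomputable section

namespace Pool.Agent.MP_a43263_nt.RH

namespace Hs2

/-- the value of the character modulo eight on an odd residue -/
def ch (n : ℕ) : ℤ := if n % 8 = 1 ∨ n % 8 = 7 then 1 else -1

lemma sq16 : ∀ X : ZMod 16, X ^ 2 ∈ ([0, 1, 4, 9] : List (ZMod 16)) := by decide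

lemma fin16 : ∀ e f : Fin 2, ∀ u v : ZMod 16, u.val % 2 = 1 → v.val % 2 = 1 →
    ∀ A ∈ ([0, 1, 4, 9] : List (ZMod 16)), ∀ B ∈ ([0, 1, 4, 9] : List (ZMod 16)),
    ∀ C ∈ ([0, 1, 4, 9] : List (ZMod 16)), (A = 1 ∨ B = 1 ∨ C = 1) →
    2 ^ e.val * u * A + 2 ^ f.val * v * B = C →
    (if u.val % 4 = 3 ∧ v.val % 4 = 3 then -1 else 1) * ch u.val ^ f.val * ch v.val ^ e.val
      = (1 : ℤ) := by decide +kernel

/-- a solution with integral coordinates, one of them equal to one -/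
lemma prim {c d : ℚ_[2]} (h : Conic c d) : ∃ X Y Z : ℤ_[2], (X = 1 ∨ Y = 1 ∨ Z = 1) ∧
    c * (X : ℚ_[2]) ^ 2 + d * (Y : ℚ_[2]) ^ 2 = (Z : ℚ_[2]) ^ 2 := by
  obtain ⟨X, Y, Z, h0, h⟩ := h
  have key : ∀ w : ℚ_[2], ‖X‖ ≤ ‖w‖ → ‖Y‖ ≤ ‖w‖ → ‖Z‖ ≤ ‖w‖ → (X = w ∨ Y = w ∨ Z = w) →
      ∃ X Y Z : ℤ_[2], (X = 1 ∨ Y = 1 ∨ Z = 1) ∧
      c * (X : ℚ_[2]) ^ 2 + d * (Y : ℚ_[2]) ^ 2 = (Z : ℚ_[2]) ^ 2 := by
    intro w h1 h2 h3 h4
    have hw : w ≠ 0 := by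
      rintro rfl
      simp only [norm_zero, norm_le_zero_iff] at h1 h2 h3
      exact h0 ⟨h1, h2, h3⟩
    have hn : ∀ t : ℚ_[2], ‖t‖ ≤ ‖w‖ → ‖t / w‖ ≤ 1 := fun t ht => by
      rw [norm_div]; exact div_le_one_of_le₀ ht (norm_nonneg _)
    refine ⟨⟨X / w, hn X h1⟩, ⟨Y / w, hn Y h2⟩, ⟨Z / w, hn Z h3⟩, ?_, ?_⟩
    · rcases h4 with rfl | rfl | rfl
      · exact Or.inl (Subtype.ext (div_self hw))
      · exact Or.inr (Or.inl (Subtype.ext (div_self hw)))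
      · exact Or.inr (Or.inr (Subtype.ext (div_self hw)))
    · change c * (X / w) ^ 2 + d * (Y / w) ^ 2 = (Z / w) ^ 2
      rw [div_pow, div_pow, div_pow, ← h]
      ring
  rcases le_total ‖X‖ ‖Y‖ with h1 | h1
  · rcases le_total ‖Y‖ ‖Z‖ with h2 | h2
    · exact key Z (h1.trans h2) h2 le_rfl (by simp)
    · exact key Y h1 le_rfl h2 (by simp)
  · rcases le_total ‖X‖ ‖Z‖ with h2 | h2
    · exact key Z h2 (h1.trans h2) le_rfl (by simp)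
    · exact key X le_rfl h1 h2 (by simp)

lemma split {x : ℤ} (hx : x ≠ 0) : x = 2 ^ padicValInt 2 x * up 2 x ∧ up 2 x % 2 = 1 := by
  have h1 : ((2 : ℕ) : ℤ) ^ padicValInt 2 x ∣ x := padicValInt_dvd x
  have h2 : x = 2 ^ padicValInt 2 x * up 2 x := (Int.mul_ediv_cancel' h1).symm
  refine ⟨h2, ?_⟩
  by_contra h3
  have h4 : (2 : ℤ) ∣ up 2 x := by omega
  have h5 : ((2 : ℕ) : ℤ) ^ (padicValInt 2 x + 1) ∣ x := by
    rw [pow_succ]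
    conv_rhs => rw [h2]
    exact mul_dvd_mul_left _ h4
  rcases (padicValInt_dvd_iff _ _).1 h5 with h | h
  · exact hx h
  · omega

lemma jac {u : ℤ} (hu : u % 2 = 1) : jacobiSym 2 u.natAbs = ch (u : ZMod 16).val := by
  have h1 : (((u : ZMod 16).val : ℕ) : ℤ) = u % 16 := ZMod.val_intCast u
  have h2 : u.natAbs % 2 = 1 := by omega
  rw [jacobiSym.at_two (Nat.odd_iff.2 h2), ZMod.χ₈_nat_eq_if_mod_eight, if_neg (by omega), ch]
  refine if_congr ?_ rfl rfl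
  omega

lemma ch_pow (n a : ℕ) : ch n ^ a = ch n ^ (a % 2) := by
  have h : ch n ^ 2 = 1 := by unfold ch; split_ifs <;> norm_num
  conv_lhs => rw [← Nat.div_add_mod a 2, pow_add, pow_mul, h, one_pow, one_mul]

lemma red {a b : ℕ} {u v : ℤ} (h : Conic ((2 ^ a * u : ℤ) : ℚ_[2]) (2 ^ b * v : ℤ)) :
    Conic ((2 ^ (a % 2) * u : ℤ) : ℚ_[2]) (2 ^ (b % 2) * v : ℤ) := by
  obtain ⟨X, Y, Z, h0, h⟩ := h
  refine ⟨2 ^ (a / 2) * X, 2 ^ (b / 2) * Y, Z, fun h1 => h0 ⟨?_, ?_, h1.2.2⟩, ?_⟩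
  · simpa using h1.1
  · simpa using h1.2.1
  · rw [← h]
    conv_rhs => rw [← Nat.div_add_mod a 2, ← Nat.div_add_mod b 2]
    push_cast
    ring

end Hs2

open Hs2 in
/-- Row HS2. -/
theorem hs2 : HS2Stmt := by
  intro x y hx hy h
  obtain ⟨h1, h2⟩ := split hx
  obtain ⟨h3, h4⟩ := split hy
  rw [hs, if_pos rfl]
  generalize padicValInt 2 x = a at h1 ⊢
  generalize padicValInt 2 y = b at h3 ⊢
  generalize up 2 x = u at h1 h2 ⊢
  generalize up 2 y = v at h3 h4 ⊢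
  subst h1 h3
  obtain ⟨X, Y, Z, h5, h6⟩ := prim (red h)
  have h7 : ((2 ^ (a % 2) * u : ℤ) : ℤ_[2]) * X ^ 2 + ((2 ^ (b % 2) * v : ℤ) : ℤ_[2]) * Y ^ 2
      = Z ^ 2 := by
    apply Subtype.ext
    push_cast at h6 ⊢
    exact h6
  let φ : ℤ_[2] →+* ZMod 16 := PadicInt.toZModPow (p := 2) 4
  have h8 := congrArg φ h7
  rw [map_add, map_mul, map_mul, map_pow, map_pow, map_pow, map_intCast, map_intCast] at h8
  push_cast at h8
  have hu : (((u : ZMod 16).val : ℕ) : ℤ) = u % 16 := ZMod.val_intCast u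
  have hv : (((v : ZMod 16).val : ℕ) : ℤ) = v % 16 := ZMod.val_intCast v
  have h9 := fin16 ⟨a % 2, Nat.mod_lt _ two_pos⟩ ⟨b % 2, Nat.mod_lt _ two_pos⟩ u v (by omega)
    (by omega) _ (sq16 (φ X)) _ (sq16 (φ Y)) _ (sq16 (φ Z))
    (by rcases h5 with rfl | rfl | rfl <;> simp) h8
  have h10 : (u % 4 = 3 ∧ v % 4 = 3) ↔
      ((u : ZMod 16).val % 4 = 3 ∧ (v : ZMod 16).val % 4 = 3) := by omega
  rw [jac h2, jac h4, ch_pow _ a, ch_pow _ b, if_congr h10 rfl rfl]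
  exact h9

end Pool.Agent.MP_a43263_nt.RH
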