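import Pool.Agent.MP_a43263_nt.RH.Spec
import Pool.Agent.MP_a43263_nt.RG.Loc

/-! PROJECT RANKG, THEOREM G, module LOC2: the local conditions of the 2-descent. -/

set_option autoImplicit false

noncomputable section

namespace Pool.Agent.MP_a43263_nt.RH

open Finset
open R2 (Ker sg Sol2 ELS Sgn)
open R2.Loc (exists_sqf scale swap int_good int_one cls_one even_iff val_one norm_int jac_of_Q
  gcd_one)
open RG
open RG.LocH (sg_eq shift dvd_pr exact_pr)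

namespace LcH

variable {n : ℕ}

theorem jac_l {ι : Type} (s : Finset ι) (f : ι → ℤ) (q : ℕ) :
    jacobiSym (∏ a ∈ s, f a) q = ∏ a ∈ s, jacobiSym (f a) q := by
  induction s using Finset.cons_induction with
  | empty => simp [jacobiSym.one_left]
  | cons a s ha ih => rw [prod_cons, prod_cons, jacobiSym.mul_left, ih]

theorem jac_r {ι : Type} (m : ℤ) (s : Finset ι) (f : ι → ℤ) (h : ∀ a ∈ s, f a ≠ 0) :
    jacobiSym m (∏ a ∈ s, f a).natAbs = ∏ a ∈ s, jacobiSym m (f a).natAbs := by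
  induction s using Finset.cons_induction with
  | empty => simp [jacobiSym.one_right]
  | cons a s ha ih =>
    have h' := fun b hb => h b (mem_cons_of_mem hb)
    rw [prod_cons, prod_cons, Int.natAbs_mul, jacobiSym.mul_right' m
      (Int.natAbs_ne_zero.2 (h a (mem_cons_self _ _)))
      (Int.natAbs_ne_zero.2 (prod_ne_zero_iff.2 h')), ih h']

theorem jac_eq {p : ℕ} (hp : p.Prime) {x y : ℤ} (hx : ¬(p : ℤ) ∣ x) (hy : ¬(p : ℤ) ∣ y)
    (h : IsSquare (x * y)) : jacobiSym y p = jacobiSym x p := by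
  have := Fact.mk hp
  have hp' := Nat.prime_iff_prime_int.1 hp
  obtain ⟨w, hw⟩ := h
  have h1 : jacobiSym x p * jacobiSym y p = 1 := by
    rw [← jacobiSym.mul_left, hw, ← sq]
    exact jacobiSym.sq_one' (gcd_one fun k => (hp'.dvd_or_dvd (hw ▸ k.mul_left w)).elim hx hy)
  rcases jacobiSym.eq_one_or_neg_one (gcd_one hx) with e | e <;> rw [e] at h1 ⊢ <;> omega

theorem split {N : ℕ} {m : ℤ} (hm : Squarefree m) {S : Finset (Gen n)} (hd : RG.Dist S)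
    (v : Gen n → ℤ) (h1 : ∀ x ∈ S, x.2.Prime ∧
      ((v x).natAbs = x.2 ∧ (x.2 : ℤ) ∣ m ∨ (v x).natAbs = 1 ∧ ¬(x.2 : ℤ) ∣ m))
    (h2 : ∀ p : ℕ, p.Prime → (p : ℤ) ∣ m → p ∣ N ∨ ∃ x ∈ S, x.2 = p) :
    ∃ u, Smooth N u ∧ m = u * ∏ x ∈ S, v x := by
  obtain ⟨u, hu⟩ : ∏ x ∈ S, v x ∣ m := by
    refine Finset.prod_dvd_of_coprime (fun x hx y hy hxy => ?_) fun x hx => ?_
    · refine Int.isCoprime_iff_gcd_eq_one.2 ?_
      rw [Int.gcd_eq_natAbs]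
      rcases (h1 x hx).2 with e | e <;> rw [e.1]
      · rcases (h1 y hy).2 with e | e <;> rw [e.1]
        · exact (Nat.coprime_primes (h1 x hx).1 (h1 y hy).1).2 fun k => hxy (hd x hx y hy k)
        · simp
      · simp
    · rw [← Int.natAbs_dvd]
      rcases (h1 x hx).2 with e | e <;> rw [e.1]
      exacts [e.2, one_dvd _]
  refine ⟨u, ⟨fun k => hm.ne_zero (by rw [hu, k, mul_zero]), fun p hp k => ?_⟩,
    hu.trans (mul_comm _ _)⟩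
  have k1 : (p : ℤ) ∣ m := hu ▸ k.mul_left _
  refine (h2 p hp k1).resolve_right ?_
  rintro ⟨x, hx, rfl⟩
  have e := (((h1 x hx).2.resolve_right fun e => e.2 k1)).1
  have k2 : (x.2 : ℤ) ∣ ∏ x ∈ S, v x :=
    (Int.natCast_dvd.2 (e ▸ dvd_rfl)).trans (dvd_prod_of_mem _ hx)
  exact (Nat.prime_iff_prime_int.1 hp).not_isUnit (hm _ (hu ▸ mul_dvd_mul k2 k))

theorem int_zer {p : ℕ} [hp : Fact p.Prime] {a b n₂ n₃ : ℤ} (h2 : Squarefree n₂)
    (h3 : Squarefree n₃) (h : Sol2 (a : ℚ_[p]) b n₂ n₃) (ha : ¬(p : ℤ) ∣ a) (h1 : (p : ℤ) ∣ a - b)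
    (hs : ¬(p : ℤ) ^ 2 ∣ a - b) : ((p : ℤ) ∣ n₂ ↔ (p : ℤ) ∣ n₃) ∧
      ∀ d e f : ℤ, f ≠ 0 → n₂ * n₃ * f ^ 2 = d * e ^ 2 → ¬(p : ℤ) ∣ d →
        (if (p : ℤ) ∣ n₂ then jacobiSym a p else 1) * jacobiSym d p = 1 := by
  have g2 : (n₂ : ℚ_[p]) ≠ 0 := by exact_mod_cast h2.ne_zero
  have g3 : (n₃ : ℚ_[p]) ≠ 0 := by exact_mod_cast h3.ne_zero
  rw [dvd_sub_comm] at h1 hs
  have h0 : b - a ≠ 0 := fun k => hs (k ▸ dvd_zero _)
  obtain ⟨ev, k⟩ := cls_one g3 (mul_ne_zero g2 g3) (shift g3 h) (by exact_mod_cast h0)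
    (by exact_mod_cast val_one h1 hs) (by rw [norm_neg]; exact norm_int ha)
  rw [Padic.valuation_mul g2 g3, Int.even_add, even_iff h2, even_iff h3] at ev
  have e : (p : ℤ) ∣ n₂ ↔ (p : ℤ) ∣ n₃ := by tauto
  refine ⟨e, fun d r f hf hd hn => ?_⟩
  have hf' : (f : ℚ_[p]) ≠ 0 := by exact_mod_cast hf
  have hd' : (n₂ : ℚ_[p]) * n₃ = d * (r / f) ^ 2 := by
    rw [div_pow, ← mul_div_assoc, eq_div_iff (pow_ne_zero _ hf')]; exact_mod_cast hd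
  rcases k with ⟨o, q⟩ | ⟨o, q⟩
  · rw [← Int.not_even_iff_odd, even_iff h3, not_not] at o
    rw [if_pos (e.2 o), ← jacobiSym.mul_left]
    refine jac_of_Q (fun k => ?_) (q.cancel le_rfl (r := r / f) (by rw [hd']; push_cast; ring))
    exact ((Nat.prime_iff_prime_int.1 hp.out).dvd_or_dvd k).elim ha hn
  · rw [even_iff h3] at o
    rw [if_neg (mt e.1 o), one_mul]
    exact jac_of_Q hn (q.cancel le_rfl (r := r / f) hd')

theorem abs_Gp (c j : Fin 3) (p : ℕ) : (Gp c p j).natAbs = if j = c then 1 else p := by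
  unfold Gp st
  split_ifs <;> simp

theorem Gp_two (c : Fin 3) {p : ℕ} (hp : 0 < p) : 0 < Gp c p 2 := by
  unfold Gp
  fin_cases c <;> simp [hp]

theorem Gp_one (c : Fin 3) {p : ℕ} (hp : p % 2 = 1) : Gp c p 1 % 4 = 1 := by
  unfold Gp st
  fin_cases c <;> simp <;> split_ifs <;> omega

/-- the local conditions at the primes of `V` -/
theorem conds {N : ℕ} {a b : ℤ} {V : Finset (Gen n)} {dg : Gen n → ℤ} {A : Fin 3 → ℕ}
    (F : Loc2 N a b V dg A) {n₂ n₃ : ℤ} (s2 : Squarefree n₂) (s3 : Squarefree n₃)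
    (S : ∀ (p : ℕ) [Fact p.Prime],
      Sol2 ((a * A 1 : ℤ) : ℚ_[p]) ((b * A 2 : ℤ) : ℚ_[p]) n₂ n₃) :
    (∀ p : ℕ, p.Prime → (p : ℤ) ∣ n₂ ∨ (p : ℤ) ∣ n₃ → p ∣ N ∨ ∃ x ∈ V, x.2 = p) ∧
    (∀ x ∈ V, x.1.1 = 0 → ((x.2 : ℤ) ∣ n₂ ↔ (x.2 : ℤ) ∣ n₃) ∧
      ∀ d e f : ℤ, f ≠ 0 → n₂ * n₃ * f ^ 2 = d * e ^ 2 → ¬(x.2 : ℤ) ∣ d →
        (if (x.2 : ℤ) ∣ n₂ then dg x * jacobiSym (-1) x.2 else 1) * jacobiSym d x.2 = 1) ∧
    (∀ x ∈ V, x.1.1 = 1 → ¬(x.2 : ℤ) ∣ n₃ ∧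
      (if (x.2 : ℤ) ∣ n₂ then dg x else 1) * jacobiSym n₃ x.2 = 1) ∧
    ∀ x ∈ V, x.1.1 = 2 → ¬(x.2 : ℤ) ∣ n₂ ∧
      (if (x.2 : ℤ) ∣ n₃ then dg x else 1) * jacobiSym n₂ x.2 = 1 := by
  have hA : ∀ i, (A i : ℤ) = ∏ x ∈ V.filter (fun x => x.1.1 = i), (x.2 : ℤ) := fun i => by
    rw [F.hA, Nat.cast_prod]
  have pr : ∀ i, ∀ x ∈ V.filter (fun x => x.1.1 = i), x.2.Prime := fun i x hx =>
    (F.pr x (mem_filter.1 hx).1).1
  have dv : ∀ {u : ℤ} (i) {p : ℕ}, Smooth N u → p.Prime → (p : ℤ) ∣ u * A i →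
      p ∣ N ∨ ∃ x ∈ V, x.2 = p ∧ x.1.1 = i := fun i p hu hp k =>
    ((Nat.prime_iff_prime_int.1 hp).dvd_or_dvd k).imp (hu.2 p hp) fun k => by
      obtain ⟨z, hz, e⟩ := dvd_pr (pr i) hp (hA i ▸ k)
      exact ⟨z, (mem_filter.1 hz).1, e, (mem_filter.1 hz).2⟩
  have nd : ∀ {u : ℤ} (i), Smooth N u → ∀ x ∈ V, x.1.1 ≠ i → ¬(x.2 : ℤ) ∣ u * A i :=
    fun i hu x hx t k => (dv i hu (F.pr x hx).1 k).elim (F.pr x hx).2 fun ⟨z, hz, e, e'⟩ =>
      t (F.dist z hz x hx e ▸ e')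
  have ex : ∀ {u : ℤ}, Smooth N u → ∀ x ∈ V, ∀ i, x.1.1 = i →
      (x.2 : ℤ) ∣ u * A i ∧ ¬(x.2 : ℤ) ^ 2 ∣ u * A i := fun hu x hx i t => by
    rw [hA]
    exact exact_pr (pr i) (fun y hy z hz => F.dist y (mem_filter.1 hy).1 z (mem_filter.1 hz).1)
      (mem_filter.2 ⟨hx, t⟩) fun k => (F.pr x hx).2 (hu.2 _ (F.pr x hx).1 k)
  refine ⟨fun p hp h => ?_, fun x hx t => ?_, fun x hx t => ?_, fun x hx t => ?_⟩
  · by_contra k
    have := Fact.mk hp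
    have j : ∀ {u : ℤ} (i), Smooth N u → ¬(p : ℤ) ∣ u * A i := fun i hu j =>
      k ((dv i hu hp j).imp_right fun ⟨z, hz, e, _⟩ => ⟨z, hz, e⟩)
    have kd : ¬(p : ℤ) ∣ a * A 1 - b * A 2 := F.sum ▸ j 0 F.sd
    exact h.elim (int_good s2 s3 (S p) (j 1 F.sa) (j 2 F.sb) kd)
      (int_good s3 s2 (swap (S p)) (j 2 F.sb) (j 1 F.sa) (by rwa [dvd_sub_comm]))
  · have := Fact.mk (F.pr x hx).1
    have k := ex F.sd x hx 0 t
    rw [← F.sum] at k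
    obtain ⟨k1, k2⟩ := int_zer s2 s3 (S x.2) (nd 1 F.sa x hx (by rw [t]; decide)) k.1 k.2
    refine ⟨k1, fun d e f hf hd hn => ?_⟩
    rw [F.dg x hx, t, ← jacobiSym.mul_left]
    simpa using k2 d e f hf hd hn
  · have := Fact.mk (F.pr x hx).1
    have k := ex F.sa x hx 1 t
    obtain ⟨k1, k2⟩ := int_one s2 s3 (S x.2) k.1 k.2 (nd 2 F.sb x hx (by rw [t]; decide))
    refine ⟨k1, ?_⟩
    rw [F.dg x hx, t]
    rw [jacobiSym.mul_left] at k2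
    split_ifs at k2 ⊢
    · exact k2
    · rwa [jacobiSym.one_left] at k2
  · have := Fact.mk (F.pr x hx).1
    have k := ex F.sb x hx 2 t
    obtain ⟨k1, k2⟩ := int_one s3 s2 (swap (S x.2)) k.1 k.2 (nd 1 F.sa x hx (by rw [t]; decide))
    refine ⟨k1, ?_⟩
    rw [F.dg x hx, t]
    rw [jacobiSym.mul_left] at k2
    split_ifs at k2 ⊢
    · exact k2
    · rwa [jacobiSym.one_left] at k2

end LcH

open LcH in
/-- the local conditions -/
theorem loc : GPStmt → MATStmt → CONSTStmt → LOC2Stmt := by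
  intro gp mat const n N a b Fr V dg A hF F d₂ d₃ h2 h3 els
  obtain ⟨n₂, s, s2, hs, e2⟩ := exists_sqf h2
  obtain ⟨n₃, r, s3, hr, e3⟩ := exists_sqf h3
  obtain ⟨m1, m2, m3⟩ := mat n Fr dg
  replace m1 := m1 hF.sgn
  have S : ∀ (p : ℕ) [Fact p.Prime],
      Sol2 ((a * A 1 : ℤ) : ℚ_[p]) ((b * A 2 : ℤ) : ℚ_[p]) n₂ n₃ := fun p _ => by
    have := scale (n₂ := (n₂ : ℚ_[p])) (n₃ := n₃) (s := (s : ℚ_[p])) (r := (r : ℚ_[p]))
      (by exact_mod_cast hs) (by exact_mod_cast hr) (by exact_mod_cast e2)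
      (by exact_mod_cast e3) (els.2 p)
    exact_mod_cast this
  have SR : Sol2 ((a * A 1 : ℤ) : ℝ) ((b * A 2 : ℤ) : ℝ) n₂ n₃ := by
    have := scale (n₂ := (n₂ : ℝ)) (n₃ := n₃) (s := (s : ℝ)) (r := (r : ℝ))
      (by exact_mod_cast hs) (by exact_mod_cast hr) (by exact_mod_cast e2) (by exact_mod_cast e3)
      els.1
    exact_mod_cast this
  have SS := const N a b n₂ n₃ A F.pos F.sa.1 F.sb.1 (sub_ne_zero.1 F.sd.1) F.sq F.one F.sum
    s2.ne_zero s3.ne_zero ⟨SR, fun p _ _ => S p⟩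
  obtain ⟨cv, c0, c1, c2⟩ := conds F s2 s3 S
  have tri : ∀ j : Fin 3, j = 0 ∨ j = 1 ∨ j = 2 := by decide
  have p2 : ∀ x ∈ V, x.2 ≠ 2 := fun x hx k => (F.pr x hx).2 (k ▸ F.two)
  have od : ∀ x ∈ V, x.2 % 2 = 1 := fun x hx => (F.pr x hx).1.eq_two_or_odd.resolve_left (p2 x hx)
  have GV : ∀ x ∈ V, ∀ j, Fr.G j x = Gp x.1.1 x.2 j := fun x hx j =>
    if_neg (by have := od x hx; omega)
  have G0 : ∀ i j, Fr.G j (((0, none), 2 * i) : Gen n) =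
      ![Fr.G2 i * Fr.G1 i, Fr.G1 i, Fr.G2 i] j := fun i j => by simp [Frame.G]
  have sm0 : ∀ i j, Smooth N (Fr.G j (((0, none), 2 * i) : Gen n)) := fun i j => by
    rw [G0]
    fin_cases j
    · exact ⟨mul_ne_zero (hF.sm i).1.1 (hF.sm i).2.1, fun p hp k =>
        ((Nat.prime_iff_prime_int.1 hp).dvd_or_dvd k).elim ((hF.sm i).1.2 p hp)
          ((hF.sm i).2.2 p hp)⟩
    exacts [(hF.sm i).2, (hF.sm i).1]
  obtain ⟨y₁, hy₁⟩ : ∃ y₁ : Finset (Gen n), ∀ x, x ∈ y₁ ↔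
      x ∈ V ∧ ((x.2 : ℤ) ∣ n₂ ∨ (x.2 : ℤ) ∣ n₃) := ⟨V.filter _, fun x => mem_filter⟩
  have hV : ∀ x ∈ y₁, x ∈ V := fun x hx => ((hy₁ x).1 hx).1
  have ab : ∀ x ∈ V, ∀ j, (Fr.G j x).natAbs = if j = x.1.1 then 1 else x.2 := fun x hx j => by
    rw [GV x hx, abs_Gp]
  have ne : ∀ x ∈ V, ∀ j, Fr.G j x ≠ 0 := fun x hx j => Int.natAbs_ne_zero.1 (by
    rw [ab x hx]; split_ifs; exacts [one_ne_zero, (F.pr x hx).1.ne_zero])
  have dy : RG.Dist y₁ := fun x hx z hz => F.dist x (hV x hx) z (hV z hz)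
  obtain ⟨u₂, su2, f2⟩ := split (N := N) s2 dy (Fr.G 2) (fun x hx => ⟨(F.pr x (hV x hx)).1, by
      obtain ⟨k, k'⟩ := (hy₁ x).1 hx
      rw [ab x k]
      rcases tri x.1.1 with t | t | t
      · exact Or.inl ⟨by simp [t], k'.elim id (c0 x k t).1.2⟩
      · exact Or.inl ⟨by simp [t], k'.resolve_right (c1 x k t).1⟩
      · exact Or.inr ⟨by simp [t], (c2 x k t).1⟩⟩)
    fun p hp k => (cv p hp (Or.inl k)).imp_right fun ⟨x, hx, e⟩ =>
      ⟨x, (hy₁ x).2 ⟨hx, Or.inl (e ▸ k)⟩, e⟩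
  obtain ⟨u₃, su3, f3⟩ := split (N := N) s3 dy (Fr.G 1) (fun x hx => ⟨(F.pr x (hV x hx)).1, by
      obtain ⟨k, k'⟩ := (hy₁ x).1 hx
      rw [ab x k]
      rcases tri x.1.1 with t | t | t
      · exact Or.inl ⟨by simp [t], k'.elim (c0 x k t).1.1 id⟩
      · exact Or.inr ⟨by simp [t], (c1 x k t).1⟩
      · exact Or.inl ⟨by simp [t], k'.resolve_left (c2 x k t).1⟩⟩)
    fun p hp k => (cv p hp (Or.inr k)).imp_right fun ⟨x, hx, e⟩ =>
      ⟨x, (hy₁ x).2 ⟨hx, Or.inr (e ▸ k)⟩, e⟩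
  have cop : ∀ j, (∏ x ∈ y₁, Fr.G j x).natAbs.Coprime N := fun j => by
    refine prod_induction _ (fun z : ℤ => z.natAbs.Coprime N)
      (fun x y hx hy => Int.natAbs_mul x y ▸ hx.mul_left hy) (Nat.coprime_one_left _) fun x hx => ?_
    rw [ab x (hV x hx)]
    split_ifs
    exacts [Nat.coprime_one_left _, (Nat.Prime.coprime_iff_not_dvd (F.pr x (hV x hx)).1).2
      (F.pr x (hV x hx)).2]
  have pos : ((∏ x ∈ y₁, Fr.G 2 x).natAbs : ℤ) = ∏ x ∈ y₁, Fr.G 2 x :=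
    Int.natAbs_of_nonneg (prod_nonneg fun x hx => by
      rw [GV x (hV x hx)]; exact (Gp_two _ (F.pr x (hV x hx)).1.pos).le)
  obtain ⟨x₀, hx₀, ⟨w₂, q2⟩, ⟨w₃, q3⟩, row⟩ := hF.loc u₂ u₃ (∏ x ∈ y₁, Fr.G 1 x) _ su2 su3 (cop 2)
    (prod_induction _ (fun z : ℤ => z % 4 = 1)
      (fun x y hx hy => by rw [Int.mul_emod, hx, hy]; rfl) rfl fun x hx => by
        rw [GV x (hV x hx)]; exact Gp_one _ (od x (hV x hx)))
    (cop 1) (by rwa [pos, ← f2, ← f3])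
  obtain ⟨y, hy, hp⟩ : ∃ y : Finset (Gen n),
      (∀ x, x ∈ y ↔ (∃ i ∈ x₀, ((0, none), 2 * i) = x) ∨ x ∈ y₁) ∧ ∀ f : Gen n → ℤ,
        ∏ x ∈ y, f x = (∏ i ∈ x₀, f ((0, none), 2 * i)) * ∏ x ∈ y₁, f x := by
    refine ⟨x₀.image (fun i => ((0, none), 2 * i)) ∪ y₁,
      fun x => by simp only [mem_union, mem_image], fun f => ?_⟩
    rw [prod_union, prod_image fun i _ j _ e => by simpa using e]
    refine disjoint_left.2 fun x hx k => ?_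
    obtain ⟨i, -, rfl⟩ := mem_image.1 hx
    have := od _ (hV _ k)
    simp at this
  have E2 : n₂ * Gv Fr.G 2 y = (w₂ * ∏ x ∈ y₁, Fr.G 2 x) ^ 2 := by
    rw [Gv, hp, f2]
    simp only [G0]
    change _ * ((∏ i ∈ x₀, Fr.G2 i) * _) = _
    linear_combination (∏ x ∈ y₁, Fr.G 2 x) ^ 2 * q2
  have E3 : n₃ * Gv Fr.G 1 y = (w₃ * ∏ x ∈ y₁, Fr.G 1 x) ^ 2 := by
    rw [Gv, hp, f3]
    simp only [G0]
    change _ * ((∏ i ∈ x₀, Fr.G1 i) * _) = _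
    linear_combination (∏ x ∈ y₁, Fr.G 1 x) ^ 2 * q3
  have NZ : ∀ j, Gv Fr.G j y ≠ 0 := fun j => prod_ne_zero_iff.2 fun x hx => by
    rcases (hy x).1 hx with ⟨i, -, rfl⟩ | k
    exacts [(sm0 i j).1, ne x (hV x k) j]
  refine ⟨y, mem_filter.2 ⟨mem_powerset.2 fun x hx => ?_, fun z hz => ?_⟩,
    ⟨s * (w₂ * ∏ x ∈ y₁, Fr.G 2 x : ℤ), ?_⟩, ⟨r * (w₃ * ∏ x ∈ y₁, Fr.G 1 x : ℤ), ?_⟩, NZ 2, NZ 1⟩
  · rcases (hy x).1 hx with ⟨i, hi, rfl⟩ | k
    exacts [mem_union_left _ (mem_image_of_mem _ (hx₀ hi)), mem_union_right _ (hV x k)]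
  · rcases mem_union.1 hz with hz | hz
    · obtain ⟨i, hi, rfl⟩ := mem_image.1 hz
      have k1 : ∏ t ∈ x₀, Fr.g dg ((0, none), 2 * t) ((0, none), 2 * i) = ∏ t ∈ x₀, Fr.τ t i :=
        prod_congr rfl fun t _ => by simp [Frame.g]
      have k2 : ∏ x ∈ y₁, Fr.g dg x ((0, none), 2 * i) = ∏ t ∈ x₀, Fr.τ t i := by
        rw [row i (mem_range.1 hi), jac_r _ _ _ fun x hx => ne x (hV x hx) 1,
          jac_r _ _ _ fun x hx => ne x (hV x hx) 2, ← prod_mul_distrib]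
        refine prod_congr rfl fun x hx => ?_
        have k := hV x hx
        rw [m1.1, m2 _ x (by rintro rfl; simpa using od _ k) (F.pr x k).1 (p2 x k)
          fun j => (F.pr x k).2 ((sm0 i _).2 _ (F.pr x k).1 j), G0, ab x k, ab x k]
        rcases tri x.1.1 with t | t | t <;> simp [t, jacobiSym.mul_left]
      rw [hp, k1, k2]
      exact prod_induction _ (fun z : ℤ => z * z = 1)
        (fun x y hx hy => by rw [mul_mul_mul_comm, hx, hy, one_mul]) rfl fun t _ => by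
          rcases hF.sgn.2 t i with e | e <;> simp [e]
    · have hzp := (F.pr z hz).1
      have hzi := Nat.prime_iff_prime_int.1 hzp
      have nd : ∀ x ∈ y, ¬(z.2 : ℤ) ∣ Fr.G z.1.1 x := fun x hx j => by
        rcases (hy x).1 hx with ⟨i, -, rfl⟩ | k
        · exact (F.pr z hz).2 ((sm0 i _).2 _ hzp j)
        · rw [Int.natCast_dvd, ab x (hV x k)] at j
          split_ifs at j with t
          · exact hzp.not_dvd_one j
          · exact t (by rw [F.dist z hz x (hV x k)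
              ((Nat.prime_dvd_prime_iff_eq hzp (F.pr x (hV x k)).1).1 j)])
      have nG : ¬(z.2 : ℤ) ∣ Gv Fr.G z.1.1 y := fun j => by
        obtain ⟨x, hx, j⟩ := (hzi.dvd_finsetProd_iff _).1 j
        exact nd x hx j
      have mem : z ∈ y ↔ (z.2 : ℤ) ∣ n₂ ∨ (z.2 : ℤ) ∣ n₃ := by
        rw [hy, hy₁]
        refine ⟨fun k => (k.resolve_left ?_).2, fun k => Or.inr ⟨hz, k⟩⟩
        rintro ⟨i, -, rfl⟩
        simpa using od _ hz
      have key : (if z ∈ y then dg z * jacobiSym (Fr.G z.1.1 z) z.2 else 1) *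
          jacobiSym (Gv Fr.G z.1.1 y) z.2 = 1 := by
        rw [GV z hz, gp.2.2.2.2 _ _ (od z hz)]
        rcases tri z.1.1 with t | t | t <;> rw [t] at nG ⊢
        · obtain ⟨γ, hγ⟩ := m3 y
          have := (c0 z hz t).2 (Gv Fr.G 0 y)
            ((w₂ * ∏ x ∈ y₁, Fr.G 2 x) * (w₃ * ∏ x ∈ y₁, Fr.G 1 x)) γ
            (fun e => mul_ne_zero (mul_ne_zero (NZ 0) (NZ 1)) (NZ 2) (by rw [hγ, e, mul_zero]))
            (by rw [mul_pow, ← E2, ← E3, sq, ← hγ]; ring) nG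
          simpa [mem, ← (c0 z hz t).1] using this
        · rw [jac_eq hzp (c1 z hz t).1 nG ⟨_, E3.trans (sq _)⟩]
          simpa [mem, (c1 z hz t).1] using (c1 z hz t).2
        · rw [jac_eq hzp (c2 z hz t).1 nG ⟨_, E2.trans (sq _)⟩]
          simpa [mem, (c2 z hz t).1] using (c2 z hz t).2
      have K : ∏ x ∈ y.erase z, Fr.g dg x z = ∏ x ∈ y.erase z, jacobiSym (Fr.G z.1.1 x) z.2 :=
        prod_congr rfl fun x hx => m2 x z (ne_of_mem_erase hx) hzp (p2 z hz)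
          (nd x (mem_of_mem_erase hx))
      rw [Gv, jac_l] at key
      by_cases k : z ∈ y
      · have := Fact.mk hzp
        rw [if_pos k, ← mul_prod_erase y _ k, ← K, mul_assoc, ← mul_assoc (jacobiSym _ _), ← sq,
          jacobiSym.sq_one (gcd_one (nd z k)), one_mul] at key
        have e : Fr.g dg z z = sg (dg z) := by simp [Frame.g, od z hz]
        rw [← mul_prod_erase y _ k, e, sg_eq (Int.eq_one_or_neg_one_of_mul_eq_one key), key]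
      · rw [erase_eq_of_notMem k] at K
        rw [K, ← key, if_neg k, one_mul]
  · have := congrArg (Int.cast : ℤ → ℚ) E2
    rw [e2]; push_cast at this ⊢; linear_combination s ^ 2 * this
  · have := congrArg (Int.cast : ℤ → ℚ) E3
    rw [e3]; push_cast at this ⊢; linear_combination r ^ 2 * this

end Pool.Agent.MP_a43263_nt.RH
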