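import Pool.Agent.MP_a43263_nt.RH.Spec
import Pool.Agent.MP_a43263_nt.RG.Par
import Pool.Agent.MP_a43263_nt.RG.Alg

/-! PROJECT RANKG, THEOREM G, modules BOR5, PAR2, ALG2: the parity of the corank of the descent
matrix; a small kernel gives the rank. -/

set_option autoImplicit false
set_option linter.unusedSectionVars false

noncomputable section

namespace Pool.Agent.MP_a43263_nt.RH

open Finset
open R2 (Sgn chi Ker sg sg_sgn sg_eq prod_sgn chi_eq_rows chi_comm chi_sgn mem_Ker ELS Sol2 SHAStmt)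
open RG

namespace ParH

open RG.Par (jac_prod)

/-- the characteristic vector is not isotropic -/
theorem part5 (hB : BORStmt) {ι : Type} [DecidableEq ι] {g : ι → ι → ℤ} (hg : Sgn g)
    (V w : Finset ι)
    (hw : w ⊆ V) (hd : ∀ a ∈ V, g a a = ∏ t ∈ w, g t a) (hc : chi g w w = -1) :
    ∃ κ : ℕ, (Ker g V).card = 2 ^ κ ∧ κ % 2 = (V.card + 1) % 2 := by
  set g' : Option ι → Option ι → ℤ := fun a b =>
    a.elim (b.elim (-1) fun _ => 1) fun x => b.elim 1 fun y => g x y with hg'def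
  have hg' : Sgn g' := by
    refine ⟨fun a b => ?_, fun a b => ?_⟩
    · cases a <;> cases b <;> simp [hg'def, hg.1]
    · cases a <;> cases b <;> simp [hg'def, hg.2]
  have hn : ∀ x : Finset ι, none ∉ x.map Function.Embedding.some := by simp
  have r1 : ∀ (x : Finset ι) (b : ι), ∏ a ∈ x.map Function.Embedding.some, g' a (some b) =
      ∏ a ∈ x, g a b := fun x b => by rw [prod_map]; rfl
  have r2 : ∀ x : Finset ι, ∏ a ∈ x.map Function.Embedding.some, g' a none = 1 := fun x => by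
    rw [prod_map]; exact prod_eq_one fun _ _ => rfl
  obtain ⟨κ, k1, k2⟩ := (hB _ g' hg' (insert none (V.map Function.Embedding.some))).2.2.2
    (insert none (w.map Function.Embedding.some)) (insert_subset_insert _ (map_subset_map.2 hw))
    (fun a ha => by
      rw [prod_insert (hn w)]
      rcases mem_insert.1 ha with rfl | ha
      · rw [r2, mul_one]
      · obtain ⟨b, hb, rfl⟩ := mem_map.1 ha
        exact (hd b hb).trans ((r1 w b).symm.trans (one_mul _).symm))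
    (by
      rw [chi_eq_rows] at hc ⊢
      rw [prod_insert (hn w), prod_insert (hn w), r2, prod_map,
        prod_congr rfl fun b _ => show ∏ a ∈ insert none (w.map Function.Embedding.some),
          g' a (Function.Embedding.some b) = ∏ a ∈ w, g a b from by
            rw [prod_insert (hn w)]; exact (one_mul _).trans (r1 w b), hc]
      rfl)
  refine ⟨κ, ?_, by rwa [card_insert_of_notMem (hn V), card_map] at k2⟩
  rw [← k1]
  refine card_bij (fun x _ => x.map Function.Embedding.some) (fun x hx => ?_)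
    (fun x _ y _ e => map_injective _ e) fun y hy => ?_
  · obtain ⟨a, b⟩ := mem_Ker.1 hx
    refine mem_Ker.2 ⟨(map_subset_map.2 a).trans (subset_insert _ _), fun c hc => ?_⟩
    rcases mem_insert.1 hc with rfl | hc
    · exact r2 x
    · obtain ⟨d, hd, rfl⟩ := mem_map.1 hc
      exact (r1 x d).trans (b d hd)
  · obtain ⟨a, b⟩ := mem_Ker.1 hy
    have h0 : none ∉ y := fun h => by
      have h1 := b none (mem_insert_self _ _)
      rw [← mul_prod_erase y _ h, prod_eq_one fun c hc => ?_] at h1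
      · exact absurd h1 (by simp [hg'def])
      · obtain ⟨d, rfl⟩ := Option.ne_none_iff_exists'.1 (ne_of_mem_erase hc)
        rfl
    obtain ⟨x, hx, rfl⟩ := subset_map_iff.1 ((subset_insert_iff_of_notMem h0).1 a)
    exact ⟨x, mem_Ker.2 ⟨hx, fun c hc => (r1 x c).symm.trans
      (b _ (mem_insert_of_mem (mem_map_of_mem _ hc)))⟩, rfl⟩

theorem jac_smooth {N A : ℕ} {u : ℤ} (hu : Smooth N u) (hA : A ≡ 1 [MOD 128 * N]) :
    jacobiSym u A = 1 := by
  have h4 : A ≡ 1 [MOD 4] := hA.of_dvd (Dvd.dvd.mul_right (by norm_num) _)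
  have odd : Odd A := Nat.odd_iff.2 (by unfold Nat.ModEq at h4; omega)
  have key : ∀ m : ℕ, m ≠ 0 → (∀ p : ℕ, p.Prime → p ∣ m → p ∣ N) → jacobiSym m A = 1 := by
    intro m
    induction m using induction_on_primes with
    | zero => exact fun h => absurd rfl h
    | one => exact fun _ _ => jacobiSym.one_left A
    | prime_mul p m hp ih =>
      intro h0 h
      have h1 : A ≡ 1 [MOD 4 * p] :=
        hA.of_dvd (mul_dvd_mul (by norm_num) (h p hp (dvd_mul_right _ _)))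
      rw [Nat.cast_mul, jacobiSym.mul_left, ih (right_ne_zero_of_mul h0)
        fun q hq k => h q hq (k.mul_left _), mul_one, jacobiSym.mod_right' p odd, h1,
        Nat.mod_eq_of_lt (by have := hp.pos; omega), jacobiSym.one_right]
  have k := key u.natAbs (Int.natAbs_ne_zero.2 hu.1) fun p hp h => hu.2 p hp (Int.natCast_dvd.2 h)
  rcases Int.natAbs_eq u with e | e
  · rw [e, k]
  · rw [e, ← neg_one_mul, jacobiSym.mul_left, k, mul_one, jacobiSym.at_neg_one odd,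
      ZMod.χ₄_nat_one_mod_four h4]

theorem jac_eq {u v : ℤ} {p : ℕ} (hp : p.Prime) (h : IsSquare (u * v)) (hu : ¬(p : ℤ) ∣ u)
    (hv : ¬(p : ℤ) ∣ v) : jacobiSym v p = jacobiSym u p := by
  obtain ⟨s, hs⟩ := h
  have := Fact.mk hp
  have h1 : ¬(p : ℤ) ∣ s := fun k =>
    ((Nat.prime_iff_prime_int.1 hp).dvd_or_dvd (hs ▸ k.mul_right s)).elim hu hv
  refine (Int.eq_of_mul_eq_one ?_).symm
  rw [← jacobiSym.mul_left, hs, ← sq, jacobiSym.sq_one' (R2.Loc.gcd_one h1)]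

theorem jac_nat_prod {ι : Type} [DecidableEq ι] (m : ℤ) (s : Finset ι) (f : ι → ℕ)
    (h : ∀ a ∈ s, f a ≠ 0) : jacobiSym m (∏ a ∈ s, f a) = ∏ a ∈ s, jacobiSym m (f a) := by
  induction s using Finset.induction_on with
  | empty => simp [jacobiSym.one_right]
  | insert a s ha ih =>
    rw [prod_insert ha, prod_insert ha, jacobiSym.mul_right' m (h a (mem_insert_self _ _))
      (prod_ne_zero_iff.2 fun b hb => h b (mem_insert_of_mem hb)),
      ih fun b hb => h b (mem_insert_of_mem hb)]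

variable {n N : ℕ} {a b : ℤ} {Fr : Frame} {V : Finset (Gen n)} {dg : Gen n → ℤ} {A : Fin 3 → ℕ}

/-- the generator of the frame with number `i` -/
def fr (n i : ℕ) : Gen n := ((0, none), 2 * i)

theorem fr_inj : Function.Injective (fr n) := fun i j e => by
  have := (Prod.mk.inj e).2
  omega

theorem g_fr (i j : ℕ) : Fr.g dg (fr n i) (fr n j) = Fr.τ i j := by
  simp [Frame.g, fr]

theorem G_fr (i : ℕ) (j : Fin 3) :
    Fr.G j (fr n i) = ![Fr.G2 i * Fr.G1 i, Fr.G1 i, Fr.G2 i] j := by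
  simp [Frame.G, fr]

theorem odd_V (L : Loc2 N a b V dg A) {x : Gen n} (hx : x ∈ V) : x.2 ≠ 2 ∧ x.2 % 2 = 1 :=
  have h : x.2 ≠ 2 := fun e => (L.pr x hx).2 (e ▸ L.two)
  ⟨h, (L.pr x hx).1.eq_two_or_odd.resolve_left h⟩

theorem fr_ne (L : Loc2 N a b V dg A) {x : Gen n} (hx : x ∈ V) (i : ℕ) : fr n i ≠ x := by
  rintro rfl
  have := (odd_V L hx).2
  simp [fr] at this

theorem G_V (L : Loc2 N a b V dg A) {x : Gen n} (hx : x ∈ V) (j : Fin 3) :
    Fr.G j x = Gp x.1.1 x.2 j := if_neg (by have := (odd_V L hx).2; omega)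

theorem g_V (L : Loc2 N a b V dg A) {x : Gen n} (hx : x ∈ V) : Fr.g dg x x = sg (dg x) := by
  have := (odd_V L hx).2
  simp [Frame.g, this]

theorem nd_fr (hF : Fr.Ok N a b) (L : Loc2 N a b V dg A) {x : Gen n} (hx : x ∈ V) (i : ℕ)
    (j : Fin 3) : ¬(x.2 : ℤ) ∣ Fr.G j (fr n i) := by
  obtain ⟨hp, hN⟩ := L.pr x hx
  have h2 : ¬(x.2 : ℤ) ∣ Fr.G2 i := fun k => hN ((hF.sm i).1.2 _ hp k)
  have h1 : ¬(x.2 : ℤ) ∣ Fr.G1 i := fun k => hN ((hF.sm i).2.2 _ hp k)
  rw [G_fr]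
  fin_cases j
  · exact fun k => ((Nat.prime_iff_prime_int.1 hp).dvd_or_dvd k).elim h2 h1
  · exact h1
  · exact h2

theorem nd_V (gp : GPStmt) (L : Loc2 N a b V dg A) {x t : Gen n} (hx : x ∈ V) (ht : t ∈ V)
    (hne : t ≠ x) (j : Fin 3) : ¬(x.2 : ℤ) ∣ Fr.G j t := by
  have hp := (L.pr x hx).1
  rw [G_V L ht]
  intro k
  by_cases e : j = t.1.1
  · rw [e] at k
    rcases (gp.1 t.1.1 j t.2).2 with h | h <;> rw [h] at k
    · exact hp.not_dvd_one (by exact_mod_cast k)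
    · exact hp.not_dvd_one (by exact_mod_cast dvd_neg.1 k)
  · have k' : x.2 ∣ t.2 := by
      rcases (gp.1 t.1.1 j t.2).1 e with h | h <;> rw [h] at k
      · exact_mod_cast k
      · exact_mod_cast dvd_neg.1 k
    exact hne (L.dist t ht x hx ((Nat.prime_dvd_prime_iff_eq hp (L.pr t ht).1).1 k').symm)

theorem prod_zero (gp : GPStmt) (L : Loc2 N a b V dg A) (j : Fin 3) :
    ∏ t ∈ V.filter (fun x => x.1.1 = 0), Fr.G j t = if j = 0 then 1 else (A 0 : ℤ) := by
  have inj : Set.InjOn (fun x : Gen n => x.2) (V.filter fun x => x.1.1 = 0) := fun x hx y hy e =>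
    L.dist x (mem_filter.1 hx).1 y (mem_filter.1 hy).1 e
  have pr : ∀ q ∈ (V.filter fun x => x.1.1 = 0).image (fun x => x.2), q.Prime := fun q hq => by
    obtain ⟨x, hx, rfl⟩ := mem_image.1 hq
    exact (L.pr x (mem_filter.1 hx).1).1
  have e : A 0 = ∏ q ∈ (V.filter fun x => x.1.1 = 0).image (fun x => x.2), q := by
    rw [L.hA 0, prod_image inj]
  have h4 : A 0 ≡ 1 [MOD 4] := (L.one 0).of_dvd (Dvd.dvd.mul_right (by norm_num) _)
  have sq : Squarefree (A 0) := by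
    rw [e]
    exact squarefree_prod_of_pairwise_isCoprime (fun p hp q hq h => Nat.coprime_iff_isRelPrime.1
      ((Nat.coprime_primes (pr p hp) (pr q hq)).2 h)) fun p hp => (pr p hp).squarefree
  rw [← gp.2.1 0 j (A 0) sq h4, e, Nat.primeFactors_prod pr, prod_image inj]
  exact prod_congr rfl fun t ht => by rw [G_V L (mem_filter.1 ht).1, (mem_filter.1 ht).2]

/-- the symbol of the characteristic vector at a prime of `V` -/
theorem jac_w (gp : GPStmt) (hF : Fr.Ok N a b) (L : Loc2 N a b V dg A) {x : Gen n} (hx : x ∈ V) :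
    jacobiSym ((∏ t ∈ Fr.κ.image (fr n), Fr.G x.1.1 t) *
      ∏ t ∈ V.filter (fun x => x.1.1 = 0), Fr.G x.1.1 t) x.2 =
      if x.1.1 = 0 then jacobiSym (-1) x.2 else dg x := by
  obtain ⟨hp, hN⟩ := L.pr x hx
  have hP := Nat.prime_iff_prime_int.1 hp
  have nd : ¬(x.2 : ℤ) ∣ ∏ i ∈ Fr.κ, Fr.G x.1.1 (fr n i) := fun k => by
    obtain ⟨i, -, k⟩ := hP.dvd_finsetProd_iff _ |>.1 k
    exact nd_fr hF L hx i _ k
  have nab : ¬(x.2 : ℤ) ∣ a - b := fun k => hN (L.sd.2 _ hp k)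
  have dA : (x.2 : ℤ) ∣ A x.1.1 := by
    rw [Int.natCast_dvd_natCast, L.hA]
    exact dvd_prod_of_mem _ (mem_filter.2 ⟨hx, rfl⟩)
  have hs := L.sum
  have tri : ∀ j : Fin 3, j = 0 ∨ j = 1 ∨ j = 2 := by decide
  rw [prod_image fr_inj.injOn, prod_zero gp L, L.dg x hx, jacobiSym.mul_left]
  simp only [G_fr] at nd ⊢
  rcases tri x.1.1 with t | t | t <;> rw [t] at nd dA ⊢
  · rw [if_pos rfl, if_pos rfl, jacobiSym.one_left, mul_one]
    refine jac_eq hp ?_ (fun k => hp.not_dvd_one (by exact_mod_cast dvd_neg.1 k)) nd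
    obtain ⟨s, h2⟩ := hF.k2
    obtain ⟨r, h1⟩ := hF.k1
    have h0 : a - b ≠ 0 := L.sd.1
    have e : (s * r) ^ 2 = (a - b) ^ 2 * (-1 * ∏ i ∈ Fr.κ, Fr.G2 i * Fr.G1 i) := by
      rw [prod_mul_distrib]
      linear_combination -(r * r) * h2 - ((b - a) * ∏ i ∈ Fr.κ, Fr.G2 i) * h1
    obtain ⟨c, hc⟩ := (Int.pow_dvd_pow_iff two_ne_zero).1 (Dvd.intro _ e.symm)
    exact ⟨c, mul_left_cancel₀ (pow_ne_zero 2 h0) (by
      change _ * (-1 * ∏ i ∈ Fr.κ, Fr.G2 i * Fr.G1 i) = _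
      rw [← e, hc]; ring)⟩
  · rw [if_neg (by decide), if_neg (by decide)]
    refine (congrArg (· * _) (jac_eq hp hF.k1 nab nd)).trans ?_
    rw [← jacobiSym.mul_left, ← hs]
    exact jacobiSym.mod_left' (Int.modEq_iff_dvd.2 (by
      have := (dA.mul_left a).neg_right
      change (x.2 : ℤ) ∣ -(a * A 1) at this
      change (x.2 : ℤ) ∣ -(b * A 2) - (a * A 1 - b * A 2)
      rwa [show -(b * A 2) - (a * A 1 - b * A 2) = -(a * A 1) by ring]))
  · rw [if_neg (by decide), if_neg (by decide)]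
    refine (congrArg (· * _) (jac_eq hp hF.k2 (by rwa [dvd_sub_comm]) nd)).trans ?_
    rw [← jacobiSym.mul_left, show (b - a) * A 0 = b * A 2 - a * A 1 by linear_combination hs]
    exact jacobiSym.mod_left' (Int.modEq_iff_dvd.2 (by
      have := (dA.mul_left b).neg_right
      change (x.2 : ℤ) ∣ -(b * A 2) at this
      change (x.2 : ℤ) ∣ -(a * A 1) - (b * A 2 - a * A 1)
      rwa [show -(a * A 1) - (b * A 2 - a * A 1) = -(b * A 2) by ring]))

end ParH

open ParH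

theorem bor5 : BORStmt → BOR5Stmt := by
  intro hB ι _ g hg V w hw hd
  rcases chi_sgn hg w w with h | h
  · rw [if_pos h]
    exact (hB ι g hg V).2.2.2 w hw hd h
  · rw [if_neg (by rw [h]; decide)]
    exact part5 hB hg V w hw hd h

theorem par : GPStmt → MATStmt → BOR5Stmt → PAR2Stmt := by
  intro gp mat hB n N a b Fr V dg A hF L h1
  obtain ⟨m1, m2, -⟩ := mat n Fr dg
  have hg := m1 hF.sgn
  set Z := V.filter fun x => x.1.1 = 0 with hZ
  have hV0 : Fr.V0 n = (range Fr.k).image (fr n) := rfl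
  have dis : ∀ (s : Finset ℕ) (W : Finset (Gen n)), W ⊆ V → Disjoint (s.image (fr n)) W := by
    intro s W hW
    rw [disjoint_left]
    intro x h1 h2
    obtain ⟨i, -, rfl⟩ := mem_image.1 h1
    exact fr_ne L (hW h2) i rfl
  have hZV : Z ⊆ V := filter_subset _ _
  have hw : Fr.κ.image (fr n) ∪ Z ⊆ Fr.V0 n ∪ V :=
    union_subset_union (image_subset_image hF.sub) hZV
  have hd : ∀ x ∈ Fr.V0 n ∪ V, Fr.g dg x x = ∏ t ∈ Fr.κ.image (fr n) ∪ Z, Fr.g dg t x := by
    intro x hx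
    rcases mem_union.1 hx with hx | hx
    · obtain ⟨i, hi, rfl⟩ := mem_image.1 (hV0 ▸ hx)
      have e : ∏ t ∈ Z, Fr.g dg t (fr n i) = jacobiSym (Fr.G2 i * Fr.G1 i) (A 0) := by
        rw [L.hA 0, jac_nat_prod _ _ _ fun t ht => (L.pr t (hZV ht)).1.ne_zero]
        refine prod_congr rfl fun t ht => ?_
        rw [hg.1, m2 _ t (fr_ne L (hZV ht) i) (L.pr t (hZV ht)).1 (odd_V L (hZV ht)).1
          (nd_fr hF L (hZV ht) i _), (mem_filter.1 ht).2, G_fr]
        rfl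
      rw [prod_union (dis _ _ hZV), prod_image fr_inj.injOn, e, jacobiSym.mul_left,
        jac_smooth (hF.sm i).1 (L.one 0), jac_smooth (hF.sm i).2 (L.one 0), mul_one, mul_one, g_fr,
        hF.wu i (mem_range.1 hi)]
      exact prod_congr rfl fun t _ => (g_fr t i).symm
    · have row : ∏ t ∈ (Fr.κ.image (fr n) ∪ Z).erase x, Fr.g dg t x =
          jacobiSym (∏ t ∈ (Fr.κ.image (fr n) ∪ Z).erase x, Fr.G x.1.1 t) x.2 := by
        rw [RG.Par.jac_prod]
        refine prod_congr rfl fun t ht => ?_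
        obtain ⟨hne, ht⟩ := mem_erase.1 ht
        refine m2 t x hne (L.pr x hx).1 (odd_V L hx).1 ?_
        rcases mem_union.1 ht with ht | ht
        · obtain ⟨i, -, rfl⟩ := mem_image.1 ht
          exact nd_fr hF L hx i _
        · exact nd_V gp L hx (hZV ht) hne _
      have jw := jac_w gp hF L hx
      rw [← prod_union (dis _ _ hZV)] at jw
      by_cases hc : x.1.1 = 0
      · have hxw : x ∈ Fr.κ.image (fr n) ∪ Z := mem_union_right _ (mem_filter.2 ⟨hx, hc⟩)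
        have k := gp.2.2.2.2 x.1.1 x.2 (odd_V L hx).2
        rw [← mul_prod_erase _ _ hxw, jacobiSym.mul_left, ← row, G_V L hx, k, if_pos hc, if_pos hc] at jw
        have ne : jacobiSym (-1) x.2 ≠ 0 := jacobiSym.ne_zero (by simp)
        rw [← mul_prod_erase _ _ hxw, (mul_eq_left₀ ne).1 jw, mul_one]
      · have hxw : x ∉ Fr.κ.image (fr n) ∪ Z := fun h => (mem_union.1 h).elim
          (fun h => disjoint_left.1 (dis _ V Subset.rfl) h hx) fun h => hc (mem_filter.1 h).2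
        rw [erase_eq_of_notMem hxw, jw, if_neg hc] at row
        rw [g_V L hx, ← row]
        exact sg_eq (prod_sgn _ fun t _ => hg.2 t x)
  obtain ⟨κ, k1, k2⟩ := hB _ _ hg _ _ hw hd
  have e : chi (Fr.g dg) (Fr.κ.image (fr n) ∪ Z) (Fr.κ.image (fr n) ∪ Z) = chi Fr.τ Fr.κ Fr.κ := by
    have e1 : ∏ x ∈ Z, Fr.g dg x x = 1 := by
      rw [← h1]
      refine prod_congr rfl fun x hx => ?_
      rw [g_V L (hZV hx)]
      exact sg_eq (Int.isUnit_iff.1 (isUnit_of_dvd_one (h1 ▸ dvd_prod_of_mem _ hx)))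
    rw [chi_eq_rows, ← prod_congr rfl fun x hx => hd x (hw hx), prod_union (dis _ _ hZV), e1,
      mul_one, prod_image fr_inj.injOn, chi_eq_rows]
    exact prod_congr rfl fun i hi => (g_fr i i).trans (hF.wu i (mem_range.1 (hF.sub hi)))
  refine ⟨κ, k1, ?_⟩
  rw [k2, e, hV0, card_union_of_disjoint (dis _ V Subset.rfl), card_image_of_injective _ fr_inj,
    card_range, Frame.par, add_right_comm]

open RG.AlgAux in
theorem alg : SHAStmt → RANKStmt → ALG2Stmt := by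
  intro sha rank a b r ι ι' I d₂ d₃ K φ₂ φ₃ ha hb hab hI hg hi hK loc
  classical
  have els : ∀ e₂ e₃ : ℚ, Sol2 a b e₂ e₃ → ELS a b e₂ e₃ := fun e₂ e₃ h =>
    ⟨RG.AlgAux.cast h ℝ, fun p _ => RG.AlgAux.cast h ℚ_[p]⟩
  choose y hy h₂ h₃ z₂ z₃ using fun i (h : i ∈ I) =>
    loc _ _ (hg i h).1 (hg i h).2.1 (els _ _ (hg i h).2.2)
  have key : ∀ e₂ e₃ : ℚ, e₂ ≠ 0 → e₃ ≠ 0 → ELS a b e₂ e₃ →
      ∃ i ∈ I, IsSquare (e₂ * d₂ i) ∧ IsSquare (e₃ * d₃ i) := by
    intro e₂ e₃ n₂ n₃ h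
    obtain ⟨z, hz, k₂, k₃, u₂, u₃⟩ := loc _ _ n₂ n₃ h
    obtain ⟨i, hiI, rfl⟩ := Finset.surj_on_of_inj_on_of_card_le y hy (fun i j u v e =>
      hi i u j v (sq_of (z₂ j v) (e ▸ h₂ i u) (h₂ j v))
        (sq_of (z₃ j v) (e ▸ h₃ i u) (h₃ j v))) (hK.trans_eq hI.symm) z hz
    exact ⟨i, hiI, sq_of u₂ k₂ (h₂ i hiI), sq_of u₃ k₃ (h₃ i hiI)⟩
  obtain ⟨hE, hr⟩ := rank _ _ r ι I d₂ d₃ ha hb hab hI hg hi fun e₂ e₃ n₂ n₃ h =>
    key e₂ e₃ n₂ n₃ (els _ _ h)
  refine ⟨hE, hr, sha _ _ ha hb hab fun e₂ e₃ n₂ n₃ h => ?_⟩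
  obtain ⟨i, hiI, k₂, k₃⟩ := key e₂ e₃ n₂ n₃ h
  obtain ⟨s, hs, f₂⟩ := split n₂ (hg i hiI).1 k₂
  obtain ⟨t, ht, f₃⟩ := split n₃ (hg i hiI).2.1 k₃
  exact R2.Loc.scale hs ht f₂ f₃ (hg i hiI).2.2

end Pool.Agent.MP_a43263_nt.RH
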