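import Pool.Agent.MP_a43263_nt.RH.Spec
import Pool.Agent.MP_a43263_nt.RU.Pty

/-! RANKG, theorem G, row PTY2: from the affine version, with four auxiliary forms (each of two
forms is used twice, so the parity is unchanged). -/

set_option autoImplicit false

noncomputable section

namespace Pool.Agent.MP_a43263_nt.RH

open Finset

theorem pty : PTY2Stmt := by
  intro I _
  classical
  obtain ⟨P, hP⟩ := RG.ptyU (I ⊕ Bool × Bool)
  refine ⟨P, fun κ Q ε hQ h1 h2 _ => ?_⟩
  have one : ∀ p : ℕ, p.Prime → p ∣ Q → ¬(p : ℤ) ∣ 1 := fun p hp _ hd =>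
    hp.one_lt.ne' (by exact_mod_cast Int.eq_one_of_dvd_one (by positivity) hd)
  obtain ⟨x, y, t, a, ht, ha, hs, hb, he⟩ := hP Q (Sum.elim κ fun _ => Q)
    (Sum.elim (fun _ => Q) fun c => if c.1 then Q else 0) (fun _ => 1) Q 1 ε hQ h1
    (fun i => by
      rcases i with i | ⟨c, d⟩
      · exact ⟨(h2 i).1, (h2 i).2.1, (h2 i).2.2, dvd_rfl, one⟩
      · refine ⟨hQ, dvd_rfl, fun _ _ h => h, ?_, one⟩
        cases c <;> simp) hQ dvd_rfl (fun _ _ h => h) one
  have e0 : ∀ d, (a (Sum.inr (false, d)) : ℤ) = 1 + Q * x := fun d => by rw [ha]; simp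
  have e1 : ∀ d, (a (Sum.inr (true, d)) : ℤ) = t + Q * x := fun d => by
    rw [ha, ht]; simp; ring
  have hx : 0 ≤ x := by
    have h3 := (hb (Sum.inr (false, true))).1.ne_zero
    have h4 := e0 true
    have h5 : (0 : ℤ) < Q := by exact_mod_cast hQ
    by_contra hc
    have : (Q : ℤ) * x < 0 := mul_neg_of_pos_of_neg h5 (not_le.1 hc)
    omega
  obtain ⟨s, rfl⟩ := Int.eq_ofNat_of_zero_le hx
  have e2 : ∀ i, a (Sum.inl i) = t + κ i * s := fun i => by
    have : (a (Sum.inl i) : ℤ) = t + κ i * s := by rw [ha, ht]; simp; ring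
    exact_mod_cast this
  refine ⟨s, t, (Nat.modEq_iff_dvd.2 ⟨y, by rw [ht]; simp⟩).symm, ?_, hs,
    fun i => e2 i ▸ (hb _).1, ?_⟩
  · have h3 := (hb (Sum.inr (true, true))).2
    have h4 : a (Sum.inr (true, true)) = t + Q * s := by exact_mod_cast e1 true
    rw [h4, Nat.coprime_self_add_left] at h3
    exact Nat.Coprime.coprime_mul_left h3
  · have f0 : a (Sum.inr (false, true)) = a (Sum.inr (false, false)) := by
      exact_mod_cast (e0 true).trans (e0 false).symm
    have f1 : a (Sum.inr (true, true)) = a (Sum.inr (true, false)) := by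
      exact_mod_cast (e1 true).trans (e1 false).symm
    simp only [Fintype.sum_sum_type, Fintype.sum_prod_type, Fintype.sum_bool, f0, f1, e2] at he
    omega

end Pool.Agent.MP_a43263_nt.RH
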