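import Pool.Agent.MP_a43263_nt.RG.Spec

/-! PROJECT RANKG, THEOREM G (no split fibre): definitions.
Blueprint: `/team-store/RANKG_G_BLUEPRINT.md`. -/

set_option autoImplicit false

noncomputable section

namespace Pool.Agent.MP_a43263_nt.RH

open Finset Filter
open R2 (Sgn chi Ker sg pri PP chs Sc Shape)
open RG

variable {n : ℕ}

/-! ### Hilbert symbols -/

/-- the part of `x` prime to `p` -/
def up (p : ℕ) (x : ℤ) : ℤ := x / (p : ℤ) ^ padicValInt p x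

/-- the Hilbert symbol at the prime `p` -/
def hs (p : ℕ) (x y : ℤ) : ℤ :=
  if p = 2 then (if up 2 x % 4 = 3 ∧ up 2 y % 4 = 3 then -1 else 1) *
    jacobiSym 2 (up 2 x).natAbs ^ padicValInt 2 y * jacobiSym 2 (up 2 y).natAbs ^ padicValInt 2 x
  else jacobiSym (-1) p ^ (padicValInt p x * padicValInt p y) *
    jacobiSym (up p x) p ^ padicValInt p y * jacobiSym (up p y) p ^ padicValInt p x

/-- the conic `x X² + y Y² = Z²` has a point over `K` -/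
def Conic {K : Type} [Field K] (x y : K) : Prop :=
  ∃ X Y Z : K, ¬(X = 0 ∧ Y = 0 ∧ Z = 0) ∧ x * X ^ 2 + y * Y ^ 2 = Z ^ 2

/-- nonzero, and all primes divide `N` -/
def Smooth (N : ℕ) (u : ℤ) : Prop := u ≠ 0 ∧ ∀ p : ℕ, p.Prime → (p : ℤ) ∣ u → p ∣ N

/-- soluble at the real place and at the primes of `N` -/
def SolS (N : ℕ) (a b d₂ d₃ : ℤ) : Prop :=
  Cover (a : ℝ) b d₂ d₃ ∧ ∀ (p : ℕ) [Fact p.Prime], p ∣ N → Cover (a : ℚ_[p]) b d₂ d₃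

/-! ### the values of the generators -/

/-- the sign is chosen so that the value is one modulo four -/
def st (p : ℕ) : ℤ := if p % 4 = 3 then -p else p

/-- the component `i` (`0`: `d₂ d₃`, `1`: `d₃`, `2`: `d₂`) of the prime `p` of class `c` -/
def Gp (c : Fin 3) (p : ℕ) (i : Fin 3) : ℤ :=
  if i = c then (if c = 0 ∧ p % 4 = 3 then -1 else 1) else if i = 2 ∨ c = 1 then p else st p

def Gv (G : Fin 3 → Gen n → ℤ) (j : Fin 3) (x : Finset (Gen n)) : ℤ := ∏ a ∈ x, G j a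

/-- generators for the bad places: values, matrix, characteristic vector -/
structure Frame where
  k : ℕ
  G2 : ℕ → ℤ
  G1 : ℕ → ℤ
  τ : ℕ → ℕ → ℤ
  κ : Finset ℕ

structure Frame.Ok (Fr : Frame) (N : ℕ) (a b : ℤ) : Prop where
  sgn : Sgn Fr.τ
  sm : ∀ i, Smooth N (Fr.G2 i) ∧ Smooth N (Fr.G1 i)
  ind : ∀ x ⊆ range Fr.k, IsSquare (∏ i ∈ x, Fr.G2 i) → IsSquare (∏ i ∈ x, Fr.G1 i) → x = ∅
  sub : Fr.κ ⊆ range Fr.k
  k2 : IsSquare ((b - a) * ∏ i ∈ Fr.κ, Fr.G2 i)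
  k1 : IsSquare ((a - b) * ∏ i ∈ Fr.κ, Fr.G1 i)
  wu : ∀ i < Fr.k, Fr.τ i i = ∏ t ∈ Fr.κ, Fr.τ t i
  loc : ∀ (u₂ u₃ m₃ : ℤ) (m₂ : ℕ), Smooth N u₂ → Smooth N u₃ → m₂.Coprime N → m₃ % 4 = 1 →
    m₃.natAbs.Coprime N → SolS N a b (u₂ * m₂) (u₃ * m₃) →
    ∃ x ⊆ range Fr.k, IsSquare (u₂ * ∏ i ∈ x, Fr.G2 i) ∧ IsSquare (u₃ * ∏ i ∈ x, Fr.G1 i) ∧
      ∀ i < Fr.k, ∏ t ∈ x, Fr.τ t i = jacobiSym (Fr.G2 i) m₃.natAbs * jacobiSym (Fr.G1 i) m₂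

/-- the parity of the corank of the frame -/
def Frame.par (Fr : Frame) : ℕ := Fr.k + if chi Fr.τ Fr.κ Fr.κ = 1 then 0 else 1

/-- the generators of the frame carry even labels -/
def Frame.V0 (Fr : Frame) (n : ℕ) : Finset (Gen n) :=
  (range Fr.k).image fun i => ((0, none), 2 * i)

def Frame.G (Fr : Frame) (j : Fin 3) (a : Gen n) : ℤ :=
  if a.2 % 2 = 0 then ![Fr.G2 (a.2 / 2) * Fr.G1 (a.2 / 2), Fr.G1 (a.2 / 2), Fr.G2 (a.2 / 2)] j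
  else Gp a.1.1 a.2 j

/-- the descent matrix -/
def Frame.g (Fr : Frame) (dg : Gen n → ℤ) (a b : Gen n) : ℤ :=
  if a.2 % 2 = 0 ∧ b.2 % 2 = 0 then Fr.τ (a.2 / 2) (b.2 / 2)
  else if a = b then sg (dg a)
  else if a.2 % 2 = 0 ∨ (b.2 % 2 = 1 ∧ a.1.1 ≤ b.1.1) then sg (jacobiSym (Fr.G b.1.1 a) b.2)
  else sg (jacobiSym (Fr.G a.1.1 b) a.2)

/-- the curves `y ^ 2 = x (x - a A₁) (x - b A₂)` close to `(a, b)` at the bad places -/
structure Loc2 (N : ℕ) (a b : ℤ) (V : Finset (Gen n)) (dg : Gen n → ℤ) (A : Fin 3 → ℕ) : Prop where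
  pos : 0 < N
  two : 2 ∣ N
  sa : Smooth N a
  sb : Smooth N b
  sd : Smooth N (a - b)
  sq : (a - b) ^ 2 ∣ N
  pr : ∀ x ∈ V, x.2.Prime ∧ ¬x.2 ∣ N
  dist : RG.Dist V
  hA : ∀ i, A i = ∏ x ∈ V.filter (fun x => x.1.1 = i), x.2
  one : ∀ i, A i ≡ 1 [MOD 128 * N]
  sum : a * A 1 - b * A 2 = (a - b) * A 0
  dg : ∀ x ∈ V, dg x = jacobiSym (![-(a * A 1), -(b * A 2), -(a * A 1)] x.1.1) x.2

/-! ### the data of the analytic part -/

/-- `D` gives the modulus, the pattern and the diagonal constants; its fields `V0`, `dg` are not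
used -/
structure Dat2 (n : ℕ) where
  D : Dat n
  W0 : Finset (Gen n)
  g : Gen n → Gen n → ℤ
  G : Fin 3 → Gen n → ℤ

/-- a prime that belongs to a form -/
def Ord (M : ℕ) (a : Gen n) : Prop := a.1.2 ≠ none ∧ a.2.Prime ∧ ¬a.2 ∣ M

structure Dat2.Ok (E : Dat2 n) : Prop where
  ok : E.D.Ok
  sgn : Sgn E.g
  fix : ∀ a ∈ E.W0, a.1.2 = none ∧ a.2 ≤ E.D.M ∧ ∀ j, Smooth E.D.M (E.G j a)
  ord : ∀ j a, Ord E.D.M a → E.G j a = Gp a.1.1 a.2 j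
  row : ∀ a b, Ord E.D.M b → a ∈ E.W0 ∨ (Ord E.D.M a ∧ a.2 ≠ b.2) →
    E.g a b = jacobiSym (E.G b.1.1 a) b.2
  dia : ∀ (h : Ix n) (p : ℕ), p.Prime → ¬p ∣ E.D.M →
    E.g (tg h, p) (tg h, p) = jacobiSym (E.D.c h) p
  ind : ∀ U ⊆ E.W0, ∀ i j, i ≠ j → IsSquare (Gv E.G i U) → IsSquare (Gv E.G j U) → U = ∅

def Dat2.VV (E : Dat2 n) (l : Ix n → ℕ) : Finset (Gen n) := E.W0 ∪ gens l

/-- the character of a set of whole forms at the primes of the form `k` -/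
def Cy2 (D : Dat n) (y : Finset (Ix n)) (k : Ix n) : ℤ :=
  (if k ∈ y then (if k.1 = 0 then -D.c k else D.c k) else 1) *
    ∏ j ∈ y.filter (fun j => j.1 ≠ k.1), (D.e j - D.e k)

/-- geometric classes -/
def Geo2 (E : Dat2 n) (y : Finset (Ix n)) (U : Finset (Gen n)) : Prop :=
  ∀ k : Ix n, IsSquare (Gv E.G k.1 U * Cy2 E.D y k)

open Classical in
def geoSet2 (E : Dat2 n) : Finset (Finset (Ix n) × Finset (Gen n)) :=
  (Yc n ×ˢ Ker E.g E.W0).filter fun x => Geo2 E x.1 x.2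

/-- a class that is not geometric satisfies the rows of `W0`, `W` and `W'` -/
def Bad2 (E : Dat2 n) (W W' : Finset (Gen n)) : Prop :=
  ∃ y ∈ Yc n, ∃ U ⊆ E.W0 ∪ W, ¬Geo2 E y U ∧ (∀ b ∈ E.W0, ∏ a ∈ U, E.g a b = 1) ∧
    ∀ (k : Ix n) (p : ℕ), (tg k, p) ∈ W ∪ W' →
      ∏ a ∈ U, E.g a (tg k, p) = jacobiSym (Cy2 E.D y k) p

open Classical in
/-- the sum of all terms with given frozen data -/
def keySum2 (S : Sc) (E : Dat2 n) (y y' : Finset (Ix n)) (f g : TL n)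
    (ok : Finset (TL n) → Prop) (O O₁ O₂ : Finset (Gen n)) (i : ℕ) : ℝ :=
  ∑ l ∈ AA S E.D, ∑ U ∈ (le S.Y' (E.VV l)).powerset, ∑ U' ∈ (le S.Y' (E.VV l)).powerset,
    ∑ s ∈ md S.Y S.Y' (E.VV l),
      if ok (pat (md S.Y S.Y' (E.VV l)) U U') ∧ tl U U' s = g ∧
          outer S (E.VV l) U U' f g s = O ∧ O ∩ U = O₁ ∧ O ∩ U' = O₂ ∧
          2 ^ i < nOf S (E.VV l) U U' f ∧ nOf S (E.VV l) U U' f ≤ 2 ^ (i + 1)
        then term E.g (E.VV l) y y' U U' else 0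

/-! ### surfaces -/

/-- the hypotheses of the main theorem -/
structure Hyp2 (F : Surf n) (r : ℕ) : Prop where
  ev : Even n
  c0 : ∀ i, F.c i ≠ 0
  ne : ∀ j k, j ≠ k → F.L j (F.root k) ≠ 0
  sum : ∀ v : ℚ × ℚ, F.D 0 v = F.D 1 v - F.D 2 v
  card : {y | ∃ u, F.InS u y}.ncard = 2 ^ (r + 2)
  sol : ∀ u y, F.InS u y → Cover (F.D 1 ((RatFunc.X : RatFunc ℚ), 1)) (F.D 2 (RatFunc.X, 1))
    (F.del u y 2 (RatFunc.X, 1)) (F.del u y 1 (RatFunc.X, 1))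

/-- the diagonal constants -/
def cZ2 (F : Surf n) (j : Ix n) : ℤ :=
  ![-F.DZ 1 (F.rootZ j), -F.DZ 2 (F.rootZ j), -F.DZ 1 (F.rootZ j)] j.1

/-- the value of the group `i` at the fixed fibre -/
def bv (F : Surf n) (μ : Ix n → ℤ) (i : Fin 3) : ℤ := F.c i * ∏ k, μ (i, k)

/-- the part of the base data that does not depend on the parity -/
structure Pre (F : Surf n) (N : ℕ) (μ : Ix n → ℤ) : Prop where
  pos : 0 < N
  two : 2 ∣ N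
  sc : ∀ i, Smooth N (F.c i)
  sr : ∀ j k, j ≠ k → Smooth N (F.LZ j (F.rootZ k))
  sm : ∀ j, Smooth N (μ j)
  sum : bv F μ 0 = bv F μ 1 - bv F μ 2
  sq : bv F μ 0 ^ 2 ∣ N

/-- a base point `v0` close to the fixed fibre; the fields `g`, `δ` of `B` are not used -/
structure Ok2 (F : Surf n) (B : Base n) : Prop where
  pre : Pre F B.N B.μ
  l0 : ∀ j, F.LZ j B.v0 = B.μ j * B.a j
  l1 : ∀ j, F.LZ j B.v1 = B.μ j * B.a j * B.e j
  prim : IsCoprime B.v0.1 B.v0.2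
  ne : ∀ j k, j ≠ k → B.e j ≠ B.e k
  sqf : ∀ j, Squarefree (B.a j)
  cop : ∀ j k, j ≠ k → (B.a j).Coprime (B.a k)
  one : ∀ j, B.a j ≡ 1 [MOD 128 * B.N]

/-- the primes of the base point -/
def V1 (B : Base n) : Finset (Gen n) :=
  univ.biUnion fun j : Ix n => (B.a j).primeFactors.image fun p => ((j.1, none), p)

def dg2 (F : Surf n) (B : Base n) (x : Gen n) : ℤ :=
  x.1.2.elim (∏ j ∈ univ.filter (fun j => x.2 ∣ B.a j), jacobiSym (cZ2 F j) x.2)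
    fun k => jacobiSym (cZ2 F (x.1.1, k)) x.2

def dat2 (F : Surf n) (B : Base n) (Fr : Frame) (M : ℕ) : Dat2 n where
  D := ⟨M, B.e, cZ2 F, {neg}, dg2 F B⟩
  W0 := Fr.V0 n ∪ V1 B
  g := Fr.g (dg2 F B)
  G := Fr.G

end Pool.Agent.MP_a43263_nt.RH
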