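import Pool.Agent.MP_a43263_nt.RH.Defs
import Pool.Agent.MP_a43263_nt.RG.Ex

/-! PROJECT RANKG, THEOREM G: the hypotheses can be met for every rank up to five. -/

namespace Pool.Agent.MP_a43263_nt.RH

open RG RG.Cert

theorem hyp2_of {n r : ℕ} {F : Surf n} (h : Cert.Pre F) (ev : Even n)
    (hc : {y | ∃ u, F.InS u y}.ncard = 2 ^ (r + 2) ∧ ∀ u y, F.InS u y → Sol F u y) : Hyp2 F r where
  ev := ev
  c0 := h.c0
  ne := fun j k e => by rw [L_root]; exact_mod_cast h.ne j k e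
  sum := h.sum ℚ
  card := hc.1
  sol := hc.2

theorem S5_hyp2 : Hyp2 S5 5 := hyp2_of S5_pre (by decide) S5_cert

theorem examples2 (r : ℕ) (hr : r ≤ 5) : ∃ (n : ℕ) (F : Surf n), Hyp2 F r := by
  interval_cases r
  exacts [⟨_, _, hyp2_of S0_pre (by decide) S0_cert⟩, ⟨_, _, hyp2_of S1_pre (by decide) S1_cert⟩,
    ⟨_, _, hyp2_of S2_pre (by decide) S2_cert⟩, ⟨_, _, hyp2_of S3_pre (by decide) S3_cert⟩,
    ⟨_, _, hyp2_of S4_pre (by decide) S4_cert⟩, ⟨_, _, S5_hyp2⟩]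

end Pool.Agent.MP_a43263_nt.RH
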