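import Pool.Agent.MP_a43263_nt.RH.Spec
import Pool.Agent.MP_a43263_nt.R2.LocP

/-! PROJECT RANKG, THEOREM G: the Hilbert symbol of a conic with a point, odd primes. -/

set_option autoImplicit false

namespace Pool.Agent.MP_a43263_nt.RH

open R2.Loc

namespace Hso

variable {p : ℕ} [hp : Fact p.Prime]

theorem dec {x : ℤ} (hx : x ≠ 0) :
    x = (p : ℤ) ^ padicValInt p x * up p x ∧ ¬(p : ℤ) ∣ up p x := by
  have h : x = (p : ℤ) ^ padicValInt p x * up p x :=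
    (Int.mul_ediv_cancel' (padicValInt_dvd (p := p) x)).symm
  refine ⟨h, fun hd => ?_⟩
  have h1 : (p : ℤ) ^ (padicValInt p x + 1) ∣ x := by
    conv_rhs => rw [h]
    exact pow_succ (p : ℤ) _ ▸ mul_dvd_mul_left _ hd
  have := ((padicValInt_dvd_iff _ x).1 h1).resolve_left hx
  omega

theorem of_Q {m w : ℤ} {k : ℕ} (e : m = (p : ℤ) ^ k * w) (hw : ¬(p : ℤ) ∣ w)
    (h : Q 1 (m : ℚ_[p])) : Even k ∧ jacobiSym w p = 1 := by
  obtain ⟨j, rfl | rfl⟩ := Nat.even_or_odd' k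
  · exact ⟨even_two_mul j, jac_of_Q hw (h.cancel le_rfl (r := (p : ℚ_[p]) ^ j) (by
      rw [e]; push_cast; ring))⟩
  · have h1 : Q 1 ((p * w : ℤ) : ℚ_[p]) := h.cancel le_rfl (r := (p : ℚ_[p]) ^ j) (by
      rw [e]; push_cast; ring)
    have h2 := h1.even le_rfl
    rw [val_one (dvd_mul_right _ _) fun h3 => hw (by
      rwa [sq, mul_dvd_mul_iff_left (by exact_mod_cast hp.out.ne_zero)] at h3)] at h2
    exact absurd h2 (by decide)

theorem ev {w : ℤ} (hw : ¬(p : ℤ) ∣ w) {k : ℕ} (hk : Even k) : jacobiSym w p ^ k = 1 := by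
  obtain ⟨j, rfl⟩ := hk
  rw [← two_mul, pow_mul, jacobiSym.sq_one (gcd_one hw), one_pow]

theorem od {w : ℤ} (hw : ¬(p : ℤ) ∣ w) {k : ℕ} (hk : Odd k) :
    jacobiSym w p ^ k = jacobiSym w p := by
  obtain ⟨j, rfl⟩ := hk
  rw [pow_succ, ev hw (even_two_mul j), one_mul]

theorem ev_val {x : ℤ} {X Z : ℚ_[p]} (hZ : Z ^ 2 ≠ 0) (h : ‖(x : ℚ_[p]) * X ^ 2‖ = ‖Z ^ 2‖) :
    Even (padicValInt p x) := by
  have h0 : (x : ℚ_[p]) * X ^ 2 ≠ 0 := fun e => hZ (by rwa [e, norm_zero, eq_comm, norm_eq_zero] at h)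
  have h1 := val_congr h
  rw [val_sq h0 rfl, val_sq hZ (one_mul _).symm, Padic.valuation_one, Padic.valuation_intCast] at h1
  rw [← Int.even_coe_nat]
  exact ⟨Z.valuation - X.valuation, by omega⟩

end Hso

open Hso in
theorem hso : HSOStmt := by
  intro p hp x y h2 hx hy ⟨X, Y, Z, hne, e⟩
  obtain ⟨x1, x2⟩ := dec (p := p) hx
  obtain ⟨y1, y2⟩ := dec (p := p) hy
  have hm : ¬(p : ℤ) ∣ -1 := fun h =>
    (Nat.prime_iff_prime_int.1 hp.out).not_dvd_one (dvd_neg.1 h)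
  have hx' : (x : ℚ_[p]) ≠ 0 := by exact_mod_cast hx
  have hy' : (y : ℚ_[p]) ≠ 0 := by exact_mod_cast hy
  rw [hs, if_neg h2]
  by_cases a1 : ‖(x : ℚ_[p]) * X ^ 2‖ < ‖Z ^ 2‖
  · obtain ⟨b1, b2⟩ := of_Q y1 y2 ((Q.of_close (x := (y : ℚ_[p]) * Y ^ 2) (y := Z ^ 2) (by
      rwa [one_mul, norm_sub_rev, ← e, add_sub_cancel_right, e]) le_rfl).cancel le_rfl (r := Y * Z)
      (by ring))
    rw [ev hm (b1.mul_left _), ev x2 b1, b2, one_pow]
    rfl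
  by_cases a2 : ‖(y : ℚ_[p]) * Y ^ 2‖ < ‖Z ^ 2‖
  · obtain ⟨b1, b2⟩ := of_Q x1 x2 ((Q.of_close (x := (x : ℚ_[p]) * X ^ 2) (y := Z ^ 2) (by
      rwa [one_mul, norm_sub_rev, ← e, add_sub_cancel_left, e]) le_rfl).cancel le_rfl (r := X * Z)
      (by ring))
    rw [ev hm (b1.mul_right _), ev y2 b1, b2, one_pow]
    rfl
  by_cases a3 : ‖Z ^ 2‖ < ‖(y : ℚ_[p]) * Y ^ 2‖
  · have c1 : ¬(p : ℤ) ∣ -1 * up p x * up p y := fun h =>
      ((Nat.prime_iff_prime_int.1 hp.out).dvd_or_dvd h).elim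
        (fun h => ((Nat.prime_iff_prime_int.1 hp.out).dvd_or_dvd h).elim hm x2) y2
    obtain ⟨b1, b2⟩ := of_Q (m := -(x * y)) (k := padicValInt p x + padicValInt p y) (by
      rw [pow_add]
      linear_combination (-y) * x1 - (p : ℤ) ^ padicValInt p x * up p x * y1) c1
      ((Q.of_close (x := -((x : ℚ_[p]) * X ^ 2)) (y := (y : ℚ_[p]) * Y ^ 2) (by
      rwa [one_mul, ← neg_add', norm_neg, e]) le_rfl).cancel le_rfl (r := X * Y)
      (by push_cast; ring))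
    rcases Nat.even_or_odd (padicValInt p x) with h | h
    · rw [ev hm (h.mul_right _), ev y2 h, ev x2 ((Nat.even_add.1 b1).1 h)]
      rfl
    · have h' := (Nat.even_add'.1 b1).1 h
      rw [od hm (h.mul h'), od x2 h', od y2 h, ← jacobiSym.mul_left, ← jacobiSym.mul_left, b2]
  have a4 : ‖(y : ℚ_[p]) * Y ^ 2‖ = ‖Z ^ 2‖ := le_antisymm (not_lt.1 a3) (not_lt.1 a2)
  have a5 : ‖(x : ℚ_[p]) * X ^ 2‖ = ‖Z ^ 2‖ := le_antisymm (by
    have := IsUltrametricDist.norm_add_le_max (Z ^ 2) (-((y : ℚ_[p]) * Y ^ 2))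
    rwa [norm_neg, a4, max_self, ← sub_eq_add_neg, ← eq_sub_iff_add_eq.2 e] at this) (not_lt.1 a1)
  have a6 : Z ^ 2 ≠ 0 := fun h => by
    rw [h, norm_zero, norm_eq_zero] at a4 a5
    exact hne ⟨by simpa [hx'] using a5, by simpa [hy'] using a4, by simpa using h⟩
  rw [ev hm ((ev_val a6 a5).mul_right _), ev x2 (ev_val a6 a4), ev y2 (ev_val a6 a5)]
  rfl

end Pool.Agent.MP_a43263_nt.RH
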