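import Pool.Agent.MP_a43263_nt.RG.Lya
import Pool.Agent.MP_a43263_nt.RH.Spec

/-! PROJECT RANKG, THEOREM G: one new prime contracts the kernel on average; the Lyapunov
function. -/

set_option autoImplicit false

noncomputable section

namespace Pool.Agent.MP_a43263_nt.RH

open Finset Filter
open R2 (Sgn chi Ker sg pri PP chs MERStmt mem_pri mem_PP mem_Ker symmDiff_mem_Ker prod_sgn
  Ker_card_le PP_union PP_eq_pri)
open RG

variable {n : ℕ}

namespace Step

theorem sq_of_mul {a s : ℤ} (hs : s ≠ 0) (h : IsSquare (a * s ^ 2)) : IsSquare a := by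
  obtain ⟨t, ht⟩ := h
  obtain ⟨u, rfl⟩ : s ∣ t := (Int.pow_dvd_pow_iff two_ne_zero).1 ⟨a, by rw [sq t, ← ht]; ring⟩
  exact ⟨u, mul_right_cancel₀ (pow_ne_zero 2 hs) (by rw [ht]; ring)⟩

open Classical in
/-- the vectors of the kernel whose character at the class `j` is trivial -/
def Kj (E : Dat2 n) (V : Finset (Gen n)) (j : Fin 3) : Finset (Finset (Gen n)) :=
  (Ker E.g V).filter fun x => IsSquare (Gv E.G j x)

theorem Kj_mul (hK : KC2Stmt) {E : Dat2 n} (hE : E.Ok) {W : Finset (Gen n)}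
    (hW : ∀ a ∈ W, Ord E.D.M a) (hd : RG.Dist W) {i j : Fin 3} (hij : i ≠ j) :
    (Kj E (E.W0 ∪ W) i).card * (Kj E (E.W0 ∪ W) j).card ≤ (Ker E.g (E.W0 ∪ W)).card := by
  classical
  obtain ⟨-, k2, k3, -, k5, -⟩ := hK n E hE
  have key : ∀ {k : Fin 3} {x y : Finset (Gen n)}, x ∈ Kj E (E.W0 ∪ W) k →
      y ∈ Kj E (E.W0 ∪ W) k → IsSquare (Gv E.G k (symmDiff x y)) := fun {k x y} hx hy =>
    sq_of_mul (k2 (x ∩ y) k fun a ha => (mem_union.1 ((mem_Ker.1 (mem_filter.1 hx).1).1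
      (mem_inter.1 ha).1)).imp id (hW a)).1 (k5 x y k ▸ (mem_filter.1 hx).2.mul (mem_filter.1 hy).2)
  rw [← card_product]
  refine card_le_card_of_injOn (fun p => symmDiff p.1 p.2) (fun p hp => ?_) ?_
  · obtain ⟨h1, h2⟩ := mem_product.1 hp
    exact symmDiff_mem_Ker hE.sgn (mem_filter.1 h1).1 (mem_filter.1 h2).1
  · intro p hp q hq e
    obtain ⟨h1, h2⟩ := mem_product.1 hp
    obtain ⟨h3, h4⟩ := mem_product.1 hq
    have e0 : symmDiff p.1 p.2 = symmDiff q.1 q.2 := e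
    have e1 : symmDiff p.1 q.1 = symmDiff p.2 q.2 := by
      rw [← symmDiff_eq_bot, symmDiff_symmDiff_symmDiff_comm, e0, symmDiff_self]
    have e2 := (k3 W _ hW hd (mem_Ker.1 (symmDiff_mem_Ker hE.sgn (mem_filter.1 h1).1
      (mem_filter.1 h3).1)).1).2 i j hij (key h1 h3) (e1 ▸ key h2 h4)
    exact Prod.ext (symmDiff_eq_bot.1 e2) (symmDiff_eq_bot.1 (e1 ▸ e2))

theorem one (hB : BORStmt) {g : Gen n → Gen n → ℤ} (hg : Sgn g) (V : Finset (Gen n)) {b : Gen n} (hb : b ∉ V) :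
    √((Ker g (insert b V)).card) * (Ker g V).card ≤
      0.71 * √((Ker g V).card) * ((Ker g V).card +
        ((∑ x ∈ Ker g V, ∏ a ∈ x, g a b : ℤ) : ℝ)) := by
  obtain ⟨b1, b2, b3, -⟩ := hB _ _ hg V
  have s0 := Real.sqrt_nonneg ((Ker g V).card : ℝ)
  have s1 := Real.sq_sqrt (Nat.cast_nonneg (α := ℝ) (Ker g V).card)
  have s2 := Nat.cast_nonneg (α := ℝ) (Ker g V).card
  rw [b3 b]
  split_ifs with h
  · have h1 := b1 {b}
    rw [union_comm, ← insert_eq, card_singleton, pow_one] at h1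
    have h2 : ((Ker g (insert b V)).card : ℝ) ≤ 2 * (Ker g V).card := by
      exact_mod_cast h1
    have h3 : √((Ker g (insert b V)).card) ≤ 1.42 * √((Ker g V).card) :=
      Real.sqrt_le_iff.2 ⟨by positivity, by rw [mul_pow, s1]; linarith⟩
    have := mul_le_mul_of_nonneg_right h3 s2
    push_cast
    linarith
  · push Not at h
    obtain ⟨x, hx, h⟩ := h
    have h1 := b2 b hb ⟨x, hx, (prod_sgn x fun a _ => hg.2 a b).resolve_left h⟩
    have h2 : 2 * ((Ker g (insert b V)).card : ℝ) = (Ker g V).card := by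
      exact_mod_cast h1
    have h3 : √((Ker g (insert b V)).card) ≤ 0.71 * √((Ker g V).card) :=
      Real.sqrt_le_iff.2 ⟨by positivity, by rw [mul_pow, s1]; linarith⟩
    have := mul_le_mul_of_nonneg_right h3 s2
    push_cast
    linarith

end Step

theorem step : BORStmt → KC2Stmt → STEP2Stmt := by
  classical
  intro hB hK n E W P w hE hW hd hP hn hch
  set V := E.W0 ∪ W with hV
  set N : ℝ := ((Ker E.g V).card : ℝ) with hnd
  set δ := ∑ p ∈ P, w p with hδ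
  have hδ0 : 0 ≤ δ := sum_nonneg fun p hp => (hP p hp).2.2.1
  have hn' : 10000 ≤ N := by rw [hnd]; exact_mod_cast hn
  have s0 := Real.sqrt_nonneg N
  have tag : ∀ h : Tag n, h.2 ≠ none → (∑ p ∈ P, w p * √((Ker E.g (insert (h, p) V)).card)) * N ≤
      0.71 * √N * (δ * (1.01 * N + (Step.Kj E V h.1).card)) := by
    intro h hh
    have e1 : (∑ p ∈ P, w p * √((Ker E.g (insert (h, p) V)).card)) * N ≤
        ∑ p ∈ P, 0.71 * √N * (w p * N +
          ∑ x ∈ Ker E.g V, w p * jacobiSym (Gv E.G h.1 x) p) := by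
      rw [sum_mul]
      refine sum_le_sum fun p hp => ?_
      obtain ⟨p1, p2, p3, p4⟩ := hP p hp
      have := mul_le_mul_of_nonneg_left
        (Step.one hB hE.sgn V (b := (h, p)) fun k =>
          (mem_union.1 k).elim (fun k => hh (hE.fix _ k).1) fun k => p4 _ k rfl) p3
      rw [sum_congr rfl fun x hx => (hK n E hE).1 x (h, p) ⟨hh, p1, p2⟩ fun a ha =>
        (mem_union.1 ((mem_Ker.1 hx).1 ha)).imp id fun k => ⟨hW a k, p4 a k⟩] at this
      push_cast at this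
      rw [← mul_sum]
      linarith
    have e2 : ∑ p ∈ P, ∑ x ∈ Ker E.g V, w p * (jacobiSym (Gv E.G h.1 x) p : ℝ) ≤
        δ * (0.01 * N + (Step.Kj E V h.1).card) := by
      rw [sum_comm]
      have : ∀ x ∈ Ker E.g V, ∑ p ∈ P, w p * (jacobiSym (Gv E.G h.1 x) p : ℝ) ≤
          δ / 100 + if IsSquare (Gv E.G h.1 x) then δ else 0 := by
        intro x hx
        split_ifs with e
        · have : ∑ p ∈ P, w p * (jacobiSym (Gv E.G h.1 x) p : ℝ) ≤ δ :=
            sum_le_sum fun p hp => mul_le_of_le_one_right (hP p hp).2.2.1 (by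
              rcases jacobiSym.trichotomy (Gv E.G h.1 x) p with k | k | k <;> simp [k])
          linarith
        · linarith [(abs_le.1 (hch x (mem_Ker.1 hx).1 _ e)).2]
      refine (sum_le_sum this).trans (le_of_eq ?_)
      rw [sum_add_distrib, ← sum_filter, sum_const, sum_const, nsmul_eq_mul, nsmul_eq_mul]
      simp only [Step.Kj]
      ring
    rw [← mul_sum, sum_add_distrib, ← sum_mul] at e1
    refine e1.trans (mul_le_mul_of_nonneg_left ?_ (by positivity))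
    linarith
  have e3 := sum_le_sum fun h (hh : h ∈ (univ : Finset (Ix n)).image tg) => tag h (by
    obtain ⟨k, -, rfl⟩ := mem_image.1 hh
    exact tg_ne_none k)
  rw [← sum_mul, RG.Step.sum_tags fun j => 0.71 * √N * (δ * (1.01 * N + (Step.Kj E V j).card))]
    at e3
  have kl : ∀ j, ((Step.Kj E V j).card : ℝ) ≤ N := fun j =>
    Nat.cast_le.2 (card_filter_le _ _)
  have km : ∀ i j, i ≠ j → ((Step.Kj E V i).card : ℝ) * (Step.Kj E V j).card ≤ N :=
    fun i j h => by rw [hnd]; exact_mod_cast Step.Kj_mul hK hE hW hd h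
  have e4 := RG.Step.three hn' (kl 0) (kl 1) (kl 2) (km 0 1 (by decide)) (km 0 2 (by decide))
    (km 1 2 (by decide))
  rw [TT, sum_product]
  refine le_of_mul_le_mul_right (e3.trans ?_) (by linarith : 0 < N)
  have e5 := mul_le_mul_of_nonneg_left e4
    (mul_nonneg (Nat.cast_nonneg (α := ℝ) n) (mul_nonneg s0 hδ0))
  have e6 : 0 ≤ n * (√N * δ) * N := by positivity
  nlinarith

namespace Lya

open RG.Lya (sum_split one_add_sum_le chs_close)

/-- the size of the kernel -/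
def kk (g : Gen n → Gen n → ℤ) (V : Finset (Gen n)) : ℝ := √((Ker g V).card)

theorem kk_nonneg (g : Gen n → Gen n → ℤ) (V : Finset (Gen n)) : 0 ≤ kk g V := Real.sqrt_nonneg _

theorem kk_union (hB : BORStmt) {g : Gen n → Gen n → ℤ} (hg : Sgn g) (V A : Finset (Gen n)) :
    kk g (V ∪ A) ≤ √2 ^ A.card * kk g V := by
  have h : ((Ker g (V ∪ A)).card : ℝ) ≤ 2 ^ A.card * (Ker g V).card := by
    exact_mod_cast (hB _ _ hg V).1 A
  refine Real.sqrt_le_iff.2 ⟨mul_nonneg (by positivity) (kk_nonneg g V), ?_⟩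
  rw [mul_pow, ← pow_mul, mul_comm A.card, pow_mul, Real.sq_sqrt (by norm_num), kk,
    Real.sq_sqrt (by positivity)]
  exact h

theorem kk_le (g : Gen n → Gen n → ℤ) (V W : Finset (Gen n)) :
    kk g (V ∪ W) ≤ 2 ^ V.card * 2 ^ W.card := by
  have h : ((Ker g (V ∪ W)).card : ℝ) ≤ 2 ^ V.card * 2 ^ W.card := by
    have := (Ker_card_le (g := g) (V ∪ W)).trans
      (Nat.pow_le_pow_right (by norm_num) (card_union_le V W))
    rw [pow_add] at this
    exact_mod_cast this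
  have h1 : (1 : ℝ) ≤ 2 ^ V.card * 2 ^ W.card :=
    one_le_mul_of_one_le_of_one_le (one_le_pow₀ (by norm_num)) (one_le_pow₀ (by norm_num))
  refine Real.sqrt_le_iff.2 ⟨by positivity, h.trans ?_⟩
  nlinarith

/-- the average over the new primes, in terms of the average over one new prime -/
theorem avg (hB : BORStmt) {g : Gen n → Gen n → ℤ} (hg : Sgn g) (V : Finset (Gen n)) (P : Finset ℕ)
    (hP : ∀ p ∈ P, 0 ≤ wt n p) (hm : 3 * n * ∑ p ∈ P, wt n p ≤ 0.007) :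
    ∑ A ∈ (TT n P).powerset, Wt A * kk g (V ∪ A) ≤
      (1 + 2 * (3 * n * ∑ p ∈ P, wt n p) ^ 2) * kk g V +
        ∑ b ∈ TT n P, wt n b.2 * kk g (insert b V) := by
  set m := 3 * n * ∑ p ∈ P, wt n p with hmd
  have hw : ∀ b ∈ TT n P, 0 ≤ wt n b.2 := fun b hb => hP _ (mem_TT.1 hb).2
  have hm0 : 0 ≤ m := mul_nonneg (by positivity) (sum_nonneg hP)
  have hs : ∑ b ∈ TT n P, wt n b.2 = m := sum_TT P (wt n)
  have h2 : √2 ≤ 2 := Real.sqrt_le_iff.2 (by norm_num)
  have h20 : 0 ≤ √2 := Real.sqrt_nonneg 2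
  have hQ : ∑ A ∈ (TT n P).powerset, Wt A * √2 ^ A.card ≤ 1 + √2 * m + 2 * m ^ 2 := by
    have e1 : ∑ A ∈ (TT n P).powerset, Wt A * √2 ^ A.card =
        ∏ b ∈ TT n P, (1 + √2 * wt n b.2) := by
      rw [prod_one_add]
      refine sum_congr rfl fun A _ => ?_
      rw [prod_mul_distrib, prod_const, mul_comm]
      rfl
    have e2 : ∏ b ∈ TT n P, (1 + √2 * wt n b.2) ≤ Real.exp (√2 * m) := by
      rw [← hs, mul_sum, Real.exp_sum]
      refine prod_le_prod (fun b hb => ?_) fun b _ => ?_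
      · have := mul_nonneg h20 (hw b hb)
        linarith
      · linarith [Real.add_one_le_exp (√2 * wt n b.2)]
    have e3 := Real.abs_exp_sub_one_sub_id_le (x := √2 * m) (by
      rw [abs_of_nonneg (mul_nonneg h20 hm0)]
      nlinarith)
    rw [mul_pow, Real.sq_sqrt (by norm_num)] at e3
    rw [e1]
    linarith [(abs_le.1 e3).2]
  have h3 : ∑ b ∈ TT n P, wt n b.2 * (√2 * kk g V - kk g (insert b V)) ≤
      ∑ A ∈ (TT n P).powerset, Wt A * (√2 ^ A.card * kk g V - kk g (V ∪ A)) := by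
    have := sum_le_sum_of_subset_of_nonneg
      (f := fun A => Wt A * (√2 ^ A.card * kk g V - kk g (V ∪ A)))
      (s := (TT n P).map ⟨singleton, singleton_injective⟩) (t := (TT n P).powerset)
      (fun A hA => by
        obtain ⟨b, hb, rfl⟩ := mem_map.1 hA
        exact mem_powerset.2 (singleton_subset_iff.2 hb))
      (fun A hA _ => mul_nonneg (prod_nonneg fun b hb => hw b (mem_powerset.1 hA hb))
        (sub_nonneg.2 (kk_union hB hg V A)))
    rw [sum_map] at this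
    refine le_trans (le_of_eq (sum_congr rfl fun b _ => ?_)) this
    simp [Wt]
  simp only [mul_sub, sum_sub_distrib, ← mul_assoc, ← sum_mul] at h3
  rw [hs] at h3
  have h4 := mul_le_mul_of_nonneg_right hQ (kk_nonneg g V)
  linarith

theorem avg_triv (hB : BORStmt) {g : Gen n → Gen n → ℤ} (hg : Sgn g) (V : Finset (Gen n)) (P : Finset ℕ)
    (hP : ∀ p ∈ P, 0 ≤ wt n p) (hm : 3 * n * ∑ p ∈ P, wt n p ≤ 0.007) :
    ∑ A ∈ (TT n P).powerset, Wt A * kk g (V ∪ A) ≤ 2 * kk g V := by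
  have h1 := avg hB hg V P hP hm
  have h2 : √2 ≤ 2 := Real.sqrt_le_iff.2 (by norm_num)
  have h3 : ∑ b ∈ TT n P, wt n b.2 * kk g (insert b V) ≤
      ∑ b ∈ TT n P, wt n b.2 * (2 * kk g V) := by
    refine sum_le_sum fun b hb => mul_le_mul_of_nonneg_left ?_ (hP _ (mem_TT.1 hb).2)
    have := kk_union hB hg V {b}
    rw [union_comm, ← insert_eq, card_singleton, pow_one] at this
    exact this.trans (mul_le_mul_of_nonneg_right h2 (kk_nonneg g V))
  rw [← sum_mul, sum_TT P (wt n)] at h3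
  have hm0 : 0 ≤ 3 * n * ∑ p ∈ P, wt n p := mul_nonneg (by positivity) (sum_nonneg hP)
  have h4 := kk_nonneg g V
  set m := 3 * n * ∑ p ∈ P, wt n p
  have h5 : (1 + 2 * m ^ 2) + 2 * m ≤ 2 := by nlinarith
  nlinarith

open Classical in
theorem point (hB : BORStmt) (hK : KC2Stmt) (hS : STEP2Stmt) {E : Dat2 n} (hD : E.Ok) {a y : ℕ}
    (hMa : E.D.M ≤ a) (ha : 400000 * n ^ 2 ≤ a) (hay : a ≤ y)
    (h1 : 0.005 ≤ 3 * n * ∑ p ∈ PP E.D.M a y, wt n p) (h2 : 3 * n * ∑ p ∈ PP E.D.M a y, wt n p ≤ 0.007)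
    {W : Finset (Gen n)} (hW : W ⊆ TT n (PP E.D.M 0 a)) (hd : RG.Dist W) :
    ∑ A ∈ (TT n (PP E.D.M a y)).powerset, Wt A * kk E.g (E.W0 ∪ W ∪ A) ≤
      0.9999 * Mass n (PP E.D.M a y) * kk E.g (E.W0 ∪ W) + 200 +
        if Exc E.D.M (0.000001 / n) a y W then 2 * 2 ^ E.W0.card * 2 ^ W.card else 0 := by
  have hP : ∀ p ∈ PP E.D.M a y, 0 ≤ wt n p := fun p hp => (wt_pos (PP_gt hD.ok.sm hp)).le
  have t1 := avg_triv hB hD.sgn (E.W0 ∪ W) _ hP h2
  have t2 : 0 ≤ 0.9999 * Mass n (PP E.D.M a y) * kk E.g (E.W0 ∪ W) :=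
    mul_nonneg (mul_nonneg (by norm_num) (zero_le_one.trans (one_le_Mass hD.ok.sm a y)))
      (kk_nonneg _ _)
  split_ifs with hE
  · have := kk_le E.g E.W0 W
    linarith
  by_cases hk : (Ker E.g (E.W0 ∪ W)).card < 10000
  · have : kk E.g (E.W0 ∪ W) ≤ 100 := by
      refine Real.sqrt_le_iff.2 ⟨by norm_num, ?_⟩
      have : ((Ker E.g (E.W0 ∪ W)).card : ℝ) ≤ 10000 := by exact_mod_cast hk.le
      linarith
    linarith
  have hn := hD.ok.two
  have hO : ∀ b ∈ W, Ord E.D.M b := fun b hb =>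
    ⟨(mem_TT.1 (hW hb)).1, (mem_PP.1 (mem_TT.1 (hW hb)).2).2.2⟩
  have s1 := hS n E W (PP E.D.M a y) (wt n) hD hO hd
    (fun p hp => by
      obtain ⟨e2, -, e3, e4⟩ := mem_PP.1 hp
      refine ⟨e3, e4, hP p hp, fun b hb e => ?_⟩
      have := (mem_PP.1 (mem_TT.1 (hW hb)).2).2.1
      omega) (not_lt.1 hk)
    (fun x hx j hj => by
      obtain ⟨-, k2, -, -, -, k6⟩ := hK n E hD
      obtain ⟨k0, k2⟩ := k2 x j fun b hb => (mem_union.1 (hx hb)).imp id (hO b)
      obtain ⟨G, s, hG, k1, k3⟩ := k6 _ k0 hj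
      have k4 : ∀ p : ℕ, p.Prime → (p : ℤ) ∣ Gv E.G j x → p ∣ E.D.M ∨ ∃ t, (t, p) ∈ W :=
        fun p hp h => (k2 p hp h).imp id fun ⟨b, hb, h1, h2⟩ =>
          ⟨b.1, h2 ▸ (mem_union.1 (hx hb)).resolve_left fun k => h1.1 (hD.fix b k).1⟩
      have e0 : ∑ p ∈ PP E.D.M a y, wt n p * jacobiSym (Gv E.G j x) p =
          ∑ p ∈ PP E.D.M a y, wt n p * jacobiSym G p := by
        refine sum_congr rfl fun p hp => ?_
        obtain ⟨e2, -, e3, e4⟩ := mem_PP.1 hp
        have : ¬(p : ℤ) ∣ s := fun h => (k4 p e3 (hG ▸ (h.pow two_ne_zero).mul_left G)).elim e4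
          fun ⟨t, ht⟩ => absurd (mem_PP.1 (mem_TT.1 (hW ht)).2).2.1 (not_le.2 e2)
        rw [hG, jacobiSym.mul_left, jacobiSym.sq_one' (Int.isCoprime_iff_gcd_eq_one.1
          (((Nat.prime_iff_prime_int.1 e3).coprime_iff_not_dvd.2 this).symm)), mul_one]
      have e1 := chs_close (by omega) hD.ok.pos hD.ok.sm hMa hay G
      have e2 : |chs G a y| ≤ 0.000001 / n := not_lt.1 fun h => hE ⟨G, k1, k3, fun p hp =>
        k4 p (Nat.prime_of_mem_primeFactors hp) (hG ▸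
          (Int.natCast_dvd.2 (Nat.dvd_of_mem_primeFactors hp)).mul_right _), h⟩
      rw [e0]
      have n0 : (2 : ℝ) ≤ n := by exact_mod_cast hn
      have e3 : 4 * (n : ℝ) / a ≤ 0.00001 / n := by
        have : 400000 * (n : ℝ) ^ 2 ≤ a := by exact_mod_cast ha
        rw [div_le_div_iff₀ (by nlinarith) (by linarith)]
        linarith
      refine (e1.trans (add_le_add e2 e3)).trans ?_
      rw [← add_div, div_le_iff₀ (by linarith)]
      linarith)
  have s2 := avg hB hD.sgn (E.W0 ∪ W) _ hP h2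
  have s3 : 1 + 3 * n * ∑ p ∈ PP E.D.M a y, wt n p ≤ Mass n (PP E.D.M a y) := by
    rw [← sum_TT _ (wt n), Mass, ← prod_TT _ fun p => 1 + wt n p]
    exact one_add_sum_le _ _ fun b hb => hP _ (mem_TT.1 hb).2
  set m := 3 * n * ∑ p ∈ PP E.D.M a y, wt n p
  have s4 : 1 + 2 * m ^ 2 + 0.96 * m ≤ 0.9999 * Mass n (PP E.D.M a y) := by nlinarith
  have s5 := mul_le_mul_of_nonneg_right s4 (kk_nonneg E.g (E.W0 ∪ W))
  change ∑ b ∈ TT n (PP E.D.M a y), wt n b.2 * kk E.g (insert b (E.W0 ∪ W)) ≤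
    0.96 * m * kk E.g (E.W0 ∪ W) at s1
  linarith

open Classical in
/-- the quantity to be bounded -/
def LL (E : Dat2 n) (y : ℕ) : ℝ :=
  ∑ W ∈ (TT n (PP E.D.M 0 y)).powerset.filter RG.Dist, Wt W * kk E.g (E.W0 ∪ W)

open Classical in
theorem LL_nonneg {E : Dat2 n} (hD : E.Ok) (y : ℕ) : 0 ≤ LL E y :=
  sum_nonneg fun _ hW =>
    mul_nonneg (Wt_nonneg hD.ok.sm (mem_powerset.1 (mem_filter.1 hW).1)) (kk_nonneg _ _)

open Classical in
theorem recur (hB : BORStmt) (hK : KC2Stmt) (hS : STEP2Stmt) {E : Dat2 n} (hD : E.Ok) {a y : ℕ}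
    (hMa : E.D.M ≤ a) (ha : 400000 * n ^ 2 ≤ a) (hay : a ≤ y)
    (h1 : 0.005 ≤ 3 * n * ∑ p ∈ PP E.D.M a y, wt n p) (h2 : 3 * n * ∑ p ∈ PP E.D.M a y, wt n p ≤ 0.007)
    (hE : ∑ Z ∈ (TT n (PP E.D.M 0 a)).powerset.filter (Exc E.D.M (0.000001 / n) a y),
      Wt Z * 2 ^ Z.card ≤ 1) :
    LL E y ≤ 0.9999 * Mass n (PP E.D.M a y) * LL E a + 200 * Mass n (PP E.D.M 0 a) +
      2 * 2 ^ E.W0.card := by
  obtain ⟨u1, u2⟩ := PP_union E.D.M (Nat.zero_le a) hay
  have u3 : TT n (PP E.D.M 0 y) = TT n (PP E.D.M 0 a) ∪ TT n (PP E.D.M a y) := by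
    rw [u1, TT, product_union]; rfl
  have u4 : Disjoint (TT n (PP E.D.M 0 a)) (TT n (PP E.D.M a y)) := disjoint_left.2 fun b h h' =>
    disjoint_left.1 u2 (mem_TT.1 h).2 (mem_TT.1 h').2
  have e1 : LL E y ≤ ∑ W ∈ (TT n (PP E.D.M 0 a)).powerset.filter RG.Dist,
      Wt W * ∑ A ∈ (TT n (PP E.D.M a y)).powerset, Wt A * kk E.g (E.W0 ∪ W ∪ A) := by
    rw [LL, sum_filter, u3, sum_split u4, sum_filter]
    refine sum_le_sum fun W hW => ?_
    split_ifs with hd
    · rw [mul_sum]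
      refine sum_le_sum fun A hA => ?_
      have e : Wt (W ∪ A) = Wt W * Wt A :=
        prod_union (u4.mono (mem_powerset.1 hW) (mem_powerset.1 hA))
      split_ifs
      · rw [e, union_assoc, mul_assoc]
      · exact mul_nonneg (Wt_nonneg hD.ok.sm (mem_powerset.1 hW))
          (mul_nonneg (Wt_nonneg hD.ok.sm (mem_powerset.1 hA)) (kk_nonneg _ _))
    · exact (sum_eq_zero fun A _ => if_neg fun h => hd (h.mono subset_union_left)).le
  have e2 := sum_le_sum fun W (hW : W ∈ (TT n (PP E.D.M 0 a)).powerset.filter RG.Dist) =>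
    mul_le_mul_of_nonneg_left (point hB hK hS hD hMa ha hay h1 h2
      (mem_powerset.1 (mem_filter.1 hW).1) (mem_filter.1 hW).2)
      (Wt_nonneg hD.ok.sm (mem_powerset.1 (mem_filter.1 hW).1))
  refine (e1.trans e2).trans ?_
  simp only [mul_add, sum_add_distrib]
  refine add_le_add (add_le_add (le_of_eq ?_) ?_) ?_
  · rw [LL, mul_sum]
    exact sum_congr rfl fun W _ => by ring
  · rw [← sum_mul, mul_comm, ← sum_Wt]
    exact mul_le_mul_of_nonneg_left (sum_le_sum_of_subset_of_nonneg (filter_subset _ _)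
      fun W hW _ => Wt_nonneg hD.ok.sm (mem_powerset.1 hW)) (by norm_num)
  · have := mul_le_mul_of_nonneg_left hE (show (0 : ℝ) ≤ 2 * 2 ^ E.W0.card by positivity)
    rw [mul_one, mul_sum, sum_filter] at this
    refine le_trans (le_trans (sum_le_sum_of_subset_of_nonneg (filter_subset _ _) fun W hW _ =>
      mul_nonneg (Wt_nonneg hD.ok.sm (mem_powerset.1 hW)) (by split_ifs <;> positivity))
      (le_of_eq (sum_congr rfl fun W _ => ?_))) this
    split_ifs <;> ring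

end Lya

theorem lya : BORStmt → KC2Stmt → MERStmt → EXPStmt → STEP2Stmt → LYA2Stmt := by
  intro hB hK hm hE hS n E hD
  have hn := hD.ok.two
  obtain ⟨a₀, ha₀⟩ := eventually_atTop.1 (hE n E.D.M 3 (0.000001 / n) 1 hD.ok.pos hD.ok.sm
    (div_pos (by norm_num) (Nat.cast_pos.2 (by omega))) one_pos)
  obtain ⟨y₁, hy₁⟩ := RG.Lya.scale hm (by omega) hD.ok.pos hD.ok.sm (a₀ + E.D.M + 400000 * n ^ 2)
  set C : ℝ := 10000 * (200 + 2 * 2 ^ E.W0.card) + ∑ y ∈ range y₁, Lya.LL E y with hC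
  have hsum : 0 ≤ ∑ y ∈ range y₁, Lya.LL E y := sum_nonneg fun y _ => Lya.LL_nonneg hD y
  have hB0 : (0 : ℝ) ≤ 2 * 2 ^ E.W0.card := by positivity
  refine ⟨C, fun y => ?_⟩
  change Lya.LL E y ≤ _
  induction y using Nat.strong_induction_on with
  | _ y ih =>
  have m1 := one_le_Mass hD.ok.sm 0 y
  by_cases hy : y < y₁
  · have := single_le_sum (f := Lya.LL E) (fun y _ => Lya.LL_nonneg hD y) (mem_range.2 hy)
    nlinarith
  obtain ⟨a, k1, k2, k3, k4, k5⟩ := hy₁ y (not_lt.1 hy)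
  have e1 := Lya.recur hB hK hS hD (by omega) (by omega) k2.le k4 k5
    (ha₀ a (by omega) a y le_rfl k3)
  have e2 := ih a k2
  have m2 := one_le_Mass hD.ok.sm 0 a
  have m3 := one_le_Mass hD.ok.sm a y
  have m4 : Mass n (PP E.D.M 0 y) = Mass n (PP E.D.M 0 a) * Mass n (PP E.D.M a y) := by
    obtain ⟨u1, u2⟩ := PP_union E.D.M (Nat.zero_le a) k2.le
    rw [u1, Mass, prod_union u2]; rfl
  have m5 : Mass n (PP E.D.M 0 a) ≤ Mass n (PP E.D.M 0 y) := by
    rw [m4]; nlinarith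
  have e3 := mul_le_mul_of_nonneg_left e2
    (show 0 ≤ 0.9999 * Mass n (PP E.D.M a y) by linarith)
  have e4 : 0.9999 * Mass n (PP E.D.M a y) * (C * Mass n (PP E.D.M 0 a)) =
      0.9999 * (C * Mass n (PP E.D.M 0 y)) := by
    rw [m4]; ring
  have e5 : (200 + 2 * 2 ^ E.W0.card) * Mass n (PP E.D.M 0 y) ≤
      0.0001 * (C * Mass n (PP E.D.M 0 y)) := by
    rw [← mul_assoc]
    exact mul_le_mul_of_nonneg_right (by linarith) (by linarith)
  nlinarith

end Pool.Agent.MP_a43263_nt.RH
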