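import Pool.Agent.MP_a43263_nt.RH.Spec

/-! PROJECT RANKG, THEOREM G: the values of primes and the entries of the descent matrix. -/

set_option autoImplicit false

namespace Pool.Agent.MP_a43263_nt.RH

open Finset
open R2 (Sgn sg)
open RG

namespace MatA

lemma jm1 {p : ℕ} (hp : p % 2 = 1) : jacobiSym (-1) p = if p % 4 = 3 then -1 else 1 := by
  rw [jacobiSym.at_neg_one (Nat.odd_iff.2 hp), ZMod.χ₄_nat_eq_if_mod_four]
  split_ifs <;> omega

lemma st_eq (p : ℕ) : st p = (if p % 4 = 3 then -1 else 1) * p := by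
  unfold st; split_ifs <;> simp

lemma rec_st {p q : ℕ} (hp : p % 2 = 1) (hq : q % 2 = 1) :
    jacobiSym (st p) q = jacobiSym q p := by
  unfold st
  split_ifs with h
  · rw [neg_eq_neg_one_mul, jacobiSym.mul_left, jm1 hq]
    split_ifs with h'
    · rw [jacobiSym.quadratic_reciprocity_three_mod_four h h']; ring
    · rw [one_mul, jacobiSym.quadratic_reciprocity_one_mod_four (a := q) (by omega)
        (Nat.odd_iff.2 hp)]
  · exact jacobiSym.quadratic_reciprocity_one_mod_four (by omega) (Nat.odd_iff.2 hq)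

lemma prod_sign {l : ℕ} (hl : Squarefree l) (h4 : l % 4 = 1) :
    ∏ p ∈ l.primeFactors, (if p % 4 = 3 then -1 else 1 : ℤ) = 1 := by
  have h1 : ∀ p ∈ l.primeFactors, (if p % 4 = 3 then -1 else 1 : ℤ) = ZMod.χ₄ (p : ZMod 4) := by
    intro p hp
    have h2 : p % 2 = 1 := by
      obtain ⟨c, hc⟩ := Nat.dvd_of_mem_primeFactors hp
      by_contra h
      obtain ⟨d, rfl⟩ : 2 ∣ p := by omega
      rw [mul_assoc] at hc
      omega
    rw [← jm1 h2, jacobiSym.at_neg_one (Nat.odd_iff.2 h2)]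
  rw [prod_congr rfl h1, ← map_prod, ← Nat.cast_prod, Nat.prod_primeFactors_of_squarefree hl,
    ZMod.χ₄_nat_one_mod_four h4]

lemma sg_sgn (j : ℤ) : sg j = 1 ∨ sg j = -1 := by unfold sg; split_ifs <;> simp

lemma sg_eq {j : ℤ} (h : j = 1 ∨ j = -1) : sg j = j := by rcases h with rfl | rfl <;> simp [sg]

end MatA

open MatA

theorem gp : GPStmt := by
  refine ⟨fun c j p => ⟨fun h => ?_, ?_⟩, fun c j l hl h4 => ?_, fun c c' p q hp hq => ?_,
    fun c p => ?_, fun c p hp => ?_⟩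
  · unfold Gp st
    rw [if_neg h]
    split_ifs <;> simp
  · unfold Gp
    rw [if_pos rfl]
    split_ifs <;> simp
  · have h1 : ∏ p ∈ l.primeFactors, (p : ℤ) = l := by
      rw [← Nat.cast_prod, Nat.prod_primeFactors_of_squarefree hl]
    have h2 := prod_sign hl h4
    have h3 : ∏ p ∈ l.primeFactors, st p = l := by
      simp only [st_eq, prod_mul_distrib, h1, h2, one_mul]
    fin_cases c <;> fin_cases j <;> simp [Gp, h1, h2, h3]
  · have h1 := rec_st hp hq
    have h2 := rec_st hq hp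
    have h3 : jacobiSym (if p % 4 = 3 then -1 else 1) q =
        jacobiSym (if q % 4 = 3 then -1 else 1) p := by
      by_cases a : p % 4 = 3 <;> by_cases b : q % 4 = 3 <;> simp [a, b, jm1 hp, jm1 hq]
    fin_cases c <;> fin_cases c' <;> simp [Gp, h1, h2, h3]
  · fin_cases c <;> by_cases a : p % 4 = 3 <;> simp [Gp, st, a, sq]
  · fin_cases c <;> by_cases a : p % 4 = 3 <;> simp [Gp, a, jm1 hp]

theorem mat (h : GPStmt) : MATStmt := by
  intro n Fr dg
  have h1 : ∀ a b : Gen n, a.2 % 2 = 1 → b.2 % 2 = 1 →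
      jacobiSym (Fr.G b.1.1 a) b.2 = jacobiSym (Fr.G a.1.1 b) a.2 := fun a b ha hb => by
    rw [Frame.G, Frame.G, if_neg (by omega), if_neg (by omega)]
    exact h.2.2.1 _ _ _ _ ha hb
  have h2 : ∀ a b : Gen n, a ≠ b → b.2 % 2 = 1 →
      Fr.g dg a b = sg (jacobiSym (Fr.G b.1.1 a) b.2) := fun a b hab hb => by
    rw [Frame.g, if_neg (by omega), if_neg hab]
    split_ifs with hc
    · rfl
    · rw [h1 a b (by omega) hb]
  have h3 : ∀ a b : Gen n, a.2 % 2 = 1 → b.2 % 2 = 0 →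
      Fr.g dg a b = sg (jacobiSym (Fr.G a.1.1 b) a.2) := fun a b ha hb => by
    rw [Frame.g, if_neg (by omega), if_neg (by rintro rfl; omega), if_neg (by omega)]
  refine ⟨fun hτ => ⟨fun a b => ?_, fun a b => ?_⟩, fun a b hab hp hb hd => ?_, fun x => ?_⟩
  · rcases eq_or_ne a b with rfl | hab
    · rfl
    rcases Nat.mod_two_eq_zero_or_one a.2 with ha | ha <;>
      rcases Nat.mod_two_eq_zero_or_one b.2 with hb | hb
    · rw [Frame.g, Frame.g, if_pos ⟨ha, hb⟩, if_pos ⟨hb, ha⟩, hτ.1]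
    · rw [h2 a b hab hb, h3 b a hb ha]
    · rw [h2 b a hab.symm ha, h3 a b ha hb]
    · rw [h2 a b hab hb, h2 b a hab.symm ha, h1 a b ha hb]
  · unfold Frame.g
    split_ifs
    exacts [hτ.2 _ _, sg_sgn _, sg_sgn _, sg_sgn _]
  · rw [h2 a b hab (hp.eq_two_or_odd.resolve_left hb)]
    exact sg_eq (jacobiSym.eq_one_or_neg_one (Int.isCoprime_iff_gcd_eq_one.1
      ((Nat.prime_iff_prime_int.1 hp).irreducible.coprime_iff_not_dvd.2 hd).symm))
  · simp only [Gv, ← prod_mul_distrib]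
    refine Finset.prod_induction _ _ (fun _ _ => IsSquare.mul) IsSquare.one fun a _ => ?_
    unfold Frame.G
    split_ifs
    · exact ⟨Fr.G2 (a.2 / 2) * Fr.G1 (a.2 / 2), by simp; ring⟩
    · exact ⟨a.2, by rw [h.2.2.2.1, sq]⟩

end Pool.Agent.MP_a43263_nt.RH
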