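import Pool.Agent.MP_a43263_nt.RH.Spec
import Pool.Agent.MP_a43263_nt.RH.GenInj
import Mathlib.LinearAlgebra.BilinearForm.Orthogonal
import Mathlib.LinearAlgebra.Matrix.DotProduct
import Mathlib.LinearAlgebra.Matrix.ToLin
import Mathlib.FieldTheory.Finiteness
import Pool.Agent.MP_a43263_nt.RH.Frame
import Pool.Agent.MP_a43263_nt.RH.Const

-- ======== part 0: formerly Pool.Agent.MP_a43263_nt.RH.OneSpec
section MrgPart0

/-! PROJECT RANKG, round ONE: one good fibre gives a positive proportion.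
Blueprint: `/team-store/RANKG_ONE_BLUEPRINT.md`. -/

set_option autoImplicit false

noncomputable section

namespace Pool.Agent.MP_a43263_nt.RH

open Finset Filter
open R2 (Sgn chi Ker ELS)
open RG RG.Surf

variable {n : ℕ}

/-- the class has a point over the function field -/
def SolG (F : Surf n) (u : Fin 3 → ℚ) (y : Finset (Ix n)) : Prop :=
  Cover (F.D 1 gp) (F.D 2 gp) (F.del u y 2 gp) (F.del u y 1 gp)

def vq (v : ℤ × ℤ) : ℚ × ℚ := (v.1, v.2)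

/-- the classes that are locally soluble in the fibre `v` have points over the function field -/
structure Hyp3 (F : Surf n) (r : ℕ) (v : ℤ × ℤ) : Prop where
  h0 : Hyp0 F
  prim : IsCoprime v.1 v.2
  nz : ∀ j, F.LZ j v ≠ 0
  card : {y | ∃ u, F.InS u y ∧ SolG F u y}.ncard = 2 ^ (r + 2)
  loc : ∀ u y, F.InS u y →
    ELS (F.D 1 (vq v)) (F.D 2 (vq v)) (F.del u y 2 (vq v)) (F.del u y 1 (vq v)) → SolG F u y

/-- every form has a private prime of odd multiplicity at `v` -/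
def Priv (F : Surf n) (v : ℤ × ℤ) : Prop :=
  IsCoprime v.1 v.2 ∧ ∀ j, ∃ p : ℕ, p.Prime ∧ Odd (padicValRat p (F.L j (vq v))) ∧
    (∀ i, ¬(p : ℤ) ∣ F.c i) ∧ ∀ k l, k ≠ l → padicValRat p (F.L k (F.root l)) = 0

/-- admissible parts prime to `N` -/
def Adm2 (N m₂ : ℕ) (m₃ : ℤ) : Prop := m₂.Coprime N ∧ m₃ % 4 = 1 ∧ m₃.natAbs.Coprime N

/-! ### local images are maximal -/

/-- the size of the local image -/
def SIZEStmt : Prop := ∀ (p : ℕ) [Fact p.Prime] (a b : ℤ), a ≠ 0 → b ≠ 0 → a ≠ b →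
  ∃ I : Finset (ℤ × ℤ), I.card = (if p = 2 then 8 else 4) ∧
    (∀ d ∈ I, d.1 ≠ 0 ∧ d.2 ≠ 0 ∧ Cover (a : ℚ_[p]) b d.1 d.2) ∧
    ∀ d ∈ I, ∀ e ∈ I, IsSquare ((d.1 : ℚ_[p]) * e.1) → IsSquare ((d.2 : ℚ_[p]) * e.2) → d = e

/-- unit classes are soluble at good primes -/
def UNRStmt : Prop := ∀ (p : ℕ) [Fact p.Prime] (a b d₂ d₃ : ℤ), p ≠ 2 →
  ¬(p : ℤ) ∣ a * b * (a - b) * d₂ * d₃ → Cover (a : ℚ_[p]) b d₂ d₃

/-- maximal isotropy -/
def MAXIStmt : Prop := ∀ (N : ℕ) (a b : ℤ), 0 < N → 2 ∣ N → a ≠ 0 → b ≠ 0 → Smooth N (a - b) →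
  (∀ u₂ u₃ : ℤ, Smooth N u₂ → Smooth N u₃ → (∀ (m₂ : ℕ) (m₃ : ℤ), Adm2 N m₂ m₃ →
      SolS N a b m₂ m₃ → jacobiSym u₂ m₃.natAbs * jacobiSym u₃ m₂ = 1) →
    ∃ (m₂ : ℕ) (m₃ : ℤ), Adm2 N m₂ m₃ ∧ SolS N a b (u₂ * m₂) (u₃ * m₃)) ∧
  ∀ (m₂ : ℕ) (m₃ : ℤ), Adm2 N m₂ m₃ → (∀ (u₂ u₃ : ℤ) (k₂ : ℕ) (k₃ : ℤ), Smooth N u₂ → Smooth N u₃ →
      Adm2 N k₂ k₃ → SolS N a b (u₂ * k₂) (u₃ * k₃) →
      jacobiSym u₂ m₃.natAbs * jacobiSym u₃ m₂ = 1) → SolS N a b m₂ m₃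

/-- the kernel of the frame is soluble -/
def MAXFStmt : Prop := ∀ (N : ℕ) (a b : ℤ) (Fr : Frame), 0 < N → 2 ∣ N → a ≠ 0 → b ≠ 0 →
  Smooth N (a - b) → Fr.Ok N a b → ∀ x ∈ Ker Fr.τ (range Fr.k),
    SolS N a b (∏ i ∈ x, Fr.G2 i) (∏ i ∈ x, Fr.G1 i)

/-! ### one good fibre -/

/-- no 2-torsion in the Tate-Shafarevich group: the Hasse principle for 2-coverings -/
def SHCStmt : Prop := ∀ a b : ℚ, a ≠ 0 → b ≠ 0 → a ≠ b →
  (∀ x ∈ Sha (curve a b), 2 • x = 0 → x = 0) →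
  ∀ d₂ d₃ : ℚ, d₂ ≠ 0 → d₃ ≠ 0 → ELS a b d₂ d₃ → Cover a b d₂ d₃

/-- the number of soluble coverings is bounded by the rank -/
def UBStmt : Prop := ∀ (a b : ℚ) (r : ℕ) (ι : Type) (I : Finset ι) (d₂ d₃ : ι → ℚ), a ≠ 0 → b ≠ 0 →
  a ≠ b → Module.rank ℤ (Pt (curve a b) ℚ) ≤ r →
  (∀ i ∈ I, d₂ i ≠ 0 ∧ d₃ i ≠ 0 ∧ Cover a b (d₂ i) (d₃ i)) →
  (∀ i ∈ I, ∀ j ∈ I, IsSquare (d₂ i * d₂ j) → IsSquare (d₃ i * d₃ j) → i = j) →
  I.card ≤ 2 ^ (r + 2)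

/-- specialisation at every smooth fibre -/
def SPE3Stmt : Prop := ∀ (n : ℕ) (F : Surf n) (u : Fin 3 → ℚ) (y : Finset (Ix n)), Hyp0 F →
  F.InS u y → SolG F u y → ∀ v : ℚ × ℚ, (∀ j, F.L j v ≠ 0) →
    Cover (F.D 1 v) (F.D 2 v) (F.del u y 2 v) (F.del u y 1 v)

open Classical in
def GEN3Stmt : Prop := ∀ (n : ℕ) (F : Surf n), Hyp0 F → ∃ r : ℕ,
  Module.rank ℤ F.gen.toAffine.Point = r ∧
    {y | ∃ u, F.InS u y ∧ SolG F u y}.ncard = 2 ^ (r + 2)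

def ONEStmt : Prop := ∀ (n r : ℕ) (F : Surf n) (v : ℤ × ℤ), Hyp0 F →
  {y | ∃ u, F.InS u y ∧ SolG F u y}.ncard = 2 ^ (r + 2) → Priv F v →
  Module.rank ℤ (Pt (F.fibre v) ℚ) ≤ r → (∀ x ∈ Sha (F.fibre v), 2 • x = 0 → x = 0) → Hyp3 F r v

/-- some primitive point lies on no bad fibre -/
def EXVStmt : Prop := ∀ (n : ℕ) (F : Surf n), Hyp0 F →
  ∃ v : ℤ × ℤ, IsCoprime v.1 v.2 ∧ ∀ j, F.LZ j v ≠ 0

/-! ### ports -/

def BASE3Stmt : Prop := ∀ (n : ℕ) (F : Surf n) (v : ℤ × ℤ), Hyp0 F → IsCoprime v.1 v.2 →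
  (∀ j, F.LZ j v ≠ 0) → ∃ N : ℕ, Pre F N (fun j => F.LZ j v) ∧
  ∀ ε : ℕ, ∃ B : Base n, B.N = N ∧ (B.μ = fun j => F.LZ j v) ∧ Ok2 F B ∧
    (∑ j, (B.a j).primeFactors.card) % 2 = ε % 2

def BR3Stmt : Prop := ∀ (n : ℕ) (F : Surf n) (B : Base n) (Fr : Frame) (M : ℕ), Hyp0 F →
  Ok2 F B → B.Fits M → Fr.Ok B.N (bv F B.μ 1) (bv F B.μ 2) → 2 * Fr.k ≤ M →
  (dat2 F B Fr M).Ok ∧ ∀ l, Adm (dat2 F B Fr M).D l →
    Loc2 B.N (bv F B.μ 1) (bv F B.μ 2) (V1 B ∪ gens l) (dg2 F B) (B.pr l) ∧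
    ∏ x ∈ (V1 B ∪ gens l).filter (fun x => x.1.1 = 0), dg2 F B x = 1 ∧
    (V1 B ∪ gens l).card = ∑ j, (B.a j).primeFactors.card + ∑ j, (l j).primeFactors.card

def GEO3Stmt : Prop := ∀ (n r : ℕ) (F : Surf n) (v : ℤ × ℤ) (B : Base n) (Fr : Frame) (M : ℕ),
  Hyp3 F r v → (B.μ = fun j => F.LZ j v) → Ok2 F B → Fr.Ok B.N (bv F B.μ 1) (bv F B.μ 2) →
  (dat2 F B Fr M).Ok → (geoSet2 (dat2 F B Fr M)).card ≤ 2 ^ (r + 2)

def GOOD3Stmt : Prop := ∀ (n r : ℕ) (F : Surf n) (B : Base n) (Fr : Frame) (M : ℕ), Hyp0 F →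
  {y | ∃ u, F.InS u y ∧ SolG F u y}.ncard = 2 ^ (r + 2) →
  Ok2 F B → B.Fits M → Fr.Ok B.N (bv F B.μ 1) (bv F B.μ 2) → 2 * Fr.k ≤ M →
  ∀ l, Adm (dat2 F B Fr M).D l → (∀ j, 1 < l j) →
    (Ker (dat2 F B Fr M).g ((dat2 F B Fr M).VV l)).card ≤ 2 ^ (r + 2) →
    ∀ v : ℤ × ℤ, (∀ j, F.LZ j v = B.μ j * B.a j * l j) → Good r (F.fibre v)

open Classical in
def Main30Stmt : Prop := ∀ (n r : ℕ) (F : Surf n) (v₀ : ℤ × ℤ), Hyp3 F r v₀ →
  ∃ c : ℝ, 0 < c ∧ ∀ᶠ H : ℕ in atTop,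
  c * (H : ℝ) ^ 2 ≤ (((Icc (-H : ℤ) H ×ˢ Icc (-H : ℤ) H).filter fun v : ℤ × ℤ =>
    IsCoprime v.1 v.2 ∧ Good r (F.fibre v)).card : ℝ)

def Main3Stmt : Prop := ∀ (n r : ℕ) (F : Surf n) (v₀ : ℤ × ℤ), Hyp3 F r v₀ →
  ∃ c : ℝ, 0 < c ∧ ∀ᶠ H : ℕ in atTop,
  ∃ T ⊆ Icc (-H : ℤ) H ×ˢ Icc (-H : ℤ) H, c * (H : ℝ) ^ 2 ≤ T.card ∧
    (∀ v ∈ T, IsCoprime v.1 v.2 ∧ Good r (F.fibre v)) ∧
    ∀ v ∈ T, ∀ w ∈ T, ∀ [(F.fibre v).IsElliptic] [(F.fibre w).IsElliptic],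
      (F.fibre v).j = (F.fibre w).j → v = w

theorem main3_of (rc : RECStmt) (grp : GRPStmt) (rkk : RKKStmt) (frame : FRAMEStmt)
    (par : PAR2Stmt) (pos : POSStmt) (mkv : MKV2Stmt) (pty : PTY2Stmt) (pt : PT2Stmt)
    (gp : GPStmt) (mat : MATStmt) (kc : KC2Stmt) (alg : ALG2Stmt) (loc : LOC2Stmt) (spe : SPEStmt)
    (size : RKKStmt → SIZEStmt) (unr : SIZEStmt → UNRStmt)
    (maxi : SIZEStmt → RECStmt → GRPStmt → MAXIStmt) (maxf : MAXIStmt → GRPStmt → MAXFStmt)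
    (spe3 : SPEStmt → SPE3Stmt) (base : PTY2Stmt → BASE3Stmt)
    (br : GPStmt → MATStmt → PT2Stmt → BR3Stmt)
    (geo : GPStmt → MATStmt → KC2Stmt → MAXFStmt → UNRStmt → GEO3Stmt)
    (good : ALG2Stmt → LOC2Stmt → BR3Stmt → SPE3Stmt → GOOD3Stmt)
    (fin : FRAMEStmt → PAR2Stmt → POSStmt → MKV2Stmt → BASE3Stmt → PT2Stmt → BR3Stmt → GEO3Stmt →
      GOOD3Stmt → Main30Stmt)
    (jin : Main30Stmt → Main3Stmt) : Main3Stmt :=
  have hs := size rkk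
  have hb := br gp mat pt
  jin (fin frame par pos mkv (base pty) pt hb
    (geo gp mat kc (maxf (maxi hs rc grp) grp) (unr hs)) (good alg loc hb (spe3 spe)))

theorem one_of (inj : INJStmt) (spe3 : SPE3Stmt) (shc : SHCStmt) (ub : UBStmt)
    (one : INJStmt → SPE3Stmt → SHCStmt → UBStmt → ONEStmt) : ONEStmt :=
  one inj spe3 shc ub

end Pool.Agent.MP_a43263_nt.RH

end
end MrgPart0

-- ======== part 1: formerly Pool.Agent.MP_a43263_nt.RH.OneMaxi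
section MrgPart1

/-! PROJECT RANKG, round ONE, row MAXI: maximal isotropy at the bad places. -/

set_option autoImplicit false

noncomputable section

namespace Pool.Agent.MP_a43263_nt.RH

namespace Mxi

open Finset RG Frm Module

/-- a large isotropic subspace is its own annihilator -/
theorem la {ι : Type} [Fintype ι] (L : Submodule (ZMod 2) ((ι → ZMod 2) × (ι → ZMod 2)))
    (iso : ∀ w ∈ L, ∀ w' ∈ L, w.1 ⬝ᵥ w'.2 = w'.1 ⬝ᵥ w.2) (big : 2 ^ Fintype.card ι ≤ Nat.card L) :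
    (∀ x, (∀ y, (0, y) ∈ L → x ⬝ᵥ y = 0) → ∃ y, (x, y) ∈ L) ∧
      ∀ y, (∀ w ∈ L, w.1 ⬝ᵥ y = 0) → (0, y) ∈ L := by
  let B : LinearMap.BilinForm (ZMod 2) (ι → ZMod 2) := dotProductBilin (ZMod 2) (ZMod 2)
  have eB : ∀ x y, B x y = x ⬝ᵥ y := fun _ _ => rfl
  have hr : B.IsRefl := fun x y h => by rwa [eB, dotProduct_comm]
  have hn : B.Nondegenerate := ⟨fun x h => dotProduct_eq_zero x h,
    fun x h => dotProduct_eq_zero x fun y => hr _ _ (h y)⟩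
  let f : L →ₗ[ZMod 2] (ι → ZMod 2) := (LinearMap.fst _ _ _).comp L.subtype
  let g : LinearMap.ker f →ₗ[ZMod 2] (ι → ZMod 2) :=
    ((LinearMap.snd _ _ _).comp L.subtype).comp (LinearMap.ker f).subtype
  have gi : Function.Injective g := fun x y h =>
    Subtype.ext (Subtype.ext (Prod.ext (x.2.trans y.2.symm) h))
  have mA : ∀ x, x ∈ LinearMap.range f ↔ ∃ y, (x, y) ∈ L := fun x =>
    ⟨fun ⟨w, h⟩ => ⟨w.1.2, h ▸ w.2⟩, fun ⟨y, h⟩ => ⟨⟨_, h⟩, rfl⟩⟩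
  have mC : ∀ y, y ∈ LinearMap.range g ↔ (0, y) ∈ L := fun y =>
    ⟨fun ⟨w, h⟩ => by
      have e : w.1.1 = (0, y) := Prod.ext w.2 h
      exact e ▸ w.1.2, fun h => ⟨⟨⟨_, h⟩, rfl⟩, rfl⟩⟩
  have d1 := LinearMap.finrank_range_add_finrank_ker f
  have d2 := LinearMap.finrank_range_of_inj gi
  have d3 := LinearMap.BilinForm.finrank_orthogonal hn (LinearMap.range f)
  rw [Module.natCard_eq_pow_finrank (K := ZMod 2), Nat.card_zmod,
    Nat.pow_le_pow_iff_right (by norm_num)] at big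
  rw [finrank_fintype_fun_eq_card] at d3
  have e : LinearMap.range g = B.orthogonal (LinearMap.range f) := by
    refine Submodule.eq_of_le_of_finrank_le (fun y hy x hx => ?_) (by omega)
    obtain ⟨y', h⟩ := (mA x).1 hx
    exact (iso _ h _ ((mC y).1 hy)).trans (zero_dotProduct _)
  refine ⟨fun x hx => (mA x).1 ?_, fun y hy => (mC y).1 ?_⟩
  · rw [← LinearMap.BilinForm.orthogonal_orthogonal hn hr (LinearMap.range f), ← e]
    exact fun y hy => hr _ _ (hx y ((mC y).1 hy))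
  · rw [e]
    intro x hx
    obtain ⟨y', h⟩ := (mA x).1 hx
    exact hy _ h

variable {N : ℕ} {a b : ℤ}

abbrev J (N : ℕ) : Type := Option N.primeFactors

def g : J N → ℤ
  | none => -1
  | some p => (p.1 : ℤ)

def xv (N : ℕ) (u : ℤ) : J N → ZMod 2
  | none => if u < 0 then 1 else 0
  | some p => padicValInt p.1 u

def yv (N m : ℕ) (j : J N) : ZMod 2 := if jacobiSym (g j) m = 1 then 0 else 1

def sn (e : ZMod 2) : ℤ := if e = 0 then 1 else -1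

theorem sn_add (e f : ZMod 2) : sn (e + f) = sn e * sn f := by
  revert e f
  decide

theorem sn_inj {e f : ZMod 2} (h : sn e = sn f) : e = f := by
  revert e f
  decide

theorem add_self {ι : Type} (x : ι → ZMod 2) : x + x = 0 := by
  funext i
  exact CharTwo.add_self_eq_zero _

theorem sm_g (j : J N) : Smooth N (g j) := by
  rcases j with _ | ⟨p, hp⟩
  · exact ⟨by simp [g], fun q hq h => sm_one.2 q hq (dvd_neg.1 h)⟩
  · have hp' := Nat.prime_of_mem_primeFactors hp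
    refine ⟨Int.natCast_ne_zero.2 hp'.ne_zero, fun q hq h => ?_⟩
    rw [(Nat.prime_dvd_prime_iff_eq hq hp').1 (Int.natCast_dvd_natCast.1 h)]
    exact Nat.dvd_of_mem_primeFactors hp

theorem xv_mul {u v : ℤ} (hu : u ≠ 0) (hv : v ≠ 0) : xv N (u * v) = xv N u + xv N v := by
  funext j
  rcases j with _ | ⟨p, hp⟩
  · simp only [xv, Pi.add_apply]
    rcases lt_or_gt_of_ne hu with c | c <;> rcases lt_or_gt_of_ne hv with d | d
    · rw [if_neg (mul_pos_of_neg_of_neg c d).not_gt, if_pos c, if_pos d]; decide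
    · rw [if_pos (mul_neg_of_neg_of_pos c d), if_pos c, if_neg d.not_gt]; decide
    · rw [if_pos (mul_neg_of_pos_of_neg c d), if_neg c.not_gt, if_pos d]; decide
    · rw [if_neg (mul_pos c d).not_gt, if_neg c.not_gt, if_neg d.not_gt]; decide
  · have := Fact.mk (Nat.prime_of_mem_primeFactors hp)
    simp only [xv, Pi.add_apply, padicValInt.mul hu hv, Nat.cast_add]

theorem xv_one : xv N 1 = 0 := by
  have := xv_mul (N := N) one_ne_zero one_ne_zero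
  rwa [mul_one, add_self] at this

theorem xv_sq {u : ℤ} (hu : u ≠ 0) (h : IsSquare u) : xv N u = 0 := by
  obtain ⟨r, rfl⟩ := h
  rw [xv_mul (left_ne_zero_of_mul hu) (left_ne_zero_of_mul hu), add_self]

theorem xv_g (j : J N) : xv N (g j) = Pi.single j 1 := by
  funext k
  rcases j with _ | ⟨p, hp⟩ <;> rcases k with _ | ⟨q, hq⟩
  · simp [xv, g]
  · simp [xv, g, padicValInt]
  · simp [xv, g, (Int.natCast_nonneg p).not_gt]
  · have h1 := Fact.mk (Nat.prime_of_mem_primeFactors hp)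
    have h2 := Fact.mk (Nat.prime_of_mem_primeFactors hq)
    by_cases c : q = p
    · subst c
      simp [xv, g]
    · simp [xv, g, c, padicValInt.of_nat, padicValNat_primes c]

theorem sn_yv {m : ℕ} (k : m.Coprime N) (j : J N) : sn (yv N m j) = jacobiSym (g j) m := by
  rcases jac_pm (sm_g j) k with e | e <;> simp [sn, yv, e]

theorem yv_mul {m m' : ℕ} (h : m.Coprime N) (k : m'.Coprime N) (h0 : m ≠ 0) (k0 : m' ≠ 0) :
    yv N (m * m') = yv N m + yv N m' := by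
  funext j
  apply sn_inj
  rw [Pi.add_apply, sn_add, sn_yv h, sn_yv k, sn_yv (Nat.Coprime.mul_left h k),
    jacobiSym.mul_right' _ h0 k0]

theorem smooth_ind (hN : 0 < N) (Q : ℤ → Prop) (h1 : Q 1)
    (hs : ∀ (j : J N) u, Smooth N u → Q u → Q (g j * u)) {u : ℤ} (hu : Smooth N u) : Q u := by
  have key : ∀ n : ℕ, Smooth N n → Q n := by
    intro n
    induction n using induction_on_primes with
    | zero => exact fun h => absurd rfl h.1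
    | one => exact fun _ => h1
    | prime_mul p n hp ih =>
      intro h
      rw [Nat.cast_mul] at h ⊢
      have k : Smooth N n := ⟨right_ne_zero_of_mul h.1, fun q hq e => h.2 q hq (e.mul_left _)⟩
      exact hs (some ⟨p, Nat.mem_primeFactors.2 ⟨hp, h.2 p hp (dvd_mul_right _ _), hN.ne'⟩⟩) n k
        (ih k)
  obtain ⟨n, rfl | rfl⟩ := u.eq_nat_or_neg
  · exact key n hu
  · have k : Smooth N n := ⟨fun e => hu.1 (by rw [e, neg_zero]),
      fun q hq e => hu.2 q hq (dvd_neg.2 e)⟩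
    have := hs none n k (key n k)
    rwa [g, neg_one_mul] at this

theorem jac_eq (hN : 0 < N) {u : ℤ} {m : ℕ} (h : Smooth N u) (k : m.Coprime N) :
    jacobiSym u m = sn (xv N u ⬝ᵥ yv N m) := by
  refine smooth_ind hN (fun u => jacobiSym u m = sn (xv N u ⬝ᵥ yv N m)) ?_ (fun j v hv ih => ?_) h
  · simp [xv_one, sn]
  · rw [jacobiSym.mul_left, xv_mul (sm_g j).1 hv.1, add_dotProduct, sn_add, ← ih, xv_g,
      single_one_dotProduct, sn_yv k]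

theorem sq_of_xv (hN : 0 < N) {u : ℤ} (h : Smooth N u) (e : xv N u = 0) : IsSquare u := by
  have p0 : 0 ≤ u := by
    by_contra c
    have := congrFun e none
    simp only [xv, if_pos (not_le.1 c), Pi.zero_apply] at this
    exact one_ne_zero this
  lift u to ℕ using p0
  obtain ⟨t, s, rfl, ht⟩ := Nat.sq_mul_squarefree u
  have h0 := h.1
  rw [Nat.cast_mul] at h0 e
  rw [xv_mul (left_ne_zero_of_mul h0) (right_ne_zero_of_mul h0),
    xv_sq (left_ne_zero_of_mul h0) ⟨s, by push_cast; ring⟩, zero_add] at e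
  obtain rfl : t = 1 := by
    refine Nat.eq_one_iff_not_exists_prime_dvd.2 fun p hp d => ?_
    have := congrFun e (some ⟨p, Nat.mem_primeFactors.2
      ⟨hp, h.2 p hp (Int.natCast_dvd_natCast.2 (d.mul_left _)), hN.ne'⟩⟩)
    simp only [xv, padicValInt.of_nat, Pi.zero_apply] at this
    rw [← Nat.factorization_def _ hp, Nat.factorization_eq_one_of_squarefree ht hp d,
      Nat.cast_one] at this
    exact one_ne_zero this
  exact ⟨s, by push_cast; ring⟩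

/-- a square at the real place and at the primes of `N` -/
def LS (N : ℕ) (z : ℤ) : Prop := 0 < z ∧ ∀ (p : ℕ) [Fact p.Prime], p ∣ N → IsSquare (z : ℚ_[p])

theorem norm_one {p : ℕ} [Fact p.Prime] {k : ℤ} (h : ¬(p : ℤ) ∣ k) : ‖(k : ℚ_[p])‖ = 1 :=
  le_antisymm (Padic.norm_int_le_one k) (not_lt.1 fun c => h (Padic.norm_intCast_lt_one_iff.1 c))

theorem ls_of_yv (hN : 0 < N) (h2 : 2 ∣ N) {m : ℕ} (k : m.Coprime N) (e : yv N m = 0) :
    m % 4 = 1 ∧ LS N m := by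
  have ho : m % 2 = 1 := Nat.odd_iff.1 (Nat.coprime_two_right.1 (k.coprime_dvd_right h2))
  have j1 : ∀ j : J N, jacobiSym (g j) m = 1 := fun j => by rw [← sn_yv k, e]; rfl
  have h4 : m % 4 = 1 := by
    have := j1 none
    rw [g, jacobiSym.at_neg_one (Nat.odd_iff.2 ho), ZMod.χ₄_nat_eq_if_mod_four] at this
    split_ifs at this <;> omega
  refine ⟨h4, by omega, fun p hp d => ?_⟩
  have := j1 (some ⟨p, Nat.mem_primeFactors.2 ⟨hp.1, d, hN.ne'⟩⟩)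
  simp only [g] at this
  by_cases c : p = 2
  · subst c
    rw [Nat.cast_ofNat, jacobiSym.at_two (Nat.odd_iff.2 ho), ZMod.χ₈_nat_eq_if_mod_eight] at this
    have h8 : m % 8 = 1 := by split_ifs at this <;> omega
    obtain ⟨s, hs⟩ := Cst.sq_one (p := 2) (x := ((m : ℤ) : ℚ_[2])) (by
      have a1 := (Padic.norm_int_le_pow_iff_dvd (p := 2) ((m : ℤ) - 1) 3).2 (by norm_num; omega)
      have a2 := Padic.norm_p_pow (p := 2) 2
      push_cast at a1 a2 ⊢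
      rw [show (4 : ℚ_[2]) = 2 ^ 2 by norm_num, a2]
      exact a1.trans_lt (by norm_num))
    exact ⟨s, by rw [hs, sq]⟩
  · have op := hp.1.odd_of_ne_two c
    rw [jacobiSym.quadratic_reciprocity_one_mod_four' op h4] at this
    obtain ⟨r, hr⟩ := ZMod.isSquare_of_jacobiSym_eq_one this
    obtain ⟨r, rfl⟩ := ZMod.intCast_surjective r
    have d1 : (p : ℤ) ∣ m - r * r := by
      rw [← ZMod.intCast_zmod_eq_zero_iff_dvd, Int.cast_sub, hr, Int.cast_mul, sub_self]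
    have d2 : ¬(p : ℤ) ∣ r * r := fun f => by
      have := Int.natCast_dvd_natCast.1 ((dvd_sub_left f).1 d1)
      exact hp.1.not_dvd_one (k ▸ Nat.dvd_gcd this d)
    have d3 : ¬(p : ℤ) ∣ 4 := fun f =>
      c ((Nat.prime_dvd_prime_iff_eq hp.1 Nat.prime_two).1
        (hp.1.dvd_of_dvd_pow (n := 2) (Int.natCast_dvd_natCast.1 f)))
    obtain ⟨s, hs⟩ := Cst.close (p := p) (x := ((m : ℤ) : ℚ_[p])) (y := ((r * r : ℤ) : ℚ_[p])) (by
      have a1 := norm_one d3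
      rw [Int.cast_ofNat] at a1
      rw [a1, norm_one d2, one_mul, ← Int.cast_sub]
      exact Padic.norm_intCast_lt_one_iff.2 d1)
    exact ⟨r * s, by rw [hs]; push_cast; ring⟩

theorem LS.sq {u z : ℤ} (hu : u ≠ 0) (h : IsSquare u) (k : LS N z) : LS N (u * z) := by
  obtain ⟨r, rfl⟩ := h
  refine ⟨mul_pos (mul_self_pos.2 (left_ne_zero_of_mul hu)) k.1, fun p _ d => ?_⟩
  rw [Int.cast_mul, Int.cast_mul]
  exact (IsSquare.mul_self _).mul (k.2 p d)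

def X (N : ℕ) (u : ℤ × ℤ) : J N ⊕ J N → ZMod 2 := Sum.elim (xv N u.1) (xv N u.2)

def Y (N : ℕ) (m : ℤ × ℕ) : J N ⊕ J N → ZMod 2 := Sum.elim (yv N m.1.natAbs) (yv N m.2)

theorem P_eq (hN : 0 < N) {u : ℤ × ℤ} {m : ℤ × ℕ} (h : Sm2 N u) (k : Cp N m) :
    P u m = sn (X N u ⬝ᵥ Y N m) := by
  rw [X, Y, sumElim_dotProduct_sumElim, sn_add, P, jac_eq hN h.1 k.2.2, jac_eq hN h.2 k.1]

theorem X_mul {u v : ℤ × ℤ} (h : Sm2 N u) (k : Sm2 N v) : X N (u * v) = X N u + X N v := by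
  funext j
  rcases j with j | j
  exacts [congrFun (xv_mul h.1.1 k.1.1) j, congrFun (xv_mul h.2.1 k.2.1) j]

theorem Y_mul (h2 : 2 ∣ N) {m m' : ℤ × ℕ} (h : Cp N m) (k : Cp N m') :
    Y N (m * m') = Y N m + Y N m' := by
  funext j
  rcases j with j | j
  · simp only [Y, Prod.fst_mul, Int.natAbs_mul]
    exact congrFun (yv_mul h.2.2 k.2.2 (Int.natAbs_ne_zero.2 (h.ne h2).1)
      (Int.natAbs_ne_zero.2 (k.ne h2).1)) j
  · exact congrFun (yv_mul h.1 k.1 (h.ne h2).2 (k.ne h2).2) j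

def d2 (w : T) : ℤ := w.1.1 * w.2.2

def d3 (w : T) : ℤ := w.1.2 * w.2.1

/-- the two vectors determine the local classes -/
theorem same (hN : 0 < N) (h2 : 2 ∣ N) {w w' : T} (h : Sm2 N w.1) (k : Cp N w.2) (h' : Sm2 N w'.1)
    (k' : Cp N w'.2) (e : X N w.1 = X N w'.1) (f : Y N w.2 = Y N w'.2) :
    LS N (d2 w * d2 w') ∧ LS N (d3 w * d3 w') := by
  have e0 : X N (w.1 * w'.1) = 0 := by rw [X_mul h h', e, add_self]
  have f0 : Y N (w.2 * w'.2) = 0 := by rw [Y_mul h2 k k', f, add_self]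
  have s := h.mul h'
  have c := k.mul k'
  have a1 := LS.sq s.1.1 (sq_of_xv hN s.1 (funext fun j => congrFun e0 (.inl j)))
    (ls_of_yv hN h2 c.1 (funext fun j => congrFun f0 (.inr j))).2
  obtain ⟨a2, a3⟩ := ls_of_yv hN h2 c.2.2 (funext fun j => congrFun f0 (.inl j))
  have a4 : (((w.2 * w'.2).1.natAbs : ℕ) : ℤ) = (w.2 * w'.2).1 := by
    have := c.2.1
    omega
  rw [a4] at a3
  have a5 := LS.sq s.2.1 (sq_of_xv hN s.2 (funext fun j => congrFun e0 (.inr j))) a3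
  simp only [Prod.fst_mul, Prod.snd_mul, Nat.cast_mul] at a1 a5
  exact ⟨by rwa [d2, d2, mul_mul_mul_comm], by rwa [d3, d3, mul_mul_mul_comm]⟩

theorem cov_sq {K : Type} [Field K] {a b d₂ d₃ e₂ e₃ : K} (h : Cover a b d₂ d₃)
    (n2 : d₂ * e₂ ≠ 0) (n3 : d₃ * e₃ ≠ 0) (s2 : IsSquare (d₂ * e₂)) (s3 : IsSquare (d₃ * e₃)) :
    Cover a b e₂ e₃ := by
  obtain ⟨z0, z2, z3, t, hz, e1, e2⟩ := h
  obtain ⟨r, hr⟩ := s2
  obtain ⟨s, hs⟩ := s3
  have r0 : r ≠ 0 := fun e => n2 (by rw [hr, e, mul_zero])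
  have s0 : s ≠ 0 := fun e => n3 (by rw [hs, e, mul_zero])
  have p2 := left_ne_zero_of_mul n2
  have p3 := left_ne_zero_of_mul n3
  obtain rfl : e₂ = r * r / d₂ := by rw [← hr]; field_simp
  obtain rfl : e₃ = s * s / d₃ := by rw [← hs]; field_simp
  refine ⟨d₂ * d₃ / (r * s) * z0, d₂ / r * z2, d₃ / s * z3, t, fun c => hz ?_, ?_, ?_⟩
  · simpa [r0, s0, p2, p3] using c
  · rw [← e1]; field_simp
  · rw [← e2]; field_simp

theorem real_sq {z : ℤ} (h : 0 < z) : IsSquare (z : ℝ) :=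
  ⟨√z, (Real.mul_self_sqrt (Int.cast_nonneg h.le)).symm⟩

theorem sol_ls {d₂ d₃ e₂ e₃ : ℤ} (h : SolS N a b d₂ d₃) (s2 : LS N (d₂ * e₂))
    (s3 : LS N (d₃ * e₃)) : SolS N a b e₂ e₃ := by
  refine ⟨cov_sq h.1 ?_ ?_ ?_ ?_, fun p _ d => cov_sq (h.2 p d) ?_ ?_ ?_ ?_⟩ <;> rw [← Int.cast_mul]
  exacts [Int.cast_ne_zero.2 s2.1.ne', Int.cast_ne_zero.2 s3.1.ne', real_sq s2.1, real_sq s3.1,
    Int.cast_ne_zero.2 s2.1.ne', Int.cast_ne_zero.2 s3.1.ne', s2.2 p d, s3.2 p d]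

theorem crt {ι : Type} (S : Finset ι) (M d : ι → ℤ)
    (h : ∀ i ∈ S, ∀ j ∈ S, i ≠ j → IsCoprime (M i) (M j)) : ∃ z, ∀ i ∈ S, M i ∣ z - d i := by
  classical
  induction S using Finset.induction_on with
  | empty => exact ⟨0, by simp⟩
  | insert j S hj ih =>
    obtain ⟨z, hz⟩ := ih fun i hi k hk => h i (mem_insert_of_mem hi) k (mem_insert_of_mem hk)
    obtain ⟨α, β, e⟩ : IsCoprime (M j) (∏ i ∈ S, M i) := IsCoprime.prod_right fun i hi =>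
      h j (mem_insert_self _ _) i (mem_insert_of_mem hi) fun c => hj (c ▸ hi)
    refine ⟨z + (d j - z) * β * ∏ i ∈ S, M i, fun i hi => ?_⟩
    rcases mem_insert.1 hi with rfl | hi
    · exact ⟨(z - d i) * α, by linear_combination (d i - z) * e⟩
    · rw [add_sub_right_comm]
      exact (hz i hi).add ((dvd_prod_of_mem _ hi).mul_left _)

theorem near (p : ℕ) (y : ℤ) : ∃ k : ℕ, ∀ [Fact p.Prime], y ≠ 0 → ∀ x : ℤ, (p : ℤ) ^ k ∣ x - y →
    IsSquare ((x : ℚ_[p]) * y) := by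
  by_cases hp : p.Prime
  · have := Fact.mk hp
    by_cases hy : y = 0
    · exact ⟨0, fun c => absurd hy c⟩
    have h0 : 0 < ‖(4 : ℚ_[p])‖ * ‖(y : ℚ_[p])‖ :=
      mul_pos (norm_pos_iff.2 (by norm_num)) (norm_pos_iff.2 (Int.cast_ne_zero.2 hy))
    obtain ⟨k, hk⟩ := exists_pow_lt_of_lt_one h0 (Padic.norm_p_lt_one (p := p))
    refine ⟨k, fun _ x hx => ?_⟩
    obtain ⟨s, hs⟩ := Cst.close (p := p) (x := (x : ℚ_[p])) (y := (y : ℚ_[p])) (by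
      rw [← norm_pow, Padic.norm_p_pow] at hk
      rw [← Int.cast_sub]
      exact ((Padic.norm_int_le_pow_iff_dvd _ k).2 hx).trans_lt hk)
    exact ⟨y * s, by rw [hs]; ring⟩
  · exact ⟨0, fun [h : Fact p.Prime] => absurd h.1 hp⟩

/-- weak approximation -/
theorem app (d : N.primeFactors → ℤ) (hd : ∀ p, d p ≠ 0) {e : ℤ} (he : e ≠ 0) :
    ∃ z : ℤ, 0 < z * e ∧ ∀ (p : N.primeFactors) [Fact p.1.Prime], IsSquare ((z : ℚ_[p.1]) * d p) := by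
  choose k hk using fun p : N.primeFactors => near p.1 (d p)
  obtain ⟨z, hz⟩ := crt univ (fun p : N.primeFactors => (p.1 : ℤ) ^ k p) d fun p _ q _ c =>
    IsCoprime.pow (Nat.isCoprime_iff_coprime.2 ((Nat.coprime_primes
      (Nat.prime_of_mem_primeFactors p.2) (Nat.prime_of_mem_primeFactors q.2)).2
        fun e => c (Subtype.ext e)))
  have h1 : 0 < ∏ p : N.primeFactors, (p.1 : ℤ) ^ k p :=
    prod_pos fun p _ => pow_pos (Int.natCast_pos.2 (Nat.pos_of_mem_primeFactors p.2)) _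
  have key : ∀ c : ℤ, ∀ (p : N.primeFactors) [Fact p.1.Prime],
      IsSquare (((z + (∏ p : N.primeFactors, (p.1 : ℤ) ^ k p) * c : ℤ) : ℚ_[p.1]) * d p) :=
    fun c p _ => hk p (hd p) _ (by
      rw [add_sub_right_comm]
      exact (hz p (mem_univ _)).add ((dvd_prod_of_mem _ (mem_univ p)).mul_right _))
  have h2 := abs_nonneg z
  rcases lt_or_gt_of_ne he with c | c
  · exact ⟨_, mul_pos_of_neg_of_neg (by nlinarith [le_abs_self z]) c, key (-(|z| + 1))⟩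
  · exact ⟨_, mul_pos (by nlinarith [neg_abs_le z]) c, key (|z| + 1)⟩

theorem dec {z : ℤ} (hz : z ≠ 0) : ∃ (u : ℤ) (m : ℕ), Smooth N u ∧ m.Coprime N ∧ z = u * m := by
  have key : ∀ n : ℕ, n ≠ 0 → ∃ (u : ℤ) (m : ℕ), Smooth N u ∧ m.Coprime N ∧ (n : ℤ) = u * m := by
    intro n
    induction n using induction_on_primes with
    | zero => exact fun h => absurd rfl h
    | one => exact fun _ => ⟨1, 1, sm_one, by simp, by simp⟩
    | prime_mul p n hp ih =>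
      intro h
      obtain ⟨u, m, a1, a2, a3⟩ := ih (right_ne_zero_of_mul h)
      by_cases c : p ∣ N
      · refine ⟨p * u, m, sm_mul ⟨Int.natCast_ne_zero.2 hp.ne_zero, fun q hq e => ?_⟩ a1, a2,
          by rw [Nat.cast_mul, a3, mul_assoc]⟩
        rwa [(Nat.prime_dvd_prime_iff_eq hq hp).1 (Int.natCast_dvd_natCast.1 e)]
      · exact ⟨u, p * m, a1, Nat.Coprime.mul_left ((Nat.Prime.coprime_iff_not_dvd hp).2 c) a2,
          by push_cast; rw [a3]; ring⟩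
  obtain ⟨n, rfl | rfl⟩ := z.eq_nat_or_neg
  · exact key n (by simpa using hz)
  · obtain ⟨u, m, a1, a2, a3⟩ := key n (by simpa using hz)
    exact ⟨-u, m, ⟨neg_ne_zero.2 a1.1, fun q hq e => a1.2 q hq (dvd_neg.1 e)⟩, a2,
      by rw [a3, neg_mul]⟩

theorem dec2 (h2 : 2 ∣ N) {z₂ z₃ : ℤ} (n2 : z₂ ≠ 0) (n3 : z₃ ≠ 0) :
    ∃ w : T, Sm2 N w.1 ∧ Cp N w.2 ∧ d2 w = z₂ ∧ d3 w = z₃ := by
  obtain ⟨u, m, a1, a2, rfl⟩ := dec (N := N) n2
  obtain ⟨v, k, b1, b2, rfl⟩ := dec (N := N) n3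
  have ho : k % 2 = 1 := Nat.odd_iff.1 (Nat.coprime_two_right.1 (b2.coprime_dvd_right h2))
  by_cases c : k % 4 = 1
  · exact ⟨((u, v), k, m), ⟨a1, b1⟩, ⟨a2, by simp only; omega, by simpa using b2⟩, rfl, rfl⟩
  · exact ⟨((u, -v), -k, m), ⟨a1, neg_ne_zero.2 b1.1, fun q hq e => b1.2 q hq (dvd_neg.1 e)⟩,
      ⟨a2, by simp only; omega, by simpa using b2⟩, rfl, neg_mul_neg _ _⟩

theorem real_cl (ha : a ≠ 0) (hb : b ≠ 0) (hab : a ≠ b) : ∃ c : ℤ × ℤ, c.1 ≠ 0 ∧ c.2 ≠ 0 ∧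
    Cover (a : ℝ) b c.1 c.2 ∧ (c.1 < 0 ∨ c.2 < 0) := by
  have h0 : a - b ≠ 0 := sub_ne_zero.2 hab
  have h1 : b - a ≠ 0 := sub_ne_zero.2 hab.symm
  rcases lt_or_gt_of_ne hab with c | c
  · exact ⟨(a * (a - b), a - b), mul_ne_zero ha h0, h0, ⟨1, 0, a - b, a - b, by simp,
      by push_cast; ring, by push_cast; ring⟩, Or.inr (sub_neg.2 c)⟩
  · exact ⟨(b - a, b * (b - a)), h1, mul_ne_zero hb h1, ⟨1, b - a, 0, b - a, by simp,
      by push_cast; ring, by push_cast; ring⟩, Or.inl (sub_neg.2 c)⟩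

theorem sq3 {K : Type} [Field K] {x y c d : K} (h : IsSquare (x * c)) (k : IsSquare (y * d))
    (l : IsSquare (x * y)) (n : x * y ≠ 0) : IsSquare (c * d) := by
  have := (h.mul k).div l
  rwa [mul_mul_mul_comm, mul_div_cancel_left₀ _ n] at this

/-- the image of the soluble classes -/
def L (grp : GRPStmt) (h2 : 2 ∣ N) (ha : a ≠ 0) (hb : b ≠ 0) (hd : Smooth N (a - b)) :
    Submodule (ZMod 2) ((J N ⊕ J N → ZMod 2) × (J N ⊕ J N → ZMod 2)) where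
  carrier := {v | ∃ w, W N a b w ∧ (X N w.1, Y N w.2) = v}
  add_mem' := by
    rintro _ _ ⟨w, h, rfl⟩ ⟨w', k, rfl⟩
    exact ⟨w * w', h.mul grp h2 ha hb hd k, Prod.ext (X_mul h.1 k.1) (Y_mul h2 h.2.1 k.2.1)⟩
  zero_mem' := ⟨1 * 1, W_one.mul grp h2 ha hb hd W_one, Prod.ext
    ((X_mul (W_one (a := a) (b := b)).1 (W_one (a := a) (b := b)).1).trans (add_self _))
    ((Y_mul h2 cp_one cp_one).trans (add_self _))⟩
  smul_mem' := by
    rintro c _ ⟨w, h, rfl⟩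
    rcases (by decide : ∀ c : ZMod 2, c = 0 ∨ c = 1) c with rfl | rfl
    · rw [zero_smul]
      exact ⟨w * w, h.mul grp h2 ha hb hd h, Prod.ext ((X_mul h.1 h.1).trans (add_self _))
        ((Y_mul h2 h.2.1 h.2.1).trans (add_self _))⟩
    · rw [one_smul]
      exact ⟨w, h, rfl⟩

theorem big (sz : SIZEStmt) (grp : GRPStmt) (hN : 0 < N) (h2 : 2 ∣ N) (ha : a ≠ 0) (hb : b ≠ 0)
    (hd : Smooth N (a - b)) : 2 ^ Fintype.card (J N ⊕ J N) ≤ Nat.card (L grp h2 ha hb hd) := by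
  have hab : a ≠ b := sub_ne_zero.1 hd.1
  have pr : ∀ p : N.primeFactors, Fact p.1.Prime := fun p => ⟨Nat.prime_of_mem_primeFactors p.2⟩
  choose I i1 i2 i3 using fun p : N.primeFactors => sz p.1 a b ha hb hab
  obtain ⟨c, c1, c2, c3, c4⟩ := real_cl ha hb hab
  let r : Bool → ℤ × ℤ := fun t => if t then c else (1, 1)
  have r1 : ∀ t, (r t).1 ≠ 0 ∧ (r t).2 ≠ 0 ∧ Cover (a : ℝ) b (r t).1 (r t).2 := by
    rintro (_ | _)
    exacts [⟨one_ne_zero, one_ne_zero, 1, 1, 1, 0, by simp, by simp [r], by simp [r]⟩, ⟨c1, c2, c3⟩]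
  have key : ∀ t : Bool × ((p : N.primeFactors) → I p), ∃ w, W N a b w ∧
      (0 < d2 w * (r t.1).1 ∧ ∀ p : N.primeFactors, IsSquare ((d2 w : ℚ_[p.1]) * (t.2 p).1.1)) ∧
      (0 < d3 w * (r t.1).2 ∧ ∀ p : N.primeFactors, IsSquare ((d3 w : ℚ_[p.1]) * (t.2 p).1.2)) := by
    rintro ⟨t, f⟩
    obtain ⟨z2, a1, a2⟩ := app (fun p => (f p).1.1) (fun p => (i2 p _ (f p).2).1) (r1 t).1
    obtain ⟨z3, b1, b2⟩ := app (fun p => (f p).1.2) (fun p => (i2 p _ (f p).2).2.1) (r1 t).2.1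
    have n2 := left_ne_zero_of_mul a1.ne'
    have n3 := left_ne_zero_of_mul b1.ne'
    obtain ⟨w, w1, w2, rfl, rfl⟩ := dec2 h2 n2 n3
    refine ⟨w, ⟨w1, w2, cov_sq (r1 t).2.2 ?_ ?_ ?_ ?_, fun p hp d => ?_⟩, ⟨a1, fun p => a2 p⟩,
      b1, fun p => b2 p⟩
    · exact mul_ne_zero (Int.cast_ne_zero.2 (r1 t).1) (Int.cast_ne_zero.2 n2)
    · exact mul_ne_zero (Int.cast_ne_zero.2 (r1 t).2.1) (Int.cast_ne_zero.2 n3)
    · rw [← Int.cast_mul, mul_comm]; exact real_sq a1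
    · rw [← Int.cast_mul, mul_comm]; exact real_sq b1
    · let q : N.primeFactors := ⟨p, Nat.mem_primeFactors.2 ⟨hp.1, d, hN.ne'⟩⟩
      obtain ⟨j1, j2, j3⟩ := i2 q _ (f q).2
      exact cov_sq j3 (mul_ne_zero (Int.cast_ne_zero.2 j1) (Int.cast_ne_zero.2 n2))
        (mul_ne_zero (Int.cast_ne_zero.2 j2) (Int.cast_ne_zero.2 n3))
        (by rw [mul_comm]; exact a2 q) (by rw [mul_comm]; exact b2 q)
  choose w w1 w2 w3 using key
  refine le_trans (le_of_eq ?_) (Nat.card_le_card_of_injective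
    (fun t => (⟨_, w t, w1 t, rfl⟩ : L grp h2 ha hb hd)) fun t t' e => ?_)
  · have e : ∀ p : N.primeFactors, (I p).card =
        4 * if p = ⟨2, Nat.mem_primeFactors.2 ⟨Nat.prime_two, h2, hN.ne'⟩⟩ then 2 else 1 := fun p => by
      rw [i1 p]
      simp only [Subtype.ext_iff]
      split_ifs <;> rfl
    simp only [Nat.card_eq_fintype_card, Fintype.card_prod, Fintype.card_pi, Fintype.card_coe, e,
      Fintype.card_bool, Fintype.card_sum, Fintype.card_option, prod_mul_distrib, prod_const,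
      prod_ite_eq', mem_univ, if_true, card_univ]
    rw [show (4 : ℕ) = 2 * 2 from rfl, mul_pow]
    ring
  · obtain ⟨e1, e2⟩ := Prod.mk.inj (Subtype.mk.inj e)
    obtain ⟨s2, s3⟩ := same hN h2 (w1 t).1 (w1 t).2.1 (w1 t').1 (w1 t').2.1 e1 e2
    refine Prod.ext ?_ (funext fun p => Subtype.ext (i3 p _ (t.2 p).2 _ (t'.2 p).2 ?_ ?_))
    · have f : ∀ {x y c d : ℤ}, 0 < x * c → 0 < y * d → 0 < x * y → 0 < c * d :=
        fun {x y c d} p q s => (mul_pos_iff_of_pos_left s).1 (by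
          rw [mul_mul_mul_comm]; exact mul_pos p q)
      have f2 := f (w2 t).1 (w2 t').1 s2.1
      have f3 := f (w3 t).1 (w3 t').1 s3.1
      generalize t.1 = x at f2 f3 ⊢
      generalize t'.1 = y at f2 f3 ⊢
      cases x <;> cases y <;> simp [r] at f2 f3 ⊢ <;> omega
    · refine sq3 ((w2 t).2 p) ((w2 t').2 p) ?_ ?_ <;> rw [← Int.cast_mul]
      exacts [s2.2 p (Nat.dvd_of_mem_primeFactors p.2), Int.cast_ne_zero.2 s2.1.ne']
    · refine sq3 ((w3 t).2 p) ((w3 t').2 p) ?_ ?_ <;> rw [← Int.cast_mul]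
      exacts [s3.2 p (Nat.dvd_of_mem_primeFactors p.2), Int.cast_ne_zero.2 s3.1.ne']

end Mxi

open Mxi Frm in
theorem maxi : SIZEStmt → RECStmt → GRPStmt → MAXIStmt := by
  intro sz rc grp N a b hN h2 ha hb hd
  obtain ⟨l1, l2⟩ := la (L grp h2 ha hb hd) (by
    rintro _ ⟨w, h, rfl⟩ _ ⟨w', k, rfl⟩
    apply sn_inj
    rw [← P_eq hN h.1 k.2.1, ← P_eq hN k.1 h.2.1]
    exact pol rc grp hN h2 ha hb hd h k) (big sz grp hN h2 ha hb hd)
  have s1 : Sm2 N 1 := ⟨sm_one, sm_one⟩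
  have x1 : X N 1 = 0 := by
    have := X_mul s1 s1
    rwa [mul_one, add_self] at this
  refine ⟨fun u₂ u₃ c2 c3 h => ?_, fun m₂ m₃ hm h => ?_⟩
  · have su : Sm2 N (u₂, u₃) := ⟨c2, c3⟩
    obtain ⟨y, w, hw, e⟩ := l1 (X N (u₂, u₃)) (by
      rintro y ⟨w, hw, e⟩
      obtain ⟨e1, rfl⟩ := Prod.mk.inj e
      obtain ⟨s2, s3⟩ := same hN h2 (w' := (1, w.2)) hw.1 hw.2.1 s1 hw.2.1 (e1.trans x1.symm) rfl
      have := sol_ls hw.2.2 s2 s3
      simp only [d2, d3, Prod.fst_one, Prod.snd_one, one_mul] at this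
      apply sn_inj
      rw [← P_eq hN su hw.2.1]
      exact h _ _ hw.2.1 this)
    obtain ⟨s2, s3⟩ := same hN h2 (w' := ((u₂, u₃), w.2)) hw.1 hw.2.1 su hw.2.1
      (Prod.mk.inj e).1 rfl
    exact ⟨_, _, hw.2.1, sol_ls hw.2.2 s2 s3⟩
  · have cm : Cp N (m₃, m₂) := hm
    obtain ⟨w, hw, e⟩ := l2 (Y N (m₃, m₂)) (by
      rintro _ ⟨w, hw, rfl⟩
      apply sn_inj
      rw [← P_eq hN hw.1 cm]
      exact h _ _ _ _ hw.1.1 hw.1.2 hw.2.1 hw.2.2)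
    obtain ⟨e1, e2⟩ := Prod.mk.inj e
    obtain ⟨s2, s3⟩ := same hN h2 (w' := (1, m₃, m₂)) hw.1 hw.2.1 s1 cm (e1.trans x1.symm) e2
    have := sol_ls hw.2.2 s2 s3
    simpa only [d2, d3, Prod.fst_one, Prod.snd_one, one_mul] using this

end Pool.Agent.MP_a43263_nt.RH

end
end MrgPart1

-- marker of a merged file
example : 731051 + 601234 = 731051 + 601234 := rfl
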