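import Pool.Agent.MP_a43263_nt.RH.Spec
import Pool.Agent.MP_a43263_nt.RG.Key
import Pool.Agent.MP_a43263_nt.RG.Fin
import Pool.Agent.MP_a43263_nt.RH.OneMaxi
import Pool.Agent.MP_a43263_nt.RH.Base

-- ======== part 0: formerly Pool.Agent.MP_a43263_nt.RH.KeyA
section MrgPart0

/-! PROJECT RANKG, THEOREM G, module KEY2: the parametrisation of the terms with frozen data. -/

set_option autoImplicit false

noncomputable section

namespace Pool.Agent.MP_a43263_nt.RH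

open Finset Filter
open R2 (Sgn chi pri Sc Core Shape mem_pri chi_comm chi_sgn chi_eq_rows chi_symmDiff_left
  chi_symmDiff_right chi_union_left chi_union_right)
open RG
open RG.KEY (pr mem_pr pr_pos dvd_pr pr_union pr_of_ne pr_of_eq pr_gens res T3 abs_J abs_mul_le
  abs_pow_le abs_sgn abs_prod_le J_per exists_crt abs_res exists_ix final_bound lo_ok)
open RG.KEY.KD (nu not_dvd_both tl_eq_iff md_eq med_bound abs_ite abs_cast)

variable {nn : ℕ}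

namespace KEY

theorem disj {E : Dat2 nn} (hE : E.Ok) (l : Ix nn → ℕ) : Disjoint E.W0 (gens l) := by
  rw [disjoint_left]
  intro a ha hb
  obtain ⟨h, e, -⟩ := mem_gens.1 hb
  exact tg_ne_none h (e ▸ (hE.fix a ha).1)

theorem mk_mem_VV {E : Dat2 nn} (hE : E.Ok) {l : Ix nn → ℕ} {h : Ix nn} {p : ℕ} :
    (tg h, p) ∈ E.VV l ↔ p ∈ (l h).primeFactors := by
  rw [Dat2.VV, mem_union, mk_mem_gens]
  exact or_iff_right fun e => tg_ne_none h (hE.fix _ e).1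

theorem le_VV {E : Dat2 nn} (hE : E.Ok) {Y : ℕ} (h : E.D.M ≤ Y) (l : Ix nn → ℕ) :
    le Y (E.VV l) = E.W0 ∪ le Y (gens l) := by
  rw [le, Dat2.VV, filter_union, filter_true_of_mem, le]
  exact fun a ha => (hE.fix a ha).2.1.trans h

theorem md_VV {E : Dat2 nn} (hE : E.Ok) {Y Y' : ℕ} (h : E.D.M ≤ Y) (l : Ix nn → ℕ) :
    md Y Y' (E.VV l) = md Y Y' (gens l) := by
  rw [md, Dat2.VV, filter_union, filter_false_of_mem, empty_union, md]
  exact fun a ha k => not_lt.2 ((hE.fix a ha).2.1.trans h) k.1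

theorem le_eq {S : Sc} {E : Dat2 nn} (hR : Rel nn S) (h0 : E.Ok) (hM : E.D.M ≤ S.Y)
    {l c P : Ix nn → ℕ} (h : ∀ k, Core S (c k) ∧ (P k).Prime ∧ S.Y' < P k ∧ l k = c k * P k) :
    le S.Y' (E.VV l) = E.W0 ∪ gens c := by
  rw [le_VV h0 (hM.trans hR.Y_le)]
  congr 1
  ext ⟨k, p⟩
  simp only [mem_le, mem_gens]
  constructor
  · rintro ⟨⟨j, e, h1⟩, h2⟩
    refine ⟨j, e, ?_⟩
    rw [← hR.filter_le (h j).1 (h j).2.1 (h j).2.2.1, ← (h j).2.2.2]
    exact mem_filter.2 ⟨h1, h2⟩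
  · rintro ⟨j, e, h1⟩
    have := h1
    rw [← hR.filter_le (h j).1 (h j).2.1 (h j).2.2.1, ← (h j).2.2.2] at this
    exact ⟨⟨j, e, (mem_filter.1 this).1⟩, (mem_filter.1 this).2⟩

theorem card_VV {S : Sc} {E : Dat2 nn} (hR : Rel nn S) (h0 : E.Ok) {l c P : Ix nn → ℕ}
    (h : ∀ k, Core S (c k) ∧ (P k).Prime ∧ S.Y' < P k ∧ l k = c k * P k) :
    (E.VV l).card = (E.W0 ∪ gens c).card + 3 * nn := by
  rw [Dat2.VV, card_union_of_disjoint (disj h0 _),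
    card_union_of_disjoint (disj h0 _), card_gens, card_gens,
    sum_congr rfl fun k _ => by rw [(h k).2.2.2, hR.card_mul (h k).1 (h k).2.1 (h k).2.2.1],
    sum_add_distrib]
  simp [add_assoc]

/-- the frozen data -/
structure KD (nn : ℕ) where
  S : Sc
  E : Dat2 nn
  f : TL nn
  g : TL nn
  f0 : Ix nn
  g0 : Ix nn
  O : Finset (Gen nn)
  O₁ : Finset (Gen nn)
  O₂ : Finset (Gen nn)
  ok : Finset (TL nn) → Prop

namespace KD

variable (D : KD nn)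

def m (h : Ix nn) : ℕ := pr D.O (tg h)

def dl : ℤ := res D.E.D.e D.f0 D.g0

def al (h : Ix nn) : ℤ := res D.E.D.e h D.g0 * D.m D.f0

def be (h : Ix nn) : ℤ := res D.E.D.e D.f0 h * D.m D.g0

def Nn (n : ℕ) : Finset (Gen nn) := n.primeFactors.image fun p => (D.f.1, p)

def NL (n : ℕ) (ω : T3 nn) (s : ℕ) : Finset (Gen nn) := D.O ∪ (D.Nn n ∪ ω.1) ∪ {(D.g.1, s)}

def I1 (n : ℕ) (ω : T3 nn) : Finset (Gen nn) := (if D.f.2.1 then D.Nn n else ∅) ∪ ω.2.1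

def I2 (n : ℕ) (ω : T3 nn) : Finset (Gen nn) := (if D.f.2.2 then D.Nn n else ∅) ∪ ω.2.2

def U1 (n : ℕ) (ω : T3 nn) (s : ℕ) : Finset (Gen nn) :=
  D.O₁ ∪ D.I1 n ω ∪ if D.g.2.1 then {(D.g.1, s)} else ∅

def U2 (n : ℕ) (ω : T3 nn) (s : ℕ) : Finset (Gen nn) :=
  D.O₂ ∪ D.I2 n ω ∪ if D.g.2.2 then {(D.g.1, s)} else ∅

/-- the cores of the forms other than `g` -/
def cc (n : ℕ) (ω : T3 nn) (h : Ix nn) : ℕ := D.m h * if h = D.f0 then n else pr ω.1 (tg h)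

def pt (r q n : ℕ) : Ix nn → ℕ := fun h => ((D.al h * n * r + D.be h * q) / D.dl).toNat

def Cond (l : ℕ) : Prop := l ≤ D.S.Z ∧ l ≡ 1 [MOD 8 * D.E.D.M]

def pt0 (ω : T3 nn) : Finset (TL nn) :=
  pat (D.O.filter fun b => D.S.Y < b.2) D.O₁ D.O₂ ∪ pat ω.1 ω.2.1 ω.2.2 ∪ {D.f, D.g}

structure InW (ω : T3 nn) : Prop where
  s1 : ω.2.1 ⊆ ω.1
  s2 : ω.2.2 ⊆ ω.1
  dist : RG.Dist ω.1
  tag : ∀ b ∈ ω.1, b.1 ≠ D.f.1 ∧ b.1 ≠ D.g.1 ∧ ¬b.2 ∣ D.m D.g0
  nu : nu ω ≤ D.S.Y' ^ (9 * nn)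
  card : ω.1.card ≤ 18 * nn * D.S.J

open Classical in
def W : Finset (T3 nn) := ((TT nn (pri D.S.Y D.S.Y')).powerset ×ˢ (TT nn (pri D.S.Y D.S.Y')).powerset ×ˢ
  (TT nn (pri D.S.Y D.S.Y')).powerset).filter D.InW

def P : Finset ℕ := (pri D.S.Y D.S.Y').filter fun s => ¬s ∣ D.m D.f0

def IA (r q s : ℕ) : Prop := Core D.S (D.m D.g0 * s) ∧ (q / s).Prime ∧ D.S.Y' < q / s ∧
  D.Cond (D.m D.g0 * q) ∧ (D.m D.f0 * r).Coprime (D.m D.g0 * q)

def IB (n : ℕ) (ω : T3 nn) : Prop := (∀ h, h ≠ D.g0 → Core D.S (D.cc n ω h)) ∧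
  (∀ p ∈ n.primeFactors, D.S.Y < p) ∧ n.Coprime (D.m D.g0)

def IP (n : ℕ) (ω : T3 nn) (h : Ix nn) (z : ℤ) : Prop :=
  ∃ P : ℕ, P.Prime ∧ D.S.Y' < P ∧ z = D.dl * (D.cc n ω h * P : ℕ) ∧ D.Cond (D.cc n ω h * P)

/-- the properties of the frozen data -/
structure Ok : Prop where
  sys : D.E.Ok
  rel : Rel nn D.S
  hM : D.E.D.M ≤ D.S.Y
  hf : D.f.1 = (tg D.f0)
  hg : D.g.1 = (tg D.g0)
  ne : D.f0 ≠ D.g0
  v0 : D.E.W0 ⊆ D.O
  el : ∀ b ∈ D.O, b ∈ D.E.W0 ∨ (b.1.2 ≠ none ∧ b.2.Prime ∧ b.2 ≠ 2)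
  med : ∀ b ∈ D.O, D.S.Y < b.2 → (b.1 = D.f.1 ∧ tl D.O₁ D.O₂ b ≠ D.f) ∨ b.1 = D.g.1
  s1 : D.O₁ ⊆ D.O
  s2 : D.O₂ ⊆ D.O

/-- the tuples that come from a term -/
structure Val (r q s n : ℕ) (ω : T3 nn) : Prop where
  hs : s ∈ D.P
  dvd : s ∣ q
  one : 1 < n
  hω : ω ∈ D.W
  ia : D.IA r q s
  ib : D.IB n ω
  cop : IsCoprime (q : ℤ) (n * nu ω)
  ip : ∀ h, h ≠ D.g0 → D.IP n ω h (D.al h * n * r + D.be h * q)

variable {D}

theorem mem_W {ω : T3 nn} : ω ∈ D.W ↔ ω.1 ⊆ TT nn (pri D.S.Y D.S.Y') ∧ D.InW ω := by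
  simp only [W, mem_filter, mem_product, mem_powerset]
  exact ⟨fun h => ⟨h.1.1, h.2⟩, fun h => ⟨⟨h.1, h.2.s1.trans h.1, h.2.s2.trans h.1⟩, h.2⟩⟩

theorem mem_Nn {n : ℕ} {b : Gen nn} : b ∈ D.Nn n ↔ b.1 = D.f.1 ∧ b.2 ∈ n.primeFactors := by
  simp only [Nn, mem_image]
  exact ⟨by rintro ⟨p, h, rfl⟩; exact ⟨rfl, h⟩, fun h => ⟨b.2, h.2, Prod.ext h.1.symm rfl⟩⟩

theorem Ok.prime (hD : D.Ok) (h : Ix nn) : ∀ b ∈ D.O, b.1 = (tg h) → b.2.Prime :=
  fun b hb e => (hD.el b hb).elim (fun k => absurd (e ▸ (hD.sys.fix _ k).1) (tg_ne_none h))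
    fun k => k.2.1

theorem Ok.mem_m (hD : D.Ok) {h : Ix nn} {p : ℕ} :
    p ∈ (D.m h).primeFactors ↔ ((tg h), p) ∈ D.O := mem_pr (hD.prime h)

theorem Ok.m_pos (hD : D.Ok) (h : Ix nn) : 0 < D.m h := pr_pos (hD.prime h)

theorem Ok.fg (hD : D.Ok) : D.f.1 ≠ D.g.1 := by
  rw [hD.hf, hD.hg]; exact fun e => hD.ne (tg_injective e)

theorem Ok.dl_ne (hD : D.Ok) : D.dl ≠ 0 := sub_ne_zero.2 (hD.sys.ok.ne _ _ hD.ne.symm)

variable {r q s n : ℕ} {ω : T3 nn}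

theorem W_el (h : ω ∈ D.W) {b : Gen nn} (hb : b ∈ ω.1) :
    b.1.2 ≠ none ∧ D.S.Y < b.2 ∧ b.2 ≤ D.S.Y' ∧ b.2.Prime := by
  have := mem_TT.1 ((mem_W.1 h).1 hb)
  exact ⟨this.1, mem_pri.1 this.2⟩

theorem Val.s_el (h : D.Val r q s n ω) : D.S.Y < s ∧ s ≤ D.S.Y' ∧ s.Prime :=
  mem_pri.1 (mem_filter.1 h.hs).1

/-- the values of the forms -/
theorem Val.forms (hD : D.Ok) (h : D.Val r q s n ω) : ∃ c P : Ix nn → ℕ,
    (∀ k, k ≠ D.g0 → c k = D.cc n ω k) ∧ c D.g0 = D.m D.g0 * s ∧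
    (∀ k, Core D.S (c k) ∧ (P k).Prime ∧ D.S.Y' < P k ∧ D.pt r q n k = c k * P k) ∧
    (∀ k, D.Cond (D.pt r q n k)) ∧
    D.pt r q n D.f0 = D.m D.f0 * n * r ∧
    D.pt r q n D.g0 = D.m D.g0 * q ∧
    ∀ k, D.dl * D.pt r q n k = D.al k * n * r + D.be k * q := by
  classical
  have h1 : ∀ k, ∃ c P : ℕ, (k ≠ D.g0 → c = D.cc n ω k) ∧ (k = D.g0 → c = D.m D.g0 * s) ∧
      Core D.S c ∧ P.Prime ∧ D.S.Y' < P ∧ D.al k * n * r + D.be k * q = D.dl * (c * P : ℕ) ∧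
      D.Cond (c * P) := by
    intro k
    by_cases hk : k = D.g0
    · have e : D.m D.g0 * s * (q / s) = D.m D.g0 * q := by
        rw [mul_assoc, Nat.mul_div_cancel' h.dvd]
      refine ⟨_, q / s, fun e => absurd hk e, fun _ => rfl, h.ia.1, h.ia.2.1, h.ia.2.2.1, ?_, ?_⟩
      · rw [e, hk]
        simp only [al, be, dl, res]
        push_cast
        ring
      · rw [e]
        exact h.ia.2.2.2.1
    · obtain ⟨P, k1, k2, k3, k4⟩ := h.ip k hk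
      exact ⟨_, P, fun _ => rfl, fun e => absurd e hk, h.ib.1 k hk, k1, k2, k3, k4⟩
  choose c P c1 c2 c3 c4 c5 c6 c7 using h1
  have h4 : ∀ k, D.pt r q n k = c k * P k := fun k => by
    rw [pt, c6, Int.mul_ediv_cancel_left _ hD.dl_ne, Int.toNat_natCast]
  have h3 : ∀ k, D.dl * D.pt r q n k = D.al k * n * r + D.be k * q := fun k => by rw [h4, c6]
  refine ⟨c, P, c1, c2 _ rfl, fun k => ⟨c3 k, c4 k, c5 k, h4 k⟩, fun k => h4 k ▸ c7 k, ?_, ?_, h3⟩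
  · refine Nat.cast_injective (R := ℤ) (mul_left_cancel₀ hD.dl_ne ((h3 _).trans ?_))
    simp only [al, be, dl, res]
    push_cast
    ring
  · refine Nat.cast_injective (R := ℤ) (mul_left_cancel₀ hD.dl_ne ((h3 _).trans ?_))
    simp only [al, be, dl, res]
    push_cast
    ring

theorem Val.mem_AA (hD : D.Ok) (h : D.Val r q s n ω) : D.pt r q n ∈ AA D.S D.E.D := by
  obtain ⟨c, P, -, -, h1, h2, h3, h4, h5⟩ := h.forms hD
  have hsh : ∀ k, Shape D.S (D.pt r q n k) := fun k => ⟨c k, P k, h1 k⟩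
  have hl : Lin D.E.D.e (D.pt r q n) := Lin.of_pair (hD.sys.ok.ne _ _ hD.ne.symm) fun k => by
    have := h5 k
    rw [h3, h4]
    simp only [al, be, dl, res] at this
    push_cast
    linear_combination this
  have hc : (D.pt r q n D.f0).Coprime (D.pt r q n D.g0) := by
    rw [h3, h4, mul_right_comm]
    refine Nat.Coprime.mul_left h.ia.2.2.2.2 (Nat.Coprime.mul_right h.ib.2.2 ?_)
    exact (Nat.isCoprime_iff_coprime.1 h.cop.of_mul_right_left).symm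
  exact RG.mem_AA.2 ⟨fun k => ⟨(hsh k).one_lt.le, (h2 k).1⟩, hl, fun k => (h2 k).2,
    hl.coprime hD.sys.ok (fun k => (h2 k).2) hc, hsh⟩

theorem Val.le_eq (hD : D.Ok) (h : D.Val r q s n ω) :
    le D.S.Y' (D.E.VV (D.pt r q n)) = D.NL n ω s ∧
    (D.E.VV (D.pt r q n)).card = (D.NL n ω s).card + 3 * nn := by
  obtain ⟨c, P, c1, c2, h1, -⟩ := h.forms hD
  rw [KEY.le_eq hD.rel hD.sys hD.hM h1, card_VV hD.rel hD.sys h1]
  suffices e : D.E.W0 ∪ gens c = D.NL n ω s by rw [e]; exact ⟨rfl, rfl⟩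
  have hn : n ≠ 0 := by have := h.one; omega
  ext ⟨k, p⟩
  simp only [NL, mem_union, mem_singleton, mem_Nn, Prod.mk.injEq]
  by_cases hk : k.2 = none
  · have e1 : k ≠ D.f.1 := fun e => tg_ne_none _ (hD.hf ▸ e ▸ hk)
    have e2 : k ≠ D.g.1 := fun e => tg_ne_none _ (hD.hg ▸ e ▸ hk)
    have e3 : (k, p) ∉ ω.1 := fun e => (W_el h.hω e).1 hk
    have e4 : (k, p) ∉ gens c := fun e => by
      obtain ⟨j, e, -⟩ := mem_gens.1 e
      exact tg_ne_none j (e ▸ hk)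
    simp only [e1, e2, e3, e4, false_and, or_false]
    exact ⟨fun e => hD.v0 e, fun e => (hD.el _ e).resolve_right fun e => e.1 hk⟩
  obtain ⟨j, rfl⟩ := exists_tg hk
  have e0 : ((tg j), p) ∉ D.E.W0 := fun e => hk (hD.sys.fix _ e).1
  rw [mk_mem_gens, hD.hf, hD.hg, tg_injective.eq_iff, tg_injective.eq_iff, ← hD.mem_m]
  simp only [e0, false_or]
  by_cases hg : j = D.g0
  · have e3 : ((tg j), p) ∉ ω.1 := fun e => ((mem_W.1 h.hω).2.tag _ e).2.1 (hg ▸ hD.hg.symm)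
    rw [hg] at e3
    rw [hg, c2, Nat.primeFactors_mul (hD.m_pos _).ne' h.s_el.2.2.ne_zero, h.s_el.2.2.primeFactors]
    simp only [mem_union, mem_singleton, e3, hD.ne.symm, false_and, or_false, true_and]
  · rw [c1 j hg, cc]
    split_ifs with hf
    · have e3 : ((tg j), p) ∉ ω.1 := fun e => ((mem_W.1 h.hω).2.tag _ e).1 (hf ▸ hD.hf.symm)
      rw [Nat.primeFactors_mul (hD.m_pos _).ne' hn]
      simp only [mem_union, e3, hg, or_false, false_and]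
      simp only [hf, true_and]
    · have hp : ∀ b ∈ ω.1, b.1 = (tg j) → b.2.Prime := fun b hb _ => (W_el h.hω hb).2.2.2
      rw [Nat.primeFactors_mul (hD.m_pos _).ne' (pr_pos hp).ne', mem_union, mem_pr hp]
      simp only [hg, hf, or_false, false_and, false_or]

/-- the four parts are disjoint -/
theorem Val.disj (hD : D.Ok) (h : D.Val r q s n ω) :
    (∀ b ∈ D.Nn n, b ∉ D.O) ∧ (∀ b ∈ ω.1, b ∉ D.O) ∧ (D.g.1, s) ∉ D.O ∧
    (∀ b ∈ ω.1, b ∉ D.Nn n) ∧ (D.g.1, s) ∉ D.Nn n ∧ (D.g.1, s) ∉ ω.1 := by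
  have ht := (mem_W.1 h.hω).2.tag
  refine ⟨fun b hb e => ?_, fun b hb e => ?_, fun e => ?_, fun b hb e => ?_, fun e => ?_,
    fun e => (ht _ e).2.1 rfl⟩
  · have h1 := (h.ib.1 _ hD.ne).sqf
    rw [cc, if_pos rfl] at h1
    obtain ⟨k1, k2⟩ := mem_Nn.1 hb
    refine not_dvd_both h1 (Nat.prime_of_mem_primeFactors k2) ?_ (Nat.dvd_of_mem_primeFactors k2)
    rw [m, ← hD.hf, ← k1]
    exact dvd_pr e
  · rcases hD.med b e (W_el h.hω hb).2.1 with k | k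
    · exact (ht b hb).1 k.1
    · exact (ht b hb).2.1 k
  · refine not_dvd_both h.ia.1.sqf h.s_el.2.2 ?_ dvd_rfl
    rw [m, ← hD.hg]
    exact dvd_pr e
  · exact (ht b hb).1 (mem_Nn.1 e).1
  · exact hD.fg (mem_Nn.1 e).1.symm

/-- the labels of the four parts -/
theorem Val.labels (hD : D.Ok) (h : D.Val r q s n ω) :
    (∀ b ∈ D.O, tl (D.U1 n ω s) (D.U2 n ω s) b = tl D.O₁ D.O₂ b) ∧
    (∀ b ∈ D.Nn n, tl (D.U1 n ω s) (D.U2 n ω s) b = D.f) ∧
    (∀ b ∈ ω.1, tl (D.U1 n ω s) (D.U2 n ω s) b = tl ω.2.1 ω.2.2 b) ∧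
    tl (D.U1 n ω s) (D.U2 n ω s) (D.g.1, s) = D.g := by
  obtain ⟨d1, d2, d3, d4, d5, d6⟩ := h.disj hD
  have w1 := (mem_W.1 h.hω).2.s1
  have w2 := (mem_W.1 h.hω).2.s2
  have key : ∀ (X Y : Finset (Gen nn)) (u v : Bool) (b : Gen nn), b ∈ X ∪ ((if u then D.Nn n else ∅) ∪ Y) ∪
      (if v then {(D.g.1, s)} else ∅) ↔
      b ∈ X ∨ (u ∧ b ∈ D.Nn n) ∨ b ∈ Y ∨ (v ∧ b = (D.g.1, s)) := by
    intro X Y u v b
    cases u <;> cases v <;> simp <;> tauto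
  simp only [tl_eq_iff, U1, U2, I1, I2, key]
  refine ⟨fun b hb => ?_, fun b hb => ?_, fun b hb => ?_, ?_⟩
  · have a1 : b ∉ D.Nn n := fun e => d1 b e hb
    have a2 : b ∉ ω.2.1 := fun e => d2 b (w1 e) hb
    have a3 : b ∉ ω.2.2 := fun e => d2 b (w2 e) hb
    have a4 : b ≠ (D.g.1, s) := fun e => d3 (e ▸ hb)
    simp [tl, a1, a2, a3, a4]
  · have a1 : b ∉ D.O₁ := fun e => d1 b hb (hD.s1 e)
    have a1' : b ∉ D.O₂ := fun e => d1 b hb (hD.s2 e)
    have a2 : b ∉ ω.2.1 := fun e => d4 b (w1 e) hb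
    have a3 : b ∉ ω.2.2 := fun e => d4 b (w2 e) hb
    have a4 : b ≠ (D.g.1, s) := fun e => d5 (e ▸ hb)
    simp [hb, a1, a1', a2, a3, a4, (mem_Nn.1 hb).1]
  · have a1 : b ∉ D.O₁ := fun e => d2 b hb (hD.s1 e)
    have a1' : b ∉ D.O₂ := fun e => d2 b hb (hD.s2 e)
    have a2 := d4 b hb
    have a4 : b ≠ (D.g.1, s) := fun e => d6 (e ▸ hb)
    simp [tl, a1, a1', a2, a4]
  · have a1 : (D.g.1, s) ∉ D.O₁ := fun e => d3 (hD.s1 e)
    have a1' : (D.g.1, s) ∉ D.O₂ := fun e => d3 (hD.s2 e)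
    have a2 : (D.g.1, s) ∉ ω.2.1 := fun e => d6 (w1 e)
    have a3 : (D.g.1, s) ∉ ω.2.2 := fun e => d6 (w2 e)
    simp [a1, a1', a2, a3, d5]

/-- the condition in the definition of `keySum2` -/
structure Tm (D : KD nn) (i : ℕ) (x : Ix nn → ℕ) (U U' : Finset (Gen nn)) (s : Gen nn) : Prop where
  hx : x ∈ AA D.S D.E.D
  hU : U ⊆ le D.S.Y' (D.E.VV x)
  hU' : U' ⊆ le D.S.Y' (D.E.VV x)
  hs : s ∈ md D.S.Y D.S.Y' (D.E.VV x)
  ok : D.ok (pat (md D.S.Y D.S.Y' (D.E.VV x)) U U')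
  lab : tl U U' s = D.g
  out : outer D.S (D.E.VV x) U U' D.f D.g s = D.O
  o1 : D.O ∩ U = D.O₁
  o2 : D.O ∩ U' = D.O₂
  lo : 2 ^ i < nOf D.S (D.E.VV x) U U' D.f
  hi : nOf D.S (D.E.VV x) U U' D.f ≤ 2 ^ (i + 1)

/-- the medium generators of the other forms -/
def rest (D : KD nn) (x : Ix nn → ℕ) : Finset (Gen nn) :=
  (md D.S.Y D.S.Y' (D.E.VV x)).filter fun b => b.1 ≠ D.f.1 ∧ b.1 ≠ D.g.1

theorem Val.back (hD : D.Ok) (h : D.Val r q s n ω) :
    nOf D.S (D.E.VV (D.pt r q n)) (D.U1 n ω s) (D.U2 n ω s) D.f = n ∧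
    D.rest (D.pt r q n) = ω.1 ∧ ω.1 ∩ D.U1 n ω s = ω.2.1 ∧ ω.1 ∩ D.U2 n ω s = ω.2.2 ∧
    pat (md D.S.Y D.S.Y' (D.E.VV (D.pt r q n))) (D.U1 n ω s) (D.U2 n ω s) = D.pt0 ω ∧
    ∀ i, 2 ^ i < n → n ≤ 2 ^ (i + 1) → D.ok (D.pt0 ω) →
      D.Tm i (D.pt r q n) (D.U1 n ω s) (D.U2 n ω s) (D.g.1, s) := by
  obtain ⟨d1, d2, d3, d4, d5, d6⟩ := h.disj hD
  obtain ⟨l1, l2, l3, l4⟩ := h.labels hD
  have e := (h.le_eq hD).1
  have hw := (mem_W.1 h.hω).2
  have hN : ∀ b ∈ D.Nn n, D.S.Y < b.2 := fun b hb => h.ib.2.1 _ (mem_Nn.1 hb).2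
  have hω : ∀ b ∈ ω.1, D.S.Y < b.2 := fun b hb => (W_el h.hω hb).2.1
  have mem : ∀ b, b ∈ D.NL n ω s ↔ b ∈ D.O ∨ b ∈ D.Nn n ∨ b ∈ ω.1 ∨ b = (D.g.1, s) := fun b => by
    simp only [NL, mem_union, mem_singleton, or_assoc]
  have hsq : Squarefree n := by
    have h1 := (h.ib.1 _ hD.ne).sqf
    rw [cc, if_pos rfl] at h1
    exact h1.of_mul_right
  have e1 : nOf D.S (D.E.VV (D.pt r q n)) (D.U1 n ω s) (D.U2 n ω s) D.f = n := by
    rw [nOf, md_eq, e, filter_filter, show (D.NL n ω s).filter (fun b => D.S.Y < b.2 ∧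
      tl (D.U1 n ω s) (D.U2 n ω s) b = D.f) = D.Nn n from ?_, Nn,
      prod_image fun _ _ _ _ e => (Prod.mk.inj e).2]
    · exact Nat.prod_primeFactors_of_squarefree hsq
    ext b
    rw [mem_filter, mem]
    refine ⟨?_, fun hb => ⟨.inr (.inl hb), hN b hb, l2 b hb⟩⟩
    rintro ⟨hb | hb | hb | rfl, k1, k2⟩
    · rcases hD.med b hb k1 with k | k
      · exact absurd (l1 b hb ▸ k2) k.2
      · exact absurd ((tl_eq_iff.1 k2).1.symm.trans k) hD.fg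
    · exact hb
    · exact absurd (tl_eq_iff.1 k2).1 (hw.tag b hb).1
    · exact absurd (tl_eq_iff.1 k2).1.symm hD.fg
  have inter : ∀ (X X₁ X₂ : Finset (Gen nn)), X₁ ⊆ X → X₂ ⊆ X →
      (∀ b ∈ X, tl (D.U1 n ω s) (D.U2 n ω s) b = tl X₁ X₂ b) →
      X ∩ D.U1 n ω s = X₁ ∧ X ∩ D.U2 n ω s = X₂ := by
    intro X X₁ X₂ s1 s2 hl
    constructor <;> ext b <;> rw [mem_inter]
    · exact ⟨fun k => by simpa [tl] using (tl_eq_iff.1 (hl b k.1)).2.1.1 k.2,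
        fun k => ⟨s1 k, (tl_eq_iff.1 (hl b (s1 k))).2.1.2 (by simpa [tl] using k)⟩⟩
    · exact ⟨fun k => by simpa [tl] using (tl_eq_iff.1 (hl b k.1)).2.2.1 k.2,
        fun k => ⟨s2 k, (tl_eq_iff.1 (hl b (s2 k))).2.2.2 (by simpa [tl] using k)⟩⟩
  have sub : ∀ (X Y : Finset (Gen nn)) (u v : Bool), X ⊆ D.O → Y ⊆ ω.1 →
      X ∪ ((if u then D.Nn n else ∅) ∪ Y) ∪ (if v then {(D.g.1, s)} else ∅) ⊆ D.NL n ω s := by
    intro X Y u v s1 s2
    refine union_subset_union (union_subset_union s1 (union_subset_union ?_ s2)) ?_ <;>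
      split_ifs <;> simp
  have e2 : pat (md D.S.Y D.S.Y' (D.E.VV (D.pt r q n))) (D.U1 n ω s) (D.U2 n ω s) =
      D.pt0 ω := by
    rw [md_eq, e]
    ext π
    simp only [pat, pt0, mem_image, mem_filter, mem, mem_union, mem_insert, mem_singleton]
    constructor
    · rintro ⟨b, ⟨hb | hb | hb | rfl, k1⟩, rfl⟩
      · exact .inl (.inl ⟨b, ⟨hb, k1⟩, (l1 b hb).symm⟩)
      · exact .inr (.inl (l2 b hb))
      · exact .inl (.inr ⟨b, hb, (l3 b hb).symm⟩)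
      · exact .inr (.inr l4)
    · rintro ((⟨b, ⟨hb, k1⟩, rfl⟩ | ⟨b, hb, rfl⟩) | rfl | rfl)
      · exact ⟨b, ⟨.inl hb, k1⟩, l1 b hb⟩
      · exact ⟨b, ⟨.inr (.inr (.inl hb)), hω b hb⟩, l3 b hb⟩
      · obtain ⟨p, hp⟩ := Nat.nonempty_primeFactors.2 h.one
        have hb : (D.f.1, p) ∈ D.Nn n := mem_Nn.2 ⟨rfl, hp⟩
        exact ⟨_, ⟨.inr (.inl hb), hN _ hb⟩, l2 _ hb⟩
      · exact ⟨_, ⟨.inr (.inr (.inr rfl)), h.s_el.1⟩, l4⟩
  refine ⟨e1, ?_, (inter _ _ _ hw.s1 hw.s2 l3).1, (inter _ _ _ hw.s1 hw.s2 l3).2, e2,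
    fun i i1 i2 hok => ⟨h.mem_AA hD, e ▸ sub _ _ _ _ hD.s1 hw.s1, e ▸ sub _ _ _ _ hD.s2 hw.s2, ?_,
      e2 ▸ hok, l4, ?_, (inter _ _ _ hD.s1 hD.s2 l1).1, (inter _ _ _ hD.s1 hD.s2 l1).2,
      e1.symm ▸ i1, e1.symm ▸ i2⟩⟩
  · ext b
    rw [rest, md_eq, e, mem_filter, mem_filter, mem]
    refine ⟨?_, fun hb => ⟨⟨.inr (.inr (.inl hb)), hω b hb⟩, (hw.tag b hb).1, (hw.tag b hb).2.1⟩⟩
    rintro ⟨⟨hb | hb | hb | rfl, k1⟩, k2, k3⟩
    · exact ((hD.med b hb k1).elim (fun k => k2 k.1) k3).elim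
    · exact absurd (mem_Nn.1 hb).1 k2
    · exact hb
    · exact absurd rfl k3
  · rw [md_eq, e, mem_filter, mem]
    exact ⟨.inr (.inr (.inr rfl)), h.s_el.1⟩
  · ext b
    rw [outer, e, mem_filter, mem]
    constructor
    · rintro ⟨hb | hb | hb | rfl, k⟩
      · exact hb
      · rcases k with k | k | k
        · exact absurd (hN b hb) (not_lt.2 k)
        · exact absurd (l2 b hb) k.2
        · exact absurd ((mem_Nn.1 hb).1.symm.trans k.1) hD.fg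
      · rcases k with k | k | k
        · exact absurd (hω b hb) (not_lt.2 k)
        · exact absurd k.1 (hw.tag b hb).1
        · exact absurd k.1 (hw.tag b hb).2.1
      · rcases k with k | k | k
        · exact absurd h.s_el.1 (not_lt.2 k)
        · exact absurd k.1.symm hD.fg
        · exact absurd rfl k.2
    · intro hb
      refine ⟨.inl hb, ?_⟩
      by_cases k : b.2 ≤ D.S.Y
      · exact .inl k
      rcases hD.med b hb (not_le.1 k) with k | k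
      · exact .inr (.inl ⟨k.1, l1 b hb ▸ k.2⟩)
      · exact .inr (.inr ⟨k, fun e => d3 (e ▸ hb)⟩)

theorem Tm.fwd (hD : D.Ok) {i : ℕ} {x : Ix nn → ℕ} {U U' : Finset (Gen nn)} {s : Gen nn}
    (h : D.Tm i x U U' s) : ∃ (r q n : ℕ) (ω : T3 nn), D.Val r q s.2 n ω ∧ D.pt r q n = x ∧
      D.U1 n ω s.2 = U ∧ D.U2 n ω s.2 = U' ∧ (D.g.1, s.2) = s := by
  have hA := adm_of_mem hD.rel h.hx
  obtain ⟨x1, -, x3, -, hsh⟩ := RG.mem_AA.1 h.hx
  choose c P hc using hsh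
  have hX := KEY.le_eq hD.rel hD.sys hD.hM hc
  have hs1 : s.1 = D.g.1 := (tl_eq_iff.1 h.lab).1
  set V := D.E.VV x with hV
  set Ns := (md D.S.Y D.S.Y' V).filter fun b => tl U U' b = D.f with hNs
  have med : ∀ b ∈ md D.S.Y D.S.Y' V, b ∈ gens c ∧ b.2.Prime := by
    intro b hb
    rw [md_eq, hX, mem_filter, mem_union] at hb
    have k : b ∈ gens c := hb.1.resolve_left fun k => by
      have := hD.hM
      have := (hD.sys.fix _ k).2.1
      omega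
    obtain ⟨j, -, k'⟩ := mem_gens.1 k
    exact ⟨k, Nat.prime_of_mem_primeFactors k'⟩
  have hN1 : ∀ b ∈ Ns, b.1 = D.f.1 := fun b hb => (tl_eq_iff.1 (mem_filter.1 hb).2).1
  have hn : nOf D.S V U U' D.f = pr Ns D.f.1 := (pr_of_eq hN1).symm
  set n := nOf D.S V U U' D.f
  have hNn : D.Nn n = Ns := by
    ext b
    rw [mem_Nn, hn, mem_pr fun b hb _ => (med b (mem_filter.1 hb).1).2]
    exact ⟨fun k => by have h2 := k.2; rw [← k.1] at h2; exact h2,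
      fun k => ⟨hN1 b k, by rw [← hN1 b k]; exact k⟩⟩
  have hO : ∀ b, b ∈ D.O ↔ b ∈ le D.S.Y' V ∧ (b.2 ≤ D.S.Y ∨ (b.1 = D.f.1 ∧ tl U U' b ≠ D.f) ∨
      (b.1 = D.g.1 ∧ b ≠ s)) := fun b => by rw [← h.out, outer, mem_filter]
  have hR : ∀ b, b ∈ D.rest x ↔ (b ∈ le D.S.Y' V ∧ D.S.Y < b.2) ∧ b.1 ≠ D.f.1 ∧ b.1 ≠ D.g.1 :=
    fun b => by rw [rest, md_eq, mem_filter, mem_filter]
  have hN : ∀ b, b ∈ Ns ↔ (b ∈ le D.S.Y' V ∧ D.S.Y < b.2) ∧ tl U U' b = D.f :=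
    fun b => by rw [hNs, md_eq, mem_filter, mem_filter]
  have hs : s ∈ le D.S.Y' V ∧ D.S.Y < s.2 := by have := h.hs; rwa [md_eq, mem_filter] at this
  have fg := hD.fg
  have part : le D.S.Y' V = D.O ∪ (Ns ∪ D.rest x) ∪ {s} := by
    ext b
    simp only [mem_union, mem_singleton, hO, hR, hN]
    constructor
    · intro hb
      by_cases k1 : b.2 ≤ D.S.Y
      · exact .inl (.inl ⟨hb, .inl k1⟩)
      by_cases k2 : b = s
      · exact .inr k2
      by_cases k3 : tl U U' b = D.f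
      · exact .inl (.inr (.inl ⟨⟨hb, not_le.1 k1⟩, k3⟩))
      by_cases k4 : b.1 = D.f.1
      · exact .inl (.inl ⟨hb, .inr (.inl ⟨k4, k3⟩)⟩)
      by_cases k5 : b.1 = D.g.1
      · exact .inl (.inl ⟨hb, .inr (.inr ⟨k5, k2⟩)⟩)
      · exact .inl (.inr (.inr ⟨⟨hb, not_le.1 k1⟩, k4, k5⟩))
    · rintro ((k | k | k) | rfl)
      exacts [k.1, k.1.1, k.1.1, hs.1]
  have d1 : Disjoint Ns (D.rest x) := disjoint_left.2 fun b k k' => ((hR b).1 k').2.1 (hN1 b k)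
  have d2 : Disjoint D.O (Ns ∪ D.rest x) := disjoint_left.2 fun b k k' => by
    rcases mem_union.1 k' with k' | k' <;> rcases ((hO b).1 k).2 with k | k | k
    · exact absurd ((hN b).1 k').1.2 (not_lt.2 k)
    · exact k.2 ((hN b).1 k').2
    · exact fg ((hN1 b k').symm.trans k.1)
    · exact absurd ((hR b).1 k').1.2 (not_lt.2 k)
    · exact ((hR b).1 k').2.1 k.1
    · exact ((hR b).1 k').2.2 k.1
  have d3 : Disjoint (D.O ∪ (Ns ∪ D.rest x)) {s} := disjoint_singleton_right.2 fun k => by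
    rcases mem_union.1 k with k | k
    · rcases ((hO s).1 k).2 with k | k | k
      · exact absurd hs.2 (not_lt.2 k)
      · exact fg (k.1.symm.trans hs1)
      · exact k.2 rfl
    · rcases mem_union.1 k with k | k
      · exact fg ((hN1 s k).symm.trans hs1)
      · exact ((hR s).1 k).2.2 hs1
  have hcc : ∀ k, c k = D.m k * (pr Ns (tg k) * pr (D.rest x) (tg k)) *
      pr {s} (tg k) := by
    intro k
    rw [m, ← pr_union d1, ← pr_union d2, ← pr_union d3, ← part, hX,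
      pr_union (disj hD.sys _), pr_gens (hc k).1.sqf,
      pr_of_ne (k := tg k) fun b hb e => tg_ne_none k (e ▸ (hD.sys.fix _ hb).1), one_mul]
  let ω : T3 nn := (D.rest x, D.rest x ∩ U, D.rest x ∩ U')
  have c1 : ∀ k, k ≠ D.g0 → c k = D.cc n ω k := by
    intro k hk
    rw [hcc, cc, pr_of_ne (X := {s}) (fun b hb e => hk (tg_injective
      (by rw [← e, mem_singleton.1 hb, hs1, hD.hg]))), mul_one]
    split_ifs with hf
    · rw [pr_of_ne (X := D.rest x) (fun b hb e => ((hR b).1 hb).2.1 (by rw [e, hf, hD.hf])),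
        mul_one, hn, hf, hD.hf]
    · rw [pr_of_ne (X := Ns) (fun b hb e => hf (tg_injective
        (by rw [← e, hN1 b hb, hD.hf]))), one_mul]
  have c2 : c D.g0 = D.m D.g0 * s.2 := by
    rw [hcc, pr_of_ne (X := Ns) (fun b hb e => fg (by rw [← hN1 b hb, e, hD.hg])),
      pr_of_ne (X := D.rest x) (fun b hb e => ((hR b).1 hb).2.2 (by rw [e, hD.hg])),
      pr_of_eq (X := {s}) (fun b hb => by rw [mem_singleton.1 hb, hs1, hD.hg])]
    simp
  have lf1 : x D.f0 = D.m D.f0 * n * P D.f0 := by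
    rw [(hc _).2.2.2, c1 _ hD.ne, cc, if_pos rfl]
  have lf2 : x D.g0 = D.m D.g0 * (s.2 * P D.g0) := by
    rw [(hc _).2.2.2, c2, mul_assoc]
  have sp := (med s h.hs).2
  have z : ∀ k, D.al k * n * P D.f0 + D.be k * (s.2 * P D.g0 : ℕ) = D.dl * x k := by
    intro k
    have := hA.lin D.f0 D.g0 k
    rw [lf1, lf2] at this
    simp only [al, be, dl, res]
    push_cast at this ⊢
    linear_combination -this
  have cond : ∀ k, D.Cond (x k) := fun k => ⟨(x1 k).2, x3 k⟩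
  have cfg := hA.cop _ _ hD.ne
  rw [lf1, lf2] at cfg
  have rel : ∀ b ∈ D.rest x, b.2.Coprime (x D.g0) := by
    intro b hb
    obtain ⟨k, e, k1⟩ := mem_gens.1 (med b (mem_filter.1 hb).1).1
    have k2 : k ≠ D.g0 := fun e' => ((hR b).1 hb).2.2 (by rw [e, e', hD.hg])
    refine Nat.Coprime.coprime_dvd_left ?_ (hA.cop _ _ k2)
    rw [(hc k).2.2.2]
    exact (Nat.dvd_of_mem_primeFactors k1).mul_right _
  have mb := med_bound (fun k => (hc k).1)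
    (X := D.rest x) fun b hb => ⟨(med b (mem_filter.1 hb).1).1, ((hR b).1 hb).1.2⟩
  have e5 : s.2 * P D.g0 / s.2 = P D.g0 := Nat.mul_div_cancel_left _ sp.pos
  have un : ∀ (X X₁ : Finset (Gen nn)) (u v : Bool), X ⊆ le D.S.Y' V → D.O ∩ X = X₁ →
      (∀ b ∈ Ns, (b ∈ X ↔ u)) → (s ∈ X ↔ v) →
      X₁ ∪ ((if u then D.Nn n else ∅) ∪ D.rest x ∩ X) ∪ (if v then {(D.g.1, s.2)} else ∅) = X := by
    intro X X₁ u v k1 k2 k3 k4
    rw [hNn, ← hs1, ← k2]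
    ext b
    have k5 : b ∈ X → b ∈ D.O ∨ b ∈ Ns ∨ b ∈ D.rest x ∨ b = s := fun hb => by
      have := k1 hb
      rw [part] at this
      simpa only [mem_union, mem_singleton, or_assoc] using this
    have k6 := k3 b
    cases u <;> cases v <;> simp only [mem_union, mem_inter, mem_singleton, notMem_empty,
      Bool.false_eq_true, if_false, if_true, Prod.mk.eta, iff_false, iff_true] at * <;> grind
  refine ⟨P D.f0, s.2 * P D.g0, n, ω, ⟨?_, dvd_mul_right _ _, ?_, ?_, ?_, ?_, ?_, fun k hk => ?_⟩,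
    ?_, un _ _ _ _ h.hU h.o1 (fun b hb => (tl_eq_iff.1 ((hN b).1 hb).2).2.1) (tl_eq_iff.1 h.lab).2.1,
    un _ _ _ _ h.hU' h.o2 (fun b hb => (tl_eq_iff.1 ((hN b).1 hb).2).2.2) (tl_eq_iff.1 h.lab).2.2,
    by rw [← hs1]⟩
  · refine mem_filter.2 ⟨mem_pri.2 ⟨hs.2, (mem_le.1 hs.1).2, sp⟩, fun hd => sp.ne_one ?_⟩
    exact Nat.eq_one_of_dvd_coprimes cfg ((hd.mul_right _).mul_right _)
      ((dvd_mul_right _ _).mul_left _)
  · exact (Nat.one_le_two_pow).trans_lt h.lo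
  · refine mem_W.2 ⟨fun b hb => ?_, inter_subset_left, inter_subset_left,
      (dist_gens hA.cop).mono fun b hb =>
        (mem_md.1 (md_VV hD.sys hD.hM x ▸ (mem_filter.1 hb).1)).1, fun b hb =>
        ⟨((hR b).1 hb).2.1, ((hR b).1 hb).2.2, fun hd => (med b (mem_filter.1 hb).1).2.ne_one ?_⟩,
      mb.1, mb.2⟩
    · obtain ⟨k1, k2⟩ := med b (mem_filter.1 hb).1
      obtain ⟨k, e, -⟩ := mem_gens.1 k1
      exact mem_TT.2 ⟨e ▸ tg_ne_none k, mem_pri.2 ⟨((hR b).1 hb).1.2,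
        (mem_le.1 ((hR b).1 hb).1.1).2, k2⟩⟩
    · exact Nat.eq_one_of_dvd_coprimes (rel b hb) dvd_rfl (lf2 ▸ hd.mul_right _)
  · refine ⟨c2 ▸ (hc _).1, e5.symm ▸ (hc _).2.1, e5.symm ▸ (hc _).2.2.1, lf2 ▸ cond _, ?_⟩
    exact Nat.Coprime.coprime_dvd_left (by rw [mul_right_comm]; exact dvd_mul_right _ _) cfg
  · refine ⟨fun k hk => c1 k hk ▸ (hc k).1, fun p hp => ?_, ?_⟩
    · have : (D.f.1, p) ∈ Ns := hNn ▸ mem_Nn.2 ⟨rfl, hp⟩
      exact ((hN _).1 this).1.2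
    · exact Nat.Coprime.coprime_dvd_left ((dvd_mul_left _ _).mul_right _)
        (Nat.Coprime.coprime_dvd_right (dvd_mul_right _ _) cfg)
  · rw [← Nat.cast_mul, Nat.isCoprime_iff_coprime]
    refine Nat.Coprime.mul_right ?_ (Nat.Coprime.prod_right fun b hb => ?_)
    · exact (Nat.Coprime.coprime_dvd_left ((dvd_mul_left _ _).mul_right _)
        (Nat.Coprime.coprime_dvd_right (dvd_mul_left _ _) cfg)).symm
    · exact Nat.Coprime.coprime_dvd_left (lf2 ▸ dvd_mul_left _ _) (rel b hb).symm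
  · refine ⟨P k, (hc k).2.1, (hc k).2.2.1, ?_, ?_⟩
    · rw [z, (hc k).2.2.2, c1 k hk]
    · rw [← c1 k hk, ← (hc k).2.2.2]; exact cond k
  · funext k
    rw [pt, z, Int.mul_ediv_cancel_left _ hD.dl_ne, Int.toNat_natCast]

end KD

end KEY

end Pool.Agent.MP_a43263_nt.RH

end
end MrgPart0

-- ======== part 1: formerly Pool.Agent.MP_a43263_nt.RH.Fin
section MrgPart1

/-! PROJECT RANKG, THEOREM G: the final assembly, and pairwise different j-invariants. -/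

set_option autoImplicit false

noncomputable section

namespace Pool.Agent.MP_a43263_nt.RH

open Finset Filter Polynomial
open R2 (Ker Sc Core Shape)
open RG RG.FIN

namespace FIN

variable {n : ℕ}

theorem two {r : ℕ} {F : Surf n} (h : Hyp2 F r) : 2 ≤ n := by
  obtain ⟨m, hm⟩ := h.ev
  rcases Nat.eq_zero_or_pos n with rfl | h0
  · have h1 := h.card
    have h2 : {y | ∃ u, F.InS u y}.ncard ≤ 1 :=
      (Set.ncard_le_one (Set.toFinite _)).2 fun a _ b _ => Subsingleton.elim a b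
    have h3 : 2 ^ 1 ≤ 2 ^ (r + 2) := Nat.pow_le_pow_right (by omega) (by omega)
    omega
  · omega

theorem res_ne {r : ℕ} {F : Surf n} (h : Hyp2 F r) {j k : Ix n} (hjk : j ≠ k) :
    F.LZ j (F.rootZ k) ≠ 0 := by
  have := h.ne j k hjk
  rw [Surf.L_root] at this
  exact_mod_cast this

/-- admissible moduli exist -/
theorem exists_fits2 {F : Surf n} {B : Base n} (hB : Ok2 F B) (P : ℕ) :
    ∃ M : ℕ, B.Fits M ∧ P.factorial ∣ M := by
  classical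
  set R : ℕ := ∏ q ∈ (univ : Finset (Ix n)).offDiag, (B.e q.1 - B.e q.2).natAbs with hR
  have hR0 : 0 < R := prod_pos fun q hq =>
    Int.natAbs_pos.2 (sub_ne_zero.2 (hB.ne _ _ (mem_offDiag.1 hq).2.2))
  have ha : 0 < ∏ j, B.a j := prod_pos fun j _ => Nat.pos_of_ne_zero (hB.sqf j).ne_zero
  have hN := hB.pre.pos
  have hp : ∀ p : ℕ, p.Prime → p ≤ P + 12 * n →
      p ∣ 128 * B.N * R * ((∏ j, B.a j) * (P + 12 * n).factorial) := fun p hp h =>
    ((Nat.dvd_factorial hp.pos h).mul_left _).mul_left _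
  refine ⟨128 * B.N * R * ((∏ j, B.a j) * (P + 12 * n).factorial),
    ⟨by positivity, fun p h1 h2 => hp p h1 (by omega), fun h k hk => ?_, fun j => ?_⟩,
    ((Nat.factorial_dvd_factorial (by omega)).mul_left _).mul_left _⟩
  · have h1 : B.e h - B.e k ∣ (R : ℤ) := Int.natAbs_dvd.1 (Int.natCast_dvd_natCast.2
      (dvd_prod_of_mem (fun q : Ix n × Ix n => (B.e q.1 - B.e q.2).natAbs) (a := (h, k))
        (mem_offDiag.2 ⟨mem_univ _, mem_univ _, hk⟩)))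
    rw [Nat.cast_mul, Nat.cast_mul, Nat.cast_mul]
    exact (mul_dvd_mul_left _ h1).mul_right _
  · exact ((dvd_prod_of_mem _ (mem_univ j)).mul_right _).mul_left _

/-- a vector is bounded by the values of the forms -/
theorem exists_bound2 {r : ℕ} {F : Surf n} (hF : Hyp2 F r) (w : Ix n → ℤ) : ∃ C : ℕ, 0 < C ∧
    ∀ (Z : ℕ) (l : Ix n → ℕ) (v : ℤ × ℤ), (∀ j, l j ≤ Z) → (∀ j, F.LZ j v = w j * l j) →
      |v.1| ≤ C * Z ∧ |v.2| ≤ C * Z := by
  have h2 := two hF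
  obtain ⟨j, k, hjk⟩ : ∃ j k : Ix n, j ≠ k := ⟨(0, ⟨0, by omega⟩), (1, ⟨0, by omega⟩), by simp⟩
  have hr := Int.one_le_abs (res_ne hF hjk)
  refine ⟨((|F.A k| + |F.B k|) * |w j| + (|F.A j| + |F.B j|) * |w k|).natAbs + 1, by omega,
    fun Z l v hl hv => ?_⟩
  have b : ∀ i, |F.LZ i v| ≤ |w i| * Z := fun i => by
    rw [hv, abs_mul, Nat.abs_cast]
    exact mul_le_mul_of_nonneg_left (by exact_mod_cast hl i) (abs_nonneg _)
  have key : ∀ x p q : ℤ, x * F.LZ j (F.rootZ k) = p * F.LZ j v + q * F.LZ k v →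
      |x| ≤ (|p| * |w j| + |q| * |w k|) * Z := fun x p q h => by
    calc |x| ≤ |x| * |F.LZ j (F.rootZ k)| := le_mul_of_one_le_right (abs_nonneg _) hr
      _ = |p * F.LZ j v + q * F.LZ k v| := by rw [← abs_mul, h]
      _ ≤ |p| * |F.LZ j v| + |q| * |F.LZ k v| := by
          rw [← abs_mul, ← abs_mul]; exact abs_add_le _ _
      _ ≤ |p| * (|w j| * Z) + |q| * (|w k| * Z) := by gcongr <;> exact b _
      _ = _ := by ring
  have k1 := key v.1 (F.B k) (-F.B j) (by simp only [Surf.LZ, Surf.rootZ]; ring)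
  have k2 := key v.2 (-F.A k) (F.A j) (by simp only [Surf.LZ, Surf.rootZ]; ring)
  rw [abs_neg] at k1 k2
  have hZ : (0 : ℤ) ≤ Z := Nat.cast_nonneg _
  have p1 := mul_nonneg (abs_nonneg (F.A k)) (abs_nonneg (w j))
  have p2 := mul_nonneg (abs_nonneg (F.B k)) (abs_nonneg (w j))
  have p3 := mul_nonneg (abs_nonneg (F.A j)) (abs_nonneg (w k))
  have p4 := mul_nonneg (abs_nonneg (F.B j)) (abs_nonneg (w k))
  rw [Nat.cast_add, Int.natAbs_of_nonneg (by positivity), Nat.cast_one]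
  constructor
  · refine k1.trans (mul_le_mul_of_nonneg_right ?_ hZ); nlinarith
  · refine k2.trans (mul_le_mul_of_nonneg_right ?_ hZ); nlinarith

theorem exists_root2 {r : ℕ} {F : Surf n} (hF : Hyp2 F r) :
    ∃ t : ℚ, (pol F 1).eval t = 0 ∧ (pol F 2).eval t ≠ 0 := by
  have h2 := two hF
  obtain ⟨k, hk⟩ : ∃ k : Fin n, F.A (1, k) ≠ 0 := by
    by_contra h
    push Not at h
    refine res_ne hF (j := (1, ⟨0, by omega⟩)) (k := (1, ⟨1, by omega⟩)) (by simp) ?_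
    simp [Surf.LZ, Surf.rootZ, h]
  have hy : -(F.A (1, k) : ℚ) ≠ 0 := by simpa using hk
  refine ⟨F.B (1, k) / -(F.A (1, k) : ℚ), ?_, fun h => ?_⟩
  · have h1 := eval_pol F 1 (x := F.B (1, k)) hy
    have h3 : F.D 1 ((F.B (1, k) : ℚ), -(F.A (1, k) : ℚ)) = 0 := by
      rw [Surf.D, prod_eq_zero (mem_univ k), mul_zero]
      simp only [Surf.L]; ring
    rw [h3] at h1
    exact (mul_eq_zero.1 h1.symm).resolve_left (pow_ne_zero _ hy)
  · have h1 := eval_pol F 2 (x := F.B (1, k)) hy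
    rw [h, mul_zero, Surf.D, mul_eq_zero, prod_eq_zero_iff] at h1
    rcases h1 with h1 | ⟨i, -, h1⟩
    · exact hF.c0 2 (by exact_mod_cast h1)
    · exact hF.ne (2, i) (1, k) (by simp) h1

theorem fibre_jv2 {r : ℕ} {F : Surf n} (hF : Hyp2 F r) : ∃ K : ℕ, 0 < K ∧
    ∀ (T : Finset (ℤ × ℤ)) (j : ℚ), (∀ v ∈ T, IsCoprime v.1 v.2 ∧ (F.fibre v).IsElliptic ∧
      jv (F.fibre v) = j) → T.card ≤ K := by
  classical
  set a := pol F 1
  set b := pol F 2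
  set p : ℚ[X] := (C 16 * (a ^ 2 - a * b + b ^ 2)) ^ 3 with hp
  set q : ℚ[X] := C 16 * a ^ 2 * b ^ 2 * (a - b) ^ 2 with hq
  refine ⟨(max p.natDegree q.natDegree + 1) * 8, by omega, fun T j hT => ?_⟩
  have h0 : p - C j * q ≠ 0 := fun h => by
    obtain ⟨t, t1, t2⟩ := exists_root2 hF
    have : (p - C j * q).eval t = (16 * b.eval t ^ 2) ^ 3 := by
      simp only [hp, hq, eval_sub, eval_mul, eval_add, eval_pow, eval_C, show a.eval t = 0 from t1]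
      ring
    rw [h, eval_zero] at this
    exact absurd this.symm (by positivity)
  have h1 : (p - C j * q).natDegree ≤ max p.natDegree q.natDegree :=
    (natDegree_sub_le _ _).trans (max_le_max le_rfl (natDegree_C_mul_le _ _))
  have h2 : (insert 0 (p - C j * q).roots.toFinset).card ≤ max p.natDegree q.natDegree + 1 :=
    (card_insert_le _ _).trans (Nat.succ_le_succ
      ((Multiset.toFinset_card_le _).trans ((card_roots' _).trans h1)))
  refine (card_le_card_of_injOn (t := insert 0 (p - C j * q).roots.toFinset ×ˢ univ)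
    (fun v => ((v.1 : ℚ) / v.2, (decide (0 < v.1), decide (0 < v.2), decide (v.2 = 0))))
    (fun v hv => ?_) fun v hv w hw e => ?_).trans ?_
  · obtain ⟨-, k2, k3⟩ := hT v hv
    refine mem_coe.2 (mem_product.2 ⟨?_, mem_univ _⟩)
    by_cases k5 : (v.2 : ℚ) = 0
    · simp [k5]
    have k4 : (F.fibre v).Δ ≠ 0 := k2.isUnit.ne_zero
    rw [jv, inv_mul_eq_iff_eq_mul₀ k4, Surf.fibre, curve_c4, curve_Δ, eval_pol F 1 k5,
      eval_pol F 2 k5] at k3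
    refine mem_insert_of_mem ?_
    rw [Multiset.mem_toFinset, mem_roots h0, IsRoot]
    simp only [hp, hq, eval_sub, eval_mul, eval_add, eval_pow, eval_C]
    refine (mul_eq_zero.1 (?_ : ((v.2 : ℚ) ^ n) ^ 6 * _ = 0)).resolve_left (by positivity)
    linear_combination k3
  · obtain ⟨k1, -⟩ := hT v hv
    obtain ⟨l1, -⟩ := hT w hw
    simp only [Prod.mk.injEq, decide_eq_decide] at e
    obtain ⟨e0, e1, e2, e3⟩ := e
    have e4 : v.1 * w.2 = w.1 * v.2 := by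
      by_cases h : v.2 = 0
      · rw [h, e3.1 h, mul_zero, mul_zero]
      · have h' : w.2 ≠ 0 := fun k => h (e3.2 k)
        rw [div_eq_div_iff (by exact_mod_cast h) (by exact_mod_cast h')] at e0
        exact_mod_cast e0
    have d1 := Int.associated_iff.1 (associated_of_dvd_dvd
      (k1.dvd_of_dvd_mul_right (Dvd.intro _ e4)) (l1.dvd_of_dvd_mul_right (Dvd.intro _ e4.symm)))
    have d2 := Int.associated_iff.1 (associated_of_dvd_dvd
      (k1.symm.dvd_of_dvd_mul_left (Dvd.intro_left _ e4.symm))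
      (l1.symm.dvd_of_dvd_mul_left (Dvd.intro_left _ e4)))
    exact Prod.ext (by omega) (by omega)
  · rw [card_product]
    exact Nat.mul_le_mul h2 (by simp)

end FIN

open FIN in
theorem fin : FRAMEStmt → PAR2Stmt → POSStmt → MKV2Stmt → BASE2Stmt → PT2Stmt → BR2Stmt →
    GEO2Stmt → GOOD2Stmt → Main0Stmt := by
  classical
  intro frame par pos mkv base pt br geo good n r F hF
  obtain ⟨N, μ, hpre, base⟩ := base n r F hF
  have sm : ∀ i, Smooth N (bv F μ i) := fun i => by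
    refine ⟨mul_ne_zero (hpre.sc i).1 (prod_ne_zero_iff.2 fun k _ => (hpre.sm _).1),
      fun p hp h => ?_⟩
    have hp' := Nat.prime_iff_prime_int.1 hp
    rcases hp'.dvd_or_dvd h with h | h
    · exact (hpre.sc i).2 p hp h
    · obtain ⟨k, -, h⟩ := (hp'.dvd_finsetProd_iff _).1 h
      exact (hpre.sm _).2 p hp h
  obtain ⟨Fr, hFr⟩ := frame N (bv F μ 1) (bv F μ 2) hpre.pos hpre.two (sm 1).1 (sm 2).1
    (hpre.sum ▸ sm 0)
  obtain ⟨B, rfl, rfl, hB, hpar⟩ := base (r + Fr.par)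
  obtain ⟨P₀, J₀, hpos⟩ := pos n B.e
  obtain ⟨M, hM, hP⟩ := exists_fits2 hB (P₀ + 2 * Fr.k)
  have hk : 2 * Fr.k ≤ M := ((Nat.le_add_left _ _).trans (Nat.self_le_factorial _)).trans
    (Nat.le_of_dvd hM.pos hP)
  obtain ⟨hD, hbr⟩ := br n r F B Fr M hF hB hM hFr hk
  obtain ⟨δ, hδ, hpos⟩ := hpos _ hD.ok rfl fun p hp h =>
    (Nat.dvd_factorial hp.pos (by omega)).trans hP
  obtain ⟨J₁, hJ₁⟩ := mkv n _ r δ hD (geo n r F B Fr M hF hB hD) (fun l hl he => by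
    obtain ⟨h1, h2, h3⟩ := hbr l hl
    obtain ⟨κ, k1, k2⟩ := par n _ _ _ Fr _ _ _ hFr h1 h2
    obtain ⟨m, hm⟩ := he
    rw [← union_assoc] at k1
    exact ⟨κ, k1, by omega⟩) hF.ev hδ
  have h2 := two hF
  obtain ⟨j₀⟩ : Nonempty (Ix n) := ⟨(0, ⟨0, by omega⟩)⟩
  obtain ⟨t, ht⟩ := ((hpos (J₀ + J₁) (Nat.le_add_right _ _)).and
    (hJ₁ (J₀ + J₁) (Nat.le_add_left _ _)).par).and (ev_ge (F.A j₀).natAbs)
  obtain ⟨C, hC, hCb⟩ := exists_bound2 hF fun j => B.μ j * B.a j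
  choose! v hv using pt n F B Fr M h2 hB hM
  have hC' : (0 : ℝ) < C := by exact_mod_cast hC
  have hw : ∀ j, B.μ j * B.a j ≠ 0 := fun j =>
    mul_ne_zero (hB.pre.sm j).1 (by exact_mod_cast (hB.sqf j).ne_zero)
  refine ⟨δ / 32 / (2 * C) ^ 2, by positivity, ?_⟩
  filter_upwards [(Nat.tendsto_div_const_atTop (n := C) (by omega)).eventually
    (exists_scale n M (J₀ + J₁) t), eventually_ge_atTop C] with H hS hH
  obtain ⟨S, h1, h3, h4, hR, hZ⟩ := hS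
  obtain ⟨⟨⟨e, hA⟩, hG⟩, hY⟩ := ht S h1 h3 h4 hR
  have hG' := hG e hA
  have hZH : C * S.Z ≤ H := hZ ▸ Nat.mul_div_le _ _
  have hHZ : (H : ℝ) ≤ 2 * C * S.Z := by
    have k1 : H < C * (S.Z + 1) := hZ ▸ Nat.lt_mul_div_succ _ hC
    have k2 : 1 ≤ S.Z := hZ ▸ Nat.div_pos hH hC
    have k3 : H ≤ 2 * C * S.Z := by nlinarith
    exact_mod_cast k3
  refine le_trans ?_ (hG'.trans (Nat.cast_le.2 (card_le_card_of_injOn v (fun l hl => ?_)
    fun l hl l' hl' h => ?_)))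
  · rw [div_mul_eq_mul_div, div_le_iff₀ (by positivity)]
    calc δ / 32 * (H : ℝ) ^ 2 ≤ δ / 32 * (2 * C * S.Z) ^ 2 := by gcongr
      _ = _ := by ring
  · obtain ⟨hl, hK⟩ := mem_filter.1 (mem_coe.1 hl)
    have ad := adm_of_mem (hR.par e) hl
    obtain ⟨b1, -, -, -, hsh⟩ := mem_AA.1 hl
    obtain ⟨v1, v2⟩ := hv l ad
    obtain ⟨c1, c2⟩ := hCb S.Z l (v l) (fun j => (b1 j).2) v2
    have c3 : (C * S.Z : ℤ) ≤ H := by exact_mod_cast hZH
    refine mem_coe.2 (mem_filter.2 ⟨mem_product.2 ⟨mem_Icc.2 (abs_le.1 (c1.trans c3)),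
      mem_Icc.2 (abs_le.1 (c2.trans c3))⟩, v1,
      good n r F B Fr M hF hB hM hFr hk l ad (fun j => (hsh j).one_lt) hK _ v2 fun h0 => ?_⟩)
    rw [h0, isCoprime_zero_right] at v1
    have d1 := v2 j₀
    rw [Surf.LZ, h0, mul_zero, add_zero] at d1
    have d2 : (l j₀ : ℤ) ∣ F.A j₀ := v1.dvd_mul_right.1 (Dvd.intro_left _ d1.symm)
    have d3 : F.A j₀ ≠ 0 := fun k => by
      rw [k, zero_mul] at d1
      exact mul_ne_zero (hw j₀) (by have := (b1 j₀).1; positivity) d1.symm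
    have d4 := Nat.le_of_dvd (Int.natAbs_pos.2 d3) (Int.natCast_dvd.1 d2)
    obtain ⟨c, P, hc, -, hP, e'⟩ := hsh j₀
    have d5 : P ≤ l j₀ := e' ▸ Nat.le_mul_of_pos_left _ hc.pos
    have d6 : S.Y' < P := hP
    have := hR.Y0_le.trans hR.Y_le
    omega
  · have a1 := (hv l (adm_of_mem (hR.par e) (mem_filter.1 (mem_coe.1 hl)).1)).2
    have a2 := (hv l' (adm_of_mem (hR.par e) (mem_filter.1 (mem_coe.1 hl')).1)).2
    funext j
    refine Nat.cast_injective (R := ℤ) (mul_left_cancel₀ (hw j) ?_)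
    rw [← a1, ← a2, h]

open FIN in
theorem jin : Main0Stmt → MainStmt := by
  classical
  intro h n r F hF
  obtain ⟨c, hc, h⟩ := h n r F hF
  obtain ⟨K, hK, hj⟩ := fibre_jv2 hF
  have hK' : (0 : ℝ) < K := by exact_mod_cast hK
  refine ⟨c / K, by positivity, h.mono fun H h => ?_⟩
  set G := (Icc (-H : ℤ) H ×ˢ Icc (-H : ℤ) H).filter fun v : ℤ × ℤ =>
    IsCoprime v.1 v.2 ∧ Good r (F.fibre v) with hG
  obtain ⟨T, t1, t2, t3⟩ := exists_subset_injOn_image_eq_of_surjOn (G : Set (ℤ × ℤ))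
    (G.image fun v => jv (F.fibre v)) (f := fun v => jv (F.fibre v))
    (by rw [coe_image]; exact Set.surjOn_image _ _)
  have h1 := card_le_mul_card_image (f := fun v => jv (F.fibre v)) G K fun j _ =>
    hj _ j fun v hv => by
      obtain ⟨k1, k2⟩ := mem_filter.1 hv
      obtain ⟨-, k4, k5⟩ := mem_filter.1 k1
      exact ⟨k4, k5.1, k2⟩
  rw [← t3, card_image_of_injOn t2] at h1
  have h2 : (G.card : ℝ) ≤ K * T.card := by exact_mod_cast h1
  refine ⟨T, fun v hv => (mem_filter.1 (t1 hv)).1, ?_, fun v hv => (mem_filter.1 (t1 hv)).2,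
    fun v hv w hw _ _ e => t2 hv hw (by rwa [j_eq_jv, j_eq_jv] at e)⟩
  rw [div_mul_eq_mul_div, div_le_iff₀ hK']
  linarith

end Pool.Agent.MP_a43263_nt.RH

end
end MrgPart1

-- ======== part 2: formerly Pool.Agent.MP_a43263_nt.RH.OneFin
section MrgPart2

/-! PROJECT RANKG, round ONE: base points near a given fibre and the final assembly. -/

set_option autoImplicit false

noncomputable section

namespace Pool.Agent.MP_a43263_nt.RH

open Finset Filter Polynomial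
open R2 (Ker Sc Core Shape)
open RG RG.FIN

open RG.Bas in
theorem base3 (pty : PTY2Stmt) : BASE3Stmt := by
  classical
  intro n F v hF hv μ0
  have n0 := hF.pos
  have res : ∀ j k, j ≠ k → F.LZ j (F.rootZ k) ≠ 0 := fun j k h => by
    have := hF.ne j k h
    rw [Surf.L_root] at this
    exact_mod_cast this
  obtain ⟨x, y⟩ := v
  obtain ⟨w2, w1, hw⟩ := hv
  simp only at hw
  have hb : ∀ i, (bv F (fun j => F.LZ j (x, y)) i : ℚ) = F.D i ((x : ℚ), (y : ℚ)) := fun i => by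
    rw [F.D_cast i (x, y)]
    simp only [bv, Surf.DZ]
  obtain ⟨μ, hμ'⟩ : ∃ μ : Ix n → ℤ, μ = fun j => F.LZ j (x, y) := ⟨_, rfl⟩
  have hμ : ∀ j, μ j = F.A j * x + F.B j * y := fun j => by rw [hμ']; rfl
  replace μ0 : ∀ j, μ j ≠ 0 := hμ' ▸ μ0
  rw [← hμ'] at hb ⊢
  obtain ⟨A, hA⟩ : ∃ A : Ix n → ℤ, ∀ j, A j = F.A j * w1 - F.B j * w2 := ⟨_, fun _ => rfl⟩
  obtain ⟨c, hc⟩ : ∃ c : Ix n → ℤ, ∀ j, c j = A j * μ j * (∏ k ∈ univ.erase j, μ k) ^ 2 :=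
    ⟨_, fun _ => rfl⟩
  obtain ⟨P, hP⟩ : ∃ P : ℤ, P = ∏ k, μ k := ⟨_, rfl⟩
  have cP : ∀ j, μ j * c j = A j * P ^ 2 := fun j => by
    rw [hc, hP, ← mul_prod_erase univ μ (mem_univ j)]; ring
  obtain ⟨j0, -, hj⟩ := exists_min_image univ c ⟨(0, ⟨0, n0⟩), mem_univ _⟩
  obtain ⟨P₁, hp⟩ := pty {j // j ≠ j0}
  obtain ⟨Z, hZ⟩ : ∃ Z : ℤ, Z = 2 * P₁.factorial * (∏ i, F.c i) *
    (∏ j, ∏ k ∈ univ.erase j, F.LZ j (F.rootZ k)) * P * bv F μ 0 ^ 2 := ⟨_, rfl⟩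
  have N0 : 0 < Z.natAbs := by
    rw [Int.natAbs_pos, hZ, hP]
    refine mul_ne_zero (mul_ne_zero (mul_ne_zero (mul_ne_zero (by positivity) ?_) ?_) ?_)
      (pow_ne_zero 2 (mul_ne_zero (hF.c0 0) ?_)) <;> refine prod_ne_zero_iff.2 fun j _ => ?_
    exacts [hF.c0 j, prod_ne_zero_iff.2 fun k h => res _ _ (ne_of_mem_erase h).symm, μ0 _, μ0 _]
  have gd : ∀ z, z ∣ Z → Gd Z.natAbs z := fun z h => gd_of_dvd N0 (Int.natAbs_dvd_natAbs.2 h)
  have N2 : 2 ∣ Z.natAbs := Int.natCast_dvd.1 (hZ ▸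
    ((((dvd_mul_right _ _).mul_right _).mul_right _).mul_right _).mul_right _)
  have NP : ∀ p : ℕ, p.Prime → p ≤ P₁ → p ∣ Z.natAbs := fun p hp h => Int.natCast_dvd.1 (hZ ▸
    (((((Int.natCast_dvd_natCast.2 (Nat.dvd_factorial hp.pos h)).mul_left 2).mul_right
      _).mul_right _).mul_right _).mul_right _)
  have gc : ∀ i, Gd Z.natAbs (F.c i) := fun i => gd _ (hZ ▸
    ((((dvd_prod_of_mem F.c (mem_univ i)).mul_left _).mul_right _).mul_right _).mul_right _)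
  have gr : ∀ j k, j ≠ k → Gd Z.natAbs (F.LZ j (F.rootZ k)) := fun j k h => gd _ (hZ ▸
    ((((dvd_prod_of_mem (fun k => F.LZ j (F.rootZ k)) (mem_erase.2 ⟨h.symm, mem_univ k⟩)).trans
      (dvd_prod_of_mem (fun j => ∏ k ∈ univ.erase j, F.LZ j (F.rootZ k))
        (mem_univ j))).mul_left _).mul_right _).mul_right _)
  have gP : Gd Z.natAbs P := gd _ (hZ ▸ (dvd_mul_left _ _).mul_right _)
  have sq : bv F μ 0 ^ 2 ∣ Z.natAbs := Int.dvd_natAbs.2 (hZ ▸ dvd_mul_left _ _)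
  generalize Z.natAbs = N at N0 N2 NP gc gr gP sq
  have pre : Pre F N μ := ⟨N0, N2, gc, gr,
    fun j => gP.of_dvd (hP ▸ dvd_prod_of_mem μ (mem_univ j)), by
      have := hF.sum ((x : ℚ), (y : ℚ))
      rw [← hb, ← hb, ← hb] at this
      exact_mod_cast this, sq⟩
  have gQ := gd_Q N0 N2
  set Q : ℕ := 128 * N with hQ
  have NQ : (N : ℤ) ∣ Q := Int.natCast_dvd_natCast.2 (dvd_mul_left _ _)
  obtain ⟨κ, hκ⟩ : ∃ κ : Ix n → ℕ, ∀ j, (κ j : ℤ) = Q * (c j - c j0) :=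
    ⟨fun j => Q * (c j - c j0).toNat, fun j => by
      rw [Nat.cast_mul, Int.toNat_of_nonneg (sub_nonneg.2 (hj j (mem_univ j)))]⟩
  have κ0 : κ j0 = 0 := by simpa using hκ j0
  have Qκ : ∀ j, (Q : ℤ) ∣ κ j := fun j => hκ j ▸ dvd_mul_right _ _
  have gκ : ∀ i j, i ≠ j → Gd N ((κ i : ℤ) - κ j) := fun i j h => by
    have e : μ i * μ j * (c i - c j) = P * P * F.LZ i (F.rootZ j) := by
      have a := hμ i
      have b := hμ j
      simp only [Surf.LZ, Surf.rootZ]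
      linear_combination μ j * cP i - μ i * cP j + P ^ 2 * A i * b - P ^ 2 * A j * a +
        P ^ 2 * (F.A j * x + F.B j * y) * hA i - P ^ 2 * (F.A i * x + F.B i * y) * hA j +
        P ^ 2 * (F.A i * F.B j - F.B i * F.A j) * hw
    rw [hκ, hκ, ← mul_sub, sub_sub_sub_cancel_right]
    exact gQ.mul (((gP.mul gP).mul (gr i j h)).of_dvd (e ▸ dvd_mul_left _ _))
  refine ⟨N, pre, fun ε => ?_⟩
  obtain ⟨s, t, ht, st, sqt, sqa, par⟩ := hp (fun j => κ j.1) Q ε (by positivity)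
    (fun p hp h => (NP p hp h).mul_left 128)
    (fun j => by
      have := gκ j.1 j0 j.2
      rw [κ0, Nat.cast_zero, sub_zero] at this
      exact ⟨Nat.pos_of_ne_zero (Nat.cast_ne_zero.1 this.1), Int.natCast_dvd_natCast.1 (Qκ _),
        fun p hp d => (this.2 p hp (Int.natCast_dvd_natCast.2 d)).mul_left _⟩)
    fun i j h => by
      have := gκ i.1 j.1 fun e => h (Subtype.ext e)
      exact ⟨fun e => this.1 (by rw [e, sub_self]), fun p hp d => (this.2 p hp d).mul_left _⟩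
  have t1 : (Q : ℤ) ∣ t - 1 := ht.symm.dvd
  have cs : IsCoprime (s : ℤ) t := Nat.isCoprime_iff_coprime.2 st
  have sA : ∀ j, Squarefree (t + κ j * s) := fun j => by
    by_cases h : j = j0
    · rwa [h, κ0, zero_mul, add_zero]
    · exact sqa ⟨j, h⟩
  have a1 : ∀ j, (Q : ℤ) ∣ (t + κ j * s : ℕ) - 1 := fun j => by
    rw [Nat.cast_add, Nat.cast_mul (κ j), add_sub_right_comm]
    exact dvd_add t1 ((Qκ j).mul_right _)
  have ea : ∀ j, ((t + κ j * s : ℕ) : ℤ) * ∏ k ∈ univ.erase j, ((t + κ k * s : ℕ) : ℤ) =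
      ∏ k, ((t + κ k * s : ℕ) : ℤ) := fun j =>
    mul_prod_erase univ (fun k => ((t + κ k * s : ℕ) : ℤ)) (mem_univ j)
  have Λ0 : ∏ k, ((t + κ k * s : ℕ) : ℤ) ≠ 0 :=
    prod_ne_zero_iff.2 fun k _ => Nat.cast_ne_zero.2 (sA k).ne_zero
  generalize hΛ : ∏ k, ((t + κ k * s : ℕ) : ℤ) = Λ at ea Λ0
  refine ⟨⟨N, 0, 0, (s * (Q * P ^ 2) * w1 + (t - s * (Q * c j0)) * x,
      -(s * (Q * P ^ 2) * w2) + (t - s * (Q * c j0)) * y),
    (Λ * (Q * P ^ 2 * w1 - Q * c j0 * x), -(Λ * (Q * P ^ 2 * w2 + Q * c j0 * y))), μ,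
    fun j => κ j * ∏ k ∈ univ.erase j, ((t + κ k * s : ℕ) : ℤ), fun j => t + κ j * s⟩, rfl, rfl,
    ⟨pre, fun j => ?_, fun j => ?_, ?_, fun j k h e => ?_, sA, fun j k h => ?_, fun j => ?_⟩, ?_⟩
  · have a := hμ j
    simp only [Surf.LZ, Nat.cast_add, Nat.cast_mul, hκ]
    linear_combination (s * Q * c j0 - t : ℤ) * a - (s * Q : ℤ) * cP j -
      (s * Q * P ^ 2 : ℤ) * hA j
  · have a := hμ j
    simp only [Surf.LZ]
    rw [mul_assoc (μ j), mul_left_comm _ (κ j : ℤ), ea, hκ]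
    linear_combination (Λ * Q * c j0 : ℤ) * a - (Λ * Q : ℤ) * cP j -
      (Λ * Q * P ^ 2 : ℤ) * hA j
  · have k : IsCoprime (s * (Q * P ^ 2) : ℤ) (t - s * (Q * c j0)) := by
      refine IsCoprime.mul_left ?_ (Bas2.cop (N := N) ?_ ?_).symm
      · rw [sub_eq_add_neg, ← mul_neg]
        exact cs.add_mul_left_right _
      · rw [pow_two]
        exact gQ.mul (gP.mul gP)
      · rw [sub_right_comm]
        exact NQ.trans (dvd_sub t1 ((dvd_mul_right _ _).mul_left _))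
    obtain ⟨p, q, k⟩ := k
    refine ⟨p * y + q * w2, q * w1 - p * x, ?_⟩
    simp only
    linear_combination k + (p * (s * (Q * P ^ 2)) + q * (t - s * (Q * c j0)) : ℤ) * hw
  · have a := ea j
    have b := ea k
    simp only at e
    have t0 : (t : ℤ) ≠ 0 := Nat.cast_ne_zero.2 sqt.ne_zero
    refine mul_ne_zero (mul_ne_zero Λ0 t0) (gκ j k h).1 ?_
    generalize ∏ k ∈ univ.erase j, ((t + κ k * s : ℕ) : ℤ) = u at a e
    generalize ∏ k ∈ univ.erase k, ((t + κ k * s : ℕ) : ℤ) = w at b e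
    push_cast at a b
    linear_combination ((t + κ j * s) * (t + κ k * s) : ℤ) * e - (κ j * (t + κ k * s) : ℤ) * a +
      (κ k * (t + κ j * s) : ℤ) * b
  · have a := (Bas2.cop (gκ k j h.symm) (NQ.trans (a1 j))).mul_right
      (show IsCoprime ((t + κ j * s : ℕ) : ℤ) s by
        push_cast
        exact cs.symm.add_mul_right_left _)
    refine Nat.isCoprime_iff_coprime.1 ?_
    have b := a.add_mul_left_right 1
    rwa [show ((κ k : ℤ) - κ j) * s + (t + κ j * s : ℕ) * 1 = (t + κ k * s : ℕ) by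
      push_cast; ring] at b
  · exact ((Nat.modEq_iff_dvd).2 (a1 j)).symm
  · rw [← par, Fintype.sum_eq_add_sum_subtype_ne _ j0]
    simp only [κ0, zero_mul, add_zero]

namespace FIN3

variable {n : ℕ}

theorem two {F : Surf n} (h : Hyp0 F) : 2 ≤ n := by
  obtain ⟨m, hm⟩ := h.ev
  have := h.pos
  omega

theorem res_ne {F : Surf n} (h : Hyp0 F) {j k : Ix n} (hjk : j ≠ k) :
    F.LZ j (F.rootZ k) ≠ 0 := by
  have := h.ne j k hjk
  rw [Surf.L_root] at this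
  exact_mod_cast this

/-- a vector is bounded by the values of the forms -/
theorem exists_bound2 {F : Surf n} (hF : Hyp0 F) (w : Ix n → ℤ) : ∃ C : ℕ, 0 < C ∧
    ∀ (Z : ℕ) (l : Ix n → ℕ) (v : ℤ × ℤ), (∀ j, l j ≤ Z) → (∀ j, F.LZ j v = w j * l j) →
      |v.1| ≤ C * Z ∧ |v.2| ≤ C * Z := by
  have h2 := two hF
  obtain ⟨j, k, hjk⟩ : ∃ j k : Ix n, j ≠ k := ⟨(0, ⟨0, by omega⟩), (1, ⟨0, by omega⟩), by simp⟩
  have hr := Int.one_le_abs (res_ne hF hjk)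
  refine ⟨((|F.A k| + |F.B k|) * |w j| + (|F.A j| + |F.B j|) * |w k|).natAbs + 1, by omega,
    fun Z l v hl hv => ?_⟩
  have b : ∀ i, |F.LZ i v| ≤ |w i| * Z := fun i => by
    rw [hv, abs_mul, Nat.abs_cast]
    exact mul_le_mul_of_nonneg_left (by exact_mod_cast hl i) (abs_nonneg _)
  have key : ∀ x p q : ℤ, x * F.LZ j (F.rootZ k) = p * F.LZ j v + q * F.LZ k v →
      |x| ≤ (|p| * |w j| + |q| * |w k|) * Z := fun x p q h => by
    calc |x| ≤ |x| * |F.LZ j (F.rootZ k)| := le_mul_of_one_le_right (abs_nonneg _) hr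
      _ = |p * F.LZ j v + q * F.LZ k v| := by rw [← abs_mul, h]
      _ ≤ |p| * |F.LZ j v| + |q| * |F.LZ k v| := by
          rw [← abs_mul, ← abs_mul]; exact abs_add_le _ _
      _ ≤ |p| * (|w j| * Z) + |q| * (|w k| * Z) := by gcongr <;> exact b _
      _ = _ := by ring
  have k1 := key v.1 (F.B k) (-F.B j) (by simp only [Surf.LZ, Surf.rootZ]; ring)
  have k2 := key v.2 (-F.A k) (F.A j) (by simp only [Surf.LZ, Surf.rootZ]; ring)
  rw [abs_neg] at k1 k2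
  have hZ : (0 : ℤ) ≤ Z := Nat.cast_nonneg _
  have p1 := mul_nonneg (abs_nonneg (F.A k)) (abs_nonneg (w j))
  have p2 := mul_nonneg (abs_nonneg (F.B k)) (abs_nonneg (w j))
  have p3 := mul_nonneg (abs_nonneg (F.A j)) (abs_nonneg (w k))
  have p4 := mul_nonneg (abs_nonneg (F.B j)) (abs_nonneg (w k))
  rw [Nat.cast_add, Int.natAbs_of_nonneg (by positivity), Nat.cast_one]
  constructor
  · refine k1.trans (mul_le_mul_of_nonneg_right ?_ hZ); nlinarith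
  · refine k2.trans (mul_le_mul_of_nonneg_right ?_ hZ); nlinarith

theorem exists_root2 {F : Surf n} (hF : Hyp0 F) :
    ∃ t : ℚ, (pol F 1).eval t = 0 ∧ (pol F 2).eval t ≠ 0 := by
  have h2 := two hF
  obtain ⟨k, hk⟩ : ∃ k : Fin n, F.A (1, k) ≠ 0 := by
    by_contra h
    push Not at h
    refine res_ne hF (j := (1, ⟨0, by omega⟩)) (k := (1, ⟨1, by omega⟩)) (by simp) ?_
    simp [Surf.LZ, Surf.rootZ, h]
  have hy : -(F.A (1, k) : ℚ) ≠ 0 := by simpa using hk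
  refine ⟨F.B (1, k) / -(F.A (1, k) : ℚ), ?_, fun h => ?_⟩
  · have h1 := eval_pol F 1 (x := F.B (1, k)) hy
    have h3 : F.D 1 ((F.B (1, k) : ℚ), -(F.A (1, k) : ℚ)) = 0 := by
      rw [Surf.D, prod_eq_zero (mem_univ k), mul_zero]
      simp only [Surf.L]; ring
    rw [h3] at h1
    exact (mul_eq_zero.1 h1.symm).resolve_left (pow_ne_zero _ hy)
  · have h1 := eval_pol F 2 (x := F.B (1, k)) hy
    rw [h, mul_zero, Surf.D, mul_eq_zero, prod_eq_zero_iff] at h1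
    rcases h1 with h1 | ⟨i, -, h1⟩
    · exact hF.c0 2 (by exact_mod_cast h1)
    · exact hF.ne (2, i) (1, k) (by simp) h1

theorem fibre_jv2 {F : Surf n} (hF : Hyp0 F) : ∃ K : ℕ, 0 < K ∧
    ∀ (T : Finset (ℤ × ℤ)) (j : ℚ), (∀ v ∈ T, IsCoprime v.1 v.2 ∧ (F.fibre v).IsElliptic ∧
      jv (F.fibre v) = j) → T.card ≤ K := by
  classical
  set a := pol F 1
  set b := pol F 2
  set p : ℚ[X] := (C 16 * (a ^ 2 - a * b + b ^ 2)) ^ 3 with hp
  set q : ℚ[X] := C 16 * a ^ 2 * b ^ 2 * (a - b) ^ 2 with hq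
  refine ⟨(max p.natDegree q.natDegree + 1) * 8, by omega, fun T j hT => ?_⟩
  have h0 : p - C j * q ≠ 0 := fun h => by
    obtain ⟨t, t1, t2⟩ := exists_root2 hF
    have : (p - C j * q).eval t = (16 * b.eval t ^ 2) ^ 3 := by
      simp only [hp, hq, eval_sub, eval_mul, eval_add, eval_pow, eval_C, show a.eval t = 0 from t1]
      ring
    rw [h, eval_zero] at this
    exact absurd this.symm (by positivity)
  have h1 : (p - C j * q).natDegree ≤ max p.natDegree q.natDegree :=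
    (natDegree_sub_le _ _).trans (max_le_max le_rfl (natDegree_C_mul_le _ _))
  have h2 : (insert 0 (p - C j * q).roots.toFinset).card ≤ max p.natDegree q.natDegree + 1 :=
    (card_insert_le _ _).trans (Nat.succ_le_succ
      ((Multiset.toFinset_card_le _).trans ((card_roots' _).trans h1)))
  refine (card_le_card_of_injOn (t := insert 0 (p - C j * q).roots.toFinset ×ˢ univ)
    (fun v => ((v.1 : ℚ) / v.2, (decide (0 < v.1), decide (0 < v.2), decide (v.2 = 0))))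
    (fun v hv => ?_) fun v hv w hw e => ?_).trans ?_
  · obtain ⟨-, k2, k3⟩ := hT v hv
    refine mem_coe.2 (mem_product.2 ⟨?_, mem_univ _⟩)
    by_cases k5 : (v.2 : ℚ) = 0
    · simp [k5]
    have k4 : (F.fibre v).Δ ≠ 0 := k2.isUnit.ne_zero
    rw [jv, inv_mul_eq_iff_eq_mul₀ k4, Surf.fibre, curve_c4, curve_Δ, eval_pol F 1 k5,
      eval_pol F 2 k5] at k3
    refine mem_insert_of_mem ?_
    rw [Multiset.mem_toFinset, mem_roots h0, IsRoot]
    simp only [hp, hq, eval_sub, eval_mul, eval_add, eval_pow, eval_C]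
    refine (mul_eq_zero.1 (?_ : ((v.2 : ℚ) ^ n) ^ 6 * _ = 0)).resolve_left (by positivity)
    linear_combination k3
  · obtain ⟨k1, -⟩ := hT v hv
    obtain ⟨l1, -⟩ := hT w hw
    simp only [Prod.mk.injEq, decide_eq_decide] at e
    obtain ⟨e0, e1, e2, e3⟩ := e
    have e4 : v.1 * w.2 = w.1 * v.2 := by
      by_cases h : v.2 = 0
      · rw [h, e3.1 h, mul_zero, mul_zero]
      · have h' : w.2 ≠ 0 := fun k => h (e3.2 k)
        rw [div_eq_div_iff (by exact_mod_cast h) (by exact_mod_cast h')] at e0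
        exact_mod_cast e0
    have d1 := Int.associated_iff.1 (associated_of_dvd_dvd
      (k1.dvd_of_dvd_mul_right (Dvd.intro _ e4)) (l1.dvd_of_dvd_mul_right (Dvd.intro _ e4.symm)))
    have d2 := Int.associated_iff.1 (associated_of_dvd_dvd
      (k1.symm.dvd_of_dvd_mul_left (Dvd.intro_left _ e4.symm))
      (l1.symm.dvd_of_dvd_mul_left (Dvd.intro_left _ e4)))
    exact Prod.ext (by omega) (by omega)
  · rw [card_product]
    exact Nat.mul_le_mul h2 (by simp)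

end FIN3

open FIN3 in
theorem fin3 : FRAMEStmt → PAR2Stmt → POSStmt → MKV2Stmt → BASE3Stmt → PT2Stmt → BR3Stmt →
    GEO3Stmt → GOOD3Stmt → Main30Stmt := by
  classical
  intro frame par pos mkv base pt br geo good n r F v₀ h3F
  have hF := h3F.h0
  obtain ⟨N, hpre, base⟩ := base n F v₀ hF h3F.prim h3F.nz
  obtain ⟨μ, hμ⟩ : ∃ μ : Ix n → ℤ, μ = fun j => F.LZ j v₀ := ⟨_, rfl⟩
  rw [← hμ] at hpre base
  have sm : ∀ i, Smooth N (bv F μ i) := fun i => by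
    refine ⟨mul_ne_zero (hpre.sc i).1 (prod_ne_zero_iff.2 fun k _ => (hpre.sm _).1),
      fun p hp h => ?_⟩
    have hp' := Nat.prime_iff_prime_int.1 hp
    rcases hp'.dvd_or_dvd h with h | h
    · exact (hpre.sc i).2 p hp h
    · obtain ⟨k, -, h⟩ := (hp'.dvd_finsetProd_iff _).1 h
      exact (hpre.sm _).2 p hp h
  obtain ⟨Fr, hFr⟩ := frame N (bv F μ 1) (bv F μ 2) hpre.pos hpre.two (sm 1).1 (sm 2).1
    (hpre.sum ▸ sm 0)
  obtain ⟨B, rfl, rfl, hB, hpar⟩ := base (r + Fr.par)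
  obtain ⟨P₀, J₀, hpos⟩ := pos n B.e
  obtain ⟨M, hM, hP⟩ := FIN.exists_fits2 hB (P₀ + 2 * Fr.k)
  have hk : 2 * Fr.k ≤ M := ((Nat.le_add_left _ _).trans (Nat.self_le_factorial _)).trans
    (Nat.le_of_dvd hM.pos hP)
  obtain ⟨hD, hbr⟩ := br n F B Fr M hF hB hM hFr hk
  obtain ⟨δ, hδ, hpos⟩ := hpos _ hD.ok rfl fun p hp h =>
    (Nat.dvd_factorial hp.pos (by omega)).trans hP
  obtain ⟨J₁, hJ₁⟩ := mkv n _ r δ hD (geo n r F v₀ B Fr M h3F hμ hB hFr hD) (fun l hl he => by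
    obtain ⟨h1, h2, h3⟩ := hbr l hl
    obtain ⟨κ, k1, k2⟩ := par n _ _ _ Fr _ _ _ hFr h1 h2
    obtain ⟨m, hm⟩ := he
    rw [← union_assoc] at k1
    exact ⟨κ, k1, by omega⟩) hF.ev hδ
  have h2 := two hF
  obtain ⟨t, ht⟩ := (hpos (J₀ + J₁) (Nat.le_add_right _ _)).and
    (hJ₁ (J₀ + J₁) (Nat.le_add_left _ _)).par
  obtain ⟨C, hC, hCb⟩ := exists_bound2 hF fun j => B.μ j * B.a j
  choose! v hv using pt n F B Fr M h2 hB hM
  have hC' : (0 : ℝ) < C := by exact_mod_cast hC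
  have hw : ∀ j, B.μ j * B.a j ≠ 0 := fun j =>
    mul_ne_zero (hB.pre.sm j).1 (by exact_mod_cast (hB.sqf j).ne_zero)
  refine ⟨δ / 32 / (2 * C) ^ 2, by positivity, ?_⟩
  filter_upwards [(Nat.tendsto_div_const_atTop (n := C) (by omega)).eventually
    (exists_scale n M (J₀ + J₁) t), eventually_ge_atTop C] with H hS hH
  obtain ⟨S, h1, h3, h4, hR, hZ⟩ := hS
  obtain ⟨⟨e, hA⟩, hG⟩ := ht S h1 h3 h4 hR
  have hG' := hG e hA
  have hZH : C * S.Z ≤ H := hZ ▸ Nat.mul_div_le _ _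
  have hHZ : (H : ℝ) ≤ 2 * C * S.Z := by
    have k1 : H < C * (S.Z + 1) := hZ ▸ Nat.lt_mul_div_succ _ hC
    have k2 : 1 ≤ S.Z := hZ ▸ Nat.div_pos hH hC
    have k3 : H ≤ 2 * C * S.Z := by nlinarith
    exact_mod_cast k3
  refine le_trans ?_ (hG'.trans (Nat.cast_le.2 (card_le_card_of_injOn v (fun l hl => ?_)
    fun l hl l' hl' h => ?_)))
  · rw [div_mul_eq_mul_div, div_le_iff₀ (by positivity)]
    calc δ / 32 * (H : ℝ) ^ 2 ≤ δ / 32 * (2 * C * S.Z) ^ 2 := by gcongr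
      _ = _ := by ring
  · obtain ⟨hl, hK⟩ := mem_filter.1 (mem_coe.1 hl)
    have ad := adm_of_mem (hR.par e) hl
    obtain ⟨b1, -, -, -, hsh⟩ := mem_AA.1 hl
    obtain ⟨v1, v2⟩ := hv l ad
    obtain ⟨c1, c2⟩ := hCb S.Z l (v l) (fun j => (b1 j).2) v2
    have c3 : (C * S.Z : ℤ) ≤ H := by exact_mod_cast hZH
    exact mem_coe.2 (mem_filter.2 ⟨mem_product.2 ⟨mem_Icc.2 (abs_le.1 (c1.trans c3)),
      mem_Icc.2 (abs_le.1 (c2.trans c3))⟩, v1,
      good n r F B Fr M hF h3F.card hB hM hFr hk l ad (fun j => (hsh j).one_lt) hK _ v2⟩)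
  · have a1 := (hv l (adm_of_mem (hR.par e) (mem_filter.1 (mem_coe.1 hl)).1)).2
    have a2 := (hv l' (adm_of_mem (hR.par e) (mem_filter.1 (mem_coe.1 hl')).1)).2
    funext j
    refine Nat.cast_injective (R := ℤ) (mul_left_cancel₀ (hw j) ?_)
    rw [← a1, ← a2, h]

open FIN3 in
theorem jin3 : Main30Stmt → Main3Stmt := by
  classical
  intro h n r F v₀ hF
  obtain ⟨c, hc, h⟩ := h n r F v₀ hF
  obtain ⟨K, hK, hj⟩ := fibre_jv2 hF.h0
  have hK' : (0 : ℝ) < K := by exact_mod_cast hK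
  refine ⟨c / K, by positivity, h.mono fun H h => ?_⟩
  set G := (Icc (-H : ℤ) H ×ˢ Icc (-H : ℤ) H).filter fun v : ℤ × ℤ =>
    IsCoprime v.1 v.2 ∧ Good r (F.fibre v) with hG
  obtain ⟨T, t1, t2, t3⟩ := exists_subset_injOn_image_eq_of_surjOn (G : Set (ℤ × ℤ))
    (G.image fun v => jv (F.fibre v)) (f := fun v => jv (F.fibre v))
    (by rw [coe_image]; exact Set.surjOn_image _ _)
  have h1 := card_le_mul_card_image (f := fun v => jv (F.fibre v)) G K fun j _ =>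
    hj _ j fun v hv => by
      obtain ⟨k1, k2⟩ := mem_filter.1 hv
      obtain ⟨-, k4, k5⟩ := mem_filter.1 k1
      exact ⟨k4, k5.1, k2⟩
  rw [← t3, card_image_of_injOn t2] at h1
  have h2 : (G.card : ℝ) ≤ K * T.card := by exact_mod_cast h1
  refine ⟨T, fun v hv => (mem_filter.1 (t1 hv)).1, ?_, fun v hv => (mem_filter.1 (t1 hv)).2,
    fun v hv w hw _ _ e => t2 hv hw (by rwa [j_eq_jv, j_eq_jv] at e)⟩
  rw [div_mul_eq_mul_div, div_le_iff₀ hK']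
  linarith

end Pool.Agent.MP_a43263_nt.RH

end
end MrgPart2

-- marker of a merged file
example : 731051 + 19957 = 731051 + 19957 := rfl
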