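import Pool.Agent.MP_a43263_nt.RH.Spec
import Pool.Agent.MP_a43263_nt.RG.Cert
import Pool.Agent.MP_a43263_nt.RG.Sym
import Pool.Agent.MP_a43263_nt.RG.Kil
import Pool.Agent.MP_a43263_nt.RH.OneFin
import Pool.Agent.MP_a43263_nt.RG.Mkv
import Pool.Agent.MP_a43263_nt.RG.Geo
import Pool.Agent.MP_a43263_nt.RG.Good
import Pool.Agent.MP_a43263_nt.RG.Tools
import Pool.Agent.MP_a43263_nt.RH.Hso
import Pool.Agent.MP_a43263_nt.RH.Hs2
import Pool.Agent.MP_a43263_nt.RH.Pf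
import Pool.Agent.MP_a43263_nt.RH.Frame
import Pool.Agent.MP_a43263_nt.RH.Const
import Pool.Agent.MP_a43263_nt.RH.Mat
import Pool.Agent.MP_a43263_nt.RH.Loc
import Pool.Agent.MP_a43263_nt.RH.Par
import Pool.Agent.MP_a43263_nt.RH.Lya
import Pool.Agent.MP_a43263_nt.RH.Osc
import Pool.Agent.MP_a43263_nt.RH.Pty
import Pool.Agent.MP_a43263_nt.RH.Base
import Pool.Agent.MP_a43263_nt.RH.Br

-- ======== part 0: formerly Pool.Agent.MP_a43263_nt.RH.Grp
section MrgPart0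

/-! PROJECT RANKG, THEOREM G: soluble coverings form a group. -/

namespace Pool.Agent.MP_a43263_nt.RH

theorem grp : GRPStmt := fun _ _ _ _ _ _ _ _ _ ha hb hab n2 n3 m2 m3 h k =>
  RG.Cert.cover_mul ha hb hab n2 n3 m2 m3 h k

end Pool.Agent.MP_a43263_nt.RH

end MrgPart0

-- ======== part 1: formerly Pool.Agent.MP_a43263_nt.RH.Sym
section MrgPart1

/-! PROJECT RANKG, THEOREM G, modules KC2 and SYM2: rows of the descent matrix as Jacobi
symbols. -/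

set_option autoImplicit false

noncomputable section

namespace Pool.Agent.MP_a43263_nt.RH

open Finset
open R2 (sg chi)
open RG

namespace KC2

variable {n : ℕ} {E : Dat2 n}

theorem sgn_val (gp : GPStmt) (hE : E.Ok) (j : Fin 3) {a : Gen n} (ha : Ord E.D.M a) :
    ∃ σ : ℤ, (σ = 1 ∨ σ = -1) ∧ E.G j a = σ * if a.1.1 ≠ j then (a.2 : ℤ) else 1 := by
  rw [hE.ord j a ha]
  by_cases h : a.1.1 = j
  · subst h
    exact ⟨_, (gp.1 a.1.1 a.1.1 a.2).2, by simp⟩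
  · rw [if_pos h]
    rcases (gp.1 a.1.1 j a.2).1 (Ne.symm h) with e | e
    · exact ⟨1, .inl rfl, by rw [e, one_mul]⟩
    · exact ⟨-1, .inr rfl, by rw [e, neg_one_mul]⟩

theorem part2 (gp : GPStmt) (hE : E.Ok) (x : Finset (Gen n)) (j : Fin 3)
    (hx : ∀ a ∈ x, a ∈ E.W0 ∨ Ord E.D.M a) : Gv E.G j x ≠ 0 ∧
    ∀ p : ℕ, p.Prime → (p : ℤ) ∣ Gv E.G j x → p ∣ E.D.M ∨ ∃ a ∈ x, Ord E.D.M a ∧ a.2 = p := by
  refine ⟨prod_ne_zero_iff.2 fun a ha => ?_, fun p hp hd => ?_⟩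
  · rcases hx a ha with h | h
    · exact ((hE.fix a h).2.2 j).1
    · obtain ⟨σ, hσ, e⟩ := sgn_val gp hE j h
      have := h.2.1.ne_zero
      rw [e]
      rcases hσ with rfl | rfl <;> split_ifs <;> simp [this]
  · have hp' := Nat.prime_iff_prime_int.1 hp
    obtain ⟨a, ha, hd⟩ := (Prime.dvd_finsetProd_iff hp' _).1 hd
    rcases hx a ha with h | h
    · exact .inl (((hE.fix a h).2.2 j).2 p hp hd)
    · obtain ⟨σ, hσ, e⟩ := sgn_val gp hE j h
      have h1 : (p : ℤ) ∣ if a.1.1 ≠ j then (a.2 : ℤ) else 1 := by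
        rw [e] at hd
        rcases hσ with rfl | rfl
        · rwa [one_mul] at hd
        · rwa [neg_one_mul, dvd_neg] at hd
      split_ifs at h1
      · exact .inr ⟨a, ha, h, ((Nat.prime_dvd_prime_iff_eq hp h.2.1).1
          (Int.natCast_dvd_natCast.1 h1)).symm⟩
      · exact absurd h1 hp'.not_dvd_one

theorem part3 (gp : GPStmt) (hE : E.Ok) {W x : Finset (Gen n)} (hW : ∀ a ∈ W, Ord E.D.M a)
    (hD : RG.Dist W) (hx : x ⊆ E.W0 ∪ W) {a : Gen n} (ha : a ∈ x) (h0 : a ∉ E.W0) {j : Fin 3}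
    (hj : j ≠ a.1.1) {C : ℤ} (hC : Smooth E.D.M C) : ¬IsSquare (Gv E.G j x * C) := by
  rintro ⟨r, hr⟩
  have haW := (mem_union.1 (hx ha)).resolve_left h0
  have hO := hW a haW
  have hp' := Nat.prime_iff_prime_int.1 hO.2.1
  obtain ⟨σ, hσ, e⟩ := sgn_val gp hE j hO
  rw [if_pos hj.symm] at e
  rw [Gv, ← mul_prod_erase _ _ ha, e] at hr
  have h1 : (a.2 : ℤ) ∣ r := (hp'.dvd_or_dvd (a := r) (b := r) (by
    rw [← hr]; exact ((dvd_mul_left _ _).mul_right _).mul_right _)).elim id id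
  obtain ⟨s, rfl⟩ := h1
  have h2 : (a.2 : ℤ) ∣ σ * (Gv E.G j (x.erase a) * C) :=
    ⟨s * s, mul_left_cancel₀ hp'.ne_zero (by rw [Gv]; linear_combination hr)⟩
  have h3 : (a.2 : ℤ) ∣ Gv E.G j (x.erase a) * C := by
    rcases hσ with rfl | rfl
    · rwa [one_mul] at h2
    · rwa [neg_one_mul, dvd_neg] at h2
  rcases hp'.dvd_or_dvd h3 with h4 | h4
  · rcases (part2 gp hE (x.erase a) j fun b hb =>
      (mem_union.1 (hx (mem_of_mem_erase hb))).imp_right (hW b)).2 _ hO.2.1 h4 with h5 | h5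
    · exact hO.2.2 h5
    · obtain ⟨b, hb, hb1, hb2⟩ := h5
      rcases mem_union.1 (hx (mem_of_mem_erase hb)) with h6 | h6
      · exact hb1.1 (hE.fix b h6).1
      · exact ne_of_mem_erase hb (hD b h6 a haW hb2)
  · exact hO.2.2 (hC.2 _ hO.2.1 h4)

end KC2

theorem kc : GPStmt → KC2Stmt := by
  intro gp n E hE
  refine ⟨fun x b hb hx => ?_, KC2.part2 gp hE, fun W x hW hD hx =>
    ⟨fun a ha h0 j hj C hC => KC2.part3 gp hE hW hD hx ha h0 hj hC, fun i j hij hi hj => ?_⟩,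
    fun W j hW => ?_, fun x x' j => ?_, fun m h0 hm => ?_⟩
  · rw [prod_congr rfl fun a ha => hE.row a b hb (hx a ha), KC.jac_prod]
    rfl
  · refine hE.ind x (fun a ha => ?_) i j hij hi hj
    by_contra h0
    have h1 : Smooth E.D.M 1 := SYM.Sml.one
    by_cases e : i = a.1.1
    · exact KC2.part3 gp hE hW hD hx ha h0 (j := j) (fun e' => hij (e.trans e'.symm)) h1
        (by rwa [mul_one])
    · exact KC2.part3 gp hE hW hD hx ha h0 e h1 (by rwa [mul_one])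
  · have h1 : ∀ a : Gen n, ∃ σ : ℤ, (σ = 1 ∨ σ = -1) ∧
        (a ∈ W → E.G j a = σ * if a.1.1 ≠ j then (a.2 : ℤ) else 1) := fun a => by
      by_cases ha : a ∈ W
      · obtain ⟨σ, h1, h2⟩ := KC2.sgn_val gp hE j (hW a ha)
        exact ⟨σ, h1, fun _ => h2⟩
      · exact ⟨1, .inl rfl, fun h => absurd h ha⟩
    choose σ h1 h2 using h1
    refine ⟨∏ a ∈ W, σ a, KC.prod_pm _ fun a _ => h1 a, ?_⟩
    rw [Gv, prod_congr rfl h2, prod_mul_distrib, prod_filter]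
  · unfold Gv
    rw [symmDiff_def, sup_eq_union, prod_union disjoint_sdiff_sdiff,
      ← prod_inter_mul_prod_sdiff x x', ← prod_inter_mul_prod_sdiff x' x, inter_comm x' x]
    ring
  · obtain ⟨a, b, e, hs⟩ := Nat.sq_mul_squarefree m.natAbs
    have e' : (m.natAbs : ℤ) = a * (b : ℤ) ^ 2 := by rw [← e]; push_cast; ring
    rcases Int.natAbs_eq m with h | h
    · refine ⟨a, b, h.trans e', by simpa using hs, fun k => hm ⟨b, ?_⟩⟩
      rw [h, e', k, one_mul, sq]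
    · refine ⟨-a, b, by rw [neg_mul, ← e', ← h], by simpa using hs, by omega⟩

namespace SYM2

open SYM

variable {n : ℕ} {E : Dat2 n} {l : Ix n → ℕ}

theorem ones_eq (hE : E.Ok) (l : Ix n → ℕ) (y : Finset (Ix n)) : ones (E.VV l) y =
    y.biUnion fun h => (l h).primeFactors.image fun p => (tg h, p) := by
  ext a
  simp only [ones, Dat2.VV, gens, mem_filter, mem_union, mem_biUnion, mem_image, mem_univ,
    true_and]
  constructor
  · rintro ⟨h | ⟨h, p, hp, rfl⟩, k, hk, e⟩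
    · have := (hE.fix a h).1
      rw [← e] at this
      exact absurd this (Option.some_ne_none _)
    · exact ⟨k, hk, p, tg_inj e ▸ hp, by rw [e]⟩
  · rintro ⟨h, hh, p, hp, rfl⟩
    exact ⟨.inr ⟨h, p, hp, rfl⟩, h, hh, rfl⟩

theorem prod_ones {R : Type} [CommMonoid R] (hE : E.Ok) (l : Ix n → ℕ) (y : Finset (Ix n))
    (F : Gen n → R) : ∏ a ∈ ones (E.VV l) y, F a =
      ∏ h ∈ y, ∏ p ∈ (l h).primeFactors, F (tg h, p) := by
  rw [ones_eq hE, prod_biUnion]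
  · exact prod_congr rfl fun h _ => prod_image fun _ _ _ _ e => congrArg Prod.snd e
  · intro h _ k _ hk
    refine disjoint_left.2 fun a h1 h2 => hk ?_
    obtain ⟨p, -, rfl⟩ := mem_image.1 h1
    obtain ⟨q, -, e⟩ := mem_image.1 h2
    exact (tg_inj (congrArg Prod.fst e)).symm

theorem ord_of (hl : Adm E.D l) {h : Ix n} {p : ℕ} (hp : p.Prime) (hd : p ∣ l h) :
    Ord E.D.M (tg h, p) :=
  ⟨Option.some_ne_none _, hp, fun e =>
    hp.ne_one (Nat.eq_one_of_dvd_coprimes (cop_of (hl.one h)) hd e)⟩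

theorem part2 (hE : E.Ok) (hl : Adm E.D l) (y : Finset (Ix n)) {b : Gen n} (hb : b ∈ E.W0) :
    ∏ a ∈ ones (E.VV l) y, E.g a b = 1 := by
  rw [prod_ones hE]
  refine prod_eq_one fun h _ => ?_
  rw [← jac_sml (hl.one h) ((hE.fix b hb).2.2 h.1), ← jac_sqf (hl.sqf h)]
  refine prod_congr rfl fun p hp => ?_
  rw [hE.sgn.1, hE.row b _ (ord_of hl (Nat.prime_of_mem_primeFactors hp)
    (Nat.dvd_of_mem_primeFactors hp)) (.inl hb)]
  rfl

/-- the diagonal factor -/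
def dc (D : Dat n) (y : Finset (Ix n)) (k : Ix n) : ℤ :=
  if k ∈ y then (if k.1 = 0 then -D.c k else D.c k) else 1

theorem sml_dc (hE : E.Ok) (y : Finset (Ix n)) (k : Ix n) : Sml E.D.M (dc E.D y k) := by
  have h : Sml E.D.M (E.D.c k) := ⟨hE.ok.c0 k, hE.ok.cM k⟩
  unfold dc
  split_ifs
  exacts [h.neg, h, Sml.one]

theorem entry (hE : E.Ok) (hl : Adm E.D l) {h k : Ix n} {p q : ℕ} (hp : p.Prime) (hd : p ∣ l k)
    (hq : q ∈ (l h).primeFactors) (hne : q ≠ p) :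
    E.g (tg h, q) (tg k, p) = jacobiSym (Gp h.1 q k.1) p := by
  have hO := ord_of hl (Nat.prime_of_mem_primeFactors hq) (Nat.dvd_of_mem_primeFactors hq)
  rw [hE.row _ _ (ord_of hl hp hd) (.inr ⟨hO, hne⟩), hE.ord _ _ hO]
  rfl

theorem inner (gp : GPStmt) (hE : E.Ok) (hl : Adm E.D l) (h k : Ix n) {p : ℕ} (hp : p.Prime)
    (hd : p ∣ l k) : ∏ q ∈ (l h).primeFactors, E.g (tg h, q) (tg k, p) =
      (if h = k then jacobiSym (if k.1 = 0 then -E.D.c k else E.D.c k) p else 1) *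
        if h.1 ≠ k.1 then jacobiSym (l h) p else 1 := by
  have h4 : l h % 4 = 1 := (hl.one h).of_dvd (Dvd.dvd.mul_right (by norm_num) _)
  have h2 := gp.2.1 h.1 k.1 (l h) (hl.sqf h) h4
  by_cases e : h = k
  · subst e
    have hm : p ∈ (l h).primeFactors := Nat.mem_primeFactors.2 ⟨hp, hd, (hl.sqf h).ne_zero⟩
    rw [if_pos rfl, ← mul_prod_erase _ _ hm] at h2
    have h3 : ∏ q ∈ (l h).primeFactors.erase p, Gp h.1 q h.1 = Gp h.1 p h.1 := by
      rcases (gp.1 h.1 h.1 p).2 with e | e <;> rw [e] at h2 ⊢ <;> linarith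
    rw [if_pos rfl, if_neg (not_not.2 rfl), mul_one, ← mul_prod_erase _ _ hm,
      prod_congr rfl fun q hq => entry hE hl hp hd (mem_of_mem_erase hq) (ne_of_mem_erase hq),
      KC.jac_prod, h3, gp.2.2.2.2 _ _ (prime_odd hl hd), hE.dia h p hp (ord_of hl hp hd).2.2]
    split_ifs
    · rw [← neg_one_mul (E.D.c h), jacobiSym.mul_left, mul_comm]
    · rw [mul_one]
  · rw [if_neg e, one_mul, prod_congr rfl fun q hq => entry hE hl hp hd hq fun e' =>
      hp.ne_one (Nat.eq_one_of_dvd_coprimes (hl.cop h k e)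
        (e' ▸ Nat.dvd_of_mem_primeFactors hq) hd), KC.jac_prod, h2]
    by_cases e' : h.1 = k.1
    · rw [if_pos e'.symm, if_neg (not_not.2 e'), jacobiSym.one_left]
    · rw [if_neg (Ne.symm e'), if_pos e']

theorem row0 (gp : GPStmt) (hE : E.Ok) (hl : Adm E.D l) (y : Finset (Ix n)) (k : Ix n) {p : ℕ}
    (hp : p.Prime) (hd : p ∣ l k) : ∏ a ∈ ones (E.VV l) y, E.g a (tg k, p) =
      jacobiSym (dc E.D y k) p * ∏ h ∈ y.filter (fun h => h.1 ≠ k.1), jacobiSym (l h) p := by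
  rw [prod_ones hE, prod_congr rfl fun h _ => inner gp hE hl h k hp hd, prod_mul_distrib,
    prod_ite_eq', prod_filter, dc]
  split_ifs <;> first | rfl | rw [jacobiSym.one_left]

theorem row1 (gp : GPStmt) (hE : E.Ok) (hl : Adm E.D l) (y : Finset (Ix n)) {k k' : Ix n}
    (hk : k' ≠ k) {p : ℕ} (hp : p.Prime) (hd : p ∣ l k) :
    ∏ a ∈ ones (E.VV l) y, E.g a (tg k, p) = jacobiSym (Cy2 E.D y k) p *
        (jacobiSym (E.D.e k' - E.D.e k) p * jacobiSym (l k') p) ^ Yne k.1 y := by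
  rw [row0 gp hE hl y k hp hd, prod_congr rfl fun h _ => change hE.ok hl h hk hd,
    prod_mul_distrib, prod_const, KC.jac_prod, ← mul_assoc, ← jacobiSym.mul_left]
  rfl

theorem jac_Cy (hE : E.Ok) (hl : Adm E.D l) (y : Finset (Ix n)) (k : Ix n) :
    jacobiSym (Cy2 E.D y k) (l k) = 1 := by
  rw [Cy2, jacobiSym.mul_left, ← KC.jac_prod]
  rw [prod_eq_one fun h hh => jac_sml (hl.one k) (sml_e hE.ok ?_), mul_one]
  · exact jac_sml (hl.one k) (sml_dc hE y k)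
  · rintro rfl
    exact (mem_filter.1 hh).2 rfl

end SYM2

open SYM in
theorem sym : GPStmt → KC2Stmt → SYM2Stmt := by
  intro gp _ n E hE
  have hD := hE.ok
  refine ⟨fun y y' f g hfg => ⟨1, ∑ k ∈ y', Yne k.1 y, .inl rfl, fun l hl => ?_⟩,
    fun y b hb l hl => SYM2.part2 hE hl y hb, fun y k k' hk => ⟨Cy2 E.D y k *
      (E.D.e k' - E.D.e k) ^ Yne k.1 y, fun l hl p hp hd => ?_⟩, fun y hy k l hl p hp hd => ?_⟩
  · rw [chi, prod_comm, SYM2.prod_ones hE, one_mul, ← prod_pow_eq_pow_sum]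
    refine prod_congr rfl fun k _ => ?_
    rw [prod_congr rfl fun p hp => SYM2.row1 gp hE hl y (other k)
      (Nat.prime_of_mem_primeFactors hp) (Nat.dvd_of_mem_primeFactors hp), prod_mul_distrib,
      prod_pow, prod_mul_distrib, jac_sqf (hl.sqf k), jac_sqf (hl.sqf k), jac_sqf (hl.sqf k),
      SYM2.jac_Cy hE hl, jac_sml (hl.one k) (sml_e hD (other k)), one_mul, one_mul,
      all_eq hD hl hfg (other k)]
  · rw [SYM2.row1 gp hE hl y hk.symm hp hd, jacobiSym.mul_left, jacobiSym.pow_left, mul_pow,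
      mul_assoc]
  · obtain ⟨m, hm⟩ := (mem_filter.1 hy).2 k.1
    have h1 := jacobiSym.sq_one ((sml_e hD (other k)).gcd
      ((cop_of (hl.one k)).coprime_dvd_left hd))
    have h2 := jacobiSym.sq_one (a := (l (k.1 + 1, k.2) : ℤ)) (b := p) (by
      rw [Int.gcd_natCast_natCast]
      exact (hl.cop _ _ (other k)).coprime_dvd_right hd)
    rw [SYM2.row1 gp hE hl y (other k) hp hd, hm, ← two_mul, pow_mul, mul_pow, h1, h2, one_mul,
      one_pow, mul_one]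

end Pool.Agent.MP_a43263_nt.RH

end
end MrgPart1

-- ======== part 2: formerly Pool.Agent.MP_a43263_nt.RH.Kil
section MrgPart2

/-! PROJECT RANKG, THEOREM G: classes that are not geometric are killed by the medium primes. -/

set_option autoImplicit false

noncomputable section

namespace Pool.Agent.MP_a43263_nt.RH

open Finset Filter
open R2 (Sgn chi Ker sg pri PP chs Sc MERStmt mem_pri mem_PP mem_Ker prod_sgn prod_symmDiff
  PP_eq_pri Ker_card_pos)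
open RG

namespace Kil2

variable {n : ℕ}

theorem dvd_Cy {D : Dat n} (hD : D.Ok) (y : Finset (Ix n)) (k : Ix n) {p : ℕ} (hp : p.Prime)
    (h : (p : ℤ) ∣ Cy2 D y k) : p ∣ D.M := by
  have hp' : Prime (p : ℤ) := Nat.prime_iff_prime_int.1 hp
  rcases hp'.dvd_or_dvd h with h | h
  · split_ifs at h
    · exact hD.cM k p hp (dvd_neg.1 h)
    · exact hD.cM k p hp h
    · exact absurd (isUnit_of_dvd_one h) hp'.not_isUnit
  · obtain ⟨j, hj, hd⟩ := (Prime.dvd_finsetProd_iff hp' _).1 h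
    exact Int.natCast_dvd_natCast.1
      (hd.trans (hD.dv j k fun e => (mem_filter.1 hj).2 (congrArg Prod.fst e)))

open Classical in
/-- one vector -/
theorem vec (hK : KC2Stmt) {E : Dat2 n} (hD : E.Ok) {Y0 Y Y' J : ℕ} (hMY : E.D.M ≤ Y)
    (h0 : Y0 ≤ Y) (hθ : J * Real.log 128 - 0.1 ≤ ∑ p ∈ pri Y Y', (1 : ℝ) / p)
    {W : Finset (Gen n)} (hW : W ⊆ TT n (PP E.D.M 0 Y0))
    (hX : ¬Exc E.D.M 1 Y Y' W) {y : Finset (Ix n)} {U : Finset (Gen n)} (hU : U ⊆ E.W0 ∪ W)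
    (hg : ¬Geo2 E y U) :
    ∑ W' ∈ (TT n (PP E.D.M Y Y')).powerset, Wt W' *
      (if ∀ (k : Ix n) (p : ℕ), (tg k, p) ∈ W' →
        ∏ a ∈ U, E.g a (tg k, p) = jacobiSym (Cy2 E.D y k) p then 1 else 0) ≤
      2 / 2 ^ J * Mass n (PP E.D.M Y Y') := by
  have hV : ∀ a ∈ W, Ord E.D.M a := fun a ha =>
    ⟨(mem_TT.1 (hW ha)).1, (mem_PP.1 (mem_TT.1 (hW ha)).2).2.2.1,
      (mem_PP.1 (mem_TT.1 (hW ha)).2).2.2.2⟩
  have hn : 1 ≤ n := by have := hD.ok.two; omega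
  obtain ⟨k, hk⟩ := not_forall.1 hg
  obtain ⟨G, m, hN, hsq, hG⟩ := RG.Kil.kernel hk
  have hpr : ∀ p ∈ G.natAbs.primeFactors, p ∣ E.D.M ∨ ∃ t, (t, p) ∈ W := by
    intro p hp
    have hp1 := Nat.prime_of_mem_primeFactors hp
    have hp' : Prime (p : ℤ) := Nat.prime_iff_prime_int.1 hp1
    have h1 : (p : ℤ) ∣ Gv E.G k.1 U * Cy2 E.D y k := by
      rw [hN]
      exact (Int.natCast_dvd.2 (Nat.dvd_of_mem_primeFactors hp)).mul_right _
    rcases hp'.dvd_or_dvd h1 with h2 | h2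
    · rcases ((hK n E hD).2.1 U k.1 fun a ha =>
        (mem_union.1 (hU ha)).imp_right (hV a)).2 p hp1 h2 with h3 | ⟨a, ha, h3, rfl⟩
      · exact .inl h3
      · rcases mem_union.1 (hU ha) with h4 | h4
        · exact absurd (hD.fix a h4).1 h3.1
        · exact .inr ⟨a.1, h4⟩
    · exact .inl (dvd_Cy hD.ok y k hp1 h2)
  have e5 : chs G Y Y' ≤ 1 := (le_abs_self _).trans (not_lt.1 fun h => hX ⟨G, hsq, hG, hpr, h⟩)
  have hrow : ∀ p ∈ PP E.D.M Y Y', ∏ a ∈ U, E.g a (tg k, p) = jacobiSym (Gv E.G k.1 U) p := by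
    intro p hp
    obtain ⟨e2, -, e3, e4⟩ := mem_PP.1 hp
    refine (hK n E hD).1 U (tg k, p) ⟨tg_ne_none k, e3, e4⟩ fun a ha =>
      (mem_union.1 (hU ha)).imp_right fun hb => ⟨hV a hb, fun e => ?_⟩
    have := (mem_PP.1 (mem_TT.1 (hW hb)).2).2.1
    have e' : a.2 = p := e
    omega
  have hsg : ∀ p ∈ PP E.D.M Y Y', jacobiSym G p = 1 ∨ jacobiSym G p = -1 := by
    intro p hp
    obtain ⟨e2, -, e3, e4⟩ := mem_PP.1 hp
    refine jacobiSym.eq_one_or_neg_one ?_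
    rw [Int.gcd, Int.natAbs_natCast, Nat.gcd_comm]
    refine (e3.coprime_iff_not_dvd).2 fun h => ?_
    rcases hpr p (Nat.mem_primeFactors.2 ⟨e3, h, hsq.ne_zero⟩) with h1 | ⟨t, h1⟩
    · exact e4 h1
    · have := (mem_PP.1 (mem_TT.1 (hW h1)).2).2.1
      omega
  let Q := (PP E.D.M Y Y').filter fun p => jacobiSym G p = -1
  let F : Finset (Gen n) := Q.image fun p => (tg k, p)
  have hF : F ⊆ TT n (PP E.D.M Y Y') := by
    intro b hb
    obtain ⟨p, hp, rfl⟩ := mem_image.1 hb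
    exact mem_TT.2 ⟨tg_ne_none k, (mem_filter.1 hp).1⟩
  have hw : ∀ b ∈ TT n (PP E.D.M Y Y'), 0 ≤ wt n b.2 := fun b hb =>
    (wt_pos (PP_gt hD.ok.sm (mem_TT.1 hb).2)).le
  have e1 : ∑ W' ∈ (TT n (PP E.D.M Y Y')).powerset, Wt W' *
      (if ∀ (k : Ix n) (p : ℕ), (tg k, p) ∈ W' →
        ∏ a ∈ U, E.g a (tg k, p) = jacobiSym (Cy2 E.D y k) p then 1 else 0) ≤
      ∏ b ∈ TT n (PP E.D.M Y Y') \ F, (1 + wt n b.2) := by
    simp only [mul_ite, mul_one, mul_zero]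
    rw [← sum_filter, prod_one_add]
    refine sum_le_sum_of_subset_of_nonneg (fun W' hW' => ?_) fun W' hW' _ =>
      Wt_nonneg hD.ok.sm ((mem_powerset.1 hW').trans sdiff_subset)
    obtain ⟨k1, k2⟩ := mem_filter.1 hW'
    refine mem_powerset.2 fun b hb => mem_sdiff.2 ⟨mem_powerset.1 k1 hb, fun hbF => ?_⟩
    obtain ⟨p, hp, rfl⟩ := mem_image.1 hbF
    have h1 := k2 k p hb
    have h2 := prod_sgn U fun a _ => hD.sgn.2 a (tg k, p)
    have h3 : jacobiSym (Gv E.G k.1 U * Cy2 E.D y k) p = 1 := by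
      rw [jacobiSym.mul_left, ← h1, ← hrow p (mem_filter.1 hp).1]
      rcases h2 with h2 | h2 <;> rw [h2] <;> norm_num
    rw [hN, jacobiSym.mul_left, jacobiSym.pow_left, (mem_filter.1 hp).2] at h3
    nlinarith [sq_nonneg (jacobiSym m p)]
  have e2 : (∏ b ∈ TT n (PP E.D.M Y Y') \ F, (1 + wt n b.2)) * ∏ b ∈ F, (1 + wt n b.2) =
      Mass n (PP E.D.M Y Y') := by
    rw [prod_sdiff hF, Mass, ← prod_TT _ fun p => 1 + wt n p]
  have e3 : Real.exp (∑ p ∈ Q, (1 : ℝ) / p) ≤ ∏ b ∈ F, (1 + wt n b.2) := by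
    rw [prod_image fun _ _ _ _ e => (Prod.mk.inj e).2, Real.exp_sum]
    exact prod_le_prod (fun _ _ => (Real.exp_pos _).le) fun p hp =>
      RG.Kil.exp_le hn (PP_gt hD.ok.sm (mem_filter.1 hp).1)
  have e4 : 2 * ∑ p ∈ Q, (1 : ℝ) / p = ∑ p ∈ pri Y Y', (1 : ℝ) / p - chs G Y Y' := by
    rw [chs, ← PP_eq_pri hD.ok.pos hMY, ← sum_sub_distrib, sum_filter, mul_sum]
    refine sum_congr rfl fun p hp => ?_
    rcases hsg p hp with k | k <;> rw [k] <;> norm_num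
    ring
  have e6 : (2 : ℝ) ^ J / 2 ≤ ∏ b ∈ F, (1 + wt n b.2) := by
    refine le_trans ?_ e3
    have l1 : Real.log 128 = 7 * Real.log 2 := by
      rw [show (128 : ℝ) = 2 ^ 7 by norm_num, Real.log_pow]; norm_num
    have l2 := Real.log_two_gt_d9
    have l3 : (2 : ℝ) ^ J / 2 = Real.exp (J * Real.log 2 - Real.log 2) := by
      rw [Real.exp_sub, ← Real.log_pow, Real.exp_log (by positivity), Real.exp_log (by norm_num)]
    have l4 : 0 ≤ J * Real.log 2 := mul_nonneg (Nat.cast_nonneg J) (by linarith)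
    rw [l3, Real.exp_le_exp]
    rw [l1] at hθ
    linarith
  have e7 : 0 ≤ ∏ b ∈ TT n (PP E.D.M Y Y') \ F, (1 + wt n b.2) :=
    prod_nonneg fun b hb => by linarith [hw b (mem_sdiff.1 hb).1]
  refine e1.trans ?_
  rw [← e2, div_mul_eq_mul_div, le_div_iff₀ (by positivity)]
  nlinarith [mul_le_mul_of_nonneg_left e6 e7]

open Classical in
/-- the vectors with prescribed rows -/
def coset (E : Dat2 n) (W : Finset (Gen n)) (y : Finset (Ix n)) : Finset (Finset (Gen n)) :=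
  (E.W0 ∪ W).powerset.filter fun U => (∀ b ∈ E.W0, ∏ a ∈ U, E.g a b = 1) ∧
    ∀ (k : Ix n) (p : ℕ), (tg k, p) ∈ W → ∏ a ∈ U, E.g a (tg k, p) = jacobiSym (Cy2 E.D y k) p

theorem mem_coset {E : Dat2 n} {W U : Finset (Gen n)} {y : Finset (Ix n)} : U ∈ coset E W y ↔
    U ⊆ E.W0 ∪ W ∧ (∀ b ∈ E.W0, ∏ a ∈ U, E.g a b = 1) ∧
    ∀ (k : Ix n) (p : ℕ), (tg k, p) ∈ W → ∏ a ∈ U, E.g a (tg k, p) = jacobiSym (Cy2 E.D y k) p := by
  classical
  simp only [coset, mem_filter, mem_powerset]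

theorem card_coset {E : Dat2 n} (hD : E.Ok) {P : Finset ℕ} {W : Finset (Gen n)} (hW : W ⊆ TT n P)
    (y : Finset (Ix n)) : (coset E W y).card ≤ (Ker E.g (E.W0 ∪ W)).card := by
  rcases (coset E W y).eq_empty_or_nonempty with h | ⟨U0, h0⟩
  · simp [h]
  obtain ⟨a1, a2, a3⟩ := mem_coset.1 h0
  refine card_le_card_of_injOn (fun U => symmDiff U U0) (fun U hU => ?_)
    fun U _ U' _ e => symmDiff_left_injective U0 e
  obtain ⟨b1, b2, b3⟩ := mem_coset.1 (mem_coe.1 hU)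
  refine mem_coe.2 (mem_Ker.2 ⟨symmDiff_le_sup.trans (sup_le b1 a1), fun b hb => ?_⟩)
  rw [prod_symmDiff fun a => hD.sgn.2 a b]
  rcases mem_union.1 hb with hb | hb
  · rw [a2 b hb, b2 b hb, one_mul]
  · obtain ⟨t, p⟩ := b
    obtain ⟨k, rfl⟩ := exists_tg (mem_TT.1 (hW hb)).1
    have h2 := prod_sgn U0 fun a _ => hD.sgn.2 a (tg k, p)
    rw [b3 k p hb, ← a3 k p hb]
    rcases h2 with h2 | h2 <;> rw [h2] <;> norm_num

open Classical in
/-- one small configuration -/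
theorem conf (hK : KC2Stmt) {E : Dat2 n} (hD : E.Ok) {Y0 Y Y' J : ℕ} (T : ℕ) (hMY : E.D.M ≤ Y)
    (h0 : Y0 ≤ Y) (hθ : J * Real.log 128 - 0.1 ≤ ∑ p ∈ pri Y Y', (1 : ℝ) / p)
    {W : Finset (Gen n)} (hW : W ⊆ TT n (PP E.D.M 0 Y0)) :
    ∑ W' ∈ (TT n (PP E.D.M Y Y')).powerset, Wt W' *
      (if (Ker E.g (E.W0 ∪ W)).card ≤ T ∧ Bad2 E W W' then 1 else 0) ≤
      8 ^ n * T * Mass n (PP E.D.M Y Y') *
        (2 / 2 ^ J + if Exc E.D.M 1 Y Y' W then 2 ^ W.card else 0) := by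
  have m1 := one_le_Mass hD.ok.sm Y Y'
  by_cases hT : (Ker E.g (E.W0 ∪ W)).card ≤ T
  swap
  · simp only [hT, false_and, if_false, mul_zero, sum_const_zero]
    refine mul_nonneg (by positivity) (add_nonneg (by positivity) ?_)
    split_ifs <;> positivity
  have hT1 : (1 : ℝ) ≤ T := by exact_mod_cast (Ker_card_pos _).trans_le hT
  have hT2 : (1 : ℝ) ≤ 8 ^ n * T := one_le_mul_of_one_le_of_one_le (one_le_pow₀ (by norm_num)) hT1
  split_ifs with hE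
  · have h1 : ∑ W' ∈ (TT n (PP E.D.M Y Y')).powerset, Wt W' *
        (if (Ker E.g (E.W0 ∪ W)).card ≤ T ∧ Bad2 E W W' then 1 else 0) ≤
        Mass n (PP E.D.M Y Y') := by
      rw [← sum_Wt]
      refine sum_le_sum fun W' hW' => mul_le_of_le_one_right
        (Wt_nonneg hD.ok.sm (mem_powerset.1 hW')) ?_
      split_ifs <;> norm_num
    have h2 : (1 : ℝ) ≤ 2 / 2 ^ J + 2 ^ W.card :=
      le_add_of_nonneg_of_le (by positivity) (one_le_pow₀ (by norm_num))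
    refine h1.trans (le_trans ?_ (le_mul_of_one_le_right (by positivity) h2))
    exact le_mul_of_one_le_left (by linarith) hT2
  set X : Finset (Σ _ : Finset (Ix n), Finset (Gen n)) :=
    (Yc n).sigma fun y => (coset E W y).filter fun U => ¬Geo2 E y U with hX
  have h1 : ∑ W' ∈ (TT n (PP E.D.M Y Y')).powerset, Wt W' *
      (if (Ker E.g (E.W0 ∪ W)).card ≤ T ∧ Bad2 E W W' then 1 else 0) ≤
      ∑ W' ∈ (TT n (PP E.D.M Y Y')).powerset, ∑ x ∈ X, Wt W' *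
        (if ∀ (k : Ix n) (p : ℕ), (tg k, p) ∈ W' →
          ∏ a ∈ x.2, E.g a (tg k, p) = jacobiSym (Cy2 E.D x.1 k) p then 1 else 0) := by
    refine sum_le_sum fun W' hW' => ?_
    rw [← mul_sum]
    refine mul_le_mul_of_nonneg_left ?_ (Wt_nonneg hD.ok.sm (mem_powerset.1 hW'))
    have nn : ∀ x ∈ X, (0 : ℝ) ≤ if ∀ (k : Ix n) (p : ℕ), (tg k, p) ∈ W' →
        ∏ a ∈ x.2, E.g a (tg k, p) = jacobiSym (Cy2 E.D x.1 k) p then 1 else 0 := fun x _ => by
      split_ifs <;> norm_num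
    split_ifs with hb
    · obtain ⟨y, k1, U, k2, k3, k4, k5⟩ := hb.2
      have hx : (⟨y, U⟩ : Σ _ : Finset (Ix n), Finset (Gen n)) ∈ X :=
        mem_sigma.2 ⟨k1, mem_filter.2 ⟨mem_coset.2
          ⟨k2, k4, fun k p h => k5 k p (mem_union_left _ h)⟩, k3⟩⟩
      refine le_trans ?_ (single_le_sum nn hx)
      rw [if_pos fun k p h => k5 k p (mem_union_right _ h)]
    · exact sum_nonneg nn
  rw [sum_comm] at h1
  refine h1.trans ((sum_le_card_nsmul _ _ (2 / 2 ^ J * Mass n (PP E.D.M Y Y'))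
    fun x hx => ?_).trans ?_)
  · obtain ⟨k1, k2⟩ := mem_filter.1 (mem_sigma.1 hx).2
    exact vec hK hD hMY h0 hθ hW hE (mem_coset.1 k1).1 k2
  have h2 : (X.card : ℝ) ≤ 8 ^ n * T := by
    have : X.card ≤ 8 ^ n * T := by
      rw [hX, card_sigma]
      refine (sum_le_card_nsmul _ _ T fun y _ =>
        (card_filter_le _ _).trans ((card_coset hD hW y).trans hT)).trans ?_
      exact Nat.mul_le_mul_right _ (card_Yc_le n)
    exact_mod_cast this
  rw [nsmul_eq_mul, add_zero, mul_assoc (8 ^ n * T : ℝ), mul_comm (Mass _ _)]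
  exact mul_le_mul_of_nonneg_right h2 (by positivity)

end Kil2

theorem kil : KC2Stmt → MERStmt → EXPStmt → KIL2Stmt := by
  classical
  intro hK hm hE n E T J hD
  obtain ⟨C, hC⟩ := hm.1
  have v1 := ev_Y (n := n) (M := E.D.M) (J := J)
    (hE n E.D.M (128 ^ J) 1 (1 / 2 ^ J) hD.ok.pos hD.ok.sm one_pos (by positivity))
  have v2 := ev_Y (n := n) (M := E.D.M) (J := J) ((Real.tendsto_log_atTop.comp
    tendsto_natCast_atTop_atTop).eventually_ge_atTop (10 * |C|))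
  have v3 := ev_Y (n := n) (M := E.D.M) (J := J) (eventually_ge_atTop (E.D.M + 2))
  refine (v1.and (v2.and v3)).mono fun S _ hJ hR ⟨k1, k2, k3⟩ => ?_
  have k1 := k1 S.Y0 S.Y' hR.Y0_le (by rw [hR.hY', hJ])
  have hθ : J * Real.log 128 - 0.1 ≤ ∑ p ∈ pri S.Y S.Y', (1 : ℝ) / p := by
    have e1 := (abs_le.1 (hC S.Y S.Y' (by omega) hR.Y_le)).1
    have e2 : 0 < Real.log S.Y := Real.log_pos (by exact_mod_cast (by omega : 1 < S.Y))
    have e3 : C / Real.log S.Y ≤ 0.1 := by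
      rw [div_le_iff₀ e2]
      have : 10 * |C| ≤ Real.log S.Y := k2
      linarith [le_abs_self C]
    rw [hR.log_Y', hJ, mul_div_cancel_right₀ _ e2.ne', Real.log_pow] at e1
    linarith
  have m0 := one_le_Mass hD.ok.sm 0 S.Y0
  have m1 := one_le_Mass hD.ok.sm S.Y S.Y'
  have e1 := sum_le_sum fun W (hW : W ∈ (TT n (PP E.D.M 0 S.Y0)).powerset.filter RG.Dist) =>
    mul_le_mul_of_nonneg_left (Kil2.conf hK hD T (by omega) hR.Y0_le hθ
      (mem_powerset.1 (mem_filter.1 hW).1))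
      (Wt_nonneg hD.ok.sm (mem_powerset.1 (mem_filter.1 hW).1))
  refine le_trans (le_of_eq (sum_congr rfl fun W _ => ?_)) (e1.trans ?_)
  · rw [mul_sum]
    exact sum_congr rfl fun W' _ => mul_assoc _ _ _
  have e2 : ∑ W ∈ (TT n (PP E.D.M 0 S.Y0)).powerset.filter RG.Dist, Wt W ≤
      Mass n (PP E.D.M 0 S.Y0) := by
    rw [← sum_Wt]
    exact sum_le_sum_of_subset_of_nonneg (filter_subset _ _)
      fun W hW _ => Wt_nonneg hD.ok.sm (mem_powerset.1 hW)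
  rw [sum_filter] at k1
  have k4 : ∑ W ∈ (TT n (PP E.D.M 0 S.Y0)).powerset.filter RG.Dist,
      (if Exc E.D.M 1 S.Y S.Y' W then Wt W * 2 ^ W.card else 0) ≤ 1 / 2 ^ J := by
    refine le_trans (sum_le_sum_of_subset_of_nonneg (filter_subset _ _) fun W hW _ => ?_) k1
    have := Wt_nonneg hD.ok.sm (mem_powerset.1 hW)
    split_ifs <;> positivity
  have e3 : ∀ W : Finset (Gen n), ∀ (p : Prop) [Decidable p],
      Wt W * (8 ^ n * T * Mass n (PP E.D.M S.Y S.Y') *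
        (2 / 2 ^ J + if p then 2 ^ W.card else 0)) = 8 ^ n * T * Mass n (PP E.D.M S.Y S.Y') *
        (2 / 2 ^ J * Wt W + if p then Wt W * 2 ^ W.card else 0) := by
    intro W p _
    split_ifs <;> ring
  simp only [e3]
  rw [← mul_sum, sum_add_distrib, ← mul_sum]
  have e4 : (0 : ℝ) < 1 / 2 ^ J := by positivity
  have e5 : 3 * 8 ^ n * (T : ℝ) / 2 ^ J * (Mass n (PP E.D.M 0 S.Y0) * Mass n (PP E.D.M S.Y S.Y')) =
      8 ^ n * T * Mass n (PP E.D.M S.Y S.Y') * (2 / 2 ^ J * Mass n (PP E.D.M 0 S.Y0) +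
        1 / 2 ^ J * Mass n (PP E.D.M 0 S.Y0)) := by ring
  rw [e5]
  exact mul_le_mul_of_nonneg_left (add_le_add (mul_le_mul_of_nonneg_left e2 (by positivity))
    (k4.trans (le_mul_of_one_le_right e4.le m0))) (by positivity)

end Pool.Agent.MP_a43263_nt.RH

end
end MrgPart2

-- ======== part 3: formerly Pool.Agent.MP_a43263_nt.RH.KeyB
section MrgPart3

/-! PROJECT RANKG, THEOREM G, module KEY2: the factorisation of a term. -/

set_option autoImplicit false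

noncomputable section

namespace Pool.Agent.MP_a43263_nt.RH

open Finset Filter
open R2 (Sgn chi pri Sc Core Shape mem_pri chi_comm chi_sgn chi_eq_rows chi_symmDiff_left
  chi_symmDiff_right chi_union_left chi_union_right)
open RG
open RG.KEY (pr mem_pr pr_pos dvd_pr pr_union pr_of_ne pr_of_eq pr_gens res T3 abs_J abs_mul_le
  abs_pow_le abs_sgn abs_prod_le J_per exists_crt abs_res exists_ix final_bound lo_ok)
open RG.KEY.KD (nu not_dvd_both tl_eq_iff md_eq med_bound abs_ite abs_cast)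

variable {nn : ℕ}

namespace KEY

namespace KD

/-- the shape that the oscillation estimate needs -/
def Fact (D : KD nn) (F : ℕ → ℕ → ℕ → ℕ → T3 nn → ℤ) (e : ℕ) : Prop :=
  ∃ (a : ℕ → ℕ → ℕ → ℤ) (b : ℕ → T3 nn → ℤ) (p : ℕ → T3 nn → ℤ → ℤ) (σ : ℕ → T3 nn → ℤ) (K : T3 nn → ℤ),
    (∀ r q s, |a r q s| ≤ 1) ∧ (∀ n ω, |b n ω| ≤ 1) ∧ (∀ n ω q, |p n ω q| ≤ 1) ∧
    (∀ n, ∀ ω ∈ D.W, ∀ q, p n ω (q + n * nu ω) = p n ω q) ∧ (∀ n ω, σ n ω = 1 ∨ σ n ω = -1) ∧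
    ∀ r q s n ω, D.Val r q s n ω →
      F r q s n ω = a r q s * b n ω * p n ω q * jacobiSym (σ n ω * n ^ e * K ω) s

variable {D : KD nn} {F G : ℕ → ℕ → ℕ → ℕ → T3 nn → ℤ} {e e' : ℕ}

theorem Fact.congr (h : D.Fact G e) (hF : ∀ r q s n ω, D.Val r q s n ω → F r q s n ω = G r q s n ω) :
    D.Fact F e := by
  obtain ⟨a, b, p, σ, K, h1, h2, h3, h4, h5, h6⟩ := h
  exact ⟨a, b, p, σ, K, h1, h2, h3, h4, h5, fun r q s n ω k => (hF r q s n ω k).trans (h6 r q s n ω k)⟩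

theorem Fact.mul (h : D.Fact F e) (h' : D.Fact G e') :
    D.Fact (fun r q s n ω => F r q s n ω * G r q s n ω) (e + e') := by
  obtain ⟨a, b, p, σ, K, h1, h2, h3, h4, h5, h6⟩ := h
  obtain ⟨a', b', p', σ', K', k1, k2, k3, k4, k5, k6⟩ := h'
  refine ⟨fun r q s => a r q s * a' r q s, fun n ω => b n ω * b' n ω,
    fun n ω q => p n ω q * p' n ω q, fun n ω => σ n ω * σ' n ω, fun ω => K ω * K' ω,
    fun _ _ _ => abs_mul_le (h1 _ _ _) (k1 _ _ _), fun _ _ => abs_mul_le (h2 _ _) (k2 _ _),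
    fun _ _ _ => abs_mul_le (h3 _ _ _) (k3 _ _ _), fun n ω hω q => ?_, fun n ω => ?_,
    fun r q s n ω k => ?_⟩
  · simp only [h4 n ω hω, k4 n ω hω]
  · rcases h5 n ω with h | h <;> rcases k5 n ω with k | k <;> simp [h, k]
  · simp only [h6 r q s n ω k, k6 r q s n ω k]
    rw [show σ n ω * σ' n ω * (n : ℤ) ^ (e + e') * (K ω * K' ω) =
      σ n ω * n ^ e * K ω * (σ' n ω * n ^ e' * K' ω) by ring, jacobiSym.mul_left (σ n ω * _ * _)]
    ring

theorem fact_a {a : ℕ → ℕ → ℕ → ℤ} (h : ∀ r q s, |a r q s| ≤ 1) :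
    D.Fact (fun r q s _ _ => a r q s) 0 :=
  ⟨a, fun _ _ => 1, fun _ _ _ => 1, fun _ _ => 1, fun _ => 1, h, by simp, by simp, by simp, by simp,
    by simp⟩

theorem fact_b {b : ℕ → T3 nn → ℤ} (h : ∀ n ω, |b n ω| ≤ 1) :
    D.Fact (fun _ _ _ n ω => b n ω) 0 :=
  ⟨fun _ _ _ => 1, b, fun _ _ _ => 1, fun _ _ => 1, fun _ => 1, by simp, h, by simp, by simp,
    by simp, by simp⟩

theorem fact_p {p : ℕ → T3 nn → ℤ → ℤ} (h : ∀ n ω q, |p n ω q| ≤ 1)
    (h' : ∀ n, ∀ ω ∈ D.W, ∀ q, p n ω (q + n * nu ω) = p n ω q) :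
    D.Fact (fun _ q _ n ω => p n ω q) 0 :=
  ⟨fun _ _ _ => 1, fun _ _ => 1, p, fun _ _ => 1, fun _ => 1, by simp, by simp, h, h',
    by simp, by simp⟩

theorem fact_J {σ : ℕ → T3 nn → ℤ} (h : ∀ n ω, σ n ω = 1 ∨ σ n ω = -1) (K : T3 nn → ℤ) (e : ℕ) :
    D.Fact (fun _ _ s n ω => jacobiSym (σ n ω * n ^ e * K ω) s) e :=
  ⟨fun _ _ _ => 1, fun _ _ => 1, fun _ _ _ => 1, σ, K, by simp, by simp, by simp, by simp, h,
    by simp⟩

theorem fact_prod (X : Finset (Gen nn)) {F : Gen nn → ℕ → ℕ → ℕ → ℕ → T3 nn → ℤ}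
    (h : ∀ b ∈ X, D.Fact (F b) 0) : D.Fact (fun r q s n ω => ∏ b ∈ X, F b r q s n ω) 0 := by
  induction X using Finset.induction_on with
  | empty => exact fact_a (a := fun _ _ _ => 1) (by simp)
  | insert b X hb ih =>
    simp only [prod_insert hb]
    exact (h b (mem_insert_self _ _)).mul (ih fun a ha => h a (mem_insert_of_mem ha))

theorem Fact.ite (h : D.Fact F e) (v : Bool) :
    D.Fact (fun r q s n ω => if v then F r q s n ω else 1) (v.toNat * e) := by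
  cases v
  · simpa using fact_a (D := D) (a := fun _ _ _ => 1) (by simp)
  · simpa using h

theorem Fact.odd (h : D.Fact F e) (he : Odd e) : D.Fact F 1 := by
  obtain ⟨a, b, p, σ, K, h1, h2, h3, h4, h5, h6⟩ := h
  obtain ⟨k, rfl⟩ := he
  refine ⟨a, b, p, σ, K, h1, h2, h3, h4, h5, fun r q s n ω hv => ?_⟩
  have hc : ((n : ℤ) ^ k).gcd s = 1 := by
    rw [← Int.isCoprime_iff_gcd_eq_one]
    exact (hv.cop.of_mul_right_left.symm.of_isCoprime_of_dvd_right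
      (Int.natCast_dvd_natCast.2 hv.dvd)).pow_left
  rw [h6 r q s n ω hv, show σ n ω * (n : ℤ) ^ (2 * k + 1) * K ω =
    σ n ω * n ^ 1 * K ω * (n ^ k) ^ 2 by ring, jacobiSym.mul_left (σ n ω * _ * _),
    jacobiSym.sq_one' hc, mul_one]

variable {r q s n : ℕ} {ω : T3 nn}

theorem Val.adm (hD : D.Ok) (h : D.Val r q s n ω) : Adm D.E.D (D.pt r q n) :=
  adm_of_mem hD.rel (h.mem_AA hD)

theorem Val.lf_f (hD : D.Ok) (h : D.Val r q s n ω) :
    D.pt r q n D.f0 = D.m D.f0 * n * r := by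
  obtain ⟨-, -, -, -, -, -, h, -⟩ := h.forms hD; exact h

theorem Val.lf_g (hD : D.Ok) (h : D.Val r q s n ω) :
    D.pt r q n D.g0 = D.m D.g0 * q := by
  obtain ⟨-, -, -, -, -, -, -, h, -⟩ := h.forms hD; exact h

theorem Val.dvd_lf (hD : D.Ok) (h : D.Val r q s n ω) {k : Ix nn} {p : ℕ}
    (hb : ((tg k), p) ∈ D.NL n ω s) : p.Prime ∧ p ∣ D.pt r q n k := by
  rw [← (h.le_eq hD).1, mem_le, mk_mem_VV hD.sys] at hb
  exact ⟨Nat.prime_of_mem_primeFactors hb.1, Nat.dvd_of_mem_primeFactors hb.1⟩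

theorem Val.sqf (hD : D.Ok) (h : D.Val r q s n ω) : Squarefree n := by
  have h1 := (h.ib.1 _ hD.ne).sqf
  rw [cc, if_pos rfl] at h1
  exact h1.of_mul_right

/-- the inner part of a label set -/
def II (D : KD nn) (u : Bool) (sel : T3 nn → Finset (Gen nn)) (n : ℕ) (ω : T3 nn) : Finset (Gen nn) :=
  (if u then D.Nn n else ∅) ∪ sel ω

theorem II_sub {u : Bool} {sel : T3 nn → Finset (Gen nn)} (hs : sel ω ⊆ ω.1) :
    D.II u sel n ω ⊆ D.Nn n ∪ ω.1 := by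
  refine union_subset_union ?_ hs
  split_ifs <;> simp

theorem Val.dj (hD : D.Ok) (h : D.Val r q s n ω) {X : Finset (Gen nn)} (hX : X ⊆ D.O) {u : Bool}
    {sel : T3 nn → Finset (Gen nn)} (hs : sel ω ⊆ ω.1) (v : Bool) : Disjoint X (D.II u sel n ω) ∧
      Disjoint (X ∪ D.II u sel n ω) (if v then {(D.g.1, s)} else ∅) := by
  obtain ⟨d1, d2, d3, -, d5, d6⟩ := h.disj hD
  refine ⟨disjoint_left.2 fun b k k' => ?_, ?_⟩
  · rcases mem_union.1 (II_sub hs k') with k' | k'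
    exacts [d1 b k' (hX k), d2 b k' (hX k)]
  · split_ifs
    · refine disjoint_singleton_right.2 fun k => ?_
      rcases mem_union.1 k with k | k
      · exact d3 (hX k)
      · rcases mem_union.1 (II_sub hs k) with k | k
        exacts [d5 k, d6 k]
    · exact disjoint_empty_right _

theorem Ok.not_dvd (hD : D.Ok) {p : ℕ} (h : D.S.Y < p) : ¬p ∣ D.E.D.M := fun k =>
  not_lt.2 ((Nat.le_of_dvd hD.sys.ok.pos k).trans hD.hM) h

theorem Val.II_el (hD : D.Ok) (h : D.Val r q s n ω) {b : Gen nn} (hb : b ∈ D.Nn n ∪ ω.1) :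
    b.1.2 ≠ none ∧ b.1 ≠ D.g.1 ∧ b.2.Prime ∧ ¬b.2 ∣ D.E.D.M ∧ b.2 ≠ s := by
  have hc : ∀ p : ℕ, p.Prime → p ∣ n * nu ω → p ≠ s := by
    rintro p hp hd rfl
    have := h.cop
    rw [← Nat.cast_mul, Nat.isCoprime_iff_coprime] at this
    exact hp.ne_one (Nat.eq_one_of_dvd_coprimes this h.dvd hd)
  rcases mem_union.1 hb with hb | hb
  · obtain ⟨k1, k2⟩ := mem_Nn.1 hb
    have k3 := Nat.prime_of_mem_primeFactors k2
    exact ⟨k1 ▸ hD.hf ▸ tg_ne_none _, k1 ▸ hD.fg, k3, hD.not_dvd (h.ib.2.1 _ k2),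
      hc _ k3 ((Nat.dvd_of_mem_primeFactors k2).mul_right _)⟩
  · obtain ⟨k1, k2, -, k3⟩ := W_el h.hω hb
    exact ⟨k1, ((mem_W.1 h.hω).2.tag b hb).2.1, k3, hD.not_dvd k2,
      hc _ k3 ((dvd_prod_of_mem _ hb).mul_left _)⟩

/-- a row of the matrix summed over whole forms -/
def row (D : KD nn) (y : Finset (Ix nn)) (x : Ix nn → ℕ) (b : Gen nn) : ℤ :=
  ∏ a ∈ ones (D.E.VV x) y, D.E.g a b

theorem fact_rows (hD : D.Ok) {y : Finset (Ix nn)}
    (h2 : ∀ b ∈ D.E.W0, ∀ x, Adm D.E.D x → D.row y x b = 1)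
    (h3 : ∀ k k' : Ix nn, k ≠ k' → ∃ C : ℤ, ∀ x, Adm D.E.D x → ∀ p : ℕ, p.Prime →
      p ∣ x k → D.row y x ((tg k), p) =
        jacobiSym C p * jacobiSym (x k') p ^ Yne (k.1) y)
    {X : Finset (Gen nn)} (hX : X ⊆ D.O) (u v : Bool) {sel : T3 nn → Finset (Gen nn)}
    (hs : ∀ ω ∈ D.W, sel ω ⊆ ω.1) :
    D.Fact (fun r q s n ω => ∏ b ∈ X ∪ D.II u sel n ω ∪ (if v then {(D.g.1, s)} else ∅),
      D.row y (D.pt r q n) b) (v.toNat * Yne D.g.1.1 y) := by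
  obtain ⟨Cg, hg⟩ := h3 _ _ hD.ne.symm
  have h4 : ∀ k : Tag nn, ∃ C : ℤ, k.2 ≠ none → k ≠ D.g.1 → ∀ r q s n ω, D.Val r q s n ω → ∀ p : ℕ,
      (k, p) ∈ D.NL n ω s → D.row y (D.pt r q n) (k, p) =
        jacobiSym C p * jacobiSym (D.m D.g0 * (q : ℤ)) p ^ Yne k.1 y := by
    intro k
    by_cases k1 : k.2 = none
    · exact ⟨0, fun k => absurd k1 k⟩
    obtain ⟨j, rfl⟩ := exists_tg k1
    by_cases k2 : j = D.g0
    · exact ⟨0, fun _ k => absurd (k2 ▸ hD.hg.symm) k⟩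
    obtain ⟨C, hC⟩ := h3 _ _ k2
    refine ⟨C, fun _ _ r q s n ω hv p hp => ?_⟩
    rw [hC _ (hv.adm hD) p (hv.dvd_lf hD hp).1 (hv.dvd_lf hD hp).2, hv.lf_g hD, Nat.cast_mul, tg_cls]
  choose C hC using h4
  have h5 : ∀ r q s n ω, D.Val r q s n ω → ∀ p : ℕ, (D.g.1, p) ∈ D.NL n ω s →
      D.row y (D.pt r q n) (D.g.1, p) = jacobiSym Cg p *
        jacobiSym (D.m D.f0 * (r : ℤ)) p ^ Yne D.g.1.1 y *
        jacobiSym (1 * (n : ℤ) ^ Yne D.g.1.1 y * 1) p := by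
    intro r q s n ω hv p hp
    rw [hD.hg] at hp ⊢
    rw [hg _ (hv.adm hD) p (hv.dvd_lf hD hp).1 (hv.dvd_lf hD hp).2, hv.lf_f hD, mul_right_comm,
      Nat.cast_mul, jacobiSym.mul_left, mul_pow, one_mul, mul_one, jacobiSym.pow_left, Nat.cast_mul,
      mul_assoc, tg_cls]
  have f1 : D.Fact (fun r q s n ω => ∏ b ∈ X, D.row y (D.pt r q n) b) 0 := by
    refine fact_prod X fun b hb => ?_
    have hb' : ∀ n ω s, b ∈ D.NL n ω s := fun n ω s =>
      mem_union_left _ (mem_union_left _ (hX hb))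
    rcases hD.el b (hX hb) with k | k
    · exact (fact_a (a := fun _ _ _ => 1) fun _ _ _ => by simp).congr
        fun r q s n ω hv => h2 b k _ (hv.adm hD)
    by_cases k2 : b.1 = D.g.1
    · refine ((fact_a fun r q s => abs_mul_le (abs_J Cg b.2) (abs_pow_le
        (abs_J (D.m D.f0 * (r : ℤ)) b.2) (Yne D.g.1.1 y))).mul
        (fact_b fun n ω => abs_J (1 * (n : ℤ) ^ Yne D.g.1.1 y * 1) b.2)).congr
        fun r q s n ω hv => ?_
      rw [← h5 r q s n ω hv b.2 (k2 ▸ hb' n ω s), ← k2]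
    · exact (fact_a fun r q s => abs_mul_le (abs_J (C b.1) b.2) (abs_pow_le
        (abs_J (D.m D.g0 * (q : ℤ)) b.2) (Yne b.1.1 y))).congr
        fun r q s n ω hv => hC b.1 k.1 k2 r q s n ω hv b.2 (hb' n ω s)
  have f2 : D.Fact (fun r q s n ω => ∏ b ∈ D.II u sel n ω, D.row y (D.pt r q n) b) 0 := by
    refine (fact_p (p := fun n ω q => ∏ b ∈ D.II u sel n ω,
      jacobiSym (C b.1) b.2 * jacobiSym (D.m D.g0 * q) b.2 ^ Yne b.1.1 y)
      (fun n ω q => abs_prod_le _ fun b _ => abs_mul_le (abs_J _ _) (abs_pow_le (abs_J _ _) _))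
      fun n ω hω q => prod_congr rfl fun b hb => ?_).congr
      fun r q s n ω hv => prod_congr rfl fun b hb => ?_
    · rw [J_per]
      rw [← Nat.cast_mul, Int.natCast_dvd_natCast]
      rcases mem_union.1 (II_sub (hs ω hω) hb) with k | k
      · exact (Nat.dvd_of_mem_primeFactors (mem_Nn.1 k).2).mul_right _
      · exact (dvd_prod_of_mem _ k).mul_left _
    · have k := II_sub (hs ω hv.hω) hb
      exact hC b.1 (hv.II_el hD k).1 (hv.II_el hD k).2.1 r q s n ω hv b.2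
        (mem_union_left _ (mem_union_right _ k))
  have f3 : D.Fact (fun r q s n ω => D.row y (D.pt r q n) (D.g.1, s)) (0 + Yne D.g.1.1 y) :=
    ((fact_a fun r q s => abs_mul_le (abs_J Cg s) (abs_pow_le
      (abs_J (D.m D.f0 * (r : ℤ)) s) (Yne D.g.1.1 y))).mul
      (fact_J (σ := fun _ _ => 1) (by simp) (fun _ => 1) _)).congr
      fun r q s n ω hv => h5 r q s n ω hv s (mem_union_right _ (mem_singleton_self _))
  have f4 := (f1.mul f2).mul (f3.ite v)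
  simp only [zero_add] at f4
  refine f4.congr fun r q s n ω hv => ?_
  obtain ⟨d1, d2⟩ := hv.dj hD hX (u := u) (hs ω hv.hω) v
  rw [prod_union d2, prod_union d1]
  cases v <;> simp

theorem fact_col (hD : D.Ok) (kc : KC2Stmt)
    {X : Finset (Gen nn)} (hX : X ⊆ D.O) (u v : Bool) {sel : T3 nn → Finset (Gen nn)}
    (hs : ∀ ω ∈ D.W, sel ω ⊆ ω.1) :
    D.Fact (fun _ _ s n ω => chi D.E.g (X ∪ D.II u sel n ω) (if v then {(D.g.1, s)} else ∅))
      (v.toNat * if D.f.1.1 = D.g.1.1 then 0 else u.toNat) := by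
  obtain ⟨k1, -, -, k4, -⟩ := kc _ _ hD.sys
  have h5 : ∀ W : Finset (Gen nn), ∃ σ : ℤ, (σ = 1 ∨ σ = -1) ∧
      ((∀ b ∈ W, Ord D.E.D.M b) → ∀ s : ℕ, Ord D.E.D.M (D.g.1, s) →
        (∀ b ∈ W, b.2 ≠ s) → ∏ b ∈ W, D.E.g b (D.g.1, s) =
          jacobiSym (σ * ∏ b ∈ W.filter (fun b => b.1.1 ≠ D.g.1.1), (b.2 : ℤ)) s) := by
    intro W
    by_cases h : ∀ b ∈ W, Ord D.E.D.M b
    · refine (k4 W D.g.1.1 h).imp fun _ k => ⟨k.1, fun _ s hs hb => ?_⟩
      rw [k1 W _ hs fun a ha => .inr ⟨h a ha, hb a ha⟩, k.2]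
    · exact ⟨1, .inl rfl, fun k => absurd k h⟩
  choose σ s1 s2 using h5
  have f1 := (fact_a (D := D) fun _ _ s => abs_prod_le X fun b _ =>
    abs_sgn (hD.sys.sgn.2 b (D.g.1, s))).mul (fact_J (fun n ω => s1 (D.II u sel n ω))
      (fun ω => ∏ b ∈ (sel ω).filter (fun b => b.1.1 ≠ D.g.1.1), (b.2 : ℤ))
      (if D.f.1.1 = D.g.1.1 then 0 else u.toNat))
  rw [zero_add] at f1
  refine (f1.ite v).congr fun r q s n ω hv => ?_
  have hw := hs ω hv.hω
  cases v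
  · simp [chi]
  simp only [chi, if_true, prod_singleton]
  rw [prod_union (hv.dj hD hX hw true).1, s2 _ (fun b hb => ?_) s
    ⟨hD.hg ▸ tg_ne_none _, hv.s_el.2.2, hD.not_dvd hv.s_el.1⟩ fun b hb => (hv.II_el hD (II_sub hw hb)).2.2.2.2, mul_assoc (σ _)]
  · congr 3
    have hd : Disjoint (if u then D.Nn n else ∅) (sel ω) := by
      split_ifs
      · exact disjoint_right.2 fun b hb => (hv.disj hD).2.2.2.1 b (hw hb)
      · exact disjoint_empty_left _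
    rw [II, filter_union, prod_union (disjoint_filter_filter hd)]
    congr 1
    cases u
    · simp
    simp only [if_true, Bool.toNat_true]
    split_ifs with h
    · rw [filter_false_of_mem fun b hb => by rw [(mem_Nn.1 hb).1, h]; simp, prod_empty, pow_zero]
    · rw [filter_true_of_mem fun b hb => by rw [(mem_Nn.1 hb).1]; exact h, Nn,
        prod_image fun _ _ _ _ e => (Prod.mk.inj e).2, pow_one, ← Nat.cast_prod,
        Nat.prod_primeFactors_of_squarefree (hv.sqf hD)]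
  · obtain ⟨k1, -, k2, k3, -⟩ := hv.II_el hD (II_sub hw hb)
    exact ⟨k1, k2, k3⟩

/-- the factorisation of the sign of a term -/
theorem fact_term (hD : D.Ok) (kc : KC2Stmt) (sym : SYM2Stmt) {y y' : Finset (Ix nn)}
    (ho : Odd (expo y y' D.f D.g)) :
    D.Fact (fun r q s n ω => chi D.E.g
      (symmDiff (D.U1 n ω s) (ones (D.E.VV (D.pt r q n)) y))
      (symmDiff (D.U2 n ω s) (ones (D.E.VV (D.pt r q n)) y'))) 1 := by
  obtain ⟨y1, y2, y3, -⟩ := sym _ _ hD.sys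
  obtain ⟨σ, e, s1, s2⟩ := y1 y y' _ _ hD.ne
  have w1 : ∀ ω ∈ D.W, ω.2.1 ⊆ ω.1 := fun ω h => (mem_W.1 h).2.s1
  have w2 : ∀ ω ∈ D.W, ω.2.2 ⊆ ω.1 := fun ω h => (mem_W.1 h).2.s2
  have g := hD.sys.sgn
  have r1 := fact_rows hD (y2 y') (y3 y') hD.s1 D.f.2.1 D.g.2.1 w1
  have r2 := fact_rows hD (y2 y) (y3 y) hD.s2 D.f.2.2 D.g.2.2 w2
  have c1 := fact_col hD kc hD.s1 D.f.2.1 D.g.2.2 w1
  have c2 := fact_col hD kc hD.s2 D.f.2.2 D.g.2.1 w2
  have a1 := fact_a (D := D) fun r q s => abs_mul_le (abs_mul_le (abs_sgn s1)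
    (abs_pow_le (abs_J (D.m D.g0 * (q : ℤ)) (D.m D.f0 * r)) e)) (abs_sgn (chi_sgn g
      (if D.g.2.1 then {(D.g.1, s)} else ∅) (if D.g.2.2 then {(D.g.1, s)} else ∅)))
  have b1 := fact_b (D := D) fun n ω => abs_sgn (chi_sgn g (D.O₁ ∪ D.I1 n ω) (D.O₂ ∪ D.I2 n ω))
  have p1 := fact_p (D := D) (p := fun n ω q => jacobiSym (D.m D.g0 * q) n ^ e)
    (fun n ω q => abs_pow_le (abs_J _ _) e) fun n ω _ q => by rw [J_per _ _ (dvd_mul_right _ _)]
  refine Fact.odd (((((((a1.mul b1).mul p1).mul c1).mul c2).mul r2).mul r1).congr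
    fun r q s n ω hv => ?_) ?_
  · have d1 : Disjoint (D.O₁ ∪ D.I1 n ω) _ :=
      (hv.dj hD hD.s1 (u := D.f.2.1) (sel := fun ω => ω.2.1) (w1 ω hv.hω) D.g.2.1).2
    have d2 : Disjoint (D.O₂ ∪ D.I2 n ω) _ :=
      (hv.dj hD hD.s2 (u := D.f.2.2) (sel := fun ω => ω.2.2) (w2 ω hv.hω) D.g.2.2).2
    have h0 : D.m D.f0 * r * n ≠ 0 := by
      rw [mul_right_comm, ← hv.lf_f hD]
      exact ((hv.adm hD).sqf _).ne_zero
    rw [chi_symmDiff_left g, chi_symmDiff_right g, chi_symmDiff_right g, s2 _ (hv.adm hD),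
      chi_comm g (D.U1 n ω s) (ones _ _), chi_eq_rows _ (ones _ _), chi_eq_rows _ (ones _ _),
      hv.lf_f hD, hv.lf_g hD, mul_right_comm (D.m D.f0),
      jacobiSym.mul_right' _ (left_ne_zero_of_mul h0) (right_ne_zero_of_mul h0), mul_pow,
      Nat.cast_mul]
    have e1 : chi D.E.g (D.U1 n ω s) (D.U2 n ω s) =
        chi D.E.g (D.O₁ ∪ D.I1 n ω) (D.O₂ ∪ D.I2 n ω) *
        chi D.E.g (D.O₁ ∪ D.I1 n ω) (if D.g.2.2 then {(D.g.1, s)} else ∅) *
        (chi D.E.g (D.O₂ ∪ D.I2 n ω) (if D.g.2.1 then {(D.g.1, s)} else ∅) *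
        chi D.E.g (if D.g.2.1 then {(D.g.1, s)} else ∅) (if D.g.2.2 then {(D.g.1, s)} else ∅)) := by
      rw [U1, U2, chi_union_left d1, chi_union_right _ d2, chi_union_right _ d2,
        chi_comm g (if D.g.2.1 then _ else _) (D.O₂ ∪ _)]
    rw [e1]
    simp only [row, U1, U2, I1, I2, II]
    ring
  · have : expo y y' D.f D.g = 0 + 0 + 0 +
        (D.g.2.2.toNat * if D.f.1.1 = D.g.1.1 then 0 else D.f.2.1.toNat) +
        (D.g.2.1.toNat * if D.f.1.1 = D.g.1.1 then 0 else D.f.2.2.toNat) +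
        D.g.2.2.toNat * Yne D.g.1.1 y + D.g.2.1.toNat * Yne D.g.1.1 y' := by
      rw [expo]
      split_ifs <;> ring
    exact this ▸ ho

end KD

end KEY

end Pool.Agent.MP_a43263_nt.RH

end
end MrgPart3

-- ======== part 4: formerly Pool.Agent.MP_a43263_nt.RH.Key
section MrgPart4

/-! PROJECT RANKG, THEOREM G, module KEY2: the sum with frozen data. -/

set_option autoImplicit false

noncomputable section

namespace Pool.Agent.MP_a43263_nt.RH

open Finset Filter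
open R2 (Sgn chi pri Sc Core Shape mem_pri chi_comm chi_sgn chi_eq_rows chi_symmDiff_left
  chi_symmDiff_right chi_union_left chi_union_right)
open RG
open RG.KEY (pr mem_pr pr_pos dvd_pr pr_union pr_of_ne pr_of_eq pr_gens res T3 abs_J abs_mul_le
  abs_pow_le abs_sgn abs_prod_le J_per exists_crt abs_res exists_ix final_bound lo_ok)
open RG.KEY.KD (nu not_dvd_both tl_eq_iff md_eq med_bound abs_ite abs_cast)

variable {nn : ℕ}

namespace KEY

namespace KD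

variable {D : KD nn} {i : ℕ} {x : Ix nn → ℕ} {U U' : Finset (Gen nn)} {s : Gen nn}

theorem Tm.tags (h : D.Tm i x U U' s) (h0 : D.E.Ok) (hM : D.E.D.M ≤ D.S.Y) :
    D.f.1.2 ≠ none ∧ D.g.1.2 ≠ none := by
  have h1 : ∀ b ∈ md D.S.Y D.S.Y' (D.E.VV x), b.1.2 ≠ none := by
    intro b hb
    rw [md_VV h0 hM] at hb
    obtain ⟨k, e, -⟩ := mem_gens.1 (mem_md.1 hb).1
    exact e ▸ tg_ne_none k
  refine ⟨fun e => ?_, (tl_eq_iff.1 h.lab).1 ▸ h1 s h.hs⟩
  have h2 := h.lo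
  rw [nOf, filter_false_of_mem fun b hb e' => h1 b hb ((tl_eq_iff.1 e').1 ▸ e), prod_empty] at h2
  exact absurd h2 (not_lt.2 Nat.one_le_two_pow)

theorem Tm.toOk (h : D.Tm i x U U' s) (sys : D.E.Ok) (rel : Rel nn D.S)
    (hM : D.E.D.M ≤ D.S.Y) (hf : D.f.1 = (tg D.f0)) (hg : D.g.1 = (tg D.g0))
    (ne : D.f.1 ≠ D.g.1) : D.Ok := by
  have hO : ∀ b, b ∈ D.O ↔ b ∈ le D.S.Y' (D.E.VV x) ∧ (b.2 ≤ D.S.Y ∨
      (b.1 = D.f.1 ∧ tl U U' b ≠ D.f) ∨ (b.1 = D.g.1 ∧ b ≠ s)) :=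
    fun b => by rw [← h.out, outer, mem_filter]
  refine ⟨sys, rel, hM, hf, hg, fun e => ne (by rw [hf, hg, e]), fun b hb => ?_, fun b hb => ?_,
    fun b hb k => ?_, h.o1 ▸ inter_subset_left, h.o2 ▸ inter_subset_left⟩
  · refine (hO b).2 ⟨?_, .inl ?_⟩
    · rw [le_VV sys (hM.trans rel.Y_le)]
      exact mem_union_left _ hb
    · exact (sys.fix _ hb).2.1.trans hM
  · refine (mem_union.1 (mem_le.1 ((hO b).1 hb).1).1).imp_right fun k => ?_
    obtain ⟨j, e, k⟩ := mem_gens.1 k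
    refine ⟨e ▸ tg_ne_none j, Nat.prime_of_mem_primeFactors k, fun e => ?_⟩
    exact absurd (Nat.eq_one_of_dvd_coprimes ((adm_of_mem rel h.hx).coprime_M j)
      (e ▸ Nat.dvd_of_mem_primeFactors k) sys.ok.two_dvd) (by norm_num)
  · rcases ((hO b).1 hb).2 with k' | k' | k'
    · omega
    · refine .inl ⟨k'.1, ?_⟩
      rw [← h.o1, ← h.o2]
      simpa only [tl, mem_inter, hb, true_and] using k'.2
    · exact .inr k'.1

open Classical in
theorem keySum_eq (D : KD nn) (y y' : Finset (Ix nn)) (i : ℕ) :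
    keySum2 D.S D.E y y' D.f D.g D.ok D.O D.O₁ D.O₂ i =
      ∑ t ∈ ((AA D.S D.E.D).sigma fun x => (le D.S.Y' (D.E.VV x)).powerset ×ˢ
        (le D.S.Y' (D.E.VV x)).powerset ×ˢ
        md D.S.Y D.S.Y' (D.E.VV x)).filter
        (fun t => D.Tm i t.1 t.2.1 t.2.2.1 t.2.2.2),
        term D.E.g (D.E.VV t.1) y y' t.2.1 t.2.2.1 := by
  rw [sum_filter, sum_sigma, keySum2]
  refine sum_congr rfl fun x hx => ?_
  rw [sum_product]
  refine sum_congr rfl fun U hU => ?_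
  rw [sum_product]
  refine sum_congr rfl fun U' hU' => sum_congr rfl fun s hs => if_congr ?_ rfl rfl
  exact ⟨fun ⟨a, b, c, d, e, f, g⟩ => ⟨hx, mem_powerset.1 hU, mem_powerset.1 hU', hs, a, b, c, d,
    e, f, g⟩, fun h => ⟨h.ok, h.lab, h.out, h.o1, h.o2, h.lo, h.hi⟩⟩

def RR (D : KD nn) (i : ℕ) : ℕ := D.S.Z / (D.m D.f0 * 2 ^ i)

def QQ (D : KD nn) : ℕ := D.S.Z / D.m D.g0

open Classical in
theorem keySum_eq' (hD : D.Ok) (y y' : Finset (Ix nn)) (i : ℕ) :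
    keySum2 D.S D.E y y' D.f D.g D.ok D.O D.O₁ D.O₂ i =
      ∑ r ∈ Icc 1 (D.RR i), ∑ q ∈ Icc 1 D.QQ, ∑ s ∈ D.P, ∑ n ∈ Ioc (2 ^ i) (2 * 2 ^ i), ∑ ω ∈ D.W,
        if D.Val r q s n ω ∧ D.ok (D.pt0 ω) then
          term D.E.g (D.E.VV (D.pt r q n)) y y' (D.U1 n ω s) (D.U2 n ω s)
        else 0 := by
  rw [keySum_eq]
  simp only [← sum_product']
  rw [← sum_filter]
  symm
  refine sum_bij (fun t _ => ⟨D.pt t.1 t.2.1 t.2.2.2.1, D.U1 t.2.2.2.1 t.2.2.2.2 t.2.2.1,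
    D.U2 t.2.2.2.1 t.2.2.2.2 t.2.2.1, (D.g.1, t.2.2.1)⟩) ?_ ?_ ?_ fun _ _ => rfl
  · rintro ⟨r, q, s, n, ω⟩ ht
    simp only [mem_filter, mem_product, mem_Ioc] at ht
    have h := (ht.2.1.back hD).2.2.2.2.2 i ht.1.2.2.2.1.1 (pow_succ' 2 i ▸ ht.1.2.2.2.1.2) ht.2.2
    simp only [mem_filter, mem_sigma, mem_product, mem_powerset]
    exact ⟨⟨h.hx, h.hU, h.hU', h.hs⟩, h⟩
  · rintro ⟨r, q, s, n, ω⟩ ht ⟨r', q', s', n', ω'⟩ ht' e
    have h := (mem_filter.1 ht).2.1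
    have h' := (mem_filter.1 ht').2.1
    simp only [Sigma.mk.injEq, heq_eq_eq, Prod.mk.injEq, true_and] at e h h' ⊢
    obtain ⟨e1, e2, e3, rfl⟩ := e
    obtain ⟨a1, a2, a3, a4, -⟩ := h.back hD
    obtain ⟨b1, b2, b3, b4, -⟩ := h'.back hD
    rw [e1, e2, e3, b1] at a1
    rw [e1, b2] at a2
    rw [e2, ← a2, b3] at a3
    rw [e3, ← a2, b4] at a4
    subst a1
    have c1 := h.lf_f hD
    have c2 := h.lf_g hD
    rw [e1, h'.lf_f hD] at c1
    rw [e1, h'.lf_g hD] at c2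
    have := h.one
    exact ⟨(Nat.eq_of_mul_eq_mul_left (Nat.mul_pos (hD.m_pos _) (by omega)) c1).symm,
      (Nat.eq_of_mul_eq_mul_left (hD.m_pos _) c2).symm, rfl, rfl,
      Prod.ext a2.symm (Prod.ext a3.symm a4.symm)⟩
  · rintro ⟨x, U, U', s⟩ ht
    have h : D.Tm i x U U' s := (mem_filter.1 ht).2
    obtain ⟨r, q, n, ω, hv, rfl, rfl, rfl, e⟩ := h.fwd hD
    obtain ⟨a1, -, -, -, a5, -⟩ := hv.back hD
    have lo := h.lo
    have hi := h.hi
    have ok := h.ok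
    rw [a1] at lo hi
    rw [a5] at ok
    have b1 := ((mem_AA.1 h.hx).1 D.f0).2
    have b2 := ((mem_AA.1 h.hx).1 D.g0).2
    have c1 := ((hv.adm hD).sqf D.f0).ne_zero
    have c2 := ((hv.adm hD).sqf D.g0).ne_zero
    rw [hv.lf_f hD] at b1 c1
    rw [hv.lf_g hD] at b2 c2
    refine ⟨⟨r, q, s.2, n, ω⟩, ?_, by simp only [e]⟩
    simp only [mem_filter, mem_product, mem_Ioc, mem_Icc]
    refine ⟨⟨⟨Nat.pos_of_ne_zero (right_ne_zero_of_mul c1), ?_⟩,
      ⟨Nat.pos_of_ne_zero (right_ne_zero_of_mul c2), ?_⟩, hv.hs, ⟨lo, pow_succ' 2 i ▸ hi⟩, hv.hω⟩,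
      hv, ok⟩
    · refine (Nat.le_div_iff_mul_le (Nat.mul_pos (hD.m_pos _) (by positivity))).2 (le_trans ?_ b1)
      rw [mul_comm]
      exact Nat.mul_le_mul_right _ (Nat.mul_le_mul_left _ lo.le)
    · exact (Nat.le_div_iff_mul_le (hD.m_pos _)).2 (by rwa [mul_comm])

theorem fibre (D : KD nn) (m : ℕ) :
    (D.W.filter fun ω => nu ω = m).card ≤ (2 ^ (3 * (nn + 1) * (18 * nn * D.S.J))) ^ 3 := by
  rcases (D.W.filter fun ω => nu ω = m).eq_empty_or_nonempty with h | ⟨ω₀, h⟩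
  · rw [h, card_empty]; exact Nat.zero_le _
  have h1 : ∀ ω ∈ D.W, (nu ω).primeFactors = ω.1.image Prod.snd := by
    intro ω hω
    rw [nu, ← prod_image (f := fun p => p) fun a ha b hb e => (mem_W.1 hω).2.dist a ha b hb e,
      Nat.primeFactors_prod]
    intro p hp
    obtain ⟨b, hb, rfl⟩ := mem_image.1 hp
    exact (W_el hω hb).2.2.2
  let T : Finset (Gen nn) := univ ×ˢ m.primeFactors
  have h2 : T.card ≤ 3 * (nn + 1) * (18 * nn * D.S.J) := by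
    obtain ⟨k, rfl⟩ := mem_filter.1 h
    rw [card_product, h1 _ k]
    exact Nat.mul_le_mul (by simp) (card_image_le.trans (mem_W.1 k).2.card)
  have h3 : (D.W.filter fun ω => nu ω = m) ⊆ T.powerset ×ˢ T.powerset ×ˢ T.powerset := by
    intro ω hω
    obtain ⟨k, rfl⟩ := mem_filter.1 hω
    have : ω.1 ⊆ T := fun b hb => mem_product.2 ⟨mem_univ _, h1 _ k ▸ mem_image_of_mem _ hb⟩
    simp only [mem_product, mem_powerset]
    exact ⟨this, (mem_W.1 k).2.s1.trans this, (mem_W.1 k).2.s2.trans this⟩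
  refine (card_le_card h3).trans ?_
  rw [card_product, card_product, card_powerset, ← sq, ← pow_succ']
  exact Nat.pow_le_pow_left (Nat.pow_le_pow_right (by norm_num) h2) _

theorem Ok.not_dvd_res (hD : D.Ok) {p : ℕ} (h : D.S.Y < p) {j k : Ix nn}
    (hk : j ≠ k) : ¬(p : ℤ) ∣ res D.E.D.e j k := fun hd => by
  have := Nat.le_of_dvd hD.sys.ok.pos
    (Int.natCast_dvd_natCast.1 (hd.trans (hD.sys.ok.dv k j hk.symm)))
  have := hD.hM
  omega

theorem Ok.prod_le (hD : D.Ok) :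
    ∏ b ∈ D.O.filter (fun b => D.S.Y < b.2), b.2 ≤ D.m D.f0 * D.m D.g0 := by
  rw [m, m, pr, pr, ← prod_union (disjoint_filter.2 fun b _ e e' =>
    hD.ne (tg_injective (e.symm.trans e')))]
  refine prod_le_prod_of_subset_of_one_le' (fun b hb => ?_) fun b hb _ => ?_
  · obtain ⟨k1, k2⟩ := mem_filter.1 hb
    rcases hD.med b k1 k2 with k | k
    · exact mem_union_left _ (mem_filter.2 ⟨k1, k.1.trans hD.hf⟩)
    · exact mem_union_right _ (mem_filter.2 ⟨k1, k.trans hD.hg⟩)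
  · rcases mem_union.1 hb with k | k <;>
      exact (hD.prime _ b (mem_filter.1 k).1 (mem_filter.1 k).2).pos

theorem Val.sizes {r q s n : ℕ} {ω : T3 nn} (hD : D.Ok) (h : D.Val r q s n ω) :
    D.m D.f0 ≤ D.S.Y' ^ 6 ∧ D.m D.g0 ≤ D.S.Y' ^ 6 ∧ D.S.Y < n ∧ n ≤ D.S.Y' ^ 3 := by
  have h1 := h.ib.1 _ hD.ne
  rw [cc, if_pos rfl] at h1
  have := h.one
  refine ⟨(Nat.le_mul_of_pos_right _ (by omega)).trans (hD.rel.le_pow h1),
    (Nat.le_mul_of_pos_right _ h.s_el.2.2.pos).trans (hD.rel.le_pow h.ia.1), ?_, le_trans ?_ h1.me⟩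
  · obtain ⟨p, hp⟩ := Nat.nonempty_primeFactors.2 h.one
    exact (h.ib.2.1 p hp).trans_le (Nat.le_of_mem_primeFactors hp)
  · conv_lhs => rw [← Nat.prod_primeFactors_of_squarefree (h.sqf hD)]
    refine prod_le_prod_of_subset_of_one_le' (fun p hp => mem_filter.2 ⟨?_, h.ib.2.1 p hp⟩)
      fun p hp _ => (Nat.prime_of_mem_primeFactors (mem_filter.1 hp).1).pos
    exact Nat.primeFactors_mono (dvd_mul_left _ _) h1.pos.ne' hp

open Classical in
/-- the sum in the shape of the oscillation estimate -/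
theorem keySum_shape (hD : D.Ok) {y y' : Finset (Ix nn)} (i : ℕ) {ix : Fin (3 * nn) → Ix nn}
    (i1 : ∀ j, ix j ≠ D.g0) (i2 : ∀ h, h ≠ D.g0 → ∃ j, ix j = h)
    {a : ℕ → ℕ → ℕ → ℤ} {b : ℕ → T3 nn → ℤ} {p : ℕ → T3 nn → ℤ → ℤ} {σ : ℕ → T3 nn → ℤ} {K : T3 nn → ℤ}
    (h : ∀ r q s n ω, D.Val r q s n ω → chi D.E.g
      (symmDiff (D.U1 n ω s) (ones (D.E.VV (D.pt r q n)) y))
      (symmDiff (D.U2 n ω s) (ones (D.E.VV (D.pt r q n)) y')) =
      a r q s * b n ω * p n ω q * jacobiSym (σ n ω * n ^ 1 * K ω) s) :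
    keySum2 D.S D.E y y' D.f D.g D.ok D.O D.O₁ D.O₂ i =
      ∑ r ∈ Icc 1 (D.RR i), ∑ q ∈ Icc 1 D.QQ, ∑ s ∈ D.P.filter (· ∣ q),
        (if D.IA r q s then (a r q s : ℝ) else 0) * ∑ n ∈ Ioc (2 ^ i) (2 * 2 ^ i), ∑ ω ∈ D.W,
          (if D.IB n ω ∧ D.ok (D.pt0 ω) then
            (b n ω : ℝ) / 2 ^ ((D.O ∪ (D.Nn n ∪ ω.1)).card + (3 * nn + 1)) else 0) *
          jacobiSym (σ n ω * n * K ω) s *
          (if ω ∈ D.W ∧ IsCoprime (q : ℤ) (n * nu ω) then (p n ω q : ℝ) else 0) *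
          ∏ j, if D.IP n ω (ix j) (D.al (ix j) * n * r + D.be (ix j) * q) then (1 : ℝ) else 0 := by
  rw [keySum_eq' hD]
  refine sum_congr rfl fun r _ => sum_congr rfl fun q _ => ?_
  rw [sum_filter]
  refine sum_congr rfl fun s hs => ?_
  by_cases hd : s ∣ q
  swap
  · rw [if_neg hd]
    exact sum_eq_zero fun n _ => sum_eq_zero fun ω _ => if_neg fun k => hd k.1.dvd
  rw [if_pos hd, mul_sum]
  refine sum_congr rfl fun n hn => ?_
  rw [mul_sum]
  refine sum_congr rfl fun ω hω => ?_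
  rw [prod_boole]
  by_cases hv : D.Val r q s n ω ∧ D.ok (D.pt0 ω)
  · obtain ⟨-, -, d3, -, d5, d6⟩ := hv.1.disj hD
    rw [if_pos hv, if_pos hv.1.ia, if_pos ⟨hv.1.ib, hv.2⟩, if_pos ⟨hω, hv.1.cop⟩,
      if_pos fun j _ => hv.1.ip _ (i1 j), term, h r q s n ω hv.1,
      (hv.1.le_eq hD).2, NL, card_union_of_disjoint (by simp [d3, d5, d6]), card_singleton, pow_one]
    push_cast
    ring
  · rw [if_neg hv]
    by_cases k1 : D.IA r q s
    swap
    · rw [if_neg k1, zero_mul]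
    by_cases k2 : D.IB n ω ∧ D.ok (D.pt0 ω)
    swap
    · rw [if_neg k2]; simp
    by_cases k3 : ω ∈ D.W ∧ IsCoprime (q : ℤ) (n * nu ω)
    swap
    · rw [if_neg k3]; simp
    rw [if_neg (c := ∀ j ∈ univ, _)]
    · simp
    refine fun k4 => hv ⟨⟨hs, hd, Nat.one_le_two_pow.trans_lt (mem_Ioc.1 hn).1, hω, k1, k2.1, k3.2,
      fun h hh => ?_⟩, k2.2⟩
    obtain ⟨j, rfl⟩ := i2 _ hh
    exact k4 j (mem_univ _)

theorem exists_rho (hD : D.Ok) (n : ℕ) {ω : T3 nn} (hω : ω ∈ D.W) : ∃ ρ : ℤ, ∀ r q : ℤ,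
    (∀ h, h ≠ D.g0 → D.IP n ω h (D.al h * n * r + D.be h * q)) → q ≡ ρ * r [ZMOD nu ω] := by
  have hw := (mem_W.1 hω).2
  have h1 : ∀ b : Gen nn, ∃ j : Ix nn, b ∈ ω.1 → b.1 = (tg j) := fun b => by
    by_cases hb : b ∈ ω.1
    · exact (exists_tg (W_el hω hb).1).imp fun _ k _ => k
    · exact ⟨D.f0, fun k => absurd k hb⟩
  choose j hj using h1
  have jf : ∀ b ∈ ω.1, j b ≠ D.f0 := fun b hb e => (hw.tag b hb).1 (by rw [hj b hb, e, hD.hf])
  have jg : ∀ b ∈ ω.1, j b ≠ D.g0 := fun b hb e => (hw.tag b hb).2.1 (by rw [hj b hb, e, hD.hg])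
  obtain ⟨ρ, hρ⟩ := exists_crt ω.1 hw.dist (fun b hb => (W_el hω hb).2.2.2)
    (fun b => D.al (j b) * n) (fun b => D.be (j b)) fun b hb hd => by
      obtain ⟨-, k1, -, k2⟩ := W_el hω hb
      rcases (Nat.prime_iff_prime_int.1 k2).dvd_or_dvd hd with k | k
      · exact hD.not_dvd_res k1 (jf b hb).symm k
      · exact (hw.tag b hb).2.2 (Int.natCast_dvd_natCast.1 k)
  refine ⟨ρ, fun r q h => hρ r q fun b hb => ?_⟩
  obtain ⟨P, -, -, e, -⟩ := h _ (jg b hb)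
  rw [e, cc, if_neg (jf b hb), ← hj b hb]
  exact (Int.natCast_dvd_natCast.2 (((dvd_pr hb).mul_left _).mul_right _)).mul_left _

end KD

end KEY

open RH.KEY RH.KEY.KD in
theorem key (kc : KC2Stmt) (sym : SYM2Stmt) (gg : GStmt) : KEY2Stmt := by
  classical
  intro nn E J sys
  refine (((ev_Y (gg (3 * nn) (9 * nn) (EE nn - 10) (2 * EE nn) (128 ^ J)
    ((2 ^ (3 * (nn + 1) * (18 * nn * J))) ^ 3) (lo_ok nn))).and (ev_ge E.D.M))).mono ?_
  rintro S - rfl rel ⟨G, hM0⟩ y y' f g ok O O₁ O₂ i fg ho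
  have hM := hM0.trans rel.Y0_le
  have z : Ix nn := (0, ⟨0, by have := sys.ok.two; omega⟩)
  by_cases hw : ∃ x U U' s, Tm ⟨S, E, f, g, z, z, O, O₁, O₂, ok⟩ i x U U' s
  swap
  · rw [keySum_eq ⟨S, E, f, g, z, z, O, O₁, O₂, ok⟩, filter_false_of_mem
      fun t _ h => hw ⟨_, _, _, _, h⟩, sum_empty, abs_zero]
    positivity
  obtain ⟨x, U, U', s, h⟩ := hw
  obtain ⟨f0, hf⟩ := exists_tg (h.tags sys hM).1
  obtain ⟨g0, hg⟩ := exists_tg (h.tags sys hM).2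
  let D : KD nn := ⟨S, E, f, g, f0, g0, O, O₁, O₂, ok⟩
  have h' : D.Tm i x U U' s := ⟨h.hx, h.hU, h.hU', h.hs, h.ok, h.lab, h.out, h.o1, h.o2, h.lo, h.hi⟩
  have hD : D.Ok := h'.toOk sys rel hM hf hg fg
  obtain ⟨r, q, n, ω, hv, rfl, rfl, rfl, -⟩ := h'.fwd hD
  obtain ⟨m1, m2, n1, n2⟩ := hv.sizes hD
  have lo := h'.lo
  have hi := h'.hi
  rw [(hv.back hD).1] at lo hi
  obtain ⟨a, b, p, σ, K, a1, a2, a3, a4, a5, a6⟩ := fact_term hD kc sym ho
  obtain ⟨ix, i1, i2⟩ := exists_ix hD.ne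
  have H2 : E.D.M ≤ S.Y' := hM.trans rel.Y_le
  have Y1 : 1 ≤ S.Y' := le_trans sys.ok.pos H2
  have hE : 10 ≤ EE nn := le_trans (by omega) (le_EE nn)
  have hb : ∀ (h k : Ix nn) (m : ℕ), m ≤ S.Y' ^ 6 → |res E.D.e h k * m| ≤ (S.Y' : ℤ) ^ 8 := by
    intro h k m hm
    have : (E.D.M * m : ℕ) ≤ S.Y' ^ 8 :=
      (Nat.mul_le_mul H2 hm).trans (by rw [← pow_succ']; exact Nat.pow_le_pow_right Y1 (by norm_num))
    rw [abs_mul, Nat.abs_cast]
    exact (mul_le_mul_of_nonneg_right (abs_res sys.ok h k) (Nat.cast_nonneg _)).trans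
      (by exact_mod_cast this)
  have mp := hD.m_pos
  have main := G S.Y' (D.RR i) D.QQ (2 ^ i) D.P (T3 nn) D.W nu K σ (fun j => D.al (ix j))
    (fun j => D.be (ix j)) (fun r q s => if D.IA r q s then (a r q s : ℝ) else 0)
    (fun n ω => if D.IB n ω ∧ D.ok (D.pt0 ω) then
      (b n ω : ℝ) / 2 ^ ((D.O ∪ (D.Nn n ∪ ω.1)).card + (3 * nn + 1)) else 0)
    (fun n ω q => if ω ∈ D.W ∧ IsCoprime q (n * nu ω) then (p n ω q : ℝ) else 0)
    (fun n ω j z => if D.IP n ω (ix j) z then (1 : ℝ) else 0) rel.Y_le rel.hY'.le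
    ((Nat.le_div_iff_mul_le (Nat.mul_pos (mp _) (by positivity))).2 (le_trans (by
      refine (Nat.mul_le_mul_left _ (Nat.mul_le_mul m1 (lo.le.trans n2))).trans ?_
      rw [← pow_add, ← pow_add]
      exact Nat.pow_le_pow_right Y1 (by omega)) rel.lo))
    ((Nat.le_div_iff_mul_le (mp _)).2 (le_trans (by
      refine (Nat.mul_le_mul_left _ m2).trans ?_
      rw [← pow_add]
      exact Nat.pow_le_pow_right Y1 (by omega)) rel.lo))
    ((Nat.div_le_self _ _).trans rel.hi)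
    (n1.le.trans (pow_succ' 2 i ▸ hi)) (lo.le.trans n2)
    (fun s hs => by
      obtain ⟨k1, k2⟩ := mem_filter.1 hs
      obtain ⟨k3, k4, k5⟩ := mem_pri.1 k1
      refine ⟨k5, k3, k4, fun j hd => ?_⟩
      rcases (Nat.prime_iff_prime_int.1 k5).dvd_or_dvd hd with k | k
      · exact hD.not_dvd_res k3 (i1 j) k
      · exact k2 (Int.natCast_dvd_natCast.1 k))
    (fun j => ⟨hb _ _ _ m1, hb _ _ _ m2⟩)
    (fun ω hω => ⟨prod_pos fun b hb => (W_el hω hb).2.2.2.pos, (mem_W.1 hω).2.nu⟩)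
    (fun m => by have := D.fibre m; exact this) a5 (fun _ _ _ => abs_ite (abs_cast (a1 _ _ _)))
    (fun n ω => abs_ite (by
      rw [abs_div, div_le_one (by positivity), abs_pow, abs_two]
      exact (abs_cast (a2 n ω)).trans (one_le_pow₀ one_le_two)))
    (fun _ _ _ => abs_ite (abs_cast (a3 _ _ _))) (fun _ _ _ _ => abs_ite (by simp))
    (fun n ω q => by
      by_cases hω : ω ∈ D.W
      · have := IsCoprime.add_mul_left_left_iff (x := q) (y := (n * nu ω : ℤ)) (z := 1)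
        rw [mul_one] at this
        simp only [a4 n ω hω, this]
      · simp only [hω, false_and, if_false])
    (fun n ω q h => by
      by_contra k
      exact h (if_neg fun k' => k k'.2))
    (fun n ω hω => (exists_rho hD n hω).imp fun ρ hρ r q h => hρ r q fun k hk => by
      obtain ⟨j, rfl⟩ := i2 _ hk
      by_contra k
      exact h j (if_neg k))
  rw [keySum_shape hD i i1 i2 a6]
  refine main.trans ?_
  rw [← Nat.cast_prod, rel.hY]
  refine final_bound (Nat.div_mul_le_self _ _) (Nat.div_mul_le_self _ _) (rel.hY ▸ hD.prod_le) ?_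
    (sys.ok.pos.trans_le hM0)
  refine prod_pos fun b hb => ?_
  have := (mem_filter.1 hb).2
  omega

end Pool.Agent.MP_a43263_nt.RH

end
end MrgPart4

-- ======== part 5: formerly Pool.Agent.MP_a43263_nt.RH.Mkv
section MrgPart5

/-! PROJECT RANKG, THEOREM G, module MKV2: a positive proportion of the tuples has a kernel of the
least size. -/

set_option autoImplicit false

noncomputable section

namespace Pool.Agent.MP_a43263_nt.RH

open Finset Filter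
open R2 (Sgn chi Ker sg pri PP chs Sc Core Shape mem_Ker prod_symmDiff prod_sgn)
open RG hiding le_VV
open RG.Mkv (even_sum mem_rset rset_le mass_mul)

namespace Mkv

variable {n : ℕ} {E : Dat2 n} {S : Sc} {l : Ix n → ℕ}

theorem mk_mem_VV (hE : E.Ok) {h : Ix n} {p : ℕ} :
    (tg h, p) ∈ E.VV l ↔ p ∈ (l h).primeFactors := by
  rw [Dat2.VV, mem_union, mk_mem_gens]
  exact or_iff_right fun e => tg_ne_none h (hE.fix _ e).1

theorem le_VV (hE : E.Ok) {Y : ℕ} (h : E.D.M ≤ Y) (l : Ix n → ℕ) :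
    le Y (E.VV l) = E.W0 ∪ le Y (gens l) := by
  rw [le, Dat2.VV, filter_union, filter_true_of_mem, le]
  exact fun a ha => (hE.fix a ha).2.1.trans h

theorem card_tag (hE : E.Ok) (l : Ix n → ℕ) (h : Ix n) (q : ℕ → Prop) [DecidablePred q] :
    ((E.VV l).filter fun a => a.1 = tg h ∧ q a.2).card = ((l h).primeFactors.filter q).card := by
  rw [← card_image_of_injective ((l h).primeFactors.filter q) (Prod.mk_right_injective (tg h))]
  congr 1
  ext ⟨k, p⟩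
  simp only [mem_filter, mem_image, Prod.mk.injEq]
  constructor
  · rintro ⟨h1, rfl, h2⟩
    exact ⟨p, ⟨(mk_mem_VV hE).1 h1, h2⟩, rfl, rfl⟩
  · rintro ⟨p', ⟨h1, h2⟩, rfl, rfl⟩
    exact ⟨(mk_mem_VV hE).2 h1, rfl, h2⟩

/-- the count of the kernel on the set of tuples -/
theorem cnt_AA (cnt : CNTStmt) (hE : E.Ok) (hR : Rel n S) (hY : E.D.M ≤ S.Y) (hJ : 1 ≤ S.J)
    (hx : l ∈ AA S E.D) :
    ((Ker E.g (E.VV l)).card : ℝ) ≤ osc E.g S.Y S.Y' (E.VV l) +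
      3 * ((rset E.g S.Y (E.VV l)).card : ℝ) +
      3 * 8 ^ n * ((Ker E.g (le S.Y (E.VV l))).card : ℝ) / 2 ^ S.J := by
  refine cnt n _ hE.ok.two hE.sgn _ _ _ _ hR.Y_le hJ (fun a ha h => ?_) (fun j => ?_) fun j => ?_
  · rcases mem_union.1 ha with k | k
    · have := (hE.fix a k).2.1
      omega
    · obtain ⟨j, e, -⟩ := mem_gens.1 k
      exact e ▸ tg_ne_none j
  · obtain ⟨c, P, hc, hP, hl, e⟩ := (mem_AA.1 hx).2.2.2.2 j
    rw [card_tag hE _ j (S.Y' < ·), e, hR.filter_gt hc hP hl, card_singleton]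
  · obtain ⟨c, P, hc, hP, hl, e⟩ := (mem_AA.1 hx).2.2.2.2 j
    have h1 : ((md S.Y S.Y' (E.VV l)).filter fun a => a.1 = tg j).card =
        (c.primeFactors.filter (S.Y < ·)).card := by
      rw [md, filter_filter, filter_congr fun _ _ => and_comm,
        card_tag hE _ j fun p => S.Y < p ∧ p ≤ S.Y', e, filter_congr fun _ _ => and_comm,
        ← filter_filter, hR.filter_le hc hP hl]
    rw [h1]
    exact ⟨hc.lo, hc.hi⟩

/-- the character of a set of forms is supported on `M` -/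
theorem Cy_smooth {D : Dat n} (hD : D.Ok) (y : Finset (Ix n)) (k : Ix n) :
    Smooth D.M (Cy2 D y k) := by
  refine ⟨mul_ne_zero ?_ (prod_ne_zero_iff.2 fun j hj => sub_ne_zero.2
    (hD.ne j k fun e => (mem_filter.1 hj).2 (by rw [e]))), fun p hp h => ?_⟩
  · split_ifs
    exacts [neg_ne_zero.2 (hD.c0 k), hD.c0 k, one_ne_zero]
  have hp' : Prime (p : ℤ) := Nat.prime_iff_prime_int.1 hp
  rcases hp'.dvd_or_dvd h with h | h
  · split_ifs at h
    · exact hD.cM k p hp (dvd_neg.1 h)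
    · exact hD.cM k p hp h
    · exact absurd h hp'.not_dvd_one
  · obtain ⟨j, hj, h⟩ := hp'.exists_mem_finset_dvd h
    exact Int.natCast_dvd_natCast.1
      (h.trans (hD.dv j k fun e => (mem_filter.1 hj).2 (by rw [e])))

/-- geometric classes are supported on the fixed generators -/
theorem geo_sub (kc : KC2Stmt) (hE : E.Ok) (hl : Adm E.D l) {y : Finset (Ix n)}
    {U : Finset (Gen n)} (hU : U ⊆ E.VV l) (hG : Geo2 E y U) : U ⊆ E.W0 := by
  intro a ha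
  by_contra h0
  obtain ⟨h, e, -⟩ := mem_gens.1 ((mem_union.1 (hU ha)).resolve_left h0)
  obtain ⟨j, hj⟩ := exists_ne a.1.1
  refine ((kc n E hE).2.2.1 (gens l) U (fun b hb => ?_) (fun b hb c hc => (hl.nice hE.ok).dist b
    (mem_VV.2 (.inr hb)) c (mem_VV.2 (.inr hc))) hU).1 a ha h0 j hj _
    (Cy_smooth hE.ok y (j, h.2)) (hG (j, h.2))
  obtain ⟨k, e', hq⟩ := mem_gens.1 hb
  have hp := Nat.prime_of_mem_primeFactors hq
  exact ⟨e' ▸ tg_ne_none k, hp, fun hd => hp.ne_one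
    (Nat.eq_one_of_dvd_coprimes (hl.coprime_M k) (Nat.dvd_of_mem_primeFactors hq) hd)⟩

theorem rset_geo (kc : KC2Stmt) (sym : SYM2Stmt) (hE : E.Ok) (hl : Adm E.D l) {Y Y' : ℕ}
    (hY : E.D.M ≤ Y) (h : ¬Bad2 E (le Y (gens l)) (md Y Y' (gens l))) :
    rset E.g Y (E.VV l) ⊆ geoSet2 E := by
  classical
  rintro ⟨y, U⟩ hx
  obtain ⟨h1, h2, h3⟩ := mem_rset.1 hx
  obtain ⟨-, s2, -, s4⟩ := sym n E hE
  have h4 : ∀ b ∈ E.VV l, (∏ a ∈ U, E.g a b) * ∏ a ∈ ones (E.VV l) y, E.g a b = 1 := fun b hb => by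
    rw [← prod_symmDiff fun a => hE.sgn.2 a b]
    exact (mem_Ker.1 h3).2 b hb
  have h5 : ∀ b ∈ E.W0, ∏ a ∈ U, E.g a b = 1 := fun b hb => by
    have := h4 b (mem_union_left _ hb)
    rwa [s2 y b hb l hl, mul_one] at this
  have hG : Geo2 E y U := by
    by_contra hG
    refine h ⟨y, h1, U, le_VV hE hY l ▸ h2, hG, h5, fun k p hp => ?_⟩
    have hp' : (tg k, p) ∈ gens l :=
      (mem_union.1 hp).elim (fun k => (mem_le.1 k).1) fun k => (mem_md.1 k).1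
    have hq := mk_mem_gens.1 hp'
    have := h4 _ (mem_union_right _ hp')
    rw [s4 y h1 k l hl p (Nat.prime_of_mem_primeFactors hq)
      (Nat.dvd_of_mem_primeFactors hq)] at this
    rcases prod_sgn U fun a _ => hE.sgn.2 a (tg k, p) with e | e <;> rw [e] at this ⊢ <;> linarith
  exact mem_filter.2 ⟨mem_product.2 ⟨h1, mem_Ker.2
    ⟨geo_sub kc hE hl (h2.trans (filter_subset _ _)) hG, h5⟩⟩, hG⟩

end Mkv

open Mkv in
theorem mkv : KC2Stmt → SYM2Stmt → CNTStmt → MESStmt → DOMStmt → LYA2Stmt → KIL2Stmt → OSC2Stmt →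
    MKV2Stmt := by
  classical
  intro kc sym cnt mes dom lya kil os n E r δ hE hgeo hpar hn hδ
  have hD := hE.ok
  obtain ⟨CD, hCD, dom⟩ := dom n E.D hD
  obtain ⟨CM, mes⟩ := mes n
  obtain ⟨CL, lya⟩ := lya n E hE
  have hCM : 0 ≤ CM := by
    have h1 := (one_le_Mass hD.sm 0 2).trans (mes E.D.M 0 2 hD.sm le_rfl)
    by_contra h
    have : CM * Real.log (2 : ℕ) ^ (3 * n) ≤ 0 :=
      mul_nonpos_of_nonpos_of_nonneg (not_le.1 h).le (by positivity)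
    linarith
  have hCL : 0 ≤ CL := by
    have h1 := (sum_nonneg fun W hW => mul_nonneg (Wt_nonneg hD.sm
      (mem_powerset.1 (mem_filter.1 hW).1)) (Real.sqrt_nonneg _)).trans (lya 0)
    exact nonneg_of_mul_nonneg_left h1 (zero_lt_one.trans_le (one_le_Mass hD.sm 0 0))
  obtain ⟨t, ht⟩ := exists_nat_gt (2 * (CD * CM * CL) / δ)
  have ht0 : (0 : ℝ) < t := lt_of_le_of_lt (by positivity) ht
  rw [div_lt_iff₀ hδ] at ht
  obtain ⟨K, hK⟩ : ∃ K : ℝ, K = 3 * 8 ^ n * (t : ℝ) ^ 2 := ⟨_, rfl⟩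
  have hK0 : 0 ≤ K := by rw [hK]; positivity
  obtain ⟨R, hRR⟩ : ∃ R : ℝ, R = 2 ^ (r + 2) := ⟨_, rfl⟩
  have hR4 : 4 ≤ R := by
    have : (1 : ℝ) ≤ 2 ^ r := one_le_pow₀ one_le_two
    rw [hRR, pow_add]
    linarith
  obtain ⟨J₀, hJ₀⟩ := pow_unbounded_of_one_lt
    (((CD * CM) * K ^ 2 + K) / δ) (one_lt_two (α := ℝ))
  refine ⟨J₀ + 1, fun J hJ => ?_⟩
  have hJ1 : (CD * CM) * K ^ 2 + K ≤ δ * 2 ^ J := by
    rw [div_lt_iff₀ hδ] at hJ₀
    have : (2 : ℝ) ^ J₀ ≤ 2 ^ J := pow_le_pow_right₀ one_le_two (by omega)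
    nlinarith
  refine ((((dom J).and (kil n E (t ^ 2) J hE)).and
    (os n E J (δ / 2) hE (half_pos hδ))).and (ev_ge (E.D.M + 2))).mono ?_
  rintro S - rfl hR ⟨⟨⟨dom, kil⟩, os⟩, hY0⟩ hA
  have hY := hR.Y0_le
  have hY' := hR.Y_le
  have hMY : E.D.M ≤ S.Y := by omega
  have hL : 0 < Real.log S.Y' ^ (3 * n) :=
    pow_pos (Real.log_pos (by exact_mod_cast (by omega : 1 < S.Y'))) _
  have hm : CD * (S.Z : ℝ) ^ 2 / Real.log S.Y' ^ (3 * n) *
      (Mass n (PP E.D.M 0 S.Y0) * Mass n (PP E.D.M S.Y S.Y')) ≤ CD * CM * (S.Z : ℝ) ^ 2 := by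
    have h1 := (mass_mul hD.sm hY hY').trans (mes E.D.M 0 S.Y' hD.sm (by omega))
    calc _ ≤ CD * (S.Z : ℝ) ^ 2 / Real.log S.Y' ^ (3 * n) * (CM * Real.log S.Y' ^ (3 * n)) := by
          gcongr
      _ = _ := by rw [div_mul_eq_mul_div, div_eq_iff hL.ne']; ring
  have hq : 0 ≤ CD * (S.Z : ℝ) ^ 2 / Real.log S.Y' ^ (3 * n) := by positivity
  -- the tuples with a large kernel on the small primes
  have h1 : (t : ℝ) * (((AA S E.D).filter fun l =>
      ¬(Ker E.g (le S.Y (E.VV l))).card ≤ t ^ 2).card : ℝ) ≤ CD * CM * CL * (S.Z : ℝ) ^ 2 := by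
    have k1 := dom (fun W _ => √((Ker E.g (E.W0 ∪ W)).card)) fun _ _ => Real.sqrt_nonneg _
    have k2 : ∑ W ∈ (TT n (PP E.D.M 0 S.Y0)).powerset.filter RG.Dist,
        ∑ W' ∈ (TT n (PP E.D.M S.Y S.Y')).powerset, Wt W * Wt W' * √((Ker E.g (E.W0 ∪ W)).card) ≤
        CL * (Mass n (PP E.D.M 0 S.Y0) * Mass n (PP E.D.M S.Y S.Y')) := by
      have : ∀ W : Finset (Gen n), ∑ W' ∈ (TT n (PP E.D.M S.Y S.Y')).powerset,
          Wt W * Wt W' * √((Ker E.g (E.W0 ∪ W)).card) =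
          Wt W * √((Ker E.g (E.W0 ∪ W)).card) * Mass n (PP E.D.M S.Y S.Y') := fun W => by
        rw [← sum_Wt, mul_sum]
        exact sum_congr rfl fun _ _ => by ring
      simp only [this]
      rw [← sum_mul, ← mul_assoc]
      exact mul_le_mul_of_nonneg_right (lya S.Y0) (zero_le_one.trans (one_le_Mass hD.sm _ _))
    calc _ = ∑ _l ∈ (AA S E.D).filter fun l => ¬(Ker E.g (le S.Y (E.VV l))).card ≤ t ^ 2,
          (t : ℝ) := by rw [sum_const, nsmul_eq_mul, mul_comm]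
      _ ≤ ∑ l ∈ (AA S E.D).filter fun l => ¬(Ker E.g (le S.Y (E.VV l))).card ≤ t ^ 2,
            √((Ker E.g (E.W0 ∪ le S.Y (gens l))).card) := by
          refine sum_le_sum fun x hx => Real.le_sqrt_of_sq_le ?_
          rw [← le_VV hE hMY]
          exact_mod_cast (not_le.1 (mem_filter.1 hx).2).le
      _ ≤ _ := sum_le_sum_of_subset_of_nonneg (filter_subset _ _) fun _ _ _ => Real.sqrt_nonneg _
      _ ≤ _ := k1
      _ ≤ CD * (S.Z : ℝ) ^ 2 / Real.log S.Y' ^ (3 * n) *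
          (CL * (Mass n (PP E.D.M 0 S.Y0) * Mass n (PP E.D.M S.Y S.Y'))) :=
          mul_le_mul_of_nonneg_left (by convert k2) hq
      _ = CL * (CD * (S.Z : ℝ) ^ 2 / Real.log S.Y' ^ (3 * n) *
          (Mass n (PP E.D.M 0 S.Y0) * Mass n (PP E.D.M S.Y S.Y'))) := by ring
      _ ≤ CL * (CD * CM * (S.Z : ℝ) ^ 2) := mul_le_mul_of_nonneg_left hm hCL
      _ = _ := by ring
  -- the tuples with a surviving class that is not geometric
  have h2 : ∑ l ∈ AA S E.D, (if (Ker E.g (le S.Y (E.VV l))).card ≤ t ^ 2 ∧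
      Bad2 E (le S.Y (gens l)) (md S.Y S.Y' (gens l)) then (1 : ℝ) else 0) ≤
      K / 2 ^ S.J * (CD * CM * (S.Z : ℝ) ^ 2) := by
    have k1 := dom (fun W W' => if (Ker E.g (E.W0 ∪ W)).card ≤ t ^ 2 ∧
      Bad2 E W W' then 1 else 0) fun _ _ => by split_ifs <;> norm_num
    simp only [le_VV hE hMY]
    calc _ ≤ _ := k1
      _ ≤ CD * (S.Z : ℝ) ^ 2 / Real.log S.Y' ^ (3 * n) * (3 * 8 ^ n * ((t ^ 2 : ℕ) : ℝ) / 2 ^ S.J *
          (Mass n (PP E.D.M 0 S.Y0) * Mass n (PP E.D.M S.Y S.Y'))) :=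
          mul_le_mul_of_nonneg_left (by convert kil) hq
      _ = K / 2 ^ S.J * (CD * (S.Z : ℝ) ^ 2 / Real.log S.Y' ^ (3 * n) *
          (Mass n (PP E.D.M 0 S.Y0) * Mass n (PP E.D.M S.Y S.Y'))) := by rw [hK]; push_cast; ring
      _ ≤ _ := mul_le_mul_of_nonneg_left hm (by positivity)
  have h3 := (abs_le.1 (os fun W => (Ker E.g W).card ≤ t ^ 2)).2
  set A2 := (AA S E.D).filter fun l => (Ker E.g (le S.Y (E.VV l))).card ≤ t ^ 2 with hA2
  have h3' : ∑ l ∈ A2, osc E.g S.Y S.Y' (E.VV l) ≤ δ / 2 * (S.Z : ℝ) ^ 2 :=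
    le_of_eq_of_le (by rw [hA2]; congr) h3
  have h4 : ∀ l ∈ A2, R ≤
      4 * R * (if (Ker E.g (E.VV l)).card ≤ 2 ^ (r + 2) then 1 else 0) +
      osc E.g S.Y S.Y' (E.VV l) + K * (if (Ker E.g (le S.Y (E.VV l))).card ≤ t ^ 2 ∧
          Bad2 E (le S.Y (gens l)) (md S.Y S.Y' (gens l)) then 1 else 0) + K / 2 ^ S.J := by
    intro l hx
    obtain ⟨x1, x2⟩ := mem_filter.1 hx
    have hl := adm_of_mem hR x1
    have k1 := cnt_AA cnt hE hR hMY (by omega) x1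
    have x2' : ((Ker E.g (le S.Y (E.VV l))).card : ℝ) ≤ (t : ℝ) ^ 2 := by exact_mod_cast x2
    have k2 : 3 * 8 ^ n * ((Ker E.g (le S.Y (E.VV l))).card : ℝ) / 2 ^ S.J ≤ K / 2 ^ S.J := by
      rw [hK]
      gcongr
    have k3 : 3 * ((rset E.g S.Y (E.VV l)).card : ℝ) ≤ 3 * R + K *
        (if (Ker E.g (le S.Y (E.VV l))).card ≤ t ^ 2 ∧
          Bad2 E (le S.Y (gens l)) (md S.Y S.Y' (gens l)) then 1 else 0) := by
      split_ifs with hb
      · have q1 : ((rset E.g S.Y (E.VV l)).card : ℝ) ≤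
            ((Ker E.g (le S.Y (E.VV l))).card : ℝ) * 8 ^ n := by
          exact_mod_cast rset_le hE.sgn S.Y (E.VV l)
        have q2 := mul_le_mul_of_nonneg_right x2' (by positivity : (0 : ℝ) ≤ 8 ^ n)
        linarith
      · have q1 := (card_le_card (rset_geo kc sym hE hl hMY fun h => hb ⟨x2, h⟩)).trans hgeo
        have q2 : ((rset E.g S.Y (E.VV l)).card : ℝ) ≤ R := by
          rw [hRR]
          exact_mod_cast q1
        linarith
    have k4 : 4 * R ≤ 4 * R * (if (Ker E.g (E.VV l)).card ≤ 2 ^ (r + 2) then 1 else 0) +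
        ((Ker E.g (E.VV l)).card : ℝ) := by
      split_ifs with hb
      · have : (0 : ℝ) ≤ ((Ker E.g (E.VV l)).card : ℝ) := Nat.cast_nonneg _
        linarith
      · obtain ⟨k, hk, hk2⟩ := hpar l hl (even_sum hR hn x1)
        rw [hk] at hb
        have : 2 ^ (r + 4) ≤ 2 ^ k := Nat.pow_le_pow_right (by norm_num) (by
          by_contra h
          exact hb (Nat.pow_le_pow_right (by norm_num) (by omega)))
        rw [hk, mul_zero, zero_add, hRR]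
        calc (4 : ℝ) * 2 ^ (r + 2) = ((2 ^ (r + 4) : ℕ) : ℝ) := by push_cast; ring
          _ ≤ _ := Nat.cast_le.2 this
    linarith
  have h5 := sum_le_sum h4
  simp only [sum_add_distrib, ← mul_sum, sum_const, nsmul_eq_mul] at h5
  have h6 : ∑ l ∈ A2, (if (Ker E.g (E.VV l)).card ≤ 2 ^ (r + 2) then (1 : ℝ) else 0) ≤
      (((AA S E.D).filter fun l => (Ker E.g (E.VV l)).card ≤ 2 ^ (r + 2)).card : ℝ) := by
    rw [sum_boole]
    exact Nat.cast_le.2 (card_le_card (filter_subset_filter _ (filter_subset _ _)))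
  have h7 := (sum_le_sum_of_subset_of_nonneg (filter_subset _ (AA S E.D) : A2 ⊆ _)
    fun _ _ _ => by split_ifs <;> norm_num).trans h2
  have h8 : (A2.card : ℝ) + (((AA S E.D).filter fun l =>
      ¬(Ker E.g (le S.Y (E.VV l))).card ≤ t ^ 2).card : ℝ) = (AA S E.D).card := by
    exact_mod_cast card_filter_add_card_filter_not _
  have h9 : (A2.card : ℝ) ≤ (S.Z : ℝ) ^ 2 := by
    exact_mod_cast (card_filter_le _ _).trans (card_AA_le hD S)
  have hZ : (0 : ℝ) ≤ (S.Z : ℝ) ^ 2 := by positivity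
  have h10 : (((AA S E.D).filter fun l => ¬(Ker E.g (le S.Y (E.VV l))).card ≤ t ^ 2).card : ℝ) ≤
      δ / 2 * (S.Z : ℝ) ^ 2 := by
    refine le_of_mul_le_mul_left (h1.trans ?_) ht0
    nlinarith
  have h11 : K * (K / 2 ^ S.J * (CD * CM * (S.Z : ℝ) ^ 2)) + (S.Z : ℝ) ^ 2 * (K / 2 ^ S.J) ≤
      δ * (S.Z : ℝ) ^ 2 := by
    calc _ = ((CD * CM) * K ^ 2 + K) / 2 ^ S.J * (S.Z : ℝ) ^ 2 := by ring
      _ ≤ _ := mul_le_mul_of_nonneg_right ((div_le_iff₀ (by positivity)).2 hJ1) hZ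
  have h12 := mul_le_mul_of_nonneg_left h7 hK0
  have h13 := mul_le_mul_of_nonneg_right h9 (by positivity : 0 ≤ K / 2 ^ S.J)
  have h14 : 0 ≤ δ * (S.Z : ℝ) ^ 2 := by positivity
  have h15 := mul_le_mul_of_nonneg_left h6 (by linarith : 0 ≤ 4 * R)
  have h16 := mul_le_mul_of_nonneg_right
    (show δ / 2 * (S.Z : ℝ) ^ 2 ≤ A2.card by linarith) (by linarith : 0 ≤ R)
  have h17 := mul_le_mul_of_nonneg_left hR4 h14
  refine le_of_mul_le_mul_left ?_ (by linarith : 0 < 4 * R)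
  linarith

end Pool.Agent.MP_a43263_nt.RH

end
end MrgPart5

-- ======== part 6: formerly Pool.Agent.MP_a43263_nt.RH.Geo
section MrgPart6

/-! PROJECT RANKG, THEOREM G, row GEO2: geometric classes satisfy the residue conditions. -/

set_option autoImplicit false

noncomputable section

namespace Pool.Agent.MP_a43263_nt.RH

open Finset
open R2 (Ker)
open RG

namespace GeoH

variable {n : ℕ}

theorem Cy_ne (D : Dat n) (hD : D.Ok) (y : Finset (Ix n)) (k : Ix n) : Cy2 D y k ≠ 0 := by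
  unfold Cy2
  refine mul_ne_zero ?_ (prod_ne_zero_iff.2 fun j hj => ?_)
  · have := hD.c0 k
    split_ifs <;> simp [this]
  · have hjk : j ≠ k := fun h => (mem_filter.1 hj).2 (by rw [h])
    exact sub_ne_zero.2 (hD.ne j k hjk)

theorem Gv_ne (kc : KC2Stmt) {E : Dat2 n} (hE : E.Ok) {x : Finset (Gen n)} (hx : x ⊆ E.W0)
    (j : Fin 3) : Gv E.G j x ≠ 0 :=
  ((kc n E hE).2.1 x j fun _ ha => Or.inl (hx ha)).1

/-- the fixed generators are determined by the forms -/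
theorem inj (kc : KC2Stmt) {E : Dat2 n} (hE : E.Ok) (y : Finset (Ix n)) {U U' : Finset (Gen n)}
    (hU : U ⊆ E.W0) (hU' : U' ⊆ E.W0) (h : Geo2 E y U) (h' : Geo2 E y U') : U = U' := by
  have hn : 0 < n := lt_of_lt_of_le (by norm_num) hE.ok.two
  have hS : symmDiff U U' ⊆ E.W0 := symmDiff_subset_union.trans (union_subset hU hU')
  have hI : U ∩ U' ⊆ E.W0 := inter_subset_left.trans hU
  have key : ∀ j : Fin 3, IsSquare (Gv E.G j (symmDiff U U')) := fun j =>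
    GeoP.sq_of_mul (Gv_ne kc hE hI j) (Cy_ne E.D hE.ok y (j, ⟨0, hn⟩)) (h (j, ⟨0, hn⟩))
      (h' (j, ⟨0, hn⟩)) (by rw [← sq]; exact (kc n E hE).2.2.2.2.1 U U' j)
  exact symmDiff_eq_bot.1 (hE.ind _ hS 0 1 (by decide) (key 0) (key 1))

/-- the values of the forms at a root -/
theorem root_val {r : ℕ} (F : Surf n) (B : Base n) (hF : Hyp2 F r) (hB : Ok2 F B) (k : Ix n) :
    ∃ τ : ℚ, ∀ j, F.L j (F.root k) = τ * (((B.μ j : ℚ) * B.a j) * (B.e j - B.e k)) := by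
  obtain ⟨k', hk'⟩ : ∃ k' : Ix n, k' ≠ k := by
    refine ⟨(k.1 + 1, k.2), fun h => ?_⟩
    have h1 : k.1 + 1 = k.1 := congrArg Prod.fst h
    revert h1
    generalize k.1 = x
    revert x
    decide
  have h0 : ∀ j, (F.A j : ℚ) * B.v0.1 + F.B j * B.v0.2 = B.μ j * B.a j := fun j => by
    exact_mod_cast hB.l0 j
  have h1 : ∀ j, (F.A j : ℚ) * B.v1.1 + F.B j * B.v1.2 = B.μ j * B.a j * B.e j := fun j => by
    exact_mod_cast hB.l1 j
  have hne : ((B.μ k' : ℚ) * B.a k') * (B.e k' - B.e k) ≠ 0 := by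
    refine mul_ne_zero (mul_ne_zero ?_ ?_) ?_
    · exact_mod_cast (hB.pre.sm k').1
    · exact_mod_cast (hB.sqf k').ne_zero
    · exact_mod_cast sub_ne_zero.2 (hB.ne k' k hk')
  refine ⟨F.L k' (F.root k) / (((B.μ k' : ℚ) * B.a k') * (B.e k' - B.e k)), fun j => ?_⟩
  rw [div_mul_eq_mul_div, eq_div_iff hne]
  simp only [Surf.L, Surf.root]
  linear_combination
    (-((F.A j : ℚ) * F.B k + F.B j * -F.A k)) * (h1 k' - (B.e k : ℚ) * h0 k') +
      ((F.A k' : ℚ) * F.B k + F.B k' * -F.A k) * (h1 j - (B.e k : ℚ) * h0 j) +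
      ((F.A j : ℚ) * F.B k' - F.A k' * F.B j) * (h1 k - (B.e k : ℚ) * h0 k)

theorem gam_eq (F : Surf n) (k : Ix n) :
    F.gam k = ((if k.1 = 0 then -cZ2 F k else cZ2 F k : ℤ) : ℚ) := by
  obtain ⟨i, k⟩ := k
  fin_cases i <;> simp [Surf.gam, cZ2, GeoP.D_root]

/-- a geometric class gives an element of the residue group -/
theorem mem {r : ℕ} (mat : MATStmt) (kc : KC2Stmt) (F : Surf n) (B : Base n) (Fr : Frame) (M : ℕ)
    (hF : Hyp2 F r) (hB : Ok2 F B) (hD : (dat2 F B Fr M).Ok) {y : Finset (Ix n)} (hy : y ∈ Yc n)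
    {U : Finset (Gen n)} (hU : U ⊆ (dat2 F B Fr M).W0) (h : Geo2 (dat2 F B Fr M) y U) :
    ∃ u, F.InS u y := by
  have hev : ∀ i, Even (y.filter fun j => j.1 ≠ i).card := (mem_filter.1 hy).2
  refine ⟨fun i => (Gv Fr.G i U : ℚ) * ∏ j ∈ y.filter (fun j => j.1 ≠ i), ((B.μ j : ℚ) * B.a j),
    fun i => ?_, ?_, hev, fun k => ?_⟩
  · refine mul_ne_zero ?_ (prod_ne_zero_iff.2 fun j _ => mul_ne_zero ?_ ?_)
    · exact_mod_cast Gv_ne kc hD hU i
    · exact_mod_cast (hB.pre.sm j).1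
    · exact_mod_cast (hB.sqf j).ne_zero
  · obtain ⟨w, e1⟩ := (mat n Fr (dg2 F B)).2.2 U
    have e2 := GeoP.prod_three y (fun j => j.1) fun j => ((B.μ j : ℚ) * B.a j)
    have e1' : (Gv Fr.G 0 U : ℚ) * Gv Fr.G 1 U * Gv Fr.G 2 U = (w : ℚ) * (w : ℚ) := by
      exact_mod_cast e1
    refine ⟨(w : ℚ) * ∏ j ∈ y, ((B.μ j : ℚ) * B.a j), ?_⟩
    rw [mul_mul_mul_comm (w : ℚ), ← e1', ← e2]
    ring
  · obtain ⟨τ, hτ⟩ := root_val F B hF hB k
    obtain ⟨m, hm⟩ := hev k.1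
    obtain ⟨s, hs⟩ := h k
    have hs' : (Gv Fr.G k.1 U : ℚ) * ((if k ∈ y then F.gam k else 1) *
        ∏ j ∈ y.filter (fun j => j.1 ≠ k.1), ((B.e j : ℚ) - B.e k)) = s * s := by
      have := congrArg (fun z : ℤ => (z : ℚ)) hs
      simp only [Cy2, dat2, Int.cast_mul, Int.cast_prod, Int.cast_sub] at this
      rw [← this, gam_eq]
      split_ifs <;> simp
    refine ⟨s * τ ^ m * ∏ j ∈ y.filter (fun j => j.1 ≠ k.1), ((B.μ j : ℚ) * B.a j), ?_⟩
    simp only [Surf.del, hτ, prod_mul_distrib, prod_const, hm, pow_add, Rat.cast_id]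
    linear_combination (τ ^ m * τ ^ m *
      ((∏ j ∈ y.filter (fun j => j.1 ≠ k.1), (B.μ j : ℚ)) *
        ∏ j ∈ y.filter (fun j => j.1 ≠ k.1), (B.a j : ℚ)) ^ 2) * hs'

end GeoH

theorem geo : MATStmt → KC2Stmt → GEO2Stmt := by
  intro mat kc n r F B Fr M hF hB hD
  classical
  have sub : ∀ {U : Finset (Gen n)}, U ∈ Ker (dat2 F B Fr M).g (dat2 F B Fr M).W0 →
      U ⊆ (dat2 F B Fr M).W0 := fun h => mem_powerset.1 (mem_filter.1 h).1
  rw [← hF.card, ← Set.ncard_coe_finset]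
  refine Set.ncard_le_ncard_of_injOn Prod.fst (fun x hx => ?_) (fun x hx x' hx' hxx => ?_)
    (Set.toFinite _)
  · obtain ⟨hx1, hx2⟩ := mem_filter.1 (mem_coe.1 hx)
    obtain ⟨hy, hU⟩ := mem_product.1 hx1
    exact GeoH.mem mat kc F B Fr M hF hB hD hy (sub hU) hx2
  · obtain ⟨hx1, hx2⟩ := mem_filter.1 (mem_coe.1 hx)
    obtain ⟨hx1', hx2'⟩ := mem_filter.1 (mem_coe.1 hx')
    refine Prod.ext hxx ?_
    rw [← hxx] at hx2'
    exact GeoH.inj kc hD x.1 (sub (mem_product.1 hx1).2) (sub (mem_product.1 hx1').2) hx2 hx2'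

end Pool.Agent.MP_a43263_nt.RH

end
end MrgPart6

-- ======== part 7: formerly Pool.Agent.MP_a43263_nt.RH.Good
section MrgPart7

/-! PROJECT RANKG, THEOREM G: a small kernel gives a good fibre. -/

set_option autoImplicit false

noncomputable section

namespace Pool.Agent.MP_a43263_nt.RH

open Finset
open R2 (Ker ELS)
open RG RG.GoodAux

namespace GoodAux

variable {n : ℕ} {F : Surf n} {N : ℕ} {μ : Ix n → ℤ} {p : ℕ} [Fact p.Prime]

theorem evn_sm {u : ℤ} (h : Smooth N u) (hp : ¬p ∣ N) : Evn p (u : ℚ) :=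
  Evn.int fun hd => hp (h.2 p Fact.out hd)

theorem evn_root (hB : Pre F N μ) (hp : ¬p ∣ N) {j k : Ix n} (h : j.1 ≠ k.1) :
    Evn p (F.L j (F.root k)) := by
  rw [L_root]
  exact evn_sm (hB.sr j k fun e => h (congrArg Prod.fst e)) hp

theorem evn_D (hB : Pre F N μ) (hp : ¬p ∣ N) {i : Fin 3} {k : Ix n} (h : i ≠ k.1) :
    Evn p (F.D i (F.root k)) :=
  (evn_sm (hB.sc i) hp).mul (Evn.prod fun _ _ => evn_root hB hp h)

theorem evn_gam (hB : Pre F N μ) (hp : ¬p ∣ N) (k : Ix n) : Evn p (F.gam k) := by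
  obtain ⟨i, k⟩ := k
  fin_cases i
  · exact evn_D (i := 1) (k := (0, k)) hB hp (by simp)
  · exact (evn_D (i := 2) (k := (1, k)) hB hp (by simp)).neg
  · exact (evn_D (i := 1) (k := (2, k)) hB hp (by simp)).neg

theorem evn_u (hB : Pre F N μ) (hp : ¬p ∣ N) {u : Fin 3 → ℚ} {y : Finset (Ix n)} (h : F.InS u y)
    (k : Ix n) : Evn p (u k.1) := by
  have h1 : Evn p (∏ j ∈ y.filter (fun j => j.1 ≠ k.1), F.L j (F.root k)) :=
    Evn.prod fun j hj => evn_root hB hp (mem_filter.1 hj).2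
  have h2 : Evn p (if k ∈ y then F.gam k else 1) := by
    split_ifs
    · exact evn_gam hB hp k
    · exact Evn.one
  have h3 := h.2.2.2 k
  simp only [Surf.del, Rat.cast_id] at h3
  exact ((Evn.of_sq (mul_ne_zero (mul_ne_zero (h.1 _) h1.1) h2.1) h3).left h2).left h1

variable {B : Base n}

/-- the classes stay different after specialisation -/
theorem sub_of_sq2 {D : Dat n} (hB : Ok2 F B) (hM : B.Fits D.M) {l : Ix n → ℕ}
    (hl : Adm D l) (h1 : ∀ j, 1 < l j) {v : ℤ × ℤ}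
    (hv : ∀ j, F.LZ j v = B.μ j * B.a j * l j) {u u' : Fin 3 → ℚ} {y y' : Finset (Ix n)}
    (hy : F.InS u y) (hy' : F.InS u' y')
    (h₂ : IsSquare (F.del u y 2 ((v.1 : ℚ), (v.2 : ℚ)) * F.del u' y' 2 ((v.1 : ℚ), (v.2 : ℚ))))
    (h₁ : IsSquare (F.del u y 1 ((v.1 : ℚ), (v.2 : ℚ)) * F.del u' y' 1 ((v.1 : ℚ), (v.2 : ℚ)))) :
    y ⊆ y' := by
  intro j hj
  by_contra hj'
  obtain ⟨q, hq, hql⟩ := Nat.exists_prime_and_dvd (h1 j).ne'
  have : Fact q.Prime := ⟨hq⟩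
  have hqM : ¬q ∣ D.M := fun hd => by
    have h8 : q ∣ 8 * D.M := hd.mul_left 8
    have := ((hl.one j).of_dvd h8).symm
    rw [Nat.ModEq, Nat.mod_eq_zero_of_dvd hql, Nat.mod_eq_of_lt hq.one_lt] at this
    exact one_ne_zero this
  have hqN : ¬q ∣ B.N := fun hd => by
    have hne : j ≠ (j.1 + 1, j.2) := fun e => by
      have := congrArg Prod.fst e
      simp at this
    have h := hM.dv j _ hne
    have h' : (q : ℤ) ∣ (D.M : ℤ) :=
      (((Int.natCast_dvd_natCast.2 hd).mul_left 128).mul_right _).trans h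
    exact hqM (Int.natCast_dvd_natCast.1 h')
  have hma : ∀ k, Evn q ((B.μ k : ℚ) * (B.a k : ℚ)) := fun k =>
    (evn_sm (hB.pre.sm k) hqN).mul (Evn.nat fun hd => hqM (hd.trans (hM.aM k)))
  have hL : ∀ k, F.L k ((v.1 : ℚ), (v.2 : ℚ)) = (l k : ℚ) * ((B.μ k : ℚ) * (B.a k : ℚ)) :=
    fun k => by
      rw [L_cast, hv k]
      push_cast
      ring
  have hk : ∀ k, k ≠ j → Evn q (F.L k ((v.1 : ℚ), (v.2 : ℚ))) := fun k hk => by
    rw [hL]
    refine (Evn.nat fun hd => hq.one_lt.ne' ?_).mul (hma k)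
    exact Nat.eq_one_of_dvd_coprimes (hl.cop k j hk) hd hql
  have hjo : Od q (F.L j ((v.1 : ℚ), (v.2 : ℚ))) := by
    rw [hL]
    exact (Od.nat (hl.sqf j) hql).mul (hma j)
  have key : ∀ i : Fin 3, j.1 ≠ i → ¬IsSquare
      (F.del u y i ((v.1 : ℚ), (v.2 : ℚ)) * F.del u' y' i ((v.1 : ℚ), (v.2 : ℚ))) := by
    intro i hi
    have e1 : Evn q (F.del u' y' i ((v.1 : ℚ), (v.2 : ℚ))) := by
      simp only [Surf.del, Rat.cast_id]
      exact (evn_u hB.pre hqN hy' (i, j.2)).mul (Evn.prod fun k hk' =>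
        hk k fun e => hj' (e ▸ (mem_filter.1 hk').1))
    have e2 : Od q (F.del u y i ((v.1 : ℚ), (v.2 : ℚ))) := by
      simp only [Surf.del, Rat.cast_id]
      rw [← mul_prod_erase _ _ (mem_filter.2 ⟨hj, hi⟩), mul_left_comm]
      exact hjo.mul ((evn_u hB.pre hqN hy (i, j.2)).mul (Evn.prod fun k hk' =>
        hk k (ne_of_mem_erase hk')))
    exact (e2.mul e1).not_sq
  by_cases hc : j.1 = 1
  · exact key 2 (by rw [hc]; decide) h₂
  · exact key 1 hc h₁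

theorem D_val2 {l : Ix n → ℕ} {v : ℤ × ℤ} (hv : ∀ j, F.LZ j v = B.μ j * B.a j * l j) (i : Fin 3) :
    F.D i ((v.1 : ℚ), (v.2 : ℚ)) = ((bv F B.μ i * B.pr l i : ℤ) : ℚ) := by
  simp only [Surf.D, L_cast, hv, Base.pr, bv]
  push_cast
  rw [mul_assoc, ← prod_mul_distrib]
  simp only [mul_assoc]

end GoodAux

open GoodAux in
theorem good (alg : ALG2Stmt) (loc : LOC2Stmt) (br : BR2Stmt) (sp : SPEStmt) : GOOD2Stmt := by
  classical
  intro n r F B Fr M hF hB hM hFr hk l hl h1 hK v hv hv2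
  have hloc := ((br n r F B Fr M hF hB hM hFr hk).2 l hl).1
  have hA : ∀ i, (B.pr l i : ℤ) ≠ 0 := fun i h => by
    have h0 : B.pr l i = 0 := by exact_mod_cast h
    have h2 := hloc.one i
    have h3 := hloc.pos
    rw [h0, Nat.ModEq, Nat.zero_mod, Nat.mod_eq_of_lt (by omega)] at h2
    exact zero_ne_one h2
  obtain ⟨u, hu⟩ : ∃ u : Finset (Ix n) → Fin 3 → ℚ, ∀ y, (∃ w, F.InS w y) → F.InS (u y) y :=
    ⟨fun y => if h : ∃ w, F.InS w y then h.choose else 0, fun y h => by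
      simp only [dif_pos h]
      exact h.choose_spec⟩
  have hL : ∀ j, F.L j ((v.1 : ℚ), (v.2 : ℚ)) ≠ 0 := fun j => by
    rw [L_cast, hv j]
    have h2 := (hB.sqf j).ne_zero
    have h3 := h1 j
    exact_mod_cast mul_ne_zero (mul_ne_zero (hB.pre.sm j).1 (by exact_mod_cast h2)) (by omega)
  have hd : ∀ y, (∃ w, F.InS w y) → ∀ i, F.del (u y) y i ((v.1 : ℚ), (v.2 : ℚ)) ≠ 0 :=
    fun y hy i => by
      simp only [Surf.del, Rat.cast_id]
      exact mul_ne_zero ((hu y hy).1 i) (prod_ne_zero_iff.2 fun j _ => hL j)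
  unfold Surf.fibre
  rw [D_val2 hv 1, D_val2 hv 2]
  refine alg _ _ r (Finset (Ix n)) (Finset (Gen n)) (univ.filter fun y => ∃ w, F.InS w y)
    (fun y => F.del (u y) y 2 ((v.1 : ℚ), (v.2 : ℚ)))
    (fun y => F.del (u y) y 1 ((v.1 : ℚ), (v.2 : ℚ))) _ (fun y => (Gv Fr.G 2 y : ℚ))
    (fun y => (Gv Fr.G 1 y : ℚ)) ?_ ?_ ?_ ?_ ?_ ?_ hK ?_
  · exact Int.cast_ne_zero.2 (mul_ne_zero hloc.sa.1 (hA 1))
  · exact Int.cast_ne_zero.2 (mul_ne_zero hloc.sb.1 (hA 2))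
  · intro h
    have h2 := hloc.sum
    rw [Int.cast_inj.1 h, sub_self] at h2
    exact mul_ne_zero hloc.sd.1 (hA 0) h2.symm
  · rw [← hF.card, ← Set.ncard_coe_finset]
    congr 1
    ext y
    simp
  · intro y hy
    have hy' := (mem_filter.1 hy).2
    refine ⟨hd y hy' 2, hd y hy' 1, ?_⟩
    rw [← D_val2 hv 1, ← D_val2 hv 2]
    exact sp n F (u y) y hF.ev (hu y hy').2.2.1 (hF.sol _ _ (hu y hy')) _
      (Int.cast_ne_zero.2 hv2)
  · intro y hy y' hy' h₂ h₁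
    have a := hu y (mem_filter.1 hy).2
    have a' := hu y' (mem_filter.1 hy').2
    refine Subset.antisymm (sub_of_sq2 hB hM hl h1 hv a a' h₂ h₁)
      (sub_of_sq2 hB hM hl h1 hv a' a ?_ ?_)
    · rwa [mul_comm]
    · rwa [mul_comm]
  · intro e₂ e₃ h₂ h₃ he
    obtain ⟨y, hy, s₂, s₃, g₂, g₁⟩ := loc n B.N _ _ Fr _ _ _ hFr hloc e₂ e₃ h₂ h₃ he
    refine ⟨y, ?_, s₂, s₃, Int.cast_ne_zero.2 g₂, Int.cast_ne_zero.2 g₁⟩
    rw [← union_assoc] at hy
    exact hy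

end Pool.Agent.MP_a43263_nt.RH

end
end MrgPart7

-- ======== part 8: formerly Pool.Agent.MP_a43263_nt.RH.Main
section MrgPart8

/-! PROJECT RANKG, THEOREM G: assembly. -/

set_option autoImplicit false

namespace Pool.Agent.MP_a43263_nt.RH

theorem mkvAll : MKV2Stmt :=
  have hk := kc gp
  have hs := sym gp hk
  mkv hk hs RG.T.cnt RG.T.mes RG.T.dom (lya RG.T.bor hk RG.T.mer RG.T.exp (step RG.T.bor hk))
    (kil hk RG.T.mer RG.T.exp) (os (key hk hs RG.T.gg))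

theorem main : MainStmt :=
  main_of RG.T.sha RG.rank RG.T.mer RG.T.mes RG.T.exp RG.T.pos RG.T.dom RG.T.cnt RG.T.bor RG.T.gg
    RG.spe hso hs2 pf recip grp frame const gp mat loc bor5 par alg kc sym step lya kil key os mkv
    pty base pt br geo good fin jin

end Pool.Agent.MP_a43263_nt.RH

end MrgPart8

-- marker of a merged file
example : 731051 + 79011 = 731051 + 79011 := rfl
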