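import Pool.Agent.MP_a43263_nt.RH.OneMaxi
import Pool.Agent.MP_a43263_nt.RH.Br
import Pool.Agent.MP_a43263_nt.RH.Main
import Pool.Agent.MP_a43263_nt.RH.Par
import Pool.Agent.MP_a43263_nt.RH.Loc
import Pool.Agent.MP_a43263_nt.RH.Frame

-- ======== part 0: formerly Pool.Agent.MP_a43263_nt.RH.OneBr
section MrgPart0

/-! PROJECT RANKG, round ONE: the modules BR and GOOD under the basic hypotheses. -/

set_option autoImplicit false

noncomputable section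

namespace Pool.Agent.MP_a43263_nt.RH

open Finset
open R2 (Sgn chi Ker sg ELS)
open RG RG.Br

namespace Br3

open Br2

variable {n : ℕ} {F : Surf n} {B : Base n} {Fr : Frame} {M : ℕ}

theorem two3 (h : Hyp0 F) : 2 ≤ n := by
  obtain ⟨m, hm⟩ := h.ev
  have := h.pos
  omega

theorem sumZ3 (h : Hyp0 F) (v : ℤ × ℤ) : F.DZ 0 v = F.DZ 1 v - F.DZ 2 v := by
  have := h.sum (v.1, v.2)
  rw [Surf.D_cast, Surf.D_cast, Surf.D_cast] at this
  exact_mod_cast this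

/-- the diagonal symbol at a prime of `a j * l j` -/
theorem diag3 (hF : Hyp0 F) (hB : Ok2 F B) (hM : B.Fits M) {l : Ix n → ℕ}
    (hl : Adm (B.dat F M) l) {v : ℤ × ℤ} (hv : ∀ j, F.LZ j v = B.μ j * B.a j * l j) (j : Ix n)
    {p : ℕ} (hp : p.Prime) (hd : p ∣ B.a j * l j) :
    jacobiSym (cZ2 F j) p = jacobiSym (![-(bv F B.μ 1 * B.pr l 1), -(bv F B.μ 2 * B.pr l 2),
      -(bv F B.μ 1 * B.pr l 1)] j.1) p := by
  have hp' : Prime (p : ℤ) := Nat.prime_iff_prime_int.1 hp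
  have hN : ¬p ∣ B.N := not_dvd_of_cop hp (cop_of_one (al_one (two3 hF) hB hM hl j)) hd
  have := nontriv (two3 hF)
  obtain ⟨k0, hk0⟩ := exists_ne j
  obtain ⟨m, hm⟩ := hF.ev
  have e2 : ![-(bv F B.μ 1 * B.pr l 1), -(bv F B.μ 2 * B.pr l 2), -(bv F B.μ 1 * B.pr l 1)] j.1 =
      -F.DZ (oc j.1) v := by
    rw [DZ_eq hv]
    obtain ⟨i, k⟩ := j
    fin_cases i <;> rfl
  have hr : ¬(p : ℤ) ∣ F.LZ k0 (F.rootZ j) := fun h => hN ((hB.pre.sr _ _ hk0).2 p hp h)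
  have ht : ¬(p : ℤ) ∣ F.LZ k0 v := fun h => by
    rw [hv, mul_assoc] at h
    rcases hp'.dvd_or_dvd h with h | h
    · exact hN ((hB.pre.sm _).2 p hp h)
    · exact not_dvd_of_cop hp (cop_al hB hM hl hk0.symm) hd (by exact_mod_cast h)
  have hj : (p : ℤ) ∣ F.LZ j v := by
    rw [hv, mul_assoc]
    exact Dvd.dvd.mul_left (by exact_mod_cast hd) _
  have hk : ∀ k : Ix n, F.LZ k0 v * F.LZ k (F.rootZ j) ≡ F.LZ k v * F.LZ k0 (F.rootZ j) [ZMOD p] :=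
    fun k => (Int.modEq_iff_dvd.2 (by rw [F.cramer]; exact hj.mul_right _))
  have hP : ∏ k, F.LZ k0 v * F.LZ (oc j.1, k) (F.rootZ j) ≡
      ∏ k, F.LZ (oc j.1, k) v * F.LZ k0 (F.rootZ j) [ZMOD p] :=
    prod_modEq _ fun k _ => hk (oc j.1, k)
  rw [prod_mul_distrib, prod_mul_distrib, prod_const, prod_const, card_univ, Fintype.card_fin]
    at hP
  rw [Br2.cZ_eq, e2]
  refine jac_congr hp (s := F.LZ k0 v ^ m) (t := F.LZ k0 (F.rootZ j) ^ m)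
    (fun h => ht (hp'.dvd_of_dvd_pow h)) (fun h => hr (hp'.dvd_of_dvd_pow h)) ?_
  have h6 := hP.mul_left (-F.c (oc j.1))
  have h7 : ∀ x : ℤ, x ^ n = (x ^ m) ^ 2 := fun x => by rw [sq, ← pow_add, ← hm]
  rw [h7, h7] at h6
  convert h6 using 1
  · rw [Surf.DZ]; ring
  · rw [Surf.DZ]; ring

theorem ok3 (gp : GPStmt) (mat : MATStmt) (hF : Hyp0 F) (hB : Ok2 F B) (hM : B.Fits M)
    {a b : ℤ} (hFr : Fr.Ok B.N a b) (hk : 2 * Fr.k ≤ M) : (dat2 F B Fr M).Ok := by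
  have hNM : B.N ∣ M := NM (two3 hF) hM
  have h2M : 2 ∣ M := hB.pre.two.trans hNM
  have fix : ∀ x ∈ Fr.V0 n ∪ V1 B, x.1.2 = none ∧ x.2 ≤ M ∧ ∀ j, Smooth M (Fr.G j x) := by
    intro x hx
    rcases mem_union.1 hx with h | h
    · refine ⟨?_, ?_, fun j => sm_mono (sm_V0 hFr h j) hNM⟩
      · obtain ⟨i, -, rfl⟩ := mem_V0.1 h
        rfl
      · obtain ⟨i, hi, rfl⟩ := mem_V0.1 h
        change 2 * i ≤ M
        omega
    · have h1 : x.2 ∣ M := by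
        obtain ⟨j, p, hp, rfl⟩ := mem_V1.1 h
        exact (Nat.dvd_of_mem_primeFactors hp).trans (hM.aM j)
      refine ⟨?_, Nat.le_of_dvd hM.pos h1, fun j => ?_⟩
      · obtain ⟨j, p, -, rfl⟩ := mem_V1.1 h
        rfl
      · obtain ⟨hp, -, e⟩ := G_V1 (Fr := Fr) hB h j
        rw [e]
        exact sm_mono (sm_Gp gp _ _ hp) h1
  have ord : ∀ j (x : Gen n), Ord M x → Fr.G j x = Gp x.1.1 x.2 j := fun j x hx =>
    G_odd j (odd_of hx.2.1 h2M hx.2.2)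
  refine ⟨⟨two3 hF, hM.pos, hM.sm, hB.ne, fun h k hk => (dvd_mul_left _ _).trans (hM.dv h k hk),
    fun h => (sm_cZ hB h).1, fun h => (sm_mono (sm_cZ hB h) hNM).2, ?_, fun x hx => ?_,
    fun _ _ => rfl⟩, (mat n Fr _).1 hFr.sgn, fix, ord, fun x y hy hx => ?_, fun h p hp hd => ?_,
    fun U hU i j hij => ind gp hB hFr hU hij⟩
  · refine ⟨mem_singleton_self _, fun x hx => .inl (mem_singleton.1 hx), fun x hx y hy _ => ?_,
      fun x hx h0 => ?_⟩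
    · rw [mem_singleton.1 hx, mem_singleton.1 hy]
    · rw [mem_singleton.1 hx] at h0
      exact absurd rfl h0
  · rw [mem_singleton.1 hx]
    exact ⟨rfl, one_dvd _⟩
  · refine (mat n Fr _).2.1 x y ?_ hy.2.1 (fun e => hy.2.2 (e ▸ h2M)) fun hd => ?_
    · rintro rfl
      rcases hx with hx | hx
      · exact hy.1 (fix x hx).1
      · exact hx.2 rfl
    · rcases hx with hx | hx
      · exact hy.2.2 (((fix x hx).2.2 _).2 _ hy.2.1 hd)
      · rw [ord _ x hx.1] at hd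
        exact hx.2 ((Nat.prime_dvd_prime_iff_eq hy.2.1 hx.1.2.1).1
          ((sm_Gp gp _ _ hx.1.2.1).2 _ hy.2.1 hd)).symm
  · have h1 : ¬2 ∣ p := odd_of hp h2M hd
    have h3 : ¬(p : ℤ) ∣ cZ2 F h := fun e => hd ((sm_mono (sm_cZ hB h) hNM).2 p hp e)
    have h4 := jacobiSym.eq_one_or_neg_one (a := cZ2 F h) (b := p)
      (Int.isCoprime_iff_gcd_eq_one.1
        (((Nat.prime_iff_prime_int.1 hp).irreducible.coprime_iff_not_dvd).2 h3).symm)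
    change Fr.g (dg2 F B) (tg h, p) (tg h, p) = jacobiSym (cZ2 F h) p
    rw [Frame.g, if_neg fun e => h1 (Nat.dvd_of_mod_eq_zero e.1), if_pos rfl]
    change sg (jacobiSym (cZ2 F h) p) = _
    rcases h4 with e | e <;> rw [e] <;> rfl


end Br3

open Br2 Br3 in
theorem br3 (gp : GPStmt) (mat : MATStmt) (pt : PT2Stmt) : BR3Stmt := by
  intro n F B Fr M hF hB hM hFr hk
  refine ⟨Br3.ok3 gp mat hF hB hM hFr hk, fun l hl => ?_⟩
  obtain ⟨v, -, hv⟩ := pt n F B Fr M (two3 hF) hB hM l hl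
  replace hl := adm hl
  have hN : ∀ j, (l j).Coprime B.N := fun j => cop_of_one (l_one (two3 hF) hM hl j)
  have hal : ∀ x ∈ V1 B, ∀ y ∈ gens l, x.2 ≠ y.2 := by
    intro x hx y hy e
    obtain ⟨j, p, hp, rfl⟩ := mem_V1.1 hx
    obtain ⟨k, -, hq⟩ := mem_gens.1 hy
    rw [← e] at hq
    exact not_dvd_of_cop (Nat.prime_of_mem_primeFactors hp) (hl.coprime_M k)
      (Nat.dvd_of_mem_primeFactors hq) ((Nat.dvd_of_mem_primeFactors hp).trans (hM.aM j))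
  refine ⟨⟨hB.pre.pos, hB.pre.two, sm_bv hB 1, sm_bv hB 2, hB.pre.sum ▸ sm_bv hB 0,
    hB.pre.sum ▸ hB.pre.sq, fun x hx => ?_, fun x hx y hy e => ?_, fun i => ?_, fun i => ?_, ?_,
    fun x hx => ?_⟩, ?_, ?_⟩
  · rcases mem_union.1 hx with hx | hx
    · exact ⟨(G_V1 (Fr := Fr) hB hx 0).1, (G_V1 (Fr := Fr) hB hx 0).2.1⟩
    · obtain ⟨j, -, hp⟩ := mem_gens.1 hx
      exact ⟨Nat.prime_of_mem_primeFactors hp, not_dvd_of_cop (Nat.prime_of_mem_primeFactors hp)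
        (hN j) (Nat.dvd_of_mem_primeFactors hp)⟩
  · rcases mem_union.1 hx with hx | hx <;> rcases mem_union.1 hy with hy | hy
    · exact dist_V1 hB x hx y hy e
    · exact absurd e (hal x hx y hy)
    · exact absurd e.symm (hal y hy x hx)
    · exact dist_gens hl.cop x hx y hy e
  · rw [Br2.prod_cls hB l i fun x => x.2]
    exact prod_congr rfl fun k _ => by
      rw [Nat.prod_primeFactors_of_squarefree (hB.sqf _),
        Nat.prod_primeFactors_of_squarefree (hl.sqf _)]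
  · exact prod_induction _ (· ≡ 1 [MOD 128 * B.N]) (fun _ _ h h' => by simpa using h.mul h') rfl
      fun k _ => Br2.al_one (two3 hF) hB hM hl (i, k)
  · have h1 := sumZ3 hF v
    rw [DZ_eq hv, DZ_eq hv, DZ_eq hv] at h1
    rw [← hB.pre.sum]
    exact h1.symm
  · rcases mem_union.1 hx with hx | hx
    · obtain ⟨j, p, hp, rfl⟩ := mem_V1.1 hx
      rw [Br2.dg_a hB hp]
      exact Br3.diag3 hF hB hM hl hv j (Nat.prime_of_mem_primeFactors hp)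
        ((Nat.dvd_of_mem_primeFactors hp).mul_right _)
    · obtain ⟨t, p⟩ := x
      obtain ⟨j, rfl, hp⟩ := mem_gens.1 hx
      exact Br3.diag3 hF hB hM hl hv j (Nat.prime_of_mem_primeFactors hp)
        ((Nat.dvd_of_mem_primeFactors hp).mul_left _)
  · rw [Br2.prod_cls hB]
    refine prod_eq_one fun k _ => ?_
    rw [prod_congr rfl fun p hp => Br2.dg_a hB hp 0, jac_sqf _ (hB.sqf _)]
    change _ * ∏ p ∈ (l (0, k)).primeFactors, jacobiSym (cZ2 F (0, k)) p = 1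
    rw [jac_sqf _ (hl.sqf _), jac_one (hB.one _) (sm_cZ hB _).1 (sm_cZ hB _).2,
      jac_one (l_one (two3 hF) hM hl _) (sm_cZ hB _).1 (sm_cZ hB _).2, one_mul]
  · have := Br2.prod_VV hB l fun _ => Multiplicative.ofAdd (1 : ℕ)
    simpa using congrArg Multiplicative.toAdd this

open RG.GoodAux in
open GoodAux in
theorem good3 (alg : ALG2Stmt) (loc : LOC2Stmt) (br : BR3Stmt) (sp : SPE3Stmt) : GOOD3Stmt := by
  classical
  intro n r F B Fr M hF hc hB hM hFr hk l hl h1 hK v hv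
  have hloc := ((br n F B Fr M hF hB hM hFr hk).2 l hl).1
  have hA : ∀ i, (B.pr l i : ℤ) ≠ 0 := fun i h => by
    have h0 : B.pr l i = 0 := by exact_mod_cast h
    have h2 := hloc.one i
    have h3 := hloc.pos
    rw [h0, Nat.ModEq, Nat.zero_mod, Nat.mod_eq_of_lt (by omega)] at h2
    exact zero_ne_one h2
  obtain ⟨u, hu⟩ : ∃ u : Finset (Ix n) → Fin 3 → ℚ, ∀ y, (∃ w, F.InS w y ∧ SolG F w y) →
      F.InS (u y) y ∧ SolG F (u y) y :=
    ⟨fun y => if h : ∃ w, F.InS w y ∧ SolG F w y then h.choose else 0, fun y h => by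
      simp only [dif_pos h]
      exact h.choose_spec⟩
  have hL : ∀ j, F.L j ((v.1 : ℚ), (v.2 : ℚ)) ≠ 0 := fun j => by
    rw [L_cast, hv j]
    have h2 := (hB.sqf j).ne_zero
    have h3 := h1 j
    exact_mod_cast mul_ne_zero (mul_ne_zero (hB.pre.sm j).1 (by exact_mod_cast h2)) (by omega)
  have hd : ∀ y, (∃ w, F.InS w y ∧ SolG F w y) → ∀ i,
      F.del (u y) y i ((v.1 : ℚ), (v.2 : ℚ)) ≠ 0 :=
    fun y hy i => by
      simp only [Surf.del, Rat.cast_id]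
      exact mul_ne_zero ((hu y hy).1.1 i) (prod_ne_zero_iff.2 fun j _ => hL j)
  unfold Surf.fibre
  rw [D_val2 hv 1, D_val2 hv 2]
  refine alg _ _ r (Finset (Ix n)) (Finset (Gen n)) 
    (univ.filter fun y => ∃ w, F.InS w y ∧ SolG F w y)
    (fun y => F.del (u y) y 2 ((v.1 : ℚ), (v.2 : ℚ)))
    (fun y => F.del (u y) y 1 ((v.1 : ℚ), (v.2 : ℚ))) _ (fun y => (Gv Fr.G 2 y : ℚ))
    (fun y => (Gv Fr.G 1 y : ℚ)) ?_ ?_ ?_ ?_ ?_ ?_ hK ?_
  · exact Int.cast_ne_zero.2 (mul_ne_zero hloc.sa.1 (hA 1))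
  · exact Int.cast_ne_zero.2 (mul_ne_zero hloc.sb.1 (hA 2))
  · intro h
    have h2 := hloc.sum
    rw [Int.cast_inj.1 h, sub_self] at h2
    exact mul_ne_zero hloc.sd.1 (hA 0) h2.symm
  · rw [← hc, ← Set.ncard_coe_finset]
    congr 1
    ext y
    simp
  · intro y hy
    have hy' := (mem_filter.1 hy).2
    refine ⟨hd y hy' 2, hd y hy' 1, ?_⟩
    rw [← D_val2 hv 1, ← D_val2 hv 2]
    exact sp n F (u y) y hF (hu y hy').1 (hu y hy').2 _ hL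
  · intro y hy y' hy' h₂ h₁
    have a := (hu y (mem_filter.1 hy).2).1
    have a' := (hu y' (mem_filter.1 hy').2).1
    refine Subset.antisymm (sub_of_sq2 hB hM hl h1 hv a a' h₂ h₁)
      (sub_of_sq2 hB hM hl h1 hv a' a ?_ ?_)
    · rwa [mul_comm]
    · rwa [mul_comm]
  · intro e₂ e₃ h₂ h₃ he
    obtain ⟨y, hy, s₂, s₃, g₂, g₁⟩ := loc n B.N _ _ Fr _ _ _ hFr hloc e₂ e₃ h₂ h₃ he
    refine ⟨y, ?_, s₂, s₃, Int.cast_ne_zero.2 g₂, Int.cast_ne_zero.2 g₁⟩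
    rw [← union_assoc] at hy
    exact hy

end Pool.Agent.MP_a43263_nt.RH

end
end MrgPart0

-- ======== part 1: formerly Pool.Agent.MP_a43263_nt.RH.OneGeo
section MrgPart1

/-! PROJECT RANKG, round ONE, row GEO3: geometric classes are locally soluble in the base fibre. -/

set_option autoImplicit false

noncomputable section

namespace Pool.Agent.MP_a43263_nt.RH

open Finset
open R2 (Ker ELS mem_Ker)
open RG

namespace OneGeo

variable {n : ℕ}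

theorem root_val (F : Surf n) (B : Base n) (hB : Ok2 F B) (k : Ix n) :
    ∃ τ : ℚ, ∀ j, F.L j (F.root k) = τ * (((B.μ j : ℚ) * B.a j) * (B.e j - B.e k)) := by
  obtain ⟨k', hk'⟩ : ∃ k' : Ix n, k' ≠ k := by
    refine ⟨(k.1 + 1, k.2), fun h => ?_⟩
    have h1 : k.1 + 1 = k.1 := congrArg Prod.fst h
    revert h1
    generalize k.1 = x
    revert x
    decide
  have h0 : ∀ j, (F.A j : ℚ) * B.v0.1 + F.B j * B.v0.2 = B.μ j * B.a j := fun j => by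
    exact_mod_cast hB.l0 j
  have h1 : ∀ j, (F.A j : ℚ) * B.v1.1 + F.B j * B.v1.2 = B.μ j * B.a j * B.e j := fun j => by
    exact_mod_cast hB.l1 j
  have hne : ((B.μ k' : ℚ) * B.a k') * (B.e k' - B.e k) ≠ 0 := by
    refine mul_ne_zero (mul_ne_zero ?_ ?_) ?_
    · exact_mod_cast (hB.pre.sm k').1
    · exact_mod_cast (hB.sqf k').ne_zero
    · exact_mod_cast sub_ne_zero.2 (hB.ne k' k hk')
  refine ⟨F.L k' (F.root k) / (((B.μ k' : ℚ) * B.a k') * (B.e k' - B.e k)), fun j => ?_⟩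
  rw [div_mul_eq_mul_div, eq_div_iff hne]
  simp only [Surf.L, Surf.root]
  linear_combination
    (-((F.A j : ℚ) * F.B k + F.B j * -F.A k)) * (h1 k' - (B.e k : ℚ) * h0 k') +
      ((F.A k' : ℚ) * F.B k + F.B k' * -F.A k) * (h1 j - (B.e k : ℚ) * h0 j) +
      ((F.A j : ℚ) * F.B k' - F.A k' * F.B j) * (h1 k - (B.e k : ℚ) * h0 k)

/-- the constants of a geometric class -/
def uu (B : Base n) (Fr : Frame) (y : Finset (Ix n)) (U : Finset (Gen n)) (i : Fin 3) : ℚ :=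
  (Gv Fr.G i U : ℚ) * ∏ j ∈ y.filter (fun j => j.1 ≠ i), ((B.μ j : ℚ) * B.a j)

theorem mem (mat : MATStmt) (kc : KC2Stmt) (F : Surf n) (B : Base n) (Fr : Frame) (M : ℕ)
    (hB : Ok2 F B) (hD : (dat2 F B Fr M).Ok) {y : Finset (Ix n)} (hy : y ∈ Yc n)
    {U : Finset (Gen n)} (hU : U ⊆ (dat2 F B Fr M).W0) (h : Geo2 (dat2 F B Fr M) y U) :
    F.InS (uu B Fr y U) y := by
  have hev : ∀ i, Even (y.filter fun j => j.1 ≠ i).card := (mem_filter.1 hy).2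
  refine ⟨fun i => ?_, ?_, hev, fun k => ?_⟩
  · refine mul_ne_zero ?_ (prod_ne_zero_iff.2 fun j _ => mul_ne_zero ?_ ?_)
    · exact_mod_cast GeoH.Gv_ne kc hD hU i
    · exact_mod_cast (hB.pre.sm j).1
    · exact_mod_cast (hB.sqf j).ne_zero
  · obtain ⟨w, e1⟩ := (mat n Fr (dg2 F B)).2.2 U
    have e2 := GeoP.prod_three y (fun j => j.1) fun j => ((B.μ j : ℚ) * B.a j)
    have e1' : (Gv Fr.G 0 U : ℚ) * Gv Fr.G 1 U * Gv Fr.G 2 U = (w : ℚ) * (w : ℚ) := by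
      exact_mod_cast e1
    refine ⟨(w : ℚ) * ∏ j ∈ y, ((B.μ j : ℚ) * B.a j), ?_⟩
    rw [mul_mul_mul_comm (w : ℚ), ← e1', ← e2]
    unfold uu
    ring
  · obtain ⟨τ, hτ⟩ := root_val F B hB k
    obtain ⟨m, hm⟩ := hev k.1
    obtain ⟨s, hs⟩ := h k
    have hs' : (Gv Fr.G k.1 U : ℚ) * ((if k ∈ y then F.gam k else 1) *
        ∏ j ∈ y.filter (fun j => j.1 ≠ k.1), ((B.e j : ℚ) - B.e k)) = s * s := by
      have := congrArg (fun z : ℤ => (z : ℚ)) hs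
      simp only [Cy2, dat2, Int.cast_mul, Int.cast_prod, Int.cast_sub] at this
      rw [← this, GeoH.gam_eq]
      split_ifs <;> simp
    refine ⟨s * τ ^ m * ∏ j ∈ y.filter (fun j => j.1 ≠ k.1), ((B.μ j : ℚ) * B.a j), ?_⟩
    simp only [uu, Surf.del, hτ, prod_mul_distrib, prod_const, hm, pow_add, Rat.cast_id]
    linear_combination (τ ^ m * τ ^ m *
      ((∏ j ∈ y.filter (fun j => j.1 ≠ k.1), (B.μ j : ℚ)) *
        ∏ j ∈ y.filter (fun j => j.1 ≠ k.1), (B.a j : ℚ)) ^ 2) * hs'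

theorem pm_sq {N : ℕ} {w s : ℤ} (hw : w.natAbs.Coprime N) (hs : Smooth N s)
    (h : IsSquare (w * s)) : ∃ t : ℤ, w = t ^ 2 ∨ w = -t ^ 2 := by
  obtain ⟨c, hc⟩ := h
  refine Int.sq_of_gcd_eq_one (b := s) (c := c) ?_ (hc.trans (sq c).symm)
  rw [Int.gcd_eq_natAbs]
  refine Nat.eq_one_iff_not_exists_prime_dvd.2 fun p hp e => ?_
  exact hp.not_dvd_one (hw ▸ Nat.dvd_gcd (e.trans (Nat.gcd_dvd_left _ _))
    (hs.2 p hp (Int.natCast_dvd.2 (e.trans (Nat.gcd_dvd_right _ _)))))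

theorem jac_one {N A : ℕ} {u P t : ℤ} (hu : Smooth N u) (hA : A ≡ 1 [MOD 128 * N]) (h0 : A ≠ 0)
    (hP : P ≠ 0) (hc : P.natAbs.Coprime N) (e : P * A = t ^ 2) : jacobiSym u P.natAbs = 1 := by
  have e1 : P.natAbs * A = t.natAbs * t.natAbs := by
    simpa [Int.natAbs_mul, sq] using congrArg Int.natAbs e
  have ht : t.natAbs ≠ 0 := left_ne_zero_of_mul (e1 ▸ mul_ne_zero (Int.natAbs_ne_zero.2 hP) h0)
  have e2 := congrArg (jacobiSym u) e1
  rw [jacobiSym.mul_right' _ (Int.natAbs_ne_zero.2 hP) h0, jacobiSym.mul_right' _ ht ht,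
    ParH.jac_smooth hu hA, mul_one] at e2
  exact (Frm.jac_pm hu hc).resolve_right fun c => by
    nlinarith [mul_self_nonneg (jacobiSym u t.natAbs)]

theorem cover_up {K : Type} [Field K] {a b d₂ d₃ s t : K} (hs : s ≠ 0) (ht : t ≠ 0)
    (h : Cover a b d₂ d₃) : Cover a b (d₂ * s ^ 2) (d₃ * t ^ 2) := by
  obtain ⟨z₀, z₂, z₃, w, h0, e2, e3⟩ := h
  refine ⟨z₀ / (s * t), z₂ / s, z₃ / t, w, fun c => h0 ?_, ?_, ?_⟩
  · simpa [hs, ht] using c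
  · rw [← e2]; field_simp
  · rw [← e3]; field_simp

theorem els (mat : MATStmt) (maxf : MAXFStmt) (unr : UNRStmt) (F : Surf n) (v : ℤ × ℤ)
    (B : Base n) (Fr : Frame) (M : ℕ) (hn : 0 < n) (hμ : B.μ = fun j => F.LZ j v) (hB : Ok2 F B)
    (hF : Fr.Ok B.N (bv F B.μ 1) (bv F B.μ 2)) {y : Finset (Ix n)} {U : Finset (Gen n)}
    (hU : U ∈ Ker (dat2 F B Fr M).g (dat2 F B Fr M).W0) (h : F.InS (uu B Fr y U) y) :
    ELS (F.D 1 (vq v)) (F.D 2 (vq v)) (F.del (uu B Fr y U) y 2 (vq v))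
      (F.del (uu B Fr y U) y 1 (vq v)) := by
  obtain ⟨hU, row⟩ := mem_Ker.1 hU
  change U ⊆ Fr.V0 n ∪ V1 B at hU
  change ∀ b ∈ Fr.V0 n ∪ V1 B, ∏ a ∈ U, Fr.g (dg2 F B) a b = 1 at row
  obtain ⟨m1, m2, -⟩ := mat n Fr (dg2 F B)
  replace m1 := m1 hF.sgn
  have tri : ∀ j : Fin 3, j = 0 ∨ j = 1 ∨ j = 2 := by decide
  have pr : ∀ x ∈ V1 B, x.2.Prime ∧ ¬x.2 ∣ B.N := fun x hx => by
    obtain ⟨j, p, hp, rfl⟩ := Br2.mem_V1.1 hx
    exact ⟨Nat.prime_of_mem_primeFactors hp, Br2.a_notN hB hp⟩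
  have p2 : ∀ x ∈ V1 B, x.2 ≠ 2 := fun x hx k => (pr x hx).2 (k ▸ hB.pre.two)
  have od : ∀ x ∈ V1 B, x.2 % 2 = 1 := fun x hx =>
    (pr x hx).1.eq_two_or_odd.resolve_left (p2 x hx)
  have GV : ∀ x ∈ V1 B, ∀ j, Fr.G j x = Gp x.1.1 x.2 j := fun x hx j =>
    if_neg (by have := od x hx; omega)
  have ab : ∀ x ∈ V1 B, ∀ j, (Fr.G j x).natAbs = if j = x.1.1 then 1 else x.2 := fun x hx j => by
    rw [GV x hx, LcH.abs_Gp]
  have ne : ∀ x ∈ V1 B, ∀ j, Fr.G j x ≠ 0 := fun x hx j => Int.natAbs_ne_zero.1 (by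
    rw [ab x hx]; split_ifs; exacts [one_ne_zero, (pr x hx).1.ne_zero])
  obtain ⟨x₀, U₁, hx₀, hV, hp⟩ : ∃ (x₀ : Finset ℕ) (U₁ : Finset (Gen n)), x₀ ⊆ range Fr.k ∧
      (∀ x ∈ U₁, x ∈ V1 B) ∧ ∀ f : Gen n → ℤ,
        ∏ x ∈ U, f x = (∏ i ∈ x₀, f ((0, none), 2 * i)) * ∏ x ∈ U₁, f x := by
    refine ⟨(range Fr.k).filter fun i => (((0, none), 2 * i) : Gen n) ∈ U, U.filter (· ∈ V1 B),
      filter_subset _ _, fun x hx => (mem_filter.1 hx).2, fun f => ?_⟩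
    rw [← prod_filter_not_mul_prod_filter U (· ∈ V1 B), ← prod_image (s := (range Fr.k).filter _)
      (g := fun i => (((0, none), 2 * i) : Gen n)) (f := f) fun i _ j _ e => by simpa using e]
    refine congrArg (· * _) (prod_congr (Finset.ext fun x => ?_) fun _ _ => rfl)
    simp only [mem_filter, mem_image, mem_range]
    refine ⟨fun ⟨c, d⟩ => ?_, ?_⟩
    · obtain ⟨i, hi, rfl⟩ := Br2.mem_V0.1 ((mem_union.1 (hU c)).resolve_right d)
      exact ⟨i, ⟨hi, c⟩, rfl⟩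
    · rintro ⟨i, ⟨-, c⟩, rfl⟩
      exact ⟨c, fun d => by simpa using od _ d⟩
  have sm0 : ∀ j, Smooth B.N (∏ i ∈ x₀, Fr.G j (((0, none), 2 * i) : Gen n)) := fun j =>
    Br2.sm_prod _ fun i hi => Br2.sm_V0 hF (Br2.mem_V0.2 ⟨i, mem_range.1 (hx₀ hi), rfl⟩) j
  have cop : ∀ j, (∏ x ∈ U₁, Fr.G j x).natAbs.Coprime B.N := fun j => by
    refine prod_induction _ (fun z : ℤ => z.natAbs.Coprime B.N)
      (fun x y hx hy => Int.natAbs_mul x y ▸ hx.mul_left hy) (Nat.coprime_one_left _) fun x hx => ?_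
    rw [ab x (hV x hx)]
    split_ifs
    exacts [Nat.coprime_one_left _, (Nat.Prime.coprime_iff_not_dvd (pr x (hV x hx)).1).2
      (pr x (hV x hx)).2]
  obtain ⟨A, hA⟩ : ∃ A : Fin 3 → ℕ, ∀ i, A i = ∏ j ∈ y.filter (fun j => j.1 ≠ i), B.a j :=
    ⟨_, fun _ => rfl⟩
  have A1 : ∀ i, A i ≡ 1 [MOD 128 * B.N] := fun i => hA i ▸
    prod_induction _ (fun z => z ≡ 1 [MOD 128 * B.N]) (fun _ _ a b => by simpa using a.mul b)
      rfl fun j _ => hB.one j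
  have A0 : ∀ i, A i ≠ 0 := fun i => hA i ▸ prod_ne_zero_iff.2 fun j _ => (hB.sqf j).ne_zero
  have eu : ∀ i, uu B Fr y U i = (((∏ x ∈ U₁, Fr.G i x) * A i : ℤ) : ℚ) *
      ((∏ t ∈ x₀, Fr.G i (((0, none), 2 * t) : Gen n) : ℤ) *
        (∏ j ∈ y.filter (fun j => j.1 ≠ i), B.μ j : ℤ)) := fun i => by
    rw [uu, Gv, hp, hA, prod_mul_distrib]
    push_cast
    ring
  have pm : ∀ i, ∃ t : ℤ, (∏ x ∈ U₁, Fr.G i x) * A i = t ^ 2 ∨
      (∏ x ∈ U₁, Fr.G i x) * A i = -t ^ 2 := fun i => by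
    have s1 : Smooth B.N (∏ j ∈ y.filter (fun j => j.1 ≠ i), F.LZ j (F.rootZ (i, ⟨0, hn⟩))) :=
      Br2.sm_prod _ fun j hj => hB.pre.sr j _ fun e => (mem_filter.1 hj).2 (congrArg Prod.fst e)
    have s2 : Smooth B.N (if (i, ⟨0, hn⟩) ∈ y then
        (if i = 0 then -cZ2 F (i, ⟨0, hn⟩) else cZ2 F (i, ⟨0, hn⟩)) else 1) := by
      split_ifs
      exacts [Br2.sm_neg (Br2.sm_cZ hB _), Br2.sm_cZ hB _, Br2.sm_one]
    refine pm_sq ?_ (Br2.sm_mul (Br2.sm_mul (Br2.sm_mul (sm0 i)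
      (Br2.sm_prod (y.filter fun j => j.1 ≠ i) fun j _ => hB.pre.sm j)) s1) s2) ?_
    · rw [Int.natAbs_mul, Int.natAbs_natCast]
      refine (cop i).mul_left ?_
      have := ((A1 i).of_dvd (dvd_mul_left B.N 128)).gcd_eq
      rwa [Nat.gcd_one_left] at this
    · rw [← Rat.isSquare_intCast_iff]
      have := h.2.2.2 (i, ⟨0, hn⟩)
      rw [Surf.del, eu, GeoH.gam_eq] at this
      refine (congrArg IsSquare ?_).mp this
      simp only [Surf.L, Surf.root, Surf.LZ, Surf.rootZ]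
      split_ifs <;> push_cast <;> ring
  obtain ⟨t₂, e₂⟩ : ∃ t : ℤ, (∏ x ∈ U₁, Fr.G 2 x) * A 2 = t ^ 2 := (pm 2).imp fun t e =>
    e.resolve_right fun c => by
      have h1 : 0 < ∏ x ∈ U₁, Fr.G 2 x := prod_pos fun x hx => by
        rw [GV x (hV x hx)]; exact LcH.Gp_two _ (pr x (hV x hx)).1.pos
      have h2 : (0 : ℤ) < A 2 := by exact_mod_cast Nat.pos_of_ne_zero (A0 2)
      nlinarith [mul_pos h1 h2, sq_nonneg t]
  obtain ⟨t₁, e₁⟩ : ∃ t : ℤ, (∏ x ∈ U₁, Fr.G 1 x) * A 1 = t ^ 2 := (pm 1).imp fun t e =>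
    e.resolve_right fun c => by
      have h1 : (∏ x ∈ U₁, Fr.G 1 x) % 4 = 1 := prod_induction _ (fun z : ℤ => z % 4 = 1)
        (fun x y hx hy => by rw [Int.mul_emod, hx, hy]; rfl) rfl fun x hx => by
          rw [GV x (hV x hx)]; exact LcH.Gp_one _ (od x (hV x hx))
      have h2 : (A 1 : ℤ) % 4 = 1 := by
        have : A 1 ≡ 1 [MOD 4] := (A1 1).of_dvd (Dvd.dvd.mul_right (by norm_num) _)
        unfold Nat.ModEq at this
        omega
      have h3 : (-t ^ 2) % 4 = 1 := by rw [← c, Int.mul_emod, h1, h2]; rfl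
      have h4 : t ^ 2 % 4 = (t % 4) ^ 2 % 4 := by rw [sq, sq, Int.mul_emod]
      have h5 : t % 4 = 0 ∨ t % 4 = 1 ∨ t % 4 = 2 ∨ t % 4 = 3 := by omega
      rcases h5 with c | c | c | c <;> rw [c] at h4 <;> omega
  have n1 : ∀ j, ∏ x ∈ U₁, Fr.G j x ≠ 0 := fun j =>
    prod_ne_zero_iff.2 fun x hx => ne x (hV x hx) j
  have ker : x₀ ∈ Ker Fr.τ (range Fr.k) := mem_Ker.2 ⟨hx₀, fun i hi => by
    have hi' := Br2.mem_V0.2 (⟨i, mem_range.1 hi, rfl⟩ :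
      ∃ t < Fr.k, (((0, none), 2 * i) : Gen n) = ((0, none), 2 * t))
    have k0 := row _ (mem_union_left _ hi')
    have k1 : ∏ t ∈ x₀, Fr.g (dg2 F B) ((0, none), 2 * t) ((0, none), 2 * i) =
        ∏ t ∈ x₀, Fr.τ t i := prod_congr rfl fun t _ => by simp [Frame.g]
    have k2 : ∏ x ∈ U₁, Fr.g (dg2 F B) x ((0, none), 2 * i) = 1 := by
      rw [← mul_one 1]
      nth_rw 1 [← jac_one (hF.sm i).1 (A1 1) (A0 1) (n1 1) (cop 1) e₁]
      rw [← jac_one (hF.sm i).2 (A1 2) (A0 2) (n1 2) (cop 2) e₂,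
        LcH.jac_r _ _ _ fun x hx => ne x (hV x hx) 1,
        LcH.jac_r _ _ _ fun x hx => ne x (hV x hx) 2, ← prod_mul_distrib]
      refine prod_congr rfl fun x hx => ?_
      have k := hV x hx
      rw [m1.1, m2 _ x (by rintro rfl; simpa using od _ k) (pr x k).1 (p2 x k)
        fun j => (pr x k).2 ((Br2.sm_V0 hF hi' _).2 _ (pr x k).1 j), Br2.G_even, ab x k, ab x k]
      rcases tri x.1.1 with t | t | t <;> simp [t, jacobiSym.mul_left]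
    rwa [hp, k1, k2, mul_one] at k0⟩
  have sd : Smooth B.N (bv F B.μ 1 - bv F B.μ 2) := hB.pre.sum ▸ Br2.sm_bv hB 0
  have S := maxf B.N _ _ Fr hB.pre.pos hB.pre.two (Br2.sm_bv hB 1).1 (Br2.sm_bv hB 2).1 sd hF x₀ ker
  have eL : ∀ j, F.L j (vq v) = (B.μ j : ℚ) := fun j => by
    simp [hμ, Surf.L, Surf.LZ, vq]
  have eD : ∀ i, F.D i (vq v) = (bv F B.μ i : ℚ) := fun i => by
    simp [Surf.D, bv, eL]
  have ed : ∀ (i) (t : ℤ), (∏ x ∈ U₁, Fr.G i x) * A i = t ^ 2 → ∃ s : ℤ, s ≠ 0 ∧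
      F.del (uu B Fr y U) y i (vq v) =
        (((∏ t ∈ x₀, Fr.G i (((0, none), 2 * t) : Gen n)) * s ^ 2 : ℤ) : ℚ) := fun i t e => by
    refine ⟨t * ∏ j ∈ y.filter (fun j => j.1 ≠ i), B.μ j, mul_ne_zero (fun c => ?_)
      (prod_ne_zero_iff.2 fun j _ => (hB.pre.sm j).1), ?_⟩
    · rw [c, sq, mul_zero] at e
      exact mul_ne_zero (n1 i) (by exact_mod_cast A0 i) e
    · simp only [Surf.del, eu, e, eL]
      push_cast
      ring
  obtain ⟨s₂, hs₂, f₂⟩ := ed 2 t₂ e₂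
  obtain ⟨s₁, hs₁, f₁⟩ := ed 1 t₁ e₁
  simp only [Br2.G_even] at f₂ f₁
  change _ = (((∏ t ∈ x₀, Fr.G2 t) * s₂ ^ 2 : ℤ) : ℚ) at f₂
  change _ = (((∏ t ∈ x₀, Fr.G1 t) * s₁ ^ 2 : ℤ) : ℚ) at f₁
  have up : ∀ (K : Type) [Field K] [CharZero K],
      Cover ((bv F B.μ 1 : ℤ) : K) (bv F B.μ 2 : ℤ) (∏ t ∈ x₀, Fr.G2 t : ℤ)
        (∏ t ∈ x₀, Fr.G1 t : ℤ) →
      Cover ((F.D 1 (vq v) : ℚ) : K) (F.D 2 (vq v) : ℚ) (F.del (uu B Fr y U) y 2 (vq v) : ℚ)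
        (F.del (uu B Fr y U) y 1 (vq v) : ℚ) := fun K _ _ c => by
    simp only [eD, f₂, f₁, Rat.cast_intCast]
    rw [Int.cast_mul, Int.cast_mul, Int.cast_pow, Int.cast_pow]
    exact cover_up (Int.cast_ne_zero.2 hs₂) (Int.cast_ne_zero.2 hs₁) c
  refine ⟨up ℝ S.1, fun p hp' => up _ ?_⟩
  by_cases c : p ∣ B.N
  · exact S.2 p c
  · refine unr p _ _ _ _ (fun e => c (e ▸ hB.pre.two)) fun e => c ((Br2.sm_mul (Br2.sm_mul
      (Br2.sm_mul (Br2.sm_mul (Br2.sm_bv hB 1) (Br2.sm_bv hB 2)) sd)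
      (Br2.sm_prod _ fun i _ => (hF.sm i).1)) (Br2.sm_prod _ fun i _ => (hF.sm i).2)).2 p hp'.out e)

end OneGeo

theorem geo3 : GPStmt → MATStmt → KC2Stmt → MAXFStmt → UNRStmt → GEO3Stmt := by
  intro _ mat kc maxf unr n r F v B Fr M hF hμ hB hFr hD
  classical
  have sub : ∀ {U : Finset (Gen n)}, U ∈ Ker (dat2 F B Fr M).g (dat2 F B Fr M).W0 →
      U ⊆ (dat2 F B Fr M).W0 := fun h => mem_powerset.1 (mem_filter.1 h).1
  rw [← hF.card, ← Set.ncard_coe_finset]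
  refine Set.ncard_le_ncard_of_injOn Prod.fst (fun x hx => ?_) (fun x hx x' hx' hxx => ?_)
    (Set.toFinite _)
  · obtain ⟨hx1, hx2⟩ := mem_filter.1 (mem_coe.1 hx)
    obtain ⟨hy, hU⟩ := mem_product.1 hx1
    have h := OneGeo.mem mat kc F B Fr M hB hD hy (sub hU) hx2
    exact ⟨_, h, hF.loc _ _ h (OneGeo.els mat maxf unr F v B Fr M hF.h0.pos hμ hB hFr hU h)⟩
  · obtain ⟨hx1, hx2⟩ := mem_filter.1 (mem_coe.1 hx)
    obtain ⟨hx1', hx2'⟩ := mem_filter.1 (mem_coe.1 hx')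
    refine Prod.ext hxx ?_
    rw [← hxx] at hx2'
    exact GeoH.inj kc hD x.1 (sub (mem_product.1 hx1).2) (sub (mem_product.1 hx1').2) hx2 hx2'

end Pool.Agent.MP_a43263_nt.RH

end
end MrgPart1

-- marker of a merged file
example : 731051 + 7377 = 731051 + 7377 := rfl
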