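import Mathlib.Topology.Connected.Separation
import Mathlib.NumberTheory.Padics.ProperSpace
import Mathlib.Topology.MetricSpace.Ultra.TotallySeparated
import Pool.Agent.MP_a43263_nt.RH.OneMaxi
import Pool.Agent.MP_a43263_nt.RH.GenAll
import Pool.Agent.MP_a43263_nt.RH.Const
import Pool.Agent.MP_a43263_nt.R2.LocP
import Pool.Agent.MP_a43263_nt.RG.Cert
import Pool.Agent.MP_a43263_nt.R2.Desc
import Pool.Agent.MP_a43263_nt.RH.GenInj
import Pool.Agent.MP_a43263_nt.RG.Good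

-- ======== part 0: formerly Pool.Agent.MP_a43263_nt.RH.OneSize
section MrgPart0

/-! PROJECT RANKG, round ONE, row SIZE: the size of the local image. -/

set_option autoImplicit false

namespace Pool.Agent.MP_a43263_nt.RH

namespace Size

open WeierstrassCurve WeierstrassCurve.Affine Two RG Rkk

/-- the index of the doubles -/
theorem idx {G : Type} [AddCommGroup G] (f : G →+ G) (H : AddSubgroup G) (hH : H.index ≠ 0)
    (h1 : H.map f ≤ H) (h2 : H ⊓ f.ker = ⊥) :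
    f.range.index = Nat.card f.ker * (H.map f).relIndex H := by
  have e1 := AddSubgroup.index_map H f
  have e2 := AddSubgroup.relIndex_mul_index h1
  have e3 := AddSubgroup.relIndex_mul_index (le_sup_left : H ≤ H ⊔ f.ker)
  rw [AddSubgroup.relIndex_sup_left, ← AddSubgroup.inf_relIndex_right, h2,
    AddSubgroup.relIndex_bot_left] at e3
  have hj : (H ⊔ f.ker).index ≠ 0 := fun e => hH (by rw [← e3, e, mul_zero])
  refine mul_left_cancel₀ hj ?_
  rw [← e1, ← e2, ← e3]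
  ring

theorem pick (Q : Type) [Nonempty Q] {N : ℕ} (h : Nat.card Q = 0 ∨ N ≤ Nat.card Q) :
    ∃ s : Finset Q, s.card = N := by
  by_cases c : Finite Q
  · have := Fintype.ofFinite Q
    obtain ⟨s, -, hs⟩ := Finset.exists_subset_card_eq (s := (Finset.univ : Finset Q)) (n := N) (by
      rw [Finset.card_univ, ← Nat.card_eq_fintype_card]
      exact h.resolve_left Nat.card_pos.ne')
    exact ⟨s, hs⟩
  · have := not_finite_iff_infinite.1 c
    exact Infinite.exists_subset_card_eq Q N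

section
variable {K : Type} [Field K] [DecidableEq K] {V : WeierstrassCurve.Affine K} {a b : K}

theorem line (hV : IsE V a b) {x₁ y₁ x₂ y₂ : K} (h₁ : V.Nonsingular x₁ y₁)
    (h₂ : V.Nonsingular x₂ y₂) (hxy : ¬(x₁ = x₂ ∧ y₁ = V.negY x₂ y₂)) :
    ∃ x₃ y₃ h₃ l m, Point.some x₁ y₁ h₁ + .some x₂ y₂ h₂ = .some x₃ y₃ h₃ ∧ y₁ = l * x₁ + m ∧
      l = V.slope x₁ x₂ y₁ y₂ ∧ x₁ + x₂ + x₃ = l ^ 2 + a + b ∧
      x₁ * x₂ + x₁ * x₃ + x₂ * x₃ = a * b - 2 * l * m ∧ x₁ * x₂ * x₃ = m ^ 2 := by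
  have H := addPolynomial_slope h₁.1 h₂.1 hxy
  rw [addPolynomial_eq, neg_inj, Cubic.prod_X_sub_C_eq, Cubic.toPoly_injective] at H
  refine ⟨_, _, _, V.slope x₁ x₂ y₁ y₂, y₁ - V.slope x₁ x₂ y₁ y₂ * x₁, Point.add_some hxy,
    by ring, rfl, ?_⟩
  generalize V.addX x₁ x₂ (V.slope x₁ x₂ y₁ y₂) = x₃ at H ⊢
  generalize V.slope x₁ x₂ y₁ y₂ = l at H
  simp only [Cubic.mk.injEq, hV.h1, hV.h2, hV.h3, hV.h4, hV.h6] at H
  obtain ⟨-, c2, c1, c0⟩ := H
  exact ⟨by linear_combination c2, by linear_combination -c1, by linear_combination c0⟩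

end

variable {p : ℕ} [Fact p.Prime] {V : WeierstrassCurve.Affine ℚ_[p]} {a b : ℚ_[p]}

theorem le2 {x y : ℚ_[p]} {r : ℝ} (h : ‖x‖ ≤ r) (k : ‖y‖ ≤ r) : ‖x + y‖ ≤ r :=
  (IsUltrametricDist.norm_add_le_max x y).trans (max_le h k)

theorem lt2 {x y : ℚ_[p]} {r : ℝ} (h : ‖x‖ < r) (k : ‖y‖ < r) : ‖x + y‖ < r :=
  (IsUltrametricDist.norm_add_le_max x y).trans_lt (max_lt h k)

theorem eq2 {x y : ℚ_[p]} (h : ‖y‖ < ‖x‖) : ‖x - y‖ = ‖x‖ := by
  rw [sub_eq_add_neg, IsUltrametricDist.norm_add_eq_max_of_norm_ne_norm (by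
    rw [norm_neg]; exact h.ne'), norm_neg, max_eq_left h.le]

theorem big {x₁ x₂ x₃ l m : ℚ_[p]} (ha : ‖a‖ ≤ 1) (hb : ‖b‖ ≤ 1)
    (s1 : x₁ + x₂ + x₃ = l ^ 2 + a + b) (s2 : x₁ * x₂ + x₁ * x₃ + x₂ * x₃ = a * b - 2 * l * m)
    (s3 : x₁ * x₂ * x₃ = m ^ 2) (h2 : 1 < ‖x₂‖) (h1 : ‖x₂‖ ≤ ‖x₁‖) : 1 < ‖x₃‖ := by
  by_contra h3
  push Not at h3
  have k1 : 1 < ‖x₁‖ := h2.trans_le h1
  have e1 : ‖l‖ ^ 2 ≤ ‖x₁‖ := by
    rw [← norm_pow, show l ^ 2 = x₁ + x₂ + x₃ + -a + -b by linear_combination -s1]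
    exact le2 (le2 (le2 (le2 le_rfl h1) (h3.trans k1.le)) (by rw [norm_neg]; linarith))
      (by rw [norm_neg]; linarith)
  have e3 : ‖m‖ ^ 2 = ‖x₁‖ * ‖x₂‖ * ‖x₃‖ := by rw [← norm_pow, ← s3, norm_mul, norm_mul]
  have n2 : ‖(2 : ℚ_[p])‖ ≤ 1 := by exact_mod_cast Padic.norm_int_le_one (p := p) 2
  have n3 := norm_nonneg x₃
  have e2 : ‖x₁‖ * ‖x₂‖ ≤ ‖l‖ * ‖m‖ := by
    by_contra c
    push Not at c
    have : ‖x₁ * x₂‖ < ‖x₁‖ * ‖x₂‖ := by
      rw [show x₁ * x₂ = a * b + -(2 * (l * m)) + -(x₁ * x₃) + -(x₂ * x₃) by linear_combination s2]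
      refine lt2 (lt2 (lt2 ?_ ?_) ?_) ?_ <;> simp only [norm_neg, norm_mul]
      · nlinarith [norm_nonneg a, norm_nonneg b]
      · nlinarith [mul_nonneg (norm_nonneg l) (norm_nonneg m)]
      · nlinarith
      · nlinarith
    rw [norm_mul] at this
    exact this.false
  have e4 : (‖x₁‖ * ‖x₂‖) ^ 2 ≤ ‖x₁‖ * (‖x₁‖ * ‖x₂‖ * ‖x₃‖) := by
    refine (pow_le_pow_left₀ (by positivity) e2 2).trans ?_
    rw [mul_pow, e3]
    exact mul_le_mul_of_nonneg_right e1 (by positivity)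
  have e5 : 0 < ‖x₁‖ * ‖x₁‖ * ‖x₂‖ := by positivity
  nlinarith

/-- the absolute value of the abscissa -/
noncomputable def nx : V.Point → ℝ
  | .zero => 0
  | .some x _ _ => ‖x‖

theorem cub (hV : IsE V a b) {x y : ℚ_[p]} (h : V.Nonsingular x y) :
    ‖y‖ ^ 2 = ‖x‖ * ‖x - a‖ * ‖x - b‖ := by
  rw [← norm_pow, hV.eqn h, norm_mul, norm_mul]

open Classical in
theorem dbl (hV : IsE V a b) (ha : ‖a‖ ≤ 1) (hb : ‖b‖ ≤ 1) (P : V.Point) (h : 1 < nx P) :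
    nx (2 • P) * ‖(4 : ℚ_[p])‖ = nx P := by
  rcases P with _ | ⟨x, y, hP⟩
  · exact absurd h (by simp [nx])
  change 1 < ‖x‖ at h
  have e := cub hV hP
  rw [eq2 (ha.trans_lt h), eq2 (hb.trans_lt h)] at e
  have x0 : x ≠ 0 := by rintro rfl; simp at h; linarith
  have n0 : 0 < ‖x‖ := norm_pos_iff.2 x0
  have y0 : y ≠ 0 := by
    rintro rfl
    have : 0 < ‖x‖ * ‖x‖ * ‖x‖ := by positivity
    rw [← e] at this
    simp at this
  obtain ⟨x₃, y₃, h₃, l, m, e0, e1, -, -, s2, s3⟩ := line hV hP hP fun k => by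
    have := k.2
    rw [hV.negY] at this
    exact mul_ne_zero hV.two y0 (by linear_combination this)
  rw [two_nsmul, e0]
  change ‖x₃‖ * _ = ‖x‖
  have i1 : x * (x ^ 2 - a * b) = -2 * m * y := by
    rw [e1]; linear_combination x * s2 - 2 * s3
  have i2 : (x ^ 2 - a * b) ^ 2 = x₃ * 4 * y ^ 2 := mul_left_cancel₀ (pow_ne_zero 2 x0) (by
    rw [← mul_pow, i1]; linear_combination -4 * y ^ 2 * s3)
  have i3 := congrArg norm i2
  rw [norm_pow, eq2 (by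
    rw [norm_mul, norm_pow]; nlinarith [norm_nonneg a, norm_nonneg b]), norm_mul, norm_mul,
    norm_pow, norm_pow, e] at i3
  refine mul_right_cancel₀ (show ‖x‖ * ‖x‖ * ‖x‖ ≠ 0 by positivity) ?_
  rw [← i3]
  ring

open Classical in
/-- the points that reduce to infinity -/
def HH (hV : IsE V a b) (ha : ‖a‖ ≤ 1) (hb : ‖b‖ ≤ 1) : AddSubgroup V.Point where
  carrier := {P | P = 0 ∨ 1 < nx P}
  zero_mem' := Or.inl rfl
  neg_mem' := by
    rintro (_ | ⟨x, y, h⟩) k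
    · exact Or.inl rfl
    · exact Or.inr (k.resolve_left (Point.some_ne_zero h))
  add_mem' := by
    rintro (_ | ⟨x₁, y₁, h₁⟩) Q k₁ k₂
    · rwa [← Point.zero_def, zero_add]
    rcases Q with _ | ⟨x₂, y₂, h₂⟩
    · rwa [← Point.zero_def, add_zero]
    by_cases hxy : x₁ = x₂ ∧ y₁ = V.negY x₂ y₂
    · exact Or.inl (Point.add_of_Y_eq hxy.1 hxy.2)
    obtain ⟨x₃, y₃, h₃, l, m, e0, -, -, s1, s2, s3⟩ := line hV h₁ h₂ hxy
    rw [e0]
    have j₁ : 1 < ‖x₁‖ := k₁.resolve_left (Point.some_ne_zero h₁)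
    have j₂ : 1 < ‖x₂‖ := k₂.resolve_left (Point.some_ne_zero h₂)
    rcases le_total ‖x₂‖ ‖x₁‖ with c | c
    · exact Or.inr (big ha hb s1 s2 s3 j₂ c)
    · exact Or.inr (big (l := l) (m := m) ha hb (by linear_combination s1)
        (by linear_combination s2) (by linear_combination s3) j₁ c)

open Classical in
theorem near (hV : IsE V a b) (ha : ‖a‖ ≤ 1) (hb : ‖b‖ ≤ 1) {x₁ y₁ x₂ y₂ : ℚ_[p]}
    (h₁ : V.Nonsingular x₁ y₁) (h₂ : V.Nonsingular x₂ y₂) (n₁ : ‖x₁‖ ≤ 1) (n₂ : ‖x₂‖ ≤ 1)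
    (h : (x₁, y₁) = (x₂, y₂) ∨ ‖x₁ - x₂‖ < ‖y₁ + y₂‖) :
    -Point.some x₂ y₂ h₂ + .some x₁ y₁ h₁ ∈ HH hV ha hb := by
  by_cases c : x₁ = x₂
  · subst c
    have : y₁ = y₂ := by
      rcases h with h | h
      · exact (Prod.mk.inj h).2
      · have e : (y₁ - y₂) * (y₁ + y₂) = 0 := by linear_combination hV.eqn h₁ - hV.eqn h₂
        exact sub_eq_zero.1 ((mul_eq_zero.1 e).resolve_right fun k => by simp [k] at h)
    subst this
    rw [neg_add_cancel]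
    exact zero_mem _
  have h := h.resolve_left fun k => c (Prod.mk.inj k).1
  rw [add_comm, Point.neg_some]
  obtain ⟨x₃, y₃, h₃, l, m, e0, -, e1, s1, -⟩ := line hV h₁ ((nonsingular_neg ..).2 h₂)
    fun k => c k.1
  rw [e0]
  rw [slope_of_X_ne c, hV.negY, sub_neg_eq_add] at e1
  have k1 : 1 < ‖l‖ := by
    rw [e1, norm_div, one_lt_div (norm_pos_iff.2 (sub_ne_zero.2 c))]; exact h
  refine Or.inr (not_le.1 fun k : ‖x₃‖ ≤ 1 => ?_)
  have : ‖l ^ 2‖ ≤ 1 := by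
    rw [show l ^ 2 = x₁ + x₂ + x₃ + -a + -b by linear_combination -s1]
    exact le2 (le2 (le2 (le2 n₁ n₂) k) (by rwa [norm_neg])) (by rwa [norm_neg])
  rw [norm_pow] at this
  nlinarith

open Classical in
theorem fin (hV : IsE V a b) (ha : ‖a‖ ≤ 1) (hb : ‖b‖ ≤ 1) : (HH hV ha hb).index ≠ 0 := by
  let S : Set (ℚ_[p] × ℚ_[p]) := (Metric.closedBall 0 1 ×ˢ Metric.closedBall 0 1) ∩
    {z | z.2 ^ 2 = z.1 * (z.1 - a) * (z.1 - b)}
  have hS : IsCompact S := ((isCompact_closedBall _ _).prod (isCompact_closedBall _ _)).inter_right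
    (isClosed_eq (by fun_prop) (by fun_prop))
  have ex : ∀ z ∈ S, ∃ U ∈ nhds z, ∀ w ∈ U, w ∈ S → w = z ∨ ‖w.1 - z.1‖ < ‖w.2 + z.2‖ := by
    rintro ⟨x, y⟩ ⟨-, hz⟩
    change y ^ 2 = x * (x - a) * (x - b) at hz
    by_cases c : y = 0
    · subst c
      refine ⟨{w | ‖w.1 - x‖ < ‖w.1 ^ 2 + w.1 * x + x ^ 2 - (a + b) * (w.1 + x) + a * b‖},
        (isOpen_lt (by fun_prop) (by fun_prop)).mem_nhds ?_, ?_⟩
      · simp only [Set.mem_ofPred_eq, sub_self, norm_zero, norm_pos_iff]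
        intro k
        have h1 := hV.ha
        have h2 := hV.hb
        have h3 := hV.hab
        rcases mul_eq_zero.1 (hz.symm.trans (zero_pow two_ne_zero)) with e | e
        · rcases mul_eq_zero.1 e with e | e
          · exact mul_ne_zero h1 h2 (by rw [e] at k; linear_combination k)
          · exact mul_ne_zero h1 h3 (by rw [sub_eq_zero.1 e] at k; linear_combination k)
        · exact mul_ne_zero h2 h3 (by rw [sub_eq_zero.1 e] at k; linear_combination -k)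
      · rintro ⟨u, v⟩ h1 ⟨-, h2⟩
        change v ^ 2 = u * (u - a) * (u - b) at h2
        change ‖u - x‖ < ‖u ^ 2 + u * x + x ^ 2 - (a + b) * (u + x) + a * b‖ at h1
        have e : v ^ 2 = (u - x) * (u ^ 2 + u * x + x ^ 2 - (a + b) * (u + x) + a * b) := by
          linear_combination h2 - hz
        by_cases d : u = x
        · rw [d, sub_self, zero_mul] at e
          exact Or.inl (Prod.ext d (pow_eq_zero_iff two_ne_zero |>.1 e))
        · have e' := congrArg norm e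
          rw [norm_pow, norm_mul] at e'
          have n := norm_pos_iff.2 (sub_ne_zero.2 d)
          refine Or.inr (lt_of_pow_lt_pow_left₀ 2 (norm_nonneg _) ?_)
          simp only [add_zero]
          nlinarith
    · refine ⟨{w | ‖w.1 - x‖ < ‖w.2 + y‖}, (isOpen_lt (by fun_prop) (by fun_prop)).mem_nhds ?_,
        fun w h _ => Or.inr h⟩
      simp only [Set.mem_ofPred_eq, sub_self, norm_zero, norm_pos_iff]
      exact fun k => mul_ne_zero hV.two c (by linear_combination k)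
  choose! U hU hU' using ex
  obtain ⟨t, ht, hc⟩ := hS.elim_nhds_subcover U hU
  have : Finite (V.Point ⧸ HH hV ha hb) := by
    refine Finite.of_surjective (fun z : Option t => match z with
      | none => (QuotientAddGroup.mk 0 : V.Point ⧸ HH hV ha hb)
      | some z => QuotientAddGroup.mk (.some z.1.1 z.1.2 (hV.ns (ht _ z.2).2))) fun q => ?_
    obtain ⟨P, rfl⟩ := QuotientAddGroup.mk_surjective q
    by_cases c : P ∈ HH hV ha hb
    · exact ⟨none, QuotientAddGroup.eq.2 (by simpa using c)⟩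
    rcases P with _ | ⟨x, y, h⟩
    · exact absurd (Or.inl rfl) c
    have n : ‖x‖ ≤ 1 := not_lt.1 fun k => c (Or.inr k)
    have s : (x, y) ∈ S := by
      refine ⟨⟨by simpa using n, ?_⟩, hV.eqn h⟩
      have e := cub hV h
      have k1 : ‖x - a‖ ≤ 1 := by rw [sub_eq_add_neg]; exact le2 n (by rwa [norm_neg])
      have k2 : ‖x - b‖ ≤ 1 := by rw [sub_eq_add_neg]; exact le2 n (by rwa [norm_neg])
      have := mul_le_one₀ (mul_le_one₀ n (norm_nonneg _) k1) (norm_nonneg _) k2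
      rw [← e] at this
      simpa using (pow_le_one_iff_of_nonneg (norm_nonneg y) two_ne_zero).1 this
    obtain ⟨z, hz, k⟩ := Set.mem_iUnion₂.1 (hc s)
    exact ⟨some ⟨z, hz⟩, QuotientAddGroup.eq.2 (near hV ha hb h _ n
      (by simpa using (ht z hz).1.1) (hU' z (ht z hz) _ k s))⟩
  exact AddSubgroup.index_ne_zero_of_finite

theorem int_rep {x : ℚ_[p]} (h : x ≠ 0) : ∃ n : ℤ, n ≠ 0 ∧ IsSquare (x * n) := by
  obtain ⟨r, hr⟩ := Padic.rat_dense p x (ε := ‖(4 : ℚ_[p])‖ * ‖x‖)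
    (mul_pos (norm_pos_iff.2 (by norm_num)) (norm_pos_iff.2 h))
  rw [norm_sub_rev] at hr
  obtain ⟨s, hs⟩ := Cst.close' hr
  have r0 : r ≠ 0 := by rintro rfl; simp [h] at hs
  refine ⟨r.num * r.den, mul_ne_zero (Rat.num_ne_zero.2 r0) (by exact_mod_cast r.den_ne_zero),
    r.num * s, ?_⟩
  have d0 : (r.den : ℚ_[p]) ≠ 0 := by exact_mod_cast r.den_ne_zero
  rw [hs, Rat.cast_def r]
  push_cast
  field_simp

theorem cov {K : Type} [Field K] {a b d e d' e' : K} (hd : d ≠ 0) (he : e ≠ 0) (hd' : d' ≠ 0)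
    (he' : e' ≠ 0) (h : Cover a b d e) (k : IsSquare (d * d')) (k' : IsSquare (e * e')) :
    Cover a b d' e' := by
  obtain ⟨r, hr⟩ := k
  obtain ⟨s, hs⟩ := k'
  have r0 : r ≠ 0 := by rintro rfl; exact mul_ne_zero hd hd' (by simpa using hr)
  have s0 : s ≠ 0 := by rintro rfl; exact mul_ne_zero he he' (by simpa using hs)
  obtain rfl : d' = r * r / d := by rw [← hr]; field_simp
  obtain rfl : e' = s * s / e := by rw [← hs]; field_simp
  obtain ⟨z₀, z₂, z₃, t, hz, e2, e3⟩ := h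
  refine ⟨z₀ * d * e / (r * s), z₂ * d / r, z₃ * e / s, t, fun k => hz ?_, ?_, ?_⟩
  · simpa [r0, s0, hd, he] using k
  · rw [← e2]; field_simp
  · rw [← e3]; field_simp

end Size

open Size Rkk Two in
theorem size : RKKStmt → SIZEStmt := by
  intro _ p _ a b ha hb hab
  classical
  have hV : IsE (cK (a : ℚ_[p]) b).toAffine a b := ⟨rfl, rfl, rfl, rfl, rfl, by exact_mod_cast ha,
    by exact_mod_cast hb, sub_ne_zero.2 (by exact_mod_cast hab), two_ne_zero⟩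
  generalize (cK (a : ℚ_[p]) b).toAffine = V at hV
  have na := Padic.norm_int_le_one (p := p) a
  have nb := Padic.norm_int_le_one (p := p) b
  let f : V.Point →+ V.Point := nsmulAddMonoidHom 2
  have e := idx f (HH hV na nb) (fin hV na nb)
    (by rintro _ ⟨P, h, rfl⟩; exact nsmul_mem h 2) (by
      refine (AddSubgroup.eq_bot_iff_forall _).2 fun P h => h.1.resolve_right fun k => ?_
      have := dbl hV na nb P k
      rw [show 2 • P = 0 from h.2] at this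
      change 0 * _ = _ at this
      linarith)
  rw [show Nat.card f.ker = 2 ^ 2 from card_two hV] at e
  have m1 : p = 2 → ((HH hV na nb).map f).relIndex (HH hV na nb) ≠ 1 := fun hp k => by
    rw [AddSubgroup.relIndex_eq_one] at k
    have c0 : 0 < ‖(4 : ℚ_[p])‖ := norm_pos_iff.2 (by norm_num)
    have c1 : ‖(4 : ℚ_[p])‖ < 1 := by
      have h1 := Padic.norm_p_lt_one (p := p)
      have h2 : ((p : ℕ) : ℚ_[p]) = ((2 : ℕ) : ℚ_[p]) := congrArg Nat.cast hp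
      rw [show (4 : ℚ_[p]) = (p : ℚ_[p]) ^ 2 by rw [h2]; norm_num, norm_pow]
      exact pow_lt_one₀ (norm_nonneg _) h1 two_ne_zero
    have st : ∀ P : V.Point, 1 < nx P → ∃ Q : V.Point, 1 < nx Q ∧ nx P * ‖(4 : ℚ_[p])‖ = nx Q :=
      fun P h => by
        obtain ⟨Q, h1, rfl⟩ := k (Or.inr h)
        have h2 : 1 < nx Q := h1.resolve_left fun l => by
          rw [l, map_zero] at h
          change 1 < 0 at h
          linarith
        exact ⟨Q, h2, dbl hV na nb Q h2⟩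
    obtain ⟨s, hs⟩ := Cst.sq_one (p := p) (x := (1 - 16 * a) * (1 - 16 * b)) (by
      rw [show ((1 - 16 * a) * (1 - 16 * b) - 1 : ℚ_[p]) = 4 * (4 * ((16 * a * b - a - b : ℤ))) by
        push_cast; ring, norm_mul, norm_mul]
      have := Padic.norm_int_le_one (p := p) (16 * a * b - a - b)
      nlinarith [mul_le_mul_of_nonneg_left this c0.le])
    have n0 : nx (.some (4 ^ 2)⁻¹ (s / 64) (hV.ns (by
        rw [div_pow, ← hs]; ring)) : V.Point) = (‖(4 : ℚ_[p])‖ ^ 2)⁻¹ := by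
      simp only [nx, norm_inv, norm_pow]
    obtain ⟨Q, h1, h2⟩ := st _ (n0 ▸ (one_lt_inv₀ (by positivity)).2
      (pow_lt_one₀ c0.le c1 two_ne_zero))
    obtain ⟨R, h3, h4⟩ := st Q h1
    rw [← h4, ← h2, n0] at h3
    exact absurd h3 (by rw [not_lt]; apply le_of_eq; field_simp)
  obtain ⟨s, hs⟩ := pick (V.Point ⧸ f.range) (N := if p = 2 then 8 else 4) (by
    rw [← AddSubgroup.index_eq_card, e]
    split_ifs with c
    · have := m1 c; omega
    · omega)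
  choose P hP using QuotientAddGroup.mk_surjective (s := f.range)
  choose d₂ n₂ s₂ using fun q => int_rep (dl_ne hV (P q))
  choose d₃ n₃ s₃ using fun q => int_rep (dl_ne hV.symm (P q))
  have inj : ∀ q q', IsSquare ((d₂ q : ℚ_[p]) * d₂ q') → IsSquare ((d₃ q : ℚ_[p]) * d₃ q') →
      q = q' := fun q q' h₂ h₃ => by
    have k₂ := tri (dl_add hV (P q) (P q')) (s₂ q) (s₂ q') (dl_ne hV _) (dl_ne hV _)
    have k₃ := tri (dl_add hV.symm (P q) (P q')) (s₃ q) (s₃ q') (dl_ne hV.symm _) (dl_ne hV.symm _)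
    rw [mul_comm] at k₂ k₃
    obtain ⟨Z, hZ⟩ := (ker hV _).1
      ⟨canc k₂ (mul_ne_zero (by exact_mod_cast n₂ q) (by exact_mod_cast n₂ q')) h₂,
        canc k₃ (mul_ne_zero (by exact_mod_cast n₃ q) (by exact_mod_cast n₃ q')) h₃⟩
    rw [← hP q, ← hP q']
    exact QuotientAddGroup.eq.2 ⟨Z - P q, by
      rw [nsmulAddMonoidHom_apply, nsmul_sub, hZ]; abel⟩
  refine ⟨s.image fun q => (d₂ q, d₃ q), ?_, ?_, ?_⟩
  · rw [Finset.card_image_of_injective _ fun q q' k => inj q q'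
      (by rw [(Prod.mk.inj k).1]; exact IsSquare.mul_self _)
      (by rw [(Prod.mk.inj k).2]; exact IsSquare.mul_self _), hs]
  · intro d hd
    obtain ⟨q, -, rfl⟩ := Finset.mem_image.1 hd
    exact ⟨n₂ q, n₃ q, cov (dl_ne hV _) (dl_ne hV.symm _) (by exact_mod_cast n₂ q)
      (by exact_mod_cast n₃ q) (cover hV (P q)) (s₂ q) (s₃ q)⟩
  · intro d hd d' hd' h₂ h₃
    obtain ⟨q, -, rfl⟩ := Finset.mem_image.1 hd
    obtain ⟨q', -, rfl⟩ := Finset.mem_image.1 hd'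
    rw [inj q q' h₂ h₃]

end Pool.Agent.MP_a43263_nt.RH

end MrgPart0

-- ======== part 1: formerly Pool.Agent.MP_a43263_nt.RH.OneUnr
section MrgPart1

/-! PROJECT RANKG, round ONE, rows UNR and MAXF. -/

set_option autoImplicit false

namespace Pool.Agent.MP_a43263_nt.RH

open Finset Filter
open R2 (Sgn chi Ker ELS)
open RG RG.Surf

namespace Unr

section padic

variable {p : ℕ} [hp : Fact p.Prime]

theorem unit_part {n : ℤ} (hn : n ≠ 0) (he : Even (n : ℚ_[p]).valuation) :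
    ∃ m : ℤ, ¬(p : ℤ) ∣ m ∧ ∃ s : ℚ_[p], s ≠ 0 ∧ (n : ℚ_[p]) = m * s ^ 2 := by
  rw [Padic.valuation_intCast] at he
  obtain ⟨k, hk⟩ : Even (padicValInt p n) := by exact_mod_cast he
  obtain ⟨m, hm⟩ := (padicValInt_dvd_iff (p := p) (padicValInt p n) n).2 (Or.inr le_rfl)
  have hp0 : (p : ℚ_[p]) ≠ 0 := by exact_mod_cast hp.out.ne_zero
  refine ⟨m, fun ⟨c, hc⟩ => ?_, (p : ℚ_[p]) ^ k, pow_ne_zero _ hp0, ?_⟩
  · have : (p : ℤ) ^ (padicValInt p n + 1) ∣ n := ⟨c, by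
      rw [pow_succ, mul_assoc, ← hc]; exact hm⟩
    rw [padicValInt_dvd_iff] at this
    omega
  · rw [hk] at hm
    have : (n : ℚ_[p]) = (((p : ℤ) ^ (k + k) * m : ℤ) : ℚ_[p]) := by rw [← hm]
    rw [this]; push_cast; ring

theorem same (h2 : p ≠ 2) {n m : ℤ} (hn : ¬(p : ℤ) ∣ n) (hm : ¬(p : ℤ) ∣ m)
    (h : legendreSym p n = legendreSym p m) :
    ∃ s : ℚ_[p], s ≠ 0 ∧ (n : ℚ_[p]) = m * s ^ 2 := by
  have pp := Nat.prime_iff_prime_int.1 hp.out
  have hm0 : (m : ZMod p) ≠ 0 := by rwa [Ne, ZMod.intCast_zmod_eq_zero_iff_dvd]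
  have hnm : ¬(p : ℤ) ∣ n * m := fun h => (pp.dvd_or_dvd h).elim hn hm
  have hnm0 : ((n * m : ℤ) : ZMod p) ≠ 0 := by rwa [Ne, ZMod.intCast_zmod_eq_zero_iff_dvd]
  have h1 : legendreSym p (n * m) = 1 := by
    rw [legendreSym.mul, h, ← sq, legendreSym.sq_one p hm0]
  obtain ⟨r, hr⟩ := (legendreSym.eq_one_iff p hnm0).1 h1
  obtain ⟨r, rfl⟩ := ZMod.intCast_surjective r
  have hd : (p : ℤ) ∣ n * m - r ^ 2 := by
    rw [← ZMod.intCast_zmod_eq_zero_iff_dvd]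
    push_cast at hr ⊢
    rw [hr]; ring
  have hr2 : ¬(p : ℤ) ∣ r ^ 2 := fun h => hnm (by simpa using hd.add h)
  have h4 : ¬(p : ℤ) ∣ 4 := fun h => h2 (by
    have h' : (p : ℤ) ∣ 2 ^ 2 := by simpa using h
    have h'' : p ∣ 2 := by exact_mod_cast pp.dvd_of_dvd_pow h'
    exact (Nat.prime_dvd_prime_iff_eq hp.out Nat.prime_two).1 h'')
  have n4 : ‖(4 : ℚ_[p])‖ = 1 := by exact_mod_cast R2.Loc.norm_int h4
  obtain ⟨s, hs⟩ := Cst.close (x := ((n * m : ℤ) : ℚ_[p])) (y := ((r ^ 2 : ℤ) : ℚ_[p])) (by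
    rw [n4, R2.Loc.norm_int hr2, one_mul, ← Int.cast_sub]
    exact Padic.norm_intCast_lt_one_iff.2 hd)
  have m0 : (m : ℚ_[p]) ≠ 0 := by
    rw [Int.cast_ne_zero]; rintro rfl; exact hm (dvd_zero _)
  have n0 : (n : ℚ_[p]) ≠ 0 := by
    rw [Int.cast_ne_zero]; rintro rfl; exact hn (dvd_zero _)
  push_cast at hs
  have e : (n : ℚ_[p]) = m * (r * s / m) ^ 2 := by
    field_simp
    linear_combination hs
  refine ⟨r * s / m, fun h0 => n0 ?_, e⟩
  rw [e, h0]; ring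

theorem leg {n : ℤ} (hn : ¬(p : ℤ) ∣ n) : legendreSym p n ∈ ({1, -1} : Finset ℤ) := by
  have := legendreSym.eq_one_or_neg_one p (a := n) (by rwa [Ne, ZMod.intCast_zmod_eq_zero_iff_dvd])
  simpa using this

end padic

theorem sq_of {x s : ℤ} (hs : s ≠ 0) (h : IsSquare (x * s ^ 2)) : IsSquare x := by
  rw [← Rat.isSquare_intCast_iff] at h ⊢
  push_cast at h
  exact Cert.sq_of (by exact_mod_cast hs) h

theorem sm_mul {N : ℕ} {u v : ℤ} (hu : Smooth N u) (hv : Smooth N v) : Smooth N (u * v) :=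
  ⟨mul_ne_zero hu.1 hv.1, fun p pp h =>
    ((Nat.prime_iff_prime_int.1 pp).dvd_or_dvd h).elim (hu.2 p pp) (hv.2 p pp)⟩

theorem sm_one (N : ℕ) : Smooth N 1 :=
  ⟨one_ne_zero, fun _ pp h => absurd (isUnit_of_dvd_one h) (Nat.prime_iff_prime_int.1 pp).not_isUnit⟩

theorem sm_prod {N : ℕ} {G : ℕ → ℤ} (h : ∀ i, Smooth N (G i)) (x : Finset ℕ) :
    Smooth N (∏ i ∈ x, G i) :=
  prod_induction _ _ (fun _ _ => sm_mul) (sm_one N) fun i _ => h i

theorem jac_prod (G : ℕ → ℤ) (x : Finset ℕ) (m : ℕ) :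
    jacobiSym (∏ i ∈ x, G i) m = ∏ i ∈ x, jacobiSym (G i) m := by
  induction x using Finset.induction_on with
  | empty => simp
  | insert i x hi ih => rw [prod_insert hi, prod_insert hi, jacobiSym.mul_left, ih]

theorem jac_sq {N m : ℕ} {u : ℤ} (hu : Smooth N u) (hm : m.Coprime N) (h : IsSquare u) :
    jacobiSym u m = 1 := by
  obtain ⟨r, rfl⟩ := h
  rw [← sq]
  refine jacobiSym.sq_one' ?_
  rw [Int.gcd_eq_natAbs_gcd_natAbs, Int.natAbs_natCast]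
  refine Nat.coprime_of_dvd fun q pq h1 h2 => ?_
  have h3 : q ∣ N := hu.2 q pq ((Int.natCast_dvd.2 h1).mul_right r)
  exact pq.one_lt.ne' (Nat.eq_one_of_dvd_coprimes hm h2 h3)

theorem cancel (grp : GRPStmt) {K : Type} [Field K] [CharZero K] {a b u₂ u₃ m₂ m₃ : ℤ}
    (ha : a ≠ 0) (hb : b ≠ 0) (hab : a ≠ b) (h2 : u₂ ≠ 0) (h3 : u₃ ≠ 0) (k2 : m₂ ≠ 0)
    (k3 : m₃ ≠ 0) (h : Cover (a : K) b (u₂ * m₂ : ℤ) (u₃ * m₃ : ℤ))
    (k : Cover (a : K) b m₂ m₃) : Cover (a : K) b u₂ u₃ := by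
  have := grp K a b _ _ _ _ (by exact_mod_cast ha) (by exact_mod_cast hb) (by exact_mod_cast hab)
    (by exact_mod_cast mul_ne_zero h2 k2) (by exact_mod_cast mul_ne_zero h3 k3)
    (by exact_mod_cast k2) (by exact_mod_cast k3) h k
  refine Cert.cover_sq (p := (m₂ : K)) (q := (m₃ : K)) (by exact_mod_cast k2)
    (by exact_mod_cast k3) ?_
  rwa [Int.cast_mul, Int.cast_mul, mul_assoc, mul_assoc, ← sq, ← sq] at this

end Unr

open Unr

theorem unr : SIZEStmt → UNRStmt := by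
  intro size p hp a b d₂ d₃ h2 hd
  have ha : ¬(p : ℤ) ∣ a := fun h => hd (Dvd.dvd.mul_right (Dvd.dvd.mul_right
    (Dvd.dvd.mul_right (h.mul_right _) _) _) _)
  have hb : ¬(p : ℤ) ∣ b := fun h => hd (Dvd.dvd.mul_right (Dvd.dvd.mul_right
    (Dvd.dvd.mul_right (h.mul_left _) _) _) _)
  have hδ : ¬(p : ℤ) ∣ a - b := fun h => hd (Dvd.dvd.mul_right (Dvd.dvd.mul_right
    (h.mul_left _) _) _)
  have g2 : ¬(p : ℤ) ∣ d₂ := fun h => hd (Dvd.dvd.mul_right (h.mul_left _) _)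
  have g3 : ¬(p : ℤ) ∣ d₃ := fun h => hd (h.mul_left _)
  obtain ⟨I, hc, hI, inj⟩ := size p a b (by rintro rfl; exact ha (dvd_zero _))
    (by rintro rfl; exact hb (dvd_zero _)) (by rintro rfl; exact hδ (by simp))
  rw [if_neg h2] at hc
  have na := R2.Loc.norm_int ha
  have nb := R2.Loc.norm_int hb
  have nδ : ‖(a : ℚ_[p]) - b‖ = 1 := by exact_mod_cast R2.Loc.norm_int hδ
  have H : ∀ d ∈ I, ∃ e : ℤ × ℤ,
      (¬(p : ℤ) ∣ e.1 ∧ ∃ s : ℚ_[p], s ≠ 0 ∧ (d.1 : ℚ_[p]) = e.1 * s ^ 2) ∧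
      (¬(p : ℤ) ∣ e.2 ∧ ∃ s : ℚ_[p], s ≠ 0 ∧ (d.2 : ℚ_[p]) = e.2 * s ^ 2) := by
    intro d hd
    obtain ⟨n2, n3, hcov⟩ := hI d hd
    have c2 : (d.1 : ℚ_[p]) ≠ 0 := by exact_mod_cast n2
    have c3 : (d.2 : ℚ_[p]) ≠ 0 := by exact_mod_cast n3
    obtain ⟨e₁, h₁⟩ := unit_part n2 (R2.Loc.good c2 c3 hcov na nb nδ)
    obtain ⟨e₂, h₂⟩ := unit_part n3
      (R2.Loc.good c3 c2 (Cst.swap hcov) nb na (by rwa [norm_sub_rev]))
    exact ⟨(e₁, e₂), h₁, h₂⟩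
  choose! g hg using H
  have key : ∀ {x y e f : ℤ}, (¬(p : ℤ) ∣ e ∧ ∃ s : ℚ_[p], s ≠ 0 ∧ (x : ℚ_[p]) = e * s ^ 2) →
      (¬(p : ℤ) ∣ f ∧ ∃ s : ℚ_[p], s ≠ 0 ∧ (y : ℚ_[p]) = f * s ^ 2) →
      legendreSym p e = legendreSym p f → IsSquare ((x : ℚ_[p]) * y) := by
    rintro x y e f ⟨he, s, -, hs⟩ ⟨hf, t, -, ht⟩ h
    obtain ⟨w, -, hw⟩ := same h2 he hf h
    exact ⟨f * w * s * t, by rw [hs, ht, hw]; ring⟩
  have sur := Finset.surjOn_of_injOn_of_card_le (s := I)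
    (t := ({1, -1} : Finset ℤ) ×ˢ ({1, -1} : Finset ℤ))
    (fun d => (legendreSym p (g d).1, legendreSym p (g d).2))
    (fun d hd => mem_coe.2 (mem_product.2 ⟨leg (hg d hd).1.1, leg (hg d hd).2.1⟩))
    (fun d hd e he h => inj d hd e he (key (hg d hd).1 (hg e he).1 (congrArg Prod.fst h))
      (key (hg d hd).2 (hg e he).2 (congrArg Prod.snd h)))
    (by rw [hc]; decide)
  obtain ⟨d, hd, e⟩ := sur (mem_coe.2 (mem_product.2
    (show (legendreSym p d₂, legendreSym p d₃).1 ∈ _ ∧ (legendreSym p d₂, legendreSym p d₃).2 ∈ _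
      from ⟨leg g2, leg g3⟩)))
  obtain ⟨⟨k2, s, hs, es⟩, k3, t, ht, et⟩ := hg d hd
  obtain ⟨s', hs', es'⟩ := same h2 k2 g2 (congrArg Prod.fst e)
  obtain ⟨t', ht', et'⟩ := same h2 k3 g3 (congrArg Prod.snd e)
  refine Cert.cover_sq (p := s' * s) (q := t' * t) (mul_ne_zero hs' hs) (mul_ne_zero ht' ht) ?_
  have := (hI d hd).2.2
  rwa [es, et, es', et', mul_assoc, mul_assoc, ← mul_pow, ← mul_pow] at this

theorem maxf : MAXIStmt → GRPStmt → MAXFStmt := by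
  intro maxi grp N a b Fr hN h2 ha hb hδ ok x hx
  obtain ⟨mx1, mx2⟩ := maxi N a b hN h2 ha hb hδ
  obtain ⟨hx1, hx2⟩ := mem_filter.1 hx
  rw [mem_powerset] at hx1
  have s2 := sm_prod (fun i => (ok.sm i).1)
  have s1 := sm_prod (fun i => (ok.sm i).2)
  have mul : ∀ (m₂ : ℕ) (m₃ : ℤ),
      (∀ i < Fr.k, jacobiSym (Fr.G2 i) m₃.natAbs * jacobiSym (Fr.G1 i) m₂ = 1) →
      ∀ z ⊆ range Fr.k, jacobiSym (∏ i ∈ z, Fr.G2 i) m₃.natAbs *
        jacobiSym (∏ i ∈ z, Fr.G1 i) m₂ = 1 := by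
    intro m₂ m₃ h z hz
    rw [jac_prod, jac_prod, ← prod_mul_distrib]
    exact prod_eq_one fun i hi => h i (mem_range.1 (hz hi))
  obtain ⟨m₂, m₃, adm, sol⟩ := mx1 _ _ (s2 x) (s1 x) fun m₂ m₃ adm sol => by
    refine mul m₂ m₃ (fun i hi => ?_) x hx1
    obtain ⟨y, hy, q2, q1, e⟩ := ok.loc 1 1 m₃ m₂ (sm_one N) (sm_one N) adm.1 adm.2.1 adm.2.2
      (by rwa [one_mul, one_mul])
    rw [one_mul] at q2 q1
    rw [← e i hi, ok.ind y hy q2 q1, prod_empty]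
  obtain ⟨y, hy, q2, q1, e⟩ := ok.loc _ _ m₃ m₂ (s2 x) (s1 x) adm.1 adm.2.1 adm.2.2 sol
  rw [Cert.prod_sd] at q2 q1
  have exy : x = y := by
    have := ok.ind (symmDiff x y) (symmDiff_le_sup.trans (sup_le hx1 hy))
      (sq_of (s2 _).1 q2) (sq_of (s1 _).1 q1)
    exact symmDiff_eq_bot.1 this
  subst exy
  have one := mul m₂ m₃ fun i hi => by rw [← e i hi]; exact hx2 i (mem_range.2 hi)
  have solm := mx2 m₂ m₃ adm fun u₂ u₃ k₂ k₃ t2 t3 adk solk => by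
    obtain ⟨z, hz, r2, r1, -⟩ := ok.loc _ _ k₃ k₂ t2 t3 adk.1 adk.2.1 adk.2.2 solk
    have j2 := jac_sq (sm_mul t2 (s2 z)) adm.2.2 r2
    have j1 := jac_sq (sm_mul t3 (s1 z)) adm.1 r1
    rw [jacobiSym.mul_left] at j2 j1
    have := one z hz
    linear_combination (jacobiSym u₃ m₂ * jacobiSym (∏ i ∈ z, Fr.G1 i) m₂) * j2 + j1 -
      (jacobiSym u₂ m₃.natAbs * jacobiSym u₃ m₂) * this
  have hab : a ≠ b := sub_ne_zero.1 hδ.1
  have k2 : (m₂ : ℤ) ≠ 0 := by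
    rw [Nat.cast_ne_zero]
    rintro rfl
    have := adm.1
    rw [Nat.coprime_zero_left] at this
    omega
  have k3 : m₃ ≠ 0 := by
    rintro rfl
    have := adm.2.1
    omega
  exact ⟨cancel grp ha hb hab (s2 x).1 (s1 x).1 k2 k3 sol.1 solm.1, fun p _ hp =>
    cancel grp ha hb hab (s2 x).1 (s1 x).1 k2 k3 (sol.2 p hp) (solm.2 p hp)⟩

end Pool.Agent.MP_a43263_nt.RH

end MrgPart1

-- ======== part 2: formerly Pool.Agent.MP_a43263_nt.RH.OneShc
section MrgPart2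

/-! PROJECT RANKG, round ONE: the Hasse principle for 2-coverings. -/

set_option autoImplicit false

noncomputable section

namespace Pool.Agent.MP_a43263_nt.RH

open Classical WeierstrassCurve Two
open R2 (Ecv Sol2 ELS)
open R2.Desc

namespace Shc

variable {a b d₂ d₃ : ℚ} {r₂ r₃ : Qbar}

theorem quot_mul {r : Qbar} {d : ℚ} (hd : d ≠ 0) (h : r ^ 2 = d) (σ τ : GQ) :
    (σ * τ) r / r = σ r / r * (τ r / r) := by
  have h0 := root_ne hd h
  have h1 : σ (τ r / r) = τ r / r := map_sign (σ : Qbar →+* Qbar) (quot_sq hd h τ)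
  have h2 : σ r ≠ 0 := (map_ne_zero σ).2 h0
  rw [map_div₀, div_eq_iff h2] at h1
  rw [AlgEquiv.mul_apply, h1]
  ring

theorem triv (ha : a ≠ 0) (hb : b ≠ 0) (hab : a ≠ b) {c : GQ → Pt (Ecv a b) Qbar} (n₂ : d₂ ≠ 0)
    (n₃ : d₃ ≠ 0) (s₂ : r₂ ^ 2 = d₂) (s₃ : r₃ ^ 2 = d₃)
    (hu : ∀ σ, Sg (a : Qbar) b (c σ) (σ r₂ / r₂) (σ r₃ / r₃)) (K : Type) [Field K] [CharZero K]
    (h : Sol2 (a : K) b d₂ d₃) : LocTriv (Ecv a b) K c := by
  have hE := isE ha hb hab (AlgebraicClosure K)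
  obtain ⟨z₀, z₂, z₃, t, hne, e₂, e₃⟩ := h
  have m₂ : emb K r₂ ≠ 0 := by simpa using root_ne n₂ s₂
  have m₃ : emb K r₃ ≠ 0 := by simpa using root_ne n₃ s₃
  have q₂ : emb K r₂ ^ 2 = d₂ := by rw [← map_pow, s₂, map_ratCast]
  have q₃ : emb K r₃ ^ 2 = d₃ := by rw [← map_pow, s₃, map_ratCast]
  have e₂' := congrArg (algebraMap K (AlgebraicClosure K)) e₂
  have e₃' := congrArg (algebraMap K (AlgebraicClosure K)) e₃
  simp only [map_sub, map_mul, map_pow, map_ratCast, ← q₂, ← q₃] at e₂' e₃'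
  have k₂ : (d₂ : K) ≠ 0 := by exact_mod_cast n₂
  have k₃ : (d₃ : K) ≠ 0 := by exact_mod_cast n₃
  obtain ⟨R, hR⟩ := hE.surj (z0 := emb K r₂ * emb K r₃ * algebraMap K _ z₀)
    (z2 := emb K r₂ * algebraMap K _ z₂) (z3 := emb K r₃ * algebraMap K _ z₃)
    (t := algebraMap K _ t) (by linear_combination e₂') (by linear_combination e₃') (by
      rintro ⟨h0, h1⟩
      obtain rfl : z₀ = 0 := by simpa [m₂, m₃] using h0
      obtain rfl : t = 0 := by simpa using h1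
      exact hne ⟨rfl, by simpa [k₂] using e₂, by simpa [k₃] using e₃, rfl⟩)
  refine ⟨R, fun σ τ hτ => ?_⟩
  have h1 := (hu τ).pm (emb K)
  rw [map_ratCast, map_ratCast, map_div₀, map_div₀, hτ, hτ] at h1
  refine hE.sg_inj h1 (hE.sg_sub h1.1 h1.2.1 hR ?_)
  have h3 := hR.pm (σ : AlgebraicClosure K →+* AlgebraicClosure K)
  simp only [map_ratCast, map_mul, RingHom.coe_coe, AlgEquiv.commutes] at h3
  have f₀ : σ (emb K r₂) / emb K r₂ * (σ (emb K r₃) / emb K r₃) *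
      (emb K r₂ * emb K r₃ * algebraMap K _ z₀) =
      σ (emb K r₂) * σ (emb K r₃) * algebraMap K _ z₀ := by field_simp
  have f₂ : σ (emb K r₂) / emb K r₂ * (emb K r₂ * algebraMap K _ z₂) =
      σ (emb K r₂) * algebraMap K _ z₂ := by field_simp
  have f₃ : σ (emb K r₃) / emb K r₃ * (emb K r₃ * algebraMap K _ z₃) =
      σ (emb K r₃) * algebraMap K _ z₃ := by field_simp
  rw [f₀, f₂, f₃]
  exact h3

end Shc

open Shc in
theorem shc : SHCStmt := by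
  intro a b ha hb hab H d₂ d₃ n₂ n₃ hl
  replace H : ∀ x ∈ Sha (Ecv a b), 2 • x = 0 → x = 0 := H
  have hE := isE ha hb hab Qbar
  obtain ⟨r₂, s₂⟩ := IsAlgClosed.exists_pow_nat_eq (d₂ : Qbar) two_pos
  obtain ⟨r₃, s₃⟩ := IsAlgClosed.exists_pow_nat_eq (d₃ : Qbar) two_pos
  choose c hu using fun σ : GQ => hE.sg_exists (quot_sq n₂ s₂ σ) (quot_sq n₃ s₃ σ)
  have hc : c ∈ cocycles (Ecv a b) := by
    refine ⟨(IsLocallyConstant.iff_eventually_eq _).2 fun σ0 => ?_, fun σ τ => ?_⟩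
    · filter_upwards [eventually_apply_eq σ0 r₂, eventually_apply_eq σ0 r₃] with σ h1 h2
      have h3 := hu σ
      rw [h1, h2] at h3
      exact hE.sg_inj h3 (hu σ0)
    · have h3 := hu (σ * τ)
      rw [quot_mul n₂ s₂, quot_mul n₃ s₃] at h3
      exact hE.sg_inj h3 (hE.sg_add (hu σ) (sg_ac (hu τ) σ))
  have h0 : H1.mk (ac (Ecv a b)) ⟨c, hc⟩ = 0 := by
    refine H (H1.mk (ac (Ecv a b)) ⟨c, hc⟩) ⟨⟨c, hc⟩, rfl, triv ha hb hab n₂ n₃ s₂ s₃ hu ℝ hl.1,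
      fun p _ => triv ha hb hab n₂ n₃ s₂ s₃ hu _ (hl.2 p)⟩ ?_
    refine (QuotientAddGroup.eq_zero_iff (2 • (⟨c, hc⟩ : cocycles (Ecv a b)))).2 ⟨0, fun σ => ?_⟩
    rw [map_zero, sub_zero]
    exact hE.sg_two (hu σ)
  obtain ⟨R, hR⟩ := (QuotientAddGroup.eq_zero_iff (⟨c, hc⟩ : cocycles (Ecv a b))).1 h0
  obtain rfl : c = fun σ => ac (Ecv a b) σ R - R := funext hR
  have := loc ha hb hab n₂ n₃ s₂ s₃ hu ℚ (locTriv_cob ℚ R)
  simp only [Rat.cast_id] at this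
  exact this

end Pool.Agent.MP_a43263_nt.RH

end
end MrgPart2

-- ======== part 3: formerly Pool.Agent.MP_a43263_nt.RH.OneUb
section MrgPart3

/-! PROJECT RANKG, round ONE: the upper bound for soluble classes and the generic rank. -/

set_option autoImplicit false

noncomputable section

namespace Pool.Agent.MP_a43263_nt.RH

open Finset Polynomial RG RG.Surf Two R2.Desc
open R2 (Ecv Sol2)

namespace Ub

theorem nat_sq {m : ℕ} (hm : m ≠ 0) (h : ∀ p : ℕ, p.Prime → Even (padicValNat p m)) :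
    IsSquare m := by
  obtain ⟨a, b, e, ha⟩ := Nat.sq_mul_squarefree m
  have hb : b ≠ 0 := by rintro rfl; exact hm (by rw [← e]; simp)
  have h1 : a = 1 := by
    by_contra c
    obtain ⟨p, hp, hd⟩ := Nat.exists_prime_and_dvd c
    have := Fact.mk hp
    have h2 := h p hp
    rw [← e, padicValNat.mul (pow_ne_zero _ hb) ha.ne_zero, padicValNat.pow] at h2
    have h3 : padicValNat p a ≤ 1 := by
      rw [← Nat.factorization_def _ hp]; exact ha.natFactorization_le_one p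
    have h4 : 1 ≤ padicValNat p a := one_le_padicValNat_of_dvd ha.ne_zero hd
    obtain ⟨k, hk⟩ := h2
    omega
  exact ⟨b, by rw [← e, h1, mul_one, sq]⟩

theorem rat_sq {x : ℚ} (hx : 0 < x) (h : ∀ p : ℕ, p.Prime → Even (padicValRat p x)) :
    IsSquare x := by
  have hn : x.num.natAbs ≠ 0 := Int.natAbs_ne_zero.2 (Rat.num_ne_zero.2 hx.ne')
  have h1 : IsSquare (x.num.natAbs * x.den) := nat_sq (mul_ne_zero hn x.den_nz) fun p hp => by
    have := Fact.mk hp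
    obtain ⟨k, hk⟩ := h p hp
    rw [padicValNat.mul hn x.den_nz]
    rw [padicValRat, padicValInt] at hk
    exact (Int.even_coe_nat _).1 ⟨k + padicValNat p x.den, by rw [Nat.cast_add]; omega⟩
  obtain ⟨s, hs⟩ := h1
  have h2 : ((x.num.natAbs : ℕ) : ℚ) = x.num := by
    rw [← Int.cast_natCast, Int.natAbs_of_nonneg (Rat.num_pos.2 hx).le]
  have h3 : (x.den : ℚ) ≠ 0 := Nat.cast_ne_zero.2 x.den_nz
  have h4 : (x.num : ℚ) * x.den = s * s := by rw [← h2]; exact_mod_cast hs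
  refine ⟨s / x.den, ?_⟩
  rw [div_mul_div_comm, ← h4, mul_div_mul_right _ _ h3, Rat.num_div_den]

theorem norm_one {x : ℚ} (hx : x ≠ 0) : ∃ M : ℕ, ∀ (p : ℕ) [Fact p.Prime], M ≤ p →
    ‖(x : ℚ_[p])‖ = 1 := by
  refine ⟨x.num.natAbs + x.den + 1, fun p hp h => ?_⟩
  have hn : x.num.natAbs ≠ 0 := Int.natAbs_ne_zero.2 (Rat.num_ne_zero.2 hx)
  have h1 : padicValRat p x = 0 := by
    rw [padicValRat, padicValInt, padicValNat.eq_zero_of_not_dvd, padicValNat.eq_zero_of_not_dvd]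
    · simp
    · exact fun c => by have := Nat.le_of_dvd x.den_pos c; omega
    · exact fun c => by have := Nat.le_of_dvd (Nat.pos_of_ne_zero hn) c; omega
  rw [Padic.norm_eq_zpow_neg_valuation (Rat.cast_ne_zero.2 hx), Padic.valuation_ratCast, h1]
  simp

theorem even_big {a b : ℚ} (ha : a ≠ 0) (hb : b ≠ 0) (hab : a ≠ b) : ∃ M : ℕ, ∀ d₂ d₃ : ℚ,
    d₂ ≠ 0 → d₃ ≠ 0 → Sol2 a b d₂ d₃ → ∀ p : ℕ, p.Prime → M ≤ p →
      Even (padicValRat p d₂) ∧ Even (padicValRat p d₃) := by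
  obtain ⟨M1, h1⟩ := norm_one ha
  obtain ⟨M2, h2⟩ := norm_one hb
  obtain ⟨M3, h3⟩ := norm_one (sub_ne_zero.2 hab)
  refine ⟨M1 + M2 + M3, fun d₂ d₃ n₂ n₃ h p hp hM => ?_⟩
  have := Fact.mk hp
  have hs : Sol2 (a : ℚ_[p]) b d₂ d₃ := by
    obtain ⟨z₀, z₂, z₃, t, hne, e₂, e₃⟩ := h
    exact ⟨z₀, z₂, z₃, t, by exact_mod_cast hne, by exact_mod_cast e₂, by exact_mod_cast e₃⟩
  have k1 := h1 p (by omega)
  have k2 := h2 p (by omega)
  have k3 := h3 p (by omega)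
  rw [Rat.cast_sub] at k3
  have c₂ : (d₂ : ℚ_[p]) ≠ 0 := Rat.cast_ne_zero.2 n₂
  have c₃ : (d₃ : ℚ_[p]) ≠ 0 := Rat.cast_ne_zero.2 n₃
  rw [← Padic.valuation_ratCast, ← Padic.valuation_ratCast]
  exact ⟨R2.Loc.good c₂ c₃ hs k1 k2 k3,
    R2.Loc.good c₃ c₂ (R2.Loc.swap hs) k2 k1 (by rwa [norm_sub_rev])⟩

/-- sign and parities of the valuations at the small primes -/
def cls (M : ℕ) (d : ℚ) : Prop × (Fin M → Prop) := (0 < d, fun p => Even (padicValRat p d))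

theorem cls_sq {M : ℕ} {d e : ℚ} (hd : d ≠ 0) (he : e ≠ 0) (h : cls M d = cls M e)
    (h1 : ∀ p : ℕ, p.Prime → M ≤ p → Even (padicValRat p d))
    (h2 : ∀ p : ℕ, p.Prime → M ≤ p → Even (padicValRat p e)) : IsSquare (d * e) := by
  have s : 0 < d ↔ 0 < e := (congrArg Prod.fst h).to_iff
  refine rat_sq ?_ fun p hp => ?_
  · rcases lt_or_gt_of_ne hd with c | c
    · exact mul_pos_of_neg_of_neg c (lt_of_le_of_ne (not_lt.1 fun k => c.not_gt (s.2 k)) he)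
    · exact mul_pos c (s.1 c)
  · have := Fact.mk hp
    rw [padicValRat.mul hd he, Int.even_add]
    by_cases c : p < M
    · exact (congrFun (congrArg Prod.snd h) ⟨p, c⟩).to_iff
    · exact iff_of_true (h1 p hp (by omega)) (h2 p hp (by omega))

theorem weak {a b : ℚ} (ha : a ≠ 0) (hb : b ≠ 0) (hab : a ≠ b) :
    (nsmulAddMonoidHom (α := Pt (Ecv a b) ℚ) 2).range.FiniteIndex := by
  obtain ⟨M, hM⟩ := even_big ha hb hab
  choose e₂ e₃ he using fun Q : Pt (Ecv a b) ℚ => exists_gd ha hb hab Q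
  rw [AddSubgroup.finiteIndex_iff_finite_quotient]
  refine Finite.of_injective
    (fun q : Pt (Ecv a b) ℚ ⧸ (nsmulAddMonoidHom (α := Pt (Ecv a b) ℚ) 2).range =>
      (cls M (e₂ q.out), cls M (e₃ q.out))) fun q q' h => ?_
  have k := hM _ _ (he q.out).1 (he q.out).2.1 ((he q.out).sol ha hb hab)
  have k' := hM _ _ (he q'.out).1 (he q'.out).2.1 ((he q'.out).sol ha hb hab)
  obtain ⟨Z, hZ⟩ := (((he q.out).mul ha hb hab (he q'.out)).iff ha hb hab).1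
    ⟨cls_sq (he _).1 (he _).1 (congrArg Prod.fst h) (fun p a b => (k p a b).1)
      fun p a b => (k' p a b).1,
     cls_sq (he _).2.1 (he _).2.1 (congrArg Prod.snd h) (fun p a b => (k p a b).2)
      fun p a b => (k' p a b).2⟩
  rw [← q.out_eq, ← q'.out_eq]
  exact QuotientAddGroup.eq.2 ⟨Z - q.out, by
    rw [nsmulAddMonoidHom_apply, smul_sub, ← hZ]; abel⟩

end Ub

theorem ub : UBStmt := by
  intro a b r ι I d₂ d₃ ha hb hab hr hg hi
  classical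
  choose P hP using fun i : I =>
    gd_of_sol ha hb hab (hg i i.2).1 (hg i i.2).2.1 (hg i i.2).2.2
  have hΔ := (isE ha hb hab ℚ).delta
  have : ((Ecv a b).baseChange ℚ).IsElliptic := ⟨hΔ.isUnit⟩
  have hw := Ub.weak ha hb hab
  have h1 : I.card ≤ (nsmulAddMonoidHom (α := Pt (Ecv a b) ℚ) 2).range.index := by
    rw [← Fintype.card_coe, ← Nat.card_eq_fintype_card, AddSubgroup.index_eq_card]
    refine Nat.card_le_card_of_injective
      (fun i : I => (QuotientAddGroup.mk (P i) : Pt (Ecv a b) ℚ ⧸ _)) fun i j h => ?_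
    obtain ⟨Z, hZ⟩ := QuotientAddGroup.eq.1 h
    rw [nsmulAddMonoidHom_apply] at hZ
    obtain ⟨h₂, h₃⟩ := (((hP i).mul ha hb hab (hP j)).iff ha hb hab).2
      ⟨Z + P i, by rw [smul_add, hZ]; abel⟩
    exact Subtype.ext (hi i i.2 j j.2 h₂ h₃)
  obtain ⟨C, hC⟩ := parallelogram (V := ((Ecv a b).baseChange ℚ).toAffine)
  have := northcott (V := ((Ecv a b).baseChange ℚ).toAffine)
  obtain ⟨n, h2, h3⟩ := index_two (AddCommGroup.fg_of_descent' hw
    (fun P : Pt (Ecv a b) ℚ => Height.logHeight_nonneg P.xRep) hC)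
  rw [card_two ha hb hab, ← pow_add] at h3
  have h4 : Module.rank ℤ (Pt (Ecv a b) ℚ) ≤ r := hr
  rw [h2, Nat.cast_le] at h4
  exact h1.trans (h3.le.trans (Nat.pow_le_pow_right two_pos (by omega)))

theorem gen3 : LATStmt → HGTStmt → RKKStmt → POLYStmt → RESStmt → INJStmt → GEN3Stmt := by
  classical
  intro lat hgt rkk poly res inj n F h0
  obtain ⟨a, b, hab, ea, eb⟩ := poly n F h0
  have hq := hgt n a b hab
  rw [← ea, ← eb] at hq
  obtain ⟨q, q1, q2⟩ := hq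
  have hi : Function.Injective (algebraMap ℚ[X] (RatFunc ℚ)) := RatFunc.algebraMap_injective ℚ
  have ha : F.D 1 gp ≠ 0 := ea ▸ (map_ne_zero_iff _ hi).2 hab.sa.ne_zero
  have hb : F.D 2 gp ≠ 0 := eb ▸ (map_ne_zero_iff _ hi).2 hab.sb.ne_zero
  have hd : F.D 1 gp ≠ F.D 2 gp := by
    rw [ea, eb]
    exact hi.ne (sub_ne_zero.1 hab.sd.ne_zero)
  choose! U hU using fun (y : Finset (Fin 3 × Fin n)) (h : ∃ u, F.InS u y ∧ SolG F u y) => h
  set I : Finset (Finset (Fin 3 × Fin n)) := univ.filter fun y => ∃ u, F.InS u y ∧ SolG F u y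
    with hI
  have hm : ∀ y ∈ I, F.InS (U y) y ∧ SolG F (U y) y := fun y hy => hU y (mem_filter.1 hy).2
  have split : ∀ e d : RatFunc ℚ, e ≠ 0 → d ≠ 0 → IsSquare (e * d) → ∃ s, s ≠ 0 ∧ e = d * s ^ 2 := by
    rintro e d he hd ⟨s, hs⟩
    refine ⟨s / d, div_ne_zero (fun k => mul_ne_zero he hd (by rw [hs, k, mul_zero])) hd, ?_⟩
    rw [div_pow, sq s, ← hs]
    field_simp
  have h1 : ∀ e₂ e₃ : RatFunc ℚ, e₂ ≠ 0 → e₃ ≠ 0 → Cover (F.D 1 gp) (F.D 2 gp) e₂ e₃ →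
      ∃ y ∈ I, IsSquare (e₂ * F.del (U y) y 2 gp) ∧ IsSquare (e₃ * F.del (U y) y 1 gp) := by
    intro e₂ e₃ h₂ h₃ h
    obtain ⟨u, y, hy, s₂, s₃⟩ := res n F h0 e₂ e₃ h₂ h₃ h
    have k0 := (inj n F h0 u y u y hy hy).1
    have hs : SolG F u y := by
      obtain ⟨p, hp, e⟩ := split _ _ h₂ (k0 2) s₂
      obtain ⟨p', hp', e'⟩ := split _ _ h₃ (k0 1) s₃
      rw [e, e'] at h
      exact Cert.cover_sq hp hp' h
    obtain ⟨k1, k2⟩ := inj n F h0 u y _ y hy (hU y ⟨u, hy, hs⟩).1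
    exact ⟨y, mem_filter.2 ⟨mem_univ _, u, hy, hs⟩, GenTop.sq_trans (k1 2) s₂ (k2.2 rfl).1,
      GenTop.sq_trans (k1 1) s₃ (k2.2 rfl).2⟩
  obtain ⟨r1, r2⟩ := rkk (RatFunc ℚ) _ _ _ I (fun y => F.del (U y) y 2 gp)
    (fun y => F.del (U y) y 1 gp) ha hb hd
    (fun y hy => ⟨(inj n F h0 _ y _ y (hm y hy).1 (hm y hy).1).1 2,
      (inj n F h0 _ y _ y (hm y hy).1 (hm y hy).1).1 1, (hm y hy).2⟩)
    (fun y hy y' hy' s₂ s₃ => (inj n F h0 _ y _ y' (hm y hy).1 (hm y' hy').1).2.1 ⟨s₂, s₃⟩) h1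
  obtain ⟨y₀, hy₀, -⟩ := h1 1 1 one_ne_zero one_ne_zero ⟨1, 1, 1, 0, by simp, by simp, by simp⟩
  obtain ⟨r, h2, h3⟩ := Two.index_two (lat _ q q1 q2
    (Nat.finite_of_card_ne_zero (by rw [r2]; norm_num))
    ⟨by rw [r1]; exact card_ne_zero_of_mem hy₀⟩)
  refine ⟨r, h2, ?_⟩
  rw [pow_add, ← r2, ← h3, r1, ← Set.ncard_coe_finset, hI, coe_filter]
  simp

end Pool.Agent.MP_a43263_nt.RH

end
end MrgPart3

-- ======== part 4: formerly Pool.Agent.MP_a43263_nt.RH.OneOne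
section MrgPart4

/-! PROJECT RANKG, round ONE, rows SPE3, EXV, ONE. -/

set_option autoImplicit false

noncomputable section

namespace Pool.Agent.MP_a43263_nt.RH

open Finset Polynomial RG RG.Surf RG.GoodAux

namespace OneAux

section
variable {K K' : Type} [Field K] [Field K'] {a b d₂ d₃ e₂ e₃ : K}

theorem cover_map (σ : K →+* K') (h : Cover a b d₂ d₃) : Cover (σ a) (σ b) (σ d₂) (σ d₃) := by
  obtain ⟨z₀, z₂, z₃, t, hne, e₁, e₂⟩ := h
  refine ⟨σ z₀, σ z₂, σ z₃, σ t, by simpa using hne, ?_, ?_⟩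
  · simpa using congrArg σ e₁
  · simpa using congrArg σ e₂

theorem cover_of_sq (h₂ : d₂ ≠ 0) (h₃ : d₃ ≠ 0) (k₂ : e₂ ≠ 0) (k₃ : e₃ ≠ 0)
    (s₂ : IsSquare (e₂ * d₂)) (s₃ : IsSquare (e₃ * d₃)) (h : Cover a b e₂ e₃) :
    Cover a b d₂ d₃ := by
  obtain ⟨r, hr⟩ := s₂
  obtain ⟨s, hs⟩ := s₃
  have r0 : r ≠ 0 := left_ne_zero_of_mul (hr ▸ mul_ne_zero k₂ h₂)
  have s0 : s ≠ 0 := left_ne_zero_of_mul (hs ▸ mul_ne_zero k₃ h₃)
  refine Cert.cover_sq (div_ne_zero r0 h₂) (div_ne_zero s0 h₃) ?_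
  rwa [show d₂ * (r / d₂) ^ 2 = e₂ by field_simp; linear_combination -hr,
    show d₃ * (s / d₃) ^ 2 = e₃ by field_simp; linear_combination -hs]

theorem cover_mulsq {s p q : K} (hs : s ≠ 0) (hp : p ≠ 0) (hq : q ≠ 0) (h : Cover a b d₂ d₃) :
    Cover (s ^ 2 * a) (s ^ 2 * b) (p ^ 2 * d₂) (q ^ 2 * d₃) := by
  refine Cert.cover_sq (inv_ne_zero hp) (inv_ne_zero hq) ?_
  rw [show p ^ 2 * d₂ * p⁻¹ ^ 2 = d₂ by field_simp, show q ^ 2 * d₃ * q⁻¹ ^ 2 = d₃ by field_simp]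
  obtain ⟨z₀, z₂, z₃, t, hne, e₁, e₂⟩ := h
  refine ⟨s * z₀, s * z₂, s * z₃, t, by simpa [hs] using hne, ?_, ?_⟩
  · linear_combination s ^ 2 * e₁
  · linear_combination s ^ 2 * e₂

end

variable {n : ℕ} {F : Surf n}

/-- the two variables are exchanged -/
def sw (F : Surf n) : Surf n := ⟨F.B, F.A, F.c⟩

theorem L_sw {K : Type} [Field K] (j : Ix n) (x y : K) : (sw F).L j (x, y) = F.L j (y, x) :=
  add_comm _ _

theorem exists_inv (K : Type) [Field K] :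
    ∃ σ : RatFunc K →+* RatFunc K, σ RatFunc.X = RatFunc.X⁻¹ := by
  have h : Transcendental K (RatFunc.X : RatFunc K)⁻¹ := fun h =>
    RatFunc.transcendental_X (IsAlgebraic.inv_iff.1 h)
  refine ⟨IsFractionRing.lift (A := K[X]) (g := (aeval (RatFunc.X : RatFunc K)⁻¹).toRingHom)
    (transcendental_iff_injective.1 h), (IsFractionRing.lift_algebraMap _ X).trans ?_⟩
  simp

theorem AB (h : Hyp0 F) (j : Ix n) : F.A j = 0 → F.B j ≠ 0 := fun e e' =>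
  Inj.res h (Inj.other j) (by simp [e, e'])

variable {p : ℕ} [Fact p.Prime]

theorem evn_u (h : Hyp0 F) (hc : ∀ i, ¬(p : ℤ) ∣ F.c i)
    (hr : ∀ k l, k ≠ l → padicValRat p (F.L k (F.root l)) = 0) {u : Fin 3 → ℚ}
    {y : Finset (Ix n)} (hu : F.InS u y) (k : Ix n) : Evn p (u k.1) := by
  have hR : ∀ j k : Ix n, j.1 ≠ k.1 → Evn p (F.L j (F.root k)) := fun j k e =>
    have e' : j ≠ k := fun e' => e (congrArg Prod.fst e')
    ⟨h.ne j k e', by rw [hr j k e']; exact Even.zero⟩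
  have hD : ∀ i (k : Ix n), i ≠ k.1 → Evn p (F.D i (F.root k)) := fun i k e =>
    (Evn.int (hc i)).mul (Evn.prod fun _ _ => hR _ _ e)
  have h1 : Evn p (∏ j ∈ y.filter (fun j => j.1 ≠ k.1), F.L j (F.root k)) :=
    Evn.prod fun j hj => hR _ _ (mem_filter.1 hj).2
  have h2 : Evn p (if k ∈ y then F.gam k else 1) := by
    split_ifs
    · obtain ⟨i, k⟩ := k
      fin_cases i
      · exact hD 1 (0, k) (by simp)
      · exact (hD 2 (1, k) (by simp)).neg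
      · exact (hD 1 (2, k) (by simp)).neg
    · exact Evn.one
  have h3 := hu.2.2.2 k
  simp only [Surf.del, Rat.cast_id] at h3
  exact ((Evn.of_sq (mul_ne_zero (mul_ne_zero (hu.1 _) h1.1) h2.1) h3).left h2).left h1

theorem nz {v : ℤ × ℤ} (hv : Priv F v) (j : Ix n) : F.L j (vq v) ≠ 0 := fun e => by
  obtain ⟨p, -, h, -⟩ := hv.2 j
  simp [e] at h

theorem sub_of_sq (h : Hyp0 F) {v : ℤ × ℤ} (hv : Priv F v) {u u' : Fin 3 → ℚ}
    {y y' : Finset (Ix n)} (hy : F.InS u y) (hy' : F.InS u' y')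
    (h₂ : IsSquare (F.del u y 2 (vq v) * F.del u' y' 2 (vq v)))
    (h₁ : IsSquare (F.del u y 1 (vq v) * F.del u' y' 1 (vq v))) : y ⊆ y' := by
  intro j hj
  by_contra hj'
  obtain ⟨q, hq, ho, hc, hr⟩ := hv.2 j
  have : Fact q.Prime := ⟨hq⟩
  have hL : ∀ k, F.L k (vq v) = (F.LZ k v : ℚ) := fun k => L_cast k v
  have hqj : (q : ℤ) ∣ F.LZ j v := by
    by_contra c
    exact Int.not_even_iff_odd.2 ho (hL j ▸ (Evn.int c).2)
  have hk : ∀ k, k ≠ j → Evn q (F.L k (vq v)) := fun k e => by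
    rw [hL]
    refine Evn.int fun c => ?_
    have h1 := hr k j e
    have h2 := h.ne k j e
    rw [L_root] at h1 h2
    rw [padicValRat.of_int, Nat.cast_eq_zero, padicValInt.eq_zero_iff] at h1
    refine ((h1.resolve_left hq.one_lt.ne').resolve_left (Int.cast_ne_zero.1 h2)) ?_
    obtain ⟨s, t, e⟩ := hv.1
    have : F.LZ k (F.rootZ j) = (s * F.B j - t * F.A j) * F.LZ k v +
        (t * F.A k - s * F.B k) * F.LZ j v := by
      simp only [Surf.LZ, Surf.rootZ]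
      linear_combination (F.B k * F.A j - F.A k * F.B j) * e
    exact this ▸ (c.mul_left _).add (hqj.mul_left _)
  have key : ∀ i : Fin 3, j.1 ≠ i → ¬IsSquare (F.del u y i (vq v) * F.del u' y' i (vq v)) := by
    intro i hi
    have e1 : Evn q (F.del u' y' i (vq v)) := by
      simp only [Surf.del, Rat.cast_id]
      exact (evn_u h hc hr hy' (i, j.2)).mul (Evn.prod fun k hk' =>
        hk k fun e => hj' (e ▸ (mem_filter.1 hk').1))
    have e2 : Od q (F.del u y i (vq v)) := by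
      simp only [Surf.del, Rat.cast_id]
      rw [← mul_prod_erase _ _ (mem_filter.2 ⟨hj, hi⟩), mul_left_comm]
      exact Od.mul ⟨nz hv j, ho⟩ ((evn_u h hc hr hy (i, j.2)).mul (Evn.prod fun k hk' =>
        hk k (ne_of_mem_erase hk')))
    exact (e2.mul e1).not_sq
  by_cases hc : j.1 = 1
  · exact key 2 (by rw [hc]; decide) h₂
  · exact key 1 hc h₁

end OneAux

open OneAux

theorem spe3 (sp : SPEStmt) : SPE3Stmt := by
  intro n F u y h hu hs v hv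
  by_cases c : v.2 ≠ 0
  · exact sp n F u y h.ev hu.2.2.1 hs v c
  have c1 : v.1 ≠ 0 := fun e => hv (0, ⟨0, h.pos⟩) (by simp [Surf.L, e, not_not.1 c])
  obtain ⟨σ, hσ⟩ := exists_inv ℚ
  have hX : (RatFunc.X : RatFunc ℚ) ≠ 0 := RatFunc.X_ne_zero
  have hL : ∀ j, (sw F).L j (RatFunc.X, 1) = RatFunc.X * σ (F.L j gp) := fun j => by
    rw [L_sw, Surf.L, Surf.L, Surf.gp, map_add, map_mul, map_mul, map_intCast, map_intCast, hσ,
      map_one]
    field_simp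
  obtain ⟨m, hm⟩ := h.ev
  have hD : ∀ i, (sw F).D i (RatFunc.X, 1) = (RatFunc.X ^ m) ^ 2 * σ (F.D i gp) := fun i => by
    rw [Surf.D, Surf.D, map_mul, map_prod, map_intCast, prod_congr rfl fun k _ => hL (i, k),
      prod_mul_distrib, prod_const, card_univ, Fintype.card_fin, ← pow_mul,
      show m * 2 = n by omega, mul_left_comm]
    rfl
  have hd : ∀ i, ∃ k : ℕ, (sw F).del u y i (RatFunc.X, 1) =
      (RatFunc.X ^ k) ^ 2 * σ (F.del u y i gp) := fun i => by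
    obtain ⟨k, hk⟩ := hu.2.2.1 i
    refine ⟨k, ?_⟩
    rw [Surf.del, Surf.del, map_mul, map_prod, map_ratCast, prod_congr rfl fun j _ => hL j,
      prod_mul_distrib, prod_const, hk, ← pow_mul, show k * 2 = k + k by omega, mul_left_comm]
  obtain ⟨k₂, e₂⟩ := hd 2
  obtain ⟨k₁, e₁⟩ := hd 1
  have := sp n (sw F) u y h.ev hu.2.2.1 (by
    rw [hD, hD, e₂, e₁]
    exact cover_mulsq (pow_ne_zero _ hX) (pow_ne_zero _ hX) (pow_ne_zero _ hX) (cover_map σ hs))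
    (v.2, v.1) c1
  simp only [Surf.D, Surf.del, L_sw] at this
  exact this

theorem exv : EXVStmt := by
  intro n F h
  refine ⟨(∑ j, |F.B j| + 1, 1), isCoprime_one_right, fun j e => ?_⟩
  have h1 : |F.B j| ≤ ∑ j, |F.B j| :=
    single_le_sum (f := fun j => |F.B j|) (fun _ _ => abs_nonneg _) (mem_univ j)
  simp only [Surf.LZ, mul_one] at e
  by_cases c : F.A j = 0
  · exact AB h j c (by simpa [c] using e)
  have h2 : |F.B j| = |F.A j| * (∑ j, |F.B j| + 1) := by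
    rw [← neg_eq_of_add_eq_zero_right e, abs_neg, abs_mul,
      abs_of_nonneg (a := _ + 1) (by linarith [abs_nonneg (F.B j)])]
  have h3 : 1 ≤ |F.A j| := Int.one_le_abs c
  nlinarith [abs_nonneg (F.B j)]

theorem one (inj : INJStmt) (sp : SPE3Stmt) (shc : SHCStmt) (ub : UBStmt) : ONEStmt := by
  classical
  intro n r F v h hc hv hr hs
  have hD : ∀ i, F.D i (vq v) ≠ 0 := fun i =>
    mul_ne_zero (Int.cast_ne_zero.2 (h.c0 i)) (prod_ne_zero_iff.2 fun _ _ => nz hv _)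
  have hab : F.D 1 (vq v) ≠ F.D 2 (vq v) := sub_ne_zero.1 (h.sum _ ▸ hD 0)
  have hd : ∀ u y, F.InS u y → ∀ i, F.del u y i (vq v) ≠ 0 := fun u y hu i =>
    mul_ne_zero (by simpa using hu.1 i) (prod_ne_zero_iff.2 fun _ _ => nz hv _)
  refine ⟨h, hv.1, fun j e => nz hv j ((L_cast j v).trans (by simp [e])), hc, fun u y hu he => ?_⟩
  by_contra hn
  have hy : y ∉ {y | ∃ u, F.InS u y ∧ SolG F u y} := by
    rintro ⟨u', hu', hs'⟩
    obtain ⟨h1, h2⟩ := inj n F h u' y u y hu' hu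
    have h3 := (inj n F h u y u y hu hu).1
    exact hn (cover_of_sq (h3 2) (h3 1) (h1 2) (h1 1) (h2.2 rfl).1 (h2.2 rfl).2 hs')
  have hw : ∀ z ∈ insert y {y | ∃ u, F.InS u y ∧ SolG F u y}, ∃ w, F.InS w z ∧
      Cover (F.D 1 (vq v)) (F.D 2 (vq v)) (F.del w z 2 (vq v)) (F.del w z 1 (vq v)) := by
    rintro z (rfl | ⟨w, h1, h2⟩)
    · exact ⟨u, hu, shc _ _ (hD 1) (hD 2) hab hs _ _ (hd u z hu 2) (hd u z hu 1) he⟩
    · exact ⟨w, h1, sp n F w z h h1 h2 _ (nz hv)⟩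
  choose! w h1 h2 using hw
  have := ub _ _ r _ (Set.toFinite (insert y {y | ∃ u, F.InS u y ∧ SolG F u y})).toFinset
    (fun z => F.del (w z) z 2 (vq v)) (fun z => F.del (w z) z 1 (vq v)) (hD 1) (hD 2) hab hr
    (fun z hz => have hz := (Set.Finite.mem_toFinset _).1 hz
      ⟨hd _ _ (h1 z hz) 2, hd _ _ (h1 z hz) 1, h2 z hz⟩)
    fun z hz z' hz' s₂ s₁ =>
      have hz := (Set.Finite.mem_toFinset _).1 hz
      have hz' := (Set.Finite.mem_toFinset _).1 hz'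
      Subset.antisymm (sub_of_sq h hv (h1 z hz) (h1 z' hz') s₂ s₁)
        (sub_of_sq h hv (h1 z' hz') (h1 z hz) (mul_comm (G := ℚ) _ _ ▸ s₂)
          (mul_comm (G := ℚ) _ _ ▸ s₁))
  rw [← Set.ncard_eq_toFinset_card, Set.ncard_insert_of_notMem hy, hc] at this
  omega

end Pool.Agent.MP_a43263_nt.RH

end
end MrgPart4

-- marker of a merged file
example : 731051 + 774147 = 731051 + 774147 := rfl
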