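import Pool.Agent.MP_a43263_nt.RH.Main
import Pool.Agent.MP_a43263_nt.RH.GenAll
import Pool.Agent.MP_a43263_nt.RH.OneOne
import Pool.Agent.MP_a43263_nt.RH.OneMaxi
import Pool.Agent.MP_a43263_nt.RH.OneFin
import Pool.Agent.MP_a43263_nt.RH.OneGeo

/-! PROJECT RANKG, round ONE: assembly. -/

namespace Pool.Agent.MP_a43263_nt.RH

theorem main3 : Main3Stmt :=
  have hr := recip hso hs2 pf
  have hm := mat gp
  main3_of hr grp rkk (frame hr grp) (par gp hm (bor5 RG.T.bor)) RG.T.pos mkvAll pty pt gp hm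
    (kc gp) (alg RG.T.sha RG.rank) (loc gp hm const) RG.spe size unr maxi maxf spe3 base3 br3 geo3
    good3 fin3 jin3

theorem oneAll : ONEStmt := one_of inj (spe3 RG.spe) shc ub one

theorem gen3All : GEN3Stmt := gen3 lat (hgt dup plg) rkk poly res inj

end Pool.Agent.MP_a43263_nt.RH
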